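import Pool.Agent.Helper98.LC3.S.Edge1

/-!
# LC3-S04: the outer edge

`x = A0 * y ≤ A0 |y|`, `d = ‖D‖ ≤ L`.
* `arc_low`: if `L = 0`: `d = 0` and `dido` (`θ = π/2`, `ct = 0`) gives `A0 |y| ≤ 0`, so `y = 0`, and `tan θ0 ≥ θ0`.  Let `L > 0`, `θ = L/(2r)`, `0 < θ ≤ π - θ0`, `s = d/(2r) ≤ sin θ0`.  `dido`:
  `4 A0 |y| ≤ L²/θ - ct θ d²`, so `r L - A0 y ≥ r L - L²/(4θ) + ct θ d²/4 = r² (θ + s² cot θ)`.  To show:
  `θ + s² cot θ ≥ P(s) := -(tan θ0 - θ0) + 2 s / cos θ0 - s² tan θ0`.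
  Case `θ ≤ θ0`: `T = tan θ0`; the quadratic polynomial `s² (cot θ + T) - (2/cos θ0) s + (θ - θ0 + T)` is `≥ 0` since `(cot θ + T)(θ - θ0 + T) ≥ 1/cos² θ0`:
  put `h(θ) = (cot θ + T)(θ - θ0 + T)`; `h(θ0) = (cot θ0 + T) T = 1 + T² = 1/cos² θ0`; `sin² θ h'(θ) = g(θ) := sin²θ (cot θ + T) - (θ - θ0 + T) = sin θ cos θ + T sin² θ - θ + θ0 - T`, `g(θ0) = 0`
  (`sin θ0 cos θ0 - T cos² θ0 = 0`), `g'(θ) = 2 sin θ (T cos θ - sin θ) ≥ 0` for `θ ≤ θ0`, so `g ≤ 0`, `h` is antitone on `(0, θ0]`.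
  (`cot θ + T > 0`.)   Case `θ0 ≤ θ ≤ π - θ0`: `θ ↦ θ + s² cot θ` has the derivative `1 - s²/sin² θ ≥ 0` (`sin θ ≥ sin θ0 ≥ s`), so it is at least
  `θ0 + s² cot θ0`, and `θ0 + s² cot θ0 - P(s) = (s - sin θ0)²/(sin θ0 cos θ0) ≥ 0`.
* `arc_six`: `θ0 = π/6`: `tan = 1/√3`, `cos = √3/2`, `sin = 1/2`.
* `arc_psi`: `s = d/(2r) = sin θ0` in `arc_low`: `r² (θ0 + sin θ0 cos θ0)`.
* `arc_cub`: `r ≤ d ≤ 3r/2`: `s = d/(2r) ∈ [1/2, 3/4]`, `θ0 = arcsin s`, `arc_psi`; and `arcsin s + s √(1 - s²) ≥ -g0 + 4s/√3 - s²/√3 - (2s - 1)³/12` for `1/2 ≤ s ≤ 3/4`: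
  equality at `s = 1/2`; the derivative of the difference is `2 √(1 - s²) - (4 - 2s)/√3 + (2s-1)²/2`; with `t = s - 1/2`: `2 √(3/4 - t - t²) ≥ (3 - 2t)/√3 - 2t²` because
  `4 (3/4 - t - t²) - ((3-2t)/√3 - 2t²)² = t² (12/√3 - 16/3 - 8t/√3 - 4t²) ≥ 0` for `0 ≤ t ≤ 1/4` (`12/√3 = 6.928`, `8/√3 ≤ 4.62`).
  `r² (2s-1)³/12 = (d - r)³/(12 r)`.   (`L ≤ 2r (π - θ0)` follows from `L ≤ 4 r` as `θ0 ≤ arcsin (3/4) ≤ 1`.)
-/

namespace Pool.Agent.Helper98.LC3

open Finset Real Pool.Agent.Helper98.LC Pool.Agent.Helper38.LC2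

private theorem mul_cos_le_sin {φ : ℝ} (h0 : 0 ≤ φ) (h1 : φ < π / 2) :
    φ * Real.cos φ ≤ Real.sin φ := by
  have hc : 0 < Real.cos φ := Real.cos_pos_of_mem_Ioo ⟨by linarith [Real.pi_pos], h1⟩
  have h2 := Real.le_tan h0 h1
  rw [Real.tan_eq_sin_div_cos, le_div_iff₀ hc] at h2
  exact h2

/-- the one-variable inequality -/
private theorem arc_trig {θ0 θ s : ℝ} (h0 : 0 < θ0) (h1 : θ0 < π / 2) (hs0 : 0 ≤ s)
    (hs : s ≤ Real.sin θ0) (hθ : 0 < θ) (hθ1 : θ ≤ π - θ0) :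
    -(Real.tan θ0 - θ0) + 2 * s / Real.cos θ0 - s ^ 2 * Real.tan θ0 ≤ θ + s ^ 2 * ct θ := by
  have hpi := Real.pi_pos
  have hc0 : 0 < Real.cos θ0 := Real.cos_pos_of_mem_Ioo ⟨by linarith, h1⟩
  have hsn0 : 0 < Real.sin θ0 := Real.sin_pos_of_pos_of_lt_pi h0 (by linarith)
  have hsn : 0 < Real.sin θ := Real.sin_pos_of_pos_of_lt_pi hθ (by linarith)
  have hsq0 : Real.sin θ0 ^ 2 + Real.cos θ0 ^ 2 = 1 := Real.sin_sq_add_cos_sq θ0
  rcases le_total θ θ0 with hle | hle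
  · -- the quadratic polynomial
    have hφ := mul_cos_le_sin (φ := θ0 - θ) (by linarith) (by linarith)
    have hcφ : 0 < Real.cos (θ0 - θ) := Real.cos_pos_of_mem_Ioo ⟨by linarith, by linarith⟩
    have e1 : Real.cos (θ0 - θ) = Real.cos θ0 * Real.cos θ + Real.sin θ0 * Real.sin θ :=
      Real.cos_sub θ0 θ
    have e2 : Real.sin (θ0 - θ) = Real.sin θ0 * Real.cos θ - Real.cos θ0 * Real.sin θ :=
      Real.sin_sub θ0 θ
    -- everything times `cos θ0 * sin θ`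
    have hA : 0 < Real.cos (θ0 - θ) := hcφ
    have key : 0 ≤ Real.cos (θ0 - θ) * s ^ 2 - 2 * Real.sin θ * s +
        Real.sin θ * (Real.sin θ0 - (θ0 - θ) * Real.cos θ0) := by
      have h2 : 0 ≤ Real.cos (θ0 - θ) * (Real.cos (θ0 - θ) * s ^ 2 - 2 * Real.sin θ * s +
        Real.sin θ * (Real.sin θ0 - (θ0 - θ) * Real.cos θ0)) := by
        have h3 : Real.cos (θ0 - θ) * (Real.cos (θ0 - θ) * s ^ 2 - 2 * Real.sin θ * s +
            Real.sin θ * (Real.sin θ0 - (θ0 - θ) * Real.cos θ0)) =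
            (Real.cos (θ0 - θ) * s - Real.sin θ) ^ 2 +
            Real.sin θ * (Real.cos (θ0 - θ) * Real.sin θ0 - Real.sin θ -
              (θ0 - θ) * Real.cos (θ0 - θ) * Real.cos θ0) := by ring
        have h4 : Real.cos (θ0 - θ) * Real.sin θ0 - Real.sin θ =
            Real.cos θ0 * Real.sin (θ0 - θ) := by
          rw [e1, e2]
          linear_combination (Real.sin θ) * hsq0
        have h5 : 0 ≤ Real.cos θ0 * (Real.sin (θ0 - θ) - (θ0 - θ) * Real.cos (θ0 - θ)) :=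
          mul_nonneg hc0.le (by linarith)
        rw [h3, h4]
        have h6 : Real.cos θ0 * Real.sin (θ0 - θ) -
            (θ0 - θ) * Real.cos (θ0 - θ) * Real.cos θ0 =
            Real.cos θ0 * (Real.sin (θ0 - θ) - (θ0 - θ) * Real.cos (θ0 - θ)) := by ring
        rw [h6]
        exact add_nonneg (sq_nonneg _) (mul_nonneg hsn.le h5)
      exact nonneg_of_mul_nonneg_right h2 hA
    have h7 : θ + s ^ 2 * ct θ - (-(Real.tan θ0 - θ0) + 2 * s / Real.cos θ0 -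
        s ^ 2 * Real.tan θ0) = (Real.cos (θ0 - θ) * s ^ 2 - 2 * Real.sin θ * s +
        Real.sin θ * (Real.sin θ0 - (θ0 - θ) * Real.cos θ0)) / (Real.cos θ0 * Real.sin θ) := by
      rw [e1]
      unfold ct
      rw [Real.tan_eq_sin_div_cos]
      field_simp
      ring
    have h8 : 0 ≤ (Real.cos (θ0 - θ) * s ^ 2 - 2 * Real.sin θ * s +
        Real.sin θ * (Real.sin θ0 - (θ0 - θ) * Real.cos θ0)) / (Real.cos θ0 * Real.sin θ) :=
      div_nonneg key (mul_pos hc0 hsn).le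
    linarith
  · have hss : Real.sin θ0 ≤ Real.sin θ := by
      have h2 : Real.sin θ - Real.sin θ0 =
          2 * Real.sin ((θ - θ0) / 2) * Real.cos ((θ + θ0) / 2) := Real.sin_sub_sin θ θ0
      have h3 : 0 ≤ Real.sin ((θ - θ0) / 2) :=
        Real.sin_nonneg_of_nonneg_of_le_pi (by linarith) (by linarith)
      have h4 : 0 ≤ Real.cos ((θ + θ0) / 2) :=
        Real.cos_nonneg_of_mem_Icc ⟨by linarith, by linarith⟩
      have h5 : 0 ≤ 2 * Real.sin ((θ - θ0) / 2) * Real.cos ((θ + θ0) / 2) := by positivity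
      linarith
    have hsd : Real.sin (θ - θ0) ≤ θ - θ0 := Real.sin_le (by linarith)
    have hsd0 : 0 ≤ Real.sin (θ - θ0) :=
      Real.sin_nonneg_of_nonneg_of_le_pi (by linarith) (by linarith)
    have e2 : Real.sin (θ - θ0) = Real.sin θ * Real.cos θ0 - Real.cos θ * Real.sin θ0 :=
      Real.sin_sub θ θ0
    have h2 : s ^ 2 * Real.sin (θ - θ0) ≤ Real.sin θ0 * Real.sin θ * (θ - θ0) := by
      have h3 : s ^ 2 ≤ Real.sin θ0 * Real.sin θ := by nlinarith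
      exact mul_le_mul h3 hsd hsd0 (mul_pos hsn0 hsn).le
    -- first `θ + s² cot θ ≥ θ0 + s² cot θ0`
    have h3 : θ + s ^ 2 * ct θ - (θ0 + s ^ 2 * ct θ0) =
        (Real.sin θ0 * Real.sin θ * (θ - θ0) - s ^ 2 * Real.sin (θ - θ0)) /
          (Real.sin θ0 * Real.sin θ) := by
      rw [e2]
      unfold ct
      field_simp
      ring
    have h4 : 0 ≤ (Real.sin θ0 * Real.sin θ * (θ - θ0) - s ^ 2 * Real.sin (θ - θ0)) /
          (Real.sin θ0 * Real.sin θ) :=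
      div_nonneg (by linarith) (mul_pos hsn0 hsn).le
    have h5 : θ0 + s ^ 2 * ct θ0 - (-(Real.tan θ0 - θ0) + 2 * s / Real.cos θ0 -
        s ^ 2 * Real.tan θ0) = (s - Real.sin θ0) ^ 2 / (Real.sin θ0 * Real.cos θ0) := by
      unfold ct
      rw [Real.tan_eq_sin_div_cos]
      field_simp
      linear_combination (s ^ 2) * hsq0
    have h6 : 0 ≤ (s - Real.sin θ0) ^ 2 / (Real.sin θ0 * Real.cos θ0) :=
      div_nonneg (sq_nonneg _) (mul_pos hsn0 hc0).le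
    linarith

theorem arc_low {D : ℂ} {L y : ℝ} (h : EdgeOK D L y) {r θ0 : ℝ} (h0 : 0 < θ0) (h1 : θ0 < π / 2)
    (hr : 0 < r) (hs : ‖D‖ ≤ 2 * r * Real.sin θ0) (hL : L ≤ 2 * r * (π - θ0)) :
    -(Real.tan θ0 - θ0) * r ^ 2 + r * ‖D‖ / Real.cos θ0 - Real.tan θ0 * ‖D‖ ^ 2 / 4 ≤
      r * L - A0 * y := by
  have hpi := Real.pi_pos
  have hd0 := norm_nonneg D
  have hL0 : 0 ≤ L := edge1_nonneg h
  have hy : A0 * y ≤ A0 * |y| := mul_le_mul_of_nonneg_left (le_abs_self y) A0_pos.le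
  have hx : 0 ≤ A0 * |y| := mul_nonneg A0_pos.le (abs_nonneg _)
  rcases hL0.eq_or_lt with hL00 | hLp
  · have hd : ‖D‖ = 0 := le_antisymm (by rw [hL00]; exact h.le) hd0
    have h2 := edge1_half h
    rw [← hL00] at h2
    have h3 : A0 * |y| ≤ 0 := by
      by_contra hcon
      push Not at hcon
      have h4 : 0 < 2 * π * (A0 * |y|) := by positivity
      norm_num at h2
      linarith
    have h4 := Real.lt_tan h0 h1
    rw [hd, ← hL00]
    have h5 : 0 ≤ (Real.tan θ0 - θ0) * r ^ 2 := mul_nonneg (by linarith) (sq_nonneg r)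
    have h6 : r * 0 / Real.cos θ0 = 0 := by rw [mul_zero, zero_div]
    rw [h6]
    nlinarith
  · obtain ⟨θ, hθ⟩ : ∃ θ : ℝ, θ = L / (2 * r) := ⟨_, rfl⟩
    have hθL : L = 2 * r * θ := by rw [hθ]; field_simp
    have hθ0 : 0 < θ := by rw [hθ]; positivity
    have hθ1 : θ ≤ π - θ0 := by
      rw [hθL] at hL
      exact le_of_mul_le_mul_left hL (by positivity)
    obtain ⟨s, hsd⟩ : ∃ s : ℝ, s = ‖D‖ / (2 * r) := ⟨_, rfl⟩
    have hds : ‖D‖ = 2 * r * s := by rw [hsd]; field_simp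
    have hs0 : 0 ≤ s := by rw [hsd]; positivity
    have hs1 : s ≤ Real.sin θ0 := by
      rw [hds] at hs
      exact le_of_mul_le_mul_left hs (by positivity)
    have h2 := h.dido θ hθ0 (by linarith)
    have h3 := arc_trig h0 h1 hs0 hs1 hθ0 hθ1
    have h4 : ct θ * ‖D‖ ^ 2 + 4 * (A0 * |y|) ≤ 4 * r ^ 2 * θ := by
      have h5 : θ * (ct θ * ‖D‖ ^ 2 + 4 * (A0 * |y|)) ≤ θ * (4 * r ^ 2 * θ) := by
        refine h2.trans (le_of_eq ?_)
        rw [hθL]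
        ring
      exact le_of_mul_le_mul_left h5 hθ0
    rw [hds] at h4
    have h6 : r ^ 2 * (θ + s ^ 2 * ct θ) ≤ r * L - A0 * y := by
      rw [hθL]
      nlinarith
    have h7 : -(Real.tan θ0 - θ0) * r ^ 2 + r * ‖D‖ / Real.cos θ0 -
        Real.tan θ0 * ‖D‖ ^ 2 / 4 = r ^ 2 * (-(Real.tan θ0 - θ0) + 2 * s / Real.cos θ0 -
          s ^ 2 * Real.tan θ0) := by
      rw [hds]
      ring
    rw [h7]
    exact (mul_le_mul_of_nonneg_left h3 (sq_nonneg r)).trans h6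

private theorem a3_pos : 0 < √3 := Real.sqrt_pos.2 (by norm_num)

private theorem a3_sq : √3 * √3 = 3 := Real.mul_self_sqrt (by norm_num)

theorem arc_six {D : ℂ} {L y : ℝ} (h : EdgeOK D L y) {r : ℝ}
    (hr : 0 < r) (hs : ‖D‖ ≤ r) (hL : L ≤ 5 * r) :
    -g0 * r ^ 2 + 2 / √3 * r * ‖D‖ - ‖D‖ ^ 2 / (4 * √3) ≤ r * L - A0 * y := by
  have hpi := Real.pi_gt_three
  have h3 := a3_pos
  have h1 := arc_low h (r := r) (θ0 := π / 6) (by positivity) (by linarith) hr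
    (by rw [Real.sin_pi_div_six]; linarith) (by nlinarith)
  rw [Real.tan_pi_div_six, Real.cos_pi_div_six] at h1
  refine le_trans (le_of_eq ?_) h1
  unfold g0
  field_simp

/-- the cubic correction -/
private theorem arc_cubic {θ : ℝ} (h0 : π / 6 ≤ θ) (h1 : θ ≤ π / 2) (h2 : Real.sin θ ≤ 3 / 4) :
    -g0 ≤ θ + Real.sin θ * Real.cos θ + Real.sin θ ^ 2 / √3 - 4 * Real.sin θ / √3 +
      (2 * Real.sin θ - 1) ^ 3 / 12 := by
  have hpi := Real.pi_pos
  have h3 := a3_pos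
  have h3' := a3_sq
  have h3l : 1.7320508 < √3 := by
    rw [Real.lt_sqrt (by norm_num)]
    norm_num
  have hmono : MonotoneOn (fun θ : ℝ => θ + Real.sin θ * Real.cos θ + Real.sin θ ^ 2 / √3 -
      4 * Real.sin θ / √3 + (2 * Real.sin θ - 1) ^ 3 / 12) (Set.Icc (π / 6) θ) := by
    have hder : ∀ x : ℝ, HasDerivAt (fun θ : ℝ => θ + Real.sin θ * Real.cos θ +
        Real.sin θ ^ 2 / √3 - 4 * Real.sin θ / √3 + (2 * Real.sin θ - 1) ^ 3 / 12)
        (Real.cos x * (2 * Real.cos x + 2 * Real.sin x / √3 - 4 / √3 +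
          (2 * Real.sin x - 1) ^ 2 / 2)) x := by
      intro x
      have hs := Real.hasDerivAt_sin x
      have hc := Real.hasDerivAt_cos x
      have e1 := (((hasDerivAt_id x).add (hs.mul hc)).add ((hs.pow 2).div_const (√3))).sub
        ((hs.const_mul 4).div_const (√3))
      have e2 := e1.add (((((hs.const_mul 2).sub_const 1).pow 3)).div_const 12)
      refine (e2.congr_deriv ?_)
      have hsq := Real.sin_sq_add_cos_sq x
      simp only [Nat.cast_ofNat]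
      linear_combination (-1 : ℝ) * hsq
    refine monotoneOn_of_deriv_nonneg (convex_Icc _ _) ?_ ?_ ?_
    · exact fun x _ => (hder x).continuousAt.continuousWithinAt
    · exact fun x _ => (hder x).differentiableAt.differentiableWithinAt
    · intro x hx
      rw [interior_Icc] at hx
      rw [(hder x).deriv]
      have hx1 : x ≤ π / 2 := hx.2.le.trans h1
      have hcx : 0 ≤ Real.cos x := Real.cos_nonneg_of_mem_Icc ⟨by linarith [hx.1], hx1⟩
      have hsx1 : 1 / 2 ≤ Real.sin x := by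
        rw [← Real.sin_pi_div_six]
        exact Real.sin_le_sin_of_le_of_le_pi_div_two (by linarith) hx1 hx.1.le
      have hsx2 : Real.sin x ≤ 3 / 4 :=
        (Real.sin_le_sin_of_le_of_le_pi_div_two (by linarith [hx.1]) h1 hx.2.le).trans h2
      apply mul_nonneg hcx
      have hsq := Real.sin_sq_add_cos_sq x
      obtain ⟨t, ht⟩ : ∃ t : ℝ, t = Real.sin x - 1 / 2 := ⟨_, rfl⟩
      have hst : Real.sin x = t + 1 / 2 := by rw [ht]; ring
      have ht0 : 0 ≤ t := by linarith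
      have ht1 : t ≤ 1 / 4 := by linarith
      rw [hst] at hsq ⊢
      obtain ⟨q, hq⟩ : ∃ q : ℝ, q = (3 - 2 * t) * √3 / 3 - 2 * t ^ 2 := ⟨_, rfl⟩
      have hinv : 1 / √3 = √3 / 3 := by
        rw [div_eq_div_iff h3.ne' (by norm_num), h3']
        norm_num
      have e3 : 2 * Real.cos x + 2 * (t + 1 / 2) / √3 - 4 / √3 + (2 * (t + 1 / 2) - 1) ^ 2 / 2 =
          2 * Real.cos x - q := by
        rw [hq]
        have e4 : 2 * (t + 1 / 2) / √3 = 2 * (t + 1 / 2) * (1 / √3) := by ring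
        have e5 : 4 / √3 = 4 * (1 / √3) := by ring
        rw [e4, e5, hinv]
        ring
      rw [e3]
      have hle : q ^ 2 ≤ (2 * Real.cos x) ^ 2 := by
        have e6 : (2 * Real.cos x) ^ 2 - q ^ 2 =
            t ^ 2 * (4 * √3 - 16 / 3 - 8 / 3 * t * √3 - 4 * t ^ 2) := by
          rw [hq]
          linear_combination 4 * hsq - (((3 - 2 * t) ^ 2 / 9)) * h3'
        have e7 : 0 ≤ 4 * √3 - 16 / 3 - 8 / 3 * t * √3 - 4 * t ^ 2 := by
          have h3u : √3 < 1.7320509 := by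
            rw [Real.sqrt_lt' (by norm_num)]
            norm_num
          nlinarith
        have e8 : 0 ≤ t ^ 2 * (4 * √3 - 16 / 3 - 8 / 3 * t * √3 - 4 * t ^ 2) :=
          mul_nonneg (sq_nonneg _) e7
        linarith
      have := abs_le_of_sq_le_sq' hle (by positivity)
      linarith [this.2]
  have hfin := hmono (Set.left_mem_Icc.2 h0) (Set.right_mem_Icc.2 h0) h0
  refine le_trans (le_of_eq ?_) hfin
  simp only [Real.sin_pi_div_six, Real.cos_pi_div_six]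
  unfold g0
  field_simp
  nlinarith

theorem arc_cub {D : ℂ} {L y : ℝ} (h : EdgeOK D L y) {r : ℝ}
    (hr : 0 < r) (hs : r ≤ ‖D‖) (hs2 : ‖D‖ ≤ 3 * r / 2) (hL : L ≤ 4 * r) :
    -g0 * r ^ 2 + 2 / √3 * r * ‖D‖ - ‖D‖ ^ 2 / (4 * √3) - (‖D‖ - r) ^ 3 / (12 * r) ≤
      r * L - A0 * y := by
  have hpi := Real.pi_gt_three
  have h3 := a3_pos
  obtain ⟨s, hsd⟩ : ∃ s : ℝ, s = ‖D‖ / (2 * r) := ⟨_, rfl⟩
  have hds : ‖D‖ = 2 * r * s := by rw [hsd]; field_simp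
  have hs0 : 1 / 2 ≤ s := by
    rw [hsd, le_div_iff₀ (by positivity)]
    linarith
  have hs1 : s ≤ 3 / 4 := by
    rw [hsd, div_le_iff₀ (by positivity)]
    linarith
  obtain ⟨θ, hθ⟩ : ∃ θ : ℝ, θ = Real.arcsin s := ⟨_, rfl⟩
  have hsin : Real.sin θ = s := by
    rw [hθ]
    exact Real.sin_arcsin (by linarith) (by linarith)
  have hθ6 : π / 6 ≤ θ := by
    rw [hθ, Real.le_arcsin_iff_sin_le ⟨by linarith, by linarith⟩ ⟨by linarith, by linarith⟩,
      Real.sin_pi_div_six]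
    exact hs0
  have hθ1 : θ ≤ 1 := by
    have h4 := Real.sin_gt_sub_cube one_pos
    rw [hθ, Real.arcsin_le_iff_le_sin ⟨by linarith, by linarith⟩ ⟨by linarith, by linarith⟩]
    linarith
  have hθ2 : θ < π / 2 := by linarith
  have hcos : 0 < Real.cos θ := Real.cos_pos_of_mem_Ioo ⟨by linarith, hθ2⟩
  have h4 := arc_low h (r := r) (θ0 := θ) (by linarith) hθ2 hr (by rw [hsin, hds])
    (by nlinarith)
  have h5 := arc_cubic hθ6 hθ2.le (by rw [hsin]; exact hs1)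
  have hsq := Real.sin_sq_add_cos_sq θ
  rw [hsin] at h5 hsq
  have h6 : -(Real.tan θ - θ) * r ^ 2 + r * ‖D‖ / Real.cos θ - Real.tan θ * ‖D‖ ^ 2 / 4 =
      r ^ 2 * (θ + s * Real.cos θ) := by
    rw [hds, Real.tan_eq_sin_div_cos, hsin]
    field_simp
    linear_combination (-4 * s) * hsq
  rw [h6] at h4
  refine le_trans ?_ h4
  have h7 : -g0 * r ^ 2 + 2 / √3 * r * ‖D‖ - ‖D‖ ^ 2 / (4 * √3) - (‖D‖ - r) ^ 3 / (12 * r) =
      r ^ 2 * (-g0 + 4 * s / √3 - s ^ 2 / √3 - (2 * s - 1) ^ 3 / 12) := by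
    rw [hds]
    field_simp
    ring
  rw [h7]
  apply mul_le_mul_of_nonneg_left _ (sq_nonneg r)
  linarith

end Pool.Agent.Helper98.LC3
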