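import Pool.Agent.Helper98.LC3.S.Edge1

/-!
# LC3-S03: the basic inequality for a face with five edges, one of them outer

`X = A0 (y1 + y2 + y3 + y4)`, `Lin = l1 + l2 + l3 + l4`, `S = ‖s1‖ + ‖b1‖ + ‖b2‖ + ‖s2‖`, `H = HH .. = (Lin + be X)/2` (`be = 2/√3`, `be * A0 = 3`, `be² = 4/3`), `m = min 1 a`, `r = rr τ`, `p = τ/√3`,
`r = (√3/2)(1 + p²)`.  All inner lengths are `≤ 3 m ≤ 3`.
* `HH_nonneg`: `edge1_lin`: `be |A0 y_i| ≤ (2π/3) A0 |y_i| ≤ l_i`, so `|be X| ≤ Lin`.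
* `S² + be² X² ≤ Lin²`: the vectors `(‖s1‖, be A0 y1)`, ... in the plane have length `≤ l1`, ... (`edge1_sq`); triangle inequality (compare `mink` in `Pool/Agent/Helper38/LC2/Edge.lean`).
  With `Lin = 2H - be X`: `S² ≤ 4 H (H - be X)`, `H - be X = (Lin - be X)/2 ≥ 0`.
* `star41`: `p S ≤ p 2 √(H (H - be X)) ≤ p² H + (H - be X)`, so `(1 + p²) H ≥ be X + p S`; multiply by `√3/2`: `r H ≥ X + τ S/2`, and `X = A0 a - pent - A0 yO` (`area`).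
  Without roots: `(p² H + (H - be X))² ≥ 4 p² H (H - be X) ≥ p² S²`.
* `star41R`: `H > 0`: `(1 + p²) H - be X - p S = (4 H (H - be X) - S²)/(4H) + (S - 2pH)²/(4H) ≥ (S - 2pH)²/(4H)`; multiply by `√3/2`.
* `master1`: `r * 3 m = A0 m + (√3/2) τ² m` (`A0 = 3√3/2`).
-/

namespace Pool.Agent.Helper98.LC3

open Finset Real Pool.Agent.Helper98.LC Pool.Agent.Helper38.LC2

variable {a : ℝ} {D s1 b1 b2 s2 : ℂ} {L l1 l2 l3 l4 yO y1 y2 y3 y4 : ℝ}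

private theorem st_s3 : √3 * √3 = 3 := Real.mul_self_sqrt (by norm_num)

private theorem st_s3_pos : 0 < √3 := Real.sqrt_pos.2 (by norm_num)

private theorem st_edge {ch : ℂ} {l y : ℝ} (h : EdgeOK ch l y) (hl : l ≤ 3) :
    ‖ch‖ ^ 2 + (3 * y) ^ 2 ≤ l ^ 2 := by
  have h1 := edge1_sq h hl
  have h2 : 4 / 3 * (A0 * y) ^ 2 = (3 * y) ^ 2 := by
    have h3 : A0 = 3 * √3 / 2 := rfl
    rw [h3]
    linear_combination 3 * y ^ 2 * st_s3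
  linarith

private theorem st_edge_lin {ch : ℂ} {l y : ℝ} (h : EdgeOK ch l y) (hl : l ≤ 3) :
    -l ≤ 3 * y ∧ 3 * y ≤ l := by
  have h1 := st_edge h hl
  have h2 : (3 * y) ^ 2 ≤ l ^ 2 := by
    have := sq_nonneg ‖ch‖
    linarith
  exact abs_le.1 (abs_le_of_sq_le_sq h2 (edge1_nonneg h))

private theorem st_norm {s z l : ℝ} (hl : 0 ≤ l) (h : s ^ 2 + z ^ 2 ≤ l ^ 2) :
    ‖(⟨s, z⟩ : ℂ)‖ ≤ l := by
  rw [Complex.norm_def, Complex.normSq_mk]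
  refine Real.sqrt_le_iff.2 ⟨hl, ?_⟩
  nlinarith

private theorem st_cap (h : Face41 a D s1 b1 b2 s2 L l1 l2 l3 l4 yO y1 y2 y3 y4) :
    l1 ≤ 3 ∧ l2 ≤ 3 ∧ l3 ≤ 3 ∧ l4 ≤ 3 := by
  have hm : min 1 a ≤ 1 := min_le_left _ _
  have c1 := h.cap1
  have c2 := h.cap2
  have c3 := h.cap3
  have c4 := h.cap4
  refine ⟨?_, ?_, ?_, ?_⟩ <;> linarith

private theorem st_mink (h : Face41 a D s1 b1 b2 s2 L l1 l2 l3 l4 yO y1 y2 y3 y4) :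
    (‖s1‖ + ‖b1‖ + ‖b2‖ + ‖s2‖) ^ 2 + (3 * (y1 + y2 + y3 + y4)) ^ 2 ≤
      (l1 + l2 + l3 + l4) ^ 2 := by
  obtain ⟨c1, c2, c3, c4⟩ := st_cap h
  have h1 := st_norm (edge1_nonneg h.e1) (st_edge h.e1 c1)
  have h2 := st_norm (edge1_nonneg h.e2) (st_edge h.e2 c2)
  have h3 := st_norm (edge1_nonneg h.e3) (st_edge h.e3 c3)
  have h4 := st_norm (edge1_nonneg h.e4) (st_edge h.e4 c4)
  have hs : (⟨‖s1‖ + ‖b1‖ + ‖b2‖ + ‖s2‖, 3 * (y1 + y2 + y3 + y4)⟩ : ℂ) =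
      ⟨‖s1‖, 3 * y1⟩ + ⟨‖b1‖, 3 * y2⟩ + ⟨‖b2‖, 3 * y3⟩ + ⟨‖s2‖, 3 * y4⟩ := by
    apply Complex.ext
    · simp
    · simp
      ring
  have h5 : ‖(⟨‖s1‖ + ‖b1‖ + ‖b2‖ + ‖s2‖, 3 * (y1 + y2 + y3 + y4)⟩ : ℂ)‖ ≤
      l1 + l2 + l3 + l4 := by
    rw [hs]
    refine (norm_add_le _ _).trans ?_
    refine add_le_add ((norm_add_le _ _).trans ?_) h4
    refine add_le_add ((norm_add_le _ _).trans ?_) h3
    exact add_le_add h1 h2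
  have h6 := pow_le_pow_left₀ (norm_nonneg _) h5 2
  rw [← Complex.normSq_eq_norm_sq, Complex.normSq_mk] at h6
  nlinarith

private theorem st_KH (h : Face41 a D s1 b1 b2 s2 L l1 l2 l3 l4 yO y1 y2 y3 y4) :
    ∃ K : ℝ, 0 ≤ K ∧ 3 * (y1 + y2 + y3 + y4) = HH l1 l2 l3 l4 y1 y2 y3 y4 - K ∧
      (‖s1‖ + ‖b1‖ + ‖b2‖ + ‖s2‖) ^ 2 ≤ 4 * HH l1 l2 l3 l4 y1 y2 y3 y4 * K := by
  obtain ⟨c1, c2, c3, c4⟩ := st_cap h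
  have h1 := st_edge_lin h.e1 c1
  have h2 := st_edge_lin h.e2 c2
  have h3 := st_edge_lin h.e3 c3
  have h4 := st_edge_lin h.e4 c4
  have h5 := st_mink h
  refine ⟨(l1 + l2 + l3 + l4 - 3 * (y1 + y2 + y3 + y4)) / 2, ?_, ?_, ?_⟩
  · linarith [h1.2, h2.2, h3.2, h4.2]
  · unfold HH
    ring
  · unfold HH
    nlinarith

theorem HH_nonneg (h : Face41 a D s1 b1 b2 s2 L l1 l2 l3 l4 yO y1 y2 y3 y4) :
    0 ≤ HH l1 l2 l3 l4 y1 y2 y3 y4 := by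
  obtain ⟨c1, c2, c3, c4⟩ := st_cap h
  have h1 := st_edge_lin h.e1 c1
  have h2 := st_edge_lin h.e2 c2
  have h3 := st_edge_lin h.e3 c3
  have h4 := st_edge_lin h.e4 c4
  unfold HH
  linarith [h1.1, h2.1, h3.1, h4.1]

private theorem st_area (h : Face41 a D s1 b1 b2 s2 L l1 l2 l3 l4 yO y1 y2 y3 y4) :
    A0 * a - pent D s1 b1 b2 - A0 * yO = √3 / 2 * (3 * (y1 + y2 + y3 + y4)) := by
  have h1 := h.area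
  have h3 : A0 = 3 * √3 / 2 := rfl
  rw [h3] at h1 ⊢
  linarith

private theorem st_div (τ : ℝ) : τ / √3 = √3 * τ / 3 := by
  rw [div_eq_div_iff st_s3_pos.ne' (by norm_num)]
  linear_combination (-τ) * st_s3

theorem star41 (h : Face41 a D s1 b1 b2 s2 L l1 l2 l3 l4 yO y1 y2 y3 y4) {τ : ℝ} (hτ : 0 ≤ τ) :
    A0 * a - pent D s1 b1 b2 - A0 * yO + τ * (‖s1‖ + ‖b1‖ + ‖b2‖ + ‖s2‖) / 2 ≤
      rr τ * HH l1 l2 l3 l4 y1 y2 y3 y4 := by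
  obtain ⟨K, hK, hY, hS⟩ := st_KH h
  have hH := HH_nonneg h
  rw [st_area h, rr_eq, hY]
  generalize HH l1 l2 l3 l4 y1 y2 y3 y4 = H at hH hS ⊢
  generalize ‖s1‖ + ‖b1‖ + ‖b2‖ + ‖s2‖ = S at hS ⊢
  have h3 := st_s3
  have h3p := st_s3_pos
  -- `τ S ≤ √3 (K + τ² H / 3)`
  have key : τ * S ≤ √3 * (K + τ ^ 2 / 3 * H) := by
    have hnn : 0 ≤ √3 * (K + τ ^ 2 / 3 * H) := by positivity
    refine le_of_sq_le_sq ?_ hnn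
    have e1 : (√3 * (K + τ ^ 2 / 3 * H)) ^ 2 = 3 * (K + τ ^ 2 / 3 * H) ^ 2 := by
      linear_combination (K + τ ^ 2 / 3 * H) ^ 2 * h3
    rw [e1, mul_pow]
    have e2 : τ ^ 2 * S ^ 2 ≤ τ ^ 2 * (4 * H * K) := mul_le_mul_of_nonneg_left hS (sq_nonneg τ)
    nlinarith [sq_nonneg (K - τ ^ 2 / 3 * H)]
  linarith

theorem star41R (h : Face41 a D s1 b1 b2 s2 L l1 l2 l3 l4 yO y1 y2 y3 y4) {τ : ℝ} (hτ : 0 ≤ τ)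
    (hH : 0 < HH l1 l2 l3 l4 y1 y2 y3 y4) :
    A0 * a - pent D s1 b1 b2 - A0 * yO + τ * (‖s1‖ + ‖b1‖ + ‖b2‖ + ‖s2‖) / 2 +
      √3 / 8 * (‖s1‖ + ‖b1‖ + ‖b2‖ + ‖s2‖ - 2 * τ / √3 * HH l1 l2 l3 l4 y1 y2 y3 y4) ^ 2 /
        HH l1 l2 l3 l4 y1 y2 y3 y4 ≤
      rr τ * HH l1 l2 l3 l4 y1 y2 y3 y4 := by
  obtain ⟨K, hK, hY, hS⟩ := st_KH h
  rw [st_area h, rr_eq, hY]
  generalize HH l1 l2 l3 l4 y1 y2 y3 y4 = H at hH hS ⊢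
  generalize ‖s1‖ + ‖b1‖ + ‖b2‖ + ‖s2‖ = S at hS ⊢
  have h3 := st_s3
  have h3p := st_s3_pos
  have h4 : 2 * τ / √3 = 2 * (√3 * τ / 3) := by
    rw [mul_div_assoc, st_div]
  rw [h4]
  have h5 : √3 / 8 * (S - 2 * (√3 * τ / 3) * H) ^ 2 / H =
      √3 / 8 * (S ^ 2 / H) - τ * S / 2 + √3 / 2 * (τ ^ 2 / 3) * H := by
    have h6 : √3 / 8 * (S - 2 * (√3 * τ / 3) * H) ^ 2 =
        √3 / 8 * S ^ 2 - τ * S / 2 * H + √3 / 2 * (τ ^ 2 / 3) * H * H := by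
      linear_combination (-(1 / 6) * τ * S * H + √3 * τ ^ 2 * H ^ 2 / 18) * h3
    rw [h6]
    field_simp
  rw [h5]
  have h7 : S ^ 2 / H ≤ 4 * K := by
    rw [div_le_iff₀ hH]
    linarith
  have h8 : √3 / 8 * (S ^ 2 / H) ≤ √3 / 8 * (4 * K) :=
    mul_le_mul_of_nonneg_left h7 (by positivity)
  linarith

private theorem st_rr (τ m : ℝ) : rr τ * (3 * m) = A0 * m + √3 / 2 * τ ^ 2 * m := by
  have h3 : A0 = 3 * √3 / 2 := rfl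
  rw [h3, rr_eq]
  ring

theorem master1 (h : Face41 a D s1 b1 b2 s2 L l1 l2 l3 l4 yO y1 y2 y3 y4) {τ : ℝ} (hτ : 0 ≤ τ) :
    rr τ * L - A0 * yO - √3 / 2 * τ ^ 2 + τ * (‖s1‖ + ‖b1‖ + ‖b2‖ + ‖s2‖) / 2 -
      pent D s1 b1 b2 + (A0 * (a - min 1 a) + √3 / 2 * τ ^ 2 * (1 - min 1 a)) ≤
      rr τ * (HH l1 l2 l3 l4 y1 y2 y3 y4 + L - 3 * min 1 a) := by
  have h1 := star41 h hτ
  have h2 := st_rr τ (min 1 a)
  linarith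

theorem master1R (h : Face41 a D s1 b1 b2 s2 L l1 l2 l3 l4 yO y1 y2 y3 y4) {τ : ℝ} (hτ : 0 ≤ τ)
    (hH : 0 < HH l1 l2 l3 l4 y1 y2 y3 y4) :
    rr τ * L - A0 * yO - √3 / 2 * τ ^ 2 + τ * (‖s1‖ + ‖b1‖ + ‖b2‖ + ‖s2‖) / 2 -
      pent D s1 b1 b2 + (A0 * (a - min 1 a) + √3 / 2 * τ ^ 2 * (1 - min 1 a)) +
      √3 / 8 * (‖s1‖ + ‖b1‖ + ‖b2‖ + ‖s2‖ - 2 * τ / √3 * HH l1 l2 l3 l4 y1 y2 y3 y4) ^ 2 /
        HH l1 l2 l3 l4 y1 y2 y3 y4 ≤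
      rr τ * (HH l1 l2 l3 l4 y1 y2 y3 y4 + L - 3 * min 1 a) := by
  have h1 := star41R h hτ hH
  have h2 := st_rr τ (min 1 a)
  linarith

end Pool.Agent.Helper98.LC3
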