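import Pool.Agent.Helper98.LC3.S.Def

/-!
# LC3-S05: elementary geometry

* `pent_eq`: with `V = -(b1 + b2)`, `U = (s1 + s2)/2 = (V - D)/2`, `N = (D + V)/2`, `M = (s1 - s2)/2`: `pent = cr N M + cr b1 b2 / 2` (expand everything, `s2 = -(D + s1 + b1 + b2)`).
* `s_low`: `τ ‖s1‖ ≥ ‖P + E‖ ‖s1‖ ≥ ip (P + E) s1`, `τ ‖s2‖ ≥ ip (P - E) s2`; the sum is `2 ip P U + 2 ip E M`.
* `tri_low`: `v = ‖b1 + b2‖`, `b = (‖b1‖ + ‖b2‖)/2`, `k = cr b1 b2`.  Claim (ellipse): `k² ≤ v² (b² - v²/4)`: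
  `‖b1‖² ‖b2‖² = ip² + k²` (`ip = ip b1 b2`), `v² = ‖b1‖² + ‖b2‖² + 2 ip`; with `x = ‖b1‖`, `y = ‖b2‖`: `4 b² - v² = 2xy - 2 ip ≥ 0` and
  `v² (4b² - v²) - 4 k² = (x² + y² + 2 ip)(2xy - 2ip) - 4 (x² y² - ip²) = 2 (xy - ip) (x² + y² + 2ip - 2(xy + ip)) = 2 (xy - ip)(x - y)² ≥ 0`.
  Let `g = √(b² - v²/4)`, `|k| ≤ v g`.  `τ b ≥ √(z² + v²/4) √(g² + v²/4) ≥ z (v/2) + (v/2) g` (Cauchy).
-/

namespace Pool.Agent.Helper98.LC3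

open Finset Real Pool.Agent.Helper98.LC Pool.Agent.Helper38.LC2

private theorem ip_le (a b : ℂ) : ip a b ≤ ‖a‖ * ‖b‖ := by
  have h1 : ip a b = ((starRingEnd ℂ) a * b).re := by
    simp [ip, Complex.mul_re]
  rw [h1]
  refine (Complex.re_le_norm _).trans ?_
  rw [norm_mul, Complex.norm_conj]

private theorem norm_sq_eq (a : ℂ) : ‖a‖ ^ 2 = a.re * a.re + a.im * a.im := by
  rw [Complex.sq_norm, Complex.normSq_apply]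

theorem pent_eq {D s1 b1 b2 s2 : ℂ} (h : D + s1 + b1 + b2 + s2 = 0) :
    pent D s1 b1 b2 = cr ((D - (b1 + b2)) / 2) ((s1 - s2) / 2) + cr b1 b2 / 2 := by
  obtain rfl : s2 = -(D + s1 + b1 + b2) := by linear_combination h
  simp only [pent, cr, Complex.div_ofNat_re, Complex.div_ofNat_im, Complex.add_re, Complex.add_im,
    Complex.sub_re, Complex.sub_im, Complex.neg_re, Complex.neg_im]
  ring

theorem s_low (s1 s2 P E : ℂ) {τ : ℝ} (h1 : ‖P + E‖ ≤ τ) (h2 : ‖P - E‖ ≤ τ) :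
    ip P ((s1 + s2) / 2) + ip E ((s1 - s2) / 2) ≤ τ * (‖s1‖ + ‖s2‖) / 2 := by
  have e1 : ip P ((s1 + s2) / 2) + ip E ((s1 - s2) / 2) = (ip (P + E) s1 + ip (P - E) s2) / 2 := by
    simp only [ip, Complex.div_ofNat_re, Complex.div_ofNat_im, Complex.add_re, Complex.add_im,
      Complex.sub_re, Complex.sub_im]
    ring
  have h3 := ip_le (P + E) s1
  have h4 := ip_le (P - E) s2
  have h5 := mul_le_mul_of_nonneg_right h1 (norm_nonneg s1)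
  have h6 := mul_le_mul_of_nonneg_right h2 (norm_nonneg s2)
  rw [e1]
  linarith

theorem ellipse (b1 b2 : ℂ) :
    (cr b1 b2) ^ 2 ≤ ‖b1 + b2‖ ^ 2 * (((‖b1‖ + ‖b2‖) / 2) ^ 2 - ‖b1 + b2‖ ^ 2 / 4) := by
  have hx := norm_sq_eq b1
  have hy := norm_sq_eq b2
  have hv := norm_sq_eq (b1 + b2)
  have hip := ip_le b1 b2
  rw [Complex.add_re, Complex.add_im] at hv
  have h1 : 0 ≤ (‖b1‖ * ‖b2‖ - ip b1 b2) * (‖b1‖ - ‖b2‖) ^ 2 :=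
    mul_nonneg (by linarith) (sq_nonneg _)
  have hk : (cr b1 b2) ^ 2 = ‖b1‖ ^ 2 * ‖b2‖ ^ 2 - (ip b1 b2) ^ 2 := by
    rw [hx, hy, cr, ip]
    ring
  have hv2 : ‖b1 + b2‖ ^ 2 = ‖b1‖ ^ 2 + ‖b2‖ ^ 2 + 2 * ip b1 b2 := by
    rw [hv, hx, hy, ip]
    ring
  rw [hk, hv2]
  nlinarith

theorem tri_low (b1 b2 : ℂ) {τ z : ℝ} (hz : 0 ≤ z) (hτ : 0 ≤ τ)
    (h : z ^ 2 + ‖b1 + b2‖ ^ 2 / 4 ≤ τ ^ 2) :
    ‖b1 + b2‖ * z / 2 + cr b1 b2 / 2 ≤ τ * (‖b1‖ + ‖b2‖) / 2 := by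
  have hell := ellipse b1 b2
  set v := ‖b1 + b2‖ with hvdef
  set b := (‖b1‖ + ‖b2‖) / 2 with hb
  set c := cr b1 b2 with hc
  have hv0 : 0 ≤ v := norm_nonneg _
  have hvb : v ≤ 2 * b := by
    have h1 := norm_add_le b1 b2
    rw [hb]
    linarith
  have hb0 : 0 ≤ b := by linarith
  have hg0 : 0 ≤ b ^ 2 - v ^ 2 / 4 := by nlinarith
  set g := √(b ^ 2 - v ^ 2 / 4) with hg
  have hg1 : 0 ≤ g := Real.sqrt_nonneg _
  have hg2 : g ^ 2 = b ^ 2 - v ^ 2 / 4 := Real.sq_sqrt hg0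
  have hcg : c ≤ v * g := by
    have h1 : c ^ 2 ≤ (v * g) ^ 2 := by
      rw [mul_pow, hg2]
      exact hell
    exact (abs_le_of_sq_le_sq' h1 (mul_nonneg hv0 hg1)).2
  have h2 : (z * (v / 2) + v / 2 * g) ^ 2 ≤ (τ * b) ^ 2 := by
    have h3 : (z * (v / 2) + v / 2 * g) ^ 2 ≤ (z ^ 2 + v ^ 2 / 4) * b ^ 2 := by
      have h4 : b ^ 2 = g ^ 2 + v ^ 2 / 4 := by rw [hg2]; ring
      rw [h4]
      nlinarith [sq_nonneg (z * g - v / 2 * (v / 2))]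
    refine h3.trans ?_
    rw [mul_pow]
    exact mul_le_mul_of_nonneg_right h (sq_nonneg b)
  have h5 : z * (v / 2) + v / 2 * g ≤ τ * b :=
    (abs_le_of_sq_le_sq' h2 (mul_nonneg hτ hb0)).2
  have h6 : τ * (‖b1‖ + ‖b2‖) / 2 = τ * b := by
    rw [hb]
    ring
  rw [h6]
  nlinarith

end Pool.Agent.Helper98.LC3
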