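import Pool.Agent.Helper98.LC3.S.Star
import Pool.Agent.Helper98.LC3.S.Arc
import Pool.Agent.Helper98.LC3.S.Geom

/-!
# LC3-S06: the basic inequality after elimination of the inner vertices

`V = -(b1 + b2)`, `N = (D + V)/2 = (D - (b1 + b2))/2`, `U = (s1 + s2)/2`, `M = (s1 - s2)/2`, `V - D = 2U`.
* `baseE`: `master1`, `pent_eq`, `s_low` (`τ (‖s1‖ + ‖s2‖)/2`), `tri_low` (`τ (‖b1‖ + ‖b2‖)/2`).
* `base41`: `baseE` with `E = I * N` (`ip (I * N) M = cr N M`, `‖E‖ = ‖N‖`) and `P = ± ρ N/‖N‖` (sign of `ip N U`; `‖P ± E‖² = ρ² + ‖N‖² ≤ τ²` as `P ⟂ E`), `ip P U = ρ |ip N U| / ‖N‖ ≥ ρ u`;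
  if `N = 0`: `E = 0`, `P = ρ U/‖U‖` (or `0` if `U = 0`, then `u = 0`).
* `base_far`: the same with `τ w = te w + 2 r ga w`, `w = (‖s1‖ + ‖s2‖)/2`, `te = τ - 2 (rr τ) ga ≥ 0`: `s_low` with `te` instead of `τ`.
-/

namespace Pool.Agent.Helper98.LC3

open Finset Real Pool.Agent.Helper98.LC Pool.Agent.Helper38.LC2

variable {a : ℝ} {D s1 b1 b2 s2 : ℂ} {L l1 l2 l3 l4 yO y1 y2 y3 y4 : ℝ}

theorem baseE (h : Face41 a D s1 b1 b2 s2 L l1 l2 l3 l4 yO y1 y2 y3 y4) {τ z : ℝ} (hτ : 0 ≤ τ)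
    (hz : 0 ≤ z) (hz2 : z ^ 2 + ‖b1 + b2‖ ^ 2 / 4 ≤ τ ^ 2) (P E : ℂ) (h1 : ‖P + E‖ ≤ τ)
    (h2 : ‖P - E‖ ≤ τ) :
    rr τ * L - A0 * yO - √3 / 2 * τ ^ 2 + ip P ((s1 + s2) / 2) + ip E ((s1 - s2) / 2) -
      cr ((D - (b1 + b2)) / 2) ((s1 - s2) / 2) + ‖b1 + b2‖ * z / 2 +
      (A0 * (a - min 1 a) + √3 / 2 * τ ^ 2 * (1 - min 1 a)) ≤
      rr τ * (HH l1 l2 l3 l4 y1 y2 y3 y4 + L - 3 * min 1 a) := by
  have hm := master1 h hτ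
  have hp := pent_eq h.sum
  have hs := s_low s1 s2 P E h1 h2
  have ht := tri_low b1 b2 hz hτ hz2
  linarith

private theorem nsq (z : ℂ) : ‖z‖ ^ 2 = z.re ^ 2 + z.im ^ 2 := by
  rw [Complex.sq_norm, Complex.normSq_apply]
  ring

private theorem ip_smul (c : ℝ) (x y : ℂ) : ip ((c : ℂ) * x) y = c * ip x y := by
  simp only [ip, Complex.re_ofReal_mul, Complex.im_ofReal_mul]
  ring

private theorem ip_self (x : ℂ) : ip x x = ‖x‖ ^ 2 := by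
  rw [nsq]
  simp only [ip]
  ring

private theorem ip_I (N M : ℂ) : ip (Complex.I * N) M = cr N M := by
  simp [ip, cr]
  ring

/-- the two vectors `P`, `E = I * N` -/
private theorem exists_P (N U : ℂ) {τ ρ u : ℝ} (hτ : 0 ≤ τ) (hρ : 0 ≤ ρ)
    (hρ2 : ‖N‖ ^ 2 + ρ ^ 2 ≤ τ ^ 2) (hu : u * ‖N‖ ≤ |ip N U|) (hu2 : u ≤ ‖U‖) :
    ∃ P : ℂ, ‖P + Complex.I * N‖ ≤ τ ∧ ‖P - Complex.I * N‖ ≤ τ ∧ ρ * u ≤ ip P U := by
  by_cases hN : N = 0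
  · subst hN
    have hρτ : ρ ≤ τ := by
      apply abs_le_of_sq_le_sq' _ hτ |>.2
      have := sq_nonneg ‖(0 : ℂ)‖
      linarith
    by_cases hU : U = 0
    · subst hU
      refine ⟨0, ?_, ?_, ?_⟩
      · simpa using hτ
      · simpa using hτ
      · have : u ≤ 0 := by simpa using hu2
        have h0 : ip 0 (0 : ℂ) = 0 := by simp [ip]
        rw [h0]
        exact mul_nonpos_of_nonneg_of_nonpos hρ this
    · have hU' : 0 < ‖U‖ := norm_pos_iff.2 hU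
      refine ⟨((ρ / ‖U‖ : ℝ) : ℂ) * U, ?_, ?_, ?_⟩
      · rw [mul_zero, add_zero, norm_mul, Complex.norm_real, Real.norm_eq_abs,
          abs_of_nonneg (by positivity), div_mul_cancel₀ _ hU'.ne']
        exact hρτ
      · rw [mul_zero, sub_zero, norm_mul, Complex.norm_real, Real.norm_eq_abs,
          abs_of_nonneg (by positivity), div_mul_cancel₀ _ hU'.ne']
        exact hρτ
      · rw [ip_smul, ip_self]
        have : ρ / ‖U‖ * ‖U‖ ^ 2 = ρ * ‖U‖ := by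
          field_simp
        rw [this]
        exact mul_le_mul_of_nonneg_left hu2 hρ
  · have hN' : 0 < ‖N‖ := norm_pos_iff.2 hN
    have key : ∀ σ : ℝ, σ ^ 2 = 1 → ∀ e : ℝ, e ^ 2 = 1 →
        ‖((σ * ρ / ‖N‖ : ℝ) : ℂ) * N + (e : ℂ) * (Complex.I * N)‖ ≤ τ := by
      intro σ hσ e he
      apply abs_le_of_sq_le_sq' _ hτ |>.2
      rw [nsq]
      have h1 : (((σ * ρ / ‖N‖ : ℝ) : ℂ) * N + (e : ℂ) * (Complex.I * N)).re =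
          σ * ρ / ‖N‖ * N.re - e * N.im := by
        simp only [Complex.add_re, Complex.re_ofReal_mul, Complex.I_mul_re]
        ring
      have h2 : (((σ * ρ / ‖N‖ : ℝ) : ℂ) * N + (e : ℂ) * (Complex.I * N)).im =
          σ * ρ / ‖N‖ * N.im + e * N.re := by
        simp only [Complex.add_im, Complex.im_ofReal_mul, Complex.I_mul_im]
      rw [h1, h2]
      have h3 := nsq N
      have h4 : (σ * ρ / ‖N‖) ^ 2 * ‖N‖ ^ 2 = ρ ^ 2 := by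
        rw [div_pow, div_mul_cancel₀ _ (by positivity), mul_pow, hσ, one_mul]
      have h5 : (σ * ρ / ‖N‖ * N.re - e * N.im) ^ 2 + (σ * ρ / ‖N‖ * N.im + e * N.re) ^ 2 =
          (σ * ρ / ‖N‖) ^ 2 * (N.re ^ 2 + N.im ^ 2) + e ^ 2 * (N.re ^ 2 + N.im ^ 2) := by
        ring
      rw [h5, ← h3, h4, he]
      linarith
    obtain ⟨σ, hσ, hσ2⟩ : ∃ σ : ℝ, σ ^ 2 = 1 ∧ |ip N U| = σ * ip N U := by
      rcases le_total 0 (ip N U) with h | h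
      · exact ⟨1, by norm_num, by rw [abs_of_nonneg h, one_mul]⟩
      · exact ⟨-1, by norm_num, by rw [abs_of_nonpos h]; ring⟩
    refine ⟨((σ * ρ / ‖N‖ : ℝ) : ℂ) * N, ?_, ?_, ?_⟩
    · have := key σ hσ 1 (by norm_num)
      simpa using this
    · have := key σ hσ (-1) (by norm_num)
      rw [sub_eq_add_neg]
      simpa using this
    · rw [ip_smul]
      have h1 : σ * ρ / ‖N‖ * ip N U = ρ * (|ip N U| / ‖N‖) := by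
        rw [hσ2]
        ring
      rw [h1]
      apply mul_le_mul_of_nonneg_left _ hρ
      rw [le_div_iff₀ hN']
      exact hu

theorem base41 (h : Face41 a D s1 b1 b2 s2 L l1 l2 l3 l4 yO y1 y2 y3 y4) {τ z ρ u : ℝ}
    (hτ : 0 ≤ τ) (hz : 0 ≤ z) (hz2 : z ^ 2 + ‖b1 + b2‖ ^ 2 / 4 ≤ τ ^ 2) (hρ : 0 ≤ ρ)
    (hρ2 : ‖(D - (b1 + b2)) / 2‖ ^ 2 + ρ ^ 2 ≤ τ ^ 2)
    (hu : u * ‖(D - (b1 + b2)) / 2‖ ≤ |ip ((D - (b1 + b2)) / 2) ((s1 + s2) / 2)|)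
    (hu2 : u ≤ ‖(s1 + s2) / 2‖) :
    rr τ * L - A0 * yO - √3 / 2 * τ ^ 2 + ρ * u + ‖b1 + b2‖ * z / 2 +
      (A0 * (a - min 1 a) + √3 / 2 * τ ^ 2 * (1 - min 1 a)) ≤
      rr τ * (HH l1 l2 l3 l4 y1 y2 y3 y4 + L - 3 * min 1 a) := by
  obtain ⟨P, h1, h2, h3⟩ := exists_P _ _ hτ hρ hρ2 hu hu2
  have hb := baseE h hτ hz hz2 P (Complex.I * ((D - (b1 + b2)) / 2)) h1 h2
  rw [ip_I] at hb
  linarith

theorem base_far (h : Face41 a D s1 b1 b2 s2 L l1 l2 l3 l4 yO y1 y2 y3 y4) {τ z ρ u : ℝ}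
    (hτ : 0 ≤ τ) (hte : 0 ≤ τ - 2 * rr τ * ga) (hz : 0 ≤ z)
    (hz2 : z ^ 2 + ‖b1 + b2‖ ^ 2 / 4 ≤ τ ^ 2) (hρ : 0 ≤ ρ)
    (hρ2 : ‖(D - (b1 + b2)) / 2‖ ^ 2 + ρ ^ 2 ≤ (τ - 2 * rr τ * ga) ^ 2)
    (hu : u * ‖(D - (b1 + b2)) / 2‖ ≤ |ip ((D - (b1 + b2)) / 2) ((s1 + s2) / 2)|)
    (hu2 : u ≤ ‖(s1 + s2) / 2‖) :
    rr τ * L - A0 * yO - √3 / 2 * τ ^ 2 + ρ * u + ‖b1 + b2‖ * z / 2 ≤
      rr τ * (HH l1 l2 l3 l4 y1 y2 y3 y4 + L - 3 * min 1 a - ga * (‖s1‖ + ‖s2‖)) := by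
  obtain ⟨P, h1, h2, h3⟩ := exists_P _ _ hte hρ hρ2 hu hu2
  have hm := master1 h hτ
  have hp := pent_eq h.sum
  have hs := s_low s1 s2 P (Complex.I * ((D - (b1 + b2)) / 2)) h1 h2
  rw [ip_I] at hs
  have ht := tri_low b1 b2 hz hτ hz2
  have hA : 0 ≤ A0 * (a - min 1 a) := by
    have h0 : 0 ≤ A0 := by unfold A0; positivity
    have h1 : 0 ≤ a - min 1 a := by linarith [min_le_right 1 a]
    positivity
  have hB : 0 ≤ √3 / 2 * τ ^ 2 * (1 - min 1 a) := by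
    have h1 : 0 ≤ 1 - min 1 a := by linarith [min_le_left 1 a]
    positivity
  have hR : rr τ * (HH l1 l2 l3 l4 y1 y2 y3 y4 + L - 3 * min 1 a - ga * (‖s1‖ + ‖s2‖)) =
      rr τ * (HH l1 l2 l3 l4 y1 y2 y3 y4 + L - 3 * min 1 a) -
        2 * rr τ * ga * (‖s1‖ + ‖s2‖) / 2 := by ring
  rw [hR]
  have hS : (τ - 2 * rr τ * ga) * (‖s1‖ + ‖s2‖) / 2 =
      τ * (‖s1‖ + ‖s2‖) / 2 - 2 * rr τ * ga * (‖s1‖ + ‖s2‖) / 2 := by ring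
  rw [hS] at hs
  linarith

end Pool.Agent.Helper98.LC3
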