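import Pool.Agent.Helper98.LC3.S.OneNear
import Pool.Agent.Helper98.LC3.S.COneA
import Pool.Agent.Helper98.LC3.S.COneB
import Pool.Agent.Helper98.LC3.S.COneC
import Pool.Agent.Helper98.LC3.S.COneD
import Pool.Agent.Helper98.LC3.S.COneN
import Pool.Agent.Helper98.LC3.S.COneP
import Pool.Agent.Helper98.LC3.S.COneQ

/-!
# LC3-S22: the one-sided inequality

`w = (‖s1‖ + ‖s2‖)/2 ≤ 3` (`‖s_i‖ ≤ l_i ≤ 3 min 1 a`).  `x = ‖D‖/√3`, `y = ‖b1 + b2‖/√3`.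
* `one_all`: `x ≤ 9/10` or not, `y ≤ 23/20` or not: `onea_top` .. `oned_top`.
* not `Near41`: `far41`, the vector is `D - et0 s1` (`sg = 1`) or `D - et0 s2`; `c0 * et0 = ga`.
* `OneAny 3 0`: `0 ≤ 3 w - w²`.
* central: `m = (x+y)/2`, `u = (y-x)/2`: `u ≤ 0`: `onen_top`; `u ≥ 0`, `w ≤ 1`: `onep_top` (`-1 ≤ - w²`); `u ≥ 0`, `w ≥ 1`: `oneq_top` (`3 ≤ 4 w - w²` as `1 ≤ w ≤ 3`).
-/

namespace Pool.Agent.Helper98.LC3

open Finset Real Pool.Agent.Helper98.LC Pool.Agent.Helper38.LC2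

variable {a : ℝ} {D s1 b1 b2 s2 : ℂ} {L l1 l2 l3 l4 yO y1 y2 y3 y4 : ℝ}

theorem one_all {x y : ℝ} (h0 : 1 / 4 ≤ x) (h1 : x ≤ 31 / 20) (k0 : 9 / 20 ≤ y)
    (k1 : y ≤ 37 / 20) : CenXY x y ∨ OneAny 3 0 x y := by
  rcases le_total x (9 / 10) with h2 | h2 <;> rcases le_total y (23 / 20) with k2 | k2
  · exact onea_top h0 h2 k0 k2
  · exact onec_top h0 h2 k2 k1
  · exact oneb_top h2 h1 k0 k2
  · exact oned_top h2 h1 k2 k1

private theorem os_w (h : Face41 a D s1 b1 b2 s2 L l1 l2 l3 l4 yO y1 y2 y3 y4) :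
    (‖s1‖ + ‖s2‖) / 2 ≤ 3 := by
  have h1 := h.e1.le
  have h2 := h.e4.le
  have h3 := h.cap1
  have h4 := h.cap4
  have h5 : min 1 a ≤ 1 := min_le_left _ _
  linarith

private theorem os_ga : 0 ≤ ga := by
  have := ga_num
  linarith

private theorem os_c0 : 0 ≤ c0 := by
  have := c0_num
  linarith

private theorem os_et0 : 0 ≤ et0 := by
  have := et0_num
  linarith

private theorem os_far (D s s1 s2 : ℂ) (hs : ‖s‖ ≤ ‖s1‖ + ‖s2‖) :
    c0 * ‖D - (et0 : ℂ) * s‖ ≤ c0 * ‖D‖ + ga * (‖s1‖ + ‖s2‖) := by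
  have h1 : ‖D - (et0 : ℂ) * s‖ ≤ ‖D‖ + et0 * ‖s‖ := by
    refine (norm_sub_le _ _).trans ?_
    rw [norm_mul, Complex.norm_real, Real.norm_of_nonneg os_et0]
  calc c0 * ‖D - (et0 : ℂ) * s‖ ≤ c0 * (‖D‖ + et0 * ‖s‖) := mul_le_mul_of_nonneg_left h1 os_c0
    _ = c0 * ‖D‖ + ga * ‖s‖ := by rw [← c0_et0]; ring
    _ ≤ _ := by
      have := mul_le_mul_of_nonneg_left hs os_ga
      linarith

private theorem os_vec {sg : ℝ} (hs : sg = 1 ∨ sg = -1) (D s1 s2 : ℂ) :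
    ∃ s : ℂ, ‖s‖ ≤ ‖s1‖ + ‖s2‖ ∧
      D - (et0 : ℂ) * ((s1 + s2) / 2) - ((sg * et0 : ℝ) : ℂ) * ((s1 - s2) / 2) =
        D - (et0 : ℂ) * s := by
  rcases hs with rfl | rfl
  · refine ⟨s1, by linarith [norm_nonneg s2], ?_⟩
    push_cast
    ring
  · refine ⟨s2, by linarith [norm_nonneg s1], ?_⟩
    push_cast
    ring

theorem one41_sg (h : Face41 a D s1 b1 b2 s2 L l1 l2 l3 l4 yO y1 y2 y3 y4)
    {sg : ℝ} (hs : sg = 1 ∨ sg = -1) :
    3 * min 1 a +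
      c0 * ‖D - (et0 : ℂ) * ((s1 + s2) / 2) - ((sg * et0 : ℝ) : ℂ) * ((s1 - s2) / 2)‖ ≤
      HH l1 l2 l3 l4 y1 y2 y3 y4 + L + 35 / 10000 := by
  have hw3 := os_w h
  have hw0 : 0 ≤ (‖s1‖ + ‖s2‖) / 2 := by positivity
  by_cases hn : Near41 D (-(b1 + b2))
  · have h3p : 0 < √3 := Real.sqrt_pos.2 (by norm_num)
    obtain ⟨n1, n2, n3, n4, n5⟩ := id hn
    rw [norm_neg] at n3 n4 n5
    obtain ⟨x, hx0⟩ : ∃ x, x = ‖D‖ / √3 := ⟨_, rfl⟩
    obtain ⟨y, hy0⟩ : ∃ y, y = ‖b1 + b2‖ / √3 := ⟨_, rfl⟩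
    have hx : ‖D‖ = √3 * x := by rw [hx0]; field_simp
    have hy : ‖b1 + b2‖ = √3 * y := by rw [hy0]; field_simp
    rw [hx] at n1 n2
    rw [hy] at n3 n4
    have hx1 : 1 / 4 ≤ x := le_of_mul_le_mul_left n1 h3p
    have hx2 : x ≤ 31 / 20 := le_of_mul_le_mul_left n2 h3p
    have hy1 : 9 / 20 ≤ y := le_of_mul_le_mul_left n3 h3p
    have hy2 : y ≤ 37 / 20 := le_of_mul_le_mul_left n4 h3p
    rcases one_all hx1 hx2 hy1 hy2 with hc | hc
    · obtain ⟨c1, c2, c3, c4⟩ := hc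
      have ex : (x + y) / 2 - (y - x) / 2 = x := by ring
      have ey : (x + y) / 2 + (y - x) / 2 = y := by ring
      rcases le_total ((y - x) / 2) 0 with hu | hu
      · have ht := onen_top (m := (x + y) / 2) (u := (y - x) / 2) (by linarith) (by linarith)
          (by linarith) hu
        rw [ex, ey] at ht
        exact one_of_any h hs hx hy hn (by norm_num) (by nlinarith) ht
      · rcases le_total ((‖s1‖ + ‖s2‖) / 2) 1 with hw | hw
        · have ht := onep_top (m := (x + y) / 2) (u := (y - x) / 2) (by linarith) (by linarith)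
            hu (by linarith)
          rw [ex, ey] at ht
          exact one_of_any h hs hx hy hn le_rfl (by nlinarith) ht
        · have ht := oneq_top (m := (x + y) / 2) (u := (y - x) / 2) (by linarith) (by linarith)
            hu (by linarith)
          rw [ex, ey] at ht
          exact one_of_any h hs hx hy hn (by norm_num) (by nlinarith) ht
    · exact one_of_any h hs hx hy hn (by norm_num) (by nlinarith) hc
  · have h1 := far41 h hn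
    obtain ⟨s, hs1, hs2⟩ := os_vec hs D s1 s2
    rw [hs2]
    have h2 := os_far D s s1 s2 hs1
    linarith

/-- one shifted end point -/
theorem one41_1 (h : Face41 a D s1 b1 b2 s2 L l1 l2 l3 l4 yO y1 y2 y3 y4) :
    3 * min 1 a + c0 * ‖D - (et0 : ℂ) * s1‖ ≤
      HH l1 l2 l3 l4 y1 y2 y3 y4 + L + 35 / 10000 := by
  have h1 := one41_sg h (sg := 1) (Or.inl rfl)
  have e : D - (et0 : ℂ) * ((s1 + s2) / 2) - ((1 * et0 : ℝ) : ℂ) * ((s1 - s2) / 2) =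
      D - (et0 : ℂ) * s1 := by
    push_cast
    ring
  rwa [e] at h1

theorem one41_2 (h : Face41 a D s1 b1 b2 s2 L l1 l2 l3 l4 yO y1 y2 y3 y4) :
    3 * min 1 a + c0 * ‖D - (et0 : ℂ) * s2‖ ≤
      HH l1 l2 l3 l4 y1 y2 y3 y4 + L + 35 / 10000 := by
  have h1 := one41_sg h (sg := -1) (Or.inr rfl)
  have e : D - (et0 : ℂ) * ((s1 + s2) / 2) - ((-1 * et0 : ℝ) : ℂ) * ((s1 - s2) / 2) =
      D - (et0 : ℂ) * s2 := by
    push_cast
    ring
  rwa [e] at h1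

end Pool.Agent.Helper98.LC3
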