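import Mathlib

/-!
# LC3-S10: faces far from the optimal one: polynomials on rectangles

Scaled variables: `x = ‖D‖/√3`, `y = ‖b1 + b2‖/√3`, `t = τ/√3`.  The numbers `s, T, th, sec` are `sin θ, tan θ`, a lower bound of `θ`, `1/cos θ` for an angle `θ`.
-/

namespace Pool.Agent.Helper98.LC3

open Real

/-- The certificate of the far case. -/
def FarR (s T th sec C x y : ℝ) : Prop :=
  ∃ t ρ ζ g : ℝ, 0 ≤ t ∧ t ≤ 4 ∧ 0 ≤ t - 6719 / 250000 * (1 + t ^ 2) ∧ 0 ≤ ρ ∧ 0 ≤ ζ ∧ g ≤ |y - x| ∧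
    ρ ^ 2 + (x ^ 2 + y ^ 2 + 2 * C * x * y) / 4 ≤ (t - 6719 / 250000 * (1 + t ^ 2)) ^ 2 ∧
    ζ ^ 2 + y ^ 2 / 4 ≤ t ^ 2 ∧ x ≤ s * (1 + t ^ 2) ∧
    1 / 2000 ≤ (1 + t ^ 2) * x * (sec - 5235989 / 10000000) - (T - th) / 2 * (1 + t ^ 2) ^ 2 -
      T / 2 * x ^ 2 - 17320509 / 10000000 * t ^ 2 + ρ * g + y * ζ

/-- `s, T, th, sec` belong to an angle -/
def TrigQ (s T th sec : ℝ) : Prop :=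
  ∃ θ : ℝ, 0 < θ ∧ θ ≤ 1.2 ∧ Real.sin θ = s ∧ Real.tan θ = T ∧ th ≤ θ ∧ Real.cos θ = 1 / sec

def FarAny (C x y : ℝ) : Prop := ∃ s T th sec, TrigQ s T th sec ∧ FarR s T th sec C x y

def B1 (c00 c01 c10 c11 a b : ℝ) : ℝ :=
  c00 * ((1 - a) * (1 - b)) + c01 * ((1 - a) * b) + c10 * (a * (1 - b)) + c11 * (a * b)

def B2 (c00 c01 c02 c10 c11 c12 c20 c21 c22 a b : ℝ) : ℝ :=
  (1 - a) ^ 2 * (c00 * (1 - b) ^ 2 + c01 * (b * (1 - b)) + c02 * b ^ 2) +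
  a * (1 - a) * (c10 * (1 - b) ^ 2 + c11 * (b * (1 - b)) + c12 * b ^ 2) +
  a ^ 2 * (c20 * (1 - b) ^ 2 + c21 * (b * (1 - b)) + c22 * b ^ 2)

def Q4 (c0 c1 c2 c3 c4 b : ℝ) : ℝ :=
  c0 * (1 - b) ^ 4 + c1 * (b * (1 - b) ^ 3) + c2 * (b ^ 2 * (1 - b) ^ 2) + c3 * (b ^ 3 * (1 - b)) +
    c4 * b ^ 4

def B4 (c00 c01 c02 c03 c04 c10 c11 c12 c13 c14 c20 c21 c22 c23 c24 c30 c31 c32 c33 c34
    c40 c41 c42 c43 c44 a b : ℝ) : ℝ :=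
  (1 - a) ^ 4 * Q4 c00 c01 c02 c03 c04 b + a * (1 - a) ^ 3 * Q4 c10 c11 c12 c13 c14 b +
  a ^ 2 * (1 - a) ^ 2 * Q4 c20 c21 c22 c23 c24 b + a ^ 3 * (1 - a) * Q4 c30 c31 c32 c33 c34 b +
  a ^ 4 * Q4 c40 c41 c42 c43 c44 b

theorem B1_nonneg {c00 c01 c10 c11 a b : ℝ} (ha : 0 ≤ a ∧ a ≤ 1) (hb : 0 ≤ b ∧ b ≤ 1)
    (h00 : 0 ≤ c00) (h01 : 0 ≤ c01) (h10 : 0 ≤ c10) (h11 : 0 ≤ c11) :
    0 ≤ B1 c00 c01 c10 c11 a b := by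
  unfold B1
  have h1 : 0 ≤ 1 - a := by linarith [ha.2]
  have h2 : 0 ≤ 1 - b := by linarith [hb.2]
  have h3 := ha.1
  have h4 := hb.1
  positivity

theorem B2_nonneg {c00 c01 c02 c10 c11 c12 c20 c21 c22 a b : ℝ} (ha : 0 ≤ a ∧ a ≤ 1)
    (hb : 0 ≤ b ∧ b ≤ 1)
    (h00 : 0 ≤ c00) (h01 : 0 ≤ c01) (h02 : 0 ≤ c02) (h10 : 0 ≤ c10) (h11 : 0 ≤ c11)
    (h12 : 0 ≤ c12) (h20 : 0 ≤ c20) (h21 : 0 ≤ c21) (h22 : 0 ≤ c22) :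
    0 ≤ B2 c00 c01 c02 c10 c11 c12 c20 c21 c22 a b := by
  unfold B2
  have h1 : 0 ≤ 1 - a := by linarith [ha.2]
  have h2 : 0 ≤ 1 - b := by linarith [hb.2]
  have h3 := ha.1
  have h4 := hb.1
  positivity

theorem Q4_nonneg {c0 c1 c2 c3 c4 b : ℝ} (hb : 0 ≤ b ∧ b ≤ 1)
    (h0 : 0 ≤ c0) (h1 : 0 ≤ c1) (h2 : 0 ≤ c2) (h3 : 0 ≤ c3) (h4 : 0 ≤ c4) :
    0 ≤ Q4 c0 c1 c2 c3 c4 b := by
  unfold Q4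
  have h5 : 0 ≤ 1 - b := by linarith [hb.2]
  have h6 := hb.1
  positivity

theorem B4_nonneg {c00 c01 c02 c03 c04 c10 c11 c12 c13 c14 c20 c21 c22 c23 c24 c30 c31 c32 c33 c34
    c40 c41 c42 c43 c44 a b : ℝ} (ha : 0 ≤ a ∧ a ≤ 1) (hb : 0 ≤ b ∧ b ≤ 1)
    (h00 : 0 ≤ c00) (h01 : 0 ≤ c01) (h02 : 0 ≤ c02) (h03 : 0 ≤ c03) (h04 : 0 ≤ c04)
    (h10 : 0 ≤ c10) (h11 : 0 ≤ c11) (h12 : 0 ≤ c12) (h13 : 0 ≤ c13) (h14 : 0 ≤ c14)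
    (h20 : 0 ≤ c20) (h21 : 0 ≤ c21) (h22 : 0 ≤ c22) (h23 : 0 ≤ c23) (h24 : 0 ≤ c24)
    (h30 : 0 ≤ c30) (h31 : 0 ≤ c31) (h32 : 0 ≤ c32) (h33 : 0 ≤ c33) (h34 : 0 ≤ c34)
    (h40 : 0 ≤ c40) (h41 : 0 ≤ c41) (h42 : 0 ≤ c42) (h43 : 0 ≤ c43) (h44 : 0 ≤ c44) :
    0 ≤ B4 c00 c01 c02 c03 c04 c10 c11 c12 c13 c14 c20 c21 c22 c23 c24 c30 c31 c32 c33 c34
      c40 c41 c42 c43 c44 a b := by
  unfold B4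
  have e0 := Q4_nonneg hb h00 h01 h02 h03 h04
  have e1 := Q4_nonneg hb h10 h11 h12 h13 h14
  have e2 := Q4_nonneg hb h20 h21 h22 h23 h24
  have e3 := Q4_nonneg hb h30 h31 h32 h33 h34
  have e4 := Q4_nonneg hb h40 h41 h42 h43 h44
  have h1 : 0 ≤ 1 - a := by linarith [ha.2]
  have h3 := ha.1
  positivity

theorem affine01 {x0 x1 x : ℝ} (h0 : x0 ≤ x) (h1 : x ≤ x1) (h : x0 < x1) :
    ∃ a : ℝ, (0 ≤ a ∧ a ≤ 1) ∧ x = x0 + (x1 - x0) * a := by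
  have h2 : 0 < x1 - x0 := by linarith
  refine ⟨(x - x0) / (x1 - x0), ⟨div_nonneg (by linarith) h2.le, ?_⟩, ?_⟩
  · rw [div_le_one h2]
    linarith
  · rw [mul_div_cancel₀ _ h2.ne']
    ring

end Pool.Agent.Helper98.LC3
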