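import Pool.Agent.Helper98.LC3.S.Arc
import Pool.Agent.Helper98.LC3.S.FarDef

/-!
# LC3-S10: the outer edge in scaled variables

`r = (√3/2)(1 + q)`, `‖D‖ = √3 x`, `L ≤ 31/10`.
* `arc_q`: `arc_low` with `θ0 = θ` of `TrigQ`: `2 r sin θ = √3 (1 + q) s ≥ ‖D‖`, `2 r (π - θ) ≥ √3 * 1.94 ≥ 3.1`; multiply by `2/3`: `r² = (3/4)(1+q)²`, `th ≤ θ`.
* `arc_c`: if `2x ≤ 1 + q`: `arc_six` (`‖D‖ ≤ r`, `L ≤ 5 r`); otherwise `arc_cub`: `r ≤ ‖D‖ ≤ 3r/2`, `L ≤ 4 r`, `(‖D‖ - r)³/(12 r) * (2/3) = (2x - 1 - q)³/(24 (1 + q))`.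
-/

namespace Pool.Agent.Helper98.LC3

open Finset Real Pool.Agent.Helper98.LC Pool.Agent.Helper38.LC2

private theorem aq_s3 : (√3 : ℝ) ^ 2 = 3 := Real.sq_sqrt (by norm_num)

private theorem aq_s3p : (0 : ℝ) < √3 := Real.sqrt_pos.2 (by norm_num)

private theorem aq_s3l : (17 / 10 : ℝ) ≤ √3 := by
  rw [show (17 / 10 : ℝ) = √((17 / 10) ^ 2) from (Real.sqrt_sq (by norm_num)).symm]
  exact Real.sqrt_le_sqrt (by norm_num)

theorem arc_q {D : ℂ} {L y : ℝ} (h : EdgeOK D L y) (hL : L ≤ 31 / 10) {s T th sec q x : ℝ}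
    (ht : TrigQ s T th sec) (hq : 0 ≤ q) (hx : ‖D‖ = √3 * x) (hs : x ≤ s * (1 + q)) :
    (1 + q) * (x * sec) - (T - th) / 2 * (1 + q) ^ 2 - T / 2 * x ^ 2 ≤
      2 / 3 * (√3 / 2 * (1 + q) * L - A0 * y) := by
  obtain ⟨θ, hθ0, hθ1, hsin, htan, hth, hcos⟩ := ht
  have hpi := Real.pi_gt_d2
  have h3 := aq_s3
  have h3p := aq_s3p
  have h3l := aq_s3l
  have hr : 0 < √3 / 2 * (1 + q) := by positivity
  have h1 := arc_low h (r := √3 / 2 * (1 + q)) (θ0 := θ) hθ0 (by linarith) hr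
    (by
      rw [hx, hsin]
      have h4 := mul_le_mul_of_nonneg_left hs h3p.le
      linarith)
    (by
      have h5 : (17 / 10 : ℝ) ≤ 2 * (√3 / 2 * (1 + q)) := by nlinarith
      have h6 : (1.94 : ℝ) ≤ π - θ := by linarith
      have h7 : (17 / 10 : ℝ) * 1.94 ≤ 2 * (√3 / 2 * (1 + q)) * (π - θ) :=
        mul_le_mul h5 h6 (by norm_num) (by linarith)
      refine le_trans ?_ h7
      norm_num
      linarith)
  rw [htan, hx, hcos] at h1
  have h8 : √3 / 2 * (1 + q) * (√3 * x) / (1 / sec) = 3 / 2 * ((1 + q) * (x * sec)) := by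
    rw [div_div_eq_mul_div, div_one]
    linear_combination (1 + q) * x * sec / 2 * h3
  have h9 : (√3 / 2 * (1 + q)) ^ 2 = 3 / 4 * (1 + q) ^ 2 := by
    linear_combination (1 + q) ^ 2 / 4 * h3
  have h10 : (√3 * x) ^ 2 = 3 * x ^ 2 := by
    linear_combination x ^ 2 * h3
  rw [h8, h9, h10] at h1
  have h11 : th * (1 + q) ^ 2 ≤ θ * (1 + q) ^ 2 := mul_le_mul_of_nonneg_right hth (sq_nonneg _)
  linarith

theorem arc_c {D : ℂ} {L y : ℝ} (h : EdgeOK D L y) (hL : L ≤ 31 / 10) {q x : ℝ}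
    (hq : 7 / 10 ≤ q) (hx : ‖D‖ = √3 * x) (hx2 : x ≤ 3 / 4 * (1 + q)) :
    2 / √3 * (1 + q) * x - g0 / 2 * (1 + q) ^ 2 - x ^ 2 / (2 * √3) -
      (max 0 (2 * x - 1 - q)) ^ 3 / (24 * (1 + q)) ≤
      2 / 3 * (√3 / 2 * (1 + q) * L - A0 * y) := by
  have h3 := aq_s3
  have h3p := aq_s3p
  have h3l := aq_s3l
  have hr : 0 < √3 / 2 * (1 + q) := by
    have : (0 : ℝ) < 1 + q := by linarith
    positivity
  have hr1 : (144 / 100 : ℝ) ≤ √3 / 2 * (1 + q) := by nlinarith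
  have h9 : (√3 / 2 * (1 + q)) ^ 2 = 3 / 4 * (1 + q) ^ 2 := by
    linear_combination (1 + q) ^ 2 / 4 * h3
  have h10 : (√3 * x) ^ 2 = 3 * x ^ 2 := by
    linear_combination x ^ 2 * h3
  have h11 : 2 / √3 * (√3 / 2 * (1 + q)) * (√3 * x) = 3 / 2 * (2 / √3 * (1 + q) * x) := by
    have h12 : 2 / √3 * (√3 / 2 * (1 + q)) * (√3 * x) = √3 ^ 2 * (1 / √3 * (1 + q) * x) := by
      ring
    rw [h12, h3]
    ring
  have h13 : 3 * x ^ 2 / (4 * √3) = 3 / 2 * (x ^ 2 / (2 * √3)) := by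
    field_simp
    ring
  rcases le_total (2 * x) (1 + q) with hle | hle
  · have h1 := arc_six h (r := √3 / 2 * (1 + q)) hr
      (by
        rw [hx]
        have h4 := mul_le_mul_of_nonneg_left hle h3p.le
        linarith)
      (by linarith)
    rw [hx, h9, h10, h11, h13] at h1
    have h14 : max 0 (2 * x - 1 - q) = 0 := max_eq_left (by linarith)
    rw [h14]
    have h15 : (0 : ℝ) ^ 3 / (24 * (1 + q)) = 0 := by simp
    rw [h15]
    linarith
  · have h1 := arc_cub h (r := √3 / 2 * (1 + q)) hr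
      (by
        rw [hx]
        have h4 := mul_le_mul_of_nonneg_left hle h3p.le
        linarith)
      (by
        rw [hx]
        have h4 := mul_le_mul_of_nonneg_left hx2 h3p.le
        linarith)
      (by linarith)
    rw [hx, h9, h10, h11, h13] at h1
    have h14 : max 0 (2 * x - 1 - q) = 2 * x - 1 - q := max_eq_right (by linarith)
    rw [h14]
    have hq1 : (1 + q) ≠ 0 := by
      have : (0 : ℝ) < 1 + q := by linarith
      exact this.ne'
    have h16 : (√3 * x - √3 / 2 * (1 + q)) ^ 3 / (12 * (√3 / 2 * (1 + q))) =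
        3 / 2 * ((2 * x - 1 - q) ^ 3 / (24 * (1 + q))) := by
      have h17 : (√3 * x - √3 / 2 * (1 + q)) ^ 3 = 3 * √3 / 8 * (2 * x - 1 - q) ^ 3 := by
        linear_combination √3 * (2 * x - 1 - q) ^ 3 / 8 * h3
      rw [h17]
      field_simp
      ring
    rw [h16] at h1
    linarith

end Pool.Agent.Helper98.LC3
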