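import Pool.Agent.Helper98.LC3.S.CertDef

/-!
# LC3: certificates (generated)
-/

namespace Pool.Agent.Helper98.LC3

open Real

set_option maxRecDepth 8000

theorem twon_1 {m u : ℝ} (h0 : 17 / 20 ≤ m) (h1 : m ≤ 23 / 20) (k0 : (-(1 / 10)) ≤ u) (k1 : u ≤ 1 / 10) :
    Two1 (3 / 2) (m - u) (m + u) := by
  obtain ⟨a, ha, rfl⟩ := affine01 h0 h1 (by norm_num)
  obtain ⟨b, hb, rfl⟩ := affine01 k0 k1 (by norm_num)
  refine ⟨3 / 5, 3 / 4, 643501 / 1000000, 5 / 4, 3057 / 5000 + 12 / 25 * a + (-(313 / 10000)) * b, 0, 6813 / 10000 + 2189 / 10000 * a + (-(861 / 10000)) * b, 0, trigQ_6, ?_, ?_, ?_, ?_, ?_, ?_, ?_, ?_, ?_⟩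
  · have h : 0 ≤ B1 (3057 / 5000) (5801 / 10000) (5457 / 5000) (10601 / 10000) a b := B1_nonneg ha hb (by norm_num) (by norm_num) (by norm_num) (by norm_num)
    exact sub_nonneg.1 (h.trans_eq (by unfold B1; ring))
  · have h : 0 ≤ B1 (4443 / 5000) (9199 / 10000) (2043 / 5000) (4399 / 10000) a b := B1_nonneg ha hb (by norm_num) (by norm_num) (by norm_num) (by norm_num)
    exact sub_nonneg.1 (h.trans_eq (by unfold B1; ring))
  · exact le_refl _
  · have h : 0 ≤ B1 (6813 / 10000) (372 / 625) (4501 / 5000) (8141 / 10000) a b := B1_nonneg ha hb (by norm_num) (by norm_num) (by norm_num) (by norm_num)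
    exact sub_nonneg.1 (h.trans_eq (by unfold B1; ring))
  · exact abs_nonneg _
  · have h : 0 ≤ B2 (157 / 5000) (79 / 2000) (1 / 10000) (337 / 2500) (223 / 1000) (361 / 5000) (157 / 5000) (79 / 2000) (1 / 10000) a b := B2_nonneg ha hb (by norm_num) (by norm_num) (by norm_num) (by norm_num) (by norm_num) (by norm_num) (by norm_num) (by norm_num) (by norm_num)
    exact sub_nonneg.1 (h.trans_eq (by unfold B2; ring))
  · have h : 0 ≤ B2 (660531 / 100000000) (302881 / 12500000) (5299 / 25000000) (2060937 / 25000000) (9730463 / 50000000) (966817 / 12500000) (67687 / 12500000) (738609 / 25000000) (671619 / 100000000) a b := B2_nonneg ha hb (by norm_num) (by norm_num) (by norm_num) (by norm_num) (by norm_num) (by norm_num) (by norm_num) (by norm_num) (by norm_num)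
    exact sub_nonneg.1 (h.trans_eq (by unfold B2; ring))
  · have h : 0 ≤ B1 (421 / 25000) (9903 / 50000) (121 / 25000) (9303 / 50000) a b := B1_nonneg ha hb (by norm_num) (by norm_num) (by norm_num) (by norm_num)
    exact sub_nonneg.1 (h.trans_eq (by unfold B1; ring))
  · have h : 0 ≤ B4 (287910335531565691 / 10000000000000000000) (1234172347880954239 / 10000000000000000000) (7195297042753061671 / 40000000000000000000) (1079175294194296611 / 10000000000000000000) (181290436684335793 / 8000000000000000000) (200303185050465937 / 2500000000000000000) (911944972461306209 / 2500000000000000000) (5394965551102521733 / 10000000000000000000) (198815768175892929 / 625000000000000000) (632653889355126219 / 10000000000000000000) (581651560213127349 / 5000000000000000000) (2666292933258520137 / 5000000000000000000) (3140812185567560277 / 4000000000000000000) (2276965327998946863 / 5000000000000000000) (1742365876339557219 / 20000000000000000000) (317446460392335229 / 2500000000000000000) (1359806842951715749 / 2500000000000000000) (7885520192460257857 / 10000000000000000000)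 (582763941639344163 / 1250000000000000000) (946032870892017527 / 10000000000000000000) (24791405032535371 / 400000000000000000) (2520249047254093319 / 10000000000000000000) (14518524075822453919 / 40000000000000000000) (2210057873736849831 / 10000000000000000000) (1923563104887781581 / 40000000000000000000) a b := B4_nonneg ha hb (by norm_num) (by norm_num) (by norm_num) (by norm_num) (by norm_num) (by norm_num) (by norm_num) (by norm_num) (by norm_num) (by norm_num) (by norm_num) (by norm_num) (by norm_num) (by norm_num) (by norm_num) (by norm_num) (by norm_num) (by norm_num) (by norm_num) (by norm_num) (by norm_num) (by norm_num) (by norm_num) (by norm_num) (by norm_num)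
    exact sub_nonneg.1 (h.trans_eq (by unfold B4 Q4; ring))

theorem twon_top {m u : ℝ} (h0 : 17 / 20 ≤ m) (h1 : m ≤ 23 / 20) (k0 : (-(1 / 10)) ≤ u) (k1 : u ≤ 1 / 10) :
    Two1 (3 / 2) (m - u) (m + u) :=
  twon_1 h0 h1 k0 k1

end Pool.Agent.Helper98.LC3
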