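import Pool.Agent.Helper98.LC3.S.Trig

/-!
# LC3: definitions of the certificates near the optimal polygon

Scaled variables: `x = ‖D‖/√3`, `y = ‖b1 + b2‖/√3`, `K = (‖D‖ ‖V‖ - ip D V)/6 ∈ [0, x y/5]`, `q = τ²/3`.
`Two0`, `Two1`: the end points `K = 0` and `K = x y/5` of the two-sided inequality; `One0`, `One1`: the same for the one-sided inequality.
-/

namespace Pool.Agent.Helper98.LC3

open Real

/-- the central region -/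
def CenXY (x y : ℝ) : Prop := -(1 / 5) ≤ y - x ∧ y - x ≤ 1 / 5 ∧ 17 / 10 ≤ x + y ∧ x + y ≤ 23 / 10

def Two0 (Qb x y : ℝ) : Prop :=
  ∃ s T th sec q ρ ζ g : ℝ, TrigQ s T th sec ∧ 0 ≤ q ∧ q ≤ Qb ∧ 0 ≤ ρ ∧ 0 ≤ ζ ∧ g ≤ |y - x| ∧
    ρ ^ 2 + ((x + y) / 2) ^ 2 ≤ q ∧ ζ ^ 2 + y ^ 2 / 4 ≤ q ∧ x ≤ s * (1 + q) ∧
    1 / 2500 ≤ (1 + q) * (x * sec - (550475 / 1000000 * x - 26875 / 1000000 * y)) -
      (T - th) / 2 * (1 + q) ^ 2 - T / 2 * x ^ 2 - 17320509 / 10000000 * q + ρ * g + y * ζ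

def Two1 (Qb x y : ℝ) : Prop :=
  ∃ s T th sec q ρ ζ g : ℝ, TrigQ s T th sec ∧ 0 ≤ q ∧ q ≤ Qb ∧ 0 ≤ ρ ∧ 0 ≤ ζ ∧ g ≤ |y - x| ∧
    ρ ^ 2 + ((x + y) / 2) ^ 2 - x * y / 5 ≤ q ∧ ζ ^ 2 + y ^ 2 / 4 ≤ q ∧ x ≤ s * (1 + q) ∧
    (1 + Qb) * 2 * (550475 / 1000000 * (26876 / 1000000)) * (x * y / 5) ≤
      ((1 + q) * (x * sec - (550475 / 1000000 * x - 26875 / 1000000 * y)) -
      (T - th) / 2 * (1 + q) ^ 2 - T / 2 * x ^ 2 - 17320509 / 10000000 * q + ρ * g + y * ζ -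
      1 / 2500) * (550475 / 1000000 * x - 26875 / 1000000 * y)

def TwoAny (x y : ℝ) : Prop := ∃ Qb : ℝ, Qb ≤ 5 ∧ Two0 Qb x y ∧ Two1 Qb x y

/-- shared data of the one-sided certificate -/
def OneC (mu Qb sq xm mm ep cM om ρ g bf x y : ℝ) : Prop :=
  0 < mu ∧ Qb ≤ 5 ∧ 0 ≤ sq ∧ Qb ≤ sq ^ 2 ∧ 0 < xm ∧
    0 ≤ 10256 / 10000 * x - 2567 / 100000 * y - xm ∧ 0 < mm ∧ 0 ≤ 1 / 2 * x + 1 / 2 * y - mm ∧
    26876 / 1000000 * (1 + Qb) / 2 ≤ ep ∧ 13796 / 10000000 * (1 + Qb) ≤ 6 * xm * cM ∧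
    17320509 / 10000000 * sq * (bf * cM) ≤ om ∧ 0 ≤ ρ ∧ g ≤ |y - x|

/-- the end point `K = kc x y` -/
def OneE (kc mu Qb xm mm ep cM om ρ g cf x y : ℝ) : Prop :=
  ∃ s T th sec q ζ : ℝ, TrigQ s T th sec ∧ 0 ≤ q ∧ q ≤ Qb ∧ 0 ≤ ζ ∧
    (((x + y) / 2) ^ 2 - kc * (x * y) + ep ^ 2 +
      2 * ep * (105133 / 100000) * ((kc / mu + mu) / 2 * (x * y)) / xm) *
      (((x + y) / 2) ^ 2 + ρ ^ 2) ≤ (q - om) * ((x + y) / 2) ^ 2 ∧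
    ζ ^ 2 + y ^ 2 / 4 ≤ q ∧ x ≤ s * (1 + q) ∧
    (1 + Qb) * 2 * (5370369 / 10000000 * (13438 / 1000000)) * (kc * (x * y)) ≤
      ((1 + q) * (x * sec - (5370369 / 10000000 * x - 134375 / 10000000 * y)) -
      (T - th) / 2 * (1 + q) ^ 2 - T / 2 * x ^ 2 - 17320509 / 10000000 * q +
      ρ * (g - 2 * ep * ((kc / mu + mu) / 2 * (x * y)) / (xm * mm)) + y * ζ +
      (1 + q) * (20207 / 10000000) + cf * cM) * (5370369 / 10000000 * x - 134375 / 10000000 * y)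

def OneAny (bf cf x y : ℝ) : Prop :=
  ∃ mu Qb sq xm mm ep cM om ρ g : ℝ, OneC mu Qb sq xm mm ep cM om ρ g bf x y ∧
    OneE 0 mu Qb xm mm ep cM om ρ g cf x y ∧ OneE (1 / 5) mu Qb xm mm ep cM om ρ g cf x y

end Pool.Agent.Helper98.LC3
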