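import Pool.Agent.Helper98.LC3.S.Const
import Pool.Agent.Helper98.LC3.S.CertDef

/-!
# LC3-S17: the sharp polynomial inequality in the central region

`m = (x+y)/2 ∈ [17/20, 23/20]`, `u = (y-x)/2 ∈ [-1/10, 1/10]`, `x = m - u`, `y = m + u`, `κ = 243/100`, `q = m² + κ u²`, `ρ = (9 √3/20) |y - x| = (√3/2)(9/5)|u|`, `ζ = (√3/2) Z`, `Z = m - u/3 + (23/20) u²`, `g1 = √3 g0 ∈ (.0931, .0932)` (`g1_num`).
* `cen_c2`: `ζ² + y²/4 ≤ q` is `3 Z² + y² ≤ 4 q`, i.e. `u² (2 m z - (2/3) z u + z² u²) ≤ u² ((9/5)² - 4/9)`, `z = 23/20`; here `2 m z ≤ 2.645`, `(2/3) z |u| ≤ .0767`, `z² u² ≤ .0133`, `(9/5)² - 4/9 ≥ 2.795`.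
* `cen_main`: with `F = -g0/2 (1+q)² + 2/√3 (1+q) x - x²/(2√3) - √3 q + ρ |y-x| + y ζ - (1+q)((c0+ga) x - ga y)` (`c0 + ga = 1/√3 - g0/2`, `ga = g0/2`) one has the identity
  `2 √3 F = (1-m)² (2x - g1 (1+m²)) + u² (6k - 2 + 3 z m - 2κ (3 - m + g1 (1 + m² - m)) + u (3z - 2κ) - g1 κ² u²)`, `k = 9/5`, `z = 23/20`, `κ = 3k²/4` (expand; `√3 √3 = 3`, `|u|² = u²`, `|y-x| = 2|u|`).
  `2x - g1 (1 + m²) ≥ 1.5 - .0932 * 2.33 ≥ 1.28`;  the second bracket is `≥ .74` (worst at `m = .85`: `8.8 + 3.45 m - 4.86 (3 - m + g1 (1 + m² - m)) - 1.41 u - .56 u²`).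
  The correction: `t = max 0 (2x - 1 - q)`: `2x - 1 - q = -(1-m)² - 2u - κ u² ≤ 2|u|`, so `t³/(24 (1+q)) ≤ 8 |u|³/(24 * 1.7) ≤ .02 u²` (`|u| ≤ 1/10`), times `2√3`: `≤ .07 u²`.
  Both coefficients minus `.07` are at least `2 √3/6 ≤ .578`.
-/

namespace Pool.Agent.Helper98.LC3

open Finset Real Pool.Agent.Helper98.LC Pool.Agent.Helper38.LC2

private theorem ce_sq : √3 * √3 = 3 := Real.mul_self_sqrt (by norm_num)

private theorem ce_pos : 0 < √3 := Real.sqrt_pos.2 (by norm_num)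

private theorem ce_ub : √3 < 1.7320509 := by
  rw [Real.sqrt_lt' (by norm_num)]
  norm_num

private theorem ce_inv : 1 / √3 = √3 / 3 := by
  rw [div_eq_div_iff ce_pos.ne' (by norm_num), ce_sq]
  norm_num

private theorem ce_xy {x y : ℝ} (h : CenXY x y) : ∃ m u : ℝ, x = m - u ∧ y = m + u ∧
    (x + y) / 2 = m ∧ (y - x) / 2 = u ∧ 17 / 20 ≤ m ∧ m ≤ 23 / 20 ∧ -(1 / 10) ≤ u ∧ u ≤ 1 / 10 := by
  obtain ⟨h1, h2, h3, h4⟩ := h
  refine ⟨(x + y) / 2, (y - x) / 2, by ring, by ring, rfl, rfl, ?_, ?_, ?_, ?_⟩ <;> linarith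

theorem cen_c2 {x y : ℝ} (h : CenXY x y) :
    (√3 / 2 * ((x + y) / 2 - (y - x) / 2 / 3 + 23 / 20 * ((y - x) / 2) ^ 2)) ^ 2 + y ^ 2 / 4 ≤
      ((x + y) / 2) ^ 2 + 243 / 100 * ((y - x) / 2) ^ 2 := by
  obtain ⟨m, u, hx, hy, hm, hu, h1, h2, h3, h4⟩ := ce_xy h
  rw [hm, hu, hy]
  have hs := ce_sq
  have hu2 : u ^ 2 ≤ 1 / 100 := by nlinarith
  have h5 : 0 ≤ u ^ 2 * (243 / 25 - 4 / 3 - 6 * m * (23 / 20) + 23 / 10 * u - 1587 / 400 * u ^ 2) := by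
    refine mul_nonneg (sq_nonneg _) ?_
    nlinarith
  have h6 : (√3 / 2 * (m - u / 3 + 23 / 20 * u ^ 2)) ^ 2 = 3 / 4 * (m - u / 3 + 23 / 20 * u ^ 2) ^ 2 := by
    linear_combination ((m - u / 3 + 23 / 20 * u ^ 2) ^ 2 / 4) * hs
  rw [h6]
  nlinarith [h5]

private theorem ce_corr {m u q : ℝ} (h1 : 17 / 20 ≤ m) (h3 : -(1 / 10) ≤ u) (h4 : u ≤ 1 / 10)
    (hq : q = m ^ 2 + 243 / 100 * u ^ 2) :
    (max 0 (2 * (m - u) - 1 - q)) ^ 3 / (24 * (1 + q)) ≤ 1 / 50 * u ^ 2 := by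
  have hq1 : 7 / 10 ≤ q := by
    rw [hq]
    nlinarith [sq_nonneg u]
  have hu : |u| ≤ 1 / 10 := abs_le.2 ⟨h3, h4⟩
  have ht : max 0 (2 * (m - u) - 1 - q) ≤ 2 * |u| := by
    refine max_le (by positivity) ?_
    have h5 : -u ≤ |u| := neg_le_abs u
    nlinarith [sq_nonneg (1 - m), sq_nonneg u]
  have ht0 : 0 ≤ max 0 (2 * (m - u) - 1 - q) := le_max_left _ _
  have h5 : (max 0 (2 * (m - u) - 1 - q)) ^ 3 ≤ (2 * |u|) ^ 3 := pow_le_pow_left₀ ht0 ht 3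
  rw [div_le_iff₀ (by linarith)]
  refine h5.trans ?_
  have h6 : (2 * |u|) ^ 3 = 8 * |u| * u ^ 2 := by
    rw [mul_pow, pow_succ |u| 2, sq_abs]
    ring
  rw [h6]
  have h7 : 8 * |u| * u ^ 2 ≤ 8 * (1 / 10) * u ^ 2 := by
    refine mul_le_mul_of_nonneg_right ?_ (sq_nonneg u)
    linarith
  nlinarith [sq_nonneg u, mul_nonneg (sq_nonneg u) (by linarith : (0 : ℝ) ≤ q - 7 / 10)]

theorem cen_main {x y q : ℝ} (h : CenXY x y)
    (hq : q = ((x + y) / 2) ^ 2 + 243 / 100 * ((y - x) / 2) ^ 2) :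
    1 / 6 * ((1 - (x + y) / 2) ^ 2 + ((y - x) / 2) ^ 2) ≤
      2 / √3 * (1 + q) * x - g0 / 2 * (1 + q) ^ 2 - x ^ 2 / (2 * √3) -
        (max 0 (2 * x - 1 - q)) ^ 3 / (24 * (1 + q)) - √3 * q +
        9 * √3 / 20 * |y - x| * |y - x| +
        y * (√3 / 2 * ((x + y) / 2 - (y - x) / 2 / 3 + 23 / 20 * ((y - x) / 2) ^ 2)) -
        (1 + q) * ((c0 + ga) * x - ga * y) := by
  obtain ⟨m, u, hx, hy, hm, hu, h1, h2, h3, h4⟩ := ce_xy h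
  rw [hm, hu] at hq
  have hs := ce_sq
  have hp := ce_pos
  have hub := ce_ub
  have hc := ce_corr h1 h3 h4 hq
  have habs : 9 * √3 / 20 * |y - x| * |y - x| = 9 * √3 / 20 * (y - x) ^ 2 := by
    rw [mul_assoc, abs_mul_abs_self]
    ring
  obtain ⟨hg1, hg2⟩ := g1_num
  have hc0 : c0 = √3 / 3 - g0 := by
    unfold c0 g0
    rw [ce_inv]
    ring
  have hd1 : 2 / √3 = 2 * (√3 / 3) := by
    rw [← ce_inv]
    ring
  have hd2 : x ^ 2 / (2 * √3) = x ^ 2 / 2 * (√3 / 3) := by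
    rw [← ce_inv, div_mul_div_comm, mul_one]
  rw [habs, hd1, hd2, hc0, hm, hu]
  have hga : ga = g0 / 2 := rfl
  rw [hga]
  rw [hx, hy]
  set C : ℝ := (max 0 (2 * (m - u) - 1 - q)) ^ 3 / (24 * (1 + q)) with hC
  set g : ℝ := √3 * g0 with hg
  refine le_of_mul_le_mul_left ?_ (by linarith : (0 : ℝ) < 2 * √3)
  have hid : 2 * √3 * (2 * (√3 / 3) * (1 + q) * (m - u) - g0 / 2 * (1 + q) ^ 2 -
        (m - u) ^ 2 / 2 * (√3 / 3) - C - √3 * q + 9 * √3 / 20 * (m + u - (m - u)) ^ 2 +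
        (m + u) * (√3 / 2 * (m - u / 3 + 23 / 20 * u ^ 2)) -
        (1 + q) * ((√3 / 3 - g0 + g0 / 2) * (m - u) - g0 / 2 * (m + u))) =
      (1 - m) ^ 2 * (2 * (m - u) - g * (1 + m ^ 2)) +
        u ^ 2 * (44 / 5 + 69 / 20 * m - 243 / 50 * (3 - m + g * (1 + m ^ 2 - m)) - 141 / 100 * u -
          g * (59049 / 10000) * u ^ 2) - 2 * √3 * C := by
    rw [hq, hg]
    linear_combination (4 / 3 * (1 + (m ^ 2 + 243 / 100 * u ^ 2)) * (m - u) - (m - u) ^ 2 / 3 -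
      2 * (m ^ 2 + 243 / 100 * u ^ 2) + 18 / 20 * (2 * u) ^ 2 +
      (m + u) * (m - u / 3 + 23 / 20 * u ^ 2) -
      2 / 3 * (1 + (m ^ 2 + 243 / 100 * u ^ 2)) * (m - u)) * hs
  rw [hid]
  have hu2 : u ^ 2 ≤ 1 / 100 := by nlinarith
  have hC2 : 2 * √3 * C ≤ 7 / 100 * u ^ 2 := by
    have h5 : 2 * √3 * C ≤ 2 * √3 * (1 / 50 * u ^ 2) :=
      mul_le_mul_of_nonneg_left hc (by linarith)
    have h6 : 2 * √3 * (1 / 50 * u ^ 2) ≤ 2 * 1.7320509 * (1 / 50 * u ^ 2) := by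
      refine mul_le_mul_of_nonneg_right ?_ (by positivity)
      linarith
    linarith [sq_nonneg u]
  have hm2 : m ^ 2 ≤ 2 * m - 391 / 400 := by
    have h5 := mul_nonneg (sub_nonneg.2 h1) (sub_nonneg.2 h2)
    linarith
  have hA : 578 / 1000 ≤ 2 * (m - u) - g * (1 + m ^ 2) := by
    have h5 : g * (1 + m ^ 2) ≤ 0.0932 * (1 + m ^ 2) :=
      mul_le_mul_of_nonneg_right hg2.le (by positivity)
    linarith
  have hB : 648 / 1000 ≤ 44 / 5 + 69 / 20 * m - 243 / 50 * (3 - m + g * (1 + m ^ 2 - m)) -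
      141 / 100 * u - g * (59049 / 10000) * u ^ 2 := by
    have h5 : g * (1 + m ^ 2 - m) ≤ 0.0932 * (1 + m ^ 2 - m) := by
      refine mul_le_mul_of_nonneg_right hg2.le ?_
      nlinarith [sq_nonneg (m - 1)]
    have h6 : g * (59049 / 10000) * u ^ 2 ≤ 0.0932 * (59049 / 10000) * u ^ 2 := by
      refine mul_le_mul_of_nonneg_right ?_ (sq_nonneg u)
      linarith
    linarith
  have hA' := mul_le_mul_of_nonneg_left hA (sq_nonneg (1 - m))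
  have hB' := mul_le_mul_of_nonneg_left hB (sq_nonneg u)
  have h7 : 2 * √3 * (1 / 6 * ((1 - m) ^ 2 + u ^ 2)) ≤ 2 * 1.7320509 * (1 / 6 * ((1 - m) ^ 2 + u ^ 2)) := by
    refine mul_le_mul_of_nonneg_right ?_ (by positivity)
    linarith
  have h8 := sq_nonneg (1 - m)
  have h9 := sq_nonneg u
  linarith

end Pool.Agent.Helper98.LC3
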