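import Pool.Agent.Helper98.LC3.S.TwoInterp
import Pool.Agent.Helper98.LC3.S.Arcq
import Pool.Agent.Helper98.LC3.S.Cen0
import Pool.Agent.Helper98.LC3.S.CTwoN

/-!
# LC3-S18: the two-sided inequality in the central region

`m = (x+y)/2`, `u = (y-x)/2`, `q0 = m² + (243/100) u²`, `ζ0 = (√3/2)(m - u/3 + (23/20) u²)`, `ρ0 = (9√3/20)|y - x|`, `e0 = |y - x|`, `Qb = 3/2` (`q0 ≤ 1.35`).  `ρ0² + m² = q0` (`(9√3/20)² * 4 = 243/100`).
`two_interp` with `lam = (c0+ga) x - ga y > 0` (`x ≥ 3/4`, `y ≤ 5/4`, so `lam ≥ .37`).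
* `f0 = (1/6)((1-m)² + u²)`: `arc_c` (`q0 ≥ 7/10`; `x ≤ (3/4)(1 + q0)`: `m - u ≤ m + 1/10 ≤ (3/4)(1 + m²)`) and `cen_main`.
* `f1 = 1/2500`: `twon_top` (file `CTwoN`, with `m`, `u`; `m - u = x`, `m + u = y`) gives `Two1 (3/2) x y`, `arc_q`; there `lamn = .550475 x - .026875 y ≥ lam` is used instead of `lam`.  Let
  `A = (5/2) * 2 * (.550475 * .026876) * (x y/5) ≤ .03`.  `1/2500 ≤ F - (1+q1) lamn - A/lamn` and `(1+q1)(lamn - lam) ≥ lamn - lam ≥ (lamn - lam) A/(lam lamn) = A/lam - A/lamn`.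
-/

namespace Pool.Agent.Helper98.LC3

open Finset Real Pool.Agent.Helper98.LC Pool.Agent.Helper38.LC2

variable {a : ℝ} {D s1 b1 b2 s2 : ℂ} {L l1 l2 l3 l4 yO y1 y2 y3 y4 : ℝ}

theorem two_central (h : Face41 a D s1 b1 b2 s2 L l1 l2 l3 l4 yO y1 y2 y3 y4) {x y t : ℝ}
    (hx : ‖D‖ = √3 * x) (hy : ‖b1 + b2‖ = √3 * y) (hc : CenXY x y) (ht0 : 0 ≤ t) (ht1 : t ≤ 1)
    (hK : 6 * (t * (x * y / 5)) = ‖D‖ * ‖b1 + b2‖ - ip D (-(b1 + b2))) :
    ∃ q1 ζ1 : ℝ, 0 ≤ q1 ∧ q1 ≤ 3 / 2 ∧ 0 ≤ ζ1 ∧ ζ1 ^ 2 + y ^ 2 / 4 ≤ q1 ∧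
      (1 - t) * (1 / 6 * ((1 - (x + y) / 2) ^ 2 + ((y - x) / 2) ^ 2)) + t * (1 / 2500) +
        2 / 3 * tri b1 b2
          ((1 - t) * (((x + y) / 2) ^ 2 + 243 / 100 * ((y - x) / 2) ^ 2) + t * q1)
          ((1 - t) * (√3 / 2 * ((x + y) / 2 - (y - x) / 2 / 3 + 23 / 20 * ((y - x) / 2) ^ 2)) +
            t * ζ1) ≤
        (1 + ((1 - t) * (((x + y) / 2) ^ 2 + 243 / 100 * ((y - x) / 2) ^ 2) + t * q1)) / √3 *
          (HH l1 l2 l3 l4 y1 y2 y3 y4 + L - 3 * min 1 a -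
            c0 * ‖D - (et0 : ℂ) * (s1 + s2)‖) := by
  obtain ⟨hc1, hc2, hc3, hc4⟩ := hc
  have hs3 : 0 < √3 := Real.sqrt_pos.2 (by norm_num)
  have hs3' : √3 * √3 = 3 := Real.mul_self_sqrt (by norm_num)
  have hs3u : √3 ≤ 17320509 / 10000000 := by
    rw [Real.sqrt_le_left (by norm_num)]
    norm_num
  obtain ⟨hc0a, hc0b⟩ := c0_num
  obtain ⟨hga, hgb⟩ := ga_num
  have hx34 : 3 / 4 ≤ x := by linarith
  have hy54 : y ≤ 5 / 4 := by linarith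
  have hy34 : 3 / 4 ≤ y := by linarith
  have hx54 : x ≤ 5 / 4 := by linarith
  have hx0 : 0 ≤ x := by linarith
  have hy0 : 0 ≤ y := by linarith
  have hL : L ≤ 31 / 10 := by
    have h1 := h.capO
    have h2 := h.lt
    have h3 : min 1 a ≤ 1 := min_le_left _ _
    linarith
  obtain ⟨lam, hlam⟩ : ∃ lam : ℝ, lam = (c0 + ga) * x - ga * y := ⟨_, rfl⟩
  obtain ⟨lamn, hlamn⟩ : ∃ lamn : ℝ, lamn = 550475 / 1000000 * x - 26875 / 1000000 * y := ⟨_, rfl⟩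
  have hl37 : 37 / 100 ≤ lam := by
    have h1 : (0.55 : ℝ) * x ≤ (c0 + ga) * x := mul_le_mul_of_nonneg_right (by linarith) hx0
    have h2 : ga * y ≤ 0.026876 * y := mul_le_mul_of_nonneg_right (by linarith) hy0
    rw [hlam]
    linarith
  have hl0 : 0 < lam := by linarith
  have hll : lam ≤ lamn := by
    have h1 : (c0 + ga) * x ≤ 550475 / 1000000 * x :=
      mul_le_mul_of_nonneg_right (by norm_num at hc0b hgb ⊢; linarith) hx0
    have h2 : 26875 / 1000000 * y ≤ ga * y :=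
      mul_le_mul_of_nonneg_right (by norm_num at hga ⊢; linarith) hy0
    rw [hlam, hlamn]
    linarith
  have hln0 : 0 < lamn := by linarith
  have habs : |(c0 + ga) * x - ga * y| ≤ lam := by
    rw [← hlam, abs_of_pos hl0]
  obtain ⟨q0, hq0⟩ : ∃ q0 : ℝ, q0 = ((x + y) / 2) ^ 2 + 243 / 100 * ((y - x) / 2) ^ 2 := ⟨_, rfl⟩
  have hm2 : ((x + y) / 2) ^ 2 ≤ q0 := by
    rw [hq0]
    nlinarith [sq_nonneg ((y - x) / 2)]
  have hq07 : 7 / 10 ≤ q0 := by nlinarith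
  have hq032 : q0 ≤ 3 / 2 := by
    rw [hq0]
    have h1 : ((x + y) / 2) ^ 2 ≤ (23 / 20) ^ 2 := by
      apply pow_le_pow_left₀ <;> linarith
    have h2 : ((y - x) / 2) ^ 2 ≤ (1 / 10) ^ 2 := by
      apply sq_le_sq'
      · linarith
      · linarith
    norm_num at h1 h2 ⊢
    linarith
  have hxq : x ≤ 3 / 4 * (1 + q0) := by
    nlinarith [sq_nonneg ((x + y) / 2 - 2 / 3)]
  have hx' : x = (x + y) / 2 - (y - x) / 2 := by ring
  have hy' : y = (x + y) / 2 + (y - x) / 2 := by ring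
  have htw : Two1 (3 / 2) x y := by
    have h1 := twon_top (m := (x + y) / 2) (u := (y - x) / 2) (by linarith) (by linarith)
      (by linarith) (by linarith)
    rw [← hx', ← hy'] at h1
    exact h1
  obtain ⟨s, T, th, sec, q1, ρ1, ζ1, g, hT, hq1, hq1b, hρ1, hζ1, hg, hr1, hz1, hxs, hF⟩ := htw
  refine ⟨q1, ζ1, hq1, hq1b, hζ1, hz1, ?_⟩
  have hac := arc_c h.eO hL hq07 hx hxq
  have hcm := cen_main ⟨hc1, hc2, hc3, hc4⟩ hq0
  have haq := arc_q h.eO hL hT hq1 hx hxs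
  obtain ⟨ζ0, hζ0⟩ : ∃ ζ0 : ℝ, ζ0 = √3 / 2 * ((x + y) / 2 - (y - x) / 2 / 3 +
    23 / 20 * ((y - x) / 2) ^ 2) := ⟨_, rfl⟩
  rw [← hq0, ← hζ0]
  rw [← hζ0, ← hlam] at hcm
  obtain ⟨A, hA⟩ : ∃ A : ℝ, A = (1 + 3 / 2) * 2 * (550475 / 1000000 * (26876 / 1000000)) *
    (x * y / 5) := ⟨_, rfl⟩
  have hxy0 : 0 ≤ x * y := mul_nonneg hx0 hy0
  have hxy1 : x * y ≤ 5 / 4 * (5 / 4) := mul_le_mul hx54 hy54 hy0 (by norm_num)
  have hA0 : 0 ≤ A := by rw [hA]; positivity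
  have hA1 : A ≤ 3 / 100 := by
    rw [hA]
    norm_num at hxy1 ⊢
    linarith
  refine two_interp h hx0 hy0 hx hy ht0 ht1 hK (lam := lam) (Qb := 3 / 2) (q0 := q0) (q1 := q1)
    (ρ0 := 9 * √3 / 20 * |y - x|) (ρ1 := ρ1) (ζ0 := ζ0) (ζ1 := ζ1) (e0 := |y - x|) (e1 := g)
    (f0 := 1 / 6 * ((1 - (x + y) / 2) ^ 2 + ((y - x) / 2) ^ 2)) (f1 := 1 / 2500) hl0 habs
    (by linarith) hq1 hq032 hq1b (by positivity) hρ1 le_rfl hg ?_ hr1 ?_ ?_
  · rw [hq0, mul_pow, sq_abs]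
    have h1 : (9 * √3 / 20) ^ 2 = 243 / 400 := by
      linear_combination (81 / 400) * hs3'
    rw [h1]
    apply le_of_eq
    ring
  · linarith
  · rw [← hA]
    rw [← hA, ← hlamn] at hF
    have h1 : √3 * q1 ≤ 17320509 / 10000000 * q1 := mul_le_mul_of_nonneg_right hs3u hq1
    obtain ⟨X, hX⟩ : ∃ X : ℝ, X = (1 + q1) * (x * sec) - (T - th) / 2 * (1 + q1) ^ 2 -
      T / 2 * x ^ 2 - 17320509 / 10000000 * q1 + ρ1 * g + y * ζ1 - 1 / 2500 := ⟨_, rfl⟩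
    have hF2 : A ≤ (X - (1 + q1) * lamn) * lamn := by
      refine hF.trans (le_of_eq ?_)
      rw [hX]
      ring
    have h2 : A / lamn ≤ X - (1 + q1) * lamn := by
      rw [div_le_iff₀ hln0]
      exact hF2
    have h3 : A / lam - A / lamn ≤ (1 + q1) * (lamn - lam) := by
      have h4 : A / lam - A / lamn = A / (lam * lamn) * (lamn - lam) := by
        field_simp
      rw [h4]
      apply mul_le_mul_of_nonneg_right _ (by linarith)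
      have h5 : A / (lam * lamn) ≤ 1 := by
        rw [div_le_one (mul_pos hl0 hln0)]
        have h7 : (37 / 100 : ℝ) * (37 / 100) ≤ lam * lamn :=
          mul_le_mul hl37 (hl37.trans hll) (by norm_num) hl0.le
        norm_num at h7
        linarith
      linarith
    have h6 : A / lam ≤ X - (1 + q1) * lam := by linarith
    linarith

end Pool.Agent.Helper98.LC3
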