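import Pool.Agent.Helper98.LC3.S.TwoNear
import Pool.Agent.Helper98.LC3.S.TwoCen

/-!
# LC3-S19: the sharp inequality for faces with five edges, one of them outer (two-sided shift)

`D' = D - et0 (s1 + s2)`, `V = -(b1 + b2)`, `x = ‖D‖/√3`, `y = ‖V‖/√3`.
* Not `Near41 D V`: `far41`, `c0 ‖D'‖ ≤ c0 ‖D‖ + ga (‖s1‖ + ‖s2‖)` (`c0 * et0 = ga`).
* `Near41`, not central: `two_all`, `two_of_any`.
* `Near41`, central: `two_t`, `two_central`, `tri_nonneg` (constraint for `ζ`: `cen_c2` and convexity of the square): the left side is `≥ 0`, so `σ ≥ 0`.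
* `cen_norm`: `D' = (1 + et0) D - et0 V` (`s1 + s2 = V - D`), `‖D'‖ ≥ √3 ((1 + et0) x - et0 y) ≥ √3 (1.0513 * .75 - .0514 * 1.25) ≥ 1`.
-/

namespace Pool.Agent.Helper98.LC3

open Finset Real Pool.Agent.Helper98.LC Pool.Agent.Helper38.LC2

variable {a : ℝ} {D s1 b1 b2 s2 : ℂ} {L l1 l2 l3 l4 yO y1 y2 y3 y4 : ℝ}

/-- the central case -/
def Cen41 (D V : ℂ) : Prop := CenXY (‖D‖ / √3) (‖V‖ / √3) ∧ 3 / 5 * (‖D‖ * ‖V‖) ≤ ip D V

theorem sharp41_cases (h : Face41 a D s1 b1 b2 s2 L l1 l2 l3 l4 yO y1 y2 y3 y4) :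
    3 * min 1 a + c0 * ‖D - (et0 : ℂ) * (s1 + s2)‖ + 1 / 20000 ≤
      HH l1 l2 l3 l4 y1 y2 y3 y4 + L ∨
    (Cen41 D (-(b1 + b2)) ∧ 1 ≤ ‖D - (et0 : ℂ) * (s1 + s2)‖ ∧
      3 * min 1 a + c0 * ‖D - (et0 : ℂ) * (s1 + s2)‖ ≤ HH l1 l2 l3 l4 y1 y2 y3 y4 + L) := by
  have het := et0_num
  have hc0 := c0_num
  have het0 : 0 ≤ et0 := by linarith [het.1]
  have hc00 : 0 ≤ c0 := by linarith [hc0.1]
  by_cases hn : Near41 D (-(b1 + b2))
  · have h3 : (0 : ℝ) < √3 := Real.sqrt_pos.2 (by norm_num)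
    obtain ⟨n1, n2, n3, n4, n5⟩ := hn
    obtain ⟨x, hxd⟩ : ∃ x, x = ‖D‖ / √3 := ⟨_, rfl⟩
    obtain ⟨y, hyd⟩ : ∃ y, y = ‖-(b1 + b2)‖ / √3 := ⟨_, rfl⟩
    have hx : ‖D‖ = √3 * x := by rw [hxd]; field_simp
    have hy' : ‖-(b1 + b2)‖ = √3 * y := by rw [hyd]; field_simp
    have hy : ‖b1 + b2‖ = √3 * y := by rw [← hy', norm_neg]
    have hx0 : 1 / 4 ≤ x := by
      rw [hx] at n1
      exact le_of_mul_le_mul_left n1 h3
    have hx1 : x ≤ 31 / 20 := by
      rw [hx] at n2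
      exact le_of_mul_le_mul_left n2 h3
    have hy0 : 9 / 20 ≤ y := by
      rw [hy'] at n3
      exact le_of_mul_le_mul_left n3 h3
    have hy1 : y ≤ 37 / 20 := by
      rw [hy'] at n4
      exact le_of_mul_le_mul_left n4 h3
    rcases two_all hx0 hx1 hy0 hy1 with hc | hT
    · right
      have hcc := hc
      obtain ⟨c1, c2, c3, c4⟩ := hcc
      refine ⟨⟨by rw [← hxd, ← hyd]; exact hc, n5⟩, ?_, ?_⟩
      · have e1 : D - (et0 : ℂ) * (s1 + s2) =
            ((1 + et0 : ℝ) : ℂ) * D - ((et0 : ℝ) : ℂ) * (-(b1 + b2)) := by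
          have hs := h.sum
          push_cast
          linear_combination (-(et0 : ℂ)) * hs
        rw [e1]
        have e2 := norm_sub_norm_le (((1 + et0 : ℝ) : ℂ) * D) (((et0 : ℝ) : ℂ) * (-(b1 + b2)))
        rw [norm_mul, norm_mul, Complex.norm_real, Complex.norm_real, Real.norm_of_nonneg het0,
          Real.norm_of_nonneg (by linarith : (0 : ℝ) ≤ 1 + et0), hx, hy'] at e2
        refine le_trans ?_ e2
        have s3 : 1.732 ≤ √3 := by
          rw [Real.le_sqrt (by norm_num) (by norm_num)]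
          norm_num
        have hx2 : 3 / 4 ≤ x := by linarith
        have hy2 : y ≤ 5 / 4 := by linarith
        have hk : 7 / 10 ≤ (1 + et0) * x - et0 * y := by nlinarith [het.1, het.2]
        nlinarith
      · have hCC : 3 / 5 * (‖D‖ * ‖b1 + b2‖) ≤ ip D (-(b1 + b2)) := by
          rw [← norm_neg (b1 + b2)]
          exact n5
        obtain ⟨t, ht0, ht1, hK⟩ := two_t (by linarith) (by linarith) hx hy hCC
        obtain ⟨q1, ζ1, hq1, hq1', hζ1, hζc, hmain⟩ := two_central h hx hy hc ht0 ht1 hK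
        have hcen := cen_c2 hc
        obtain ⟨ζ0, hζ0d⟩ : ∃ z, z = √3 / 2 *
          ((x + y) / 2 - (y - x) / 2 / 3 + 23 / 20 * ((y - x) / 2) ^ 2) := ⟨_, rfl⟩
        obtain ⟨q0, hq0d⟩ : ∃ z, z = ((x + y) / 2) ^ 2 + 243 / 100 * ((y - x) / 2) ^ 2 := ⟨_, rfl⟩
        rw [← hζ0d, ← hq0d] at hcen hmain
        have hζ0 : 0 ≤ ζ0 := by
          rw [hζ0d]
          refine mul_nonneg (by positivity) ?_
          nlinarith [sq_nonneg ((y - x) / 2)]
        have hq0 : 0 ≤ q0 := by rw [hq0d]; positivity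
        have ht1' : 0 ≤ 1 - t := by linarith
        have hZ : 0 ≤ (1 - t) * ζ0 + t * ζ1 := by positivity
        have hconv : ((1 - t) * ζ0 + t * ζ1) ^ 2 + y ^ 2 / 4 ≤ (1 - t) * q0 + t * q1 := by
          have k1 := mul_le_mul_of_nonneg_left hcen ht1'
          have k2 := mul_le_mul_of_nonneg_left hζc ht0
          have k3 : 0 ≤ t * (1 - t) * (ζ0 - ζ1) ^ 2 :=
            mul_nonneg (mul_nonneg ht0 ht1') (sq_nonneg _)
          nlinarith
        have htri := tri_nonneg b1 b2 hy hZ hconv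
        have hQ : 0 ≤ (1 - t) * q0 + t * q1 := by positivity
        have hl : 0 ≤ (1 + ((1 - t) * q0 + t * q1)) / √3 *
            (HH l1 l2 l3 l4 y1 y2 y3 y4 + L - 3 * min 1 a -
            c0 * ‖D - (et0 : ℂ) * (s1 + s2)‖) := by
          refine le_trans ?_ hmain
          positivity
        have hpos : 0 < (1 + ((1 - t) * q0 + t * q1)) / √3 := by positivity
        have := nonneg_of_mul_nonneg_right hl hpos
        linarith
    · left
      exact two_of_any h hx hy ⟨n1, n2, n3, n4, n5⟩ hT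
  · left
    have hf := far41 h hn
    have e1 : ‖D - (et0 : ℂ) * (s1 + s2)‖ ≤ ‖D‖ + et0 * (‖s1‖ + ‖s2‖) := by
      refine (norm_sub_le _ _).trans ?_
      rw [norm_mul, Complex.norm_real, Real.norm_of_nonneg het0]
      have := norm_add_le s1 s2
      nlinarith
    have e2 := mul_le_mul_of_nonneg_left e1 hc00
    have e3 : c0 * (‖D‖ + et0 * (‖s1‖ + ‖s2‖)) = c0 * ‖D‖ + ga * (‖s1‖ + ‖s2‖) := by
      rw [← c0_et0]
      ring
    linarith

theorem sharp41 (h : Face41 a D s1 b1 b2 s2 L l1 l2 l3 l4 yO y1 y2 y3 y4) :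
    3 * min 1 a + c0 * ‖D - (et0 : ℂ) * (s1 + s2)‖ ≤ HH l1 l2 l3 l4 y1 y2 y3 y4 + L := by
  rcases sharp41_cases h with h1 | h1
  · linarith
  · exact h1.2.2

end Pool.Agent.Helper98.LC3
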