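import Pool.Agent.Helper98.LC3.S.Geom

/-!
# LC3-S24: stability of the triangle

`B = b1 + b2`, `β = ‖B‖`, `E = B/β` (unit vector), `e1 = E (√3/2 - i/2)`, `e2 = E (√3/2 + i/2)`: unit vectors, `e1 + e2 = √3 E`.
* `ip b1 e1 + ip b2 e2 = (√3/2) β + cr b1 b2/β`: `ip b E`-part: `(√3/2) ip B E = (√3/2) β`; the other part: `(1/2)(cr E b2 - cr E b1)`, `cr E b1 = - cr E b2` (`cr E B = 0`), `cr b1 b2 = cr B b2 = β cr E b2`.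
* so `(√3/2)((‖b1‖ - ip b1 e1) + (‖b2‖ - ip b2 e2)) = [√3 (‖b1‖ + ‖b2‖)/2 - (3/4) β - cr b1 b2/2] + (cr b1 b2/2)(1 - √3/β) ≤ ε + 4.5 * ε` if the bracket is `≤ ε`, `|β - √3| ≤ ε ≤ 1/10` (`|cr b1 b2| ≤ 9`, `β ≥ 1`);
  both terms on the left are `≥ 0`, so `‖b_i‖ - ip b_i e_i ≤ 7 ε`.
* `cr (e_i) (b_i)² = ‖b_i‖² - ip² ≤ 7 ε * 6`: `r_i = cr e_i b_i`, `|r_i| ≤ 6.5 √ε`.  `b_i = p_i e_i + r_i (i e_i)`, `p_i = ip b_i e_i`.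
* `b1 + b2 = (β/√3)(e1 + e2)`: `(p1 - β/√3) e1 + (p2 - β/√3) e2 = -(r1 i e1 + r2 i e2)`; cross product with `e2` and `e1` (`cr e1 e2 = √3/2`): `|p_i - β/√3| ≤ (2/√3)(|r1| + |r2|) ≤ 15.1 √ε`.
  So `‖b_i - (β/√3) e_i‖ ≤ 22 √ε`, `(β/√3) e_1 = B (1/2 - i √3/6)`, `(β/√3) e_2 = B (1/2 + i √3/6)`.
-/

namespace Pool.Agent.Helper98.LC3

open Finset Real Pool.Agent.Helper98.LC Pool.Agent.Helper38.LC2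

theorem stab_tri {b1 b2 : ℂ} {ε : ℝ} (hε0 : 0 ≤ ε) (hε : ε ≤ 1 / 10) (h1 : ‖b1‖ ≤ 3)
    (h2 : ‖b2‖ ≤ 3) (hB : |‖b1 + b2‖ - √3| ≤ ε)
    (hG : √3 * (‖b1‖ + ‖b2‖) / 2 - 3 / 4 * ‖b1 + b2‖ - cr b1 b2 / 2 ≤ ε) :
    ‖b1 - (b1 + b2) * ⟨1 / 2, -(√3 / 6)⟩‖ ≤ 25 * √ε ∧
      ‖b2 - (b1 + b2) * ⟨1 / 2, √3 / 6⟩‖ ≤ 25 * √ε := by
  sorry

end Pool.Agent.Helper98.LC3
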