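import Pool.Agent.Helper98.LC3.S.Stab1
import Pool.Agent.Helper98.LC3.S.Stab2
import Pool.Agent.Helper38.RG.Defs

/-!
# LC3-S25: stability, final form

`D' = D - et0 (s1 + s2)`, `B = b1 + b2`, `B = -D - (s1 + s2)`.  All vectors have norm `≤ 4`.  `|x^7 - y^7| ≤ 7 * 4^6 |x - y|` for `‖x‖, ‖y‖ ≤ 4`.  Let `δ → 0`, `ε = 100 √δ` in `stab_tri`.
* `κ = 0`: the sum is `s1 + b1 + b2 + s2 + D' = -et0 (s1 + s2)` (`sum` of `Face41`): `≤ .06 * 130 √δ`.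
* `κ = 1`: `s1^7 + s2^7`: `‖s1^7 + s2^7‖ = ‖s1^7 - (-s2)^7‖ ≤ 7 * 4^6 * 130 √δ`.  `b1^7 ≈ (B w)^7`, `b2^7 ≈ (B w')^7` with `w = 1/2 - i √3/6`, `w' = conj w` (`stab_tri`); `w^2 = 1/6 - i √3/6`, `w^6 = w'^6 = -1/27`
  (`w = e^{-iπ/6}/√3`), `w + w' = 1`, so `(B w)^7 + (B w')^7 = -B^7/27`.  `B ≈ -D'` (error `≤ 2 * 130 √δ`), so `-B^7/27 ≈ D'^7/27`; `dirn(D')^6 D' = D'^7/‖D'‖^6`, `‖D'‖^6 ≈ 27` (`|‖D'‖ - √3| ≤ 20 √δ + 8 √δ`).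
Choose `δ` so small that all errors together are `≤ γ` (they are `≤ C δ^(1/4)`).
-/

namespace Pool.Agent.Helper98.LC3

open Finset Real Pool.Agent.Helper98.LC Pool.Agent.Helper38 Pool.Agent.Helper38.LC2

private theorem pow7_sub (x y : ℂ) (hx : ‖x‖ ≤ 4) (hy : ‖y‖ ≤ 4) :
    ‖x ^ 7 - y ^ 7‖ ≤ 28672 * ‖x - y‖ := by
  have h : x ^ 7 - y ^ 7 = (∑ i ∈ range 7, x ^ i * y ^ (6 - i)) * (x - y) := by
    simp only [Finset.sum_range_succ, Finset.sum_range_zero]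
    norm_num
    ring
  rw [h, norm_mul]
  have h2 : ‖∑ i ∈ range 7, x ^ i * y ^ (6 - i)‖ ≤ 28672 := by
    refine (norm_sum_le _ _).trans ?_
    have h3 : ∀ i ∈ range 7, ‖x ^ i * y ^ (6 - i)‖ ≤ (4 : ℝ) ^ 6 := by
      intro i hi
      have hi6 : i ≤ 6 := by have := mem_range.1 hi; omega
      rw [norm_mul, norm_pow, norm_pow]
      calc ‖x‖ ^ i * ‖y‖ ^ (6 - i) ≤ 4 ^ i * 4 ^ (6 - i) := by gcongr
        _ = (4 : ℝ) ^ 6 := by rw [← pow_add]; congr 1; omega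
    refine (Finset.sum_le_sum h3).trans ?_
    rw [Finset.sum_const, Finset.card_range]
    norm_num
  exact mul_le_mul_of_nonneg_right h2 (norm_nonneg _)

private theorem cube_pow6 (σ : ℝ) (hσ : σ = 1 ∨ σ = -1) :
    (⟨1 / 2, σ * (√3 / 6)⟩ : ℂ) ^ 6 = -(1 / 27) := by
  have h3 : √3 * √3 = 3 := Real.mul_self_sqrt (by norm_num)
  have hs : σ * σ = 1 := by rcases hσ with rfl | rfl <;> norm_num
  have h2 : (⟨1 / 2, σ * (√3 / 6)⟩ : ℂ) * ⟨1 / 2, σ * (√3 / 6)⟩ = ⟨1 / 6, σ * (√3 / 6)⟩ := by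
    apply Complex.ext
    · simp only [Complex.mul_re]
      linear_combination (-(1 / 36 : ℝ) * (√3 * √3)) * hs - (1 / 36 : ℝ) * h3
    · simp only [Complex.mul_im]
      ring
  have hc : (⟨1 / 6, σ * (√3 / 6)⟩ : ℂ) * ⟨1 / 2, σ * (√3 / 6)⟩ = ⟨0, σ * (√3 / 9)⟩ := by
    apply Complex.ext
    · simp only [Complex.mul_re]
      linear_combination (-(1 / 36 : ℝ) * (√3 * √3)) * hs - (1 / 36 : ℝ) * h3
    · simp only [Complex.mul_im]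
      ring
  have h6 : (⟨0, σ * (√3 / 9)⟩ : ℂ) * ⟨0, σ * (√3 / 9)⟩ = -(1 / 27) := by
    have e : (-(1 / 27) : ℂ) = ⟨-(1 / 27), 0⟩ := by
      apply Complex.ext <;> norm_num
    rw [e]
    apply Complex.ext
    · simp only [Complex.mul_re]
      linear_combination (-(1 / 81 : ℝ) * (√3 * √3)) * hs - (1 / 81 : ℝ) * h3
    · simp only [Complex.mul_im]
      ring
  calc (⟨1 / 2, σ * (√3 / 6)⟩ : ℂ) ^ 6
      = (⟨1 / 2, σ * (√3 / 6)⟩ * ⟨1 / 2, σ * (√3 / 6)⟩ * ⟨1 / 2, σ * (√3 / 6)⟩) *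
        (⟨1 / 2, σ * (√3 / 6)⟩ * ⟨1 / 2, σ * (√3 / 6)⟩ * ⟨1 / 2, σ * (√3 / 6)⟩) := by ring
    _ = -(1 / 27) := by rw [h2, hc, h6]

private theorem ww : (⟨1 / 2, -(√3 / 6)⟩ : ℂ) ^ 7 + (⟨1 / 2, √3 / 6⟩ : ℂ) ^ 7 = -(1 / 27) := by
  have a1 := cube_pow6 1 (Or.inl rfl)
  have a2 := cube_pow6 (-1) (Or.inr rfl)
  rw [one_mul] at a1
  rw [neg_one_mul] at a2
  have hsum : (⟨1 / 2, -(√3 / 6)⟩ : ℂ) + ⟨1 / 2, √3 / 6⟩ = 1 := by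
    apply Complex.ext
    · simp only [Complex.add_re, Complex.one_re]; norm_num
    · simp only [Complex.add_im, Complex.one_im]; ring
  calc (⟨1 / 2, -(√3 / 6)⟩ : ℂ) ^ 7 + (⟨1 / 2, √3 / 6⟩ : ℂ) ^ 7
      = (⟨1 / 2, -(√3 / 6)⟩ : ℂ) ^ 6 * ⟨1 / 2, -(√3 / 6)⟩ +
        (⟨1 / 2, √3 / 6⟩ : ℂ) ^ 6 * ⟨1 / 2, √3 / 6⟩ := by ring
    _ = -(1 / 27) * ((⟨1 / 2, -(√3 / 6)⟩ : ℂ) + ⟨1 / 2, √3 / 6⟩) := by rw [a1, a2]; ring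
    _ = -(1 / 27) := by rw [hsum, mul_one]

private theorem norm_w (σ : ℝ) (hσ : σ = 1 ∨ σ = -1) : ‖(⟨1 / 2, σ * (√3 / 6)⟩ : ℂ)‖ ≤ 1 := by
  have h3 : √3 * √3 = 3 := Real.mul_self_sqrt (by norm_num)
  have hs : σ * σ = 1 := by rcases hσ with rfl | rfl <;> norm_num
  rw [Complex.norm_def, Complex.normSq_mk]
  have e : (1 / 2 : ℝ) * (1 / 2) + σ * (√3 / 6) * (σ * (√3 / 6)) = 1 / 3 := by
    linear_combination ((1 / 36 : ℝ) * (√3 * √3)) * hs + (1 / 36 : ℝ) * h3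
  rw [e]
  exact Real.sqrt_le_one.2 (by norm_num)

private theorem dirn_err {Z : ℂ} {r : ℝ} (hZ0 : 1 ≤ ‖Z‖) (hZ4 : ‖Z‖ ≤ 4)
    (hr : |‖Z‖ - √3| ≤ r) : ‖Z ^ 7 / 27 - RG.dirn Z ^ 6 * Z‖ ≤ 400 * r := by
  obtain ⟨n, hn⟩ : ∃ n, n = ‖Z‖ := ⟨_, rfl⟩
  rw [← hn] at hZ0 hZ4 hr
  have h3 : √3 * √3 = 3 := Real.mul_self_sqrt (by norm_num)
  have h30 : 0 ≤ √3 := Real.sqrt_nonneg _
  have h32 : √3 ≤ 2 := by nlinarith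
  have hnc : (n : ℂ) ≠ 0 := by
    have : n ≠ 0 := by linarith
    exact_mod_cast this
  have e : Z ^ 7 / 27 - RG.dirn Z ^ 6 * Z = Z ^ 7 * (((n ^ 6 - 27) / (27 * n ^ 6) : ℝ) : ℂ) := by
    unfold RG.dirn
    rw [← hn]
    push_cast
    field_simp
  have hn0 : 0 < n := by linarith
  rw [e, norm_mul, norm_pow, ← hn, Complex.norm_real, Real.norm_eq_abs, abs_div,
    abs_of_pos (show 0 < 27 * n ^ 6 by positivity)]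
  have e2 : n ^ 7 * (|n ^ 6 - 27| / (27 * n ^ 6)) = n * |n ^ 6 - 27| / 27 := by
    field_simp
  rw [e2]
  have e3 : n ^ 6 - 27 = (n - √3) * ((n + √3) * (n ^ 4 + 3 * n ^ 2 + 9)) := by
    linear_combination (n ^ 4 + 3 * n ^ 2 + 9) * h3
  have hb : |n ^ 6 - 27| ≤ r * (6 * 313) := by
    rw [e3, abs_mul]
    have h5 : |(n + √3) * (n ^ 4 + 3 * n ^ 2 + 9)| ≤ 6 * 313 := by
      rw [abs_of_nonneg (by positivity)]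
      have h6 : n ^ 2 ≤ 4 ^ 2 := by gcongr
      have h7 : n ^ 4 ≤ 4 ^ 4 := by gcongr
      have h8 : n + √3 ≤ 6 := by linarith
      have h9 : n ^ 4 + 3 * n ^ 2 + 9 ≤ 313 := by nlinarith
      gcongr
    have hr0 : 0 ≤ r := (abs_nonneg _).trans hr
    gcongr
  have hr0 : 0 ≤ r := (abs_nonneg _).trans hr
  have hc : n * |n ^ 6 - 27| ≤ 4 * (r * (6 * 313)) := by gcongr
  linarith

theorem stab41 (γ : ℝ) (hγ : 0 < γ) : ∃ δ : ℝ, 0 < δ ∧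
    ∀ (a : ℝ) (D s1 b1 b2 s2 : ℂ) (L l1 l2 l3 l4 yO y1 y2 y3 y4 : ℝ),
      Face41 a D s1 b1 b2 s2 L l1 l2 l3 l4 yO y1 y2 y3 y4 → Cen41 D (-(b1 + b2)) →
      HH l1 l2 l3 l4 y1 y2 y3 y4 + L - 3 * min 1 a - c0 * ‖D - (et0 : ℂ) * (s1 + s2)‖ ≤ δ →
      ∀ κ : ℕ, κ ≤ 1 →
        ‖(s1 ^ (6 * κ + 1) + b1 ^ (6 * κ + 1) + b2 ^ (6 * κ + 1) + s2 ^ (6 * κ + 1)) -
          (-1) ^ (κ + 1) * (RG.dirn (D - (et0 : ℂ) * (s1 + s2)) ^ (6 * κ) *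
            (D - (et0 : ℂ) * (s1 + s2)))‖ ≤ γ := by
  obtain ⟨ρ, hρ0, hρ1, hργ⟩ : ∃ ρ : ℝ, 0 < ρ ∧ ρ ≤ 1 / 100 ∧ 10 ^ 8 * ρ ≤ γ := by
    refine ⟨min (1 / 100) (γ / 10 ^ 8), by positivity, min_le_left _ _, ?_⟩
    have h1 := min_le_right (1 / 100 : ℝ) (γ / 10 ^ 8)
    calc (10 : ℝ) ^ 8 * min (1 / 100) (γ / 10 ^ 8) ≤ 10 ^ 8 * (γ / 10 ^ 8) := by gcongr
      _ = γ := by ring
  have hρ2 : ρ ^ 2 ≤ ρ / 100 := by nlinarith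
  have hs : √(ρ ^ 4) = ρ ^ 2 := by
    rw [show ρ ^ 4 = (ρ ^ 2) ^ 2 by ring, Real.sqrt_sq (by positivity)]
  have hs2 : √(100 * ρ ^ 2) = 10 * ρ := by
    rw [show 100 * ρ ^ 2 = (10 * ρ) ^ 2 by ring, Real.sqrt_sq (by positivity)]
  refine ⟨ρ ^ 4, by positivity, ?_⟩
  intro a D s1 b1 b2 s2 L l1 l2 l3 l4 yO y1 y2 y3 y4 h hc hσ κ hκ
  have hδ : ρ ^ 4 ≤ 1 / 10 ^ 8 := by
    calc ρ ^ 4 ≤ (1 / 100) ^ 4 := by gcongr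
      _ = 1 / 10 ^ 8 := by norm_num
  obtain ⟨h1, h2, h3, h4⟩ := stab_one h hc (by positivity) hδ hσ
  rw [hs] at h1 h2 h3 h4
  have hm : min 1 a ≤ 1 := min_le_left _ _
  have ns1 : ‖s1‖ ≤ 3 := by have := h.e1.le; have := h.cap1; linarith
  have nb1 : ‖b1‖ ≤ 3 := by have := h.e2.le; have := h.cap2; linarith
  have nb2 : ‖b2‖ ≤ 3 := by have := h.e3.le; have := h.cap3; linarith
  have ns2 : ‖s2‖ ≤ 3 := by have := h.e4.le; have := h.cap4; linarith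
  have he0 := et0_num.1
  have he1 := et0_num.2
  have h33 : √3 * √3 = 3 := Real.mul_self_sqrt (by norm_num)
  have h30 : 0 ≤ √3 := Real.sqrt_nonneg _
  have h32 : √3 ≤ 2 := by nlinarith
  have h31 : 1.7 ≤ √3 := by nlinarith
  rcases Nat.le_one_iff_eq_zero_or_eq_one.1 hκ with rfl | rfl
  · have e : (s1 ^ (6 * 0 + 1) + b1 ^ (6 * 0 + 1) + b2 ^ (6 * 0 + 1) + s2 ^ (6 * 0 + 1)) -
          (-1) ^ (0 + 1) * (RG.dirn (D - (et0 : ℂ) * (s1 + s2)) ^ (6 * 0) *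
            (D - (et0 : ℂ) * (s1 + s2))) = -((et0 : ℂ) * (s1 + s2)) := by
      norm_num
      linear_combination h.sum
    rw [e, norm_neg, norm_mul, Complex.norm_real, Real.norm_eq_abs, abs_of_pos (by linarith)]
    have : et0 * ‖s1 + s2‖ ≤ 1 * (130 * ρ ^ 2) := by
      have := norm_nonneg (s1 + s2)
      gcongr
      linarith
    linarith
  · obtain ⟨Z, hZ⟩ : ∃ Z, Z = D - (et0 : ℂ) * (s1 + s2) := ⟨_, rfl⟩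
    obtain ⟨B, hB⟩ : ∃ B, B = b1 + b2 := ⟨_, rfl⟩
    have q1 : 100 * ρ ^ 2 ≤ 1 / 10 := by linarith
    have q2 : 0 ≤ ρ ^ 2 := by positivity
    have q3 : 20 * ρ ^ 2 ≤ 100 * ρ ^ 2 := by linarith
    obtain ⟨t1, t2⟩ := stab_tri (ε := 100 * ρ ^ 2) (by positivity) q1 nb1 nb2
      (h2.trans q3) h4
    rw [hs2] at t1 t2
    rw [← hB] at t1 t2 h2
    have nw1 : ‖(⟨1 / 2, -(√3 / 6)⟩ : ℂ)‖ ≤ 1 := by
      have := norm_w (-1) (Or.inr rfl)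
      rwa [neg_one_mul] at this
    have nw2 : ‖(⟨1 / 2, √3 / 6⟩ : ℂ)‖ ≤ 1 := by
      have := norm_w 1 (Or.inl rfl)
      rwa [one_mul] at this
    have nB : ‖B‖ ≤ 3 := by
      have := (abs_le.1 h2).2
      linarith
    have nBw1 : ‖B * ⟨1 / 2, -(√3 / 6)⟩‖ ≤ 4 := by
      rw [norm_mul]
      have : ‖B‖ * ‖(⟨1 / 2, -(√3 / 6)⟩ : ℂ)‖ ≤ 3 * 1 := by gcongr
      linarith
    have nBw2 : ‖B * ⟨1 / 2, √3 / 6⟩‖ ≤ 4 := by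
      rw [norm_mul]
      have : ‖B‖ * ‖(⟨1 / 2, √3 / 6⟩ : ℂ)‖ ≤ 3 * 1 := by gcongr
      linarith
    have neS : ‖(et0 : ℂ) * (s1 + s2)‖ ≤ 130 * ρ ^ 2 := by
      rw [norm_mul, Complex.norm_real, Real.norm_eq_abs, abs_of_pos (by linarith)]
      have : et0 * ‖s1 + s2‖ ≤ 1 * (130 * ρ ^ 2) := by
        have := norm_nonneg (s1 + s2)
        gcongr
        linarith
      linarith
    have hZr : |‖Z‖ - √3| ≤ 150 * ρ ^ 2 := by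
      have a1 : |‖Z‖ - ‖D‖| ≤ 130 * ρ ^ 2 := by
        refine (abs_norm_sub_norm_le Z D).trans ?_
        have : Z - D = -((et0 : ℂ) * (s1 + s2)) := by rw [hZ]; ring
        rw [this, norm_neg]
        exact neS
      have a2 : |‖Z‖ - √3| ≤ |‖Z‖ - ‖D‖| + |‖D‖ - √3| := abs_sub_le _ _ _
      linarith
    have hZ' := abs_le.1 hZr
    have nZ1 : 1 ≤ ‖Z‖ := by linarith [hZ'.1]
    have nZ4 : ‖Z‖ ≤ 4 := by linarith [hZ'.2]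
    have T1 := pow7_sub s1 (-s2) (by linarith) (by rw [norm_neg]; linarith)
    have T2 := pow7_sub b1 (B * ⟨1 / 2, -(√3 / 6)⟩) (by linarith) nBw1
    have T3 := pow7_sub b2 (B * ⟨1 / 2, √3 / 6⟩) (by linarith) nBw2
    have T4 := pow7_sub (-B) Z (by rw [norm_neg]; linarith) nZ4
    have T5 := dirn_err nZ1 nZ4 hZr
    have u1 : s1 - -s2 = s1 + s2 := by ring
    have u4 : -B - Z = (s1 + s2) + (et0 : ℂ) * (s1 + s2) := by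
      rw [hZ, hB]
      linear_combination -h.sum
    have u4' : ‖-B - Z‖ ≤ 260 * ρ ^ 2 := by
      rw [u4]
      refine (norm_add_le _ _).trans ?_
      linarith
    rw [u1] at T1
    have e : (s1 ^ (6 * 1 + 1) + b1 ^ (6 * 1 + 1) + b2 ^ (6 * 1 + 1) + s2 ^ (6 * 1 + 1)) -
          (-1) ^ (1 + 1) * (RG.dirn Z ^ (6 * 1) * Z) =
        (s1 ^ 7 - (-s2) ^ 7) + (b1 ^ 7 - (B * ⟨1 / 2, -(√3 / 6)⟩) ^ 7) +
          (b2 ^ 7 - (B * ⟨1 / 2, √3 / 6⟩) ^ 7) + ((-B) ^ 7 - Z ^ 7) / 27 +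
          (Z ^ 7 / 27 - RG.dirn Z ^ 6 * Z) := by
      norm_num
      linear_combination (B ^ 7) * ww
    rw [← hZ, e]
    refine (norm_add_le _ _).trans ?_
    have v4 : ‖((-B) ^ 7 - Z ^ 7) / 27‖ ≤ 28672 * (260 * ρ ^ 2) / 27 := by
      rw [norm_div]
      have : ‖(27 : ℂ)‖ = 27 := by norm_num
      rw [this]
      have : ‖(-B) ^ 7 - Z ^ 7‖ ≤ 28672 * (260 * ρ ^ 2) := T4.trans (by gcongr)
      gcongr
    have v1 : ‖s1 ^ 7 - (-s2) ^ 7‖ ≤ 28672 * (130 * ρ ^ 2) := T1.trans (by gcongr)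
    have v2 : ‖b1 ^ 7 - (B * ⟨1 / 2, -(√3 / 6)⟩) ^ 7‖ ≤ 28672 * (25 * (10 * ρ)) :=
      T2.trans (by gcongr)
    have v3 : ‖b2 ^ 7 - (B * ⟨1 / 2, √3 / 6⟩) ^ 7‖ ≤ 28672 * (25 * (10 * ρ)) :=
      T3.trans (by gcongr)
    have w1 := norm_add_le (s1 ^ 7 - (-s2) ^ 7 + (b1 ^ 7 - (B * ⟨1 / 2, -(√3 / 6)⟩) ^ 7) +
      (b2 ^ 7 - (B * ⟨1 / 2, √3 / 6⟩) ^ 7)) (((-B) ^ 7 - Z ^ 7) / 27)
    have w2 := norm_add_le (s1 ^ 7 - (-s2) ^ 7 + (b1 ^ 7 - (B * ⟨1 / 2, -(√3 / 6)⟩) ^ 7))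
      (b2 ^ 7 - (B * ⟨1 / 2, √3 / 6⟩) ^ 7)
    have w3 := norm_add_le (s1 ^ 7 - (-s2) ^ 7) (b1 ^ 7 - (B * ⟨1 / 2, -(√3 / 6)⟩) ^ 7)
    linarith

end Pool.Agent.Helper98.LC3
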