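import Pool.Agent.Helper38.LC2.Local

/-!
# Project LC3: faces with five edges, one of them outer

`c0 = π/6`, `et0 = √3/π - 1/2`, `g0 = 1/√3 - π/6`, `ga = c0 * et0 = g0 / 2`.
The chords of the edges are, counterclockwise, `D` (outer edge), `s1` (wall), `b1`, `b2`, `s2` (wall).
-/

namespace Pool.Agent.Helper98.LC3

open Finset Real Pool.Agent.Helper98.LC Pool.Agent.Helper38.LC2

/-- scalar product -/
noncomputable def ip (a b : ℂ) : ℝ := a.re * b.re + a.im * b.im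

noncomputable def c0 : ℝ := π / 6

noncomputable def et0 : ℝ := √3 / π - 1 / 2

noncomputable def g0 : ℝ := 1 / √3 - π / 6

noncomputable def ga : ℝ := g0 / 2

/-- the facts about one edge: chord `ch`, length `l`, bulge `y` (in hexagons) -/
structure EdgeOK (ch : ℂ) (l y : ℝ) : Prop where
  le : ‖ch‖ ≤ l
  dido : ∀ θ : ℝ, 0 < θ → θ < π → θ * (ct θ * ‖ch‖ ^ 2 + 4 * (A0 * |y|)) ≤ l ^ 2

/-- the area of the polygon with the sides `D, s1, b1, b2` and the closing side -/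
noncomputable def pent (D s1 b1 b2 : ℂ) : ℝ := (cr D s1 + cr (D + s1) b1 + cr (D + s1 + b1) b2) / 2

/-- the data of a face with five edges, one of them outer -/
structure Face41 (a : ℝ) (D s1 b1 b2 s2 : ℂ) (L l1 l2 l3 l4 yO y1 y2 y3 y4 : ℝ) : Prop where
  pos : 0 < a
  lt : a < 2
  sum : D + s1 + b1 + b2 + s2 = 0
  eO : EdgeOK D L yO
  e1 : EdgeOK s1 l1 y1
  e2 : EdgeOK b1 l2 y2
  e3 : EdgeOK b2 l3 y3
  e4 : EdgeOK s2 l4 y4
  area : A0 * a = pent D s1 b1 b2 + A0 * (yO + y1 + y2 + y3 + y4)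
  iso : 4 * π * (A0 * a) ≤ (L + l1 + l2 + l3 + l4) ^ 2
  capO : L ≤ 3 * min 1 a + a / 20
  cap1 : l1 ≤ 3 * min 1 a
  cap2 : l2 ≤ 3 * min 1 a
  cap3 : l3 ≤ 3 * min 1 a
  cap4 : l4 ≤ 3 * min 1 a

/-- half of the inner part of the functional -/
noncomputable def HH (l1 l2 l3 l4 y1 y2 y3 y4 : ℝ) : ℝ :=
  (l1 + l2 + l3 + l4 + 3 * (y1 + y2 + y3 + y4)) / 2

/-- the radius which belongs to `τ` -/
noncomputable def rr (τ : ℝ) : ℝ := (3 + τ ^ 2) / (2 * √3)

end Pool.Agent.Helper98.LC3
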