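import Pool.Agent.Helper98.LC3.S.Def

/-!
# LC3-S01: the constants

`3.141592 < π < 3.141593` (`Real.pi_gt_d6`, `Real.pi_lt_d6`), `1.7320508 ≤ √3 ≤ 1.7320509`, `√3 * √3 = 3`.
`1/√3 = √3/3`.  `c0 * et0 = √3/6 - π/12 = ga`.  `c0 * (1 + 2 et0) = 1/√3`.  `g0 = 0.05375147...`, `ga = 0.02687573...`, `et0 = 0.05132889...`, `√3 g0 = 1 - π √3 / 6 = 0.09310031...`.
-/

namespace Pool.Agent.Helper98.LC3

open Finset Real Pool.Agent.Helper98.LC Pool.Agent.Helper38.LC2

private theorem s3_sq : √3 * √3 = 3 := Real.mul_self_sqrt (by norm_num)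

private theorem s3_pos : 0 < √3 := Real.sqrt_pos.2 (by norm_num)

private theorem s3_lb : 1.7320508 < √3 := by
  rw [Real.lt_sqrt (by norm_num)]
  norm_num

private theorem s3_ub : √3 < 1.7320509 := by
  rw [Real.sqrt_lt' (by norm_num)]
  norm_num

private theorem inv_s3 : 1 / √3 = √3 / 3 := by
  rw [div_eq_div_iff s3_pos.ne' (by norm_num), s3_sq]
  norm_num

private theorem pi_lb : 3.141592 < π := Real.pi_gt_d6

private theorem pi_ub : π < 3.141593 := Real.pi_lt_d6

theorem c0_et0 : c0 * et0 = ga := by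
  have hp := Real.pi_pos
  unfold c0 et0 ga g0
  rw [inv_s3]
  field_simp
  ring

theorem c0_et0' : c0 * (1 + 2 * et0) = 1 / √3 := by
  have hp := Real.pi_pos
  unfold c0 et0
  rw [inv_s3]
  field_simp
  ring

theorem c0_num : 0.5235986 < c0 ∧ c0 < 0.5235989 := by
  unfold c0
  constructor <;> linarith [pi_lb, pi_ub]

theorem g0_num : 0.053751 < g0 ∧ g0 < 0.053752 := by
  unfold g0
  rw [inv_s3]
  constructor <;> linarith [pi_lb, pi_ub, s3_lb, s3_ub]

theorem ga_num : 0.026875 < ga ∧ ga < 0.026876 := by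
  unfold ga g0
  rw [inv_s3]
  constructor <;> linarith [pi_lb, pi_ub, s3_lb, s3_ub]

theorem et0_num : 0.051328 < et0 ∧ et0 < 0.051330 := by
  have hp := Real.pi_pos
  unfold et0
  have h1 : 0.551328 < √3 / π := by
    rw [lt_div_iff₀ hp]
    linarith [pi_ub, s3_lb]
  have h2 : √3 / π < 0.551330 := by
    rw [div_lt_iff₀ hp]
    linarith [pi_lb, s3_ub]
  constructor <;> linarith

theorem g1_num : 0.0931 < √3 * g0 ∧ √3 * g0 < 0.0932 := by
  have h : √3 * g0 = 1 - √3 * π / 6 := by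
    unfold g0
    rw [inv_s3]
    have := s3_sq
    linear_combination this / 3
  have h1 : √3 * π < 1.7320509 * 3.141593 :=
    mul_lt_mul'' s3_ub pi_ub s3_pos.le Real.pi_pos.le
  have h2 : 1.7320508 * 3.141592 < √3 * π :=
    mul_lt_mul'' s3_lb pi_lb (by norm_num) (by norm_num)
  rw [h]
  constructor
  · linarith
  · linarith

/-- `rr τ = (√3 / 2) (1 + τ² / 3)` -/
theorem rr_eq (τ : ℝ) : rr τ = √3 / 2 * (1 + τ ^ 2 / 3) := by
  unfold rr
  have h := s3_sq
  rw [div_eq_iff (by have := s3_pos; positivity)]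
  linear_combination (-(1 + τ ^ 2 / 3)) * h

theorem rr_pos (τ : ℝ) : 0.866 < rr τ := by
  rw [rr_eq]
  have h := s3_lb
  have h2 : 0 ≤ √3 / 2 * (τ ^ 2 / 3) := by
    have := s3_pos
    positivity
  linarith

end Pool.Agent.Helper98.LC3
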