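import Pool.Agent.Helper98.LC3.S.Base

/-!
# LC3-S12: the basic inequality, general form

`U = (s1 + s2)/2`, `M = (s1 - s2)/2`, `N = (D - (b1 + b2))/2`.
* `baseS`: `master1`, `pent_eq`, and `s_low` with `τ - β` instead of `τ`: `τ (‖s1‖ + ‖s2‖)/2 ≥ ip P U + ip E M + β (‖s1‖ + ‖s2‖)/2`
  (compare the proofs of `baseE`, `base_far` in `S/Base.lean`; `tri_low` is not used).
* `norm_sub_le`: `‖A - B‖² = ‖A‖² - 2 ip A B + ‖B‖²`, and `√(A² - 2 t + b²) ≤ A + (b² - 2t)/(2A)`.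
* `ip_bd`: with `e = D0/‖D0‖`; (1) `ip (I N) D0 = cr N D0` (up to the sign convention), `cr N D0 = -(1 + η)/2 * cr D V`; (2) `ip (I D0) U = cr D0 U = cr D U = cr D V / 2`
  where `V = -(b1 + b2)`, `U = (V - D)/2`, `N = (D + V)/2`, `D0 = D - η U`.   Both statements are algebraic identities.
-/

namespace Pool.Agent.Helper98.LC3

open Finset Real Pool.Agent.Helper98.LC Pool.Agent.Helper38.LC2

variable {a : ℝ} {D s1 b1 b2 s2 : ℂ} {L l1 l2 l3 l4 yO y1 y2 y3 y4 : ℝ}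

private theorem nsq' (z : ℂ) : ‖z‖ ^ 2 = z.re ^ 2 + z.im ^ 2 := by
  rw [Complex.sq_norm, Complex.normSq_apply]
  ring

theorem baseS (h : Face41 a D s1 b1 b2 s2 L l1 l2 l3 l4 yO y1 y2 y3 y4) {τ β : ℝ} (hτ : 0 ≤ τ)
    (P E : ℂ) (h1 : ‖P + E‖ ≤ τ - β) (h2 : ‖P - E‖ ≤ τ - β) :
    rr τ * L - A0 * yO - √3 / 2 * τ ^ 2 + ip P ((s1 + s2) / 2) + ip E ((s1 - s2) / 2) -
      cr ((D - (b1 + b2)) / 2) ((s1 - s2) / 2) + β * (‖s1‖ + ‖s2‖) / 2 +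
      (τ * (‖b1‖ + ‖b2‖) / 2 - cr b1 b2 / 2) +
      (A0 * (a - min 1 a) + √3 / 2 * τ ^ 2 * (1 - min 1 a)) ≤
      rr τ * (HH l1 l2 l3 l4 y1 y2 y3 y4 + L - 3 * min 1 a) := by
  have hm := master1 h hτ
  have hp := pent_eq h.sum
  have hs := s_low s1 s2 P E h1 h2
  have he : (τ - β) * (‖s1‖ + ‖s2‖) / 2 =
      τ * (‖s1‖ + ‖s2‖) / 2 - β * (‖s1‖ + ‖s2‖) / 2 := by ring
  rw [he] at hs
  linarith

theorem norm_sub_le_quad (A B : ℂ) (hA : 0 < ‖A‖) :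
    ‖A - B‖ ≤ ‖A‖ - ip A B / ‖A‖ + ‖B‖ ^ 2 / (2 * ‖A‖) := by
  have h1 : ‖A - B‖ ^ 2 = ‖A‖ ^ 2 - 2 * ip A B + ‖B‖ ^ 2 := by
    rw [nsq', nsq', nsq']
    simp only [ip, Complex.sub_re, Complex.sub_im]
    ring
  have h2 : ‖A‖ - ip A B / ‖A‖ + ‖B‖ ^ 2 / (2 * ‖A‖) =
      (‖A‖ ^ 2 + ‖A - B‖ ^ 2) / (2 * ‖A‖) := by
    rw [h1]
    field_simp
    ring
  have h3 : 0 ≤ (‖A‖ ^ 2 + ‖A - B‖ ^ 2) / (2 * ‖A‖) := by positivity
  rw [h2, le_div_iff₀ (by positivity)]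
  nlinarith [sq_nonneg (‖A‖ - ‖A - B‖)]

/-- `cr D V` in terms of norm and scalar product -/
theorem cr_sq (A B : ℂ) : cr A B ^ 2 + ip A B ^ 2 = ‖A‖ ^ 2 * ‖B‖ ^ 2 := by
  rw [nsq', nsq']
  simp only [cr, ip]
  ring

theorem ip_bd1 (D V : ℂ) (η : ℝ) :
    ip (Complex.I * ((D + V) / 2)) (D - (η : ℂ) * ((V - D) / 2)) = -((1 + η) / 2 * cr D V) := by
  simp only [cr, ip, Complex.I_mul_re, Complex.I_mul_im, Complex.sub_re, Complex.sub_im,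
    Complex.re_ofReal_mul, Complex.im_ofReal_mul, Complex.div_ofNat_re, Complex.div_ofNat_im,
    Complex.add_re, Complex.add_im]
  ring

theorem ip_bd2 (D V : ℂ) (η : ℝ) :
    ip (Complex.I * (D - (η : ℂ) * ((V - D) / 2))) ((V - D) / 2) = cr D V / 2 := by
  simp only [cr, ip, Complex.I_mul_re, Complex.I_mul_im, Complex.sub_re, Complex.sub_im,
    Complex.re_ofReal_mul, Complex.im_ofReal_mul, Complex.div_ofNat_re, Complex.div_ofNat_im,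
    Complex.add_re, Complex.add_im]
  ring

theorem ip_bd3 (D V : ℂ) : ip (Complex.I * (Complex.I * ((D + V) / 2))) ((V - D) / 2) =
    (‖D‖ ^ 2 - ‖V‖ ^ 2) / 4 := by
  rw [nsq', nsq']
  simp only [ip, Complex.I_mul_re, Complex.I_mul_im, Complex.sub_re, Complex.sub_im,
    Complex.div_ofNat_re, Complex.div_ofNat_im, Complex.add_re, Complex.add_im]
  ring

end Pool.Agent.Helper98.LC3
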