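import Pool.Agent.Helper98.LC3.S.CertDef

/-!
# LC3: certificates (generated)
-/

namespace Pool.Agent.Helper98.LC3

open Real

set_option maxRecDepth 8000

theorem twoa_4 {x y : ℝ} (h0 : 1 / 4 ≤ x) (h1 : x ≤ 23 / 40) (k0 : 9 / 20 ≤ y) (k1 : y ≤ 5 / 8) :
    TwoAny x y := by
  obtain ⟨a, ha, rfl⟩ := affine01 h0 h1 (by norm_num)
  obtain ⟨b, hb, rfl⟩ := affine01 k0 k1 (by norm_num)
  refine ⟨1 / 2, by norm_num, ?_, ?_⟩
  · refine ⟨8 / 17, 8 / 15, 489957 / 1000000, 17 / 15, 1581 / 10000 + 1047 / 10000 * a + 1147 / 10000 * b, 109 / 625 + (-(1743 / 10000)) * a + 553 / 5000 * b, 3277 / 10000 + 239 / 2000 * a + 193 / 2500 * b, (9 / 20 + (5 / 8 - 9 / 20) * b) - (1 / 4 + (23 / 40 - 1 / 4) * a), trigQ_5, ?_, ?_, ?_, ?_, ?_, ?_, ?_, ?_, ?_⟩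
    · have h : 0 ≤ B1 (1581 / 10000) (341 / 1250) (657 / 2500) (151 / 400) a b := B1_nonneg ha hb (by norm_num) (by norm_num) (by norm_num) (by norm_num)
      exact sub_nonneg.1 (h.trans_eq (by unfold B1; ring))
    · have h : 0 ≤ B1 (3419 / 10000) (142 / 625) (593 / 2500) (49 / 400) a b := B1_nonneg ha hb (by norm_num) (by norm_num) (by norm_num) (by norm_num)
      exact sub_nonneg.1 (h.trans_eq (by unfold B1; ring))
    · have h : 0 ≤ B1 (109 / 625) (57 / 200) (1 / 10000) (1107 / 10000) a b := B1_nonneg ha hb (by norm_num) (by norm_num) (by norm_num) (by norm_num)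
      exact sub_nonneg.1 (h.trans_eq (by unfold B1; ring))
    · have h : 0 ≤ B1 (3277 / 10000) (4049 / 10000) (559 / 1250) (1311 / 2500) a b := B1_nonneg ha hb (by norm_num) (by norm_num) (by norm_num) (by norm_num)
      exact sub_nonneg.1 (h.trans_eq (by unfold B1; ring))
    · exact le_abs_self _
    · have h : 0 ≤ B2 (8101 / 1562500) (12621 / 500000) (27 / 160000) (776439 / 12500000) (8204667 / 50000000) (62201 / 1000000) (7187 / 50000000) (1263893 / 50000000) (524551 / 100000000) a b := B2_nonneg ha hb (by norm_num) (by norm_num) (by norm_num) (by norm_num) (by norm_num) (by norm_num) (by norm_num) (by norm_num) (by norm_num)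
      exact sub_nonneg.1 (h.trans_eq (by unfold B2; ring))
    · have h : 0 ≤ B2 (8771 / 100000000) (1245177 / 50000000) (559987 / 50000000) (331939 / 12500000) (525723 / 6250000) (1516419 / 50000000) (304679 / 25000000) (766291 / 25000000) (484839 / 100000000) a b := B2_nonneg ha hb (by norm_num) (by norm_num) (by norm_num) (by norm_num) (by norm_num) (by norm_num) (by norm_num) (by norm_num) (by norm_num)
      exact sub_nonneg.1 (h.trans_eq (by unfold B2; ring))
    · have h : 0 ≤ B1 (12537 / 42500) (14831 / 42500) (1637 / 85000) (249 / 3400) a b := B1_nonneg ha hb (by norm_num) (by norm_num) (by norm_num) (by norm_num)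
      exact sub_nonneg.1 (h.trans_eq (by unfold B1; ring))
    · have h : 0 ≤ B2 (9022168590877 / 200000000000000) (2703419883813 / 50000000000000) (788937594127 / 18750000000000) (2920915945463 / 50000000000000) (6208220931289 / 300000000000000) (57027969583 / 2000000000000) (1150945754827 / 18750000000000) (125556534733 / 2000000000000) (11044355437 / 320000000000) a b := B2_nonneg ha hb (by norm_num) (by norm_num) (by norm_num) (by norm_num) (by norm_num) (by norm_num) (by norm_num) (by norm_num) (by norm_num)
      exact sub_nonneg.1 (h.trans_eq (by unfold B2; ring))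
  · refine ⟨8 / 17, 8 / 15, 489957 / 1000000, 17 / 15, 103 / 625 + 571 / 10000 * a + 11 / 100 * b, 387 / 2000 + (-(387 / 2000)) * a + 321 / 2500 * b, 3377 / 10000 + 683 / 10000 * a + 757 / 10000 * b, (9 / 20 + (5 / 8 - 9 / 20) * b) - (1 / 4 + (23 / 40 - 1 / 4) * a), trigQ_5, ?_, ?_, ?_, ?_, ?_, ?_, ?_, ?_, ?_⟩
    · have h : 0 ≤ B1 (103 / 625) (687 / 2500) (2219 / 10000) (3319 / 10000) a b := B1_nonneg ha hb (by norm_num) (by norm_num) (by norm_num) (by norm_num)
      exact sub_nonneg.1 (h.trans_eq (by unfold B1; ring))
    · have h : 0 ≤ B1 (419 / 1250) (563 / 2500) (2781 / 10000) (1681 / 10000) a b := B1_nonneg ha hb (by norm_num) (by norm_num) (by norm_num) (by norm_num)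
      exact sub_nonneg.1 (h.trans_eq (by unfold B1; ring))
    · have h : 0 ≤ B1 (387 / 2000) (3219 / 10000) (0) (321 / 2500) a b := B1_nonneg ha hb (by norm_num) (by norm_num) (by norm_num) (by norm_num)
      exact sub_nonneg.1 (h.trans_eq (by unfold B1; ring))
    · have h : 0 ≤ B1 (3377 / 10000) (2067 / 5000) (203 / 500) (4817 / 10000) a b := B1_nonneg ha hb (by norm_num) (by norm_num) (by norm_num) (by norm_num)
      exact sub_nonneg.1 (h.trans_eq (by unfold B1; ring))
    · exact le_abs_self _
    · have h : 0 ≤ B2 (109431 / 4000000) (625247 / 10000000) (551207 / 50000000) (511 / 5000) (2526467 / 10000000) (2554027 / 25000000) (1759 / 160000) (2497 / 40000) (682211 / 25000000) a b := B2_nonneg ha hb (by norm_num) (by norm_num) (by norm_num) (by norm_num) (by norm_num) (by norm_num) (by norm_num) (by norm_num) (by norm_num)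
      exact sub_nonneg.1 (h.trans_eq (by unfold B2; ring))
    · have h : 0 ≤ B2 (13371 / 100000000) (123529 / 6250000) (624419 / 100000000) (14047 / 1250000) (2556451 / 50000000) (655897 / 50000000) (6439 / 1000000) (110173 / 5000000) (110443 / 50000000) a b := B2_nonneg ha hb (by norm_num) (by norm_num) (by norm_num) (by norm_num) (by norm_num) (by norm_num) (by norm_num) (by norm_num) (by norm_num)
      exact sub_nonneg.1 (h.trans_eq (by unfold B2; ring))
    · have h : 0 ≤ B1 (12671 / 42500) (14871 / 42500) (1 / 85000) (4401 / 85000) a b := B1_nonneg ha hb (by norm_num) (by norm_num) (by norm_num) (by norm_num)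
      exact sub_nonneg.1 (h.trans_eq (by unfold B1; ring))
    · have h : 0 ≤ B4 (814113339305813 / 187500000000000000) (3550215132167121 / 250000000000000000) (63489000658033183 / 3000000000000000000) (4230496829454441 / 250000000000000000) (5617909817510851 / 1000000000000000000) (190494054908766151 / 7500000000000000000) (4758708421256865857 / 60000000000000000000) (8850024575249141639 / 80000000000000000000) (3369411660380087813 / 40000000000000000000) (2201806721493349519 / 80000000000000000000) (2332072333880809419 / 40000000000000000000) (56794037740309738383 / 320000000000000000000) (73669238704282985537 / 320000000000000000000) (51257847946914657333 / 320000000000000000000) (15726068311894934827 / 320000000000000000000) (12654317632517735897 / 192000000000000000000) (6603756492692925473 / 32000000000000000000) (6288330513819229079 / 24000000000000000000) (5372168252123791723 / 32000000000000000000) (2964862241942911549 / 64000000000000000000) (27516830880525558197 / 960000000000000000000) (90237090192446658113 / 960000000000000000000) (38803106377446429219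 / 320000000000000000000) (24004091915662277921 / 320000000000000000000) (3053869321094774337 / 160000000000000000000) a b := B4_nonneg ha hb (by norm_num) (by norm_num) (by norm_num) (by norm_num) (by norm_num) (by norm_num) (by norm_num) (by norm_num) (by norm_num) (by norm_num) (by norm_num) (by norm_num) (by norm_num) (by norm_num) (by norm_num) (by norm_num) (by norm_num) (by norm_num) (by norm_num) (by norm_num) (by norm_num) (by norm_num) (by norm_num) (by norm_num) (by norm_num)
      exact sub_nonneg.1 (h.trans_eq (by unfold B4 Q4; ring))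

theorem twoa_6 {x y : ℝ} (h0 : 1 / 4 ≤ x) (h1 : x ≤ 33 / 80) (k0 : 5 / 8 ≤ y) (k1 : y ≤ 4 / 5) :
    TwoAny x y := by
  obtain ⟨a, ha, rfl⟩ := affine01 h0 h1 (by norm_num)
  obtain ⟨b, hb, rfl⟩ := affine01 k0 k1 (by norm_num)
  refine ⟨3 / 5, by norm_num, ?_, ?_⟩
  · refine ⟨5 / 13, 5 / 12, 394791 / 1000000, 13 / 12, 2509 / 10000 + 183 / 5000 * a + 751 / 5000 * b, 2337 / 10000 + (-(493 / 5000)) * a + 1203 / 10000 * b, 3913 / 10000 + 393 / 10000 * a + 951 / 10000 * b, (5 / 8 + (4 / 5 - 5 / 8) * b) - (1 / 4 + (33 / 80 - 1 / 4) * a), trigQ_4, ?_, ?_, ?_, ?_, ?_, ?_, ?_, ?_, ?_⟩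
    · have h : 0 ≤ B1 (2509 / 10000) (4011 / 10000) (23 / 80) (4377 / 10000) a b := B1_nonneg ha hb (by norm_num) (by norm_num) (by norm_num) (by norm_num)
      exact sub_nonneg.1 (h.trans_eq (by unfold B1; ring))
    · have h : 0 ≤ B1 (3491 / 10000) (1989 / 10000) (5 / 16) (1623 / 10000) a b := B1_nonneg ha hb (by norm_num) (by norm_num) (by norm_num) (by norm_num)
      exact sub_nonneg.1 (h.trans_eq (by unfold B1; ring))
    · have h : 0 ≤ B1 (2337 / 10000) (177 / 500) (1351 / 10000) (1277 / 5000) a b := B1_nonneg ha hb (by norm_num) (by norm_num) (by norm_num) (by norm_num)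
      exact sub_nonneg.1 (h.trans_eq (by unfold B1; ring))
    · have h : 0 ≤ B1 (3913 / 10000) (304 / 625) (2153 / 5000) (5257 / 10000) a b := B1_nonneg ha hb (by norm_num) (by norm_num) (by norm_num) (by norm_num)
      exact sub_nonneg.1 (h.trans_eq (by unfold B1; ring))
    · exact le_abs_self _
    · have h : 0 ≤ B2 (243903 / 50000000) (135827 / 5000000) (159 / 1000000) (2134801 / 100000000) (8701899 / 100000000) (214143 / 10000000) (58571 / 400000000) (5441309 / 200000000) (1972711 / 400000000) a b := B2_nonneg ha hb (by norm_num) (by norm_num) (by norm_num) (by norm_num) (by norm_num) (by norm_num) (by norm_num) (by norm_num) (by norm_num)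
      exact sub_nonneg.1 (h.trans_eq (by unfold B2; ring))
    · have h : 0 ≤ B2 (6403 / 50000000) (33349 / 1562500) (28219 / 6250000) (304997 / 50000000) (93799 / 2000000) (11561 / 1562500) (442739 / 100000000) (561679 / 25000000) (133951 / 100000000) a b := B2_nonneg ha hb (by norm_num) (by norm_num) (by norm_num) (by norm_num) (by norm_num) (by norm_num) (by norm_num) (by norm_num) (by norm_num)
      exact sub_nonneg.1 (h.trans_eq (by unfold B2; ring))
    · have h : 0 ≤ B1 (6009 / 26000) (7511 / 26000) (43 / 520) (913 / 6500) a b := B1_nonneg ha hb (by norm_num) (by norm_num) (by norm_num) (by norm_num)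
      exact sub_nonneg.1 (h.trans_eq (by unfold B1; ring))
    · have h : 0 ≤ B2 (10948389103571 / 200000000000000) (8755959239059 / 100000000000000) (42583378974133 / 600000000000000) (36631464517 / 400000000000) (18366013785107 / 150000000000000) (8037805008239 / 75000000000000) (1939677571 / 38400000000) (149356659481 / 2400000000000) (29924493673867 / 600000000000000) a b := B2_nonneg ha hb (by norm_num) (by norm_num) (by norm_num) (by norm_num) (by norm_num) (by norm_num) (by norm_num) (by norm_num) (by norm_num)
      exact sub_nonneg.1 (h.trans_eq (by unfold B2; ring))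
  · refine ⟨5 / 13, 5 / 12, 394791 / 1000000, 13 / 12, 1163 / 5000 + 7 / 625 * a + 1471 / 10000 * b, 2549 / 10000 + (-(233 / 2500)) * a + 249 / 2000 * b, 459 / 1250 + 13 / 1000 * a + 499 / 5000 * b, (5 / 8 + (4 / 5 - 5 / 8) * b) - (1 / 4 + (33 / 80 - 1 / 4) * a), trigQ_4, ?_, ?_, ?_, ?_, ?_, ?_, ?_, ?_, ?_⟩
    · have h : 0 ≤ B1 (1163 / 5000) (3797 / 10000) (1219 / 5000) (3909 / 10000) a b := B1_nonneg ha hb (by norm_num) (by norm_num) (by norm_num) (by norm_num)
      exact sub_nonneg.1 (h.trans_eq (by unfold B1; ring))
    · have h : 0 ≤ B1 (1837 / 5000) (2203 / 10000) (1781 / 5000) (2091 / 10000) a b := B1_nonneg ha hb (by norm_num) (by norm_num) (by norm_num) (by norm_num)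
      exact sub_nonneg.1 (h.trans_eq (by unfold B1; ring))
    · have h : 0 ≤ B1 (2549 / 10000) (1897 / 5000) (1617 / 10000) (1431 / 5000) a b := B1_nonneg ha hb (by norm_num) (by norm_num) (by norm_num) (by norm_num)
      exact sub_nonneg.1 (h.trans_eq (by unfold B1; ring))
    · have h : 0 ≤ B1 (459 / 1250) (467 / 1000) (1901 / 5000) (12 / 25) a b := B1_nonneg ha hb (by norm_num) (by norm_num) (by norm_num) (by norm_num)
      exact sub_nonneg.1 (h.trans_eq (by unfold B1; ring))
    · exact le_abs_self _
    · have h : 0 ≤ B2 (373487 / 50000000) (384461 / 12500000) (1633 / 12500000) (2287159 / 100000000) (9205353 / 100000000) (1143447 / 50000000) (45619 / 400000000) (6144209 / 200000000) (2980199 / 400000000) a b := B2_nonneg ha hb (by norm_num) (by norm_num) (by norm_num) (by norm_num) (by norm_num) (by norm_num) (by norm_num) (by norm_num) (by norm_num)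
      exact sub_nonneg.1 (h.trans_eq (by unfold B2; ring))
    · have h : 0 ≤ B2 (10791 / 100000000) (24169 / 1250000) (1611 / 1000000) (93431 / 50000000) (98453 / 2500000) (57 / 25000) (159171 / 100000000) (4927 / 250000) (1 / 2000) a b := B2_nonneg ha hb (by norm_num) (by norm_num) (by norm_num) (by norm_num) (by norm_num) (by norm_num) (by norm_num) (by norm_num) (by norm_num)
      exact sub_nonneg.1 (h.trans_eq (by unfold B2; ring))
    · have h : 0 ≤ B1 (2913 / 13000) (7297 / 26000) (1713 / 26000) (199 / 1625) a b := B1_nonneg ha hb (by norm_num) (by norm_num) (by norm_num) (by norm_num)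
      exact sub_nonneg.1 (h.trans_eq (by unfold B1; ring))
    · have h : 0 ≤ B4 (125331779590463627 / 16000000000000000000) (463850587157351947 / 16000000000000000000) (8607563651073999827 / 192000000000000000000) (6496575574739698193 / 192000000000000000000) (325206269078059701 / 32000000000000000000) (6030929740865706573 / 160000000000000000000) (21977600200862307803 / 160000000000000000000) (401293865563603139383 / 1920000000000000000000) (49907418509046949127 / 320000000000000000000) (89510691010637770139 / 1920000000000000000000) (2707159891701289779 / 40000000000000000000) (77617833224896824343 / 320000000000000000000) (9259609461699753657 / 25600000000000000000) (42453646650692893337 / 160000000000000000000) (10049091648570148829 / 128000000000000000000) (1745929117081358473 / 32000000000000000000) (15423297035852086951 / 80000000000000000000) (108059610388583427013 / 384000000000000000000) (193853732500287312289 / 960000000000000000000) (37604264964408689319 / 640000000000000000000) (41853405680667243 / 2500000000000000000) (18753543577089100127 / 320000000000000000000)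 (161045571368298751903 / 1920000000000000000000) (18790410083190769561 / 320000000000000000000) (32074735030628023601 / 1920000000000000000000) a b := B4_nonneg ha hb (by norm_num) (by norm_num) (by norm_num) (by norm_num) (by norm_num) (by norm_num) (by norm_num) (by norm_num) (by norm_num) (by norm_num) (by norm_num) (by norm_num) (by norm_num) (by norm_num) (by norm_num) (by norm_num) (by norm_num) (by norm_num) (by norm_num) (by norm_num) (by norm_num) (by norm_num) (by norm_num) (by norm_num) (by norm_num)
      exact sub_nonneg.1 (h.trans_eq (by unfold B4 Q4; ring))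

theorem twoa_7 {x y : ℝ} (h0 : 33 / 80 ≤ x) (h1 : x ≤ 23 / 40) (k0 : 5 / 8 ≤ y) (k1 : y ≤ 4 / 5) :
    TwoAny x y := by
  obtain ⟨a, ha, rfl⟩ := affine01 h0 h1 (by norm_num)
  obtain ⟨b, hb, rfl⟩ := affine01 k0 k1 (by norm_num)
  refine ⟨3 / 5, by norm_num, ?_, ?_⟩
  · refine ⟨8 / 17, 8 / 15, 489957 / 1000000, 17 / 15, 2919 / 10000 + 689 / 10000 * a + 1399 / 10000 * b, 261 / 2000 + (-(13 / 125)) * a + 307 / 2500 * b, 2203 / 5000 + 133 / 2000 * a + 47 / 625 * b, (5 / 8 + (4 / 5 - 5 / 8) * b) - (33 / 80 + (23 / 40 - 33 / 80) * a), trigQ_5, ?_, ?_, ?_, ?_, ?_, ?_, ?_, ?_, ?_⟩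
    · have h : 0 ≤ B1 (2919 / 10000) (2159 / 5000) (451 / 1250) (5007 / 10000) a b := B1_nonneg ha hb (by norm_num) (by norm_num) (by norm_num) (by norm_num)
      exact sub_nonneg.1 (h.trans_eq (by unfold B1; ring))
    · have h : 0 ≤ B1 (3081 / 10000) (841 / 5000) (299 / 1250) (993 / 10000) a b := B1_nonneg ha hb (by norm_num) (by norm_num) (by norm_num) (by norm_num)
      exact sub_nonneg.1 (h.trans_eq (by unfold B1; ring))
    · have h : 0 ≤ B1 (261 / 2000) (2533 / 10000) (53 / 2000) (1493 / 10000) a b := B1_nonneg ha hb (by norm_num) (by norm_num) (by norm_num) (by norm_num)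
      exact sub_nonneg.1 (h.trans_eq (by unfold B1; ring))
    · have h : 0 ≤ B1 (2203 / 5000) (2579 / 5000) (5071 / 10000) (5823 / 10000) a b := B1_nonneg ha hb (by norm_num) (by norm_num) (by norm_num) (by norm_num)
      exact sub_nonneg.1 (h.trans_eq (by unfold B1; ring))
    · exact le_abs_self _
    · have h : 0 ≤ B2 (92291 / 16000000) (1144173 / 40000000) (40019 / 400000000) (46567 / 2000000) (1840531 / 20000000) (2327087 / 100000000) (391 / 4000000) (285871 / 10000000) (287663 / 50000000) a b := B2_nonneg ha hb (by norm_num) (by norm_num) (by norm_num) (by norm_num) (by norm_num) (by norm_num) (by norm_num) (by norm_num) (by norm_num)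
      exact sub_nonneg.1 (h.trans_eq (by unfold B2; ring))
    · have h : 0 ≤ B2 (11539 / 100000000) (239713 / 12500000) (143759 / 25000000) (526549 / 50000000) (611911 / 12500000) (294983 / 25000000) (299667 / 50000000) (1046567 / 50000000) (162671 / 100000000) a b := B2_nonneg ha hb (by norm_num) (by norm_num) (by norm_num) (by norm_num) (by norm_num) (by norm_num) (by norm_num) (by norm_num) (by norm_num)
      exact sub_nonneg.1 (h.trans_eq (by unfold B2; ring))
    · have h : 0 ≤ B1 (33227 / 170000) (44419 / 170000) (5557 / 85000) (11153 / 85000) a b := B1_nonneg ha hb (by norm_num) (by norm_num) (by norm_num) (by norm_num)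
      exact sub_nonneg.1 (h.trans_eq (by unfold B1; ring))
    · have h : 0 ≤ B2 (28714865465381 / 600000000000000) (18198591910657 / 300000000000000) (1788275628719 / 37500000000000) (5633074024373 / 75000000000000) (312870978053 / 4687500000000) (18421538201471 / 300000000000000) (204050377573 / 4687500000000) (2898468071119 / 75000000000000) (17999387943179 / 600000000000000) a b := B2_nonneg ha hb (by norm_num) (by norm_num) (by norm_num) (by norm_num) (by norm_num) (by norm_num) (by norm_num) (by norm_num) (by norm_num)
      exact sub_nonneg.1 (h.trans_eq (by unfold B2; ring))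
  · refine ⟨8 / 17, 8 / 15, 489957 / 1000000, 17 / 15, 2523 / 10000 + 371 / 10000 * a + 67 / 500 * b, 753 / 5000 + (-(29 / 250)) * a + 351 / 2500 * b, 3931 / 10000 + 101 / 2500 * a + 787 / 10000 * b, (5 / 8 + (4 / 5 - 5 / 8) * b) - (33 / 80 + (23 / 40 - 33 / 80) * a), trigQ_5, ?_, ?_, ?_, ?_, ?_, ?_, ?_, ?_, ?_⟩
    · have h : 0 ≤ B1 (2523 / 10000) (3863 / 10000) (1447 / 5000) (2117 / 5000) a b := B1_nonneg ha hb (by norm_num) (by norm_num) (by norm_num) (by norm_num)
      exact sub_nonneg.1 (h.trans_eq (by unfold B1; ring))
    · have h : 0 ≤ B1 (3477 / 10000) (2137 / 10000) (1553 / 5000) (883 / 5000) a b := B1_nonneg ha hb (by norm_num) (by norm_num) (by norm_num) (by norm_num)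
      exact sub_nonneg.1 (h.trans_eq (by unfold B1; ring))
    · have h : 0 ≤ B1 (753 / 5000) (291 / 1000) (173 / 5000) (7 / 40) a b := B1_nonneg ha hb (by norm_num) (by norm_num) (by norm_num) (by norm_num)
      exact sub_nonneg.1 (h.trans_eq (by unfold B1; ring))
    · have h : 0 ≤ B1 (3931 / 10000) (2359 / 5000) (867 / 2000) (2561 / 5000) a b := B1_nonneg ha hb (by norm_num) (by norm_num) (by norm_num) (by norm_num)
      exact sub_nonneg.1 (h.trans_eq (by unfold B1; ring))
    · exact le_abs_self _
    · have h : 0 ≤ B2 (4832231 / 400000000) (1581157 / 40000000) (1279 / 16000000) (1610799 / 50000000) (2384181 / 20000000) (5161 / 160000) (973 / 12500000) (7913 / 200000) (1939 / 160000) a b := B2_nonneg ha hb (by norm_num) (by norm_num) (by norm_num) (by norm_num) (by norm_num) (by norm_num) (by norm_num) (by norm_num) (by norm_num)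
      exact sub_nonneg.1 (h.trans_eq (by unfold B2; ring))
    · have h : 0 ≤ B2 (5807 / 50000000) (441771 / 25000000) (92619 / 25000000) (27849 / 5000000) (247861 / 6250000) (79851 / 12500000) (7643 / 2000000) (93613 / 5000000) (26279 / 25000000) a b := B2_nonneg ha hb (by norm_num) (by norm_num) (by norm_num) (by norm_num) (by norm_num) (by norm_num) (by norm_num) (by norm_num) (by norm_num)
      exact sub_nonneg.1 (h.trans_eq (by unfold B2; ring))
    · have h : 0 ≤ B1 (30059 / 170000) (40779 / 170000) (2701 / 85000) (8061 / 85000) a b := B1_nonneg ha hb (by norm_num) (by norm_num) (by norm_num) (by norm_num)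
      exact sub_nonneg.1 (h.trans_eq (by unfold B1; ring))
    · have h : 0 ≤ B4 (28834474852530695393 / 1920000000000000000000) (17207488439216383417 / 320000000000000000000) (38132345787059041837 / 480000000000000000000) (18385577787975889127 / 320000000000000000000) (10731513120795590841 / 640000000000000000000) (42887689054624042839 / 640000000000000000000) (14125965098259057529 / 60000000000000000000) (327078934686214841341 / 960000000000000000000) (19395072069837451527 / 80000000000000000000) (44897225428028955459 / 640000000000000000000) (571729044465031123 / 5000000000000000000) (126452238247438529623 / 320000000000000000000) (179033132771614664937 / 320000000000000000000) (124723779111116828493 / 320000000000000000000) (35552225741178701307 / 320000000000000000000) (42765761075184055763 / 480000000000000000000) (24367487208747072207 / 80000000000000000000) (101475019891693393499 / 240000000000000000000) (22999991172869602887 / 80000000000000000000) (12829689810376402601 / 160000000000000000000) (1069743407031368853 / 40000000000000000000) (21861527004286261957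 / 240000000000000000000) (29903731091006584213 / 240000000000000000000) (6617724017933875009 / 80000000000000000000) (1797502508297696551 / 80000000000000000000) a b := B4_nonneg ha hb (by norm_num) (by norm_num) (by norm_num) (by norm_num) (by norm_num) (by norm_num) (by norm_num) (by norm_num) (by norm_num) (by norm_num) (by norm_num) (by norm_num) (by norm_num) (by norm_num) (by norm_num) (by norm_num) (by norm_num) (by norm_num) (by norm_num) (by norm_num) (by norm_num) (by norm_num) (by norm_num) (by norm_num) (by norm_num)
      exact sub_nonneg.1 (h.trans_eq (by unfold B4 Q4; ring))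

theorem twoa_5 {x y : ℝ} (h0 : 1 / 4 ≤ x) (h1 : x ≤ 23 / 40) (k0 : 5 / 8 ≤ y) (k1 : y ≤ 4 / 5) :
    CenXY x y ∨ TwoAny x y := by
  rcases le_total x (33 / 80) with h | h
  · exact Or.inr (twoa_6 h0 h k0 k1)
  · exact Or.inr (twoa_7 h h1 k0 k1)

theorem twoa_3 {x y : ℝ} (h0 : 1 / 4 ≤ x) (h1 : x ≤ 23 / 40) (k0 : 9 / 20 ≤ y) (k1 : y ≤ 4 / 5) :
    CenXY x y ∨ TwoAny x y := by
  rcases le_total y (5 / 8) with h | h
  · exact Or.inr (twoa_4 h0 h1 k0 h)
  · exact twoa_5 h0 h1 h k1

theorem twoa_10 {x y : ℝ} (h0 : 23 / 40 ≤ x) (h1 : x ≤ 59 / 80) (k0 : 9 / 20 ≤ y) (k1 : y ≤ 5 / 8) :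
    TwoAny x y := by
  obtain ⟨a, ha, rfl⟩ := affine01 h0 h1 (by norm_num)
  obtain ⟨b, hb, rfl⟩ := affine01 k0 k1 (by norm_num)
  refine ⟨3 / 5, by norm_num, ?_, ?_⟩
  · refine ⟨28 / 53, 28 / 45, 556599 / 1000000, 53 / 45, 2827 / 10000 + 567 / 5000 * a + 221 / 2500 * b, 89 / 1000 + 911 / 10000 * a + (-(889 / 10000)) * b, 301 / 625 + 51 / 500 * a + 93 / 2500 * b, (23 / 40 + (59 / 80 - 23 / 40) * a) - (9 / 20 + (5 / 8 - 9 / 20) * b), trigQ_11, ?_, ?_, ?_, ?_, ?_, ?_, ?_, ?_, ?_⟩
    · have h : 0 ≤ B1 (2827 / 10000) (3711 / 10000) (3961 / 10000) (969 / 2000) a b := B1_nonneg ha hb (by norm_num) (by norm_num) (by norm_num) (by norm_num)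
      exact sub_nonneg.1 (h.trans_eq (by unfold B1; ring))
    · have h : 0 ≤ B1 (3173 / 10000) (2289 / 10000) (2039 / 10000) (231 / 2000) a b := B1_nonneg ha hb (by norm_num) (by norm_num) (by norm_num) (by norm_num)
      exact sub_nonneg.1 (h.trans_eq (by unfold B1; ring))
    · have h : 0 ≤ B1 (89 / 1000) (1 / 10000) (1801 / 10000) (57 / 625) a b := B1_nonneg ha hb (by norm_num) (by norm_num) (by norm_num) (by norm_num)
      exact sub_nonneg.1 (h.trans_eq (by unfold B1; ring))
    · have h : 0 ≤ B1 (301 / 625) (1297 / 2500) (1459 / 2500) (388 / 625) a b := B1_nonneg ha hb (by norm_num) (by norm_num) (by norm_num) (by norm_num)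
      exact sub_nonneg.1 (h.trans_eq (by unfold B1; ring))
    · rw [abs_sub_comm]; exact le_abs_self _
    · have h : 0 ≤ B2 (48491 / 4000000) (193911 / 5000000) (1109999 / 100000000) (762969 / 20000000) (10734913 / 100000000) (238011 / 6250000) (4449971 / 400000000) (7753077 / 200000000) (4832399 / 400000000) a b := B2_nonneg ha hb (by norm_num) (by norm_num) (by norm_num) (by norm_num) (by norm_num) (by norm_num) (by norm_num) (by norm_num) (by norm_num)
      exact sub_nonneg.1 (h.trans_eq (by unfold B2; ring))
    · have h : 0 ≤ B2 (3411 / 25000000) (336671 / 25000000) (429031 / 100000000) (192831 / 12500000) (620651 / 12500000) (807271 / 50000000) (122151 / 25000000) (384431 / 25000000) (145111 / 100000000) a b := B2_nonneg ha hb (by norm_num) (by norm_num) (by norm_num) (by norm_num) (by norm_num) (by norm_num) (by norm_num) (by norm_num) (by norm_num)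
      exact sub_nonneg.1 (h.trans_eq (by unfold B2; ring))
    · have h : 0 ≤ B1 (27203 / 265000) (39579 / 265000) (33 / 530000) (4957 / 106000) a b := B1_nonneg ha hb (by norm_num) (by norm_num) (by norm_num) (by norm_num)
      exact sub_nonneg.1 (h.trans_eq (by unfold B1; ring))
    · have h : 0 ≤ B2 (106432034208739 / 1800000000000000) (21307062170359 / 300000000000000) (6824296124079 / 200000000000000) (7420337708621 / 75000000000000) (22444889993969 / 225000000000000) (339531948131 / 7500000000000) (11507015899829 / 200000000000000) (3851029717673 / 60000000000000) (2079042989401 / 72000000000000) a b := B2_nonneg ha hb (by norm_num) (by norm_num) (by norm_num) (by norm_num) (by norm_num) (by norm_num) (by norm_num) (by norm_num) (by norm_num)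
      exact sub_nonneg.1 (h.trans_eq (by unfold B2; ring))
  · refine ⟨28 / 53, 28 / 45, 556599 / 1000000, 53 / 45, 2379 / 10000 + 159 / 1000 * a + 63 / 1250 * b, 117 / 1250 + 2389 / 10000 * a + (-(117 / 1250)) * b, 2163 / 5000 + 773 / 5000 * a + 33 / 10000 * b, (23 / 40 + (59 / 80 - 23 / 40) * a) - (9 / 20 + (5 / 8 - 9 / 20) * b), trigQ_11, ?_, ?_, ?_, ?_, ?_, ?_, ?_, ?_, ?_⟩
    · have h : 0 ≤ B1 (2379 / 10000) (2883 / 10000) (3969 / 10000) (4473 / 10000) a b := B1_nonneg ha hb (by norm_num) (by norm_num) (by norm_num) (by norm_num)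
      exact sub_nonneg.1 (h.trans_eq (by unfold B1; ring))
    · have h : 0 ≤ B1 (3621 / 10000) (3117 / 10000) (2031 / 10000) (1527 / 10000) a b := B1_nonneg ha hb (by norm_num) (by norm_num) (by norm_num) (by norm_num)
      exact sub_nonneg.1 (h.trans_eq (by unfold B1; ring))
    · have h : 0 ≤ B1 (117 / 1250) (0) (133 / 400) (2389 / 10000) a b := B1_nonneg ha hb (by norm_num) (by norm_num) (by norm_num) (by norm_num)
      exact sub_nonneg.1 (h.trans_eq (by unfold B1; ring))
    · have h : 0 ≤ B1 (2163 / 5000) (4359 / 10000) (367 / 625) (1181 / 2000) a b := B1_nonneg ha hb (by norm_num) (by norm_num) (by norm_num) (by norm_num)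
      exact sub_nonneg.1 (h.trans_eq (by unfold B1; ring))
    · rw [abs_sub_comm]; exact le_abs_self _
    · have h : 0 ≤ B2 (1823279 / 100000000) (1393 / 40000) (7 / 40000) (328349 / 4000000) (19708417 / 100000000) (6573 / 80000) (23 / 128000) (279277 / 8000000) (7325091 / 400000000) a b := B2_nonneg ha hb (by norm_num) (by norm_num) (by norm_num) (by norm_num) (by norm_num) (by norm_num) (by norm_num) (by norm_num) (by norm_num)
      exact sub_nonneg.1 (h.trans_eq (by unfold B2; ring))
    · have h : 0 ≤ B2 (1653 / 12500000) (105429 / 12500000) (31747 / 50000000) (318807 / 12500000) (1658211 / 25000000) (15931 / 625000) (36779 / 25000000) (50459 / 5000000) (1907 / 2000000) a b := B2_nonneg ha hb (by norm_num) (by norm_num) (by norm_num) (by norm_num) (by norm_num) (by norm_num) (by norm_num) (by norm_num) (by norm_num)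
      exact sub_nonneg.1 (h.trans_eq (by unfold B2; ring))
    · have h : 0 ≤ B1 (20931 / 265000) (27987 / 265000) (257 / 530000) (14369 / 530000) a b := B1_nonneg ha hb (by norm_num) (by norm_num) (by norm_num) (by norm_num)
      exact sub_nonneg.1 (h.trans_eq (by unfold B1; ring))
    · have h : 0 ≤ B4 (9177310587719244933 / 320000000000000000000) (34529210386311475873 / 320000000000000000000) (50217286967548327129 / 320000000000000000000) (33530432784948536771 / 320000000000000000000) (4332522807996220291 / 160000000000000000000) (209397764418855593171 / 1920000000000000000000) (63979723933374757643 / 160000000000000000000) (181781486695499704743 / 320000000000000000000) (178770195052437871013 / 480000000000000000000) (60916927606131584713 / 640000000000000000000) (190036873543579528873 / 1152000000000000000000) (28281244359742607333 / 48000000000000000000) (31276604538595636807 / 38400000000000000000) (18748060062482191643 / 36000000000000000000) (3341172820706757233 / 25600000000000000000) (233416143475933787189 / 1920000000000000000000) (614641114782965325533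 / 1440000000000000000000) (554097502726785199411 / 960000000000000000000) (172718017367209643467 / 480000000000000000000) (506347220749864465703 / 5760000000000000000000) (213065765387524087921 / 5760000000000000000000) (373279705305316565803 / 2880000000000000000000) (27812498074291402013 / 160000000000000000000) (307310574454772924501 / 2880000000000000000000) (146864863458164420219 / 5760000000000000000000) a b := B4_nonneg ha hb (by norm_num) (by norm_num) (by norm_num) (by norm_num) (by norm_num) (by norm_num) (by norm_num) (by norm_num) (by norm_num) (by norm_num) (by norm_num) (by norm_num) (by norm_num) (by norm_num) (by norm_num) (by norm_num) (by norm_num) (by norm_num) (by norm_num) (by norm_num) (by norm_num) (by norm_num) (by norm_num) (by norm_num) (by norm_num)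
      exact sub_nonneg.1 (h.trans_eq (by unfold B4 Q4; ring))

theorem twoa_11 {x y : ℝ} (h0 : 59 / 80 ≤ x) (h1 : x ≤ 9 / 10) (k0 : 9 / 20 ≤ y) (k1 : y ≤ 5 / 8) :
    TwoAny x y := by
  obtain ⟨a, ha, rfl⟩ := affine01 h0 h1 (by norm_num)
  obtain ⟨b, hb, rfl⟩ := affine01 k0 k1 (by norm_num)
  refine ⟨4 / 5, by norm_num, ?_, ?_⟩
  · refine ⟨3 / 5, 3 / 4, 643501 / 1000000, 5 / 4, 3759 / 10000 + 141 / 1000 * a + 933 / 10000 * b, 1503 / 10000 + 969 / 10000 * a + (-(399 / 5000)) * b, 2851 / 5000 + 1091 / 10000 * a + 179 / 5000 * b, (59 / 80 + (9 / 10 - 59 / 80) * a) - (9 / 20 + (5 / 8 - 9 / 20) * b), trigQ_6, ?_, ?_, ?_, ?_, ?_, ?_, ?_, ?_, ?_⟩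
    · have h : 0 ≤ B1 (3759 / 10000) (1173 / 2500) (5169 / 10000) (3051 / 5000) a b := B1_nonneg ha hb (by norm_num) (by norm_num) (by norm_num) (by norm_num)
      exact sub_nonneg.1 (h.trans_eq (by unfold B1; ring))
    · have h : 0 ≤ B1 (4241 / 10000) (827 / 2500) (2831 / 10000) (949 / 5000) a b := B1_nonneg ha hb (by norm_num) (by norm_num) (by norm_num) (by norm_num)
      exact sub_nonneg.1 (h.trans_eq (by unfold B1; ring))
    · have h : 0 ≤ B1 (1503 / 10000) (141 / 2000) (309 / 1250) (837 / 5000) a b := B1_nonneg ha hb (by norm_num) (by norm_num) (by norm_num) (by norm_num)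
      exact sub_nonneg.1 (h.trans_eq (by unfold B1; ring))
    · have h : 0 ≤ B1 (2851 / 5000) (303 / 500) (6793 / 10000) (7151 / 10000) a b := B1_nonneg ha hb (by norm_num) (by norm_num) (by norm_num) (by norm_num)
      exact sub_nonneg.1 (h.trans_eq (by unfold B1; ring))
    · rw [abs_sub_comm]; exact le_abs_self _
    · have h : 0 ≤ B2 (308339 / 400000000) (596933 / 40000000) (2051 / 16000000) (846459 / 50000000) (6186811 / 100000000) (337807 / 20000000) (4179 / 25000000) (374061 / 25000000) (77099 / 100000000) a b := B2_nonneg ha hb (by norm_num) (by norm_num) (by norm_num) (by norm_num) (by norm_num) (by norm_num) (by norm_num) (by norm_num) (by norm_num)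
      exact sub_nonneg.1 (h.trans_eq (by unfold B2; ring))
    · have h : 0 ≤ B2 (1837 / 12500000) (66963 / 5000000) (17231 / 4000000) (421907 / 25000000) (1303459 / 25000000) (173863 / 10000000) (482651 / 100000000) (747007 / 50000000) (58787 / 50000000) a b := B2_nonneg ha hb (by norm_num) (by norm_num) (by norm_num) (by norm_num) (by norm_num) (by norm_num) (by norm_num) (by norm_num) (by norm_num)
      exact sub_nonneg.1 (h.trans_eq (by unfold B2; ring))
    · have h : 0 ≤ B1 (2201 / 25000) (7201 / 50000) (507 / 50000) (1653 / 25000) a b := B1_nonneg ha hb (by norm_num) (by norm_num) (by norm_num) (by norm_num)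
      exact sub_nonneg.1 (h.trans_eq (by unfold B1; ring))
    · have h : 0 ≤ B2 (14003594402831 / 200000000000000) (8714697928103 / 100000000000000) (933356944733 / 25000000000000) (5874997184323 / 50000000000000) (12825724561491 / 100000000000000) (2558392148667 / 50000000000000) (13659018235061 / 200000000000000) (2068412633497 / 25000000000000) (1732334234351 / 50000000000000) a b := B2_nonneg ha hb (by norm_num) (by norm_num) (by norm_num) (by norm_num) (by norm_num) (by norm_num) (by norm_num) (by norm_num) (by norm_num)
      exact sub_nonneg.1 (h.trans_eq (by unfold B2; ring))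
  · refine ⟨3 / 5, 3 / 4, 643501 / 1000000, 5 / 4, 419 / 1250 + 1649 / 10000 * a + 127 / 2000 * b, 641 / 5000 + 811 / 5000 * a + (-(779 / 10000)) * b, 5333 / 10000 + 1351 / 10000 * a + 67 / 5000 * b, (59 / 80 + (9 / 10 - 59 / 80) * a) - (9 / 20 + (5 / 8 - 9 / 20) * b), trigQ_6, ?_, ?_, ?_, ?_, ?_, ?_, ?_, ?_, ?_⟩
    · have h : 0 ≤ B1 (419 / 1250) (3987 / 10000) (5001 / 10000) (1409 / 2500) a b := B1_nonneg ha hb (by norm_num) (by norm_num) (by norm_num) (by norm_num)
      exact sub_nonneg.1 (h.trans_eq (by unfold B1; ring))
    · have h : 0 ≤ B1 (581 / 1250) (4013 / 10000) (2999 / 10000) (591 / 2500) a b := B1_nonneg ha hb (by norm_num) (by norm_num) (by norm_num) (by norm_num)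
      exact sub_nonneg.1 (h.trans_eq (by unfold B1; ring))
    · have h : 0 ≤ B1 (641 / 5000) (503 / 10000) (363 / 1250) (17 / 80) a b := B1_nonneg ha hb (by norm_num) (by norm_num) (by norm_num) (by norm_num)
      exact sub_nonneg.1 (h.trans_eq (by unfold B1; ring))
    · have h : 0 ≤ B1 (5333 / 10000) (5467 / 10000) (1671 / 2500) (3409 / 5000) a b := B1_nonneg ha hb (by norm_num) (by norm_num) (by norm_num) (by norm_num)
      exact sub_nonneg.1 (h.trans_eq (by unfold B1; ring))
    · rw [abs_sub_comm]; exact le_abs_self _
    · have h : 0 ≤ B2 (13040279 / 400000000) (14116241 / 200000000) (9702339 / 400000000) (5332697 / 50000000) (24080701 / 100000000) (85363 / 800000) (1028571 / 25000000) (20881 / 200000) (3963 / 80000) a b := B2_nonneg ha hb (by norm_num) (by norm_num) (by norm_num) (by norm_num) (by norm_num) (by norm_num) (by norm_num) (by norm_num) (by norm_num)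
      exact sub_nonneg.1 (h.trans_eq (by unfold B2; ring))
    · have h : 0 ≤ B2 (16611 / 100000000) (508239 / 50000000) (108143 / 50000000) (132091 / 6250000) (1457839 / 25000000) (1075369 / 50000000) (67911 / 25000000) (291119 / 25000000) (109251 / 100000000) a b := B2_nonneg ha hb (by norm_num) (by norm_num) (by norm_num) (by norm_num) (by norm_num) (by norm_num) (by norm_num) (by norm_num) (by norm_num)
      exact sub_nonneg.1 (h.trans_eq (by unfold B2; ring))
    · have h : 0 ≤ B1 (3181 / 50000) (2543 / 25000) (3 / 50000) (477 / 12500) a b := B1_nonneg ha hb (by norm_num) (by norm_num) (by norm_num) (by norm_num)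
      exact sub_nonneg.1 (h.trans_eq (by unfold B1; ring))
    · have h : 0 ≤ B4 (366171268099750681 / 10000000000000000000) (43165685309839162113 / 320000000000000000000) (122507469222369179399 / 640000000000000000000) (39856163152742387103 / 320000000000000000000) (20101266544409875449 / 640000000000000000000) (9104988344321302159 / 64000000000000000000) (33040203670166118833 / 64000000000000000000) (18494019491260104237 / 25600000000000000000) (14875050928792729411 / 32000000000000000000) (14900536910560029807 / 128000000000000000000) (139225121807792566199 / 640000000000000000000) (7800856746344386209 / 10000000000000000000) (690006052076927457009 / 640000000000000000000) (219429013302187154593 / 320000000000000000000) (54440842242847501677 / 320000000000000000000) (100972710628301708861 / 640000000000000000000) (180179063370544517127 / 320000000000000000000) (494584155451740615221 / 640000000000000000000) (77947848384600454531 / 160000000000000000000) (9574081774931066037 / 80000000000000000000) (7340627776334530167 / 160000000000000000000) (52586980528515590491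 / 320000000000000000000) (72210560716973292369 / 320000000000000000000) (11340257400549665369 / 80000000000000000000) (86376514539624213 / 2500000000000000000) a b := B4_nonneg ha hb (by norm_num) (by norm_num) (by norm_num) (by norm_num) (by norm_num) (by norm_num) (by norm_num) (by norm_num) (by norm_num) (by norm_num) (by norm_num) (by norm_num) (by norm_num) (by norm_num) (by norm_num) (by norm_num) (by norm_num) (by norm_num) (by norm_num) (by norm_num) (by norm_num) (by norm_num) (by norm_num) (by norm_num) (by norm_num)
      exact sub_nonneg.1 (h.trans_eq (by unfold B4 Q4; ring))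

theorem twoa_9 {x y : ℝ} (h0 : 23 / 40 ≤ x) (h1 : x ≤ 9 / 10) (k0 : 9 / 20 ≤ y) (k1 : y ≤ 5 / 8) :
    CenXY x y ∨ TwoAny x y := by
  rcases le_total x (59 / 80) with h | h
  · exact Or.inr (twoa_10 h0 h k0 k1)
  · exact Or.inr (twoa_11 h h1 k0 k1)

theorem twoa_13 {x y : ℝ} (h0 : 23 / 40 ≤ x) (h1 : x ≤ 59 / 80) (k0 : 5 / 8 ≤ y) (k1 : y ≤ 4 / 5) :
    TwoAny x y := by
  obtain ⟨a, ha, rfl⟩ := affine01 h0 h1 (by norm_num)
  obtain ⟨b, hb, rfl⟩ := affine01 k0 k1 (by norm_num)
  refine ⟨7 / 10, by norm_num, ?_, ?_⟩
  · refine ⟨33 / 65, 33 / 56, 532503 / 1000000, 65 / 56, 369 / 1000 + 119 / 1250 * a + 687 / 5000 * b, 437 / 5000 + (-(437 / 5000)) * a + 961 / 10000 * b, 651 / 1250 + 797 / 10000 * a + 629 / 10000 * b, (5 / 8 + (4 / 5 - 5 / 8) * b) - (23 / 40 + (59 / 80 - 23 / 40) * a), trigQ_10, ?_, ?_, ?_, ?_, ?_, ?_, ?_, ?_, ?_⟩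
    · have h : 0 ≤ B1 (369 / 1000) (633 / 1250) (2321 / 5000) (376 / 625) a b := B1_nonneg ha hb (by norm_num) (by norm_num) (by norm_num) (by norm_num)
      exact sub_nonneg.1 (h.trans_eq (by unfold B1; ring))
    · have h : 0 ≤ B1 (331 / 1000) (121 / 625) (1179 / 5000) (123 / 1250) a b := B1_nonneg ha hb (by norm_num) (by norm_num) (by norm_num) (by norm_num)
      exact sub_nonneg.1 (h.trans_eq (by unfold B1; ring))
    · have h : 0 ≤ B1 (437 / 5000) (367 / 2000) (0) (961 / 10000) a b := B1_nonneg ha hb (by norm_num) (by norm_num) (by norm_num) (by norm_num)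
      exact sub_nonneg.1 (h.trans_eq (by unfold B1; ring))
    · have h : 0 ≤ B1 (651 / 1250) (5837 / 10000) (1201 / 2000) (3317 / 5000) a b := B1_nonneg ha hb (by norm_num) (by norm_num) (by norm_num) (by norm_num)
      exact sub_nonneg.1 (h.trans_eq (by unfold B1; ring))
    · exact le_abs_self _
    · have h : 0 ≤ B2 (34031 / 25000000) (91621 / 5000000) (143 / 2000000) (157 / 10000) (6518297 / 100000000) (314001 / 20000000) (63 / 640000) (5881 / 320000) (555291 / 400000000) a b := B2_nonneg ha hb (by norm_num) (by norm_num) (by norm_num) (by norm_num) (by norm_num) (by norm_num) (by norm_num) (by norm_num) (by norm_num)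
      exact sub_nonneg.1 (h.trans_eq (by unfold B2; ring))
    · have h : 0 ≤ B2 (11111 / 100000000) (108863 / 6250000) (569431 / 100000000) (124067 / 10000000) (2458943 / 50000000) (338671 / 25000000) (11887 / 2000000) (95283 / 5000000) (37511 / 25000000) a b := B2_nonneg ha hb (by norm_num) (by norm_num) (by norm_num) (by norm_num) (by norm_num) (by norm_num) (by norm_num) (by norm_num) (by norm_num)
      exact sub_nonneg.1 (h.trans_eq (by unfold B2; ring))
    · have h : 0 ≤ B1 (3901 / 32500) (61681 / 325000) (3811 / 650000) (3781 / 50000) a b := B1_nonneg ha hb (by norm_num) (by norm_num) (by norm_num) (by norm_num)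
      exact sub_nonneg.1 (h.trans_eq (by unfold B1; ring))
    · have h : 0 ≤ B2 (603077727981 / 14000000000000) (1575007992993 / 35000000000000) (81644236293 / 2734375000000) (4255987863133 / 70000000000000) (12480491690719 / 350000000000000) (2688800851313 / 87500000000000) (5832403997743 / 175000000000000) (7654035519481 / 350000000000000) (2883276519547 / 175000000000000) a b := B2_nonneg ha hb (by norm_num) (by norm_num) (by norm_num) (by norm_num) (by norm_num) (by norm_num) (by norm_num) (by norm_num) (by norm_num)
      exact sub_nonneg.1 (h.trans_eq (by unfold B2; ring))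
  · refine ⟨33 / 65, 33 / 56, 532503 / 1000000, 65 / 56, 3579 / 10000 + 949 / 10000 * a + 1213 / 10000 * b, 1023 / 10000 + (-(1023 / 10000)) * a + 227 / 2000 * b, 51 / 100 + 817 / 10000 * a + 127 / 2500 * b, (5 / 8 + (4 / 5 - 5 / 8) * b) - (23 / 40 + (59 / 80 - 23 / 40) * a), trigQ_10, ?_, ?_, ?_, ?_, ?_, ?_, ?_, ?_, ?_⟩
    · have h : 0 ≤ B1 (3579 / 10000) (599 / 1250) (283 / 625) (5741 / 10000) a b := B1_nonneg ha hb (by norm_num) (by norm_num) (by norm_num) (by norm_num)
      exact sub_nonneg.1 (h.trans_eq (by unfold B1; ring))
    · have h : 0 ≤ B1 (3421 / 10000) (138 / 625) (309 / 1250) (1259 / 10000) a b := B1_nonneg ha hb (by norm_num) (by norm_num) (by norm_num) (by norm_num)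
      exact sub_nonneg.1 (h.trans_eq (by unfold B1; ring))
    · have h : 0 ≤ B1 (1023 / 10000) (1079 / 5000) (0) (227 / 2000) a b := B1_nonneg ha hb (by norm_num) (by norm_num) (by norm_num) (by norm_num)
      exact sub_nonneg.1 (h.trans_eq (by unfold B1; ring))
    · have h : 0 ≤ B1 (51 / 100) (701 / 1250) (5917 / 10000) (257 / 400) a b := B1_nonneg ha hb (by norm_num) (by norm_num) (by norm_num) (by norm_num)
      exact sub_nonneg.1 (h.trans_eq (by unfold B1; ring))
    · exact le_abs_self _
    · have h : 0 ≤ B2 (5930971 / 100000000) (1647779 / 12500000) (5197411 / 100000000) (12581 / 80000) (7112433 / 20000000) (3145643 / 20000000) (51767 / 640000) (60693 / 320000) (1411859 / 16000000) a b := B2_nonneg ha hb (by norm_num) (by norm_num) (by norm_num) (by norm_num) (by norm_num) (by norm_num) (by norm_num) (by norm_num) (by norm_num)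
      exact sub_nonneg.1 (h.trans_eq (by unfold B2; ring))
    · have h : 0 ≤ B2 (23 / 160000) (3771 / 250000) (7349 / 1562500) (23707 / 2000000) (562491 / 12500000) (198 / 15625) (251743 / 50000000) (33131 / 2000000) (207 / 160000) a b := B2_nonneg ha hb (by norm_num) (by norm_num) (by norm_num) (by norm_num) (by norm_num) (by norm_num) (by norm_num) (by norm_num) (by norm_num)
      exact sub_nonneg.1 (h.trans_eq (by unfold B2; ring))
    · have h : 0 ≤ B1 (74357 / 650000) (57193 / 325000) (49 / 650000) (20039 / 325000) a b := B1_nonneg ha hb (by norm_num) (by norm_num) (by norm_num) (by norm_num)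
      exact sub_nonneg.1 (h.trans_eq (by unfold B1; ring))
    · have h : 0 ≤ B4 (13767927837163274141 / 1120000000000000000000) (91279500281034924111 / 2240000000000000000000) (128281614146602959729 / 2240000000000000000000) (23140908341420376007 / 560000000000000000000) (437900997277920627 / 35000000000000000000) (199544589421080177791 / 4480000000000000000000) (311633511184057445861 / 2240000000000000000000) (841598659119534089927 / 4480000000000000000000) (152284618641309381513 / 1120000000000000000000) (23907781049092268757 / 560000000000000000000) (281198882564716795897 / 4480000000000000000000) (102743843133613959113 / 560000000000000000000) (209991071449991192559 / 896000000000000000000) (377599904085667027883 / 2240000000000000000000) (122998156712786484989 / 2240000000000000000000) (13661684579098088701 / 320000000000000000000) (266593696334014626039 / 2240000000000000000000) (92092014484791445209 / 640000000000000000000) (113086056739669688537 / 1120000000000000000000) (149623934125794647949 / 4480000000000000000000) (973885350269348699 / 80000000000000000000)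 (10853190671797330191 / 320000000000000000000) (179724174969912324137 / 4480000000000000000000) (60577813310609608189 / 2240000000000000000000) (38838541441385987771 / 4480000000000000000000) a b := B4_nonneg ha hb (by norm_num) (by norm_num) (by norm_num) (by norm_num) (by norm_num) (by norm_num) (by norm_num) (by norm_num) (by norm_num) (by norm_num) (by norm_num) (by norm_num) (by norm_num) (by norm_num) (by norm_num) (by norm_num) (by norm_num) (by norm_num) (by norm_num) (by norm_num) (by norm_num) (by norm_num) (by norm_num) (by norm_num) (by norm_num)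
      exact sub_nonneg.1 (h.trans_eq (by unfold B4 Q4; ring))

theorem twoa_15 {x y : ℝ} (h0 : 59 / 80 ≤ x) (h1 : x ≤ 9 / 10) (k0 : 5 / 8 ≤ y) (k1 : y ≤ 57 / 80) :
    TwoAny x y := by
  obtain ⟨a, ha, rfl⟩ := affine01 h0 h1 (by norm_num)
  obtain ⟨b, hb, rfl⟩ := affine01 k0 k1 (by norm_num)
  refine ⟨4 / 5, by norm_num, ?_, ?_⟩
  · refine ⟨3 / 5, 3 / 4, 643501 / 1000000, 5 / 4, 47 / 100 + 1399 / 10000 * a + 561 / 10000 * b, 131 / 2000 + 103 / 1000 * a + (-(487 / 10000)) * b, 61 / 100 + 1039 / 10000 * a + 199 / 10000 * b, (59 / 80 + (9 / 10 - 59 / 80) * a) - (5 / 8 + (57 / 80 - 5 / 8) * b), trigQ_6, ?_, ?_, ?_, ?_, ?_, ?_, ?_, ?_, ?_⟩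
    · have h : 0 ≤ B1 (47 / 100) (5261 / 10000) (6099 / 10000) (333 / 500) a b := B1_nonneg ha hb (by norm_num) (by norm_num) (by norm_num) (by norm_num)
      exact sub_nonneg.1 (h.trans_eq (by unfold B1; ring))
    · have h : 0 ≤ B1 (33 / 100) (2739 / 10000) (1901 / 10000) (67 / 500) a b := B1_nonneg ha hb (by norm_num) (by norm_num) (by norm_num) (by norm_num)
      exact sub_nonneg.1 (h.trans_eq (by unfold B1; ring))
    · have h : 0 ≤ B1 (131 / 2000) (21 / 1250) (337 / 2000) (599 / 5000) a b := B1_nonneg ha hb (by norm_num) (by norm_num) (by norm_num) (by norm_num)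
      exact sub_nonneg.1 (h.trans_eq (by unfold B1; ring))
    · have h : 0 ≤ B1 (61 / 100) (6299 / 10000) (7139 / 10000) (3669 / 5000) a b := B1_nonneg ha hb (by norm_num) (by norm_num) (by norm_num) (by norm_num)
      exact sub_nonneg.1 (h.trans_eq (by unfold B1; ring))
    · rw [abs_sub_comm]; exact le_abs_self _
    · have h : 0 ≤ B2 (25731 / 16000000) (60867 / 10000000) (4819 / 25000000) (75681 / 4000000) (1860159 / 40000000) (950611 / 50000000) (203 / 2000000) (119923 / 20000000) (643559 / 400000000) a b := B2_nonneg ha hb (by norm_num) (by norm_num) (by norm_num) (by norm_num) (by norm_num) (by norm_num) (by norm_num) (by norm_num) (by norm_num)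
      exact sub_nonneg.1 (h.trans_eq (by unfold B2; ring))
    · have h : 0 ≤ B2 (39 / 160000) (19863 / 4000000) (964771 / 400000000) (27259 / 2000000) (802007 / 25000000) (2766127 / 200000000) (129527 / 50000000) (552411 / 100000000) (249399 / 400000000) a b := B2_nonneg ha hb (by norm_num) (by norm_num) (by norm_num) (by norm_num) (by norm_num) (by norm_num) (by norm_num) (by norm_num) (by norm_num)
      exact sub_nonneg.1 (h.trans_eq (by unfold B2; ring))
    · have h : 0 ≤ B1 (289 / 2000) (2227 / 12500) (3297 / 50000) (249 / 2500) a b := B1_nonneg ha hb (by norm_num) (by norm_num) (by norm_num) (by norm_num)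
      exact sub_nonneg.1 (h.trans_eq (by unfold B1; ring))
    · have h : 0 ≤ B2 (1527483423 / 40000000000) (233468146633 / 4000000000000) (5229357276121 / 200000000000000) (204270529447 / 4000000000000) (6415617842839 / 100000000000000) (500444333227 / 20000000000000) (6915265951801 / 200000000000000) (983614154293 / 20000000000000) (20571213253 / 1000000000000) a b := B2_nonneg ha hb (by norm_num) (by norm_num) (by norm_num) (by norm_num) (by norm_num) (by norm_num) (by norm_num) (by norm_num) (by norm_num)
      exact sub_nonneg.1 (h.trans_eq (by unfold B2; ring))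
  · refine ⟨3 / 5, 3 / 4, 643501 / 1000000, 5 / 4, 381 / 1000 + 1223 / 10000 * a + 401 / 10000 * b, 73 / 1000 + 561 / 5000 * a + (-(513 / 10000)) * b, 2661 / 5000 + 1037 / 10000 * a + 23 / 2500 * b, (59 / 80 + (9 / 10 - 59 / 80) * a) - (5 / 8 + (57 / 80 - 5 / 8) * b), trigQ_6, ?_, ?_, ?_, ?_, ?_, ?_, ?_, ?_, ?_⟩
    · have h : 0 ≤ B1 (381 / 1000) (4211 / 10000) (5033 / 10000) (2717 / 5000) a b := B1_nonneg ha hb (by norm_num) (by norm_num) (by norm_num) (by norm_num)
      exact sub_nonneg.1 (h.trans_eq (by unfold B1; ring))
    · have h : 0 ≤ B1 (419 / 1000) (3789 / 10000) (2967 / 10000) (1283 / 5000) a b := B1_nonneg ha hb (by norm_num) (by norm_num) (by norm_num) (by norm_num)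
      exact sub_nonneg.1 (h.trans_eq (by unfold B1; ring))
    · have h : 0 ≤ B1 (73 / 1000) (217 / 10000) (463 / 2500) (1339 / 10000) a b := B1_nonneg ha hb (by norm_num) (by norm_num) (by norm_num) (by norm_num)
      exact sub_nonneg.1 (h.trans_eq (by unfold B1; ring))
    · have h : 0 ≤ B1 (2661 / 5000) (2707 / 5000) (6359 / 10000) (6451 / 10000) a b := B1_nonneg ha hb (by norm_num) (by norm_num) (by norm_num) (by norm_num)
      exact sub_nonneg.1 (h.trans_eq (by unfold B1; ring))
    · rw [abs_sub_comm]; exact le_abs_self _
    · have h : 0 ≤ B2 (60111 / 16000000) (168011 / 20000000) (4893 / 50000000) (460841 / 20000000) (11020709 / 200000000) (2296999 / 100000000) (9471 / 100000000) (832219 / 100000000) (1472691 / 400000000) a b := B2_nonneg ha hb (by norm_num) (by norm_num) (by norm_num) (by norm_num) (by norm_num) (by norm_num) (by norm_num) (by norm_num) (by norm_num)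
      exact sub_nonneg.1 (h.trans_eq (by unfold B2; ring))
    · have h : 0 ≤ B2 (10691 / 100000000) (317759 / 100000000) (428791 / 400000000) (606777 / 50000000) (1414527 / 50000000) (2431519 / 200000000) (63747 / 50000000) (360557 / 100000000) (132771 / 400000000) a b := B2_nonneg ha hb (by norm_num) (by norm_num) (by norm_num) (by norm_num) (by norm_num) (by norm_num) (by norm_num) (by norm_num) (by norm_num)
      exact sub_nonneg.1 (h.trans_eq (by unfold B2; ring))
    · have h : 0 ≤ B1 (911 / 10000) (2879 / 25000) (99 / 50000) (651 / 25000) a b := B1_nonneg ha hb (by norm_num) (by norm_num) (by norm_num) (by norm_num)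
      exact sub_nonneg.1 (h.trans_eq (by unfold B1; ring))
    · have h : 0 ≤ B4 (122100734488633903 / 3200000000000000000) (9443752257068743567 / 64000000000000000000) (138128314098326348581 / 640000000000000000000) (90616667930496241277 / 640000000000000000000) (11252864752565273883 / 320000000000000000000) (10126319920846064181 / 64000000000000000000) (195102666373121595413 / 320000000000000000000) (568694032964047673249 / 640000000000000000000) (2323705899645020351 / 4000000000000000000) (92041044516938131927 / 640000000000000000000) (162134301836519128009 / 640000000000000000000) (623148642040848133161 / 640000000000000000000) (14149875599936361489 / 10000000000000000000) (118045495429075751099 / 128000000000000000000) (145649778953780625351 / 640000000000000000000) (119386784506569888801 / 640000000000000000000) (7161564681214721559 / 10000000000000000000) (664978379501055260047 / 640000000000000000000) (43245155765515845087 / 64000000000000000000) (53213266622637740899 / 320000000000000000000) (17047767490392311001 / 320000000000000000000) (130959307732449801771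 / 640000000000000000000) (189952059970849449419 / 640000000000000000000) (61700178261243355129 / 320000000000000000000) (947252165728201269 / 20000000000000000000) a b := B4_nonneg ha hb (by norm_num) (by norm_num) (by norm_num) (by norm_num) (by norm_num) (by norm_num) (by norm_num) (by norm_num) (by norm_num) (by norm_num) (by norm_num) (by norm_num) (by norm_num) (by norm_num) (by norm_num) (by norm_num) (by norm_num) (by norm_num) (by norm_num) (by norm_num) (by norm_num) (by norm_num) (by norm_num) (by norm_num) (by norm_num)
      exact sub_nonneg.1 (h.trans_eq (by unfold B4 Q4; ring))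

theorem twoa_16 {x y : ℝ} (h0 : 59 / 80 ≤ x) (h1 : x ≤ 9 / 10) (k0 : 57 / 80 ≤ y) (k1 : y ≤ 4 / 5) :
    TwoAny x y := by
  obtain ⟨a, ha, rfl⟩ := affine01 h0 h1 (by norm_num)
  obtain ⟨b, hb, rfl⟩ := affine01 k0 k1 (by norm_num)
  refine ⟨9 / 10, by norm_num, ?_, ?_⟩
  · refine ⟨3 / 5, 3 / 4, 643501 / 1000000, 5 / 4, 663 / 1250 + 1423 / 10000 * a + 303 / 5000 * b, 11 / 200 + 477 / 5000 * a + (-(11 / 200)) * b, 6351 / 10000 + 51 / 500 * a + 197 / 10000 * b, (59 / 80 + (9 / 10 - 59 / 80) * a) - (57 / 80 + (4 / 5 - 57 / 80) * b), trigQ_6, ?_, ?_, ?_, ?_, ?_, ?_, ?_, ?_, ?_⟩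
    · have h : 0 ≤ B1 (663 / 1250) (591 / 1000) (6727 / 10000) (7333 / 10000) a b := B1_nonneg ha hb (by norm_num) (by norm_num) (by norm_num) (by norm_num)
      exact sub_nonneg.1 (h.trans_eq (by unfold B1; ring))
    · have h : 0 ≤ B1 (231 / 625) (309 / 1000) (2273 / 10000) (1667 / 10000) a b := B1_nonneg ha hb (by norm_num) (by norm_num) (by norm_num) (by norm_num)
      exact sub_nonneg.1 (h.trans_eq (by unfold B1; ring))
    · have h : 0 ≤ B1 (11 / 200) (0) (94 / 625) (477 / 5000) a b := B1_nonneg ha hb (by norm_num) (by norm_num) (by norm_num) (by norm_num)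
      exact sub_nonneg.1 (h.trans_eq (by unfold B1; ring))
    · have h : 0 ≤ B1 (6351 / 10000) (1637 / 2500) (7371 / 10000) (473 / 625) a b := B1_nonneg ha hb (by norm_num) (by norm_num) (by norm_num) (by norm_num)
      exact sub_nonneg.1 (h.trans_eq (by unfold B1; ring))
    · rw [abs_sub_comm]; exact le_abs_self _
    · have h : 0 ≤ B2 (7 / 4000) (537 / 80000) (3 / 128000) (34987 / 2000000) (358373 / 8000000) (697 / 40000) (16311 / 400000000) (166967 / 25000000) (42471 / 25000000) a b := B2_nonneg ha hb (by norm_num) (by norm_num) (by norm_num) (by norm_num) (by norm_num) (by norm_num) (by norm_num) (by norm_num) (by norm_num)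
      exact sub_nonneg.1 (h.trans_eq (by unfold B2; ring))
    · have h : 0 ≤ B2 (53571 / 400000000) (58413 / 12500000) (13981 / 6250000) (2601491 / 200000000) (385081 / 12500000) (82467 / 6250000) (987811 / 400000000) (8321 / 1562500) (3461 / 6250000) a b := B2_nonneg ha hb (by norm_num) (by norm_num) (by norm_num) (by norm_num) (by norm_num) (by norm_num) (by norm_num) (by norm_num) (by norm_num)
      exact sub_nonneg.1 (h.trans_eq (by unfold B2; ring))
    · have h : 0 ≤ B1 (9037 / 50000) (2171 / 10000) (5181 / 50000) (6999 / 50000) a b := B1_nonneg ha hb (by norm_num) (by norm_num) (by norm_num) (by norm_num)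
      exact sub_nonneg.1 (h.trans_eq (by unfold B1; ring))
    · have h : 0 ≤ B2 (311997736651 / 12500000000000) (172615725657 / 5000000000000) (16046529553 / 1000000000000) (1223639251379 / 50000000000000) (1609740302427 / 100000000000000) (91820494081 / 20000000000000) (4042099799279 / 200000000000000) (1148466184733 / 50000000000000) (1848405610389 / 200000000000000) a b := B2_nonneg ha hb (by norm_num) (by norm_num) (by norm_num) (by norm_num) (by norm_num) (by norm_num) (by norm_num) (by norm_num) (by norm_num)
      exact sub_nonneg.1 (h.trans_eq (by unfold B2; ring))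
  · refine ⟨3 / 5, 3 / 4, 643501 / 1000000, 5 / 4, 429 / 1000 + 609 / 5000 * a + 11 / 250 * b, 619 / 10000 + 1083 / 10000 * a + (-(619 / 10000)) * b, 1099 / 2000 + 503 / 5000 * a + 9 / 1000 * b, (59 / 80 + (9 / 10 - 59 / 80) * a) - (57 / 80 + (4 / 5 - 57 / 80) * b), trigQ_6, ?_, ?_, ?_, ?_, ?_, ?_, ?_, ?_, ?_⟩
    · have h : 0 ≤ B1 (429 / 1000) (473 / 1000) (1377 / 2500) (1487 / 2500) a b := B1_nonneg ha hb (by norm_num) (by norm_num) (by norm_num) (by norm_num)
      exact sub_nonneg.1 (h.trans_eq (by unfold B1; ring))
    · have h : 0 ≤ B1 (471 / 1000) (427 / 1000) (873 / 2500) (763 / 2500) a b := B1_nonneg ha hb (by norm_num) (by norm_num) (by norm_num) (by norm_num)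
      exact sub_nonneg.1 (h.trans_eq (by unfold B1; ring))
    · have h : 0 ≤ B1 (619 / 10000) (0) (851 / 5000) (1083 / 10000) a b := B1_nonneg ha hb (by norm_num) (by norm_num) (by norm_num) (by norm_num)
      exact sub_nonneg.1 (h.trans_eq (by unfold B1; ring))
    · have h : 0 ≤ B1 (1099 / 2000) (1117 / 2000) (6501 / 10000) (6591 / 10000) a b := B1_nonneg ha hb (by norm_num) (by norm_num) (by norm_num) (by norm_num)
      exact sub_nonneg.1 (h.trans_eq (by unfold B1; ring))
    · rw [abs_sub_comm]; exact le_abs_self _
    · have h : 0 ≤ B2 (231857 / 50000000) (333 / 32000) (3 / 128000) (2301049 / 100000000) (11485367 / 200000000) (917 / 40000) (17159 / 400000000) (16187 / 1562500) (457111 / 100000000) a b := B2_nonneg ha hb (by norm_num) (by norm_num) (by norm_num) (by norm_num) (by norm_num) (by norm_num) (by norm_num) (by norm_num) (by norm_num)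
      exact sub_nonneg.1 (h.trans_eq (by unfold B2; ring))
    · have h : 0 ≤ B2 (2171 / 16000000) (6417 / 2000000) (4311 / 4000000) (460479 / 40000000) (135437 / 5000000) (115853 / 10000000) (502371 / 400000000) (181909 / 50000000) (38719 / 100000000) a b := B2_nonneg ha hb (by norm_num) (by norm_num) (by norm_num) (by norm_num) (by norm_num) (by norm_num) (by norm_num) (by norm_num) (by norm_num)
      exact sub_nonneg.1 (h.trans_eq (by unfold B2; ring))
    · have h : 0 ≤ B1 (1199 / 10000) (1463 / 10000) (381 / 12500) (711 / 12500) a b := B1_nonneg ha hb (by norm_num) (by norm_num) (by norm_num) (by norm_num)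
      exact sub_nonneg.1 (h.trans_eq (by unfold B1; ring))
    · have h : 0 ≤ B4 (106731927594998993 / 3200000000000000000) (826705221534426911 / 6400000000000000000) (303704894019104187 / 1600000000000000000) (803285536187388807 / 6400000000000000000) (25213415806925123 / 800000000000000000) (4427394539562090767 / 32000000000000000000) (426582355704869929 / 800000000000000000) (24953468074652986033 / 32000000000000000000) (8212382090263412827 / 16000000000000000000) (2053597897253273007 / 16000000000000000000) (2223173644817056811 / 10000000000000000000) (136567484331010120079 / 160000000000000000000) (24859252013780175507 / 20000000000000000000) (130314686677420698779 / 160000000000000000000) (16218688290558252913 / 80000000000000000000) (26374030879779367529 / 160000000000000000000) (50522052336400711893 / 80000000000000000000) (146710009628720367309 / 160000000000000000000) (5985905721621146461 / 10000000000000000000) (5933638927560008081 / 40000000000000000000) (3801814440383481369 / 80000000000000000000) (7281365236101154183 / 40000000000000000000) (21116422244916737359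 / 80000000000000000000) (6875371841616763173 / 40000000000000000000) (212202341883475999 / 5000000000000000000) a b := B4_nonneg ha hb (by norm_num) (by norm_num) (by norm_num) (by norm_num) (by norm_num) (by norm_num) (by norm_num) (by norm_num) (by norm_num) (by norm_num) (by norm_num) (by norm_num) (by norm_num) (by norm_num) (by norm_num) (by norm_num) (by norm_num) (by norm_num) (by norm_num) (by norm_num) (by norm_num) (by norm_num) (by norm_num) (by norm_num) (by norm_num)
      exact sub_nonneg.1 (h.trans_eq (by unfold B4 Q4; ring))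

theorem twoa_14 {x y : ℝ} (h0 : 59 / 80 ≤ x) (h1 : x ≤ 9 / 10) (k0 : 5 / 8 ≤ y) (k1 : y ≤ 4 / 5) :
    CenXY x y ∨ TwoAny x y := by
  rcases le_total y (57 / 80) with h | h
  · exact Or.inr (twoa_15 h0 h1 k0 h)
  · exact Or.inr (twoa_16 h0 h1 h k1)

theorem twoa_12 {x y : ℝ} (h0 : 23 / 40 ≤ x) (h1 : x ≤ 9 / 10) (k0 : 5 / 8 ≤ y) (k1 : y ≤ 4 / 5) :
    CenXY x y ∨ TwoAny x y := by
  rcases le_total x (59 / 80) with h | h
  · exact Or.inr (twoa_13 h0 h k0 k1)
  · exact twoa_14 h h1 k0 k1

theorem twoa_8 {x y : ℝ} (h0 : 23 / 40 ≤ x) (h1 : x ≤ 9 / 10) (k0 : 9 / 20 ≤ y) (k1 : y ≤ 4 / 5) :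
    CenXY x y ∨ TwoAny x y := by
  rcases le_total y (5 / 8) with h | h
  · exact twoa_9 h0 h1 k0 h
  · exact twoa_12 h0 h1 h k1

theorem twoa_2 {x y : ℝ} (h0 : 1 / 4 ≤ x) (h1 : x ≤ 9 / 10) (k0 : 9 / 20 ≤ y) (k1 : y ≤ 4 / 5) :
    CenXY x y ∨ TwoAny x y := by
  rcases le_total x (23 / 40) with h | h
  · exact twoa_3 h0 h k0 k1
  · exact twoa_8 h h1 k0 k1

theorem twoa_19 {x y : ℝ} (h0 : 1 / 4 ≤ x) (h1 : x ≤ 23 / 40) (k0 : 4 / 5 ≤ y) (k1 : y ≤ 39 / 40) :
    TwoAny x y := by
  obtain ⟨a, ha, rfl⟩ := affine01 h0 h1 (by norm_num)
  obtain ⟨b, hb, rfl⟩ := affine01 k0 k1 (by norm_num)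
  refine ⟨9 / 10, by norm_num, ?_, ?_⟩
  · refine ⟨5 / 13, 5 / 12, 394791 / 1000000, 13 / 12, 4081 / 10000 + 227 / 2500 * a + 193 / 1000 * b, 877 / 2500 + (-(473 / 2500)) * a + 311 / 2500 * b, 4979 / 10000 + 383 / 5000 * a + 977 / 10000 * b, (4 / 5 + (39 / 40 - 4 / 5) * b) - (1 / 4 + (23 / 40 - 1 / 4) * a), trigQ_4, ?_, ?_, ?_, ?_, ?_, ?_, ?_, ?_, ?_⟩
    · have h : 0 ≤ B1 (4081 / 10000) (6011 / 10000) (4989 / 10000) (6919 / 10000) a b := B1_nonneg ha hb (by norm_num) (by norm_num) (by norm_num) (by norm_num)
      exact sub_nonneg.1 (h.trans_eq (by unfold B1; ring))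
    · have h : 0 ≤ B1 (4919 / 10000) (2989 / 10000) (4011 / 10000) (2081 / 10000) a b := B1_nonneg ha hb (by norm_num) (by norm_num) (by norm_num) (by norm_num)
      exact sub_nonneg.1 (h.trans_eq (by unfold B1; ring))
    · have h : 0 ≤ B1 (877 / 2500) (297 / 625) (101 / 625) (143 / 500) a b := B1_nonneg ha hb (by norm_num) (by norm_num) (by norm_num) (by norm_num)
      exact sub_nonneg.1 (h.trans_eq (by unfold B1; ring))
    · have h : 0 ≤ B1 (4979 / 10000) (1489 / 2500) (1149 / 2000) (3361 / 5000) a b := B1_nonneg ha hb (by norm_num) (by norm_num) (by norm_num) (by norm_num)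
      exact sub_nonneg.1 (h.trans_eq (by unfold B1; ring))
    · exact le_abs_self _
    · have h : 0 ≤ B2 (235359 / 25000000) (816867 / 25000000) (12871 / 100000000) (1793661 / 25000000) (9491013 / 50000000) (359053 / 5000000) (12919 / 100000000) (163699 / 5000000) (9479 / 1000000) a b := B2_nonneg ha hb (by norm_num) (by norm_num) (by norm_num) (by norm_num) (by norm_num) (by norm_num) (by norm_num) (by norm_num) (by norm_num)
      exact sub_nonneg.1 (h.trans_eq (by unfold B2; ring))
    · have h : 0 ≤ B2 (19559 / 100000000) (326269 / 12500000) (870439 / 100000000) (149129 / 10000000) (1656971 / 25000000) (848143 / 50000000) (35399 / 4000000) (142211 / 5000000) (239091 / 100000000) a b := B2_nonneg ha hb (by norm_num) (by norm_num) (by norm_num) (by norm_num) (by norm_num) (by norm_num) (by norm_num) (by norm_num) (by norm_num)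
      exact sub_nonneg.1 (h.trans_eq (by unfold B2; ring))
    · have h : 0 ≤ B1 (7581 / 26000) (9511 / 26000) (3 / 2000) (1969 / 26000) a b := B1_nonneg ha hb (by norm_num) (by norm_num) (by norm_num) (by norm_num)
      exact sub_nonneg.1 (h.trans_eq (by unfold B1; ring))
    · have h : 0 ≤ B2 (13431171628751 / 200000000000000) (12566577412031 / 100000000000000) (58726617448633 / 600000000000000) (4150177943469 / 100000000000000) (1952194965519 / 50000000000000) (22883303825407 / 300000000000000) (5893036775211 / 200000000000000) (2361665036031 / 100000000000000) (20111547753253 / 600000000000000) a b := B2_nonneg ha hb (by norm_num) (by norm_num) (by norm_num) (by norm_num) (by norm_num) (by norm_num) (by norm_num) (by norm_num) (by norm_num)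
      exact sub_nonneg.1 (h.trans_eq (by unfold B2; ring))
  · refine ⟨8 / 17, 8 / 15, 489957 / 1000000, 17 / 15, 483 / 1250 + 17 / 500 * a + 1867 / 10000 * b, 371 / 1000 + (-(1719 / 10000)) * a + 157 / 1250 * b, 4757 / 10000 + 311 / 10000 * a + 1003 / 10000 * b, (4 / 5 + (39 / 40 - 4 / 5) * b) - (1 / 4 + (23 / 40 - 1 / 4) * a), trigQ_5, ?_, ?_, ?_, ?_, ?_, ?_, ?_, ?_, ?_⟩
    · have h : 0 ≤ B1 (483 / 1250) (5731 / 10000) (1051 / 2500) (6071 / 10000) a b := B1_nonneg ha hb (by norm_num) (by norm_num) (by norm_num) (by norm_num)
      exact sub_nonneg.1 (h.trans_eq (by unfold B1; ring))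
    · have h : 0 ≤ B1 (321 / 625) (3269 / 10000) (1199 / 2500) (2929 / 10000) a b := B1_nonneg ha hb (by norm_num) (by norm_num) (by norm_num) (by norm_num)
      exact sub_nonneg.1 (h.trans_eq (by unfold B1; ring))
    · have h : 0 ≤ B1 (371 / 1000) (2483 / 5000) (1991 / 10000) (3247 / 10000) a b := B1_nonneg ha hb (by norm_num) (by norm_num) (by norm_num) (by norm_num)
      exact sub_nonneg.1 (h.trans_eq (by unfold B1; ring))
    · have h : 0 ≤ B1 (4757 / 10000) (72 / 125) (1267 / 2500) (6071 / 10000) a b := B1_nonneg ha hb (by norm_num) (by norm_num) (by norm_num) (by norm_num)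
      exact sub_nonneg.1 (h.trans_eq (by unfold B1; ring))
    · exact le_abs_self _
    · have h : 0 ≤ B2 (6567 / 500000) (183239 / 5000000) (8219 / 100000000) (86491 / 1250000) (9263199 / 50000000) (1730199 / 25000000) (5147 / 50000000) (1835223 / 50000000) (1316991 / 100000000) a b := B2_nonneg ha hb (by norm_num) (by norm_num) (by norm_num) (by norm_num) (by norm_num) (by norm_num) (by norm_num) (by norm_num) (by norm_num)
      exact sub_nonneg.1 (h.trans_eq (by unfold B2; ring))
    · have h : 0 ≤ B2 (10951 / 100000000) (26867 / 1250000) (14671 / 4000000) (57881 / 12500000) (2278573 / 50000000) (55083 / 10000000) (22211 / 6250000) (276793 / 12500000) (43667 / 50000000) a b := B2_nonneg ha hb (by norm_num) (by norm_num) (by norm_num) (by norm_num) (by norm_num) (by norm_num) (by norm_num) (by norm_num) (by norm_num)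
      exact sub_nonneg.1 (h.trans_eq (by unfold B2; ring))
    · have h : 0 ≤ B1 (17103 / 42500) (20837 / 42500) (7941 / 85000) (15409 / 85000) a b := B1_nonneg ha hb (by norm_num) (by norm_num) (by norm_num) (by norm_num)
      exact sub_nonneg.1 (h.trans_eq (by unfold B1; ring))
    · have h : 0 ≤ B4 (125285006797231 / 15625000000000000) (4998144341616649 / 160000000000000000) (1606638096376164759 / 32000000000000000000) (296341523390376689 / 7680000000000000000) (2226980552918032943 / 192000000000000000000) (104814678312276243 / 2500000000000000000) (320907818978500049 / 2000000000000000000) (245231677651115084521 / 960000000000000000000) (6287842664673465861 / 32000000000000000000) (57190518926854837517 / 960000000000000000000) (192356903002625079 / 2500000000000000000) (4567435041282405179 / 16000000000000000000) (142098218828654734681 / 320000000000000000000) (1353487356967349789 / 4000000000000000000) (32907786970045341907 / 320000000000000000000) (662844337967195901 / 10000000000000000000) (1911484118000050631 / 8000000000000000000) (114949126029419949601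 / 320000000000000000000) (25537653755526226453 / 96000000000000000000) (76274197182157684951 / 960000000000000000000) (232493034855572717 / 10000000000000000000) (52919252495361263 / 640000000000000000) (115585256362125786511 / 960000000000000000000) (219019097065347213 / 2560000000000000000) (184425409642861969 / 7500000000000000000) a b := B4_nonneg ha hb (by norm_num) (by norm_num) (by norm_num) (by norm_num) (by norm_num) (by norm_num) (by norm_num) (by norm_num) (by norm_num) (by norm_num) (by norm_num) (by norm_num) (by norm_num) (by norm_num) (by norm_num) (by norm_num) (by norm_num) (by norm_num) (by norm_num) (by norm_num) (by norm_num) (by norm_num) (by norm_num) (by norm_num) (by norm_num)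
      exact sub_nonneg.1 (h.trans_eq (by unfold B4 Q4; ring))

theorem twoa_20 {x y : ℝ} (h0 : 1 / 4 ≤ x) (h1 : x ≤ 23 / 40) (k0 : 39 / 40 ≤ y) (k1 : y ≤ 23 / 20) :
    TwoAny x y := by
  obtain ⟨a, ha, rfl⟩ := affine01 h0 h1 (by norm_num)
  obtain ⟨b, hb, rfl⟩ := affine01 k0 k1 (by norm_num)
  refine ⟨11 / 10, by norm_num, ?_, ?_⟩
  · refine ⟨5 / 13, 5 / 12, 394791 / 1000000, 13 / 12, 2983 / 5000 + 463 / 5000 * a + 148 / 625 * b, 4639 / 10000 + (-(333 / 2000)) * a + 61 / 500 * b, 599 / 1000 + 67 / 1000 * a + 261 / 2500 * b, (39 / 40 + (23 / 20 - 39 / 40) * b) - (1 / 4 + (23 / 40 - 1 / 4) * a), trigQ_4, ?_, ?_, ?_, ?_, ?_, ?_, ?_, ?_, ?_⟩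
    · have h : 0 ≤ B1 (2983 / 5000) (4167 / 5000) (1723 / 2500) (463 / 500) a b := B1_nonneg ha hb (by norm_num) (by norm_num) (by norm_num) (by norm_num)
      exact sub_nonneg.1 (h.trans_eq (by unfold B1; ring))
    · have h : 0 ≤ B1 (2517 / 5000) (1333 / 5000) (1027 / 2500) (87 / 500) a b := B1_nonneg ha hb (by norm_num) (by norm_num) (by norm_num) (by norm_num)
      exact sub_nonneg.1 (h.trans_eq (by unfold B1; ring))
    · have h : 0 ≤ B1 (4639 / 10000) (5859 / 10000) (1487 / 5000) (2097 / 5000) a b := B1_nonneg ha hb (by norm_num) (by norm_num) (by norm_num) (by norm_num)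
      exact sub_nonneg.1 (h.trans_eq (by unfold B1; ring))
    · have h : 0 ≤ B1 (599 / 1000) (3517 / 5000) (333 / 500) (963 / 1250) a b := B1_nonneg ha hb (by norm_num) (by norm_num) (by norm_num) (by norm_num)
      exact sub_nonneg.1 (h.trans_eq (by unfold B1; ring))
    · exact le_abs_self _
    · have h : 0 ≤ B2 (312027 / 50000000) (1445099 / 50000000) (12119 / 100000000) (94527 / 1562500) (8301243 / 50000000) (1511177 / 25000000) (1603 / 12500000) (721647 / 25000000) (619739 / 100000000) a b := B2_nonneg ha hb (by norm_num) (by norm_num) (by norm_num) (by norm_num) (by norm_num) (by norm_num) (by norm_num) (by norm_num) (by norm_num)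
      exact sub_nonneg.1 (h.trans_eq (by unfold B2; ring))
    · have h : 0 ≤ B2 (571 / 4000000) (133509 / 5000000) (100043 / 12500000) (25239 / 2000000) (32041 / 500000) (179391 / 12500000) (31951 / 4000000) (142011 / 5000000) (46471 / 25000000) a b := B2_nonneg ha hb (by norm_num) (by norm_num) (by norm_num) (by norm_num) (by norm_num) (by norm_num) (by norm_num) (by norm_num) (by norm_num)
      exact sub_nonneg.1 (h.trans_eq (by unfold B2; ring))
    · have h : 0 ≤ B1 (4733 / 13000) (5917 / 13000) (971 / 13000) (431 / 2600) a b := B1_nonneg ha hb (by norm_num) (by norm_num) (by norm_num) (by norm_num)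
      exact sub_nonneg.1 (h.trans_eq (by unfold B1; ring))
    · have h : 0 ≤ B2 (15035165505547 / 150000000000000) (59635313363 / 292968750000) (21516170332597 / 150000000000000) (1651822249291 / 18750000000000) (12470185231831 / 75000000000000) (2376190326191 / 15000000000000) (1346723393917 / 37500000000000) (441102609779 / 7500000000000) (47266070081 / 750000000000) a b := B2_nonneg ha hb (by norm_num) (by norm_num) (by norm_num) (by norm_num) (by norm_num) (by norm_num) (by norm_num) (by norm_num) (by norm_num)
      exact sub_nonneg.1 (h.trans_eq (by unfold B2; ring))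
  · refine ⟨5 / 13, 5 / 12, 394791 / 1000000, 13 / 12, 1433 / 2500 + 41 / 1250 * a + 29 / 125 * b, 4873 / 10000 + (-(723 / 5000)) * a + 1231 / 10000 * b, 5791 / 10000 + 63 / 2500 * a + 537 / 5000 * b, (39 / 40 + (23 / 20 - 39 / 40) * b) - (1 / 4 + (23 / 40 - 1 / 4) * a), trigQ_4, ?_, ?_, ?_, ?_, ?_, ?_, ?_, ?_, ?_⟩
    · have h : 0 ≤ B1 (1433 / 2500) (2013 / 2500) (303 / 500) (419 / 500) a b := B1_nonneg ha hb (by norm_num) (by norm_num) (by norm_num) (by norm_num)
      exact sub_nonneg.1 (h.trans_eq (by unfold B1; ring))
    · have h : 0 ≤ B1 (1317 / 2500) (737 / 2500) (247 / 500) (131 / 500) a b := B1_nonneg ha hb (by norm_num) (by norm_num) (by norm_num) (by norm_num)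
      exact sub_nonneg.1 (h.trans_eq (by unfold B1; ring))
    · have h : 0 ≤ B1 (4873 / 10000) (763 / 1250) (3427 / 10000) (2329 / 5000) a b := B1_nonneg ha hb (by norm_num) (by norm_num) (by norm_num) (by norm_num)
      exact sub_nonneg.1 (h.trans_eq (by unfold B1; ring))
    · have h : 0 ≤ B1 (5791 / 10000) (1373 / 2000) (6043 / 10000) (7117 / 10000) a b := B1_nonneg ha hb (by norm_num) (by norm_num) (by norm_num) (by norm_num)
      exact sub_nonneg.1 (h.trans_eq (by unfold B1; ring))
    · exact le_abs_self _
    · have h : 0 ≤ B2 (466623 / 50000000) (403177 / 12500000) (699 / 6250000) (2835229 / 50000000) (7956283 / 50000000) (710017 / 12500000) (5671 / 100000000) (806017 / 25000000) (937411 / 100000000) a b := B2_nonneg ha hb (by norm_num) (by norm_num) (by norm_num) (by norm_num) (by norm_num) (by norm_num) (by norm_num) (by norm_num) (by norm_num)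
      exact sub_nonneg.1 (h.trans_eq (by unfold B2; ring))
    · have h : 0 ≤ B2 (9347 / 50000000) (226707 / 10000000) (13171 / 4000000) (99681 / 25000000) (1178879 / 25000000) (47859 / 10000000) (158263 / 50000000) (1160719 / 50000000) (85811 / 100000000) a b := B2_nonneg ha hb (by norm_num) (by norm_num) (by norm_num) (by norm_num) (by norm_num) (by norm_num) (by norm_num) (by norm_num) (by norm_num)
      exact sub_nonneg.1 (h.trans_eq (by unfold B2; ring))
    · have h : 0 ≤ B1 (577 / 1625) (722 / 1625) (111 / 2600) (343 / 2600) a b := B1_nonneg ha hb (by norm_num) (by norm_num) (by norm_num) (by norm_num)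
      exact sub_nonneg.1 (h.trans_eq (by unfold B1; ring))
    · have h : 0 ≤ B4 (72344176170287183 / 6000000000000000000) (584837369047821049 / 12000000000000000000) (39172067406861749 / 500000000000000000) (702195635493574769 / 12000000000000000000) (50553758609034869 / 3000000000000000000) (1252770623976550673 / 20000000000000000000) (7575681721403123353 / 30000000000000000000) (12211704823577554577 / 30000000000000000000) (9189939204258808133 / 30000000000000000000) (5349520332239101799 / 60000000000000000000) (3286459393727345777 / 30000000000000000000) (6558063614499447869 / 15000000000000000000) (3517032796689009817 / 5000000000000000000) (7983637957180730599 / 15000000000000000000) (4694746969498952257 / 30000000000000000000) (339584212203184731 / 4000000000000000000) (2002354267699669019 / 6000000000000000000) (1063857186568656241 / 2000000000000000000) (96359031400911671 / 240000000000000000) (1420764349423429949 / 12000000000000000000) (1296428754849883 / 50000000000000000) (80246197554213869 / 800000000000000000) (94340835951232687 / 600000000000000000)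 (280964250102189511 / 2400000000000000000) (13685153121184331 / 400000000000000000) a b := B4_nonneg ha hb (by norm_num) (by norm_num) (by norm_num) (by norm_num) (by norm_num) (by norm_num) (by norm_num) (by norm_num) (by norm_num) (by norm_num) (by norm_num) (by norm_num) (by norm_num) (by norm_num) (by norm_num) (by norm_num) (by norm_num) (by norm_num) (by norm_num) (by norm_num) (by norm_num) (by norm_num) (by norm_num) (by norm_num) (by norm_num)
      exact sub_nonneg.1 (h.trans_eq (by unfold B4 Q4; ring))

theorem twoa_18 {x y : ℝ} (h0 : 1 / 4 ≤ x) (h1 : x ≤ 23 / 40) (k0 : 4 / 5 ≤ y) (k1 : y ≤ 23 / 20) :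
    CenXY x y ∨ TwoAny x y := by
  rcases le_total y (39 / 40) with h | h
  · exact Or.inr (twoa_19 h0 h1 k0 h)
  · exact Or.inr (twoa_20 h0 h1 h k1)

theorem twoa_24 {x y : ℝ} (h0 : 23 / 40 ≤ x) (h1 : x ≤ 59 / 80) (k0 : 4 / 5 ≤ y) (k1 : y ≤ 71 / 80) :
    TwoAny x y := by
  obtain ⟨a, ha, rfl⟩ := affine01 h0 h1 (by norm_num)
  obtain ⟨b, hb, rfl⟩ := affine01 k0 k1 (by norm_num)
  refine ⟨4 / 5, by norm_num, ?_, ?_⟩
  · refine ⟨8 / 17, 8 / 15, 489957 / 1000000, 17 / 15, 4989 / 10000 + 939 / 10000 * a + 103 / 1250 * b, 94 / 625 + (-(109 / 1000)) * a + 163 / 2500 * b, 291 / 500 + 147 / 2000 * a + 89 / 2500 * b, (4 / 5 + (71 / 80 - 4 / 5) * b) - (23 / 40 + (59 / 80 - 23 / 40) * a), trigQ_5, ?_, ?_, ?_, ?_, ?_, ?_, ?_, ?_, ?_⟩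
    · have h : 0 ≤ B1 (4989 / 10000) (5813 / 10000) (741 / 1250) (422 / 625) a b := B1_nonneg ha hb (by norm_num) (by norm_num) (by norm_num) (by norm_num)
      exact sub_nonneg.1 (h.trans_eq (by unfold B1; ring))
    · have h : 0 ≤ B1 (3011 / 10000) (2187 / 10000) (259 / 1250) (78 / 625) a b := B1_nonneg ha hb (by norm_num) (by norm_num) (by norm_num) (by norm_num)
      exact sub_nonneg.1 (h.trans_eq (by unfold B1; ring))
    · have h : 0 ≤ B1 (94 / 625) (539 / 2500) (207 / 5000) (533 / 5000) a b := B1_nonneg ha hb (by norm_num) (by norm_num) (by norm_num) (by norm_num)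
      exact sub_nonneg.1 (h.trans_eq (by unfold B1; ring))
    · have h : 0 ≤ B1 (291 / 500) (386 / 625) (1311 / 2000) (6911 / 10000) a b := B1_nonneg ha hb (by norm_num) (by norm_num) (by norm_num) (by norm_num)
      exact sub_nonneg.1 (h.trans_eq (by unfold B1; ring))
    · exact le_abs_self _
    · have h : 0 ≤ B2 (362359 / 100000000) (987877 / 100000000) (36031 / 400000000) (2221563 / 100000000) (11359733 / 200000000) (2225283 / 100000000) (43791 / 400000000) (995477 / 100000000) (368019 / 100000000) a b := B2_nonneg ha hb (by norm_num) (by norm_num) (by norm_num) (by norm_num) (by norm_num) (by norm_num) (by norm_num) (by norm_num) (by norm_num)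
      exact sub_nonneg.1 (h.trans_eq (by unfold B2; ring))
    · have h : 0 ≤ B2 (11 / 62500) (1973 / 312500) (1182471 / 400000000) (4349 / 500000) (12043 / 500000) (1805031 / 200000000) (12479 / 4000000) (69679 / 10000000) (266691 / 400000000) a b := B2_nonneg ha hb (by norm_num) (by norm_num) (by norm_num) (by norm_num) (by norm_num) (by norm_num) (by norm_num) (by norm_num) (by norm_num)
      exact sub_nonneg.1 (h.trans_eq (by unfold B2; ring))
    · have h : 0 ≤ B1 (11081 / 85000) (14377 / 85000) (2049 / 170000) (8641 / 170000) a b := B1_nonneg ha hb (by norm_num) (by norm_num) (by norm_num) (by norm_num)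
      exact sub_nonneg.1 (h.trans_eq (by unfold B1; ring))
    · have h : 0 ≤ B2 (19559588180891 / 600000000000000) (8590115220761 / 150000000000000) (20120779484249 / 600000000000000) (3191199960319 / 100000000000000) (12585009231857 / 300000000000000) (2082829033249 / 75000000000000) (233574747193 / 12500000000000) (146432397387 / 6250000000000) (31897769789 / 2343750000000) a b := B2_nonneg ha hb (by norm_num) (by norm_num) (by norm_num) (by norm_num) (by norm_num) (by norm_num) (by norm_num) (by norm_num) (by norm_num)
      exact sub_nonneg.1 (h.trans_eq (by unfold B2; ring))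
  · refine ⟨8 / 17, 8 / 15, 489957 / 1000000, 17 / 15, 4231 / 10000 + 721 / 5000 * a + 97 / 1250 * b, 909 / 10000 + 449 / 10000 * a + 193 / 2500 * b, 641 / 1250 + 243 / 2000 * a + 341 / 10000 * b, (4 / 5 + (71 / 80 - 4 / 5) * b) - (23 / 40 + (59 / 80 - 23 / 40) * a), trigQ_5, ?_, ?_, ?_, ?_, ?_, ?_, ?_, ?_, ?_⟩
    · have h : 0 ≤ B1 (4231 / 10000) (5007 / 10000) (5673 / 10000) (6449 / 10000) a b := B1_nonneg ha hb (by norm_num) (by norm_num) (by norm_num) (by norm_num)
      exact sub_nonneg.1 (h.trans_eq (by unfold B1; ring))
    · have h : 0 ≤ B1 (3769 / 10000) (2993 / 10000) (2327 / 10000) (1551 / 10000) a b := B1_nonneg ha hb (by norm_num) (by norm_num) (by norm_num) (by norm_num)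
      exact sub_nonneg.1 (h.trans_eq (by unfold B1; ring))
    · have h : 0 ≤ B1 (909 / 10000) (1681 / 10000) (679 / 5000) (213 / 1000) a b := B1_nonneg ha hb (by norm_num) (by norm_num) (by norm_num) (by norm_num)
      exact sub_nonneg.1 (h.trans_eq (by unfold B1; ring))
    · have h : 0 ≤ B1 (641 / 1250) (5469 / 10000) (6343 / 10000) (1671 / 2500) a b := B1_nonneg ha hb (by norm_num) (by norm_num) (by norm_num) (by norm_num)
      exact sub_nonneg.1 (h.trans_eq (by unfold B1; ring))
    · exact le_abs_self _
    · have h : 0 ≤ B2 (1709047 / 50000000) (8183317 / 100000000) (15911331 / 400000000) (11868031 / 100000000) (50621003 / 200000000) (1186769 / 10000000) (30352719 / 400000000) (1540367 / 10000000) (70281 / 1000000) a b := B2_nonneg ha hb (by norm_num) (by norm_num) (by norm_num) (by norm_num) (by norm_num) (by norm_num) (by norm_num) (by norm_num) (by norm_num)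
      exact sub_nonneg.1 (h.trans_eq (by unfold B2; ring))
    · have h : 0 ≤ B2 (851 / 6250000) (49371 / 6250000) (1874531 / 400000000) (124137 / 6250000) (2334581 / 50000000) (4135191 / 200000000) (496351 / 100000000) (115847 / 12500000) (490951 / 400000000) a b := B2_nonneg ha hb (by norm_num) (by norm_num) (by norm_num) (by norm_num) (by norm_num) (by norm_num) (by norm_num) (by norm_num) (by norm_num)
      exact sub_nonneg.1 (h.trans_eq (by unfold B2; ring))
    · have h : 0 ≤ B1 (8049 / 85000) (11153 / 85000) (9 / 170000) (6217 / 170000) a b := B1_nonneg ha hb (by norm_num) (by norm_num) (by norm_num) (by norm_num)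
      exact sub_nonneg.1 (h.trans_eq (by unfold B1; ring))
    · have h : 0 ≤ B4 (5315383820718955149 / 320000000000000000000) (40049737923618604583 / 640000000000000000000) (174687988807804167737 / 1920000000000000000000) (116453343304421365403 / 1920000000000000000000) (10007421781053093507 / 640000000000000000000) (40193905819245551883 / 640000000000000000000) (9497379783291282741 / 40000000000000000000) (111358157590292161873 / 320000000000000000000) (7044144583390781887 / 30000000000000000000) (117968819935501985449 / 1920000000000000000000) (54880440275064763179 / 640000000000000000000) (104219288034898856289 / 320000000000000000000) (15443065898549726269 / 32000000000000000000) (105920129720553030471 / 320000000000000000000) (56537077264844484961 / 640000000000000000000) (31637480882664822357 / 640000000000000000000) (7558928945885594609 / 40000000000000000000) (273153738236645248861 / 960000000000000000000) (11987566767110482201 / 60000000000000000000) (35070268942919668957 / 640000000000000000000) (6320178785407700763 / 640000000000000000000) (24412625673413720439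 / 640000000000000000000) (37728159764751908361 / 640000000000000000000) (82453268256805922971 / 1920000000000000000000) (5886532406642064229 / 480000000000000000000) a b := B4_nonneg ha hb (by norm_num) (by norm_num) (by norm_num) (by norm_num) (by norm_num) (by norm_num) (by norm_num) (by norm_num) (by norm_num) (by norm_num) (by norm_num) (by norm_num) (by norm_num) (by norm_num) (by norm_num) (by norm_num) (by norm_num) (by norm_num) (by norm_num) (by norm_num) (by norm_num) (by norm_num) (by norm_num) (by norm_num) (by norm_num)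
      exact sub_nonneg.1 (h.trans_eq (by unfold B4 Q4; ring))

theorem twoa_25 {x y : ℝ} (h0 : 23 / 40 ≤ x) (h1 : x ≤ 59 / 80) (k0 : 71 / 80 ≤ y) (k1 : y ≤ 39 / 40) :
    TwoAny x y := by
  obtain ⟨a, ha, rfl⟩ := affine01 h0 h1 (by norm_num)
  obtain ⟨b, hb, rfl⟩ := affine01 k0 k1 (by norm_num)
  refine ⟨9 / 10, by norm_num, ?_, ?_⟩
  · refine ⟨8 / 17, 8 / 15, 489957 / 1000000, 17 / 15, 5851 / 10000 + 433 / 5000 * a + 12 / 125 * b, 539 / 2500 + (-(217 / 2000)) * a + 679 / 10000 * b, 6229 / 10000 + 639 / 10000 * a + 51 / 1250 * b, (71 / 80 + (39 / 40 - 71 / 80) * b) - (23 / 40 + (59 / 80 - 23 / 40) * a), trigQ_5, ?_, ?_, ?_, ?_, ?_, ?_, ?_, ?_, ?_⟩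
    · have h : 0 ≤ B1 (5851 / 10000) (6811 / 10000) (6717 / 10000) (7677 / 10000) a b := B1_nonneg ha hb (by norm_num) (by norm_num) (by norm_num) (by norm_num)
      exact sub_nonneg.1 (h.trans_eq (by unfold B1; ring))
    · have h : 0 ≤ B1 (3149 / 10000) (2189 / 10000) (2283 / 10000) (1323 / 10000) a b := B1_nonneg ha hb (by norm_num) (by norm_num) (by norm_num) (by norm_num)
      exact sub_nonneg.1 (h.trans_eq (by unfold B1; ring))
    · have h : 0 ≤ B1 (539 / 2500) (567 / 2000) (1071 / 10000) (7 / 40) a b := B1_nonneg ha hb (by norm_num) (by norm_num) (by norm_num) (by norm_num)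
      exact sub_nonneg.1 (h.trans_eq (by unfold B1; ring))
    · have h : 0 ≤ B1 (6229 / 10000) (6637 / 10000) (1717 / 2500) (1819 / 2500) a b := B1_nonneg ha hb (by norm_num) (by norm_num) (by norm_num) (by norm_num)
      exact sub_nonneg.1 (h.trans_eq (by unfold B1; ring))
    · exact le_abs_self _
    · have h : 0 ≤ B2 (1556031 / 400000000) (105173 / 10000000) (411 / 4000000) (2233723 / 100000000) (2310947 / 40000000) (1791 / 80000) (3667 / 50000000) (8407 / 800000) (2503 / 640000) a b := B2_nonneg ha hb (by norm_num) (by norm_num) (by norm_num) (by norm_num) (by norm_num) (by norm_num) (by norm_num) (by norm_num) (by norm_num)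
      exact sub_nonneg.1 (h.trans_eq (by unfold B2; ring))
    · have h : 0 ≤ B2 (72611 / 400000000) (670629 / 100000000) (147303 / 50000000) (1471287 / 200000000) (221851 / 10000000) (383563 / 50000000) (1236679 / 400000000) (731239 / 100000000) (64199 / 100000000) a b := B2_nonneg ha hb (by norm_num) (by norm_num) (by norm_num) (by norm_num) (by norm_num) (by norm_num) (by norm_num) (by norm_num) (by norm_num)
      exact sub_nonneg.1 (h.trans_eq (by unfold B2; ring))
    · have h : 0 ≤ B1 (14529 / 85000) (18369 / 85000) (8361 / 170000) (16041 / 170000) a b := B1_nonneg ha hb (by norm_num) (by norm_num) (by norm_num) (by norm_num)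
      exact sub_nonneg.1 (h.trans_eq (by unfold B1; ring))
    · have h : 0 ≤ B2 (6551962297607 / 200000000000000) (3081533450101 / 50000000000000) (7681595873997 / 200000000000000) (1436366206097 / 50000000000000) (1091902803087 / 25000000000000) (1701151585677 / 50000000000000) (2919343631173 / 200000000000000) (965192708269 / 50000000000000) (2848851573103 / 200000000000000) a b := B2_nonneg ha hb (by norm_num) (by norm_num) (by norm_num) (by norm_num) (by norm_num) (by norm_num) (by norm_num) (by norm_num) (by norm_num)
      exact sub_nonneg.1 (h.trans_eq (by unfold B2; ring))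
  · refine ⟨8 / 17, 8 / 15, 489957 / 1000000, 17 / 15, 2617 / 5000 + 439 / 10000 * a + 117 / 1250 * b, 2507 / 10000 + (-(1193 / 10000)) * a + 97 / 1250 * b, 357 / 625 + 179 / 5000 * a + 27 / 625 * b, (71 / 80 + (39 / 40 - 71 / 80) * b) - (23 / 40 + (59 / 80 - 23 / 40) * a), trigQ_5, ?_, ?_, ?_, ?_, ?_, ?_, ?_, ?_, ?_⟩
    · have h : 0 ≤ B1 (2617 / 5000) (617 / 1000) (5673 / 10000) (6609 / 10000) a b := B1_nonneg ha hb (by norm_num) (by norm_num) (by norm_num) (by norm_num)
      exact sub_nonneg.1 (h.trans_eq (by unfold B1; ring))
    · have h : 0 ≤ B1 (1883 / 5000) (283 / 1000) (3327 / 10000) (2391 / 10000) a b := B1_nonneg ha hb (by norm_num) (by norm_num) (by norm_num) (by norm_num)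
      exact sub_nonneg.1 (h.trans_eq (by unfold B1; ring))
    · have h : 0 ≤ B1 (2507 / 10000) (3283 / 10000) (657 / 5000) (209 / 1000) a b := B1_nonneg ha hb (by norm_num) (by norm_num) (by norm_num) (by norm_num)
      exact sub_nonneg.1 (h.trans_eq (by unfold B1; ring))
    · have h : 0 ≤ B1 (357 / 625) (384 / 625) (607 / 1000) (3251 / 5000) a b := B1_nonneg ha hb (by norm_num) (by norm_num) (by norm_num) (by norm_num)
      exact sub_nonneg.1 (h.trans_eq (by unfold B1; ring))
    · exact le_abs_self _
    · have h : 0 ≤ B2 (11154179 / 400000000) (2827019 / 50000000) (2071911 / 100000000) (3475177 / 50000000) (30959157 / 200000000) (347103 / 5000000) (519601 / 25000000) (565873 / 10000000) (445879 / 16000000) a b := B2_nonneg ha hb (by norm_num) (by norm_num) (by norm_num) (by norm_num) (by norm_num) (by norm_num) (by norm_num) (by norm_num) (by norm_num)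
      exact sub_nonneg.1 (h.trans_eq (by unfold B2; ring))
    · have h : 0 ≤ B2 (86599 / 400000000) (585319 / 100000000) (185639 / 100000000) (137403 / 40000000) (730871 / 50000000) (181087 / 50000000) (30991 / 16000000) (124019 / 20000000) (48371 / 100000000) a b := B2_nonneg ha hb (by norm_num) (by norm_num) (by norm_num) (by norm_num) (by norm_num) (by norm_num) (by norm_num) (by norm_num) (by norm_num)
      exact sub_nonneg.1 (h.trans_eq (by unfold B2; ring))
    · have h : 0 ≤ B1 (12061 / 85000) (3161 / 17000) (9 / 170000) (441 / 10000) a b := B1_nonneg ha hb (by norm_num) (by norm_num) (by norm_num) (by norm_num)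
      exact sub_nonneg.1 (h.trans_eq (by unfold B1; ring))
    · have h : 0 ≤ B4 (785727310530987913 / 40000000000000000000) (37821094823460504247 / 480000000000000000000) (9729370535851537521 / 80000000000000000000) (2732807200382316149 / 32000000000000000000) (3440078714910677 / 150000000000000000) (77114007432098199263 / 960000000000000000000) (319115149900949909 / 1000000000000000000) (156395139544883902887 / 320000000000000000000) (163839758203121777827 / 480000000000000000000) (2924354474813518679 / 32000000000000000000) (243073145216023946617 / 1920000000000000000000) (191025213041268706753 / 384000000000000000000) (482732996975635236201 / 640000000000000000000) (1003025210468725839979 / 1920000000000000000000) (66719784883034929631 / 480000000000000000000) (59049664623587497493 / 640000000000000000000) (918126402394666829 / 2560000000000000000) (172044611323962243403 / 320000000000000000000) (117859244704860447317 / 320000000000000000000) (12422240547375123517 / 128000000000000000000) (4215746051120627047 / 160000000000000000000) (64961815035212798759 /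 640000000000000000000) (96311540475244756211 / 640000000000000000000) (65173619516661662097 / 640000000000000000000) (16960909872147196457 / 640000000000000000000) a b := B4_nonneg ha hb (by norm_num) (by norm_num) (by norm_num) (by norm_num) (by norm_num) (by norm_num) (by norm_num) (by norm_num) (by norm_num) (by norm_num) (by norm_num) (by norm_num) (by norm_num) (by norm_num) (by norm_num) (by norm_num) (by norm_num) (by norm_num) (by norm_num) (by norm_num) (by norm_num) (by norm_num) (by norm_num) (by norm_num) (by norm_num)
      exact sub_nonneg.1 (h.trans_eq (by unfold B4 Q4; ring))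

theorem twoa_23 {x y : ℝ} (h0 : 23 / 40 ≤ x) (h1 : x ≤ 59 / 80) (k0 : 4 / 5 ≤ y) (k1 : y ≤ 39 / 40) :
    CenXY x y ∨ TwoAny x y := by
  rcases le_total y (71 / 80) with h | h
  · exact Or.inr (twoa_24 h0 h1 k0 h)
  · exact Or.inr (twoa_25 h0 h1 h k1)

theorem twoa_28 {x y : ℝ} (h0 : 59 / 80 ≤ x) (h1 : x ≤ 131 / 160) (k0 : 4 / 5 ≤ y) (k1 : y ≤ 71 / 80) :
    TwoAny x y := by
  obtain ⟨a, ha, rfl⟩ := affine01 h0 h1 (by norm_num)
  obtain ⟨b, hb, rfl⟩ := affine01 k0 k1 (by norm_num)
  refine ⟨9 / 10, by norm_num, ?_, ?_⟩
  · refine ⟨120 / 241, 120 / 209, 130301 / 250000, 241 / 209, 5959 / 10000 + 37 / 625 * a + 49 / 625 * b, 559 / 10000 + (-(559 / 10000)) * a + 63 / 1000 * b, 6601 / 10000 + 53 / 1250 * a + 149 / 5000 * b, (4 / 5 + (71 / 80 - 4 / 5) * b) - (59 / 80 + (131 / 160 - 59 / 80) * a), trigQ_12, ?_, ?_, ?_, ?_, ?_, ?_, ?_, ?_, ?_⟩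
    · have h : 0 ≤ B1 (5959 / 10000) (6743 / 10000) (6551 / 10000) (1467 / 2000) a b := B1_nonneg ha hb (by norm_num) (by norm_num) (by norm_num) (by norm_num)
      exact sub_nonneg.1 (h.trans_eq (by unfold B1; ring))
    · have h : 0 ≤ B1 (3041 / 10000) (2257 / 10000) (2449 / 10000) (333 / 2000) a b := B1_nonneg ha hb (by norm_num) (by norm_num) (by norm_num) (by norm_num)
      exact sub_nonneg.1 (h.trans_eq (by unfold B1; ring))
    · have h : 0 ≤ B1 (559 / 10000) (1189 / 10000) (0) (63 / 1000) a b := B1_nonneg ha hb (by norm_num) (by norm_num) (by norm_num) (by norm_num)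
      exact sub_nonneg.1 (h.trans_eq (by unfold B1; ring))
    · have h : 0 ≤ B1 (6601 / 10000) (6899 / 10000) (281 / 400) (7323 / 10000) a b := B1_nonneg ha hb (by norm_num) (by norm_num) (by norm_num) (by norm_num)
      exact sub_nonneg.1 (h.trans_eq (by unfold B1; ring))
    · exact le_abs_self _
    · have h : 0 ≤ B2 (719451 / 400000000) (768823 / 100000000) (327 / 50000000) (843 / 128000) (1987403 / 80000000) (259619 / 40000000) (31 / 2560000) (9733 / 1280000) (109359 / 64000000) a b := B2_nonneg ha hb (by norm_num) (by norm_num) (by norm_num) (by norm_num) (by norm_num) (by norm_num) (by norm_num) (by norm_num) (by norm_num)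
      exact sub_nonneg.1 (h.trans_eq (by unfold B2; ring))
    · have h : 0 ≤ B2 (16799 / 100000000) (219701 / 50000000) (569571 / 400000000) (7119 / 2000000) (317701 / 25000000) (708867 / 200000000) (51 / 32000) (9437 / 2000000) (129059 / 400000000) a b := B2_nonneg ha hb (by norm_num) (by norm_num) (by norm_num) (by norm_num) (by norm_num) (by norm_num) (by norm_num) (by norm_num) (by norm_num)
      exact sub_nonneg.1 (h.trans_eq (by unfold B2; ring))
    · have h : 0 ≤ B1 (27541 / 482000) (46357 / 482000) (5173 / 964000) (8561 / 192800) a b := B1_nonneg ha hb (by norm_num) (by norm_num) (by norm_num) (by norm_num)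
      exact sub_nonneg.1 (h.trans_eq (by unfold B1; ring))
    · have h : 0 ≤ B2 (398314846973183 / 20900000000000000) (551920221278157 / 20900000000000000) (161882466191791 / 10450000000000000) (1161227756481623 / 41800000000000000) (618141826573613 / 20900000000000000) (151138825796007 / 8360000000000000) (592515221864361 / 41800000000000000) (3676734557807 / 261250000000000) (13443256941679 / 1672000000000000) a b := B2_nonneg ha hb (by norm_num) (by norm_num) (by norm_num) (by norm_num) (by norm_num) (by norm_num) (by norm_num) (by norm_num) (by norm_num)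
      exact sub_nonneg.1 (h.trans_eq (by unfold B2; ring))
  · refine ⟨28 / 53, 28 / 45, 556599 / 1000000, 53 / 45, 5071 / 10000 + 107 / 2500 * a + 17 / 250 * b, 663 / 10000 + (-(663 / 10000)) * a + 377 / 5000 * b, 589 / 1000 + 69 / 2000 * a + 251 / 10000 * b, (4 / 5 + (71 / 80 - 4 / 5) * b) - (59 / 80 + (131 / 160 - 59 / 80) * a), trigQ_11, ?_, ?_, ?_, ?_, ?_, ?_, ?_, ?_, ?_⟩
    · have h : 0 ≤ B1 (5071 / 10000) (5751 / 10000) (5499 / 10000) (6179 / 10000) a b := B1_nonneg ha hb (by norm_num) (by norm_num) (by norm_num) (by norm_num)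
      exact sub_nonneg.1 (h.trans_eq (by unfold B1; ring))
    · have h : 0 ≤ B1 (3929 / 10000) (3249 / 10000) (3501 / 10000) (2821 / 10000) a b := B1_nonneg ha hb (by norm_num) (by norm_num) (by norm_num) (by norm_num)
      exact sub_nonneg.1 (h.trans_eq (by unfold B1; ring))
    · have h : 0 ≤ B1 (663 / 10000) (1417 / 10000) (0) (377 / 5000) a b := B1_nonneg ha hb (by norm_num) (by norm_num) (by norm_num) (by norm_num)
      exact sub_nonneg.1 (h.trans_eq (by unfold B1; ring))
    · have h : 0 ≤ B1 (589 / 1000) (6141 / 10000) (1247 / 2000) (3243 / 5000) a b := B1_nonneg ha hb (by norm_num) (by norm_num) (by norm_num) (by norm_num)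
      exact sub_nonneg.1 (h.trans_eq (by unfold B1; ring))
    · exact le_abs_self _
    · have h : 0 ≤ B2 (11891099 / 400000000) (394363 / 6250000) (2577111 / 100000000) (7883 / 128000) (55328909 / 400000000) (6153789 / 100000000) (66079 / 2560000) (80809 / 1280000) (47553119 / 1600000000) a b := B2_nonneg ha hb (by norm_num) (by norm_num) (by norm_num) (by norm_num) (by norm_num) (by norm_num) (by norm_num) (by norm_num) (by norm_num)
      exact sub_nonneg.1 (h.trans_eq (by unfold B2; ring))
    · have h : 0 ≤ B2 (179 / 1000000) (18951 / 5000000) (426851 / 400000000) (2517 / 1000000) (20333 / 2000000) (512271 / 200000000) (4591 / 4000000) (19979 / 5000000) (121591 / 400000000) a b := B2_nonneg ha hb (by norm_num) (by norm_num) (by norm_num) (by norm_num) (by norm_num) (by norm_num) (by norm_num) (by norm_num) (by norm_num)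
      exact sub_nonneg.1 (h.trans_eq (by unfold B2; ring))
    · have h : 0 ≤ B1 (31113 / 530000) (50153 / 530000) (69 / 1060000) (38149 / 1060000) a b := B1_nonneg ha hb (by norm_num) (by norm_num) (by norm_num) (by norm_num)
      exact sub_nonneg.1 (h.trans_eq (by unfold B1; ring))
    · have h : 0 ≤ B4 (16059497089663202689 / 640000000000000000000) (62195630430234597021 / 640000000000000000000) (277213925278337964337 / 1920000000000000000000) (562024203067114753259 / 5760000000000000000000) (36401906824310852309 / 1440000000000000000000) (132242718232088741093 / 1280000000000000000000) (15920891169059059941 / 40000000000000000000) (3387904503645970605001 / 5760000000000000000000) (569469015394551953791 / 1440000000000000000000) (391658436154895004499 / 3840000000000000000000) (6459246732734184823 / 40000000000000000000) (74292339157816240921 / 120000000000000000000) (436814234326400404471 / 480000000000000000000) (48684105137169947399 / 80000000000000000000) (24982930778358008577 / 160000000000000000000) (145451873776809975757 / 1280000000000000000000) (208241913758281683833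 / 480000000000000000000) (1218275419825629227783 / 1920000000000000000000) (151912528923774842021 / 360000000000000000000) (1240287472814490208153 / 11520000000000000000000) (2429981398879899821 / 80000000000000000000) (221906113332197966701 / 1920000000000000000000) (969318175371039541687 / 5760000000000000000000) (641196751415254321513 / 5760000000000000000000) (54212751773818630939 / 1920000000000000000000) a b := B4_nonneg ha hb (by norm_num) (by norm_num) (by norm_num) (by norm_num) (by norm_num) (by norm_num) (by norm_num) (by norm_num) (by norm_num) (by norm_num) (by norm_num) (by norm_num) (by norm_num) (by norm_num) (by norm_num) (by norm_num) (by norm_num) (by norm_num) (by norm_num) (by norm_num) (by norm_num) (by norm_num) (by norm_num) (by norm_num) (by norm_num)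
      exact sub_nonneg.1 (h.trans_eq (by unfold B4 Q4; ring))

theorem twoa_29 {x y : ℝ} (h0 : 131 / 160 ≤ x) (h1 : x ≤ 9 / 10) (k0 : 4 / 5 ≤ y) (k1 : y ≤ 71 / 80) :
    TwoAny x y := by
  obtain ⟨a, ha, rfl⟩ := affine01 h0 h1 (by norm_num)
  obtain ⟨b, hb, rfl⟩ := affine01 k0 k1 (by norm_num)
  refine ⟨9 / 10, by norm_num, ?_, ?_⟩
  · refine ⟨28 / 53, 28 / 45, 556599 / 1000000, 53 / 45, 821 / 1250 + 181 / 2500 * a + 713 / 10000 * b, 203 / 5000 + 397 / 10000 * a + (-(81 / 2000)) * b, 7047 / 10000 + 61 / 1250 * a + 29 / 1250 * b, (131 / 160 + (9 / 10 - 131 / 160) * a) - (4 / 5 + (71 / 80 - 4 / 5) * b), trigQ_11, ?_, ?_, ?_, ?_, ?_, ?_, ?_, ?_, ?_⟩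
    · have h : 0 ≤ B1 (821 / 1250) (7281 / 10000) (1823 / 2500) (1601 / 2000) a b := B1_nonneg ha hb (by norm_num) (by norm_num) (by norm_num) (by norm_num)
      exact sub_nonneg.1 (h.trans_eq (by unfold B1; ring))
    · have h : 0 ≤ B1 (152 / 625) (1719 / 10000) (427 / 2500) (199 / 2000) a b := B1_nonneg ha hb (by norm_num) (by norm_num) (by norm_num) (by norm_num)
      exact sub_nonneg.1 (h.trans_eq (by unfold B1; ring))
    · have h : 0 ≤ B1 (203 / 5000) (1 / 10000) (803 / 10000) (199 / 5000) a b := B1_nonneg ha hb (by norm_num) (by norm_num) (by norm_num) (by norm_num)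
      exact sub_nonneg.1 (h.trans_eq (by unfold B1; ring))
    · have h : 0 ≤ B1 (7047 / 10000) (7279 / 10000) (1507 / 2000) (7767 / 10000) a b := B1_nonneg ha hb (by norm_num) (by norm_num) (by norm_num) (by norm_num)
      exact sub_nonneg.1 (h.trans_eq (by unfold B1; ring))
    · rw [abs_sub_comm]; exact le_abs_self _
    · have h : 0 ≤ B2 (101999 / 1600000000) (3116629 / 800000000) (444359 / 1600000000) (177107 / 50000000) (5712747 / 400000000) (1452441 / 400000000) (25191 / 100000000) (12291 / 3125000) (50759 / 400000000) a b := B2_nonneg ha hb (by norm_num) (by norm_num) (by norm_num) (by norm_num) (by norm_num) (by norm_num) (by norm_num) (by norm_num) (by norm_num)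
      exact sub_nonneg.1 (h.trans_eq (by unfold B2; ring))
    · have h : 0 ≤ B2 (19791 / 100000000) (199887 / 50000000) (539011 / 400000000) (40171 / 10000000) (324343 / 25000000) (810403 / 200000000) (5751 / 4000000) (42131 / 10000000) (129219 / 400000000) a b := B2_nonneg ha hb (by norm_num) (by norm_num) (by norm_num) (by norm_num) (by norm_num) (by norm_num) (by norm_num) (by norm_num) (by norm_num)
      exact sub_nonneg.1 (h.trans_eq (by unfold B2; ring))
    · have h : 0 ≤ B1 (59933 / 1060000) (99861 / 1060000) (897 / 66250) (1357 / 26500) a b := B1_nonneg ha hb (by norm_num) (by norm_num) (by norm_num) (by norm_num)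
      exact sub_nonneg.1 (h.trans_eq (by unfold B1; ring))
    · have h : 0 ≤ B2 (3251144923373 / 225000000000000) (9366087401777 / 600000000000000) (336761251191 / 50000000000000) (3075538620491 / 150000000000000) (27720913601419 / 1800000000000000) (725536973639 / 120000000000000) (134299767071 / 12500000000000) (34388283739 / 3750000000000) (288060478441 / 72000000000000) a b := B2_nonneg ha hb (by norm_num) (by norm_num) (by norm_num) (by norm_num) (by norm_num) (by norm_num) (by norm_num) (by norm_num) (by norm_num)
      exact sub_nonneg.1 (h.trans_eq (by unfold B2; ring))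
  · refine ⟨3 / 5, 3 / 4, 643501 / 1000000, 5 / 4, 211 / 400 + 299 / 5000 * a + 551 / 10000 * b, 467 / 10000 + 461 / 10000 * a + (-(233 / 5000)) * b, 6061 / 10000 + 469 / 10000 * a + 143 / 10000 * b, (131 / 160 + (9 / 10 - 131 / 160) * a) - (4 / 5 + (71 / 80 - 4 / 5) * b), trigQ_6, ?_, ?_, ?_, ?_, ?_, ?_, ?_, ?_, ?_⟩
    · have h : 0 ≤ B1 (211 / 400) (2913 / 5000) (5873 / 10000) (803 / 1250) a b := B1_nonneg ha hb (by norm_num) (by norm_num) (by norm_num) (by norm_num)
      exact sub_nonneg.1 (h.trans_eq (by unfold B1; ring))
    · have h : 0 ≤ B1 (149 / 400) (1587 / 5000) (3127 / 10000) (161 / 625) a b := B1_nonneg ha hb (by norm_num) (by norm_num) (by norm_num) (by norm_num)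
      exact sub_nonneg.1 (h.trans_eq (by unfold B1; ring))
    · have h : 0 ≤ B1 (467 / 10000) (1 / 10000) (58 / 625) (231 / 5000) a b := B1_nonneg ha hb (by norm_num) (by norm_num) (by norm_num) (by norm_num)
      exact sub_nonneg.1 (h.trans_eq (by unfold B1; ring))
    · have h : 0 ≤ B1 (6061 / 10000) (1551 / 2500) (653 / 1000) (6673 / 10000) a b := B1_nonneg ha hb (by norm_num) (by norm_num) (by norm_num) (by norm_num)
      exact sub_nonneg.1 (h.trans_eq (by unfold B1; ring))
    · rw [abs_sub_comm]; exact le_abs_self _
    · have h : 0 ≤ B2 (1969951 / 1600000000) (4338153 / 800000000) (169359 / 1600000000) (259749 / 50000000) (7389669 / 400000000) (2043179 / 400000000) (147 / 781250) (137507 / 25000000) (490599 / 400000000) a b := B2_nonneg ha hb (by norm_num) (by norm_num) (by norm_num) (by norm_num) (by norm_num) (by norm_num) (by norm_num) (by norm_num) (by norm_num)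
      exact sub_nonneg.1 (h.trans_eq (by unfold B2; ring))
    · have h : 0 ≤ B2 (14279 / 100000000) (38139 / 12500000) (315911 / 400000000) (16167 / 5000000) (532827 / 50000000) (637207 / 200000000) (891 / 1000000) (16031 / 5000000) (78659 / 400000000) a b := B2_nonneg ha hb (by norm_num) (by norm_num) (by norm_num) (by norm_num) (by norm_num) (by norm_num) (by norm_num) (by norm_num) (by norm_num)
      exact sub_nonneg.1 (h.trans_eq (by unfold B2; ring))
    · have h : 0 ≤ B1 (391 / 4000) (13081 / 100000) (2619 / 50000) (267 / 3125) a b := B1_nonneg ha hb (by norm_num) (by norm_num) (by norm_num) (by norm_num)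
      exact sub_nonneg.1 (h.trans_eq (by unfold B1; ring))
    · have h : 0 ≤ B4 (38064711159114637 / 1024000000000000000) (7371289213937285953 / 51200000000000000000) (16893560101713961579 / 80000000000000000000) (178054845073334951503 / 1280000000000000000000) (22229612422725209407 / 640000000000000000000) (7842471194351233819 / 51200000000000000000) (189762312000355123311 / 320000000000000000000) (222565020957060707937 / 256000000000000000000) (366342906637157375669 / 640000000000000000000) (91424088315825429711 / 640000000000000000000) (152618374628660919903 / 640000000000000000000) (1181542350487762998243 / 1280000000000000000000) (216467131258452382071 / 160000000000000000000) (1139698388110505132331 / 1280000000000000000000) (1421334696366636171 / 6400000000000000000) (1702944819061447977 / 10240000000000000000) (412045714480109893903 / 640000000000000000000) (241544991636372209753 / 256000000000000000000) (198646066821658123103 / 320000000000000000000) (24760329460288779291 / 160000000000000000000) (3507015252202919159 / 80000000000000000000) (108658048062722566991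 / 640000000000000000000) (159258025636061073309 / 640000000000000000000) (52379211844276789979 / 320000000000000000000) (1631395256099482523 / 40000000000000000000) a b := B4_nonneg ha hb (by norm_num) (by norm_num) (by norm_num) (by norm_num) (by norm_num) (by norm_num) (by norm_num) (by norm_num) (by norm_num) (by norm_num) (by norm_num) (by norm_num) (by norm_num) (by norm_num) (by norm_num) (by norm_num) (by norm_num) (by norm_num) (by norm_num) (by norm_num) (by norm_num) (by norm_num) (by norm_num) (by norm_num) (by norm_num)
      exact sub_nonneg.1 (h.trans_eq (by unfold B4 Q4; ring))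

theorem twoa_27 {x y : ℝ} (h0 : 59 / 80 ≤ x) (h1 : x ≤ 9 / 10) (k0 : 4 / 5 ≤ y) (k1 : y ≤ 71 / 80) :
    CenXY x y ∨ TwoAny x y := by
  rcases le_total x (131 / 160) with h | h
  · exact Or.inr (twoa_28 h0 h k0 k1)
  · exact Or.inr (twoa_29 h h1 k0 k1)

theorem twoa_31 {x y : ℝ} (h0 : 59 / 80 ≤ x) (h1 : x ≤ 131 / 160) (k0 : 71 / 80 ≤ y) (k1 : y ≤ 39 / 40) :
    TwoAny x y := by
  obtain ⟨a, ha, rfl⟩ := affine01 h0 h1 (by norm_num)
  obtain ⟨b, hb, rfl⟩ := affine01 k0 k1 (by norm_num)
  refine ⟨9 / 10, by norm_num, ?_, ?_⟩
  · refine ⟨120 / 241, 120 / 209, 130301 / 250000, 241 / 209, 421 / 625 + 567 / 10000 * a + 899 / 10000 * b, 529 / 5000 + (-(143 / 2500)) * a + 17 / 250 * b, 6903 / 10000 + 39 / 1000 * a + 169 / 5000 * b, (71 / 80 + (39 / 40 - 71 / 80) * b) - (59 / 80 + (131 / 160 - 59 / 80) * a), trigQ_12, ?_, ?_, ?_, ?_, ?_, ?_, ?_, ?_, ?_⟩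
    · have h : 0 ≤ B1 (421 / 625) (1527 / 2000) (7303 / 10000) (4101 / 5000) a b := B1_nonneg ha hb (by norm_num) (by norm_num) (by norm_num) (by norm_num)
      exact sub_nonneg.1 (h.trans_eq (by unfold B1; ring))
    · have h : 0 ≤ B1 (283 / 1250) (273 / 2000) (1697 / 10000) (399 / 5000) a b := B1_nonneg ha hb (by norm_num) (by norm_num) (by norm_num) (by norm_num)
      exact sub_nonneg.1 (h.trans_eq (by unfold B1; ring))
    · have h : 0 ≤ B1 (529 / 5000) (869 / 5000) (243 / 5000) (583 / 5000) a b := B1_nonneg ha hb (by norm_num) (by norm_num) (by norm_num) (by norm_num)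
      exact sub_nonneg.1 (h.trans_eq (by unfold B1; ring))
    · have h : 0 ≤ B1 (6903 / 10000) (7241 / 10000) (7293 / 10000) (7631 / 10000) a b := B1_nonneg ha hb (by norm_num) (by norm_num) (by norm_num) (by norm_num)
      exact sub_nonneg.1 (h.trans_eq (by unfold B1; ring))
    · exact le_abs_self _
    · have h : 0 ≤ B2 (225011 / 100000000) (891767 / 100000000) (51799 / 400000000) (1457623 / 200000000) (11054257 / 400000000) (2908561 / 400000000) (185239 / 1600000000) (7098809 / 800000000) (3551479 / 1600000000) a b := B2_nonneg ha hb (by norm_num) (by norm_num) (by norm_num) (by norm_num) (by norm_num) (by norm_num) (by norm_num) (by norm_num) (by norm_num)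
      exact sub_nonneg.1 (h.trans_eq (by unfold B2; ring))
    · have h : 0 ≤ B2 (68739 / 400000000) (475129 / 100000000) (76147 / 50000000) (640059 / 200000000) (628969 / 50000000) (20413 / 6250000) (602979 / 400000000) (478609 / 100000000) (11107 / 50000000) a b := B2_nonneg ha hb (by norm_num) (by norm_num) (by norm_num) (by norm_num) (by norm_num) (by norm_num) (by norm_num) (by norm_num) (by norm_num)
      exact sub_nonneg.1 (h.trans_eq (by unfold B2; ring))
    · have h : 0 ≤ B1 (46189 / 482000) (13553 / 96400) (41269 / 964000) (84421 / 964000) a b := B1_nonneg ha hb (by norm_num) (by norm_num) (by norm_num) (by norm_num)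
      exact sub_nonneg.1 (h.trans_eq (by unfold B1; ring))
    · have h : 0 ≤ B2 (23168483453 / 1562500000000) (109339176897 / 5000000000000) (13329940705297 / 836000000000000) (448823484533 / 25000000000000) (730579981487069 / 41800000000000000) (144919337365813 / 8360000000000000) (358165838777399 / 41800000000000000) (271576946573907 / 41800000000000000) (142817946768547 / 20900000000000000) a b := B2_nonneg ha hb (by norm_num) (by norm_num) (by norm_num) (by norm_num) (by norm_num) (by norm_num) (by norm_num) (by norm_num) (by norm_num)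
      exact sub_nonneg.1 (h.trans_eq (by unfold B2; ring))
  · refine ⟨120 / 241, 120 / 209, 130301 / 250000, 241 / 209, 2877 / 5000 + 69 / 1000 * a + 831 / 10000 * b, 109 / 1250 + 99 / 10000 * a + 823 / 10000 * b, 6151 / 10000 + 131 / 2500 * a + 161 / 5000 * b, (71 / 80 + (39 / 40 - 71 / 80) * b) - (59 / 80 + (131 / 160 - 59 / 80) * a), trigQ_12, ?_, ?_, ?_, ?_, ?_, ?_, ?_, ?_, ?_⟩
    · have h : 0 ≤ B1 (2877 / 5000) (1317 / 2000) (1611 / 2500) (291 / 400) a b := B1_nonneg ha hb (by norm_num) (by norm_num) (by norm_num) (by norm_num)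
      exact sub_nonneg.1 (h.trans_eq (by unfold B1; ring))
    · have h : 0 ≤ B1 (1623 / 5000) (483 / 2000) (639 / 2500) (69 / 400) a b := B1_nonneg ha hb (by norm_num) (by norm_num) (by norm_num) (by norm_num)
      exact sub_nonneg.1 (h.trans_eq (by unfold B1; ring))
    · have h : 0 ≤ B1 (109 / 1250) (339 / 2000) (971 / 10000) (897 / 5000) a b := B1_nonneg ha hb (by norm_num) (by norm_num) (by norm_num) (by norm_num)
      exact sub_nonneg.1 (h.trans_eq (by unfold B1; ring))
    · have h : 0 ≤ B1 (6151 / 10000) (6473 / 10000) (267 / 400) (6997 / 10000) a b := B1_nonneg ha hb (by norm_num) (by norm_num) (by norm_num) (by norm_num)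
      exact sub_nonneg.1 (h.trans_eq (by unfold B1; ring))
    · exact le_abs_self _
    · have h : 0 ≤ B2 (481827 / 12500000) (876517 / 10000000) (646691 / 16000000) (9277201 / 100000000) (81160171 / 400000000) (7420297 / 80000000) (83963919 / 1600000000) (89401541 / 800000000) (80939399 / 1600000000) a b := B2_nonneg ha hb (by norm_num) (by norm_num) (by norm_num) (by norm_num) (by norm_num) (by norm_num) (by norm_num) (by norm_num) (by norm_num)
      exact sub_nonneg.1 (h.trans_eq (by unfold B2; ring))
    · have h : 0 ≤ B2 (55171 / 400000000) (493529 / 100000000) (92323 / 50000000) (38507 / 8000000) (778553 / 50000000) (121397 / 25000000) (247 / 128000) (20577 / 4000000) (13183 / 50000000) a b := B2_nonneg ha hb (by norm_num) (by norm_num) (by norm_num) (by norm_num) (by norm_num) (by norm_num) (by norm_num) (by norm_num) (by norm_num)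
      exact sub_nonneg.1 (h.trans_eq (by unfold B2; ring))
    · have h : 0 ≤ B1 (22621 / 482000) (8513 / 96400) (37 / 964000) (1597 / 38560) a b := B1_nonneg ha hb (by norm_num) (by norm_num) (by norm_num) (by norm_num)
      exact sub_nonneg.1 (h.trans_eq (by unfold B1; ring))
    · have h : 0 ≤ B4 (23395150140673197157 / 1045000000000000000000) (722287422747393321617 / 8360000000000000000000) (4304224317862018885739 / 33440000000000000000000) (1173915982500352558403 / 13376000000000000000000) (61685641990151479017 / 2675200000000000000000) (296483295356903416031 / 3344000000000000000000) (458451488677296705589 / 1337600000000000000000) (856211588471533388181 / 1672000000000000000000) (2344155680859559248131 / 6688000000000000000000) (61860017964610239129 / 668800000000000000000) (17583035980004285757039 / 133760000000000000000000) (7168615567068362115999 / 14080000000000000000000) (204144568272665548615803 / 267520000000000000000000) (5612178939438386662887 / 10700800000000000000000) (1487901161103377065851 / 10700800000000000000000) (11569701113165272357217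 / 133760000000000000000000) (44907875122784776400669 / 133760000000000000000000) (67541222469052440559037 / 133760000000000000000000) (9325000566048389862067 / 26752000000000000000000) (49687817483236051179 / 535040000000000000000) (6821573515385057429 / 320000000000000000000) (22189154678813427423413 / 267520000000000000000000) (33497936277988523525319 / 267520000000000000000000) (929337590355982032227 / 10700800000000000000000) (9954916321380074709 / 428032000000000000000) a b := B4_nonneg ha hb (by norm_num) (by norm_num) (by norm_num) (by norm_num) (by norm_num) (by norm_num) (by norm_num) (by norm_num) (by norm_num) (by norm_num) (by norm_num) (by norm_num) (by norm_num) (by norm_num) (by norm_num) (by norm_num) (by norm_num) (by norm_num) (by norm_num) (by norm_num) (by norm_num) (by norm_num) (by norm_num) (by norm_num) (by norm_num)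
      exact sub_nonneg.1 (h.trans_eq (by unfold B4 Q4; ring))

theorem twoa_30 {x y : ℝ} (h0 : 59 / 80 ≤ x) (h1 : x ≤ 9 / 10) (k0 : 71 / 80 ≤ y) (k1 : y ≤ 39 / 40) :
    CenXY x y ∨ TwoAny x y := by
  rcases le_total x (131 / 160) with h | h
  · exact Or.inr (twoa_31 h0 h k0 k1)
  · exact Or.inl ⟨by linarith, by linarith, by linarith, by linarith⟩

theorem twoa_26 {x y : ℝ} (h0 : 59 / 80 ≤ x) (h1 : x ≤ 9 / 10) (k0 : 4 / 5 ≤ y) (k1 : y ≤ 39 / 40) :
    CenXY x y ∨ TwoAny x y := by
  rcases le_total y (71 / 80) with h | h
  · exact twoa_27 h0 h1 k0 h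
  · exact twoa_30 h0 h1 h k1

theorem twoa_22 {x y : ℝ} (h0 : 23 / 40 ≤ x) (h1 : x ≤ 9 / 10) (k0 : 4 / 5 ≤ y) (k1 : y ≤ 39 / 40) :
    CenXY x y ∨ TwoAny x y := by
  rcases le_total x (59 / 80) with h | h
  · exact twoa_23 h0 h k0 k1
  · exact twoa_26 h h1 k0 k1

theorem twoa_34 {x y : ℝ} (h0 : 23 / 40 ≤ x) (h1 : x ≤ 59 / 80) (k0 : 39 / 40 ≤ y) (k1 : y ≤ 23 / 20) :
    TwoAny x y := by
  obtain ⟨a, ha, rfl⟩ := affine01 h0 h1 (by norm_num)
  obtain ⟨b, hb, rfl⟩ := affine01 k0 k1 (by norm_num)
  refine ⟨11 / 10, by norm_num, ?_, ?_⟩
  · refine ⟨8 / 17, 8 / 15, 489957 / 1000000, 17 / 15, 429 / 625 + 787 / 10000 * a + 2323 / 10000 * b, 1403 / 5000 + (-(1021 / 10000)) * a + 687 / 5000 * b, 6697 / 10000 + 263 / 5000 * a + 187 / 2000 * b, (39 / 40 + (23 / 20 - 39 / 40) * b) - (23 / 40 + (59 / 80 - 23 / 40) * a), trigQ_5, ?_, ?_, ?_, ?_, ?_, ?_, ?_, ?_, ?_⟩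
    · have h : 0 ≤ B1 (429 / 625) (9187 / 10000) (7651 / 10000) (4987 / 5000) a b := B1_nonneg ha hb (by norm_num) (by norm_num) (by norm_num) (by norm_num)
      exact sub_nonneg.1 (h.trans_eq (by unfold B1; ring))
    · have h : 0 ≤ B1 (517 / 1250) (1813 / 10000) (3349 / 10000) (513 / 5000) a b := B1_nonneg ha hb (by norm_num) (by norm_num) (by norm_num) (by norm_num)
      exact sub_nonneg.1 (h.trans_eq (by unfold B1; ring))
    · have h : 0 ≤ B1 (1403 / 5000) (209 / 500) (357 / 2000) (3159 / 10000) a b := B1_nonneg ha hb (by norm_num) (by norm_num) (by norm_num) (by norm_num)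
      exact sub_nonneg.1 (h.trans_eq (by unfold B1; ring))
    · have h : 0 ≤ B1 (6697 / 10000) (477 / 625) (7223 / 10000) (4079 / 5000) a b := B1_nonneg ha hb (by norm_num) (by norm_num) (by norm_num) (by norm_num)
      exact sub_nonneg.1 (h.trans_eq (by unfold B1; ring))
    · exact le_abs_self _
    · have h : 0 ≤ B2 (87983 / 12500000) (168217 / 5000000) (279 / 4000000) (241383 / 10000000) (10124717 / 100000000) (480777 / 20000000) (1179 / 16000000) (1342073 / 40000000) (2777251 / 400000000) a b := B2_nonneg ha hb (by norm_num) (by norm_num) (by norm_num) (by norm_num) (by norm_num) (by norm_num) (by norm_num) (by norm_num) (by norm_num)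
      exact sub_nonneg.1 (h.trans_eq (by unfold B2; ring))
    · have h : 0 ≤ B2 (12283 / 50000000) (556123 / 25000000) (140019 / 25000000) (27309 / 3125000) (1278719 / 25000000) (120161 / 12500000) (286323 / 50000000) (292129 / 12500000) (15567 / 12500000) a b := B2_nonneg ha hb (by norm_num) (by norm_num) (by norm_num) (by norm_num) (by norm_num) (by norm_num) (by norm_num) (by norm_num) (by norm_num)
      exact sub_nonneg.1 (h.trans_eq (by unfold B2; ring))
    · have h : 0 ≤ B1 (1093 / 5000) (27873 / 85000) (15833 / 170000) (34417 / 170000) a b := B1_nonneg ha hb (by norm_num) (by norm_num) (by norm_num) (by norm_num)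
      exact sub_nonneg.1 (h.trans_eq (by unfold B1; ring))
    · have h : 0 ≤ B2 (41538471043 / 1171875000000) (698017133697 / 12500000000000) (12144975969833 / 200000000000000) (1200062700143 / 37500000000000) (3673611069079 / 150000000000000) (7314841067691 / 100000000000000) (8054875865921 / 600000000000000) (716380767079 / 300000000000000) (2196961041787 / 75000000000000) a b := B2_nonneg ha hb (by norm_num) (by norm_num) (by norm_num) (by norm_num) (by norm_num) (by norm_num) (by norm_num) (by norm_num) (by norm_num)
      exact sub_nonneg.1 (h.trans_eq (by unfold B2; ring))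
  · refine ⟨8 / 17, 8 / 15, 489957 / 1000000, 17 / 15, 241 / 400 + 347 / 10000 * a + 2297 / 10000 * b, 3209 / 10000 + (-(64 / 625)) * a + 1487 / 10000 * b, 6039 / 10000 + 129 / 5000 * a + 1021 / 10000 * b, (39 / 40 + (23 / 20 - 39 / 40) * b) - (23 / 40 + (59 / 80 - 23 / 40) * a), trigQ_5, ?_, ?_, ?_, ?_, ?_, ?_, ?_, ?_, ?_⟩
    · have h : 0 ≤ B1 (241 / 400) (4161 / 5000) (1593 / 2500) (8669 / 10000) a b := B1_nonneg ha hb (by norm_num) (by norm_num) (by norm_num) (by norm_num)
      exact sub_nonneg.1 (h.trans_eq (by unfold B1; ring))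
    · have h : 0 ≤ B1 (199 / 400) (1339 / 5000) (1157 / 2500) (2331 / 10000) a b := B1_nonneg ha hb (by norm_num) (by norm_num) (by norm_num) (by norm_num)
      exact sub_nonneg.1 (h.trans_eq (by unfold B1; ring))
    · have h : 0 ≤ B1 (3209 / 10000) (587 / 1250) (437 / 2000) (459 / 1250) a b := B1_nonneg ha hb (by norm_num) (by norm_num) (by norm_num) (by norm_num)
      exact sub_nonneg.1 (h.trans_eq (by unfold B1; ring))
    · have h : 0 ≤ B1 (6039 / 10000) (353 / 500) (6297 / 10000) (3659 / 5000) a b := B1_nonneg ha hb (by norm_num) (by norm_num) (by norm_num) (by norm_num)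
      exact sub_nonneg.1 (h.trans_eq (by unfold B1; ring))
    · exact le_abs_self _
    · have h : 0 ≤ B2 (1102319 / 100000000) (255067 / 6250000) (1959 / 100000000) (282167 / 10000000) (11588459 / 100000000) (2813201 / 100000000) (1699 / 16000000) (1635969 / 40000000) (4410039 / 400000000) a b := B2_nonneg ha hb (by norm_num) (by norm_num) (by norm_num) (by norm_num) (by norm_num) (by norm_num) (by norm_num) (by norm_num) (by norm_num)
      exact sub_nonneg.1 (h.trans_eq (by unfold B2; ring))
    · have h : 0 ≤ B2 (7427 / 50000000) (106841 / 5000000) (3139 / 1000000) (11987 / 3125000) (1113639 / 25000000) (11371 / 2500000) (151083 / 50000000) (68269 / 3125000) (9297 / 12500000) a b := B2_nonneg ha hb (by norm_num) (by norm_num) (by norm_num) (by norm_num) (by norm_num) (by norm_num) (by norm_num) (by norm_num) (by norm_num)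
      exact sub_nonneg.1 (h.trans_eq (by unfold B2; ring))
    · have h : 0 ≤ B1 (609 / 3400) (24413 / 85000) (5601 / 170000) (23977 / 170000) a b := B1_nonneg ha hb (by norm_num) (by norm_num) (by norm_num) (by norm_num)
      exact sub_nonneg.1 (h.trans_eq (by unfold B1; ring))
    · have h : 0 ≤ B4 (98011733251943 / 4000000000000000) (1223050848156185631 / 12800000000000000000) (146275060325172029693 / 960000000000000000000) (27814267342624091609 / 240000000000000000000) (2765667223047661589 / 80000000000000000000) (2588156117376201787 / 25600000000000000000) (124613750371298694387 / 320000000000000000000) (1183852850765811864293 / 1920000000000000000000) (1874004239851121079 / 4000000000000000000) (67309994446825821481 / 480000000000000000000) (101494823497479632337 / 640000000000000000000) (96427582962533498023 / 160000000000000000000) (604735589975937620859 / 640000000000000000000) (45752798092510697089 / 64000000000000000000) (68503949650911854893 / 320000000000000000000) (7234160670209630591 / 64000000000000000000) (135646484010073782553 / 320000000000000000000)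 (1260306336283522164517 / 1920000000000000000000) (4727461229391511331 / 9600000000000000000) (94013331182977959757 / 640000000000000000000) (2483601102338854781 / 80000000000000000000) (36828797252400840119 / 320000000000000000000) (337402296471177106847 / 1920000000000000000000) (41652699915087789763 / 320000000000000000000) (73880260077622157701 / 1920000000000000000000) a b := B4_nonneg ha hb (by norm_num) (by norm_num) (by norm_num) (by norm_num) (by norm_num) (by norm_num) (by norm_num) (by norm_num) (by norm_num) (by norm_num) (by norm_num) (by norm_num) (by norm_num) (by norm_num) (by norm_num) (by norm_num) (by norm_num) (by norm_num) (by norm_num) (by norm_num) (by norm_num) (by norm_num) (by norm_num) (by norm_num) (by norm_num)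
      exact sub_nonneg.1 (h.trans_eq (by unfold B4 Q4; ring))

theorem twoa_37 {x y : ℝ} (h0 : 59 / 80 ≤ x) (h1 : x ≤ 131 / 160) (k0 : 39 / 40 ≤ y) (k1 : y ≤ 17 / 16) :
    TwoAny x y := by
  obtain ⟨a, ha, rfl⟩ := affine01 h0 h1 (by norm_num)
  obtain ⟨b, hb, rfl⟩ := affine01 k0 k1 (by norm_num)
  refine ⟨1, by norm_num, ?_, ?_⟩
  · refine ⟨8 / 17, 8 / 15, 489957 / 1000000, 17 / 15, 383 / 500 + 261 / 5000 * a + 523 / 5000 * b, 1743 / 10000 + (-(143 / 2500)) * a + 179 / 2500 * b, 7267 / 10000 + 341 / 10000 * a + 393 / 10000 * b, (39 / 40 + (17 / 16 - 39 / 40) * b) - (59 / 80 + (131 / 160 - 59 / 80) * a), trigQ_5, ?_, ?_, ?_, ?_, ?_, ?_, ?_, ?_, ?_⟩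
    · have h : 0 ≤ B1 (383 / 500) (4353 / 5000) (4091 / 5000) (2307 / 2500) a b := B1_nonneg ha hb (by norm_num) (by norm_num) (by norm_num) (by norm_num)
      exact sub_nonneg.1 (h.trans_eq (by unfold B1; ring))
    · have h : 0 ≤ B1 (117 / 500) (647 / 5000) (909 / 5000) (193 / 2500) a b := B1_nonneg ha hb (by norm_num) (by norm_num) (by norm_num) (by norm_num)
      exact sub_nonneg.1 (h.trans_eq (by unfold B1; ring))
    · have h : 0 ≤ B1 (1743 / 10000) (2459 / 10000) (1171 / 10000) (1887 / 10000) a b := B1_nonneg ha hb (by norm_num) (by norm_num) (by norm_num) (by norm_num)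
      exact sub_nonneg.1 (h.trans_eq (by unfold B1; ring))
    · have h : 0 ≤ B1 (7267 / 10000) (383 / 500) (951 / 1250) (8001 / 10000) a b := B1_nonneg ha hb (by norm_num) (by norm_num) (by norm_num) (by norm_num)
      exact sub_nonneg.1 (h.trans_eq (by unfold B1; ring))
    · exact le_abs_self _
    · have h : 0 ≤ B2 (982179 / 400000000) (481463 / 50000000) (13319 / 100000000) (2992201 / 400000000) (2322727 / 80000000) (373617 / 50000000) (164519 / 1600000000) (7648293 / 800000000) (3867071 / 1600000000) a b := B2_nonneg ha hb (by norm_num) (by norm_num) (by norm_num) (by norm_num) (by norm_num) (by norm_num) (by norm_num) (by norm_num) (by norm_num)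
      exact sub_nonneg.1 (h.trans_eq (by unfold B2; ring))
    · have h : 0 ≤ B2 (12543 / 50000000) (106537 / 20000000) (25879 / 16000000) (157039 / 50000000) (331289 / 25000000) (127747 / 40000000) (172711 / 100000000) (559909 / 100000000) (165371 / 400000000) a b := B2_nonneg ha hb (by norm_num) (by norm_num) (by norm_num) (by norm_num) (by norm_num) (by norm_num) (by norm_num) (by norm_num) (by norm_num)
      exact sub_nonneg.1 (h.trans_eq (by unfold B2; ring))
    · have h : 0 ≤ B1 (3181 / 34000) (24273 / 170000) (12537 / 340000) (29273 / 340000) a b := B1_nonneg ha hb (by norm_num) (by norm_num) (by norm_num) (by norm_num)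
      exact sub_nonneg.1 (h.trans_eq (by unfold B1; ring))
    · have h : 0 ≤ B2 (46499932663 / 3000000000000) (278316537497 / 10000000000000) (1102205296563 / 50000000000000) (43924526871 / 2500000000000) (7741124284987 / 300000000000000) (2765879634001 / 100000000000000) (736986764959 / 100000000000000) (857216277797 / 100000000000000) (1637208729641 / 150000000000000) a b := B2_nonneg ha hb (by norm_num) (by norm_num) (by norm_num) (by norm_num) (by norm_num) (by norm_num) (by norm_num) (by norm_num) (by norm_num)
      exact sub_nonneg.1 (h.trans_eq (by unfold B2; ring))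
  · refine ⟨8 / 17, 8 / 15, 489957 / 1000000, 17 / 15, 6679 / 10000 + 721 / 10000 * a + 911 / 10000 * b, 183 / 1000 + 3 / 2500 * a + 673 / 10000 * b, 3279 / 5000 + 103 / 2000 * a + 333 / 10000 * b, (39 / 40 + (17 / 16 - 39 / 40) * b) - (59 / 80 + (131 / 160 - 59 / 80) * a), trigQ_5, ?_, ?_, ?_, ?_, ?_, ?_, ?_, ?_, ?_⟩
    · have h : 0 ≤ B1 (6679 / 10000) (759 / 1000) (37 / 50) (8311 / 10000) a b := B1_nonneg ha hb (by norm_num) (by norm_num) (by norm_num) (by norm_num)
      exact sub_nonneg.1 (h.trans_eq (by unfold B1; ring))
    · have h : 0 ≤ B1 (3321 / 10000) (241 / 1000) (13 / 50) (1689 / 10000) a b := B1_nonneg ha hb (by norm_num) (by norm_num) (by norm_num) (by norm_num)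
      exact sub_nonneg.1 (h.trans_eq (by unfold B1; ring))
    · have h : 0 ≤ B1 (183 / 1000) (2503 / 10000) (921 / 5000) (503 / 2000) a b := B1_nonneg ha hb (by norm_num) (by norm_num) (by norm_num) (by norm_num)
      exact sub_nonneg.1 (h.trans_eq (by unfold B1; ring))
    · have h : 0 ≤ B1 (3279 / 5000) (6891 / 10000) (7073 / 10000) (3703 / 5000) a b := B1_nonneg ha hb (by norm_num) (by norm_num) (by norm_num) (by norm_num)
      exact sub_nonneg.1 (h.trans_eq (by unfold B1; ring))
    · exact le_abs_self _
    · have h : 0 ≤ B2 (720951 / 16000000) (1891429 / 20000000) (2153433 / 50000000) (8644249 / 80000000) (89086817 / 400000000) (4071089 / 40000000) (98146951 / 1600000000) (19974709 / 160000000) (3651631 / 64000000) a b := B2_nonneg ha hb (by norm_num) (by norm_num) (by norm_num) (by norm_num) (by norm_num) (by norm_num) (by norm_num) (by norm_num) (by norm_num)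
      exact sub_nonneg.1 (h.trans_eq (by unfold B2; ring))
    · have h : 0 ≤ B2 (17011 / 100000000) (510769 / 100000000) (765851 / 400000000) (244641 / 50000000) (397267 / 25000000) (990391 / 200000000) (103523 / 50000000) (547849 / 100000000) (154031 / 400000000) a b := B2_nonneg ha hb (by norm_num) (by norm_num) (by norm_num) (by norm_num) (by norm_num) (by norm_num) (by norm_num) (by norm_num) (by norm_num)
      exact sub_nonneg.1 (h.trans_eq (by unfold B2; ring))
    · have h : 0 ≤ B1 (8057 / 170000) (3069 / 34000) (1 / 13600) (14601 / 340000) a b := B1_nonneg ha hb (by norm_num) (by norm_num) (by norm_num) (by norm_num)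
      exact sub_nonneg.1 (h.trans_eq (by unfold B1; ring))
    · have h : 0 ≤ B4 (42663039029460033431 / 1920000000000000000000) (170960392848405845357 / 1920000000000000000000) (43888851374565850591 / 320000000000000000000) (3073288270321651437 / 32000000000000000000) (82269236318082991 / 3200000000000000000) (330372010238967251741 / 3840000000000000000000) (221523345952331439553 / 640000000000000000000) (2058116991341707929073 / 3840000000000000000000) (120831884476034100413 / 320000000000000000000) (6510561464095377691 / 64000000000000000000) (79794142283565247509 / 640000000000000000000) (644959208228993687567 / 1280000000000000000000) (502278043700996273957 / 640000000000000000000) (712428096993071139099 / 1280000000000000000000) (96621466626470891867 / 640000000000000000000) (12318638333660568607 / 153600000000000000000) (156376255337381738459 / 480000000000000000000) (130742548859047248379 / 256000000000000000000) (233465164709233806809 / 640000000000000000000) (63782806621205634611 / 640000000000000000000) (14849407364033983 / 768000000000000000) (4044689440389997221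 / 51200000000000000000) (119730186381662200981 / 960000000000000000000) (114898239516666818691 / 1280000000000000000000) (7906553686035960727 / 320000000000000000000) a b := B4_nonneg ha hb (by norm_num) (by norm_num) (by norm_num) (by norm_num) (by norm_num) (by norm_num) (by norm_num) (by norm_num) (by norm_num) (by norm_num) (by norm_num) (by norm_num) (by norm_num) (by norm_num) (by norm_num) (by norm_num) (by norm_num) (by norm_num) (by norm_num) (by norm_num) (by norm_num) (by norm_num) (by norm_num) (by norm_num) (by norm_num)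
      exact sub_nonneg.1 (h.trans_eq (by unfold B4 Q4; ring))

theorem twoa_40 {x y : ℝ} (h0 : 131 / 160 ≤ x) (h1 : x ≤ 9 / 10) (k0 : 163 / 160 ≤ y) (k1 : y ≤ 17 / 16) :
    TwoAny x y := by
  obtain ⟨a, ha, rfl⟩ := affine01 h0 h1 (by norm_num)
  obtain ⟨b, hb, rfl⟩ := affine01 k0 k1 (by norm_num)
  refine ⟨11 / 10, by norm_num, ?_, ?_⟩
  · refine ⟨8 / 17, 8 / 15, 489957 / 1000000, 17 / 15, 8689 / 10000 + 603 / 10000 * a + 519 / 10000 * b, 191 / 1250 + (-(3 / 50)) * a + 183 / 5000 * b, 1561 / 2000 + 373 / 10000 * a + 9 / 500 * b, (163 / 160 + (17 / 16 - 163 / 160) * b) - (131 / 160 + (9 / 10 - 131 / 160) * a), trigQ_5, ?_, ?_, ?_, ?_, ?_, ?_, ?_, ?_, ?_⟩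
    · have h : 0 ≤ B1 (8689 / 10000) (1151 / 1250) (2323 / 2500) (9811 / 10000) a b := B1_nonneg ha hb (by norm_num) (by norm_num) (by norm_num) (by norm_num)
      exact sub_nonneg.1 (h.trans_eq (by unfold B1; ring))
    · have h : 0 ≤ B1 (2311 / 10000) (112 / 625) (427 / 2500) (1189 / 10000) a b := B1_nonneg ha hb (by norm_num) (by norm_num) (by norm_num) (by norm_num)
      exact sub_nonneg.1 (h.trans_eq (by unfold B1; ring))
    · have h : 0 ≤ B1 (191 / 1250) (947 / 5000) (58 / 625) (647 / 5000) a b := B1_nonneg ha hb (by norm_num) (by norm_num) (by norm_num) (by norm_num)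
      exact sub_nonneg.1 (h.trans_eq (by unfold B1; ring))
    · have h : 0 ≤ B1 (1561 / 2000) (1597 / 2000) (4089 / 5000) (4179 / 5000) a b := B1_nonneg ha hb (by norm_num) (by norm_num) (by norm_num) (by norm_num)
      exact sub_nonneg.1 (h.trans_eq (by unfold B1; ring))
    · exact le_abs_self _
    · have h : 0 ≤ B2 (580239 / 400000000) (1368369 / 400000000) (243599 / 1600000000) (2755503 / 400000000) (13945301 / 800000000) (2762687 / 400000000) (300431 / 1600000000) (1403969 / 400000000) (601631 / 400000000) a b := B2_nonneg ha hb (by norm_num) (by norm_num) (by norm_num) (by norm_num) (by norm_num) (by norm_num) (by norm_num) (by norm_num) (by norm_num)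
      exact sub_nonneg.1 (h.trans_eq (by unfold B2; ring))
    · have h : 0 ≤ B2 (16439 / 64000000) (32489 / 16000000) (15539 / 16000000) (414147 / 160000000) (274709 / 40000000) (106971 / 40000000) (1504431 / 1600000000) (821833 / 400000000) (124719 / 400000000) a b := B2_nonneg ha hb (by norm_num) (by norm_num) (by norm_num) (by norm_num) (by norm_num) (by norm_num) (by norm_num) (by norm_num) (by norm_num)
      exact sub_nonneg.1 (h.trans_eq (by unfold B2; ring))
    · have h : 0 ≤ B1 (20649 / 340000) (28953 / 340000) (167 / 21250) (343 / 10625) a b := B1_nonneg ha hb (by norm_num) (by norm_num) (by norm_num) (by norm_num)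
      exact sub_nonneg.1 (h.trans_eq (by unfold B1; ring))
    · have h : 0 ≤ B2 (1767763652997 / 200000000000000) (3690419544793 / 200000000000000) (300115826081 / 25000000000000) (1076973465957 / 200000000000000) (53723865599 / 5000000000000) (2028522591707 / 200000000000000) (365612072861 / 150000000000000) (2445242942629 / 600000000000000) (2417606801741 / 600000000000000) a b := B2_nonneg ha hb (by norm_num) (by norm_num) (by norm_num) (by norm_num) (by norm_num) (by norm_num) (by norm_num) (by norm_num) (by norm_num)
      exact sub_nonneg.1 (h.trans_eq (by unfold B2; ring))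
  · refine ⟨120 / 241, 120 / 209, 130301 / 250000, 241 / 209, 7191 / 10000 + 177 / 2000 * a + 123 / 2500 * b, 681 / 5000 + 127 / 5000 * a + 443 / 10000 * b, 3389 / 5000 + 77 / 1250 * a + 23 / 1250 * b, (163 / 160 + (17 / 16 - 163 / 160) * b) - (131 / 160 + (9 / 10 - 131 / 160) * a), trigQ_12, ?_, ?_, ?_, ?_, ?_, ?_, ?_, ?_, ?_⟩
    · have h : 0 ≤ B1 (7191 / 10000) (7683 / 10000) (2019 / 2500) (1071 / 1250) a b := B1_nonneg ha hb (by norm_num) (by norm_num) (by norm_num) (by norm_num)
      exact sub_nonneg.1 (h.trans_eq (by unfold B1; ring))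
    · have h : 0 ≤ B1 (3809 / 10000) (3317 / 10000) (731 / 2500) (152 / 625) a b := B1_nonneg ha hb (by norm_num) (by norm_num) (by norm_num) (by norm_num)
      exact sub_nonneg.1 (h.trans_eq (by unfold B1; ring))
    · have h : 0 ≤ B1 (681 / 5000) (361 / 2000) (101 / 625) (2059 / 10000) a b := B1_nonneg ha hb (by norm_num) (by norm_num) (by norm_num) (by norm_num)
      exact sub_nonneg.1 (h.trans_eq (by unfold B1; ring))
    · have h : 0 ≤ B1 (3389 / 5000) (3481 / 5000) (3697 / 5000) (3789 / 5000) a b := B1_nonneg ha hb (by norm_num) (by norm_num) (by norm_num) (by norm_num)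
      exact sub_nonneg.1 (h.trans_eq (by unfold B1; ring))
    · exact le_abs_self _
    · have h : 0 ≤ B2 (2326831 / 100000000) (1012761 / 20000000) (1595439 / 64000000) (7002391 / 100000000) (115947067 / 800000000) (5602233 / 80000000) (71136079 / 1600000000) (35881873 / 400000000) (17121451 / 400000000) a b := B2_nonneg ha hb (by norm_num) (by norm_num) (by norm_num) (by norm_num) (by norm_num) (by norm_num) (by norm_num) (by norm_num) (by norm_num)
      exact sub_nonneg.1 (h.trans_eq (by unfold B2; ring))
    · have h : 0 ≤ B2 (358831 / 1600000000) (968137 / 400000000) (551599 / 400000000) (4354863 / 800000000) (2512777 / 200000000) (1097231 / 200000000) (2279599 / 1600000000) (1021769 / 400000000) (125039 / 400000000) a b := B2_nonneg ha hb (by norm_num) (by norm_num) (by norm_num) (by norm_num) (by norm_num) (by norm_num) (by norm_num) (by norm_num) (by norm_num)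
      exact sub_nonneg.1 (h.trans_eq (by unfold B2; ring))
    · have h : 0 ≤ B1 (35893 / 964000) (59509 / 964000) (3 / 60250) (1479 / 60250) a b := B1_nonneg ha hb (by norm_num) (by norm_num) (by norm_num) (by norm_num)
      exact sub_nonneg.1 (h.trans_eq (by unfold B1; ring))
    · have h : 0 ≤ B4 (1446318920727243207 / 47500000000000000000) (740118853567870672313 / 6080000000000000000000) (49131256845453254933753 / 267520000000000000000000) (16574318397637901977193 / 133760000000000000000000) (8436941345273024860581 / 267520000000000000000000) (728290548985649939837 / 6080000000000000000000) (64198669107943111822837 / 133760000000000000000000) (194193582338792866365841 / 267520000000000000000000) (32842710792035250666393 / 66880000000000000000000) (33529814889865762592577 / 267520000000000000000000) (9425922881376024597701 / 53504000000000000000000) (107561053449614702353 / 152000000000000000000) (57419606156093251458777 / 53504000000000000000000) (3895739834991934106147 / 5350400000000000000000) (311667503959826257289 / 1672000000000000000000) (30709547102909500426897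 / 267520000000000000000000) (61845902079688582918463 / 133760000000000000000000) (188152330581037204471709 / 267520000000000000000000) (32015998403080116149957 / 66880000000000000000000) (747589092903430125867 / 6080000000000000000000) (1869762172465535262349 / 66880000000000000000000) (7554114686738800939887 / 66880000000000000000000) (5764578161738819826239 / 33440000000000000000000) (1968700514724309875229 / 16720000000000000000000) (253749781211608190747 / 8360000000000000000000) a b := B4_nonneg ha hb (by norm_num) (by norm_num) (by norm_num) (by norm_num) (by norm_num) (by norm_num) (by norm_num) (by norm_num) (by norm_num) (by norm_num) (by norm_num) (by norm_num) (by norm_num) (by norm_num) (by norm_num) (by norm_num) (by norm_num) (by norm_num) (by norm_num) (by norm_num) (by norm_num) (by norm_num) (by norm_num) (by norm_num) (by norm_num)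
      exact sub_nonneg.1 (h.trans_eq (by unfold B4 Q4; ring))

theorem twoa_38 {x y : ℝ} (h0 : 131 / 160 ≤ x) (h1 : x ≤ 9 / 10) (k0 : 39 / 40 ≤ y) (k1 : y ≤ 17 / 16) :
    CenXY x y ∨ TwoAny x y := by
  rcases le_total y (163 / 160) with h | h
  · exact Or.inl ⟨by linarith, by linarith, by linarith, by linarith⟩
  · exact Or.inr (twoa_40 h0 h1 h k1)

theorem twoa_36 {x y : ℝ} (h0 : 59 / 80 ≤ x) (h1 : x ≤ 9 / 10) (k0 : 39 / 40 ≤ y) (k1 : y ≤ 17 / 16) :
    CenXY x y ∨ TwoAny x y := by
  rcases le_total x (131 / 160) with h | h
  · exact Or.inr (twoa_37 h0 h k0 k1)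
  · exact twoa_38 h h1 k0 k1

theorem twoa_41 {x y : ℝ} (h0 : 59 / 80 ≤ x) (h1 : x ≤ 9 / 10) (k0 : 17 / 16 ≤ y) (k1 : y ≤ 23 / 20) :
    TwoAny x y := by
  obtain ⟨a, ha, rfl⟩ := affine01 h0 h1 (by norm_num)
  obtain ⟨b, hb, rfl⟩ := affine01 k0 k1 (by norm_num)
  refine ⟨6 / 5, by norm_num, ?_, ?_⟩
  · refine ⟨8 / 17, 8 / 15, 489957 / 1000000, 17 / 15, 2189 / 2500 + 1047 / 10000 * a + 589 / 5000 * b, 123 / 500 + (-(143 / 1250)) * a + 743 / 10000 * b, 3851 / 5000 + 127 / 2000 * a + 421 / 10000 * b, (17 / 16 + (23 / 20 - 17 / 16) * b) - (59 / 80 + (9 / 10 - 59 / 80) * a), trigQ_5, ?_, ?_, ?_, ?_, ?_, ?_, ?_, ?_, ?_⟩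
    · have h : 0 ≤ B1 (2189 / 2500) (4967 / 5000) (9803 / 10000) (10981 / 10000) a b := B1_nonneg ha hb (by norm_num) (by norm_num) (by norm_num) (by norm_num)
      exact sub_nonneg.1 (h.trans_eq (by unfold B1; ring))
    · have h : 0 ≤ B1 (811 / 2500) (1033 / 5000) (2197 / 10000) (1019 / 10000) a b := B1_nonneg ha hb (by norm_num) (by norm_num) (by norm_num) (by norm_num)
      exact sub_nonneg.1 (h.trans_eq (by unfold B1; ring))
    · have h : 0 ≤ B1 (123 / 500) (3203 / 10000) (329 / 2500) (2059 / 10000) a b := B1_nonneg ha hb (by norm_num) (by norm_num) (by norm_num) (by norm_num)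
      exact sub_nonneg.1 (h.trans_eq (by unfold B1; ring))
    · have h : 0 ≤ B1 (3851 / 5000) (8123 / 10000) (8337 / 10000) (4379 / 5000) a b := B1_nonneg ha hb (by norm_num) (by norm_num) (by norm_num) (by norm_num)
      exact sub_nonneg.1 (h.trans_eq (by unfold B1; ring))
    · exact le_abs_self _
    · have h : 0 ≤ B2 (1271 / 250000) (3957 / 312500) (57539 / 400000000) (62257 / 2500000) (12936973 / 200000000) (77853 / 3125000) (51951 / 400000000) (632231 / 50000000) (508019 / 100000000) a b := B2_nonneg ha hb (by norm_num) (by norm_num) (by norm_num) (by norm_num) (by norm_num) (by norm_num) (by norm_num) (by norm_num) (by norm_num)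
      exact sub_nonneg.1 (h.trans_eq (by unfold B2; ring))
    · have h : 0 ≤ B2 (66159 / 400000000) (339779 / 50000000) (294371 / 100000000) (1443079 / 200000000) (1100683 / 50000000) (185633 / 25000000) (1207099 / 400000000) (357679 / 50000000) (5617 / 12500000) a b := B2_nonneg ha hb (by norm_num) (by norm_num) (by norm_num) (by norm_num) (by norm_num) (by norm_num) (by norm_num) (by norm_num) (by norm_num)
      exact sub_nonneg.1 (h.trans_eq (by unfold B2; ring))
    · have h : 0 ≤ B1 (24673 / 170000) (34097 / 170000) (339 / 10625) (928 / 10625) a b := B1_nonneg ha hb (by norm_num) (by norm_num) (by norm_num) (by norm_num)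
      exact sub_nonneg.1 (h.trans_eq (by unfold B1; ring))
    · have h : 0 ≤ B2 (185293818029 / 9375000000000) (1579417351073 / 37500000000000) (2438562971197 / 75000000000000) (85247414913 / 50000000000000) (878363476073 / 300000000000000) (6463509492859 / 300000000000000) (633493208463 / 200000000000000) (163223277963 / 50000000000000) (6154830216431 / 600000000000000) a b := B2_nonneg ha hb (by norm_num) (by norm_num) (by norm_num) (by norm_num) (by norm_num) (by norm_num) (by norm_num) (by norm_num) (by norm_num)
      exact sub_nonneg.1 (h.trans_eq (by unfold B2; ring))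
  · refine ⟨8 / 17, 8 / 15, 489957 / 1000000, 17 / 15, 7613 / 10000 + 1513 / 10000 * a + 291 / 2500 * b, 23 / 100 + (-(49 / 10000)) * a + 859 / 10000 * b, 173 / 250 + 247 / 2500 * a + 443 / 10000 * b, (17 / 16 + (23 / 20 - 17 / 16) * b) - (59 / 80 + (9 / 10 - 59 / 80) * a), trigQ_5, ?_, ?_, ?_, ?_, ?_, ?_, ?_, ?_, ?_⟩
    · have h : 0 ≤ B1 (7613 / 10000) (8777 / 10000) (4563 / 5000) (1029 / 1000) a b := B1_nonneg ha hb (by norm_num) (by norm_num) (by norm_num) (by norm_num)
      exact sub_nonneg.1 (h.trans_eq (by unfold B1; ring))
    · have h : 0 ≤ B1 (4387 / 10000) (3223 / 10000) (1437 / 5000) (171 / 1000) a b := B1_nonneg ha hb (by norm_num) (by norm_num) (by norm_num) (by norm_num)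
      exact sub_nonneg.1 (h.trans_eq (by unfold B1; ring))
    · have h : 0 ≤ B1 (23 / 100) (3159 / 10000) (2251 / 10000) (311 / 1000) a b := B1_nonneg ha hb (by norm_num) (by norm_num) (by norm_num) (by norm_num)
      exact sub_nonneg.1 (h.trans_eq (by unfold B1; ring))
    · have h : 0 ≤ B1 (173 / 250) (7363 / 10000) (1977 / 2500) (8351 / 10000) a b := B1_nonneg ha hb (by norm_num) (by norm_num) (by norm_num) (by norm_num)
      exact sub_nonneg.1 (h.trans_eq (by unfold B1; ring))
    · exact le_abs_self _
    · have h : 0 ≤ B2 (8819 / 160000) (485119 / 4000000) (22747251 / 400000000) (608291 / 4000000) (64561239 / 200000000) (1521477 / 10000000) (36131371 / 400000000) (1882753 / 10000000) (44327 / 500000) a b := B2_nonneg ha hb (by norm_num) (by norm_num) (by norm_num) (by norm_num) (by norm_num) (by norm_num) (by norm_num) (by norm_num) (by norm_num)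
      exact sub_nonneg.1 (h.trans_eq (by unfold B2; ring))
    · have h : 0 ≤ B2 (3351 / 16000000) (90233 / 10000000) (493731 / 100000000) (599187 / 40000000) (960363 / 25000000) (784087 / 50000000) (2003519 / 400000000) (493417 / 50000000) (98299 / 100000000) a b := B2_nonneg ha hb (by norm_num) (by norm_num) (by norm_num) (by norm_num) (by norm_num) (by norm_num) (by norm_num) (by norm_num) (by norm_num)
      exact sub_nonneg.1 (h.trans_eq (by unfold B2; ring))
    · have h : 0 ≤ B1 (15529 / 170000) (24841 / 170000) (1 / 21250) (233 / 4250) a b := B1_nonneg ha hb (by norm_num) (by norm_num) (by norm_num) (by norm_num)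
      exact sub_nonneg.1 (h.trans_eq (by unfold B1; ring))
    · have h : 0 ≤ B4 (7130469414312854009 / 320000000000000000000) (34211248604407986953 / 384000000000000000000) (88233595439116379319 / 640000000000000000000) (12487517550837650829 / 128000000000000000000) (50885403481378435189 / 1920000000000000000000) (155982047308595075077 / 1920000000000000000000) (313710473398676400023 / 960000000000000000000) (163536259748688979837 / 320000000000000000000) (351947540414250418307 / 960000000000000000000) (194116421825124682561 / 1920000000000000000000) (210677011207722014117 / 1920000000000000000000) (284813106188188728527 / 640000000000000000000) (451474385767783930721 / 640000000000000000000) (987928326246759851651 / 1920000000000000000000) (11552811512510509623 / 80000000000000000000) (62921220687282881311 / 960000000000000000000) (32253371786926722731 / 120000000000000000000) (138636092341348213251 / 320000000000000000000) (154658910705967524203 / 480000000000000000000) (8851529799602130919 / 96000000000000000000) (3545582623695212441 / 240000000000000000000)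 (29494833450393560849 / 480000000000000000000) (8079590371646759517 / 80000000000000000000) (7364481707152315967 / 96000000000000000000) (107485345088841587 / 4800000000000000000) a b := B4_nonneg ha hb (by norm_num) (by norm_num) (by norm_num) (by norm_num) (by norm_num) (by norm_num) (by norm_num) (by norm_num) (by norm_num) (by norm_num) (by norm_num) (by norm_num) (by norm_num) (by norm_num) (by norm_num) (by norm_num) (by norm_num) (by norm_num) (by norm_num) (by norm_num) (by norm_num) (by norm_num) (by norm_num) (by norm_num) (by norm_num)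
      exact sub_nonneg.1 (h.trans_eq (by unfold B4 Q4; ring))

theorem twoa_35 {x y : ℝ} (h0 : 59 / 80 ≤ x) (h1 : x ≤ 9 / 10) (k0 : 39 / 40 ≤ y) (k1 : y ≤ 23 / 20) :
    CenXY x y ∨ TwoAny x y := by
  rcases le_total y (17 / 16) with h | h
  · exact twoa_36 h0 h1 k0 h
  · exact Or.inr (twoa_41 h0 h1 h k1)

theorem twoa_33 {x y : ℝ} (h0 : 23 / 40 ≤ x) (h1 : x ≤ 9 / 10) (k0 : 39 / 40 ≤ y) (k1 : y ≤ 23 / 20) :
    CenXY x y ∨ TwoAny x y := by
  rcases le_total x (59 / 80) with h | h
  · exact Or.inr (twoa_34 h0 h k0 k1)
  · exact twoa_35 h h1 k0 k1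

theorem twoa_21 {x y : ℝ} (h0 : 23 / 40 ≤ x) (h1 : x ≤ 9 / 10) (k0 : 4 / 5 ≤ y) (k1 : y ≤ 23 / 20) :
    CenXY x y ∨ TwoAny x y := by
  rcases le_total y (39 / 40) with h | h
  · exact twoa_22 h0 h1 k0 h
  · exact twoa_33 h0 h1 h k1

theorem twoa_17 {x y : ℝ} (h0 : 1 / 4 ≤ x) (h1 : x ≤ 9 / 10) (k0 : 4 / 5 ≤ y) (k1 : y ≤ 23 / 20) :
    CenXY x y ∨ TwoAny x y := by
  rcases le_total x (23 / 40) with h | h
  · exact twoa_18 h0 h k0 k1
  · exact twoa_21 h h1 k0 k1

theorem twoa_1 {x y : ℝ} (h0 : 1 / 4 ≤ x) (h1 : x ≤ 9 / 10) (k0 : 9 / 20 ≤ y) (k1 : y ≤ 23 / 20) :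
    CenXY x y ∨ TwoAny x y := by
  rcases le_total y (4 / 5) with h | h
  · exact twoa_2 h0 h1 k0 h
  · exact twoa_17 h0 h1 h k1

theorem twoa_top {x y : ℝ} (h0 : 1 / 4 ≤ x) (h1 : x ≤ 9 / 10) (k0 : 9 / 20 ≤ y) (k1 : y ≤ 23 / 20) :
    CenXY x y ∨ TwoAny x y :=
  twoa_1 h0 h1 k0 k1

end Pool.Agent.Helper98.LC3
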