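import Pool.Agent.Helper98.LC3.S.CertDef

/-!
# LC3: certificates (generated)
-/

namespace Pool.Agent.Helper98.LC3

open Real

set_option maxRecDepth 8000

theorem twob_5 {x y : ℝ} (h0 : 9 / 10 ≤ x) (h1 : x ≤ 17 / 16) (k0 : 9 / 20 ≤ y) (k1 : y ≤ 5 / 8) :
    TwoAny x y := by
  obtain ⟨a, ha, rfl⟩ := affine01 h0 h1 (by norm_num)
  obtain ⟨b, hb, rfl⟩ := affine01 k0 k1 (by norm_num)
  refine ⟨9 / 10, by norm_num, ?_, ?_⟩
  · refine ⟨3 / 5, 3 / 4, 643501 / 1000000, 5 / 4, 2753 / 5000 + 551 / 2500 * a + 479 / 10000 * b, 2489 / 10000 + 383 / 2500 * a + (-(649 / 5000)) * b, 7069 / 10000 + 707 / 5000 * a + 3 / 5000 * b, (9 / 10 + (17 / 16 - 9 / 10) * a) - (9 / 20 + (5 / 8 - 9 / 20) * b), trigQ_6, ?_, ?_, ?_, ?_, ?_, ?_, ?_, ?_, ?_⟩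
    · have h : 0 ≤ B1 (2753 / 5000) (1197 / 2000) (771 / 1000) (8189 / 10000) a b := B1_nonneg ha hb (by norm_num) (by norm_num) (by norm_num) (by norm_num)
      exact sub_nonneg.1 (h.trans_eq (by unfold B1; ring))
    · have h : 0 ≤ B1 (1747 / 5000) (603 / 2000) (129 / 1000) (811 / 10000) a b := B1_nonneg ha hb (by norm_num) (by norm_num) (by norm_num) (by norm_num)
      exact sub_nonneg.1 (h.trans_eq (by unfold B1; ring))
    · have h : 0 ≤ B1 (2489 / 10000) (1191 / 10000) (4021 / 10000) (2723 / 10000) a b := B1_nonneg ha hb (by norm_num) (by norm_num) (by norm_num) (by norm_num)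
      exact sub_nonneg.1 (h.trans_eq (by unfold B1; ring))
    · have h : 0 ≤ B1 (7069 / 10000) (283 / 400) (8483 / 10000) (8489 / 10000) a b := B1_nonneg ha hb (by norm_num) (by norm_num) (by norm_num) (by norm_num)
      exact sub_nonneg.1 (h.trans_eq (by unfold B1; ring))
    · rw [abs_sub_comm]; exact le_abs_self _
    · have h : 0 ≤ B2 (3302379 / 100000000) (3021851 / 50000000) (145447 / 50000000) (628107 / 6250000) (21532509 / 100000000) (6581939 / 100000000) (14960611 / 400000000) (18948893 / 200000000) (13135459 / 400000000) a b := B2_nonneg ha hb (by norm_num) (by norm_num) (by norm_num) (by norm_num) (by norm_num) (by norm_num) (by norm_num) (by norm_num) (by norm_num)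
      exact sub_nonneg.1 (h.trans_eq (by unfold B2; ring))
    · have h : 0 ≤ B2 (26739 / 100000000) (16423 / 2000000) (23 / 80000) (1051173 / 50000000) (1430767 / 25000000) (10447 / 500000) (76211 / 100000000) (451563 / 50000000) (30627 / 50000000) a b := B2_nonneg ha hb (by norm_num) (by norm_num) (by norm_num) (by norm_num) (by norm_num) (by norm_num) (by norm_num) (by norm_num) (by norm_num)
      exact sub_nonneg.1 (h.trans_eq (by unfold B2; ring))
    · have h : 0 ≤ B1 (759 / 25000) (591 / 10000) (1 / 10000) (721 / 25000) a b := B1_nonneg ha hb (by norm_num) (by norm_num) (by norm_num) (by norm_num)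
      exact sub_nonneg.1 (h.trans_eq (by unfold B1; ring))
    · have h : 0 ≤ B2 (1961473736009 / 50000000000000) (476221112941 / 10000000000000) (250525920609 / 8000000000000) (413317138351 / 10000000000000) (318942086359 / 100000000000000) (77039140329 / 10000000000000) (1236303969 / 31250000000) (609725707113 / 20000000000000) (2769532369971 / 200000000000000) a b := B2_nonneg ha hb (by norm_num) (by norm_num) (by norm_num) (by norm_num) (by norm_num) (by norm_num) (by norm_num) (by norm_num) (by norm_num)
      exact sub_nonneg.1 (h.trans_eq (by unfold B2; ring))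
  · refine ⟨20 / 29, 20 / 21, 190253 / 250000, 29 / 21, 553 / 1250 + 67 / 400 * a + 603 / 10000 * b, 633 / 2500 + 561 / 5000 * a + (-(697 / 10000)) * b, 3129 / 5000 + 151 / 1250 * a + 6 / 625 * b, (9 / 10 + (17 / 16 - 9 / 10) * a) - (9 / 20 + (5 / 8 - 9 / 20) * b), trigQ_7, ?_, ?_, ?_, ?_, ?_, ?_, ?_, ?_, ?_⟩
    · have h : 0 ≤ B1 (553 / 1250) (5027 / 10000) (6099 / 10000) (3351 / 5000) a b := B1_nonneg ha hb (by norm_num) (by norm_num) (by norm_num) (by norm_num)
      exact sub_nonneg.1 (h.trans_eq (by unfold B1; ring))
    · have h : 0 ≤ B1 (286 / 625) (3973 / 10000) (2901 / 10000) (1149 / 5000) a b := B1_nonneg ha hb (by norm_num) (by norm_num) (by norm_num) (by norm_num)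
      exact sub_nonneg.1 (h.trans_eq (by unfold B1; ring))
    · have h : 0 ≤ B1 (633 / 2500) (367 / 2000) (1827 / 5000) (2957 / 10000) a b := B1_nonneg ha hb (by norm_num) (by norm_num) (by norm_num) (by norm_num)
      exact sub_nonneg.1 (h.trans_eq (by unfold B1; ring))
    · have h : 0 ≤ B1 (3129 / 5000) (3177 / 5000) (3733 / 5000) (3781 / 5000) a b := B1_nonneg ha hb (by norm_num) (by norm_num) (by norm_num) (by norm_num)
      exact sub_nonneg.1 (h.trans_eq (by unfold B1; ring))
    · rw [abs_sub_comm]; exact le_abs_self _
    · have h : 0 ≤ B2 (91619 / 25000000) (81503 / 5000000) (243 / 2000000) (1147447 / 50000000) (7094947 / 100000000) (459437 / 20000000) (37511 / 400000000) (3253613 / 200000000) (1463979 / 400000000) a b := B2_nonneg ha hb (by norm_num) (by norm_num) (by norm_num) (by norm_num) (by norm_num) (by norm_num) (by norm_num) (by norm_num) (by norm_num)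
      exact sub_nonneg.1 (h.trans_eq (by unfold B2; ring))
    · have h : 0 ≤ B2 (1867 / 12500000) (230209 / 25000000) (131059 / 100000000) (12973 / 781250) (121777 / 2500000) (830427 / 50000000) (23293 / 12500000) (257929 / 25000000) (70531 / 100000000) a b := B2_nonneg ha hb (by norm_num) (by norm_num) (by norm_num) (by norm_num) (by norm_num) (by norm_num) (by norm_num) (by norm_num) (by norm_num)
      exact sub_nonneg.1 (h.trans_eq (by unfold B2; ring))
    · have h : 0 ≤ B1 (687 / 7250) (1977 / 14500) (2771 / 58000) (5183 / 58000) a b := B1_nonneg ha hb (by norm_num) (by norm_num) (by norm_num) (by norm_num)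
      exact sub_nonneg.1 (h.trans_eq (by unfold B1; ring))
    · have h : 0 ≤ B4 (1101429097916379777 / 17500000000000000000) (32852562755967006593 / 140000000000000000000) (93287528189501371179 / 280000000000000000000) (14983237969256708807 / 70000000000000000000) (14727683632797400803 / 280000000000000000000) (36353696840313655153 / 140000000000000000000) (135231044226499639869 / 140000000000000000000) (1532515927767359962053 / 1120000000000000000000) (491257024631805379673 / 560000000000000000000) (241016900585738675021 / 1120000000000000000000) (57825991783778503013 / 140000000000000000000) (10322855116956094676777 / 6720000000000000000000) (4871601231135656772551 / 2240000000000000000000) (3120337688301578742757 / 2240000000000000000000) (2293416882832492442771 / 6720000000000000000000) (2023533437181388211563 / 6720000000000000000000) (3770816910309471092887 / 3360000000000000000000) (1782029375409857752131 / 1120000000000000000000) (3425919264718045338851 / 3360000000000000000000) (1677762660414498139127 / 6720000000000000000000) (16283271608433876569 / 192000000000000000000)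 (20313769659508703869 / 64000000000000000000) (28891118562936219611 / 64000000000000000000) (55643397573267856001 / 192000000000000000000) (2271346542425238701 / 32000000000000000000) a b := B4_nonneg ha hb (by norm_num) (by norm_num) (by norm_num) (by norm_num) (by norm_num) (by norm_num) (by norm_num) (by norm_num) (by norm_num) (by norm_num) (by norm_num) (by norm_num) (by norm_num) (by norm_num) (by norm_num) (by norm_num) (by norm_num) (by norm_num) (by norm_num) (by norm_num) (by norm_num) (by norm_num) (by norm_num) (by norm_num) (by norm_num)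
      exact sub_nonneg.1 (h.trans_eq (by unfold B4 Q4; ring))

theorem twob_6 {x y : ℝ} (h0 : 17 / 16 ≤ x) (h1 : x ≤ 49 / 40) (k0 : 9 / 20 ≤ y) (k1 : y ≤ 5 / 8) :
    TwoAny x y := by
  obtain ⟨a, ha, rfl⟩ := affine01 h0 h1 (by norm_num)
  obtain ⟨b, hb, rfl⟩ := affine01 k0 k1 (by norm_num)
  refine ⟨3 / 2, by norm_num, ?_, ?_⟩
  · refine ⟨20 / 29, 20 / 21, 190253 / 250000, 29 / 21, 434 / 625 + 1133 / 5000 * a + 933 / 10000 * b, 139 / 400 + 121 / 1000 * a + (-(723 / 10000)) * b, 4011 / 5000 + 257 / 2000 * a + 131 / 5000 * b, (17 / 16 + (49 / 40 - 17 / 16) * a) - (9 / 20 + (5 / 8 - 9 / 20) * b), trigQ_7, ?_, ?_, ?_, ?_, ?_, ?_, ?_, ?_, ?_⟩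
    · have h : 0 ≤ B1 (434 / 625) (7877 / 10000) (921 / 1000) (10143 / 10000) a b := B1_nonneg ha hb (by norm_num) (by norm_num) (by norm_num) (by norm_num)
      exact sub_nonneg.1 (h.trans_eq (by unfold B1; ring))
    · have h : 0 ≤ B1 (1007 / 1250) (7123 / 10000) (579 / 1000) (4857 / 10000) a b := B1_nonneg ha hb (by norm_num) (by norm_num) (by norm_num) (by norm_num)
      exact sub_nonneg.1 (h.trans_eq (by unfold B1; ring))
    · have h : 0 ≤ B1 (139 / 400) (172 / 625) (937 / 2000) (1981 / 5000) a b := B1_nonneg ha hb (by norm_num) (by norm_num) (by norm_num) (by norm_num)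
      exact sub_nonneg.1 (h.trans_eq (by unfold B1; ring))
    · have h : 0 ≤ B1 (4011 / 5000) (2071 / 2500) (9307 / 10000) (9569 / 10000) a b := B1_nonneg ha hb (by norm_num) (by norm_num) (by norm_num) (by norm_num)
      exact sub_nonneg.1 (h.trans_eq (by unfold B1; ring))
    · rw [abs_sub_comm]; exact le_abs_self _
    · have h : 0 ≤ B2 (1107 / 640000) (117313 / 8000000) (20359 / 400000000) (18459 / 800000) (1436697 / 20000000) (1149701 / 50000000) (203 / 2000000) (18357 / 1250000) (21257 / 12500000) a b := B2_nonneg ha hb (by norm_num) (by norm_num) (by norm_num) (by norm_num) (by norm_num) (by norm_num) (by norm_num) (by norm_num) (by norm_num)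
      exact sub_nonneg.1 (h.trans_eq (by unfold B2; ring))
    · have h : 0 ≤ B2 (3127 / 12500000) (309751 / 25000000) (379719 / 100000000) (523373 / 25000000) (1472897 / 25000000) (1064779 / 50000000) (417251 / 100000000) (675067 / 50000000) (49307 / 50000000) a b := B2_nonneg ha hb (by norm_num) (by norm_num) (by norm_num) (by norm_num) (by norm_num) (by norm_num) (by norm_num) (by norm_num) (by norm_num)
      exact sub_nonneg.1 (h.trans_eq (by unfold B2; ring))
    · have h : 0 ≤ B1 (6151 / 58000) (9883 / 58000) (579 / 5800) (4761 / 29000) a b := B1_nonneg ha hb (by norm_num) (by norm_num) (by norm_num) (by norm_num)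
      exact sub_nonneg.1 (h.trans_eq (by unfold B1; ring))
    · have h : 0 ≤ B2 (9714334189571 / 131250000000000) (198821469512401 / 2100000000000000) (78763217796629 / 2100000000000000) (9617477083791 / 70000000000000) (117080329758733 / 700000000000000) (44486289132399 / 700000000000000) (672936174447 / 7000000000000) (9666376449027 / 70000000000000) (20580256075679 / 350000000000000) a b := B2_nonneg ha hb (by norm_num) (by norm_num) (by norm_num) (by norm_num) (by norm_num) (by norm_num) (by norm_num) (by norm_num) (by norm_num)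
      exact sub_nonneg.1 (h.trans_eq (by unfold B2; ring))
  · refine ⟨20 / 29, 20 / 21, 190253 / 250000, 29 / 21, 382 / 625 + 1089 / 5000 * a + 143 / 2500 * b, 3621 / 10000 + 251 / 2000 * a + (-(127 / 2000)) * b, 3743 / 5000 + 83 / 625 * a + 31 / 5000 * b, (17 / 16 + (49 / 40 - 17 / 16) * a) - (9 / 20 + (5 / 8 - 9 / 20) * b), trigQ_7, ?_, ?_, ?_, ?_, ?_, ?_, ?_, ?_, ?_⟩
    · have h : 0 ≤ B1 (382 / 625) (1671 / 2500) (829 / 1000) (4431 / 5000) a b := B1_nonneg ha hb (by norm_num) (by norm_num) (by norm_num) (by norm_num)
      exact sub_nonneg.1 (h.trans_eq (by unfold B1; ring))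
    · have h : 0 ≤ B1 (1111 / 1250) (2079 / 2500) (671 / 1000) (3069 / 5000) a b := B1_nonneg ha hb (by norm_num) (by norm_num) (by norm_num) (by norm_num)
      exact sub_nonneg.1 (h.trans_eq (by unfold B1; ring))
    · have h : 0 ≤ B1 (3621 / 10000) (1493 / 5000) (1219 / 2500) (4241 / 10000) a b := B1_nonneg ha hb (by norm_num) (by norm_num) (by norm_num) (by norm_num)
      exact sub_nonneg.1 (h.trans_eq (by unfold B1; ring))
    · have h : 0 ≤ B1 (3743 / 5000) (1887 / 2500) (4407 / 5000) (2219 / 2500) a b := B1_nonneg ha hb (by norm_num) (by norm_num) (by norm_num) (by norm_num)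
      exact sub_nonneg.1 (h.trans_eq (by unfold B1; ring))
    · rw [abs_sub_comm]; exact le_abs_self _
    · have h : 0 ≤ B2 (1517811 / 400000000) (3123901 / 200000000) (54591 / 400000000) (2623633 / 100000000) (7594081 / 100000000) (658187 / 25000000) (8999 / 100000000) (195221 / 12500000) (383919 / 100000000) a b := B2_nonneg ha hb (by norm_num) (by norm_num) (by norm_num) (by norm_num) (by norm_num) (by norm_num) (by norm_num) (by norm_num) (by norm_num)
      exact sub_nonneg.1 (h.trans_eq (by unfold B2; ring))
    · have h : 0 ≤ B2 (2163 / 12500000) (222211 / 25000000) (102071 / 100000000) (120737 / 6250000) (675923 / 12500000) (968327 / 50000000) (18863 / 12500000) (247843 / 25000000) (70999 / 100000000) a b := B2_nonneg ha hb (by norm_num) (by norm_num) (by norm_num) (by norm_num) (by norm_num) (by norm_num) (by norm_num) (by norm_num) (by norm_num)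
      exact sub_nonneg.1 (h.trans_eq (by unfold B2; ring))
    · have h : 0 ≤ B1 (2823 / 58000) (5111 / 58000) (211 / 5800) (2199 / 29000) a b := B1_nonneg ha hb (by norm_num) (by norm_num) (by norm_num) (by norm_num)
      exact sub_nonneg.1 (h.trans_eq (by unfold B1; ring))
    · have h : 0 ≤ B4 (326462471207828557 / 4000000000000000000) (4925472732076371313 / 16000000000000000000) (21164067995088816677 / 48000000000000000000) (13666336377123202493 / 48000000000000000000) (1120378974589852357 / 16000000000000000000) (379228311260554862173 / 1120000000000000000000) (1071494701454903049641 / 840000000000000000000) (3065376600237549261211 / 1680000000000000000000) (988385374690504514207 / 840000000000000000000) (971082170324867146451 / 3360000000000000000000) (1830232242192408041399 / 3360000000000000000000) (3450355811996298489751 / 1680000000000000000000) (822889484660728001897 / 280000000000000000000) (454784957061808011787 / 240000000000000000000) (1562794964736765080357 / 3360000000000000000000) (3224151847603822583 / 8000000000000000000) (426680390354368842219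 / 280000000000000000000) (229435881475935012763 / 105000000000000000000) (169257473065035132071 / 120000000000000000000) (19388032447498065189 / 56000000000000000000) (3873679917682860421 / 33600000000000000000) (12259021602861694583 / 28000000000000000000) (529135708030016435171 / 840000000000000000000) (57046574971627725637 / 140000000000000000000) (1751508165490192617 / 17500000000000000000) a b := B4_nonneg ha hb (by norm_num) (by norm_num) (by norm_num) (by norm_num) (by norm_num) (by norm_num) (by norm_num) (by norm_num) (by norm_num) (by norm_num) (by norm_num) (by norm_num) (by norm_num) (by norm_num) (by norm_num) (by norm_num) (by norm_num) (by norm_num) (by norm_num) (by norm_num) (by norm_num) (by norm_num) (by norm_num) (by norm_num) (by norm_num)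
      exact sub_nonneg.1 (h.trans_eq (by unfold B4 Q4; ring))

theorem twob_4 {x y : ℝ} (h0 : 9 / 10 ≤ x) (h1 : x ≤ 49 / 40) (k0 : 9 / 20 ≤ y) (k1 : y ≤ 5 / 8) :
    CenXY x y ∨ TwoAny x y := by
  rcases le_total x (17 / 16) with h | h
  · exact Or.inr (twob_5 h0 h k0 k1)
  · exact Or.inr (twob_6 h h1 k0 k1)

theorem twob_9 {x y : ℝ} (h0 : 9 / 10 ≤ x) (h1 : x ≤ 17 / 16) (k0 : 5 / 8 ≤ y) (k1 : y ≤ 57 / 80) :
    TwoAny x y := by
  obtain ⟨a, ha, rfl⟩ := affine01 h0 h1 (by norm_num)
  obtain ⟨b, hb, rfl⟩ := affine01 k0 k1 (by norm_num)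
  refine ⟨1, by norm_num, ?_, ?_⟩
  · refine ⟨3 / 5, 3 / 4, 643501 / 1000000, 5 / 4, 1221 / 2000 + 447 / 2500 * a + 543 / 10000 * b, 83 / 500 + 1121 / 10000 * a + (-(28 / 625)) * b, 179 / 250 + 1143 / 10000 * a + 2 / 125 * b, (9 / 10 + (17 / 16 - 9 / 10) * a) - (5 / 8 + (57 / 80 - 5 / 8) * b), trigQ_6, ?_, ?_, ?_, ?_, ?_, ?_, ?_, ?_, ?_⟩
    · have h : 0 ≤ B1 (1221 / 2000) (831 / 1250) (7893 / 10000) (2109 / 2500) a b := B1_nonneg ha hb (by norm_num) (by norm_num) (by norm_num) (by norm_num)
      exact sub_nonneg.1 (h.trans_eq (by unfold B1; ring))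
    · have h : 0 ≤ B1 (779 / 2000) (419 / 1250) (2107 / 10000) (391 / 2500) a b := B1_nonneg ha hb (by norm_num) (by norm_num) (by norm_num) (by norm_num)
      exact sub_nonneg.1 (h.trans_eq (by unfold B1; ring))
    · have h : 0 ≤ B1 (83 / 500) (303 / 2500) (2781 / 10000) (2333 / 10000) a b := B1_nonneg ha hb (by norm_num) (by norm_num) (by norm_num) (by norm_num)
      exact sub_nonneg.1 (h.trans_eq (by unfold B1; ring))
    · have h : 0 ≤ B1 (179 / 250) (183 / 250) (8303 / 10000) (8463 / 10000) a b := B1_nonneg ha hb (by norm_num) (by norm_num) (by norm_num) (by norm_num)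
      exact sub_nonneg.1 (h.trans_eq (by unfold B1; ring))
    · rw [abs_sub_comm]; exact le_abs_self _
    · have h : 0 ≤ B2 (6151 / 4000000) (110607 / 20000000) (28599 / 400000000) (415041 / 20000000) (9869717 / 200000000) (2075433 / 100000000) (18531 / 400000000) (548229 / 100000000) (75743 / 50000000) a b := B2_nonneg ha hb (by norm_num) (by norm_num) (by norm_num) (by norm_num) (by norm_num) (by norm_num) (by norm_num) (by norm_num) (by norm_num)
      exact sub_nonneg.1 (h.trans_eq (by unfold B2; ring))
    · have h : 0 ≤ B2 (751 / 4000000) (17679 / 4000000) (32991 / 16000000) (154979 / 10000000) (354267 / 10000000) (623547 / 40000000) (112283 / 50000000) (487797 / 100000000) (184899 / 400000000) a b := B2_nonneg ha hb (by norm_num) (by norm_num) (by norm_num) (by norm_num) (by norm_num) (by norm_num) (by norm_num) (by norm_num) (by norm_num)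
      exact sub_nonneg.1 (h.trans_eq (by unfold B2; ring))
    · have h : 0 ≤ B1 (663 / 10000) (309 / 3125) (277 / 25000) (2183 / 50000) a b := B1_nonneg ha hb (by norm_num) (by norm_num) (by norm_num) (by norm_num)
      exact sub_nonneg.1 (h.trans_eq (by unfold B1; ring))
    · have h : 0 ≤ B2 (275576240241 / 8000000000000) (1004407822683 / 20000000000000) (263300566619 / 12500000000000) (467295927789 / 10000000000000) (5458325904819 / 100000000000000) (460875868007 / 25000000000000) (7843762235699 / 200000000000000) (1455884119337 / 25000000000000) (75960118189 / 3125000000000) a b := B2_nonneg ha hb (by norm_num) (by norm_num) (by norm_num) (by norm_num) (by norm_num) (by norm_num) (by norm_num) (by norm_num) (by norm_num)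
      exact sub_nonneg.1 (h.trans_eq (by unfold B2; ring))
  · refine ⟨20 / 29, 20 / 21, 190253 / 250000, 29 / 21, 5039 / 10000 + 1637 / 10000 * a + 9 / 250 * b, 1783 / 10000 + 1191 / 10000 * a + (-(441 / 10000)) * b, 1593 / 2500 + 1171 / 10000 * a + 3 / 625 * b, (9 / 10 + (17 / 16 - 9 / 10) * a) - (5 / 8 + (57 / 80 - 5 / 8) * b), trigQ_7, ?_, ?_, ?_, ?_, ?_, ?_, ?_, ?_, ?_⟩
    · have h : 0 ≤ B1 (5039 / 10000) (5399 / 10000) (1669 / 2500) (1759 / 2500) a b := B1_nonneg ha hb (by norm_num) (by norm_num) (by norm_num) (by norm_num)
      exact sub_nonneg.1 (h.trans_eq (by unfold B1; ring))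
    · have h : 0 ≤ B1 (4961 / 10000) (4601 / 10000) (831 / 2500) (741 / 2500) a b := B1_nonneg ha hb (by norm_num) (by norm_num) (by norm_num) (by norm_num)
      exact sub_nonneg.1 (h.trans_eq (by unfold B1; ring))
    · have h : 0 ≤ B1 (1783 / 10000) (671 / 5000) (1487 / 5000) (2533 / 10000) a b := B1_nonneg ha hb (by norm_num) (by norm_num) (by norm_num) (by norm_num)
      exact sub_nonneg.1 (h.trans_eq (by unfold B1; ring))
    · have h : 0 ≤ B1 (1593 / 2500) (321 / 500) (7543 / 10000) (7591 / 10000) a b := B1_nonneg ha hb (by norm_num) (by norm_num) (by norm_num) (by norm_num)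
      exact sub_nonneg.1 (h.trans_eq (by unfold B1; ring))
    · rw [abs_sub_comm]; exact le_abs_self _
    · have h : 0 ≤ B2 (160143 / 50000000) (716303 / 100000000) (40519 / 400000000) (2404091 / 100000000) (11167087 / 200000000) (1203839 / 50000000) (20671 / 400000000) (354983 / 50000000) (318911 / 100000000) a b := B2_nonneg ha hb (by norm_num) (by norm_num) (by norm_num) (by norm_num) (by norm_num) (by norm_num) (by norm_num) (by norm_num) (by norm_num)
      exact sub_nonneg.1 (h.trans_eq (by unfold B2; ring))
    · have h : 0 ≤ B2 (21991 / 100000000) (59579 / 20000000) (13151 / 16000000) (745379 / 50000000) (1688463 / 50000000) (599499 / 40000000) (48763 / 50000000) (336549 / 100000000) (181251 / 400000000) a b := B2_nonneg ha hb (by norm_num) (by norm_num) (by norm_num) (by norm_num) (by norm_num) (by norm_num) (by norm_num) (by norm_num) (by norm_num)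
      exact sub_nonneg.1 (h.trans_eq (by unfold B2; ring))
    · have h : 0 ≤ B1 (1989 / 14500) (81 / 500) (5079 / 58000) (6519 / 58000) a b := B1_nonneg ha hb (by norm_num) (by norm_num) (by norm_num) (by norm_num)
      exact sub_nonneg.1 (h.trans_eq (by unfold B1; ring))
    · have h : 0 ≤ B4 (14391691938928113197 / 280000000000000000000) (223200113441867032367 / 1120000000000000000000) (653000710279677021221 / 2240000000000000000000) (53414068864841189443 / 280000000000000000000) (105578532011361653481 / 2240000000000000000000) (237340739742679021737 / 1120000000000000000000) (918129795980614765663 / 1120000000000000000000) (2679961322272309089059 / 2240000000000000000000) (437445115615468484509 / 560000000000000000000) (431397252665436336829 / 2240000000000000000000) (760052684968535592069 / 2240000000000000000000) (1468415160847991004323 / 1120000000000000000000) (4280381668996893178449 / 2240000000000000000000) (697587281642312742309 / 560000000000000000000) (171686273574951051841 / 560000000000000000000) (561866275139087848751 / 2240000000000000000000) (1085783790746388186587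 / 1120000000000000000000) (3164509421969914210991 / 2240000000000000000000) (257711484484670359683 / 280000000000000000000) (31680235016321074431 / 140000000000000000000) (1152582386746324247 / 16000000000000000000) (1115351115846946127 / 4000000000000000000) (6507774035468950717 / 16000000000000000000) (530188090045764581 / 2000000000000000000) (65159547596164137 / 1000000000000000000) a b := B4_nonneg ha hb (by norm_num) (by norm_num) (by norm_num) (by norm_num) (by norm_num) (by norm_num) (by norm_num) (by norm_num) (by norm_num) (by norm_num) (by norm_num) (by norm_num) (by norm_num) (by norm_num) (by norm_num) (by norm_num) (by norm_num) (by norm_num) (by norm_num) (by norm_num) (by norm_num) (by norm_num) (by norm_num) (by norm_num) (by norm_num)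
      exact sub_nonneg.1 (h.trans_eq (by unfold B4 Q4; ring))

theorem twob_11 {x y : ℝ} (h0 : 9 / 10 ≤ x) (h1 : x ≤ 157 / 160) (k0 : 57 / 80 ≤ y) (k1 : y ≤ 4 / 5) :
    TwoAny x y := by
  obtain ⟨a, ha, rfl⟩ := affine01 h0 h1 (by norm_num)
  obtain ⟨b, hb, rfl⟩ := affine01 k0 k1 (by norm_num)
  refine ⟨1, by norm_num, ?_, ?_⟩
  · refine ⟨3 / 5, 3 / 4, 643501 / 1000000, 5 / 4, 6659 / 10000 + 829 / 10000 * a + 123 / 2000 * b, 1209 / 10000 + 283 / 5000 * a + (-(259 / 5000)) * b, 367 / 500 + 269 / 5000 * a + 23 / 1250 * b, (9 / 10 + (157 / 160 - 9 / 10) * a) - (57 / 80 + (4 / 5 - 57 / 80) * b), trigQ_6, ?_, ?_, ?_, ?_, ?_, ?_, ?_, ?_, ?_⟩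
    · have h : 0 ≤ B1 (6659 / 10000) (3637 / 5000) (468 / 625) (8103 / 10000) a b := B1_nonneg ha hb (by norm_num) (by norm_num) (by norm_num) (by norm_num)
      exact sub_nonneg.1 (h.trans_eq (by unfold B1; ring))
    · have h : 0 ≤ B1 (3341 / 10000) (1363 / 5000) (157 / 625) (1897 / 10000) a b := B1_nonneg ha hb (by norm_num) (by norm_num) (by norm_num) (by norm_num)
      exact sub_nonneg.1 (h.trans_eq (by unfold B1; ring))
    · have h : 0 ≤ B1 (1209 / 10000) (691 / 10000) (71 / 400) (1257 / 10000) a b := B1_nonneg ha hb (by norm_num) (by norm_num) (by norm_num) (by norm_num)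
      exact sub_nonneg.1 (h.trans_eq (by unfold B1; ring))
    · have h : 0 ≤ B1 (367 / 500) (1881 / 2500) (3939 / 5000) (4031 / 5000) a b := B1_nonneg ha hb (by norm_num) (by norm_num) (by norm_num) (by norm_num)
      exact sub_nonneg.1 (h.trans_eq (by unfold B1; ring))
    · rw [abs_sub_comm]; exact le_abs_self _
    · have h : 0 ≤ B2 (497651 / 400000000) (298331 / 50000000) (12519 / 100000000) (99113 / 16000000) (8661971 / 400000000) (39161 / 6250000) (247 / 2560000) (191373 / 32000000) (2058591 / 1600000000) a b := B2_nonneg ha hb (by norm_num) (by norm_num) (by norm_num) (by norm_num) (by norm_num) (by norm_num) (by norm_num) (by norm_num) (by norm_num)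
      exact sub_nonneg.1 (h.trans_eq (by unfold B2; ring))
    · have h : 0 ≤ B2 (3679 / 16000000) (4721 / 1250000) (8089 / 6250000) (175259 / 40000000) (5241 / 390625) (14157 / 3125000) (502839 / 400000000) (48141 / 12500000) (8539 / 25000000) a b := B2_nonneg ha hb (by norm_num) (by norm_num) (by norm_num) (by norm_num) (by norm_num) (by norm_num) (by norm_num) (by norm_num) (by norm_num)
      exact sub_nonneg.1 (h.trans_eq (by unfold B2; ring))
    · have h : 0 ≤ B1 (4977 / 50000) (3411 / 25000) (6803 / 100000) (10493 / 100000) a b := B1_nonneg ha hb (by norm_num) (by norm_num) (by norm_num) (by norm_num)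
      exact sub_nonneg.1 (h.trans_eq (by unfold B1; ring))
    · have h : 0 ≤ B2 (4209207690031 / 200000000000000) (637934402579 / 25000000000000) (527852791269 / 50000000000000) (7236864813809 / 200000000000000) (7582582176553 / 200000000000000) (1390002315847 / 100000000000000) (1080361768161 / 50000000000000) (5066686853653 / 200000000000000) (490595853871 / 50000000000000) a b := B2_nonneg ha hb (by norm_num) (by norm_num) (by norm_num) (by norm_num) (by norm_num) (by norm_num) (by norm_num) (by norm_num) (by norm_num)
      exact sub_nonneg.1 (h.trans_eq (by unfold B2; ring))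
  · refine ⟨3 / 5, 3 / 4, 643501 / 1000000, 5 / 4, 2807 / 5000 + 741 / 10000 * a + 427 / 10000 * b, 27 / 200 + 623 / 10000 * a + (-(271 / 5000)) * b, 659 / 1000 + 537 / 10000 * a + 7 / 1000 * b, (9 / 10 + (157 / 160 - 9 / 10) * a) - (57 / 80 + (4 / 5 - 57 / 80) * b), trigQ_6, ?_, ?_, ?_, ?_, ?_, ?_, ?_, ?_, ?_⟩
    · have h : 0 ≤ B1 (2807 / 5000) (6041 / 10000) (1271 / 2000) (3391 / 5000) a b := B1_nonneg ha hb (by norm_num) (by norm_num) (by norm_num) (by norm_num)
      exact sub_nonneg.1 (h.trans_eq (by unfold B1; ring))
    · have h : 0 ≤ B1 (2193 / 5000) (3959 / 10000) (729 / 2000) (1609 / 5000) a b := B1_nonneg ha hb (by norm_num) (by norm_num) (by norm_num) (by norm_num)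
      exact sub_nonneg.1 (h.trans_eq (by unfold B1; ring))
    · have h : 0 ≤ B1 (27 / 200) (101 / 1250) (1973 / 10000) (1431 / 10000) a b := B1_nonneg ha hb (by norm_num) (by norm_num) (by norm_num) (by norm_num)
      exact sub_nonneg.1 (h.trans_eq (by unfold B1; ring))
    · have h : 0 ≤ B1 (659 / 1000) (333 / 500) (7127 / 10000) (7197 / 10000) a b := B1_nonneg ha hb (by norm_num) (by norm_num) (by norm_num) (by norm_num)
      exact sub_nonneg.1 (h.trans_eq (by unfold B1; ring))
    · rw [abs_sub_comm]; exact le_abs_self _
    · have h : 0 ≤ B2 (13687 / 640000) (45309 / 1000000) (29799 / 1562500) (737939 / 16000000) (40774853 / 400000000) (2305627 / 50000000) (30725711 / 1600000000) (36451817 / 800000000) (34415199 / 1600000000) a b := B2_nonneg ha hb (by norm_num) (by norm_num) (by norm_num) (by norm_num) (by norm_num) (by norm_num) (by norm_num) (by norm_num) (by norm_num)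
      exact sub_nonneg.1 (h.trans_eq (by unfold B2; ring))
    · have h : 0 ≤ B2 (3279 / 16000000) (339 / 125000) (17 / 31250) (149331 / 40000000) (11319 / 1000000) (9149 / 2500000) (257859 / 400000000) (141981 / 50000000) (23191 / 100000000) a b := B2_nonneg ha hb (by norm_num) (by norm_num) (by norm_num) (by norm_num) (by norm_num) (by norm_num) (by norm_num) (by norm_num) (by norm_num)
      exact sub_nonneg.1 (h.trans_eq (by unfold B2; ring))
    · have h : 0 ≤ B1 (921 / 25000) (3123 / 50000) (1 / 20000) (2567 / 100000) a b := B1_nonneg ha hb (by norm_num) (by norm_num) (by norm_num) (by norm_num)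
      exact sub_nonneg.1 (h.trans_eq (by unfold B1; ring))
    · have h : 0 ≤ B4 (3257123663882252391 / 80000000000000000000) (10073179881684702697 / 64000000000000000000) (147500339894162959339 / 640000000000000000000) (19405035261349576461 / 128000000000000000000) (3024955739796741351 / 80000000000000000000) (26841941507612523983 / 160000000000000000000) (207144864074205410639 / 320000000000000000000) (1210815676834837791123 / 1280000000000000000000) (397385299410329583117 / 640000000000000000000) (197798846221742825803 / 1280000000000000000000) (83903882187194068257 / 320000000000000000000) (1293142850365526328049 / 1280000000000000000000) (471611081953400867883 / 320000000000000000000) (1235825448222504667329 / 1280000000000000000000) (153454221012825625409 / 640000000000000000000) (23585281085207163887 / 128000000000000000000) (453945731285193002859 / 640000000000000000000) (1322678954568530336699 / 1280000000000000000000) (216257562658009238981 / 320000000000000000000) (214389947781820986073 / 1280000000000000000000) (1257176710841590389 / 25600000000000000000)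 (48372894173597453257 / 256000000000000000000) (88012405950359684403 / 320000000000000000000) (229925048616695690219 / 1280000000000000000000) (28440530070582349721 / 640000000000000000000) a b := B4_nonneg ha hb (by norm_num) (by norm_num) (by norm_num) (by norm_num) (by norm_num) (by norm_num) (by norm_num) (by norm_num) (by norm_num) (by norm_num) (by norm_num) (by norm_num) (by norm_num) (by norm_num) (by norm_num) (by norm_num) (by norm_num) (by norm_num) (by norm_num) (by norm_num) (by norm_num) (by norm_num) (by norm_num) (by norm_num) (by norm_num)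
      exact sub_nonneg.1 (h.trans_eq (by unfold B4 Q4; ring))

theorem twob_12 {x y : ℝ} (h0 : 157 / 160 ≤ x) (h1 : x ≤ 17 / 16) (k0 : 57 / 80 ≤ y) (k1 : y ≤ 4 / 5) :
    TwoAny x y := by
  obtain ⟨a, ha, rfl⟩ := affine01 h0 h1 (by norm_num)
  obtain ⟨b, hb, rfl⟩ := affine01 k0 k1 (by norm_num)
  refine ⟨1, by norm_num, ?_, ?_⟩
  · refine ⟨3 / 5, 3 / 4, 643501 / 1000000, 5 / 4, 937 / 1250 + 937 / 10000 * a + 597 / 10000 * b, 353 / 2000 + 593 / 10000 * a + (-(249 / 5000)) * b, 789 / 1000 + 567 / 10000 * a + 161 / 10000 * b, (157 / 160 + (17 / 16 - 157 / 160) * a) - (57 / 80 + (4 / 5 - 57 / 80) * b), trigQ_6, ?_, ?_, ?_, ?_, ?_, ?_, ?_, ?_, ?_⟩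
    · have h : 0 ≤ B1 (937 / 1250) (8093 / 10000) (8433 / 10000) (903 / 1000) a b := B1_nonneg ha hb (by norm_num) (by norm_num) (by norm_num) (by norm_num)
      exact sub_nonneg.1 (h.trans_eq (by unfold B1; ring))
    · have h : 0 ≤ B1 (313 / 1250) (1907 / 10000) (1567 / 10000) (97 / 1000) a b := B1_nonneg ha hb (by norm_num) (by norm_num) (by norm_num) (by norm_num)
      exact sub_nonneg.1 (h.trans_eq (by unfold B1; ring))
    · have h : 0 ≤ B1 (353 / 2000) (1267 / 10000) (1179 / 5000) (93 / 500) a b := B1_nonneg ha hb (by norm_num) (by norm_num) (by norm_num) (by norm_num)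
      exact sub_nonneg.1 (h.trans_eq (by unfold B1; ring))
    · have h : 0 ≤ B1 (789 / 1000) (8051 / 10000) (8457 / 10000) (4309 / 5000) a b := B1_nonneg ha hb (by norm_num) (by norm_num) (by norm_num) (by norm_num)
      exact sub_nonneg.1 (h.trans_eq (by unfold B1; ring))
    · rw [abs_sub_comm]; exact le_abs_self _
    · have h : 0 ≤ B2 (80031 / 64000000) (908609 / 160000000) (54751 / 1600000000) (258379 / 40000000) (8650487 / 400000000) (510283 / 80000000) (4211 / 100000000) (112273 / 20000000) (18839 / 16000000) a b := B2_nonneg ha hb (by norm_num) (by norm_num) (by norm_num) (by norm_num) (by norm_num) (by norm_num) (by norm_num) (by norm_num) (by norm_num)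
      exact sub_nonneg.1 (h.trans_eq (by unfold B2; ring))
    · have h : 0 ≤ B2 (2639 / 16000000) (17261 / 5000000) (111399 / 100000000) (182291 / 40000000) (676673 / 50000000) (115741 / 25000000) (470979 / 400000000) (91287 / 25000000) (7519 / 25000000) a b := B2_nonneg ha hb (by norm_num) (by norm_num) (by norm_num) (by norm_num) (by norm_num) (by norm_num) (by norm_num) (by norm_num) (by norm_num)
      exact sub_nonneg.1 (h.trans_eq (by unfold B2; ring))
    · have h : 0 ≤ B1 (6851 / 100000) (10433 / 100000) (1087 / 25000) (793 / 10000) a b := B1_nonneg ha hb (by norm_num) (by norm_num) (by norm_num) (by norm_num)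
      exact sub_nonneg.1 (h.trans_eq (by unfold B1; ring))
    · have h : 0 ≤ B2 (1061163003879 / 50000000000000) (5167291753631 / 200000000000000) (1033005096137 / 100000000000000) (7825439298411 / 200000000000000) (8755650275673 / 200000000000000) (160847594279 / 10000000000000) (5020906527989 / 200000000000000) (646859701223 / 20000000000000) (3238826173 / 250000000000) a b := B2_nonneg ha hb (by norm_num) (by norm_num) (by norm_num) (by norm_num) (by norm_num) (by norm_num) (by norm_num) (by norm_num) (by norm_num)
      exact sub_nonneg.1 (h.trans_eq (by unfold B2; ring))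
  · refine ⟨20 / 29, 20 / 21, 190253 / 250000, 29 / 21, 771 / 1250 + 427 / 5000 * a + 199 / 5000 * b, 1927 / 10000 + 639 / 10000 * a + (-(63 / 1250)) * b, 3499 / 5000 + 583 / 10000 * a + 23 / 5000 * b, (157 / 160 + (17 / 16 - 157 / 160) * a) - (57 / 80 + (4 / 5 - 57 / 80) * b), trigQ_7, ?_, ?_, ?_, ?_, ?_, ?_, ?_, ?_, ?_⟩
    · have h : 0 ≤ B1 (771 / 1250) (3283 / 5000) (3511 / 5000) (371 / 500) a b := B1_nonneg ha hb (by norm_num) (by norm_num) (by norm_num) (by norm_num)
      exact sub_nonneg.1 (h.trans_eq (by unfold B1; ring))
    · have h : 0 ≤ B1 (479 / 1250) (1717 / 5000) (1489 / 5000) (129 / 500) a b := B1_nonneg ha hb (by norm_num) (by norm_num) (by norm_num) (by norm_num)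
      exact sub_nonneg.1 (h.trans_eq (by unfold B1; ring))
    · have h : 0 ≤ B1 (1927 / 10000) (1423 / 10000) (1283 / 5000) (1031 / 5000) a b := B1_nonneg ha hb (by norm_num) (by norm_num) (by norm_num) (by norm_num)
      exact sub_nonneg.1 (h.trans_eq (by unfold B1; ring))
    · have h : 0 ≤ B1 (3499 / 5000) (1761 / 2500) (7581 / 10000) (7627 / 10000) a b := B1_nonneg ha hb (by norm_num) (by norm_num) (by norm_num) (by norm_num)
      exact sub_nonneg.1 (h.trans_eq (by unfold B1; ring))
    · rw [abs_sub_comm]; exact le_abs_self _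
    · have h : 0 ≤ B2 (3676111 / 1600000000) (5511689 / 800000000) (220511 / 1600000000) (813761 / 100000000) (10068989 / 400000000) (3250567 / 400000000) (2661 / 25000000) (340783 / 50000000) (901999 / 400000000) a b := B2_nonneg ha hb (by norm_num) (by norm_num) (by norm_num) (by norm_num) (by norm_num) (by norm_num) (by norm_num) (by norm_num) (by norm_num)
      exact sub_nonneg.1 (h.trans_eq (by unfold B2; ring))
    · have h : 0 ≤ B2 (66359 / 400000000) (15761 / 6250000) (2629 / 6250000) (827023 / 200000000) (60569 / 5000000) (51353 / 12500000) (228131 / 400000000) (139713 / 50000000) (28871 / 100000000) a b := B2_nonneg ha hb (by norm_num) (by norm_num) (by norm_num) (by norm_num) (by norm_num) (by norm_num) (by norm_num) (by norm_num) (by norm_num)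
      exact sub_nonneg.1 (h.trans_eq (by unfold B2; ring))
    · have h : 0 ≤ B1 (15519 / 116000) (18703 / 116000) (6463 / 58000) (1611 / 11600) a b := B1_nonneg ha hb (by norm_num) (by norm_num) (by norm_num) (by norm_num)
      exact sub_nonneg.1 (h.trans_eq (by unfold B1; ring))
    · have h : 0 ≤ B4 (8807852733332741863 / 160000000000000000000) (136708292422840162077 / 640000000000000000000) (4207078047721938230431 / 13440000000000000000000) (2760821924468991973279 / 13440000000000000000000) (228252796008915609991 / 4480000000000000000000) (145440792249028242913 / 640000000000000000000) (5919474410068350214313 / 6720000000000000000000) (309440937918508587251 / 240000000000000000000) (5678482034219105360063 / 6720000000000000000000) (2812963727908837161523 / 13440000000000000000000) (4776077192814849279313 / 13440000000000000000000) (18499824977866703991133 / 13440000000000000000000) (9017829673275523802659 / 4480000000000000000000) (17710910276897894703607 / 13440000000000000000000) (87623380842463560149 / 268800000000000000000) (139712445561442066823 / 560000000000000000000)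 (154564319802112340971 / 160000000000000000000) (4743716716758696893893 / 3360000000000000000000) (88652277506376296219 / 96000000000000000000) (10222520512535736443 / 44800000000000000000) (99488672800156597 / 1500000000000000000) (2054555098076065283 / 8000000000000000000) (36021373735162563023 / 96000000000000000000) (1569786056173335959 / 6400000000000000000) (38752021500934917 / 640000000000000000) a b := B4_nonneg ha hb (by norm_num) (by norm_num) (by norm_num) (by norm_num) (by norm_num) (by norm_num) (by norm_num) (by norm_num) (by norm_num) (by norm_num) (by norm_num) (by norm_num) (by norm_num) (by norm_num) (by norm_num) (by norm_num) (by norm_num) (by norm_num) (by norm_num) (by norm_num) (by norm_num) (by norm_num) (by norm_num) (by norm_num) (by norm_num)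
      exact sub_nonneg.1 (h.trans_eq (by unfold B4 Q4; ring))

theorem twob_10 {x y : ℝ} (h0 : 9 / 10 ≤ x) (h1 : x ≤ 17 / 16) (k0 : 57 / 80 ≤ y) (k1 : y ≤ 4 / 5) :
    CenXY x y ∨ TwoAny x y := by
  rcases le_total x (157 / 160) with h | h
  · exact Or.inr (twob_11 h0 h k0 k1)
  · exact Or.inr (twob_12 h h1 k0 k1)

theorem twob_8 {x y : ℝ} (h0 : 9 / 10 ≤ x) (h1 : x ≤ 17 / 16) (k0 : 5 / 8 ≤ y) (k1 : y ≤ 4 / 5) :
    CenXY x y ∨ TwoAny x y := by
  rcases le_total y (57 / 80) with h | h
  · exact Or.inr (twob_9 h0 h1 k0 h)
  · exact twob_10 h0 h1 h k1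

theorem twob_13 {x y : ℝ} (h0 : 17 / 16 ≤ x) (h1 : x ≤ 49 / 40) (k0 : 5 / 8 ≤ y) (k1 : y ≤ 4 / 5) :
    TwoAny x y := by
  obtain ⟨a, ha, rfl⟩ := affine01 h0 h1 (by norm_num)
  obtain ⟨b, hb, rfl⟩ := affine01 k0 k1 (by norm_num)
  refine ⟨3 / 2, by norm_num, ?_, ?_⟩
  · refine ⟨20 / 29, 20 / 21, 190253 / 250000, 29 / 21, 989 / 1250 + 2233 / 10000 * a + 219 / 2000 * b, 1369 / 5000 + 1247 / 10000 * a + (-(911 / 10000)) * b, 4163 / 5000 + 307 / 2500 * a + 259 / 10000 * b, (17 / 16 + (49 / 40 - 17 / 16) * a) - (5 / 8 + (4 / 5 - 5 / 8) * b), trigQ_7, ?_, ?_, ?_, ?_, ?_, ?_, ?_, ?_, ?_⟩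
    · have h : 0 ≤ B1 (989 / 1250) (9007 / 10000) (2029 / 2000) (281 / 250) a b := B1_nonneg ha hb (by norm_num) (by norm_num) (by norm_num) (by norm_num)
      exact sub_nonneg.1 (h.trans_eq (by unfold B1; ring))
    · have h : 0 ≤ B1 (443 / 625) (5993 / 10000) (971 / 2000) (47 / 125) a b := B1_nonneg ha hb (by norm_num) (by norm_num) (by norm_num) (by norm_num)
      exact sub_nonneg.1 (h.trans_eq (by unfold B1; ring))
    · have h : 0 ≤ B1 (1369 / 5000) (1827 / 10000) (797 / 2000) (1537 / 5000) a b := B1_nonneg ha hb (by norm_num) (by norm_num) (by norm_num) (by norm_num)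
      exact sub_nonneg.1 (h.trans_eq (by unfold B1; ring))
    · have h : 0 ≤ B1 (4163 / 5000) (1717 / 2000) (4777 / 5000) (9813 / 10000) a b := B1_nonneg ha hb (by norm_num) (by norm_num) (by norm_num) (by norm_num)
      exact sub_nonneg.1 (h.trans_eq (by unfold B1; ring))
    · rw [abs_sub_comm]; exact le_abs_self _
    · have h : 0 ≤ B2 (1727799 / 400000000) (4073821 / 200000000) (37659 / 400000000) (265439 / 10000000) (8504961 / 100000000) (2659479 / 100000000) (291 / 4000000) (50943 / 2500000) (434899 / 100000000) a b := B2_nonneg ha hb (by norm_num) (by norm_num) (by norm_num) (by norm_num) (by norm_num) (by norm_num) (by norm_num) (by norm_num) (by norm_num)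
      exact sub_nonneg.1 (h.trans_eq (by unfold B2; ring))
    · have h : 0 ≤ B2 (32099 / 100000000) (61629 / 5000000) (14711 / 4000000) (972771 / 50000000) (87371 / 1562500) (198079 / 10000000) (405459 / 100000000) (335799 / 25000000) (105031 / 100000000) a b := B2_nonneg ha hb (by norm_num) (by norm_num) (by norm_num) (by norm_num) (by norm_num) (by norm_num) (by norm_num) (by norm_num) (by norm_num)
      exact sub_nonneg.1 (h.trans_eq (by unfold B2; ring))
    · have h : 0 ≤ B1 (10023 / 58000) (14403 / 58000) (953 / 5800) (1391 / 5800) a b := B1_nonneg ha hb (by norm_num) (by norm_num) (by norm_num) (by norm_num)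
      exact sub_nonneg.1 (h.trans_eq (by unfold B1; ring))
    · have h : 0 ≤ B2 (3097953666531 / 87500000000000) (17235383677131 / 700000000000000) (6341652322683 / 700000000000000) (8593001654057 / 140000000000000) (3694938279811 / 140000000000000) (328947908437 / 70000000000000) (2479115061133 / 42000000000000) (2850823113017 / 42000000000000) (150637741319 / 5250000000000) a b := B2_nonneg ha hb (by norm_num) (by norm_num) (by norm_num) (by norm_num) (by norm_num) (by norm_num) (by norm_num) (by norm_num) (by norm_num)
      exact sub_nonneg.1 (h.trans_eq (by unfold B2; ring))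
  · refine ⟨20 / 29, 20 / 21, 190253 / 250000, 29 / 21, 6737 / 10000 + 2127 / 10000 * a + 341 / 5000 * b, 2959 / 10000 + 1329 / 10000 * a + (-(423 / 5000)) * b, 1897 / 2500 + 1287 / 10000 * a + 7 / 2000 * b, (17 / 16 + (49 / 40 - 17 / 16) * a) - (5 / 8 + (4 / 5 - 5 / 8) * b), trigQ_7, ?_, ?_, ?_, ?_, ?_, ?_, ?_, ?_, ?_⟩
    · have h : 0 ≤ B1 (6737 / 10000) (7419 / 10000) (554 / 625) (4773 / 5000) a b := B1_nonneg ha hb (by norm_num) (by norm_num) (by norm_num) (by norm_num)
      exact sub_nonneg.1 (h.trans_eq (by unfold B1; ring))
    · have h : 0 ≤ B1 (8263 / 10000) (7581 / 10000) (767 / 1250) (2727 / 5000) a b := B1_nonneg ha hb (by norm_num) (by norm_num) (by norm_num) (by norm_num)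
      exact sub_nonneg.1 (h.trans_eq (by unfold B1; ring))
    · have h : 0 ≤ B1 (2959 / 10000) (2113 / 10000) (268 / 625) (1721 / 5000) a b := B1_nonneg ha hb (by norm_num) (by norm_num) (by norm_num) (by norm_num)
      exact sub_nonneg.1 (h.trans_eq (by unfold B1; ring))
    · have h : 0 ≤ B1 (1897 / 2500) (7623 / 10000) (71 / 80) (891 / 1000) a b := B1_nonneg ha hb (by norm_num) (by norm_num) (by norm_num) (by norm_num)
      exact sub_nonneg.1 (h.trans_eq (by unfold B1; ring))
    · rw [abs_sub_comm]; exact le_abs_self _
    · have h : 0 ≤ B2 (2816651 / 400000000) (4376157 / 200000000) (10299 / 400000000) (195851 / 6250000) (9222281 / 100000000) (3125983 / 100000000) (191 / 6250000) (68169 / 3125000) (697011 / 100000000) a b := B2_nonneg ha hb (by norm_num) (by norm_num) (by norm_num) (by norm_num) (by norm_num) (by norm_num) (by norm_num) (by norm_num) (by norm_num)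
      exact sub_nonneg.1 (h.trans_eq (by unfold B2; ring))
    · have h : 0 ≤ B2 (26631 / 100000000) (109169 / 12500000) (79871 / 100000000) (7167 / 400000) (513359 / 10000000) (90407 / 5000000) (87 / 80000) (379 / 40000) (719 / 1000000) a b := B2_nonneg ha hb (by norm_num) (by norm_num) (by norm_num) (by norm_num) (by norm_num) (by norm_num) (by norm_num) (by norm_num) (by norm_num)
      exact sub_nonneg.1 (h.trans_eq (by unfold B2; ring))
    · have h : 0 ≤ B1 (5323 / 58000) (8051 / 58000) (2203 / 29000) (123 / 1000) a b := B1_nonneg ha hb (by norm_num) (by norm_num) (by norm_num) (by norm_num)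
      exact sub_nonneg.1 (h.trans_eq (by unfold B1; ring))
    · have h : 0 ≤ B4 (4307351991827167897 / 64000000000000000000) (24177592841349419123 / 96000000000000000000) (17305871538799930697 / 48000000000000000000) (22527914701564096141 / 96000000000000000000) (11265472955145804049 / 192000000000000000000) (1891376364217455667753 / 6720000000000000000000) (36740889433680313349 / 35000000000000000000) (1676757867808635563029 / 1120000000000000000000) (16984151537029904879 / 17500000000000000000) (1624241390416834590617 / 6720000000000000000000) (77242220326292682041 / 168000000000000000000) (1919938860517281683949 / 1120000000000000000000) (2733995034078753161181 / 1120000000000000000000) (212097922440192771049 / 134400000000000000000) (438478377931517067903 / 1120000000000000000000) (18237594944231971333 / 52500000000000000000) (45450745517491115043 / 35000000000000000000) (3109510386794241128287 / 1680000000000000000000) (334673705048821275801 / 280000000000000000000) (165521530040945655309 / 560000000000000000000) (2671202128459328467 / 26250000000000000000)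 (2006819725489660007 / 5250000000000000000) (38247880563794464861 / 70000000000000000000) (19768608002267240087 / 56000000000000000000) (24389080412040704383 / 280000000000000000000) a b := B4_nonneg ha hb (by norm_num) (by norm_num) (by norm_num) (by norm_num) (by norm_num) (by norm_num) (by norm_num) (by norm_num) (by norm_num) (by norm_num) (by norm_num) (by norm_num) (by norm_num) (by norm_num) (by norm_num) (by norm_num) (by norm_num) (by norm_num) (by norm_num) (by norm_num) (by norm_num) (by norm_num) (by norm_num) (by norm_num) (by norm_num)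
      exact sub_nonneg.1 (h.trans_eq (by unfold B4 Q4; ring))

theorem twob_7 {x y : ℝ} (h0 : 9 / 10 ≤ x) (h1 : x ≤ 49 / 40) (k0 : 5 / 8 ≤ y) (k1 : y ≤ 4 / 5) :
    CenXY x y ∨ TwoAny x y := by
  rcases le_total x (17 / 16) with h | h
  · exact twob_8 h0 h k0 k1
  · exact Or.inr (twob_13 h h1 k0 k1)

theorem twob_3 {x y : ℝ} (h0 : 9 / 10 ≤ x) (h1 : x ≤ 49 / 40) (k0 : 9 / 20 ≤ y) (k1 : y ≤ 4 / 5) :
    CenXY x y ∨ TwoAny x y := by
  rcases le_total y (5 / 8) with h | h
  · exact twob_4 h0 h1 k0 h
  · exact twob_7 h0 h1 h k1

theorem twob_14 {x y : ℝ} (h0 : 49 / 40 ≤ x) (h1 : x ≤ 31 / 20) (k0 : 9 / 20 ≤ y) (k1 : y ≤ 4 / 5) :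
    TwoAny x y := by
  obtain ⟨a, ha, rfl⟩ := affine01 h0 h1 (by norm_num)
  obtain ⟨b, hb, rfl⟩ := affine01 k0 k1 (by norm_num)
  refine ⟨11 / 5, by norm_num, ?_, ?_⟩
  · refine ⟨20 / 29, 20 / 21, 190253 / 250000, 29 / 21, 4677 / 5000 + 783 / 1250 * a + 1887 / 10000 * b, 4681 / 10000 + 1407 / 5000 * a + (-(1537 / 10000)) * b, 1881 / 2000 + 2829 / 10000 * a + 357 / 10000 * b, (49 / 40 + (31 / 20 - 49 / 40) * a) - (9 / 20 + (4 / 5 - 9 / 20) * b), trigQ_7, ?_, ?_, ?_, ?_, ?_, ?_, ?_, ?_, ?_⟩
    · have h : 0 ≤ B1 (4677 / 5000) (11241 / 10000) (7809 / 5000) (3501 / 2000) a b := B1_nonneg ha hb (by norm_num) (by norm_num) (by norm_num) (by norm_num)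
      exact sub_nonneg.1 (h.trans_eq (by unfold B1; ring))
    · have h : 0 ≤ B1 (6323 / 5000) (10759 / 10000) (3191 / 5000) (899 / 2000) a b := B1_nonneg ha hb (by norm_num) (by norm_num) (by norm_num) (by norm_num)
      exact sub_nonneg.1 (h.trans_eq (by unfold B1; ring))
    · have h : 0 ≤ B1 (4681 / 10000) (393 / 1250) (1499 / 2000) (2979 / 5000) a b := B1_nonneg ha hb (by norm_num) (by norm_num) (by norm_num) (by norm_num)
      exact sub_nonneg.1 (h.trans_eq (by unfold B1; ring))
    · have h : 0 ≤ B1 (1881 / 2000) (4881 / 5000) (6117 / 5000) (12591 / 10000) a b := B1_nonneg ha hb (by norm_num) (by norm_num) (by norm_num) (by norm_num)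
      exact sub_nonneg.1 (h.trans_eq (by unfold B1; ring))
    · rw [abs_sub_comm]; exact le_abs_self _
    · have h : 0 ≤ B2 (743807 / 50000000) (3461061 / 50000000) (9639 / 100000000) (1205181 / 10000000) (2185009 / 6250000) (3014649 / 25000000) (199 / 4000000) (345979 / 5000000) (186217 / 12500000) a b := B2_nonneg ha hb (by norm_num) (by norm_num) (by norm_num) (by norm_num) (by norm_num) (by norm_num) (by norm_num) (by norm_num) (by norm_num)
      exact sub_nonneg.1 (h.trans_eq (by unfold B2; ring))
    · have h : 0 ≤ B2 (939 / 4000000) (216339 / 5000000) (278339 / 25000000) (473673 / 5000000) (12743337 / 50000000) (2408329 / 25000000) (180843 / 12500000) (1288353 / 25000000) (516719 / 100000000) a b := B2_nonneg ha hb (by norm_num) (by norm_num) (by norm_num) (by norm_num) (by norm_num) (by norm_num) (by norm_num) (by norm_num) (by norm_num)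
      exact sub_nonneg.1 (h.trans_eq (by unfold B2; ring))
    · have h : 0 ≤ B1 (3183 / 29000) (6957 / 29000) (3143 / 14500) (503 / 1450) a b := B1_nonneg ha hb (by norm_num) (by norm_num) (by norm_num) (by norm_num)
      exact sub_nonneg.1 (h.trans_eq (by unfold B1; ring))
    · have h : 0 ≤ B2 (14840422030943 / 175000000000000) (16667871210063 / 350000000000000) (4808638410663 / 175000000000000) (3455231040191 / 25000000000000) (6030276016111 / 350000000000000) (583508159947 / 70000000000000) (8478315460579 / 37500000000000) (590568816439 / 1875000000000) (6448658133163 / 42000000000000) a b := B2_nonneg ha hb (by norm_num) (by norm_num) (by norm_num) (by norm_num) (by norm_num) (by norm_num) (by norm_num) (by norm_num) (by norm_num)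
      exact sub_nonneg.1 (h.trans_eq (by unfold B2; ring))
  · refine ⟨20 / 29, 20 / 21, 190253 / 250000, 29 / 21, 529 / 625 + 1237 / 2000 * a + 273 / 2500 * b, 2421 / 5000 + 733 / 2500 * a + (-(161 / 1250)) * b, 8919 / 10000 + 2961 / 10000 * a + (-(1 / 10000)) * b, (49 / 40 + (31 / 20 - 49 / 40) * a) - (9 / 20 + (4 / 5 - 9 / 20) * b), trigQ_7, ?_, ?_, ?_, ?_, ?_, ?_, ?_, ?_, ?_⟩
    · have h : 0 ≤ B1 (529 / 625) (2389 / 2500) (14649 / 10000) (15741 / 10000) a b := B1_nonneg ha hb (by norm_num) (by norm_num) (by norm_num) (by norm_num)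
      exact sub_nonneg.1 (h.trans_eq (by unfold B1; ring))
    · have h : 0 ≤ B1 (846 / 625) (3111 / 2500) (7351 / 10000) (6259 / 10000) a b := B1_nonneg ha hb (by norm_num) (by norm_num) (by norm_num) (by norm_num)
      exact sub_nonneg.1 (h.trans_eq (by unfold B1; ring))
    · have h : 0 ≤ B1 (2421 / 5000) (1777 / 5000) (3887 / 5000) (3243 / 5000) a b := B1_nonneg ha hb (by norm_num) (by norm_num) (by norm_num) (by norm_num)
      exact sub_nonneg.1 (h.trans_eq (by unfold B1; ring))
    · have h : 0 ≤ B1 (8919 / 10000) (4459 / 5000) (297 / 250) (11879 / 10000) a b := B1_nonneg ha hb (by norm_num) (by norm_num) (by norm_num) (by norm_num)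
      exact sub_nonneg.1 (h.trans_eq (by unfold B1; ring))
    · rw [abs_sub_comm]; exact le_abs_self _
    · have h : 0 ≤ B2 (2079411 / 100000000) (3407157 / 50000000) (13459 / 100000000) (832599 / 6250000) (9023621 / 25000000) (3332503 / 25000000) (1231 / 25000000) (850709 / 12500000) (259913 / 12500000) a b := B2_nonneg ha hb (by norm_num) (by norm_num) (by norm_num) (by norm_num) (by norm_num) (by norm_num) (by norm_num) (by norm_num) (by norm_num)
      exact sub_nonneg.1 (h.trans_eq (by unfold B2; ring))
    · have h : 0 ≤ B2 (28939 / 100000000) (780179 / 25000000) (7319 / 25000000) (227239 / 2500000) (12155359 / 50000000) (2274039 / 25000000) (2931 / 1000000) (45687 / 1250000) (299359 / 100000000) a b := B2_nonneg ha hb (by norm_num) (by norm_num) (by norm_num) (by norm_num) (by norm_num) (by norm_num) (by norm_num) (by norm_num) (by norm_num)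
      exact sub_nonneg.1 (h.trans_eq (by unfold B2; ring))
    · have h : 0 ≤ B1 (1403 / 29000) (3587 / 29000) (1087 / 7250) (1633 / 7250) a b := B1_nonneg ha hb (by norm_num) (by norm_num) (by norm_num) (by norm_num)
      exact sub_nonneg.1 (h.trans_eq (by unfold B1; ring))
    · have h : 0 ≤ B4 (5367598819925028109 / 52500000000000000000) (10156768706822582213 / 28000000000000000000) (70708245212187735067 / 140000000000000000000) (27756107108288682481 / 84000000000000000000) (12022179982606238509 / 140000000000000000000) (102234273149657895989 / 240000000000000000000) (8969590357431980927 / 6000000000000000000) (82329788393732832917 / 40000000000000000000) (8003449551517256813 / 6000000000000000000) (82708592845914616109 / 240000000000000000000) (108880427143381310583 / 140000000000000000000) (463059209590034449381 / 168000000000000000000) (1066488715775576418203 / 280000000000000000000) (137602955219792056513 / 56000000000000000000) (526591666060035976493 / 840000000000000000000) (48238353627718546381 / 67200000000000000000) (218756774348607121673 / 84000000000000000000)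 (204482702684897929807 / 56000000000000000000) (198227548217650997987 / 84000000000000000000) (199849306017052167893 / 336000000000000000000) (110817616195598076241 / 420000000000000000000) (164662256874339766643 / 168000000000000000000) (390816825980667591117 / 280000000000000000000) (152230604001831652237 / 168000000000000000000) (190378594047658168567 / 840000000000000000000) a b := B4_nonneg ha hb (by norm_num) (by norm_num) (by norm_num) (by norm_num) (by norm_num) (by norm_num) (by norm_num) (by norm_num) (by norm_num) (by norm_num) (by norm_num) (by norm_num) (by norm_num) (by norm_num) (by norm_num) (by norm_num) (by norm_num) (by norm_num) (by norm_num) (by norm_num) (by norm_num) (by norm_num) (by norm_num) (by norm_num) (by norm_num)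
      exact sub_nonneg.1 (h.trans_eq (by unfold B4 Q4; ring))

theorem twob_2 {x y : ℝ} (h0 : 9 / 10 ≤ x) (h1 : x ≤ 31 / 20) (k0 : 9 / 20 ≤ y) (k1 : y ≤ 4 / 5) :
    CenXY x y ∨ TwoAny x y := by
  rcases le_total x (49 / 40) with h | h
  · exact twob_3 h0 h k0 k1
  · exact Or.inr (twob_14 h h1 k0 k1)

theorem twob_22 {x y : ℝ} (h0 : 157 / 160 ≤ x) (h1 : x ≤ 17 / 16) (k0 : 4 / 5 ≤ y) (k1 : y ≤ 27 / 32) :
    TwoAny x y := by
  obtain ⟨a, ha, rfl⟩ := affine01 h0 h1 (by norm_num)
  obtain ⟨b, hb, rfl⟩ := affine01 k0 k1 (by norm_num)
  refine ⟨11 / 10, by norm_num, ?_, ?_⟩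
  · refine ⟨3 / 5, 3 / 4, 643501 / 1000000, 5 / 4, 4049 / 5000 + 461 / 5000 * a + 163 / 5000 * b, 627 / 5000 + 607 / 10000 * a + (-(273 / 10000)) * b, 403 / 500 + 11 / 200 * a + 87 / 10000 * b, (157 / 160 + (17 / 16 - 157 / 160) * a) - (4 / 5 + (27 / 32 - 4 / 5) * b), trigQ_6, ?_, ?_, ?_, ?_, ?_, ?_, ?_, ?_, ?_⟩
    · have h : 0 ≤ B1 (4049 / 5000) (1053 / 1250) (451 / 500) (4673 / 5000) a b := B1_nonneg ha hb (by norm_num) (by norm_num) (by norm_num) (by norm_num)
      exact sub_nonneg.1 (h.trans_eq (by unfold B1; ring))
    · have h : 0 ≤ B1 (1451 / 5000) (161 / 625) (99 / 500) (827 / 5000) a b := B1_nonneg ha hb (by norm_num) (by norm_num) (by norm_num) (by norm_num)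
      exact sub_nonneg.1 (h.trans_eq (by unfold B1; ring))
    · have h : 0 ≤ B1 (627 / 5000) (981 / 10000) (1861 / 10000) (397 / 2500) a b := B1_nonneg ha hb (by norm_num) (by norm_num) (by norm_num) (by norm_num)
      exact sub_nonneg.1 (h.trans_eq (by unfold B1; ring))
    · have h : 0 ≤ B1 (403 / 500) (8147 / 10000) (861 / 1000) (8697 / 10000) a b := B1_nonneg ha hb (by norm_num) (by norm_num) (by norm_num) (by norm_num)
      exact sub_nonneg.1 (h.trans_eq (by unfold B1; ring))
    · rw [abs_sub_comm]; exact le_abs_self _
    · have h : 0 ≤ B2 (1379119 / 1600000000) (441179 / 200000000) (6007 / 50000000) (2534823 / 400000000) (12139987 / 800000000) (1278063 / 200000000) (56091 / 400000000) (919731 / 400000000) (1496471 / 1600000000) a b := B2_nonneg ha hb (by norm_num) (by norm_num) (by norm_num) (by norm_num) (by norm_num) (by norm_num) (by norm_num) (by norm_num) (by norm_num)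
      exact sub_nonneg.1 (h.trans_eq (by unfold B2; ring))
    · have h : 0 ≤ B2 (41 / 250000) (3509 / 2500000) (1096631 / 1600000000) (967 / 250000) (44651 / 5000000) (3163031 / 800000000) (679 / 1000000) (7383 / 5000000) (389431 / 1600000000) a b := B2_nonneg ha hb (by norm_num) (by norm_num) (by norm_num) (by norm_num) (by norm_num) (by norm_num) (by norm_num) (by norm_num) (by norm_num)
      exact sub_nonneg.1 (h.trans_eq (by unfold B2; ring))
    · have h : 0 ≤ B1 (10463 / 100000) (12419 / 100000) (787 / 10000) (4913 / 50000) a b := B1_nonneg ha hb (by norm_num) (by norm_num) (by norm_num) (by norm_num)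
      exact sub_nonneg.1 (h.trans_eq (by unfold B1; ring))
    · have h : 0 ≤ B2 (1020599733177 / 100000000000000) (732881697651 / 50000000000000) (300418782569 / 50000000000000) (41183829299 / 2500000000000) (128825060743 / 6250000000000) (362597802977 / 50000000000000) (13511474627 / 1000000000000) (102211281221 / 5000000000000) (848752064733 / 100000000000000) a b := B2_nonneg ha hb (by norm_num) (by norm_num) (by norm_num) (by norm_num) (by norm_num) (by norm_num) (by norm_num) (by norm_num) (by norm_num)
      exact sub_nonneg.1 (h.trans_eq (by unfold B2; ring))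
  · refine ⟨3 / 5, 3 / 4, 643501 / 1000000, 5 / 4, 6629 / 10000 + 1081 / 10000 * a + 141 / 10000 * b, 1283 / 10000 + 1117 / 10000 * a + (-(89 / 2000)) * b, 7089 / 10000 + 363 / 5000 * a + (-(13 / 5000)) * b, (157 / 160 + (17 / 16 - 157 / 160) * a) - (4 / 5 + (27 / 32 - 4 / 5) * b), trigQ_6, ?_, ?_, ?_, ?_, ?_, ?_, ?_, ?_, ?_⟩
    · have h : 0 ≤ B1 (6629 / 10000) (677 / 1000) (771 / 1000) (7851 / 10000) a b := B1_nonneg ha hb (by norm_num) (by norm_num) (by norm_num) (by norm_num)
      exact sub_nonneg.1 (h.trans_eq (by unfold B1; ring))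
    · have h : 0 ≤ B1 (4371 / 10000) (423 / 1000) (329 / 1000) (3149 / 10000) a b := B1_nonneg ha hb (by norm_num) (by norm_num) (by norm_num) (by norm_num)
      exact sub_nonneg.1 (h.trans_eq (by unfold B1; ring))
    · have h : 0 ≤ B1 (1283 / 10000) (419 / 5000) (6 / 25) (391 / 2000) a b := B1_nonneg ha hb (by norm_num) (by norm_num) (by norm_num) (by norm_num)
      exact sub_nonneg.1 (h.trans_eq (by unfold B1; ring))
    · have h : 0 ≤ B1 (7089 / 10000) (7063 / 10000) (1563 / 2000) (7789 / 10000) a b := B1_nonneg ha hb (by norm_num) (by norm_num) (by norm_num) (by norm_num)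
      exact sub_nonneg.1 (h.trans_eq (by unfold B1; ring))
    · rw [abs_sub_comm]; exact le_abs_self _
    · have h : 0 ≤ B2 (16361951 / 1600000000) (6236893 / 400000000) (1162899 / 400000000) (648431 / 16000000) (12833337 / 160000000) (2781111 / 80000000) (10351 / 640000) (116357 / 3200000) (1134679 / 64000000) a b := B2_nonneg ha hb (by norm_num) (by norm_num) (by norm_num) (by norm_num) (by norm_num) (by norm_num) (by norm_num) (by norm_num) (by norm_num)
      exact sub_nonneg.1 (h.trans_eq (by unfold B2; ring))
    · have h : 0 ≤ B2 (36079 / 100000000) (50393 / 50000000) (258871 / 1600000000) (58893 / 10000000) (318217 / 25000000) (4695063 / 800000000) (1031 / 4000000) (11793 / 10000000) (698039 / 1600000000) a b := B2_nonneg ha hb (by norm_num) (by norm_num) (by norm_num) (by norm_num) (by norm_num) (by norm_num) (by norm_num) (by norm_num) (by norm_num)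
      exact sub_nonneg.1 (h.trans_eq (by unfold B2; ring))
    · have h : 0 ≤ B1 (1649 / 100000) (499 / 20000) (1 / 10000) (107 / 12500) a b := B1_nonneg ha hb (by norm_num) (by norm_num) (by norm_num) (by norm_num)
      exact sub_nonneg.1 (h.trans_eq (by unfold B1; ring))
    · have h : 0 ≤ B4 (30489665298883029939 / 640000000000000000000) (121624682061556036443 / 640000000000000000000) (91273161026630555497 / 320000000000000000000) (12217587518185687859 / 64000000000000000000) (307645698912687741 / 6400000000000000000) (122489737250330876199 / 640000000000000000000) (48709372433076357737 / 64000000000000000000) (728839895771133580453 / 640000000000000000000) (121588007952295629573 / 160000000000000000000) (12211612311848163901 / 64000000000000000000) (4709303095537690359 / 16000000000000000000) (746757043455819266827 / 640000000000000000000) (556934110154774671569 / 320000000000000000000) (148189100384899044057 / 128000000000000000000) (92731100624628764807 / 320000000000000000000) (1315806800243455221 / 6400000000000000000) (2600597869563675781 / 3200000000000000000)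 (773483939139487202219 / 640000000000000000000) (256463170448016804469 / 320000000000000000000) (127981295644936040819 / 640000000000000000000) (17604314077142877 / 320000000000000000) (1388315727261234303 / 6400000000000000000) (10295464627390516427 / 32000000000000000000) (27231399119772805671 / 128000000000000000000) (6774129524578275223 / 128000000000000000000) a b := B4_nonneg ha hb (by norm_num) (by norm_num) (by norm_num) (by norm_num) (by norm_num) (by norm_num) (by norm_num) (by norm_num) (by norm_num) (by norm_num) (by norm_num) (by norm_num) (by norm_num) (by norm_num) (by norm_num) (by norm_num) (by norm_num) (by norm_num) (by norm_num) (by norm_num) (by norm_num) (by norm_num) (by norm_num) (by norm_num) (by norm_num)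
      exact sub_nonneg.1 (h.trans_eq (by unfold B4 Q4; ring))

theorem twob_25 {x y : ℝ} (h0 : 327 / 320 ≤ x) (h1 : x ≤ 17 / 16) (k0 : 27 / 32 ≤ y) (k1 : y ≤ 71 / 80) :
    TwoAny x y := by
  obtain ⟨a, ha, rfl⟩ := affine01 h0 h1 (by norm_num)
  obtain ⟨b, hb, rfl⟩ := affine01 k0 k1 (by norm_num)
  refine ⟨11 / 10, by norm_num, ?_, ?_⟩
  · refine ⟨3 / 5, 3 / 4, 643501 / 1000000, 5 / 4, 8871 / 10000 + 117 / 2500 * a + 343 / 10000 * b, 641 / 5000 + 39 / 1250 * a + (-(287 / 10000)) * b, 8419 / 10000 + 17 / 625 * a + 89 / 10000 * b, (327 / 320 + (17 / 16 - 327 / 320) * a) - (27 / 32 + (71 / 80 - 27 / 32) * b), trigQ_6, ?_, ?_, ?_, ?_, ?_, ?_, ?_, ?_, ?_⟩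
    · have h : 0 ≤ B1 (8871 / 10000) (4607 / 5000) (9339 / 10000) (4841 / 5000) a b := B1_nonneg ha hb (by norm_num) (by norm_num) (by norm_num) (by norm_num)
      exact sub_nonneg.1 (h.trans_eq (by unfold B1; ring))
    · have h : 0 ≤ B1 (2129 / 10000) (893 / 5000) (1661 / 10000) (659 / 5000) a b := B1_nonneg ha hb (by norm_num) (by norm_num) (by norm_num) (by norm_num)
      exact sub_nonneg.1 (h.trans_eq (by unfold B1; ring))
    · have h : 0 ≤ B1 (641 / 5000) (199 / 2000) (797 / 5000) (1307 / 10000) a b := B1_nonneg ha hb (by norm_num) (by norm_num) (by norm_num) (by norm_num)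
      exact sub_nonneg.1 (h.trans_eq (by unfold B1; ring))
    · have h : 0 ≤ B1 (8419 / 10000) (2127 / 2500) (8691 / 10000) (439 / 500) a b := B1_nonneg ha hb (by norm_num) (by norm_num) (by norm_num) (by norm_num)
      exact sub_nonneg.1 (h.trans_eq (by unfold B1; ring))
    · rw [abs_sub_comm]; exact le_abs_self _
    · have h : 0 ≤ B2 (3363839 / 6400000000) (1215573 / 640000000) (18311 / 256000000) (3129619 / 1600000000) (10416797 / 1600000000) (78003 / 40000000) (70999 / 1600000000) (183909 / 100000000) (49251 / 100000000) a b := B2_nonneg ha hb (by norm_num) (by norm_num) (by norm_num) (by norm_num) (by norm_num) (by norm_num) (by norm_num) (by norm_num) (by norm_num)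
      exact sub_nonneg.1 (h.trans_eq (by unfold B2; ring))
    · have h : 0 ≤ B2 (521399 / 1600000000) (603559 / 400000000) (250119 / 400000000) (1321911 / 800000000) (906983 / 200000000) (70683 / 40000000) (938679 / 1600000000) (123707 / 80000000) (6431 / 16000000) a b := B2_nonneg ha hb (by norm_num) (by norm_num) (by norm_num) (by norm_num) (by norm_num) (by norm_num) (by norm_num) (by norm_num) (by norm_num)
      exact sub_nonneg.1 (h.trans_eq (by unfold B2; ring))
    · have h : 0 ≤ B1 (22077 / 200000) (26193 / 200000) (1223 / 12500) (5921 / 50000) a b := B1_nonneg ha hb (by norm_num) (by norm_num) (by norm_num) (by norm_num)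
      exact sub_nonneg.1 (h.trans_eq (by unfold B1; ring))
    · have h : 0 ≤ B2 (2725256955907 / 400000000000000) (3384100054951 / 400000000000000) (326978954023 / 100000000000000) (5553681859201 / 400000000000000) (6781686794647 / 400000000000000) (1263075184771 / 200000000000000) (893300849523 / 100000000000000) (1221785932323 / 100000000000000) (245376631031 / 50000000000000) a b := B2_nonneg ha hb (by norm_num) (by norm_num) (by norm_num) (by norm_num) (by norm_num) (by norm_num) (by norm_num) (by norm_num) (by norm_num)
      exact sub_nonneg.1 (h.trans_eq (by unfold B2; ring))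
  · refine ⟨3 / 5, 3 / 4, 643501 / 1000000, 5 / 4, 7287 / 10000 + 211 / 5000 * a + 47 / 2000 * b, 1473 / 10000 + 7 / 200 * a + (-(153 / 5000)) * b, 371 / 500 + 139 / 5000 * a + 3 / 1000 * b, (327 / 320 + (17 / 16 - 327 / 320) * a) - (27 / 32 + (71 / 80 - 27 / 32) * b), trigQ_6, ?_, ?_, ?_, ?_, ?_, ?_, ?_, ?_, ?_⟩
    · have h : 0 ≤ B1 (7287 / 10000) (3761 / 5000) (7709 / 10000) (993 / 1250) a b := B1_nonneg ha hb (by norm_num) (by norm_num) (by norm_num) (by norm_num)
      exact sub_nonneg.1 (h.trans_eq (by unfold B1; ring))
    · have h : 0 ≤ B1 (3713 / 10000) (1739 / 5000) (3291 / 10000) (191 / 625) a b := B1_nonneg ha hb (by norm_num) (by norm_num) (by norm_num) (by norm_num)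
      exact sub_nonneg.1 (h.trans_eq (by unfold B1; ring))
    · have h : 0 ≤ B1 (1473 / 10000) (1167 / 10000) (1823 / 10000) (1517 / 10000) a b := B1_nonneg ha hb (by norm_num) (by norm_num) (by norm_num) (by norm_num)
      exact sub_nonneg.1 (h.trans_eq (by unfold B1; ring))
    · have h : 0 ≤ B1 (371 / 500) (149 / 200) (3849 / 5000) (483 / 625) a b := B1_nonneg ha hb (by norm_num) (by norm_num) (by norm_num) (by norm_num)
      exact sub_nonneg.1 (h.trans_eq (by unfold B1; ring))
    · rw [abs_sub_comm]; exact le_abs_self _
    · have h : 0 ≤ B2 (59551719 / 6400000000) (61617701 / 3200000000) (54628479 / 6400000000) (31134197 / 1600000000) (66908451 / 1600000000) (7811663 / 400000000) (13626111 / 1600000000) (3857411 / 200000000) (467793 / 50000000) a b := B2_nonneg ha hb (by norm_num) (by norm_num) (by norm_num) (by norm_num) (by norm_num) (by norm_num) (by norm_num) (by norm_num) (by norm_num)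
      exact sub_nonneg.1 (h.trans_eq (by unfold B2; ring))
    · have h : 0 ≤ B2 (10079 / 64000000) (2899 / 3200000) (167 / 640000) (201563 / 160000000) (141387 / 40000000) (10399 / 8000000) (527111 / 1600000000) (433223 / 400000000) (106439 / 400000000) a b := B2_nonneg ha hb (by norm_num) (by norm_num) (by norm_num) (by norm_num) (by norm_num) (by norm_num) (by norm_num) (by norm_num) (by norm_num)
      exact sub_nonneg.1 (h.trans_eq (by unfold B2; ring))
    · have h : 0 ≤ B1 (3069 / 200000) (5889 / 200000) (1 / 25000) (707 / 50000) a b := B1_nonneg ha hb (by norm_num) (by norm_num) (by norm_num) (by norm_num)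
      exact sub_nonneg.1 (h.trans_eq (by unfold B1; ring))
    · have h : 0 ≤ B4 (260121106372559287569 / 5120000000000000000000) (1029858549002844202141 / 5120000000000000000000) (1532922611141449705359 / 5120000000000000000000) (1016745162057189494571 / 5120000000000000000000) (31694999193253087973 / 640000000000000000000) (6638783295132628259 / 32000000000000000000) (420327160972468707767 / 512000000000000000000) (312652554093873865571 / 256000000000000000000) (414507328863611763559 / 512000000000000000000) (2582721223155267201 / 12800000000000000000) (1631610980388696623197 / 5120000000000000000000) (6453430250899872977013 / 5120000000000000000000) (9595587904250019866907 / 5120000000000000000000) (6357275945110720535563 / 5120000000000000000000) (197938413921484627809 / 640000000000000000000) (558654399684339127423 / 2560000000000000000000) (1104338361923974804891 / 1280000000000000000000) (3282511688010831577983 / 2560000000000000000000) (271699140725042739539 / 320000000000000000000) (33818985122070051293 / 160000000000000000000) (3597275497858035819 / 64000000000000000000)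 (1777087902371670497 / 8000000000000000000) (21119549281345886189 / 64000000000000000000) (218405943958767859 / 1000000000000000000) (217366178320661559 / 4000000000000000000) a b := B4_nonneg ha hb (by norm_num) (by norm_num) (by norm_num) (by norm_num) (by norm_num) (by norm_num) (by norm_num) (by norm_num) (by norm_num) (by norm_num) (by norm_num) (by norm_num) (by norm_num) (by norm_num) (by norm_num) (by norm_num) (by norm_num) (by norm_num) (by norm_num) (by norm_num) (by norm_num) (by norm_num) (by norm_num) (by norm_num) (by norm_num)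
      exact sub_nonneg.1 (h.trans_eq (by unfold B4 Q4; ring))

theorem twob_23 {x y : ℝ} (h0 : 157 / 160 ≤ x) (h1 : x ≤ 17 / 16) (k0 : 27 / 32 ≤ y) (k1 : y ≤ 71 / 80) :
    CenXY x y ∨ TwoAny x y := by
  rcases le_total x (327 / 320) with h | h
  · exact Or.inl ⟨by linarith, by linarith, by linarith, by linarith⟩
  · exact Or.inr (twob_25 h h1 k0 k1)

theorem twob_21 {x y : ℝ} (h0 : 157 / 160 ≤ x) (h1 : x ≤ 17 / 16) (k0 : 4 / 5 ≤ y) (k1 : y ≤ 71 / 80) :
    CenXY x y ∨ TwoAny x y := by
  rcases le_total y (27 / 32) with h | h
  · exact Or.inr (twob_22 h0 h1 k0 h)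
  · exact twob_23 h0 h1 h k1

theorem twob_19 {x y : ℝ} (h0 : 9 / 10 ≤ x) (h1 : x ≤ 17 / 16) (k0 : 4 / 5 ≤ y) (k1 : y ≤ 71 / 80) :
    CenXY x y ∨ TwoAny x y := by
  rcases le_total x (157 / 160) with h | h
  · exact Or.inl ⟨by linarith, by linarith, by linarith, by linarith⟩
  · exact twob_21 h h1 k0 k1

theorem twob_18 {x y : ℝ} (h0 : 9 / 10 ≤ x) (h1 : x ≤ 17 / 16) (k0 : 4 / 5 ≤ y) (k1 : y ≤ 39 / 40) :
    CenXY x y ∨ TwoAny x y := by
  rcases le_total y (71 / 80) with h | h
  · exact twob_19 h0 h1 k0 h
  · exact Or.inl ⟨by linarith, by linarith, by linarith, by linarith⟩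

theorem twob_29 {x y : ℝ} (h0 : 17 / 16 ≤ x) (h1 : x ≤ 183 / 160) (k0 : 4 / 5 ≤ y) (k1 : y ≤ 71 / 80) :
    TwoAny x y := by
  obtain ⟨a, ha, rfl⟩ := affine01 h0 h1 (by norm_num)
  obtain ⟨b, hb, rfl⟩ := affine01 k0 k1 (by norm_num)
  refine ⟨13 / 10, by norm_num, ?_, ?_⟩
  · refine ⟨3 / 5, 3 / 4, 643501 / 1000000, 5 / 4, 2259 / 2500 + 259 / 2500 * a + 161 / 2500 * b, 1859 / 10000 + 321 / 5000 * a + (-(543 / 10000)) * b, 4311 / 5000 + 36 / 625 * a + 153 / 10000 * b, (17 / 16 + (183 / 160 - 17 / 16) * a) - (4 / 5 + (71 / 80 - 4 / 5) * b), trigQ_6, ?_, ?_, ?_, ?_, ?_, ?_, ?_, ?_, ?_⟩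
    · have h : 0 ≤ B1 (2259 / 2500) (121 / 125) (1259 / 1250) (2679 / 2500) a b := B1_nonneg ha hb (by norm_num) (by norm_num) (by norm_num) (by norm_num)
      exact sub_nonneg.1 (h.trans_eq (by unfold B1; ring))
    · have h : 0 ≤ B1 (991 / 2500) (83 / 250) (183 / 625) (571 / 2500) a b := B1_nonneg ha hb (by norm_num) (by norm_num) (by norm_num) (by norm_num)
      exact sub_nonneg.1 (h.trans_eq (by unfold B1; ring))
    · have h : 0 ≤ B1 (1859 / 10000) (329 / 2500) (2501 / 10000) (979 / 5000) a b := B1_nonneg ha hb (by norm_num) (by norm_num) (by norm_num) (by norm_num)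
      exact sub_nonneg.1 (h.trans_eq (by unfold B1; ring))
    · have h : 0 ≤ B1 (4311 / 5000) (351 / 400) (4599 / 5000) (9351 / 10000) a b := B1_nonneg ha hb (by norm_num) (by norm_num) (by norm_num) (by norm_num)
      exact sub_nonneg.1 (h.trans_eq (by unfold B1; ring))
    · rw [abs_sub_comm]; exact le_abs_self _
    · have h : 0 ≤ B2 (725851 / 400000000) (336681 / 50000000) (1411 / 25000000) (3078253 / 400000000) (10006971 / 400000000) (759669 / 100000000) (174359 / 1600000000) (5391797 / 800000000) (2829151 / 1600000000) a b := B2_nonneg ha hb (by norm_num) (by norm_num) (by norm_num) (by norm_num) (by norm_num) (by norm_num) (by norm_num) (by norm_num) (by norm_num)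
      exact sub_nonneg.1 (h.trans_eq (by unfold B2; ring))
    · have h : 0 ≤ B2 (5279 / 25000000) (3439 / 1000000) (691 / 640000) (58711 / 12500000) (170807 / 12500000) (37371 / 8000000) (29199 / 25000000) (89751 / 25000000) (109571 / 400000000) a b := B2_nonneg ha hb (by norm_num) (by norm_num) (by norm_num) (by norm_num) (by norm_num) (by norm_num) (by norm_num) (by norm_num) (by norm_num)
      exact sub_nonneg.1 (h.trans_eq (by unfold B2; ring))
    · have h : 0 ≤ B1 (3983 / 50000) (1183 / 10000) (6057 / 100000) (9921 / 100000) a b := B1_nonneg ha hb (by norm_num) (by norm_num) (by norm_num) (by norm_num)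
      exact sub_nonneg.1 (h.trans_eq (by unfold B1; ring))
    · have h : 0 ≤ B2 (313676290287 / 25000000000000) (28456623487 / 2500000000000) (2428096781 / 500000000000) (1268141275921 / 50000000000000) (1075335526493 / 50000000000000) (10231345711 / 1250000000000) (1043658245171 / 50000000000000) (1311942156401 / 50000000000000) (142328425041 / 12500000000000) a b := B2_nonneg ha hb (by norm_num) (by norm_num) (by norm_num) (by norm_num) (by norm_num) (by norm_num) (by norm_num) (by norm_num) (by norm_num)
      exact sub_nonneg.1 (h.trans_eq (by unfold B2; ring))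
  · refine ⟨20 / 29, 20 / 21, 190253 / 250000, 29 / 21, 7427 / 10000 + 953 / 10000 * a + 211 / 5000 * b, 2063 / 10000 + 701 / 10000 * a + (-(111 / 2000)) * b, 477 / 625 + 599 / 10000 * a + 33 / 10000 * b, (17 / 16 + (183 / 160 - 17 / 16) * a) - (4 / 5 + (71 / 80 - 4 / 5) * b), trigQ_7, ?_, ?_, ?_, ?_, ?_, ?_, ?_, ?_, ?_⟩
    · have h : 0 ≤ B1 (7427 / 10000) (7849 / 10000) (419 / 500) (4401 / 5000) a b := B1_nonneg ha hb (by norm_num) (by norm_num) (by norm_num) (by norm_num)
      exact sub_nonneg.1 (h.trans_eq (by unfold B1; ring))
    · have h : 0 ≤ B1 (5573 / 10000) (5151 / 10000) (231 / 500) (2099 / 5000) a b := B1_nonneg ha hb (by norm_num) (by norm_num) (by norm_num) (by norm_num)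
      exact sub_nonneg.1 (h.trans_eq (by unfold B1; ring))
    · have h : 0 ≤ B1 (2063 / 10000) (377 / 2500) (691 / 2500) (2209 / 10000) a b := B1_nonneg ha hb (by norm_num) (by norm_num) (by norm_num) (by norm_num)
      exact sub_nonneg.1 (h.trans_eq (by unfold B1; ring))
    · have h : 0 ≤ B1 (477 / 625) (1533 / 2000) (8231 / 10000) (1033 / 1250) a b := B1_nonneg ha hb (by norm_num) (by norm_num) (by norm_num) (by norm_num)
      exact sub_nonneg.1 (h.trans_eq (by unfold B1; ring))
    · rw [abs_sub_comm]; exact le_abs_self _
    · have h : 0 ≤ B2 (1165499 / 400000000) (803617 / 100000000) (12811 / 100000000) (3816069 / 400000000) (11658393 / 400000000) (1923437 / 200000000) (99239 / 1600000000) (6384809 / 800000000) (4679479 / 1600000000) a b := B2_nonneg ha hb (by norm_num) (by norm_num) (by norm_num) (by norm_num) (by norm_num) (by norm_num) (by norm_num) (by norm_num) (by norm_num)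
      exact sub_nonneg.1 (h.trans_eq (by unfold B2; ring))
    · have h : 0 ≤ B2 (1411 / 6250000) (817 / 312500) (7419 / 16000000) (27001 / 6250000) (628537 / 50000000) (176027 / 40000000) (50639 / 100000000) (17377 / 6250000) (139591 / 400000000) a b := B2_nonneg ha hb (by norm_num) (by norm_num) (by norm_num) (by norm_num) (by norm_num) (by norm_num) (by norm_num) (by norm_num) (by norm_num)
      exact sub_nonneg.1 (h.trans_eq (by unfold B2; ring))
    · have h : 0 ≤ B1 (8083 / 58000) (9771 / 58000) (2873 / 23200) (17741 / 116000) a b := B1_nonneg ha hb (by norm_num) (by norm_num) (by norm_num) (by norm_num)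
      exact sub_nonneg.1 (h.trans_eq (by unfold B1; ring))
    · have h : 0 ≤ B4 (11294022336895431961 / 192000000000000000000) (21998961796369051613 / 96000000000000000000) (21594045421314195041 / 64000000000000000000) (7124050043293180267 / 32000000000000000000) (1736013224553901 / 31250000000000000) (1642112111557869536639 / 6720000000000000000000) (6388554755520354868109 / 6720000000000000000000) (1565319250578440357997 / 1120000000000000000000) (2062098156454202294931 / 2240000000000000000000) (513607203284816689427 / 2240000000000000000000) (3450183913011681839407 / 8960000000000000000000) (6704817040090795978333 / 4480000000000000000000) (1230549657844601316777 / 560000000000000000000) (924912930573643694121 / 640000000000000000000) (3219436669687300766521 / 8960000000000000000000) (209433285712180479323 / 768000000000000000000) (7118250508583876063683 / 6720000000000000000000) (6961050588429529665319 / 4480000000000000000000) (979749217459169518259 / 960000000000000000000) (1361902318537751199553 / 5376000000000000000000) (19668985799573889301 / 268800000000000000000)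 (763860951288881340553 / 2688000000000000000000) (1866347148494486910221 / 4480000000000000000000) (3673805422923933736531 / 13440000000000000000000) (910619443906185243583 / 13440000000000000000000) a b := B4_nonneg ha hb (by norm_num) (by norm_num) (by norm_num) (by norm_num) (by norm_num) (by norm_num) (by norm_num) (by norm_num) (by norm_num) (by norm_num) (by norm_num) (by norm_num) (by norm_num) (by norm_num) (by norm_num) (by norm_num) (by norm_num) (by norm_num) (by norm_num) (by norm_num) (by norm_num) (by norm_num) (by norm_num) (by norm_num) (by norm_num)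
      exact sub_nonneg.1 (h.trans_eq (by unfold B4 Q4; ring))

theorem twob_30 {x y : ℝ} (h0 : 183 / 160 ≤ x) (h1 : x ≤ 49 / 40) (k0 : 4 / 5 ≤ y) (k1 : y ≤ 71 / 80) :
    TwoAny x y := by
  obtain ⟨a, ha, rfl⟩ := affine01 h0 h1 (by norm_num)
  obtain ⟨b, hb, rfl⟩ := affine01 k0 k1 (by norm_num)
  refine ⟨3 / 2, by norm_num, ?_, ?_⟩
  · refine ⟨3 / 5, 3 / 4, 643501 / 1000000, 5 / 4, 2521 / 2500 + 117 / 1000 * a + 619 / 10000 * b, 2491 / 10000 + 27 / 400 * a + (-(523 / 10000)) * b, 9209 / 10000 + 61 / 1000 * a + 13 / 1000 * b, (183 / 160 + (49 / 40 - 183 / 160) * a) - (4 / 5 + (71 / 80 - 4 / 5) * b), trigQ_6, ?_, ?_, ?_, ?_, ?_, ?_, ?_, ?_, ?_⟩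
    · have h : 0 ≤ B1 (2521 / 2500) (10703 / 10000) (5627 / 5000) (11873 / 10000) a b := B1_nonneg ha hb (by norm_num) (by norm_num) (by norm_num) (by norm_num)
      exact sub_nonneg.1 (h.trans_eq (by unfold B1; ring))
    · have h : 0 ≤ B1 (1229 / 2500) (4297 / 10000) (1873 / 5000) (3127 / 10000) a b := B1_nonneg ha hb (by norm_num) (by norm_num) (by norm_num) (by norm_num)
      exact sub_nonneg.1 (h.trans_eq (by unfold B1; ring))
    · have h : 0 ≤ B1 (2491 / 10000) (123 / 625) (1583 / 5000) (2643 / 10000) a b := B1_nonneg ha hb (by norm_num) (by norm_num) (by norm_num) (by norm_num)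
      exact sub_nonneg.1 (h.trans_eq (by unfold B1; ring))
    · have h : 0 ≤ B1 (9209 / 10000) (9339 / 10000) (9819 / 10000) (9949 / 10000) a b := B1_nonneg ha hb (by norm_num) (by norm_num) (by norm_num) (by norm_num)
      exact sub_nonneg.1 (h.trans_eq (by unfold B1; ring))
    · rw [abs_sub_comm]; exact le_abs_self _
    · have h : 0 ≤ B2 (2893079 / 1600000000) (5226517 / 800000000) (120991 / 1600000000) (1604601 / 200000000) (10154167 / 400000000) (3225483 / 400000000) (819 / 100000000) (643899 / 100000000) (712579 / 400000000) a b := B2_nonneg ha hb (by norm_num) (by norm_num) (by norm_num) (by norm_num) (by norm_num) (by norm_num) (by norm_num) (by norm_num) (by norm_num)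
      exact sub_nonneg.1 (h.trans_eq (by unfold B2; ring))
    · have h : 0 ≤ B2 (34319 / 100000000) (182149 / 50000000) (486691 / 400000000) (266829 / 50000000) (375009 / 25000000) (1099531 / 200000000) (127239 / 100000000) (195769 / 50000000) (223971 / 400000000) a b := B2_nonneg ha hb (by norm_num) (by norm_num) (by norm_num) (by norm_num) (by norm_num) (by norm_num) (by norm_num) (by norm_num) (by norm_num)
      exact sub_nonneg.1 (h.trans_eq (by unfold B2; ring))
    · have h : 0 ≤ B1 (6129 / 100000) (9843 / 100000) (157 / 3125) (4369 / 50000) a b := B1_nonneg ha hb (by norm_num) (by norm_num) (by norm_num) (by norm_num)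
      exact sub_nonneg.1 (h.trans_eq (by unfold B1; ring))
    · have h : 0 ≤ B2 (250753218191 / 12500000000000) (5289954859229 / 200000000000000) (301119931073 / 25000000000000) (4526566017461 / 100000000000000) (12278744554413 / 200000000000000) (5487724680313 / 200000000000000) (1706755945379 / 50000000000000) (2640169042621 / 50000000000000) (4864708469379 / 200000000000000) a b := B2_nonneg ha hb (by norm_num) (by norm_num) (by norm_num) (by norm_num) (by norm_num) (by norm_num) (by norm_num) (by norm_num) (by norm_num)
      exact sub_nonneg.1 (h.trans_eq (by unfold B2; ring))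
  · refine ⟨20 / 29, 20 / 21, 190253 / 250000, 29 / 21, 2099 / 2500 + 1099 / 10000 * a + 193 / 5000 * b, 2743 / 10000 + 181 / 2500 * a + (-(129 / 2500)) * b, 4121 / 5000 + 641 / 10000 * a + 1 / 1000 * b, (183 / 160 + (49 / 40 - 183 / 160) * a) - (4 / 5 + (71 / 80 - 4 / 5) * b), trigQ_7, ?_, ?_, ?_, ?_, ?_, ?_, ?_, ?_, ?_⟩
    · have h : 0 ≤ B1 (2099 / 2500) (4391 / 5000) (1899 / 2000) (9881 / 10000) a b := B1_nonneg ha hb (by norm_num) (by norm_num) (by norm_num) (by norm_num)
      exact sub_nonneg.1 (h.trans_eq (by unfold B1; ring))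
    · have h : 0 ≤ B1 (1651 / 2500) (3109 / 5000) (1101 / 2000) (5119 / 10000) a b := B1_nonneg ha hb (by norm_num) (by norm_num) (by norm_num) (by norm_num)
      exact sub_nonneg.1 (h.trans_eq (by unfold B1; ring))
    · have h : 0 ≤ B1 (2743 / 10000) (2227 / 10000) (3467 / 10000) (2951 / 10000) a b := B1_nonneg ha hb (by norm_num) (by norm_num) (by norm_num) (by norm_num)
      exact sub_nonneg.1 (h.trans_eq (by unfold B1; ring))
    · have h : 0 ≤ B1 (4121 / 5000) (2063 / 2500) (8883 / 10000) (8893 / 10000) a b := B1_nonneg ha hb (by norm_num) (by norm_num) (by norm_num) (by norm_num)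
      exact sub_nonneg.1 (h.trans_eq (by unfold B1; ring))
    · rw [abs_sub_comm]; exact le_abs_self _
    · have h : 0 ≤ B2 (4509591 / 1600000000) (6017049 / 800000000) (201911 / 1600000000) (1970701 / 200000000) (11525809 / 400000000) (3923109 / 400000000) (7143 / 50000000) (750891 / 100000000) (1115771 / 400000000) a b := B2_nonneg ha hb (by norm_num) (by norm_num) (by norm_num) (by norm_num) (by norm_num) (by norm_num) (by norm_num) (by norm_num) (by norm_num)
      exact sub_nonneg.1 (h.trans_eq (by unfold B2; ring))
    · have h : 0 ≤ B2 (7359 / 25000000) (15877 / 6250000) (132359 / 400000000) (120657 / 25000000) (335689 / 25000000) (954231 / 200000000) (42311 / 100000000) (133481 / 50000000) (132579 / 400000000) a b := B2_nonneg ha hb (by norm_num) (by norm_num) (by norm_num) (by norm_num) (by norm_num) (by norm_num) (by norm_num) (by norm_num) (by norm_num)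
      exact sub_nonneg.1 (h.trans_eq (by unfold B2; ring))
    · have h : 0 ≤ B1 (14493 / 116000) (17581 / 116000) (693 / 5800) (4237 / 29000) a b := B1_nonneg ha hb (by norm_num) (by norm_num) (by norm_num) (by norm_num)
      exact sub_nonneg.1 (h.trans_eq (by unfold B1; ring))
    · have h : 0 ≤ B4 (159272953380806548147 / 2240000000000000000000) (177970930066129018787 / 640000000000000000000) (5515770271663252690181 / 13440000000000000000000) (173418047871012846429 / 640000000000000000000) (907760544731887190473 / 13440000000000000000000) (2659767824437746816639 / 8960000000000000000000) (103921750654374557761 / 89600000000000000000) (7659805171156240925043 / 4480000000000000000000) (7576037439530758574221 / 6720000000000000000000) (1077505779169245089287 / 3840000000000000000000) (4210508746561442908391 / 8960000000000000000000) (8220326463310964681947 / 4480000000000000000000) (6053567645388068986657 / 2240000000000000000000) (7974021034725338562969 / 4480000000000000000000) (3963915667958887634813 / 8960000000000000000000) (21383482365292641391 / 64000000000000000000)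 (2921394442397098770413 / 2240000000000000000000) (806253206439045224779 / 420000000000000000000) (2829442522627179496277 / 2240000000000000000000) (2107193943692383857551 / 6720000000000000000000) (35975660513127121 / 400000000000000000) (11233953169564697253 / 32000000000000000000) (1157056995921083892989 / 2240000000000000000000) (1141221976339327165547 / 3360000000000000000000) (566012033903453442457 / 6720000000000000000000) a b := B4_nonneg ha hb (by norm_num) (by norm_num) (by norm_num) (by norm_num) (by norm_num) (by norm_num) (by norm_num) (by norm_num) (by norm_num) (by norm_num) (by norm_num) (by norm_num) (by norm_num) (by norm_num) (by norm_num) (by norm_num) (by norm_num) (by norm_num) (by norm_num) (by norm_num) (by norm_num) (by norm_num) (by norm_num) (by norm_num) (by norm_num)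
      exact sub_nonneg.1 (h.trans_eq (by unfold B4 Q4; ring))

theorem twob_28 {x y : ℝ} (h0 : 17 / 16 ≤ x) (h1 : x ≤ 49 / 40) (k0 : 4 / 5 ≤ y) (k1 : y ≤ 71 / 80) :
    CenXY x y ∨ TwoAny x y := by
  rcases le_total x (183 / 160) with h | h
  · exact Or.inr (twob_29 h0 h k0 k1)
  · exact Or.inr (twob_30 h h1 k0 k1)

theorem twob_33 {x y : ℝ} (h0 : 17 / 16 ≤ x) (h1 : x ≤ 183 / 160) (k0 : 71 / 80 ≤ y) (k1 : y ≤ 149 / 160) :
    TwoAny x y := by
  obtain ⟨a, ha, rfl⟩ := affine01 h0 h1 (by norm_num)
  obtain ⟨b, hb, rfl⟩ := affine01 k0 k1 (by norm_num)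
  refine ⟨13 / 10, by norm_num, ?_, ?_⟩
  · refine ⟨3 / 5, 3 / 4, 643501 / 1000000, 5 / 4, 1211 / 1250 + 1013 / 10000 * a + 22 / 625 * b, 1303 / 10000 + 329 / 5000 * a + (-(297 / 10000)) * b, 549 / 625 + 139 / 2500 * a + 21 / 2500 * b, (17 / 16 + (183 / 160 - 17 / 16) * a) - (71 / 80 + (149 / 160 - 71 / 80) * b), trigQ_6, ?_, ?_, ?_, ?_, ?_, ?_, ?_, ?_, ?_⟩
    · have h : 0 ≤ B1 (1211 / 1250) (251 / 250) (10701 / 10000) (11053 / 10000) a b := B1_nonneg ha hb (by norm_num) (by norm_num) (by norm_num) (by norm_num)
      exact sub_nonneg.1 (h.trans_eq (by unfold B1; ring))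
    · have h : 0 ≤ B1 (207 / 625) (37 / 125) (2299 / 10000) (1947 / 10000) a b := B1_nonneg ha hb (by norm_num) (by norm_num) (by norm_num) (by norm_num)
      exact sub_nonneg.1 (h.trans_eq (by unfold B1; ring))
    · have h : 0 ≤ B1 (1303 / 10000) (503 / 5000) (1961 / 10000) (104 / 625) a b := B1_nonneg ha hb (by norm_num) (by norm_num) (by norm_num) (by norm_num)
      exact sub_nonneg.1 (h.trans_eq (by unfold B1; ring))
    · have h : 0 ≤ B1 (549 / 625) (2217 / 2500) (467 / 500) (589 / 625) a b := B1_nonneg ha hb (by norm_num) (by norm_num) (by norm_num) (by norm_num)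
      exact sub_nonneg.1 (h.trans_eq (by unfold B1; ring))
    · rw [abs_sub_comm]; exact le_abs_self _
    · have h : 0 ≤ B2 (119691 / 100000000) (267739 / 100000000) (191799 / 1600000000) (732759 / 100000000) (13882797 / 800000000) (1460939 / 200000000) (241039 / 1600000000) (543209 / 200000000) (120479 / 100000000) a b := B2_nonneg ha hb (by norm_num) (by norm_num) (by norm_num) (by norm_num) (by norm_num) (by norm_num) (by norm_num) (by norm_num) (by norm_num)
      exact sub_nonneg.1 (h.trans_eq (by unfold B2; ring))
    · have h : 0 ≤ B2 (119751 / 400000000) (651029 / 400000000) (1246591 / 1600000000) (168827 / 40000000) (1912981 / 200000000) (3396863 / 800000000) (13279 / 16000000) (140369 / 80000000) (600959 / 1600000000) a b := B2_nonneg ha hb (by norm_num) (by norm_num) (by norm_num) (by norm_num) (by norm_num) (by norm_num) (by norm_num) (by norm_num) (by norm_num)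
      exact sub_nonneg.1 (h.trans_eq (by unfold B2; ring))
    · have h : 0 ≤ B1 (5939 / 50000) (1399 / 10000) (9831 / 100000) (11943 / 100000) a b := B1_nonneg ha hb (by norm_num) (by norm_num) (by norm_num) (by norm_num)
      exact sub_nonneg.1 (h.trans_eq (by unfold B1; ring))
    · have h : 0 ≤ B2 (56097177959 / 12500000000000) (24651758901 / 5000000000000) (2084861783 / 1000000000000) (429295134769 / 50000000000000) (1592407054133 / 200000000000000) (106428042173 / 40000000000000) (1217989061263 / 100000000000000) (3839041559681 / 200000000000000) (1731520285059 / 200000000000000) a b := B2_nonneg ha hb (by norm_num) (by norm_num) (by norm_num) (by norm_num) (by norm_num) (by norm_num) (by norm_num) (by norm_num) (by norm_num)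
      exact sub_nonneg.1 (h.trans_eq (by unfold B2; ring))
  · refine ⟨3 / 5, 3 / 4, 643501 / 1000000, 5 / 4, 7927 / 10000 + 71 / 625 * a + 3 / 250 * b, 1437 / 10000 + 1101 / 10000 * a + (-(263 / 5000)) * b, 1543 / 2000 + 353 / 5000 * a + (-(49 / 10000)) * b, (17 / 16 + (183 / 160 - 17 / 16) * a) - (71 / 80 + (149 / 160 - 71 / 80) * b), trigQ_6, ?_, ?_, ?_, ?_, ?_, ?_, ?_, ?_, ?_⟩
    · have h : 0 ≤ B1 (7927 / 10000) (8047 / 10000) (9063 / 10000) (9183 / 10000) a b := B1_nonneg ha hb (by norm_num) (by norm_num) (by norm_num) (by norm_num)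
      exact sub_nonneg.1 (h.trans_eq (by unfold B1; ring))
    · have h : 0 ≤ B1 (5073 / 10000) (4953 / 10000) (3937 / 10000) (3817 / 10000) a b := B1_nonneg ha hb (by norm_num) (by norm_num) (by norm_num) (by norm_num)
      exact sub_nonneg.1 (h.trans_eq (by unfold B1; ring))
    · have h : 0 ≤ B1 (1437 / 10000) (911 / 10000) (1269 / 5000) (503 / 2500) a b := B1_nonneg ha hb (by norm_num) (by norm_num) (by norm_num) (by norm_num)
      exact sub_nonneg.1 (h.trans_eq (by unfold B1; ring))
    · have h : 0 ≤ B1 (1543 / 2000) (3833 / 5000) (8421 / 10000) (2093 / 2500) a b := B1_nonneg ha hb (by norm_num) (by norm_num) (by norm_num) (by norm_num)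
      exact sub_nonneg.1 (h.trans_eq (by unfold B1; ring))
    · rw [abs_sub_comm]; exact le_abs_self _
    · have h : 0 ≤ B2 (500953 / 50000000) (2759197 / 200000000) (850639 / 1600000000) (7439701 / 200000000) (57943083 / 800000000) (11495919 / 400000000) (21451271 / 1600000000) (12435227 / 400000000) (5774299 / 400000000) a b := B2_nonneg ha hb (by norm_num) (by norm_num) (by norm_num) (by norm_num) (by norm_num) (by norm_num) (by norm_num) (by norm_num) (by norm_num)
      exact sub_nonneg.1 (h.trans_eq (by unfold B2; ring))
    · have h : 0 ≤ B2 (9179 / 16000000) (103521 / 80000000) (348479 / 1600000000) (232463 / 40000000) (2521661 / 200000000) (4633343 / 800000000) (101411 / 400000000) (538229 / 400000000) (943231 / 1600000000) a b := B2_nonneg ha hb (by norm_num) (by norm_num) (by norm_num) (by norm_num) (by norm_num) (by norm_num) (by norm_num) (by norm_num) (by norm_num)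
      exact sub_nonneg.1 (h.trans_eq (by unfold B2; ring))
    · have h : 0 ≤ B1 (41 / 3125) (127 / 6250) (3 / 100000) (723 / 100000) a b := B1_nonneg ha hb (by norm_num) (by norm_num) (by norm_num) (by norm_num)
      exact sub_nonneg.1 (h.trans_eq (by unfold B1; ring))
    · have h : 0 ≤ B4 (3385296211720350041 / 64000000000000000000) (54276268187137165691 / 256000000000000000000) (40940848594665212357 / 128000000000000000000) (55098699116524406011 / 256000000000000000000) (1744010658431218353 / 32000000000000000000) (275870997692651094563 / 1280000000000000000000) (550973980191099820181 / 640000000000000000000) (51773306066121923969 / 40000000000000000000) (555559548045398825591 / 640000000000000000000) (280450264664444629973 / 1280000000000000000000) (215067310888291773071 / 640000000000000000000) (428065222325397140507 / 320000000000000000000) (1282679291672336095191 / 640000000000000000000) (3348543131334758729 / 2500000000000000000) (13475680231991540461 / 40000000000000000000) (304180649849458629887 / 1280000000000000000000) (603503035472894394419 / 640000000000000000000)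 (450579485686987270523 / 320000000000000000000) (600163835145677688609 / 640000000000000000000) (300835148639736454077 / 1280000000000000000000) (5138193845694948593 / 80000000000000000000) (325311801090714038717 / 1280000000000000000000) (121074166893131583787 / 320000000000000000000) (321499187556134529097 / 1280000000000000000000) (40151609771601527589 / 640000000000000000000) a b := B4_nonneg ha hb (by norm_num) (by norm_num) (by norm_num) (by norm_num) (by norm_num) (by norm_num) (by norm_num) (by norm_num) (by norm_num) (by norm_num) (by norm_num) (by norm_num) (by norm_num) (by norm_num) (by norm_num) (by norm_num) (by norm_num) (by norm_num) (by norm_num) (by norm_num) (by norm_num) (by norm_num) (by norm_num) (by norm_num) (by norm_num)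
      exact sub_nonneg.1 (h.trans_eq (by unfold B4 Q4; ring))

theorem twob_36 {x y : ℝ} (h0 : 353 / 320 ≤ x) (h1 : x ≤ 183 / 160) (k0 : 149 / 160 ≤ y) (k1 : y ≤ 39 / 40) :
    TwoAny x y := by
  obtain ⟨a, ha, rfl⟩ := affine01 h0 h1 (by norm_num)
  obtain ⟨b, hb, rfl⟩ := affine01 k0 k1 (by norm_num)
  refine ⟨13 / 10, by norm_num, ?_, ?_⟩
  · refine ⟨3 / 5, 3 / 4, 643501 / 1000000, 5 / 4, 10531 / 10000 + 513 / 10000 * a + 37 / 1000 * b, 1333 / 10000 + 169 / 5000 * a + (-(39 / 1250)) * b, 9143 / 10000 + 11 / 400 * a + 87 / 10000 * b, (353 / 320 + (183 / 160 - 353 / 320) * a) - (149 / 160 + (39 / 40 - 149 / 160) * b), trigQ_6, ?_, ?_, ?_, ?_, ?_, ?_, ?_, ?_, ?_⟩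
    · have h : 0 ≤ B1 (10531 / 10000) (10901 / 10000) (2761 / 2500) (5707 / 5000) a b := B1_nonneg ha hb (by norm_num) (by norm_num) (by norm_num) (by norm_num)
      exact sub_nonneg.1 (h.trans_eq (by unfold B1; ring))
    · have h : 0 ≤ B1 (2469 / 10000) (2099 / 10000) (489 / 2500) (793 / 5000) a b := B1_nonneg ha hb (by norm_num) (by norm_num) (by norm_num) (by norm_num)
      exact sub_nonneg.1 (h.trans_eq (by unfold B1; ring))
    · have h : 0 ≤ B1 (1333 / 10000) (1021 / 10000) (1671 / 10000) (1359 / 10000) a b := B1_nonneg ha hb (by norm_num) (by norm_num) (by norm_num) (by norm_num)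
      exact sub_nonneg.1 (h.trans_eq (by unfold B1; ring))
    · have h : 0 ≤ B1 (9143 / 10000) (923 / 1000) (4709 / 5000) (1901 / 2000) a b := B1_nonneg ha hb (by norm_num) (by norm_num) (by norm_num) (by norm_num)
      exact sub_nonneg.1 (h.trans_eq (by unfold B1; ring))
    · rw [abs_sub_comm]; exact le_abs_self _
    · have h : 0 ≤ B2 (4228479 / 6400000000) (6839573 / 3200000000) (158151 / 6400000000) (914831 / 400000000) (11882459 / 1600000000) (3576877 / 1600000000) (3567 / 50000000) (435819 / 200000000) (1049279 / 1600000000) a b := B2_nonneg ha hb (by norm_num) (by norm_num) (by norm_num) (by norm_num) (by norm_num) (by norm_num) (by norm_num) (by norm_num) (by norm_num)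
      exact sub_nonneg.1 (h.trans_eq (by unfold B2; ring))
    · have h : 0 ≤ B2 (558191 / 1600000000) (56713 / 40000000) (2059 / 4000000) (1368991 / 800000000) (87683 / 20000000) (3129 / 2000000) (969791 / 1600000000) (58153 / 40000000) (587 / 2000000) a b := B2_nonneg ha hb (by norm_num) (by norm_num) (by norm_num) (by norm_num) (by norm_num) (by norm_num) (by norm_num) (by norm_num) (by norm_num)
      exact sub_nonneg.1 (h.trans_eq (by unfold B2; ring))
    · have h : 0 ≤ B1 (25747 / 200000) (30187 / 200000) (11889 / 100000) (14109 / 100000) a b := B1_nonneg ha hb (by norm_num) (by norm_num) (by norm_num) (by norm_num)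
      exact sub_nonneg.1 (h.trans_eq (by unfold B1; ring))
    · have h : 0 ≤ B2 (1930355744297 / 400000000000000) (1255082823487 / 200000000000000) (1266302038977 / 400000000000000) (150244253233 / 12500000000000) (1665287165103 / 100000000000000) (806579207389 / 100000000000000) (463279852859 / 50000000000000) (2836201143 / 195312500000) (697198313573 / 100000000000000) a b := B2_nonneg ha hb (by norm_num) (by norm_num) (by norm_num) (by norm_num) (by norm_num) (by norm_num) (by norm_num) (by norm_num) (by norm_num)
      exact sub_nonneg.1 (h.trans_eq (by unfold B2; ring))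
  · refine ⟨3 / 5, 3 / 4, 643501 / 1000000, 5 / 4, 2149 / 2500 + 467 / 10000 * a + 249 / 10000 * b, 391 / 2500 + 387 / 10000 * a + (-(169 / 5000)) * b, 501 / 625 + 143 / 5000 * a + 1 / 400 * b, (353 / 320 + (183 / 160 - 353 / 320) * a) - (149 / 160 + (39 / 40 - 149 / 160) * b), trigQ_6, ?_, ?_, ?_, ?_, ?_, ?_, ?_, ?_, ?_⟩
    · have h : 0 ≤ B1 (2149 / 2500) (1769 / 2000) (9063 / 10000) (582 / 625) a b := B1_nonneg ha hb (by norm_num) (by norm_num) (by norm_num) (by norm_num)
      exact sub_nonneg.1 (h.trans_eq (by unfold B1; ring))
    · have h : 0 ≤ B1 (1101 / 2500) (831 / 2000) (3937 / 10000) (461 / 1250) a b := B1_nonneg ha hb (by norm_num) (by norm_num) (by norm_num) (by norm_num)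
      exact sub_nonneg.1 (h.trans_eq (by unfold B1; ring))
    · have h : 0 ≤ B1 (391 / 2500) (613 / 5000) (1951 / 10000) (1613 / 10000) a b := B1_nonneg ha hb (by norm_num) (by norm_num) (by norm_num) (by norm_num)
      exact sub_nonneg.1 (h.trans_eq (by unfold B1; ring))
    · have h : 0 ≤ B1 (501 / 625) (8041 / 10000) (4151 / 5000) (8327 / 10000) a b := B1_nonneg ha hb (by norm_num) (by norm_num) (by norm_num) (by norm_num)
      exact sub_nonneg.1 (h.trans_eq (by unfold B1; ring))
    · rw [abs_sub_comm]; exact le_abs_self _
    · have h : 0 ≤ B2 (37924231 / 6400000000) (39917929 / 3200000000) (31537511 / 6400000000) (10151301 / 800000000) (45931569 / 1600000000) (20441909 / 1600000000) (1941271 / 400000000) (4964921 / 400000000) (9501071 / 1600000000) a b := B2_nonneg ha hb (by norm_num) (by norm_num) (by norm_num) (by norm_num) (by norm_num) (by norm_num) (by norm_num) (by norm_num) (by norm_num)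
      exact sub_nonneg.1 (h.trans_eq (by unfold B2; ring))
    · have h : 0 ≤ B2 (369279 / 1600000000) (196501 / 200000000) (13347 / 50000000) (1048063 / 800000000) (351897 / 100000000) (3873 / 3125000) (418111 / 1600000000) (180109 / 200000000) (7723 / 50000000) a b := B2_nonneg ha hb (by norm_num) (by norm_num) (by norm_num) (by norm_num) (by norm_num) (by norm_num) (by norm_num) (by norm_num) (by norm_num)
      exact sub_nonneg.1 (h.trans_eq (by unfold B2; ring))
    · have h : 0 ≤ B1 (2527 / 200000) (1103 / 40000) (3 / 100000) (1497 / 100000) a b := B1_nonneg ha hb (by norm_num) (by norm_num) (by norm_num) (by norm_num)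
      exact sub_nonneg.1 (h.trans_eq (by unfold B1; ring))
    · have h : 0 ≤ B4 (150740717150666596487 / 2560000000000000000000) (1197966410862109227583 / 5120000000000000000000) (1789741353173668798319 / 5120000000000000000000) (238299934591644858637 / 1024000000000000000000) (11929731853813261179 / 204800000000000000000) (1235339779074963427571 / 5120000000000000000000) (2452854015360088984829 / 2560000000000000000000) (3662098407552903595049 / 2560000000000000000000) (2436295251159230305553 / 2560000000000000000000) (243752387771573592619 / 1024000000000000000000) (1904263013385630307431 / 5120000000000000000000) (7557707038839970830303 / 5120000000000000000000) (11276492870019250545489 / 5120000000000000000000) (7496859449012399474193 / 5120000000000000000000) (234226325555936181447 / 640000000000000000000) (654340117668299476693 / 2560000000000000000000) (81111669739178563427 / 80000000000000000000) (3870423779462564905003 / 2560000000000000000000) (1285734329310474421293 / 1280000000000000000000) (321139096571899245277 / 1280000000000000000000) (42284445840574860069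 / 640000000000000000000) (13411814443255259711 / 51200000000000000000) (249851268854752207037 / 640000000000000000000) (13271686975897345289 / 51200000000000000000) (20704026522040247697 / 320000000000000000000) a b := B4_nonneg ha hb (by norm_num) (by norm_num) (by norm_num) (by norm_num) (by norm_num) (by norm_num) (by norm_num) (by norm_num) (by norm_num) (by norm_num) (by norm_num) (by norm_num) (by norm_num) (by norm_num) (by norm_num) (by norm_num) (by norm_num) (by norm_num) (by norm_num) (by norm_num) (by norm_num) (by norm_num) (by norm_num) (by norm_num) (by norm_num)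
      exact sub_nonneg.1 (h.trans_eq (by unfold B4 Q4; ring))

theorem twob_34 {x y : ℝ} (h0 : 17 / 16 ≤ x) (h1 : x ≤ 183 / 160) (k0 : 149 / 160 ≤ y) (k1 : y ≤ 39 / 40) :
    CenXY x y ∨ TwoAny x y := by
  rcases le_total x (353 / 320) with h | h
  · exact Or.inl ⟨by linarith, by linarith, by linarith, by linarith⟩
  · exact Or.inr (twob_36 h h1 k0 k1)

theorem twob_32 {x y : ℝ} (h0 : 17 / 16 ≤ x) (h1 : x ≤ 183 / 160) (k0 : 71 / 80 ≤ y) (k1 : y ≤ 39 / 40) :
    CenXY x y ∨ TwoAny x y := by
  rcases le_total y (149 / 160) with h | h
  · exact Or.inr (twob_33 h0 h1 k0 h)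
  · exact twob_34 h0 h1 h k1

theorem twob_37 {x y : ℝ} (h0 : 183 / 160 ≤ x) (h1 : x ≤ 49 / 40) (k0 : 71 / 80 ≤ y) (k1 : y ≤ 39 / 40) :
    TwoAny x y := by
  obtain ⟨a, ha, rfl⟩ := affine01 h0 h1 (by norm_num)
  obtain ⟨b, hb, rfl⟩ := affine01 k0 k1 (by norm_num)
  refine ⟨3 / 2, by norm_num, ?_, ?_⟩
  · refine ⟨3 / 5, 3 / 4, 643501 / 1000000, 5 / 4, 10723 / 10000 + 57 / 500 * a + 43 / 625 * b, 1959 / 10000 + 87 / 1250 * a + (-(59 / 1000)) * b, 1871 / 2000 + 293 / 5000 * a + 9 / 625 * b, (183 / 160 + (49 / 40 - 183 / 160) * a) - (71 / 80 + (39 / 40 - 71 / 80) * b), trigQ_6, ?_, ?_, ?_, ?_, ?_, ?_, ?_, ?_, ?_⟩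
    · have h : 0 ≤ B1 (10723 / 10000) (11411 / 10000) (11863 / 10000) (12551 / 10000) a b := B1_nonneg ha hb (by norm_num) (by norm_num) (by norm_num) (by norm_num)
      exact sub_nonneg.1 (h.trans_eq (by unfold B1; ring))
    · have h : 0 ≤ B1 (4277 / 10000) (3589 / 10000) (3137 / 10000) (2449 / 10000) a b := B1_nonneg ha hb (by norm_num) (by norm_num) (by norm_num) (by norm_num)
      exact sub_nonneg.1 (h.trans_eq (by unfold B1; ring))
    · have h : 0 ≤ B1 (1959 / 10000) (1369 / 10000) (531 / 2000) (413 / 2000) a b := B1_nonneg ha hb (by norm_num) (by norm_num) (by norm_num) (by norm_num)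
      exact sub_nonneg.1 (h.trans_eq (by unfold B1; ring))
    · have h : 0 ≤ B1 (1871 / 2000) (9499 / 10000) (9941 / 10000) (2017 / 2000) a b := B1_nonneg ha hb (by norm_num) (by norm_num) (by norm_num) (by norm_num)
      exact sub_nonneg.1 (h.trans_eq (by unfold B1; ring))
    · rw [abs_sub_comm]; exact le_abs_self _
    · have h : 0 ≤ B2 (3886479 / 1600000000) (6325689 / 800000000) (132799 / 1600000000) (725543 / 80000000) (2311577 / 80000000) (90353 / 10000000) (2331 / 16000000) (15997 / 2000000) (9831 / 4000000) a b := B2_nonneg ha hb (by norm_num) (by norm_num) (by norm_num) (by norm_num) (by norm_num) (by norm_num) (by norm_num) (by norm_num) (by norm_num)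
      exact sub_nonneg.1 (h.trans_eq (by unfold B2; ring))
    · have h : 0 ≤ B2 (3611 / 16000000) (69617 / 20000000) (56687 / 50000000) (192431 / 40000000) (699641 / 50000000) (3087 / 625000) (460451 / 400000000) (72881 / 20000000) (743 / 2000000) a b := B2_nonneg ha hb (by norm_num) (by norm_num) (by norm_num) (by norm_num) (by norm_num) (by norm_num) (by norm_num) (by norm_num) (by norm_num)
      exact sub_nonneg.1 (h.trans_eq (by unfold B2; ring))
    · have h : 0 ≤ B1 (9963 / 100000) (14091 / 100000) (4339 / 50000) (6403 / 50000) a b := B1_nonneg ha hb (by norm_num) (by norm_num) (by norm_num) (by norm_num)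
      exact sub_nonneg.1 (h.trans_eq (by unfold B1; ring))
    · have h : 0 ≤ B2 (548837712401 / 50000000000000) (1154039530903 / 100000000000000) (689587524773 / 100000000000000) (5422547189523 / 200000000000000) (3098612543941 / 100000000000000) (3307571573047 / 200000000000000) (5020543114519 / 200000000000000) (1868959893819 / 50000000000000) (3721743298101 / 200000000000000) a b := B2_nonneg ha hb (by norm_num) (by norm_num) (by norm_num) (by norm_num) (by norm_num) (by norm_num) (by norm_num) (by norm_num) (by norm_num)
      exact sub_nonneg.1 (h.trans_eq (by unfold B2; ring))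
  · refine ⟨20 / 29, 20 / 21, 190253 / 250000, 29 / 21, 881 / 1000 + 1059 / 10000 * a + 439 / 10000 * b, 2209 / 10000 + 767 / 10000 * a + (-(611 / 10000)) * b, 8269 / 10000 + 77 / 1250 * a + 9 / 5000 * b, (183 / 160 + (49 / 40 - 183 / 160) * a) - (71 / 80 + (39 / 40 - 71 / 80) * b), trigQ_7, ?_, ?_, ?_, ?_, ?_, ?_, ?_, ?_, ?_⟩
    · have h : 0 ≤ B1 (881 / 1000) (9249 / 10000) (9869 / 10000) (2577 / 2500) a b := B1_nonneg ha hb (by norm_num) (by norm_num) (by norm_num) (by norm_num)
      exact sub_nonneg.1 (h.trans_eq (by unfold B1; ring))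
    · have h : 0 ≤ B1 (619 / 1000) (5751 / 10000) (5131 / 10000) (1173 / 2500) a b := B1_nonneg ha hb (by norm_num) (by norm_num) (by norm_num) (by norm_num)
      exact sub_nonneg.1 (h.trans_eq (by unfold B1; ring))
    · have h : 0 ≤ B1 (2209 / 10000) (799 / 5000) (186 / 625) (473 / 2000) a b := B1_nonneg ha hb (by norm_num) (by norm_num) (by norm_num) (by norm_num)
      exact sub_nonneg.1 (h.trans_eq (by unfold B1; ring))
    · have h : 0 ≤ B1 (8269 / 10000) (8287 / 10000) (1777 / 2000) (8903 / 10000) a b := B1_nonneg ha hb (by norm_num) (by norm_num) (by norm_num) (by norm_num)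
      exact sub_nonneg.1 (h.trans_eq (by unfold B1; ring))
    · rw [abs_sub_comm]; exact le_abs_self _
    · have h : 0 ≤ B2 (5959479 / 1600000000) (7593413 / 800000000) (191711 / 1600000000) (4546253 / 400000000) (13622411 / 400000000) (227917 / 20000000) (43071 / 400000000) (94977 / 10000000) (14971 / 4000000) a b := B2_nonneg ha hb (by norm_num) (by norm_num) (by norm_num) (by norm_num) (by norm_num) (by norm_num) (by norm_num) (by norm_num) (by norm_num)
      exact sub_nonneg.1 (h.trans_eq (by unfold B2; ring))
    · have h : 0 ≤ B2 (128931 / 400000000) (273969 / 100000000) (25003 / 50000000) (186823 / 40000000) (665473 / 50000000) (120107 / 25000000) (8859 / 16000000) (59613 / 20000000) (25483 / 50000000) a b := B2_nonneg ha hb (by norm_num) (by norm_num) (by norm_num) (by norm_num) (by norm_num) (by norm_num) (by norm_num) (by norm_num) (by norm_num)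
      exact sub_nonneg.1 (h.trans_eq (by unfold B2; ring))
    · have h : 0 ≤ B1 (3561 / 23200) (21317 / 116000) (4213 / 29000) (5091 / 29000) a b := B1_nonneg ha hb (by norm_num) (by norm_num) (by norm_num) (by norm_num)
      exact sub_nonneg.1 (h.trans_eq (by unfold B1; ring))
    · have h : 0 ≤ B4 (11877361202635315921 / 179200000000000000000) (465683103857302839463 / 1792000000000000000000) (10354769277269627262719 / 26880000000000000000000) (6879872841290711650103 / 26880000000000000000000) (576248647161776530393 / 8960000000000000000000) (497250334793485948863 / 1792000000000000000000) (14597666574158675234419 / 13440000000000000000000) (192834186848330150521 / 120000000000000000000) (14318682652852297175137 / 13440000000000000000000) (7179085578093701869463 / 26880000000000000000000) (11850546653768004573779 / 26880000000000000000000) (46324801973951576236433 / 26880000000000000000000) (22807787834777637165167 / 8960000000000000000000) (6467493019196640666317 / 3840000000000000000000) (404405105365255172549 / 960000000000000000000) (705188214613197951401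 / 2240000000000000000000) (1377026882590893712337 / 1120000000000000000000) (487473122273547373847 / 268800000000000000000) (2012272010287138158749 / 1680000000000000000000) (4185117991699243143 / 14000000000000000000) (572215690774340671957 / 6720000000000000000000) (744494149890640061379 / 2240000000000000000000) (822752331236134521449 / 1680000000000000000000) (45215591117872961333 / 140000000000000000000) (2815655247973664429 / 35000000000000000000) a b := B4_nonneg ha hb (by norm_num) (by norm_num) (by norm_num) (by norm_num) (by norm_num) (by norm_num) (by norm_num) (by norm_num) (by norm_num) (by norm_num) (by norm_num) (by norm_num) (by norm_num) (by norm_num) (by norm_num) (by norm_num) (by norm_num) (by norm_num) (by norm_num) (by norm_num) (by norm_num) (by norm_num) (by norm_num) (by norm_num) (by norm_num)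
      exact sub_nonneg.1 (h.trans_eq (by unfold B4 Q4; ring))

theorem twob_31 {x y : ℝ} (h0 : 17 / 16 ≤ x) (h1 : x ≤ 49 / 40) (k0 : 71 / 80 ≤ y) (k1 : y ≤ 39 / 40) :
    CenXY x y ∨ TwoAny x y := by
  rcases le_total x (183 / 160) with h | h
  · exact twob_32 h0 h k0 k1
  · exact Or.inr (twob_37 h h1 k0 k1)

theorem twob_27 {x y : ℝ} (h0 : 17 / 16 ≤ x) (h1 : x ≤ 49 / 40) (k0 : 4 / 5 ≤ y) (k1 : y ≤ 39 / 40) :
    CenXY x y ∨ TwoAny x y := by
  rcases le_total y (71 / 80) with h | h
  · exact twob_28 h0 h1 k0 h
  · exact twob_31 h0 h1 h k1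

theorem twob_17 {x y : ℝ} (h0 : 9 / 10 ≤ x) (h1 : x ≤ 49 / 40) (k0 : 4 / 5 ≤ y) (k1 : y ≤ 39 / 40) :
    CenXY x y ∨ TwoAny x y := by
  rcases le_total x (17 / 16) with h | h
  · exact twob_18 h0 h k0 k1
  · exact twob_27 h h1 k0 k1

theorem twob_44 {x y : ℝ} (h0 : 9 / 10 ≤ x) (h1 : x ≤ 301 / 320) (k0 : 17 / 16 ≤ y) (k1 : y ≤ 177 / 160) :
    TwoAny x y := by
  obtain ⟨a, ha, rfl⟩ := affine01 h0 h1 (by norm_num)
  obtain ⟨b, hb, rfl⟩ := affine01 k0 k1 (by norm_num)
  refine ⟨6 / 5, by norm_num, ?_, ?_⟩
  · refine ⟨8 / 17, 8 / 15, 489957 / 1000000, 17 / 15, 2451 / 2500 + 13 / 400 * a + 539 / 10000 * b, 323 / 2500 + (-(311 / 10000)) * a + 189 / 5000 * b, 4177 / 5000 + 19 / 1000 * a + 177 / 10000 * b, (17 / 16 + (177 / 160 - 17 / 16) * b) - (9 / 10 + (301 / 320 - 9 / 10) * a), trigQ_5, ?_, ?_, ?_, ?_, ?_, ?_, ?_, ?_, ?_⟩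
    · have h : 0 ≤ B1 (2451 / 2500) (10343 / 10000) (10129 / 10000) (2667 / 2500) a b := B1_nonneg ha hb (by norm_num) (by norm_num) (by norm_num) (by norm_num)
      exact sub_nonneg.1 (h.trans_eq (by unfold B1; ring))
    · have h : 0 ≤ B1 (549 / 2500) (1657 / 10000) (1871 / 10000) (333 / 2500) a b := B1_nonneg ha hb (by norm_num) (by norm_num) (by norm_num) (by norm_num)
      exact sub_nonneg.1 (h.trans_eq (by unfold B1; ring))
    · have h : 0 ≤ B1 (323 / 2500) (167 / 1000) (981 / 10000) (1359 / 10000) a b := B1_nonneg ha hb (by norm_num) (by norm_num) (by norm_num) (by norm_num)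
      exact sub_nonneg.1 (h.trans_eq (by unfold B1; ring))
    · have h : 0 ≤ B1 (4177 / 5000) (8531 / 10000) (534 / 625) (8721 / 10000) a b := B1_nonneg ha hb (by norm_num) (by norm_num) (by norm_num) (by norm_num)
      exact sub_nonneg.1 (h.trans_eq (by unfold B1; ring))
    · exact le_abs_self _
    · have h : 0 ≤ B2 (342319 / 400000000) (233151 / 80000000) (9679 / 64000000) (1907643 / 800000000) (13819489 / 1600000000) (780133 / 320000000) (953271 / 6400000000) (9482169 / 3200000000) (5803991 / 6400000000) a b := B2_nonneg ha hb (by norm_num) (by norm_num) (by norm_num) (by norm_num) (by norm_num) (by norm_num) (by norm_num) (by norm_num) (by norm_num)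
      exact sub_nonneg.1 (h.trans_eq (by unfold B2; ring))
    · have h : 0 ≤ B2 (112111 / 400000000) (658083 / 400000000) (916999 / 1600000000) (263071 / 200000000) (825483 / 200000000) (982759 / 800000000) (269631 / 400000000) (704083 / 400000000) (470919 / 1600000000) a b := B2_nonneg ha hb (by norm_num) (by norm_num) (by norm_num) (by norm_num) (by norm_num) (by norm_num) (by norm_num) (by norm_num) (by norm_num)
      exact sub_nonneg.1 (h.trans_eq (by unfold B2; ring))
    · have h : 0 ≤ B1 (679 / 21250) (609 / 10625) (4503 / 680000) (21751 / 680000) a b := B1_nonneg ha hb (by norm_num) (by norm_num) (by norm_num) (by norm_num)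
      exact sub_nonneg.1 (h.trans_eq (by unfold B1; ring))
    · have h : 0 ≤ B2 (334292522917 / 75000000000000) (1021885212179 / 100000000000000) (819010941359 / 100000000000000) (254287715731 / 50000000000000) (14344541187271 / 1200000000000000) (4690004747797 / 400000000000000) (879400410499 / 400000000000000) (1949957160791 / 400000000000000) (1531464841927 / 300000000000000) a b := B2_nonneg ha hb (by norm_num) (by norm_num) (by norm_num) (by norm_num) (by norm_num) (by norm_num) (by norm_num) (by norm_num) (by norm_num)
      exact sub_nonneg.1 (h.trans_eq (by unfold B2; ring))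
  · refine ⟨33 / 65, 33 / 56, 532503 / 1000000, 65 / 56, 8161 / 10000 + 23 / 625 * a + 411 / 10000 * b, 301 / 2000 + (-(27 / 10000)) * a + 13 / 500 * b, 1461 / 2000 + 123 / 5000 * a + 29 / 2500 * b, (17 / 16 + (177 / 160 - 17 / 16) * b) - (9 / 10 + (301 / 320 - 9 / 10) * a), trigQ_10, ?_, ?_, ?_, ?_, ?_, ?_, ?_, ?_, ?_⟩
    · have h : 0 ≤ B1 (8161 / 10000) (2143 / 2500) (8529 / 10000) (447 / 500) a b := B1_nonneg ha hb (by norm_num) (by norm_num) (by norm_num) (by norm_num)
      exact sub_nonneg.1 (h.trans_eq (by unfold B1; ring))
    · have h : 0 ≤ B1 (3839 / 10000) (857 / 2500) (3471 / 10000) (153 / 500) a b := B1_nonneg ha hb (by norm_num) (by norm_num) (by norm_num) (by norm_num)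
      exact sub_nonneg.1 (h.trans_eq (by unfold B1; ring))
    · have h : 0 ≤ B1 (301 / 2000) (353 / 2000) (739 / 5000) (869 / 5000) a b := B1_nonneg ha hb (by norm_num) (by norm_num) (by norm_num) (by norm_num)
      exact sub_nonneg.1 (h.trans_eq (by unfold B1; ring))
    · have h : 0 ≤ B1 (1461 / 2000) (7421 / 10000) (7551 / 10000) (7667 / 10000) a b := B1_nonneg ha hb (by norm_num) (by norm_num) (by norm_num) (by norm_num)
      exact sub_nonneg.1 (h.trans_eq (by unfold B1; ring))
    · exact le_abs_self _
    · have h : 0 ≤ B2 (349571 / 16000000) (670651 / 16000000) (1210431 / 64000000) (8012577 / 160000000) (30784971 / 320000000) (14020927 / 320000000) (177987399 / 6400000000) (171032229 / 3200000000) (156688159 / 6400000000) a b := B2_nonneg ha hb (by norm_num) (by norm_num) (by norm_num) (by norm_num) (by norm_num) (by norm_num) (by norm_num) (by norm_num) (by norm_num)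
      exact sub_nonneg.1 (h.trans_eq (by unfold B2; ring))
    · have h : 0 ≤ B2 (3891 / 16000000) (111727 / 80000000) (864519 / 1600000000) (53831 / 40000000) (788251 / 200000000) (1095463 / 800000000) (198971 / 400000000) (533739 / 400000000) (358151 / 1600000000) a b := B2_nonneg ha hb (by norm_num) (by norm_num) (by norm_num) (by norm_num) (by norm_num) (by norm_num) (by norm_num) (by norm_num) (by norm_num)
      exact sub_nonneg.1 (h.trans_eq (by unfold B2; ring))
    · have h : 0 ≤ B1 (1101 / 50000) (6969 / 162500) (203 / 2600000) (10891 / 520000) a b := B1_nonneg ha hb (by norm_num) (by norm_num) (by norm_num) (by norm_num)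
      exact sub_nonneg.1 (h.trans_eq (by unfold B1; ring))
    · have h : 0 ≤ B4 (161065646044239172363 / 4480000000000000000000) (186579364182670591833 / 1280000000000000000000) (996101644822358008219 / 4480000000000000000000) (193535395125741880591 / 1280000000000000000000) (86617183356423236451 / 2240000000000000000000) (368809245911641657341 / 2560000000000000000000) (523806302929565890411 / 896000000000000000000) (15993625872532134811423 / 17920000000000000000000) (5442696891699862025267 / 8960000000000000000000) (348278656009676930743 / 2240000000000000000000) (7764584698231530664403 / 35840000000000000000000) (36040109234244708543 / 40960000000000000000) (48185409236637874158243 / 35840000000000000000000) (32823454512059835389123 / 35840000000000000000000) (4204278078577275270801 / 17920000000000000000000) (741954328555421949043 / 5120000000000000000000) (2111191783003219301503 / 3584000000000000000000) (16143353611093763077081 / 17920000000000000000000) (11006052405498585365019 / 17920000000000000000000) (1128727023790776789521 / 7168000000000000000000) (11641963179156185739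 / 320000000000000000000) (757836024305133155003 / 5120000000000000000000) (8119736572035057553013 / 35840000000000000000000) (1108089360443202157087 / 7168000000000000000000) (56866500970055700587 / 1433600000000000000000) a b := B4_nonneg ha hb (by norm_num) (by norm_num) (by norm_num) (by norm_num) (by norm_num) (by norm_num) (by norm_num) (by norm_num) (by norm_num) (by norm_num) (by norm_num) (by norm_num) (by norm_num) (by norm_num) (by norm_num) (by norm_num) (by norm_num) (by norm_num) (by norm_num) (by norm_num) (by norm_num) (by norm_num) (by norm_num) (by norm_num) (by norm_num)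
      exact sub_nonneg.1 (h.trans_eq (by unfold B4 Q4; ring))

theorem twob_43 {x y : ℝ} (h0 : 9 / 10 ≤ x) (h1 : x ≤ 157 / 160) (k0 : 17 / 16 ≤ y) (k1 : y ≤ 177 / 160) :
    CenXY x y ∨ TwoAny x y := by
  rcases le_total x (301 / 320) with h | h
  · exact Or.inr (twob_44 h0 h k0 k1)
  · exact Or.inl ⟨by linarith, by linarith, by linarith, by linarith⟩

theorem twob_46 {x y : ℝ} (h0 : 9 / 10 ≤ x) (h1 : x ≤ 157 / 160) (k0 : 177 / 160 ≤ y) (k1 : y ≤ 23 / 20) :
    TwoAny x y := by
  obtain ⟨a, ha, rfl⟩ := affine01 h0 h1 (by norm_num)
  obtain ⟨b, hb, rfl⟩ := affine01 k0 k1 (by norm_num)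
  refine ⟨13 / 10, by norm_num, ?_, ?_⟩
  · refine ⟨8 / 17, 8 / 15, 489957 / 1000000, 17 / 15, 5179 / 5000 + 323 / 5000 * a + 573 / 10000 * b, 1671 / 10000 + (-(627 / 10000)) * a + 97 / 2500 * b, 4271 / 5000 + 183 / 5000 * a + 37 / 2000 * b, (177 / 160 + (23 / 20 - 177 / 160) * b) - (9 / 10 + (157 / 160 - 9 / 10) * a), trigQ_5, ?_, ?_, ?_, ?_, ?_, ?_, ?_, ?_, ?_⟩
    · have h : 0 ≤ B1 (5179 / 5000) (10931 / 10000) (2751 / 2500) (11577 / 10000) a b := B1_nonneg ha hb (by norm_num) (by norm_num) (by norm_num) (by norm_num)
      exact sub_nonneg.1 (h.trans_eq (by unfold B1; ring))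
    · have h : 0 ≤ B1 (1321 / 5000) (2069 / 10000) (499 / 2500) (1423 / 10000) a b := B1_nonneg ha hb (by norm_num) (by norm_num) (by norm_num) (by norm_num)
      exact sub_nonneg.1 (h.trans_eq (by unfold B1; ring))
    · have h : 0 ≤ B1 (1671 / 10000) (2059 / 10000) (261 / 2500) (179 / 1250) a b := B1_nonneg ha hb (by norm_num) (by norm_num) (by norm_num) (by norm_num)
      exact sub_nonneg.1 (h.trans_eq (by unfold B1; ring))
    · have h : 0 ≤ B1 (4271 / 5000) (8727 / 10000) (2227 / 2500) (9093 / 10000) a b := B1_nonneg ha hb (by norm_num) (by norm_num) (by norm_num) (by norm_num)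
      exact sub_nonneg.1 (h.trans_eq (by unfold B1; ring))
    · exact le_abs_self _
    · have h : 0 ≤ B2 (2588519 / 1600000000) (368197 / 100000000) (8019 / 100000000) (2914433 / 400000000) (14842387 / 800000000) (729899 / 100000000) (34631 / 400000000) (1483061 / 400000000) (2619391 / 1600000000) a b := B2_nonneg ha hb (by norm_num) (by norm_num) (by norm_num) (by norm_num) (by norm_num) (by norm_num) (by norm_num) (by norm_num) (by norm_num)
      exact sub_nonneg.1 (h.trans_eq (by unfold B2; ring))
    · have h : 0 ≤ B2 (312151 / 1600000000) (188557 / 100000000) (86971 / 100000000) (1970199 / 800000000) (328103 / 50000000) (122889 / 50000000) (1484951 / 1600000000) (199737 / 100000000) (24851 / 100000000) a b := B2_nonneg ha hb (by norm_num) (by norm_num) (by norm_num) (by norm_num) (by norm_num) (by norm_num) (by norm_num) (by norm_num) (by norm_num)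
      exact sub_nonneg.1 (h.trans_eq (by unfold B2; ring))
    · have h : 0 ≤ B1 (1233 / 21250) (903 / 10625) (2439 / 340000) (11607 / 340000) a b := B1_nonneg ha hb (by norm_num) (by norm_num) (by norm_num) (by norm_num)
      exact sub_nonneg.1 (h.trans_eq (by unfold B1; ring))
    · have h : 0 ≤ B2 (752857800599 / 100000000000000) (3611189522497 / 200000000000000) (2606081666277 / 200000000000000) (232998507587 / 50000000000000) (546084513337 / 40000000000000) (2799644026293 / 200000000000000) (21463249791 / 6250000000000) (51260130391 / 6250000000000) (727053962089 / 100000000000000) a b := B2_nonneg ha hb (by norm_num) (by norm_num) (by norm_num) (by norm_num) (by norm_num) (by norm_num) (by norm_num) (by norm_num) (by norm_num)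
      exact sub_nonneg.1 (h.trans_eq (by unfold B2; ring))
  · refine ⟨120 / 241, 120 / 209, 130301 / 250000, 241 / 209, 4259 / 5000 + 119 / 1000 * a + 219 / 10000 * b, 167 / 1000 + 559 / 10000 * a + (-(11 / 1250)) * b, 3693 / 5000 + 383 / 5000 * a + (-(9 / 5000)) * b, (177 / 160 + (23 / 20 - 177 / 160) * b) - (9 / 10 + (157 / 160 - 9 / 10) * a), trigQ_12, ?_, ?_, ?_, ?_, ?_, ?_, ?_, ?_, ?_⟩
    · have h : 0 ≤ B1 (4259 / 5000) (8737 / 10000) (2427 / 2500) (9927 / 10000) a b := B1_nonneg ha hb (by norm_num) (by norm_num) (by norm_num) (by norm_num)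
      exact sub_nonneg.1 (h.trans_eq (by unfold B1; ring))
    · have h : 0 ≤ B1 (2241 / 5000) (4263 / 10000) (823 / 2500) (3073 / 10000) a b := B1_nonneg ha hb (by norm_num) (by norm_num) (by norm_num) (by norm_num)
      exact sub_nonneg.1 (h.trans_eq (by unfold B1; ring))
    · have h : 0 ≤ B1 (167 / 1000) (791 / 5000) (2229 / 10000) (2141 / 10000) a b := B1_nonneg ha hb (by norm_num) (by norm_num) (by norm_num) (by norm_num)
      exact sub_nonneg.1 (h.trans_eq (by unfold B1; ring))
    · have h : 0 ≤ B1 (3693 / 5000) (921 / 1250) (1019 / 1250) (4067 / 5000) a b := B1_nonneg ha hb (by norm_num) (by norm_num) (by norm_num) (by norm_num)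
      exact sub_nonneg.1 (h.trans_eq (by unfold B1; ring))
    · exact le_abs_self _
    · have h : 0 ≤ B2 (1073679 / 64000000) (447599 / 20000000) (63097 / 12500000) (2814181 / 40000000) (94625157 / 800000000) (4681501 / 100000000) (4880309 / 100000000) (17270219 / 200000000) (59187279 / 1600000000) a b := B2_nonneg ha hb (by norm_num) (by norm_num) (by norm_num) (by norm_num) (by norm_num) (by norm_num) (by norm_num) (by norm_num) (by norm_num)
      exact sub_nonneg.1 (h.trans_eq (by unfold B2; ring))
    · have h : 0 ≤ B2 (516439 / 1600000000) (100529 / 100000000) (5019 / 25000000) (5193623 / 800000000) (139793 / 10000000) (81547 / 12500000) (482711 / 1600000000) (123889 / 100000000) (5693 / 12500000) a b := B2_nonneg ha hb (by norm_num) (by norm_num) (by norm_num) (by norm_num) (by norm_num) (by norm_num) (by norm_num) (by norm_num) (by norm_num)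
      exact sub_nonneg.1 (h.trans_eq (by unfold B2; ring))
    · have h : 0 ≤ B1 (1329 / 60250) (993 / 30125) (59 / 964000) (10571 / 964000) a b := B1_nonneg ha hb (by norm_num) (by norm_num) (by norm_num) (by norm_num)
      exact sub_nonneg.1 (h.trans_eq (by unfold B1; ring))
    · have h : 0 ≤ B4 (468548594050499297307 / 12160000000000000000000) (8470886606336150722161 / 53504000000000000000000) (65155450983960665556647 / 267520000000000000000000) (2224001045740033312981 / 13376000000000000000000) (355341684169055305407 / 8360000000000000000000) (19980484822047961114107 / 133760000000000000000000) (16539534585018101865621 / 26752000000000000000000) (128087353024934511068141 / 133760000000000000000000) (17600782018748930847969 / 26752000000000000000000) (11316872585926345692851 / 66880000000000000000000) (14423139155042109038937 / 66880000000000000000000) (48156553243819147891337 / 53504000000000000000000) (375813020206475228233839 / 267520000000000000000000) (52009763765840585922993 / 53504000000000000000000) (67326008221655004682063 / 267520000000000000000000)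 (114758410208902801101 / 836000000000000000000) (120898491987339724717 / 209000000000000000000) (6091324757333029191503 / 6688000000000000000000) (8497355174228200453957 / 13376000000000000000000) (10603227671815500647 / 64000000000000000000) (3570326982592680051 / 110000000000000000000) (462602704289992165331 / 3344000000000000000000) (14714806288188574001479 / 66880000000000000000000) (753201525964540394259 / 4864000000000000000000) (990185445166309183707 / 24320000000000000000000) a b := B4_nonneg ha hb (by norm_num) (by norm_num) (by norm_num) (by norm_num) (by norm_num) (by norm_num) (by norm_num) (by norm_num) (by norm_num) (by norm_num) (by norm_num) (by norm_num) (by norm_num) (by norm_num) (by norm_num) (by norm_num) (by norm_num) (by norm_num) (by norm_num) (by norm_num) (by norm_num) (by norm_num) (by norm_num) (by norm_num) (by norm_num)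
      exact sub_nonneg.1 (h.trans_eq (by unfold B4 Q4; ring))

theorem twob_42 {x y : ℝ} (h0 : 9 / 10 ≤ x) (h1 : x ≤ 157 / 160) (k0 : 17 / 16 ≤ y) (k1 : y ≤ 23 / 20) :
    CenXY x y ∨ TwoAny x y := by
  rcases le_total y (177 / 160) with h | h
  · exact twob_43 h0 h1 k0 h
  · exact Or.inr (twob_46 h0 h1 h k1)

theorem twob_41 {x y : ℝ} (h0 : 9 / 10 ≤ x) (h1 : x ≤ 17 / 16) (k0 : 17 / 16 ≤ y) (k1 : y ≤ 23 / 20) :
    CenXY x y ∨ TwoAny x y := by
  rcases le_total x (157 / 160) with h | h
  · exact twob_42 h0 h k0 k1
  · exact Or.inl ⟨by linarith, by linarith, by linarith, by linarith⟩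

theorem twob_39 {x y : ℝ} (h0 : 9 / 10 ≤ x) (h1 : x ≤ 17 / 16) (k0 : 39 / 40 ≤ y) (k1 : y ≤ 23 / 20) :
    CenXY x y ∨ TwoAny x y := by
  rcases le_total y (17 / 16) with h | h
  · exact Or.inl ⟨by linarith, by linarith, by linarith, by linarith⟩
  · exact twob_41 h0 h1 h k1

theorem twob_51 {x y : ℝ} (h0 : 183 / 160 ≤ x) (h1 : x ≤ 49 / 40) (k0 : 39 / 40 ≤ y) (k1 : y ≤ 17 / 16) :
    TwoAny x y := by
  obtain ⟨a, ha, rfl⟩ := affine01 h0 h1 (by norm_num)
  obtain ⟨b, hb, rfl⟩ := affine01 k0 k1 (by norm_num)
  refine ⟨3 / 2, by norm_num, ?_, ?_⟩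
  · refine ⟨3 / 5, 3 / 4, 643501 / 1000000, 5 / 4, 5719 / 5000 + 547 / 5000 * a + 39 / 500 * b, 679 / 5000 + 717 / 10000 * a + (-(83 / 1250)) * b, 4759 / 5000 + 553 / 10000 * a + 169 / 10000 * b, (183 / 160 + (49 / 40 - 183 / 160) * a) - (39 / 40 + (17 / 16 - 39 / 40) * b), trigQ_6, ?_, ?_, ?_, ?_, ?_, ?_, ?_, ?_, ?_⟩
    · have h : 0 ≤ B1 (5719 / 5000) (6109 / 5000) (3133 / 2500) (832 / 625) a b := B1_nonneg ha hb (by norm_num) (by norm_num) (by norm_num) (by norm_num)
      exact sub_nonneg.1 (h.trans_eq (by unfold B1; ring))
    · have h : 0 ≤ B1 (1781 / 5000) (1391 / 5000) (617 / 2500) (211 / 1250) a b := B1_nonneg ha hb (by norm_num) (by norm_num) (by norm_num) (by norm_num)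
      exact sub_nonneg.1 (h.trans_eq (by unfold B1; ring))
    · have h : 0 ≤ B1 (679 / 5000) (347 / 5000) (83 / 400) (1411 / 10000) a b := B1_nonneg ha hb (by norm_num) (by norm_num) (by norm_num) (by norm_num)
      exact sub_nonneg.1 (h.trans_eq (by unfold B1; ring))
    · have h : 0 ≤ B1 (4759 / 5000) (9687 / 10000) (10071 / 10000) (128 / 125) a b := B1_nonneg ha hb (by norm_num) (by norm_num) (by norm_num) (by norm_num)
      exact sub_nonneg.1 (h.trans_eq (by unfold B1; ring))
    · rw [abs_sub_comm]; exact le_abs_self _
    · have h : 0 ≤ B2 (4932751 / 1600000000) (7603893 / 800000000) (158199 / 1600000000) (5009 / 500000) (13072371 / 400000000) (4006753 / 400000000) (23 / 160000) (19187 / 2000000) (1250691 / 400000000) a b := B2_nonneg ha hb (by norm_num) (by norm_num) (by norm_num) (by norm_num) (by norm_num) (by norm_num) (by norm_num) (by norm_num) (by norm_num)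
      exact sub_nonneg.1 (h.trans_eq (by unfold B2; ring))
    · have h : 0 ≤ B2 (22051 / 100000000) (361393 / 100000000) (477499 / 400000000) (228597 / 50000000) (170257 / 12500000) (185971 / 40000000) (64667 / 50000000) (77809 / 20000000) (6359 / 16000000) a b := B2_nonneg ha hb (by norm_num) (by norm_num) (by norm_num) (by norm_num) (by norm_num) (by norm_num) (by norm_num) (by norm_num) (by norm_num)
      exact sub_nonneg.1 (h.trans_eq (by unfold B2; ring))
    · have h : 0 ≤ B1 (14253 / 100000) (18933 / 100000) (3173 / 25000) (4343 / 25000) a b := B1_nonneg ha hb (by norm_num) (by norm_num) (by norm_num) (by norm_num)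
      exact sub_nonneg.1 (h.trans_eq (by unfold B1; ring))
    · have h : 0 ≤ B2 (550112618297 / 100000000000000) (212895014117 / 50000000000000) (590497601637 / 100000000000000) (806664962883 / 50000000000000) (196620221329 / 12500000000000) (694636114133 / 50000000000000) (244535072439 / 12500000000000) (733324571621 / 25000000000000) (105739868667 / 6250000000000) a b := B2_nonneg ha hb (by norm_num) (by norm_num) (by norm_num) (by norm_num) (by norm_num) (by norm_num) (by norm_num) (by norm_num) (by norm_num)
      exact sub_nonneg.1 (h.trans_eq (by unfold B2; ring))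
  · refine ⟨3 / 5, 3 / 4, 643501 / 1000000, 5 / 4, 9409 / 10000 + 63 / 625 * a + 513 / 10000 * b, 403 / 2500 + 837 / 10000 * a + (-(731 / 10000)) * b, 524 / 625 + 579 / 10000 * a + 39 / 10000 * b, (183 / 160 + (49 / 40 - 183 / 160) * a) - (39 / 40 + (17 / 16 - 39 / 40) * b), trigQ_6, ?_, ?_, ?_, ?_, ?_, ?_, ?_, ?_, ?_⟩
    · have h : 0 ≤ B1 (9409 / 10000) (4961 / 5000) (10417 / 10000) (1093 / 1000) a b := B1_nonneg ha hb (by norm_num) (by norm_num) (by norm_num) (by norm_num)
      exact sub_nonneg.1 (h.trans_eq (by unfold B1; ring))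
    · have h : 0 ≤ B1 (5591 / 10000) (2539 / 5000) (4583 / 10000) (407 / 1000) a b := B1_nonneg ha hb (by norm_num) (by norm_num) (by norm_num) (by norm_num)
      exact sub_nonneg.1 (h.trans_eq (by unfold B1; ring))
    · have h : 0 ≤ B1 (403 / 2500) (881 / 10000) (2449 / 10000) (859 / 5000) a b := B1_nonneg ha hb (by norm_num) (by norm_num) (by norm_num) (by norm_num)
      exact sub_nonneg.1 (h.trans_eq (by unfold B1; ring))
    · have h : 0 ≤ B1 (524 / 625) (8423 / 10000) (8963 / 10000) (4501 / 5000) a b := B1_nonneg ha hb (by norm_num) (by norm_num) (by norm_num) (by norm_num)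
      exact sub_nonneg.1 (h.trans_eq (by unfold B1; ring))
    · rw [abs_sub_comm]; exact le_abs_self _
    · have h : 0 ≤ B2 (25072671 / 1600000000) (26822873 / 800000000) (16960799 / 1600000000) (3492549 / 100000000) (6746449 / 80000000) (13955911 / 400000000) (1059899 / 100000000) (1674493 / 50000000) (6253279 / 400000000) a b := B2_nonneg ha hb (by norm_num) (by norm_num) (by norm_num) (by norm_num) (by norm_num) (by norm_num) (by norm_num) (by norm_num) (by norm_num)
      exact sub_nonneg.1 (h.trans_eq (by unfold B2; ring))
    · have h : 0 ≤ B2 (32919 / 100000000) (276261 / 100000000) (201659 / 400000000) (218583 / 50000000) (39063 / 3125000) (853991 / 200000000) (34503 / 50000000) (303273 / 100000000) (165359 / 400000000) a b := B2_nonneg ha hb (by norm_num) (by norm_num) (by norm_num) (by norm_num) (by norm_num) (by norm_num) (by norm_num) (by norm_num) (by norm_num)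
      exact sub_nonneg.1 (h.trans_eq (by unfold B2; ring))
    · have h : 0 ≤ B1 (2079 / 100000) (5157 / 100000) (1 / 50000) (77 / 2500) a b := B1_nonneg ha hb (by norm_num) (by norm_num) (by norm_num) (by norm_num)
      exact sub_nonneg.1 (h.trans_eq (by unfold B1; ring))
    · have h : 0 ≤ B4 (19268857782272799303 / 320000000000000000000) (304646225112142551791 / 1280000000000000000000) (228340070123764718607 / 640000000000000000000) (307703108498067426953 / 1280000000000000000000) (39296881116794672159 / 640000000000000000000) (323467086502995459193 / 1280000000000000000000) (318662953583254253827 / 320000000000000000000) (1904330572604206065561 / 1280000000000000000000) (127849316351362859817 / 128000000000000000000) (81336829684861022181 / 320000000000000000000) (257995985622462153389 / 640000000000000000000) (2027902350678936687113 / 1280000000000000000000) (1510061930161376877189 / 640000000000000000000) (2020387226526823188829 / 1280000000000000000000) (256086872819040907393 / 640000000000000000000) (370429026753651082133 / 1280000000000000000000) (726306317916544382349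 / 640000000000000000000) (2157244279361551404777 / 1280000000000000000000) (11236608386958800939 / 10000000000000000000) (18161260162430639899 / 64000000000000000000) (12603588860328879667 / 160000000000000000000) (197357937187513270551 / 640000000000000000000) (292385425697737139373 / 640000000000000000000) (19434435100973225129 / 64000000000000000000) (244512535290964319 / 3200000000000000000) a b := B4_nonneg ha hb (by norm_num) (by norm_num) (by norm_num) (by norm_num) (by norm_num) (by norm_num) (by norm_num) (by norm_num) (by norm_num) (by norm_num) (by norm_num) (by norm_num) (by norm_num) (by norm_num) (by norm_num) (by norm_num) (by norm_num) (by norm_num) (by norm_num) (by norm_num) (by norm_num) (by norm_num) (by norm_num) (by norm_num) (by norm_num)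
      exact sub_nonneg.1 (h.trans_eq (by unfold B4 Q4; ring))

theorem twob_49 {x y : ℝ} (h0 : 17 / 16 ≤ x) (h1 : x ≤ 49 / 40) (k0 : 39 / 40 ≤ y) (k1 : y ≤ 17 / 16) :
    CenXY x y ∨ TwoAny x y := by
  rcases le_total x (183 / 160) with h | h
  · exact Or.inl ⟨by linarith, by linarith, by linarith, by linarith⟩
  · exact Or.inr (twob_51 h h1 k0 k1)

theorem twob_54 {x y : ℝ} (h0 : 183 / 160 ≤ x) (h1 : x ≤ 49 / 40) (k0 : 17 / 16 ≤ y) (k1 : y ≤ 23 / 20) :
    TwoAny x y := by
  obtain ⟨a, ha, rfl⟩ := affine01 h0 h1 (by norm_num)
  obtain ⟨b, hb, rfl⟩ := affine01 k0 k1 (by norm_num)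
  refine ⟨3 / 2, by norm_num, ?_, ?_⟩
  · refine ⟨28 / 53, 28 / 45, 556599 / 1000000, 53 / 45, 12263 / 10000 + 1041 / 10000 * a + 891 / 10000 * b, 93 / 1250 + 93 / 1250 * a + (-(93 / 1250)) * b, 1943 / 2000 + 129 / 2500 * a + 101 / 5000 * b, (183 / 160 + (49 / 40 - 183 / 160) * a) - (17 / 16 + (23 / 20 - 17 / 16) * b), trigQ_11, ?_, ?_, ?_, ?_, ?_, ?_, ?_, ?_, ?_⟩
    · have h : 0 ≤ B1 (12263 / 10000) (6577 / 5000) (1663 / 1250) (2839 / 2000) a b := B1_nonneg ha hb (by norm_num) (by norm_num) (by norm_num) (by norm_num)
      exact sub_nonneg.1 (h.trans_eq (by unfold B1; ring))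
    · have h : 0 ≤ B1 (2737 / 10000) (923 / 5000) (106 / 625) (161 / 2000) a b := B1_nonneg ha hb (by norm_num) (by norm_num) (by norm_num) (by norm_num)
      exact sub_nonneg.1 (h.trans_eq (by unfold B1; ring))
    · have h : 0 ≤ B1 (93 / 1250) (0) (93 / 625) (93 / 1250) a b := B1_nonneg ha hb (by norm_num) (by norm_num) (by norm_num) (by norm_num)
      exact sub_nonneg.1 (h.trans_eq (by unfold B1; ring))
    · have h : 0 ≤ B1 (1943 / 2000) (9917 / 10000) (10231 / 10000) (10433 / 10000) a b := B1_nonneg ha hb (by norm_num) (by norm_num) (by norm_num) (by norm_num)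
      exact sub_nonneg.1 (h.trans_eq (by unfold B1; ring))
    · rw [abs_sub_comm]; exact le_abs_self _
    · have h : 0 ≤ B2 (6207799 / 1600000000) (14601 / 1280000) (199 / 2560000) (4464049 / 400000000) (14852337 / 400000000) (3543 / 320000) (37799 / 400000000) (1135231 / 100000000) (380839 / 100000000) a b := B2_nonneg ha hb (by norm_num) (by norm_num) (by norm_num) (by norm_num) (by norm_num) (by norm_num) (by norm_num) (by norm_num) (by norm_num)
      exact sub_nonneg.1 (h.trans_eq (by unfold B2; ring))
    · have h : 0 ≤ B2 (4179 / 16000000) (19447 / 5000000) (130611 / 100000000) (174543 / 40000000) (167207 / 12500000) (218439 / 50000000) (575931 / 400000000) (104051 / 25000000) (40011 / 100000000) a b := B2_nonneg ha hb (by norm_num) (by norm_num) (by norm_num) (by norm_num) (by norm_num) (by norm_num) (by norm_num) (by norm_num) (by norm_num)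
      exact sub_nonneg.1 (h.trans_eq (by unfold B2; ring))
    · have h : 0 ≤ B1 (34353 / 1060000) (84249 / 1060000) (1631 / 265000) (2821 / 53000) a b := B1_nonneg ha hb (by norm_num) (by norm_num) (by norm_num) (by norm_num)
      exact sub_nonneg.1 (h.trans_eq (by unfold B1; ring))
    · have h : 0 ≤ B2 (512907843553 / 100000000000000) (1707137387271 / 200000000000000) (1163314757317 / 100000000000000) (1496784122623 / 100000000000000) (4525628911373 / 200000000000000) (964535259013 / 40000000000000) (2112769739041 / 112500000000000) (5755550931971 / 180000000000000) (1542358553011 / 72000000000000) a b := B2_nonneg ha hb (by norm_num) (by norm_num) (by norm_num) (by norm_num) (by norm_num) (by norm_num) (by norm_num) (by norm_num) (by norm_num)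
      exact sub_nonneg.1 (h.trans_eq (by unfold B2; ring))
  · refine ⟨3 / 5, 3 / 4, 643501 / 1000000, 5 / 4, 618 / 625 + 457 / 5000 * a + 127 / 2000 * b, 889 / 10000 + 909 / 10000 * a + (-(111 / 1250)) * b, 2101 / 2500 + 131 / 2500 * a + 87 / 10000 * b, (183 / 160 + (49 / 40 - 183 / 160) * a) - (17 / 16 + (23 / 20 - 17 / 16) * b), trigQ_6, ?_, ?_, ?_, ?_, ?_, ?_, ?_, ?_, ?_⟩
    · have h : 0 ≤ B1 (618 / 625) (10523 / 10000) (5401 / 5000) (11437 / 10000) a b := B1_nonneg ha hb (by norm_num) (by norm_num) (by norm_num) (by norm_num)
      exact sub_nonneg.1 (h.trans_eq (by unfold B1; ring))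
    · have h : 0 ≤ B1 (639 / 1250) (4477 / 10000) (2099 / 5000) (3563 / 10000) a b := B1_nonneg ha hb (by norm_num) (by norm_num) (by norm_num) (by norm_num)
      exact sub_nonneg.1 (h.trans_eq (by unfold B1; ring))
    · have h : 0 ≤ B1 (889 / 10000) (1 / 10000) (899 / 5000) (91 / 1000) a b := B1_nonneg ha hb (by norm_num) (by norm_num) (by norm_num) (by norm_num)
      exact sub_nonneg.1 (h.trans_eq (by unfold B1; ring))
    · have h : 0 ≤ B1 (2101 / 2500) (8491 / 10000) (558 / 625) (1803 / 2000) a b := B1_nonneg ha hb (by norm_num) (by norm_num) (by norm_num) (by norm_num)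
      exact sub_nonneg.1 (h.trans_eq (by unfold B1; ring))
    · rw [abs_sub_comm]; exact le_abs_self _
    · have h : 0 ≤ B2 (11294239 / 1600000000) (13518901 / 800000000) (64359 / 1600000000) (6796999 / 400000000) (21423071 / 400000000) (678647 / 40000000) (8159 / 400000000) (336653 / 20000000) (28051 / 4000000) a b := B2_nonneg ha hb (by norm_num) (by norm_num) (by norm_num) (by norm_num) (by norm_num) (by norm_num) (by norm_num) (by norm_num) (by norm_num)
      exact sub_nonneg.1 (h.trans_eq (by unfold B2; ring))
    · have h : 0 ≤ B2 (120511 / 400000000) (149761 / 50000000) (70419 / 100000000) (785727 / 200000000) (293271 / 25000000) (38227 / 10000000) (352639 / 400000000) (32441 / 10000000) (1491 / 4000000) a b := B2_nonneg ha hb (by norm_num) (by norm_num) (by norm_num) (by norm_num) (by norm_num) (by norm_num) (by norm_num) (by norm_num) (by norm_num)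
      exact sub_nonneg.1 (h.trans_eq (by unfold B2; ring))
    · have h : 0 ≤ B1 (4953 / 100000) (8763 / 100000) (289 / 12500) (3061 / 50000) a b := B1_nonneg ha hb (by norm_num) (by norm_num) (by norm_num) (by norm_num)
      exact sub_nonneg.1 (h.trans_eq (by unfold B1; ring))
    · have h : 0 ≤ B4 (20002072587453845247 / 320000000000000000000) (319000747306551988897 / 1280000000000000000000) (241730358488836231169 / 640000000000000000000) (329926871199594133187 / 1280000000000000000000) (42729305589329139379 / 640000000000000000000) (167529705196018873749 / 640000000000000000000) (665178134656857098301 / 640000000000000000000) (2007252086783301388693 / 1280000000000000000000) (340892769563046445643 / 320000000000000000000) (351615850390560842983 / 1280000000000000000000) (266614869050169157833 / 640000000000000000000) (2109017867988235351309 / 1280000000000000000000) (1584122548002189661053 / 640000000000000000000) (2142202647033267760449 / 1280000000000000000000) (274872840458392736993 / 640000000000000000000) (95466859513810316213 / 320000000000000000000) (188147755473400184581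 / 160000000000000000000) (2251894989358042439857 / 1280000000000000000000) (757805835317010057089 / 640000000000000000000) (387031287007937886117 / 1280000000000000000000) (6480551249820332231 / 80000000000000000000) (101879924451532083261 / 320000000000000000000) (303720631579646022053 / 640000000000000000000) (203526615326672001557 / 640000000000000000000) (25860711325763744089 / 320000000000000000000) a b := B4_nonneg ha hb (by norm_num) (by norm_num) (by norm_num) (by norm_num) (by norm_num) (by norm_num) (by norm_num) (by norm_num) (by norm_num) (by norm_num) (by norm_num) (by norm_num) (by norm_num) (by norm_num) (by norm_num) (by norm_num) (by norm_num) (by norm_num) (by norm_num) (by norm_num) (by norm_num) (by norm_num) (by norm_num) (by norm_num) (by norm_num)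
      exact sub_nonneg.1 (h.trans_eq (by unfold B4 Q4; ring))

theorem twob_52 {x y : ℝ} (h0 : 17 / 16 ≤ x) (h1 : x ≤ 49 / 40) (k0 : 17 / 16 ≤ y) (k1 : y ≤ 23 / 20) :
    CenXY x y ∨ TwoAny x y := by
  rcases le_total x (183 / 160) with h | h
  · exact Or.inl ⟨by linarith, by linarith, by linarith, by linarith⟩
  · exact Or.inr (twob_54 h h1 k0 k1)

theorem twob_48 {x y : ℝ} (h0 : 17 / 16 ≤ x) (h1 : x ≤ 49 / 40) (k0 : 39 / 40 ≤ y) (k1 : y ≤ 23 / 20) :
    CenXY x y ∨ TwoAny x y := by
  rcases le_total y (17 / 16) with h | h
  · exact twob_49 h0 h1 k0 h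
  · exact twob_52 h0 h1 h k1

theorem twob_38 {x y : ℝ} (h0 : 9 / 10 ≤ x) (h1 : x ≤ 49 / 40) (k0 : 39 / 40 ≤ y) (k1 : y ≤ 23 / 20) :
    CenXY x y ∨ TwoAny x y := by
  rcases le_total x (17 / 16) with h | h
  · exact twob_39 h0 h k0 k1
  · exact twob_48 h h1 k0 k1

theorem twob_16 {x y : ℝ} (h0 : 9 / 10 ≤ x) (h1 : x ≤ 49 / 40) (k0 : 4 / 5 ≤ y) (k1 : y ≤ 23 / 20) :
    CenXY x y ∨ TwoAny x y := by
  rcases le_total y (39 / 40) with h | h
  · exact twob_17 h0 h1 k0 h
  · exact twob_38 h0 h1 h k1

theorem twob_57 {x y : ℝ} (h0 : 49 / 40 ≤ x) (h1 : x ≤ 111 / 80) (k0 : 4 / 5 ≤ y) (k1 : y ≤ 39 / 40) :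
    TwoAny x y := by
  obtain ⟨a, ha, rfl⟩ := affine01 h0 h1 (by norm_num)
  obtain ⟨b, hb, rfl⟩ := affine01 k0 k1 (by norm_num)
  refine ⟨9 / 5, by norm_num, ?_, ?_⟩
  · refine ⟨3 / 5, 3 / 4, 643501 / 1000000, 5 / 4, 11331 / 10000 + 139 / 500 * a + 303 / 2500 * b, 197 / 625 + 1481 / 10000 * a + (-(1051 / 10000)) * b, 9863 / 10000 + 1307 / 10000 * a + 51 / 2500 * b, (49 / 40 + (111 / 80 - 49 / 40) * a) - (4 / 5 + (39 / 40 - 4 / 5) * b), trigQ_6, ?_, ?_, ?_, ?_, ?_, ?_, ?_, ?_, ?_⟩
    · have h : 0 ≤ B1 (11331 / 10000) (12543 / 10000) (14111 / 10000) (15323 / 10000) a b := B1_nonneg ha hb (by norm_num) (by norm_num) (by norm_num) (by norm_num)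
      exact sub_nonneg.1 (h.trans_eq (by unfold B1; ring))
    · have h : 0 ≤ B1 (6669 / 10000) (5457 / 10000) (3889 / 10000) (2677 / 10000) a b := B1_nonneg ha hb (by norm_num) (by norm_num) (by norm_num) (by norm_num)
      exact sub_nonneg.1 (h.trans_eq (by unfold B1; ring))
    · have h : 0 ≤ B1 (197 / 625) (2101 / 10000) (4633 / 10000) (1791 / 5000) a b := B1_nonneg ha hb (by norm_num) (by norm_num) (by norm_num) (by norm_num)
      exact sub_nonneg.1 (h.trans_eq (by unfold B1; ring))
    · have h : 0 ≤ B1 (9863 / 10000) (10067 / 10000) (1117 / 1000) (5687 / 5000) a b := B1_nonneg ha hb (by norm_num) (by norm_num) (by norm_num) (by norm_num)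
      exact sub_nonneg.1 (h.trans_eq (by unfold B1; ring))
    · rw [abs_sub_comm]; exact le_abs_self _
    · have h : 0 ≤ B2 (859271 / 100000000) (171581 / 6250000) (15799 / 100000000) (3729193 / 100000000) (11203081 / 100000000) (933359 / 25000000) (65619 / 400000000) (5501501 / 200000000) (3456479 / 400000000) a b := B2_nonneg ha hb (by norm_num) (by norm_num) (by norm_num) (by norm_num) (by norm_num) (by norm_num) (by norm_num) (by norm_num) (by norm_num)
      exact sub_nonneg.1 (h.trans_eq (by unfold B2; ring))
    · have h : 0 ≤ B2 (31231 / 100000000) (579179 / 50000000) (159943 / 50000000) (104029 / 5000000) (363731 / 6250000) (1062317 / 50000000) (3411 / 1000000) (31121 / 2500000) (96499 / 100000000) a b := B2_nonneg ha hb (by norm_num) (by norm_num) (by norm_num) (by norm_num) (by norm_num) (by norm_num) (by norm_num) (by norm_num) (by norm_num)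
      exact sub_nonneg.1 (h.trans_eq (by unfold B2; ring))
    · have h : 0 ≤ B1 (2743 / 50000) (6379 / 50000) (1479 / 25000) (3297 / 25000) a b := B1_nonneg ha hb (by norm_num) (by norm_num) (by norm_num) (by norm_num)
      exact sub_nonneg.1 (h.trans_eq (by unfold B1; ring))
    · have h : 0 ≤ B2 (5748214294561 / 200000000000000) (2561571690483 / 100000000000000) (3724991769349 / 200000000000000) (1722980853529 / 25000000000000) (102309601749 / 1562500000000) (1001488445191 / 25000000000000) (16365555287071 / 200000000000000) (12316165574853 / 100000000000000) (12616838545579 / 200000000000000) a b := B2_nonneg ha hb (by norm_num) (by norm_num) (by norm_num) (by norm_num) (by norm_num) (by norm_num) (by norm_num) (by norm_num) (by norm_num)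
      exact sub_nonneg.1 (h.trans_eq (by unfold B2; ring))
  · refine ⟨20 / 29, 20 / 21, 190253 / 250000, 29 / 21, 4797 / 5000 + 53 / 200 * a + 357 / 5000 * b, 1723 / 5000 + 777 / 5000 * a + (-(503 / 5000)) * b, 8937 / 10000 + 1377 / 10000 * a + (-(2 / 625)) * b, (49 / 40 + (111 / 80 - 49 / 40) * a) - (4 / 5 + (39 / 40 - 4 / 5) * b), trigQ_7, ?_, ?_, ?_, ?_, ?_, ?_, ?_, ?_, ?_⟩
    · have h : 0 ≤ B1 (4797 / 5000) (2577 / 2500) (3061 / 2500) (6479 / 5000) a b := B1_nonneg ha hb (by norm_num) (by norm_num) (by norm_num) (by norm_num)
      exact sub_nonneg.1 (h.trans_eq (by unfold B1; ring))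
    · have h : 0 ≤ B1 (4203 / 5000) (1923 / 2500) (1439 / 2500) (2521 / 5000) a b := B1_nonneg ha hb (by norm_num) (by norm_num) (by norm_num) (by norm_num)
      exact sub_nonneg.1 (h.trans_eq (by unfold B1; ring))
    · have h : 0 ≤ B1 (1723 / 5000) (61 / 250) (1 / 2) (1997 / 5000) a b := B1_nonneg ha hb (by norm_num) (by norm_num) (by norm_num) (by norm_num)
      exact sub_nonneg.1 (h.trans_eq (by unfold B1; ring))
    · have h : 0 ≤ B1 (8937 / 10000) (1781 / 2000) (5157 / 5000) (5141 / 5000) a b := B1_nonneg ha hb (by norm_num) (by norm_num) (by norm_num) (by norm_num)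
      exact sub_nonneg.1 (h.trans_eq (by unfold B1; ring))
    · rw [abs_sub_comm]; exact le_abs_self _
    · have h : 0 ≤ B2 (1149459 / 100000000) (147051 / 5000000) (139 / 1000000) (6777 / 160000) (12028977 / 100000000) (423803 / 10000000) (71 / 640000) (9401 / 320000) (4596231 / 400000000) a b := B2_nonneg ha hb (by norm_num) (by norm_num) (by norm_num) (by norm_num) (by norm_num) (by norm_num) (by norm_num) (by norm_num) (by norm_num)
      exact sub_nonneg.1 (h.trans_eq (by unfold B2; ring))
    · have h : 0 ≤ B2 (70031 / 100000000) (85203 / 10000000) (307 / 2000000) (506891 / 25000000) (695899 / 12500000) (200633 / 10000000) (15351 / 25000000) (115363 / 12500000) (94851 / 100000000) a b := B2_nonneg ha hb (by norm_num) (by norm_num) (by norm_num) (by norm_num) (by norm_num) (by norm_num) (by norm_num) (by norm_num) (by norm_num)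
      exact sub_nonneg.1 (h.trans_eq (by unfold B2; ring))
    · have h : 0 ≤ B1 (3663 / 29000) (5091 / 29000) (8501 / 58000) (11357 / 58000) a b := B1_nonneg ha hb (by norm_num) (by norm_num) (by norm_num) (by norm_num)
      exact sub_nonneg.1 (h.trans_eq (by unfold B1; ring))
    · have h : 0 ≤ B4 (23391003960709466743 / 280000000000000000000) (89393079399618489413 / 280000000000000000000) (65471284785740411177 / 140000000000000000000) (21811917701925503779 / 70000000000000000000) (2788397084391276929 / 35000000000000000000) (20234333325453734681 / 56000000000000000000) (4815057765968931351 / 3500000000000000000) (112292088393652187113 / 56000000000000000000) (37190470269608492721 / 28000000000000000000) (1180965192225872829 / 3500000000000000000) (685583288197316515553 / 1120000000000000000000) (7821631956400310412019 / 3360000000000000000000) (3788026638723193030009 / 1120000000000000000000) (2496220570333533030411 / 1120000000000000000000) (944731943319690433283 / 1680000000000000000000) (1606627582939704548777 / 3360000000000000000000) (3058462003442739601241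 / 1680000000000000000000) (739672102854448644913 / 280000000000000000000) (2913400486302765352987 / 1680000000000000000000) (1461032162297921620723 / 3360000000000000000000) (241622835173232741031 / 1680000000000000000000) (615010184339973671489 / 1120000000000000000000) (892733262281722002487 / 1120000000000000000000) (1754023644265526559869 / 3360000000000000000000) (145869580031272028271 / 1120000000000000000000) a b := B4_nonneg ha hb (by norm_num) (by norm_num) (by norm_num) (by norm_num) (by norm_num) (by norm_num) (by norm_num) (by norm_num) (by norm_num) (by norm_num) (by norm_num) (by norm_num) (by norm_num) (by norm_num) (by norm_num) (by norm_num) (by norm_num) (by norm_num) (by norm_num) (by norm_num) (by norm_num) (by norm_num) (by norm_num) (by norm_num) (by norm_num)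
      exact sub_nonneg.1 (h.trans_eq (by unfold B4 Q4; ring))

theorem twob_58 {x y : ℝ} (h0 : 111 / 80 ≤ x) (h1 : x ≤ 31 / 20) (k0 : 4 / 5 ≤ y) (k1 : y ≤ 39 / 40) :
    TwoAny x y := by
  obtain ⟨a, ha, rfl⟩ := affine01 h0 h1 (by norm_num)
  obtain ⟨b, hb, rfl⟩ := affine01 k0 k1 (by norm_num)
  refine ⟨23 / 10, by norm_num, ?_, ?_⟩
  · refine ⟨3 / 5, 3 / 4, 643501 / 1000000, 5 / 4, 14161 / 10000 + 3521 / 10000 * a + 553 / 5000 * b, 4593 / 10000 + 102 / 625 * a + (-(971 / 10000)) * b, 5603 / 5000 + 183 / 1250 * a + 137 / 10000 * b, (111 / 80 + (31 / 20 - 111 / 80) * a) - (4 / 5 + (39 / 40 - 4 / 5) * b), trigQ_6, ?_, ?_, ?_, ?_, ?_, ?_, ?_, ?_, ?_⟩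
    · have h : 0 ≤ B1 (14161 / 10000) (15267 / 10000) (8841 / 5000) (4697 / 2500) a b := B1_nonneg ha hb (by norm_num) (by norm_num) (by norm_num) (by norm_num)
      exact sub_nonneg.1 (h.trans_eq (by unfold B1; ring))
    · have h : 0 ≤ B1 (8839 / 10000) (7733 / 10000) (2659 / 5000) (1053 / 2500) a b := B1_nonneg ha hb (by norm_num) (by norm_num) (by norm_num) (by norm_num)
      exact sub_nonneg.1 (h.trans_eq (by unfold B1; ring))
    · have h : 0 ≤ B1 (4593 / 10000) (1811 / 5000) (249 / 400) (2627 / 5000) a b := B1_nonneg ha hb (by norm_num) (by norm_num) (by norm_num) (by norm_num)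
      exact sub_nonneg.1 (h.trans_eq (by unfold B1; ring))
    · have h : 0 ≤ B1 (5603 / 5000) (11343 / 10000) (1267 / 1000) (12807 / 10000) a b := B1_nonneg ha hb (by norm_num) (by norm_num) (by norm_num) (by norm_num)
      exact sub_nonneg.1 (h.trans_eq (by unfold B1; ring))
    · rw [abs_sub_comm]; exact le_abs_self _
    · have h : 0 ≤ B2 (3541779 / 400000000) (5219741 / 200000000) (63839 / 400000000) (42159 / 1000000) (11857231 / 100000000) (4224399 / 100000000) (11 / 160000) (13001 / 500000) (884859 / 100000000) a b := B2_nonneg ha hb (by norm_num) (by norm_num) (by norm_num) (by norm_num) (by norm_num) (by norm_num) (by norm_num) (by norm_num) (by norm_num)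
      exact sub_nonneg.1 (h.trans_eq (by unfold B2; ring))
    · have h : 0 ≤ B2 (8891 / 25000000) (265171 / 25000000) (120363 / 50000000) (61749 / 2500000) (814737 / 12500000) (619787 / 25000000) (2911 / 1000000) (58531 / 5000000) (47563 / 50000000) a b := B2_nonneg ha hb (by norm_num) (by norm_num) (by norm_num) (by norm_num) (by norm_num) (by norm_num) (by norm_num) (by norm_num) (by norm_num)
      exact sub_nonneg.1 (h.trans_eq (by unfold B2; ring))
    · have h : 0 ≤ B1 (777 / 12500) (3213 / 25000) (2773 / 25000) (554 / 3125) a b := B1_nonneg ha hb (by norm_num) (by norm_num) (by norm_num) (by norm_num)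
      exact sub_nonneg.1 (h.trans_eq (by unfold B1; ring))
    · have h : 0 ≤ B2 (15474549338171 / 200000000000000) (12545165877237 / 100000000000000) (13467542130539 / 200000000000000) (4919638070263 / 25000000000000) (16317274901481 / 50000000000000) (8403878618073 / 50000000000000) (8472652715281 / 50000000000000) (7524359890729 / 25000000000000) (471187937171 / 3125000000000) a b := B2_nonneg ha hb (by norm_num) (by norm_num) (by norm_num) (by norm_num) (by norm_num) (by norm_num) (by norm_num) (by norm_num) (by norm_num)
      exact sub_nonneg.1 (h.trans_eq (by unfold B2; ring))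
  · refine ⟨3 / 5, 3 / 4, 643501 / 1000000, 5 / 4, 13223 / 10000 + 1429 / 5000 * a + 1 / 250 * b, 72 / 125 + 227 / 2000 * a + (-(1331 / 10000)) * b, 10759 / 10000 + 127 / 1000 * a + (-(327 / 10000)) * b, (111 / 80 + (31 / 20 - 111 / 80) * a) - (4 / 5 + (39 / 40 - 4 / 5) * b), trigQ_6, ?_, ?_, ?_, ?_, ?_, ?_, ?_, ?_, ?_⟩
    · have h : 0 ≤ B1 (13223 / 10000) (13263 / 10000) (16081 / 10000) (16121 / 10000) a b := B1_nonneg ha hb (by norm_num) (by norm_num) (by norm_num) (by norm_num)
      exact sub_nonneg.1 (h.trans_eq (by unfold B1; ring))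
    · have h : 0 ≤ B1 (9777 / 10000) (9737 / 10000) (6919 / 10000) (6879 / 10000) a b := B1_nonneg ha hb (by norm_num) (by norm_num) (by norm_num) (by norm_num)
      exact sub_nonneg.1 (h.trans_eq (by unfold B1; ring))
    · have h : 0 ≤ B1 (72 / 125) (4429 / 10000) (1379 / 2000) (1391 / 2500) a b := B1_nonneg ha hb (by norm_num) (by norm_num) (by norm_num) (by norm_num)
      exact sub_nonneg.1 (h.trans_eq (by unfold B1; ring))
    · have h : 0 ≤ B1 (10759 / 10000) (652 / 625) (12029 / 10000) (5851 / 5000) a b := B1_nonneg ha hb (by norm_num) (by norm_num) (by norm_num) (by norm_num)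
      exact sub_nonneg.1 (h.trans_eq (by unfold B1; ring))
    · rw [abs_sub_comm]; exact le_abs_self _
    · have h : 0 ≤ B2 (259759 / 16000000) (1878293 / 40000000) (2140211 / 400000000) (71567 / 2000000) (2444487 / 20000000) (3569713 / 100000000) (259 / 4000000) (181497 / 5000000) (1086279 / 100000000) a b := B2_nonneg ha hb (by norm_num) (by norm_num) (by norm_num) (by norm_num) (by norm_num) (by norm_num) (by norm_num) (by norm_num) (by norm_num)
      exact sub_nonneg.1 (h.trans_eq (by unfold B2; ring))
    · have h : 0 ≤ B2 (473919 / 100000000) (43257 / 3125000) (37751 / 100000000) (1099989 / 50000000) (1525827 / 25000000) (1079111 / 50000000) (113159 / 100000000) (373321 / 25000000) (507571 / 100000000) a b := B2_nonneg ha hb (by norm_num) (by norm_num) (by norm_num) (by norm_num) (by norm_num) (by norm_num) (by norm_num) (by norm_num) (by norm_num)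
      exact sub_nonneg.1 (h.trans_eq (by unfold B2; ring))
    · have h : 0 ≤ B1 (147 / 25000) (207 / 25000) (743 / 50000) (863 / 50000) a b := B1_nonneg ha hb (by norm_num) (by norm_num) (by norm_num) (by norm_num)
      exact sub_nonneg.1 (h.trans_eq (by unfold B1; ring))
    · have h : 0 ≤ B4 (82682849633096897011 / 640000000000000000000) (161190669652573084577 / 320000000000000000000) (119858022435442038199 / 160000000000000000000) (161199310169678153087 / 320000000000000000000) (82665020269637425521 / 640000000000000000000) (376180559210042459019 / 640000000000000000000) (365454821959714289589 / 160000000000000000000) (1081487515149832871877 / 320000000000000000000) (361250668719603382129 / 160000000000000000000) (367666373207562484099 / 640000000000000000000) (654140267747720239913 / 640000000000000000000) (158552200324961616607 / 40000000000000000000) (1869577278746208530829 / 320000000000000000000) (310505866476347875729 / 80000000000000000000) (627587311770031569973 / 640000000000000000000) (512570140893019516821 / 640000000000000000000) (496534360521015059251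 / 160000000000000000000) (1459855845012411229643 / 320000000000000000000) (482769964581256488711 / 160000000000000000000) (484935469491244215741 / 640000000000000000000) (37981895680561209729 / 160000000000000000000) (294370092709192680247 / 320000000000000000000) (432050036545151494293 / 320000000000000000000) (284818490526650085677 / 320000000000000000000) (71174755329568852173 / 320000000000000000000) a b := B4_nonneg ha hb (by norm_num) (by norm_num) (by norm_num) (by norm_num) (by norm_num) (by norm_num) (by norm_num) (by norm_num) (by norm_num) (by norm_num) (by norm_num) (by norm_num) (by norm_num) (by norm_num) (by norm_num) (by norm_num) (by norm_num) (by norm_num) (by norm_num) (by norm_num) (by norm_num) (by norm_num) (by norm_num) (by norm_num) (by norm_num)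
      exact sub_nonneg.1 (h.trans_eq (by unfold B4 Q4; ring))

theorem twob_56 {x y : ℝ} (h0 : 49 / 40 ≤ x) (h1 : x ≤ 31 / 20) (k0 : 4 / 5 ≤ y) (k1 : y ≤ 39 / 40) :
    CenXY x y ∨ TwoAny x y := by
  rcases le_total x (111 / 80) with h | h
  · exact Or.inr (twob_57 h0 h k0 k1)
  · exact Or.inr (twob_58 h h1 k0 k1)

theorem twob_60 {x y : ℝ} (h0 : 49 / 40 ≤ x) (h1 : x ≤ 111 / 80) (k0 : 39 / 40 ≤ y) (k1 : y ≤ 23 / 20) :
    TwoAny x y := by
  obtain ⟨a, ha, rfl⟩ := affine01 h0 h1 (by norm_num)
  obtain ⟨b, hb, rfl⟩ := affine01 k0 k1 (by norm_num)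
  refine ⟨19 / 10, by norm_num, ?_, ?_⟩
  · refine ⟨3 / 5, 3 / 4, 643501 / 1000000, 5 / 4, 12667 / 10000 + 2611 / 10000 * a + 93 / 625 * b, 2063 / 10000 + 787 / 5000 * a + (-(1341 / 10000)) * b, 10143 / 10000 + 1199 / 10000 * a + 16 / 625 * b, (49 / 40 + (111 / 80 - 49 / 40) * a) - (39 / 40 + (23 / 20 - 39 / 40) * b), trigQ_6, ?_, ?_, ?_, ?_, ?_, ?_, ?_, ?_, ?_⟩
    · have h : 0 ≤ B1 (12667 / 10000) (2831 / 2000) (7639 / 5000) (8383 / 5000) a b := B1_nonneg ha hb (by norm_num) (by norm_num) (by norm_num) (by norm_num)
      exact sub_nonneg.1 (h.trans_eq (by unfold B1; ring))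
    · have h : 0 ≤ B1 (6333 / 10000) (969 / 2000) (1861 / 5000) (1117 / 5000) a b := B1_nonneg ha hb (by norm_num) (by norm_num) (by norm_num) (by norm_num)
      exact sub_nonneg.1 (h.trans_eq (by unfold B1; ring))
    · have h : 0 ≤ B1 (2063 / 10000) (361 / 5000) (3637 / 10000) (287 / 1250) a b := B1_nonneg ha hb (by norm_num) (by norm_num) (by norm_num) (by norm_num)
      exact sub_nonneg.1 (h.trans_eq (by unfold B1; ring))
    · have h : 0 ≤ B1 (10143 / 10000) (10399 / 10000) (5671 / 5000) (5799 / 5000) a b := B1_nonneg ha hb (by norm_num) (by norm_num) (by norm_num) (by norm_num)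
      exact sub_nonneg.1 (h.trans_eq (by unfold B1; ring))
    · rw [abs_sub_comm]; exact le_abs_self _
    · have h : 0 ≤ B2 (1414031 / 100000000) (997757 / 25000000) (13091 / 100000000) (2284369 / 50000000) (14263001 / 100000000) (4566451 / 100000000) (68299 / 400000000) (7993417 / 200000000) (5662911 / 400000000) a b := B2_nonneg ha hb (by norm_num) (by norm_num) (by norm_num) (by norm_num) (by norm_num) (by norm_num) (by norm_num) (by norm_num) (by norm_num)
      exact sub_nonneg.1 (h.trans_eq (by unfold B2; ring))
    · have h : 0 ≤ B2 (11963 / 50000000) (601693 / 50000000) (348299 / 100000000) (917469 / 50000000) (335441 / 6250000) (467449 / 25000000) (373411 / 100000000) (322117 / 25000000) (10487 / 12500000) a b := B2_nonneg ha hb (by norm_num) (by norm_num) (by norm_num) (by norm_num) (by norm_num) (by norm_num) (by norm_num) (by norm_num) (by norm_num)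
      exact sub_nonneg.1 (h.trans_eq (by unfold B2; ring))
    · have h : 0 ≤ B1 (6751 / 50000) (2243 / 10000) (6459 / 50000) (10923 / 50000) a b := B1_nonneg ha hb (by norm_num) (by norm_num) (by norm_num) (by norm_num)
      exact sub_nonneg.1 (h.trans_eq (by unfold B1; ring))
    · have h : 0 ≤ B2 (2314608583389 / 200000000000000) (88008327927 / 20000000000000) (162365422961 / 8000000000000) (3660221824301 / 100000000000000) (534104574503 / 25000000000000) (793971470371 / 20000000000000) (417213209837 / 6250000000000) (2510341076987 / 25000000000000) (1528195847407 / 25000000000000) a b := B2_nonneg ha hb (by norm_num) (by norm_num) (by norm_num) (by norm_num) (by norm_num) (by norm_num) (by norm_num) (by norm_num) (by norm_num)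
      exact sub_nonneg.1 (h.trans_eq (by unfold B2; ring))
  · refine ⟨3 / 5, 3 / 4, 643501 / 1000000, 5 / 4, 2687 / 2500 + 2517 / 10000 * a + 121 / 2000 * b, 1299 / 5000 + 1797 / 10000 * a + (-(1773 / 10000)) * b, 571 / 625 + 259 / 2000 * a + (-(167 / 10000)) * b, (49 / 40 + (111 / 80 - 49 / 40) * a) - (39 / 40 + (23 / 20 - 39 / 40) * b), trigQ_6, ?_, ?_, ?_, ?_, ?_, ?_, ?_, ?_, ?_⟩
    · have h : 0 ≤ B1 (2687 / 2500) (11353 / 10000) (2653 / 2000) (1387 / 1000) a b := B1_nonneg ha hb (by norm_num) (by norm_num) (by norm_num) (by norm_num)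
      exact sub_nonneg.1 (h.trans_eq (by unfold B1; ring))
    · have h : 0 ≤ B1 (2063 / 2500) (7647 / 10000) (1147 / 2000) (513 / 1000) a b := B1_nonneg ha hb (by norm_num) (by norm_num) (by norm_num) (by norm_num)
      exact sub_nonneg.1 (h.trans_eq (by unfold B1; ring))
    · have h : 0 ≤ B1 (1299 / 5000) (33 / 400) (879 / 2000) (1311 / 5000) a b := B1_nonneg ha hb (by norm_num) (by norm_num) (by norm_num) (by norm_num)
      exact sub_nonneg.1 (h.trans_eq (by unfold B1; ring))
    · have h : 0 ≤ B1 (571 / 625) (8969 / 10000) (10431 / 10000) (1283 / 1250) a b := B1_nonneg ha hb (by norm_num) (by norm_num) (by norm_num) (by norm_num)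
      exact sub_nonneg.1 (h.trans_eq (by unfold B1; ring))
    · rw [abs_sub_comm]; exact le_abs_self _
    · have h : 0 ≤ B2 (452237 / 12500000) (37679 / 500000) (7 / 80000) (836233 / 10000000) (22843713 / 100000000) (266523 / 4000000) (136811 / 16000000) (3011673 / 40000000) (11059839 / 400000000) a b := B2_nonneg ha hb (by norm_num) (by norm_num) (by norm_num) (by norm_num) (by norm_num) (by norm_num) (by norm_num) (by norm_num) (by norm_num)
      exact sub_nonneg.1 (h.trans_eq (by unfold B2; ring))
    · have h : 0 ≤ B2 (247879 / 100000000) (266483 / 25000000) (24539 / 100000000) (1001759 / 50000000) (2789957 / 50000000) (248671 / 12500000) (39307 / 50000000) (289983 / 25000000) (71951 / 25000000) a b := B2_nonneg ha hb (by norm_num) (by norm_num) (by norm_num) (by norm_num) (by norm_num) (by norm_num) (by norm_num) (by norm_num) (by norm_num)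
      exact sub_nonneg.1 (h.trans_eq (by unfold B2; ring))
    · have h : 0 ≤ B1 (497 / 25000) (2809 / 50000) (21 / 2500) (447 / 10000) a b := B1_nonneg ha hb (by norm_num) (by norm_num) (by norm_num) (by norm_num)
      exact sub_nonneg.1 (h.trans_eq (by unfold B1; ring))
    · have h : 0 ≤ B4 (663770952631965157 / 10000000000000000000) (5208902934305659561 / 20000000000000000000) (64216334465817008967 / 160000000000000000000) (91758246031454828911 / 320000000000000000000) (25427353564488478929 / 320000000000000000000) (11786150956609939179 / 40000000000000000000) (45497284382358377531 / 40000000000000000000) (1100901874866903905679 / 640000000000000000000) (385954148613688546163 / 320000000000000000000) (210384557172448200279 / 640000000000000000000) (82769174364684779619 / 160000000000000000000) (631380249914140089277 / 320000000000000000000) (1877137251893577631131 / 640000000000000000000) (322447649768218535751 / 160000000000000000000) (344337149548837571951 / 640000000000000000000) (53778644087765867237 / 128000000000000000000) (25464743878846576449 / 16000000000000000000)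 (298865695205717257299 / 128000000000000000000) (20162422099492720777 / 12800000000000000000) (26348916366108347413 / 64000000000000000000) (3356543892696138981 / 25600000000000000000) (6342018230910716279 / 12800000000000000000) (18449110445545781007 / 25600000000000000000) (6134446221324586607 / 12800000000000000000) (393409320778585723 / 3200000000000000000) a b := B4_nonneg ha hb (by norm_num) (by norm_num) (by norm_num) (by norm_num) (by norm_num) (by norm_num) (by norm_num) (by norm_num) (by norm_num) (by norm_num) (by norm_num) (by norm_num) (by norm_num) (by norm_num) (by norm_num) (by norm_num) (by norm_num) (by norm_num) (by norm_num) (by norm_num) (by norm_num) (by norm_num) (by norm_num) (by norm_num) (by norm_num)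
      exact sub_nonneg.1 (h.trans_eq (by unfold B4 Q4; ring))

theorem twob_61 {x y : ℝ} (h0 : 111 / 80 ≤ x) (h1 : x ≤ 31 / 20) (k0 : 39 / 40 ≤ y) (k1 : y ≤ 23 / 20) :
    TwoAny x y := by
  obtain ⟨a, ha, rfl⟩ := affine01 h0 h1 (by norm_num)
  obtain ⟨b, hb, rfl⟩ := affine01 k0 k1 (by norm_num)
  refine ⟨23 / 10, by norm_num, ?_, ?_⟩
  · refine ⟨3 / 5, 3 / 4, 643501 / 1000000, 5 / 4, 15381 / 10000 + 3381 / 10000 * a + 127 / 1000 * b, 224 / 625 + 108 / 625 * a + (-(1233 / 10000)) * b, 5701 / 5000 + 347 / 2500 * a + 7 / 500 * b, (111 / 80 + (31 / 20 - 111 / 80) * a) - (39 / 40 + (23 / 20 - 39 / 40) * b), trigQ_6, ?_, ?_, ?_, ?_, ?_, ?_, ?_, ?_, ?_⟩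
    · have h : 0 ≤ B1 (15381 / 10000) (16651 / 10000) (9381 / 5000) (1252 / 625) a b := B1_nonneg ha hb (by norm_num) (by norm_num) (by norm_num) (by norm_num)
      exact sub_nonneg.1 (h.trans_eq (by unfold B1; ring))
    · have h : 0 ≤ B1 (7619 / 10000) (6349 / 10000) (2119 / 5000) (371 / 1250) a b := B1_nonneg ha hb (by norm_num) (by norm_num) (by norm_num) (by norm_num)
      exact sub_nonneg.1 (h.trans_eq (by unfold B1; ring))
    · have h : 0 ≤ B1 (224 / 625) (2351 / 10000) (332 / 625) (4079 / 10000) a b := B1_nonneg ha hb (by norm_num) (by norm_num) (by norm_num) (by norm_num)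
      exact sub_nonneg.1 (h.trans_eq (by unfold B1; ring))
    · have h : 0 ≤ B1 (5701 / 5000) (5771 / 5000) (1279 / 1000) (1293 / 1000) a b := B1_nonneg ha hb (by norm_num) (by norm_num) (by norm_num) (by norm_num)
      exact sub_nonneg.1 (h.trans_eq (by unfold B1; ring))
    · rw [abs_sub_comm]; exact le_abs_self _
    · have h : 0 ≤ B2 (5719151 / 400000000) (7451689 / 200000000) (40571 / 400000000) (5087959 / 100000000) (14747829 / 100000000) (2544021 / 50000000) (12031 / 100000000) (466213 / 12500000) (1431759 / 100000000) a b := B2_nonneg ha hb (by norm_num) (by norm_num) (by norm_num) (by norm_num) (by norm_num) (by norm_num) (by norm_num) (by norm_num) (by norm_num)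
      exact sub_nonneg.1 (h.trans_eq (by unfold B2; ring))
    · have h : 0 ≤ B2 (38771 / 100000000) (263433 / 25000000) (28717 / 12500000) (223559 / 10000000) (150873 / 2500000) (27861 / 1250000) (10811 / 4000000) (11281 / 1000000) (363 / 500000) a b := B2_nonneg ha hb (by norm_num) (by norm_num) (by norm_num) (by norm_num) (by norm_num) (by norm_num) (by norm_num) (by norm_num) (by norm_num)
      exact sub_nonneg.1 (h.trans_eq (by unfold B2; ring))
    · have h : 0 ≤ B1 (423 / 3125) (5289 / 25000) (4393 / 25000) (3149 / 12500) a b := B1_nonneg ha hb (by norm_num) (by norm_num) (by norm_num) (by norm_num)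
      exact sub_nonneg.1 (h.trans_eq (by unfold B1; ring))
    · have h : 0 ≤ B2 (12013244946911 / 200000000000000) (10396683345781 / 100000000000000) (13533308882551 / 200000000000000) (8220667864161 / 50000000000000) (14098143884127 / 50000000000000) (2063517397229 / 12500000000000) (7743526531411 / 50000000000000) (1744017752399 / 6250000000000) (57788377127 / 390625000000) a b := B2_nonneg ha hb (by norm_num) (by norm_num) (by norm_num) (by norm_num) (by norm_num) (by norm_num) (by norm_num) (by norm_num) (by norm_num)
      exact sub_nonneg.1 (h.trans_eq (by unfold B2; ring))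
  · refine ⟨3 / 5, 3 / 4, 643501 / 1000000, 5 / 4, 6563 / 5000 + 3377 / 10000 * a + 139 / 2000 * b, 4073 / 10000 + 937 / 5000 * a + (-(283 / 2500)) * b, 5179 / 5000 + 381 / 2500 * a + (-(53 / 5000)) * b, (111 / 80 + (31 / 20 - 111 / 80) * a) - (39 / 40 + (23 / 20 - 39 / 40) * b), trigQ_6, ?_, ?_, ?_, ?_, ?_, ?_, ?_, ?_, ?_⟩
    · have h : 0 ≤ B1 (6563 / 5000) (13821 / 10000) (16503 / 10000) (8599 / 5000) a b := B1_nonneg ha hb (by norm_num) (by norm_num) (by norm_num) (by norm_num)
      exact sub_nonneg.1 (h.trans_eq (by unfold B1; ring))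
    · have h : 0 ≤ B1 (4937 / 5000) (9179 / 10000) (6497 / 10000) (2901 / 5000) a b := B1_nonneg ha hb (by norm_num) (by norm_num) (by norm_num) (by norm_num)
      exact sub_nonneg.1 (h.trans_eq (by unfold B1; ring))
    · have h : 0 ≤ B1 (4073 / 10000) (2941 / 10000) (5947 / 10000) (963 / 2000) a b := B1_nonneg ha hb (by norm_num) (by norm_num) (by norm_num) (by norm_num)
      exact sub_nonneg.1 (h.trans_eq (by unfold B1; ring))
    · have h : 0 ≤ B1 (5179 / 5000) (2563 / 2500) (5941 / 5000) (736 / 625) a b := B1_nonneg ha hb (by norm_num) (by norm_num) (by norm_num) (by norm_num)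
      exact sub_nonneg.1 (h.trans_eq (by unfold B1; ring))
    · rw [abs_sub_comm]; exact le_abs_self _
    · have h : 0 ≤ B2 (8767059 / 400000000) (9478353 / 200000000) (2001451 / 400000000) (6861363 / 100000000) (17823631 / 100000000) (686817 / 10000000) (248783 / 50000000) (474039 / 10000000) (87831 / 4000000) a b := B2_nonneg ha hb (by norm_num) (by norm_num) (by norm_num) (by norm_num) (by norm_num) (by norm_num) (by norm_num) (by norm_num) (by norm_num)
      exact sub_nonneg.1 (h.trans_eq (by unfold B2; ring))
    · have h : 0 ≤ B2 (206211 / 100000000) (256767 / 25000000) (10999 / 25000000) (1305619 / 50000000) (846857 / 12500000) (326237 / 12500000) (82451 / 100000000) (275659 / 25000000) (60831 / 25000000) a b := B2_nonneg ha hb (by norm_num) (by norm_num) (by norm_num) (by norm_num) (by norm_num) (by norm_num) (by norm_num) (by norm_num) (by norm_num)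
      exact sub_nonneg.1 (h.trans_eq (by unfold B2; ring))
    · have h : 0 ≤ B1 (3 / 50000) (261 / 6250) (2009 / 50000) (2047 / 25000) a b := B1_nonneg ha hb (by norm_num) (by norm_num) (by norm_num) (by norm_num)
      exact sub_nonneg.1 (h.trans_eq (by unfold B1; ring))
    · have h : 0 ≤ B4 (4917473255607605649 / 40000000000000000000) (154502374384210097623 / 320000000000000000000) (463458580817457977409 / 640000000000000000000) (157283474732791927183 / 320000000000000000000) (81433545326824381819 / 640000000000000000000) (175002504317972077847 / 320000000000000000000) (684060113638352366633 / 320000000000000000000) (2039502367553086819709 / 640000000000000000000) (343611767732000739349 / 160000000000000000000) (353059922015676715259 / 640000000000000000000) (606006249178192764677 / 640000000000000000000) (295180505964498992891 / 80000000000000000000) (3502679258391566699697 / 640000000000000000000) (1172362922505089485609 / 320000000000000000000) (149371096289102862493 / 160000000000000000000) (479742240225871171921 / 640000000000000000000) (933326163174637929947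 / 320000000000000000000) (2758844613904292938581 / 640000000000000000000) (459121048193102470041 / 160000000000000000000) (116137416247880407389 / 160000000000000000000) (72530713796950436277 / 320000000000000000000) (282161878570784227393 / 320000000000000000000) (26006535695261096287 / 20000000000000000000) (68954808653081251497 / 80000000000000000000) (1083528566593457133 / 5000000000000000000) a b := B4_nonneg ha hb (by norm_num) (by norm_num) (by norm_num) (by norm_num) (by norm_num) (by norm_num) (by norm_num) (by norm_num) (by norm_num) (by norm_num) (by norm_num) (by norm_num) (by norm_num) (by norm_num) (by norm_num) (by norm_num) (by norm_num) (by norm_num) (by norm_num) (by norm_num) (by norm_num) (by norm_num) (by norm_num) (by norm_num) (by norm_num)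
      exact sub_nonneg.1 (h.trans_eq (by unfold B4 Q4; ring))

theorem twob_59 {x y : ℝ} (h0 : 49 / 40 ≤ x) (h1 : x ≤ 31 / 20) (k0 : 39 / 40 ≤ y) (k1 : y ≤ 23 / 20) :
    CenXY x y ∨ TwoAny x y := by
  rcases le_total x (111 / 80) with h | h
  · exact Or.inr (twob_60 h0 h k0 k1)
  · exact Or.inr (twob_61 h h1 k0 k1)

theorem twob_55 {x y : ℝ} (h0 : 49 / 40 ≤ x) (h1 : x ≤ 31 / 20) (k0 : 4 / 5 ≤ y) (k1 : y ≤ 23 / 20) :
    CenXY x y ∨ TwoAny x y := by
  rcases le_total y (39 / 40) with h | h
  · exact twob_56 h0 h1 k0 h
  · exact twob_59 h0 h1 h k1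

theorem twob_15 {x y : ℝ} (h0 : 9 / 10 ≤ x) (h1 : x ≤ 31 / 20) (k0 : 4 / 5 ≤ y) (k1 : y ≤ 23 / 20) :
    CenXY x y ∨ TwoAny x y := by
  rcases le_total x (49 / 40) with h | h
  · exact twob_16 h0 h k0 k1
  · exact twob_55 h h1 k0 k1

theorem twob_1 {x y : ℝ} (h0 : 9 / 10 ≤ x) (h1 : x ≤ 31 / 20) (k0 : 9 / 20 ≤ y) (k1 : y ≤ 23 / 20) :
    CenXY x y ∨ TwoAny x y := by
  rcases le_total y (4 / 5) with h | h
  · exact twob_2 h0 h1 k0 h
  · exact twob_15 h0 h1 h k1

theorem twob_top {x y : ℝ} (h0 : 9 / 10 ≤ x) (h1 : x ≤ 31 / 20) (k0 : 9 / 20 ≤ y) (k1 : y ≤ 23 / 20) :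
    CenXY x y ∨ TwoAny x y :=
  twob_1 h0 h1 k0 k1

end Pool.Agent.Helper98.LC3
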