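import Pool.Agent.Helper98.LC3.S.CertDef

/-!
# LC3: certificates (generated)
-/

namespace Pool.Agent.Helper98.LC3

open Real

set_option maxRecDepth 8000

theorem twoc_3 {x y : ℝ} (h0 : 1 / 4 ≤ x) (h1 : x ≤ 23 / 40) (k0 : 23 / 20 ≤ y) (k1 : y ≤ 3 / 2) :
    TwoAny x y := by
  obtain ⟨a, ha, rfl⟩ := affine01 h0 h1 (by norm_num)
  obtain ⟨b, hb, rfl⟩ := affine01 k0 k1 (by norm_num)
  refine ⟨17 / 10, by norm_num, ?_, ?_⟩
  · refine ⟨5 / 13, 5 / 12, 394791 / 1000000, 13 / 12, 8183 / 10000 + 291 / 2500 * a + 2997 / 5000 * b, 5701 / 10000 + (-(667 / 5000)) * a + 1187 / 5000 * b, 3491 / 5000 + 339 / 5000 * a + 2169 / 10000 * b, (23 / 20 + (3 / 2 - 23 / 20) * b) - (1 / 4 + (23 / 40 - 1 / 4) * a), trigQ_4, ?_, ?_, ?_, ?_, ?_, ?_, ?_, ?_, ?_⟩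
    · have h : 0 ≤ B1 (8183 / 10000) (14177 / 10000) (9347 / 10000) (15341 / 10000) a b := B1_nonneg ha hb (by norm_num) (by norm_num) (by norm_num) (by norm_num)
      exact sub_nonneg.1 (h.trans_eq (by unfold B1; ring))
    · have h : 0 ≤ B1 (8817 / 10000) (2823 / 10000) (7653 / 10000) (1659 / 10000) a b := B1_nonneg ha hb (by norm_num) (by norm_num) (by norm_num) (by norm_num)
      exact sub_nonneg.1 (h.trans_eq (by unfold B1; ring))
    · have h : 0 ≤ B1 (5701 / 10000) (323 / 400) (4367 / 10000) (6741 / 10000) a b := B1_nonneg ha hb (by norm_num) (by norm_num) (by norm_num) (by norm_num)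
      exact sub_nonneg.1 (h.trans_eq (by unfold B1; ring))
    · have h : 0 ≤ B1 (3491 / 5000) (9151 / 10000) (383 / 500) (9829 / 10000) a b := B1_nonneg ha hb (by norm_num) (by norm_num) (by norm_num) (by norm_num)
      exact sub_nonneg.1 (h.trans_eq (by unfold B1; ring))
    · exact le_abs_self _
    · have h : 0 ≤ B2 (328599 / 100000000) (180577 / 2000000) (3 / 160000) (2378733 / 50000000) (3363071 / 12500000) (95007 / 2000000) (4343 / 50000000) (2258839 / 25000000) (164147 / 50000000) a b := B2_nonneg ha hb (by norm_num) (by norm_num) (by norm_num) (by norm_num) (by norm_num) (by norm_num) (by norm_num) (by norm_num) (by norm_num)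
      exact sub_nonneg.1 (h.trans_eq (by unfold B2; ring))
    · have h : 0 ≤ B2 (2397 / 12500000) (2391359 / 25000000) (1779199 / 100000000) (55269 / 2500000) (5133631 / 25000000) (1394821 / 50000000) (17319 / 1000000) (251243 / 2500000) (550759 / 100000000) a b := B2_nonneg ha hb (by norm_num) (by norm_num) (by norm_num) (by norm_num) (by norm_num) (by norm_num) (by norm_num) (by norm_num) (by norm_num)
      exact sub_nonneg.1 (h.trans_eq (by unfold B2; ring))
    · have h : 0 ≤ B1 (11683 / 26000) (17677 / 26000) (4397 / 26000) (10391 / 26000) a b := B1_nonneg ha hb (by norm_num) (by norm_num) (by norm_num) (by norm_num)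
      exact sub_nonneg.1 (h.trans_eq (by unfold B1; ring))
    · have h : 0 ≤ B2 (88511999409397 / 600000000000000) (76645215462343 / 300000000000000) (161206446046717 / 600000000000000) (48470275220123 / 300000000000000) (37092054227303 / 150000000000000) (122141847765911 / 300000000000000) (33244326721057 / 600000000000000) (22354668682471 / 300000000000000) (107893025175313 / 600000000000000) a b := B2_nonneg ha hb (by norm_num) (by norm_num) (by norm_num) (by norm_num) (by norm_num) (by norm_num) (by norm_num) (by norm_num) (by norm_num)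
      exact sub_nonneg.1 (h.trans_eq (by unfold B2; ring))
  · refine ⟨5 / 13, 5 / 12, 394791 / 1000000, 13 / 12, 7919 / 10000 + 277 / 5000 * a + 2941 / 5000 * b, 1481 / 2500 + (-(107 / 1000)) * a + 2379 / 10000 * b, 679 / 1000 + 337 / 10000 * a + 2201 / 10000 * b, (23 / 20 + (3 / 2 - 23 / 20) * b) - (1 / 4 + (23 / 40 - 1 / 4) * a), trigQ_4, ?_, ?_, ?_, ?_, ?_, ?_, ?_, ?_, ?_⟩
    · have h : 0 ≤ B1 (7919 / 10000) (13801 / 10000) (8473 / 10000) (2871 / 2000) a b := B1_nonneg ha hb (by norm_num) (by norm_num) (by norm_num) (by norm_num)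
      exact sub_nonneg.1 (h.trans_eq (by unfold B1; ring))
    · have h : 0 ≤ B1 (9081 / 10000) (3199 / 10000) (8527 / 10000) (529 / 2000) a b := B1_nonneg ha hb (by norm_num) (by norm_num) (by norm_num) (by norm_num)
      exact sub_nonneg.1 (h.trans_eq (by unfold B1; ring))
    · have h : 0 ≤ B1 (1481 / 2500) (8303 / 10000) (2427 / 5000) (7233 / 10000) a b := B1_nonneg ha hb (by norm_num) (by norm_num) (by norm_num) (by norm_num)
      exact sub_nonneg.1 (h.trans_eq (by unfold B1; ring))
    · have h : 0 ≤ B1 (679 / 1000) (8991 / 10000) (7127 / 10000) (583 / 625) a b := B1_nonneg ha hb (by norm_num) (by norm_num) (by norm_num) (by norm_num)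
      exact sub_nonneg.1 (h.trans_eq (by unfold B1; ring))
    · exact le_abs_self _
    · have h : 0 ≤ B2 (52889 / 6250000) (1197007 / 12500000) (7691 / 100000000) (579351 / 12500000) (104357 / 390625) (2318151 / 50000000) (3059 / 100000000) (4784143 / 50000000) (421543 / 50000000) a b := B2_nonneg ha hb (by norm_num) (by norm_num) (by norm_num) (by norm_num) (by norm_num) (by norm_num) (by norm_num) (by norm_num) (by norm_num)
      exact sub_nonneg.1 (h.trans_eq (by unfold B2; ring))
    · have h : 0 ≤ B2 (117 / 500000) (442611 / 5000000) (921919 / 100000000) (50517 / 5000000) (9074023 / 50000000) (10343 / 781250) (873371 / 100000000) (566793 / 6250000) (9013 / 3125000) a b := B2_nonneg ha hb (by norm_num) (by norm_num) (by norm_num) (by norm_num) (by norm_num) (by norm_num) (by norm_num) (by norm_num) (by norm_num)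
      exact sub_nonneg.1 (h.trans_eq (by unfold B2; ring))
    · have h : 0 ≤ B1 (11419 / 26000) (17301 / 26000) (271 / 2000) (1881 / 5200) a b := B1_nonneg ha hb (by norm_num) (by norm_num) (by norm_num) (by norm_num)
      exact sub_nonneg.1 (h.trans_eq (by unfold B1; ring))
    · have h : 0 ≤ B4 (742197916223708861 / 48000000000000000000) (364483298032812997 / 6400000000000000000) (9170130663757286441 / 96000000000000000000) (515317763777414843 / 6400000000000000000) (847496476982904479 / 32000000000000000000) (26501553259975345137 / 320000000000000000000) (461098731271369831 / 1500000000000000000) (251557587313992297509 / 480000000000000000000) (451131492466651881 / 1000000000000000000) (48523195457917289057 / 320000000000000000000) (9398581111358636383 / 64000000000000000000) (43580297047356173307 / 80000000000000000000) (151172277777360780999 / 160000000000000000000) (66692643246253261693 / 80000000000000000000) (91754300062922996087 / 320000000000000000000) (106654482311891613133 / 960000000000000000000) (8221840082651282459 / 20000000000000000000) (13890764121455011171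 / 19200000000000000000) (13039503706763030107 / 20000000000000000000) (14623454233816322099 / 64000000000000000000) (10112155698987975193 / 320000000000000000000) (56057726353871110319 / 480000000000000000000) (49729601849749400791 / 240000000000000000000) (6045767572365329471 / 32000000000000000000) (856448071769874347 / 12800000000000000000) a b := B4_nonneg ha hb (by norm_num) (by norm_num) (by norm_num) (by norm_num) (by norm_num) (by norm_num) (by norm_num) (by norm_num) (by norm_num) (by norm_num) (by norm_num) (by norm_num) (by norm_num) (by norm_num) (by norm_num) (by norm_num) (by norm_num) (by norm_num) (by norm_num) (by norm_num) (by norm_num) (by norm_num) (by norm_num) (by norm_num) (by norm_num)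
      exact sub_nonneg.1 (h.trans_eq (by unfold B4 Q4; ring))

theorem twoc_6 {x y : ℝ} (h0 : 23 / 40 ≤ x) (h1 : x ≤ 59 / 80) (k0 : 23 / 20 ≤ y) (k1 : y ≤ 53 / 40) :
    TwoAny x y := by
  obtain ⟨a, ha, rfl⟩ := affine01 h0 h1 (by norm_num)
  obtain ⟨b, hb, rfl⟩ := affine01 k0 k1 (by norm_num)
  refine ⟨7 / 5, by norm_num, ?_, ?_⟩
  · refine ⟨5 / 13, 5 / 12, 394791 / 1000000, 13 / 12, 9237 / 10000 + 729 / 10000 * a + 2879 / 10000 * b, 1043 / 2500 + (-(919 / 10000)) * a + 1387 / 10000 * b, 77 / 100 + 429 / 10000 * a + 1061 / 10000 * b, (23 / 20 + (53 / 40 - 23 / 20) * b) - (23 / 40 + (59 / 80 - 23 / 40) * a), trigQ_4, ?_, ?_, ?_, ?_, ?_, ?_, ?_, ?_, ?_⟩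
    · have h : 0 ≤ B1 (9237 / 10000) (3029 / 2500) (4983 / 5000) (2569 / 2000) a b := B1_nonneg ha hb (by norm_num) (by norm_num) (by norm_num) (by norm_num)
      exact sub_nonneg.1 (h.trans_eq (by unfold B1; ring))
    · have h : 0 ≤ B1 (4763 / 10000) (471 / 2500) (2017 / 5000) (231 / 2000) a b := B1_nonneg ha hb (by norm_num) (by norm_num) (by norm_num) (by norm_num)
      exact sub_nonneg.1 (h.trans_eq (by unfold B1; ring))
    · have h : 0 ≤ B1 (1043 / 2500) (5559 / 10000) (3253 / 10000) (58 / 125) a b := B1_nonneg ha hb (by norm_num) (by norm_num) (by norm_num) (by norm_num)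
      exact sub_nonneg.1 (h.trans_eq (by unfold B1; ring))
    · have h : 0 ≤ B1 (77 / 100) (8761 / 10000) (8129 / 10000) (919 / 1000) a b := B1_nonneg ha hb (by norm_num) (by norm_num) (by norm_num) (by norm_num)
      exact sub_nonneg.1 (h.trans_eq (by unfold B1; ring))
    · exact le_abs_self _
    · have h : 0 ≤ B2 (573791 / 100000000) (204419 / 6250000) (7519 / 100000000) (2090093 / 100000000) (9553861 / 100000000) (104249 / 5000000) (46339 / 400000000) (1309489 / 40000000) (91639 / 16000000) a b := B2_nonneg ha hb (by norm_num) (by norm_num) (by norm_num) (by norm_num) (by norm_num) (by norm_num) (by norm_num) (by norm_num) (by norm_num)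
      exact sub_nonneg.1 (h.trans_eq (by unfold B2; ring))
    · have h : 0 ≤ B2 (7 / 40000) (24231 / 1000000) (257127 / 50000000) (449 / 62500) (2651331 / 50000000) (80157 / 10000000) (516859 / 100000000) (62787 / 2500000) (4131 / 4000000) a b := B2_nonneg ha hb (by norm_num) (by norm_num) (by norm_num) (by norm_num) (by norm_num) (by norm_num) (by norm_num) (by norm_num) (by norm_num)
      exact sub_nonneg.1 (h.trans_eq (by unfold B2; ring))
    · have h : 0 ≤ B1 (4287 / 26000) (3583 / 13000) (791 / 26000) (367 / 2600) a b := B1_nonneg ha hb (by norm_num) (by norm_num) (by norm_num) (by norm_num)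
      exact sub_nonneg.1 (h.trans_eq (by unfold B1; ring))
    · have h : 0 ≤ B2 (12920240258179 / 200000000000000) (104775772599 / 781250000000) (4229970734443 / 37500000000000) (8079464235497 / 100000000000000) (24766432761179 / 150000000000000) (2563346599273 / 15000000000000) (1195505020543 / 37500000000000) (3742196906917 / 60000000000000) (1770653916403 / 24000000000000) a b := B2_nonneg ha hb (by norm_num) (by norm_num) (by norm_num) (by norm_num) (by norm_num) (by norm_num) (by norm_num) (by norm_num) (by norm_num)
      exact sub_nonneg.1 (h.trans_eq (by unfold B2; ring))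
  · refine ⟨5 / 13, 5 / 12, 394791 / 1000000, 13 / 12, 4433 / 5000 + 31 / 1000 * a + 1419 / 5000 * b, 579 / 1250 + (-(839 / 10000)) * a + 1431 / 10000 * b, 1491 / 2000 + 191 / 10000 * a + 1083 / 10000 * b, (23 / 20 + (53 / 40 - 23 / 20) * b) - (23 / 40 + (59 / 80 - 23 / 40) * a), trigQ_4, ?_, ?_, ?_, ?_, ?_, ?_, ?_, ?_, ?_⟩
    · have h : 0 ≤ B1 (4433 / 5000) (1463 / 1250) (1147 / 1250) (6007 / 5000) a b := B1_nonneg ha hb (by norm_num) (by norm_num) (by norm_num) (by norm_num)
      exact sub_nonneg.1 (h.trans_eq (by unfold B1; ring))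
    · have h : 0 ≤ B1 (2567 / 5000) (287 / 1250) (603 / 1250) (993 / 5000) a b := B1_nonneg ha hb (by norm_num) (by norm_num) (by norm_num) (by norm_num)
      exact sub_nonneg.1 (h.trans_eq (by unfold B1; ring))
    · have h : 0 ≤ B1 (579 / 1250) (6063 / 10000) (3793 / 10000) (653 / 1250) a b := B1_nonneg ha hb (by norm_num) (by norm_num) (by norm_num) (by norm_num)
      exact sub_nonneg.1 (h.trans_eq (by unfold B1; ring))
    · have h : 0 ≤ B1 (1491 / 2000) (4269 / 5000) (3823 / 5000) (8729 / 10000) a b := B1_nonneg ha hb (by norm_num) (by norm_num) (by norm_num) (by norm_num)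
      exact sub_nonneg.1 (h.trans_eq (by unfold B1; ring))
    · exact le_abs_self _
    · have h : 0 ≤ B2 (6038951 / 100000000) (3529967 / 25000000) (5267531 / 100000000) (12672273 / 100000000) (30976571 / 100000000) (6338763 / 50000000) (21076979 / 400000000) (28257097 / 200000000) (24183671 / 400000000) a b := B2_nonneg ha hb (by norm_num) (by norm_num) (by norm_num) (by norm_num) (by norm_num) (by norm_num) (by norm_num) (by norm_num) (by norm_num)
      exact sub_nonneg.1 (h.trans_eq (by unfold B2; ring))
    · have h : 0 ≤ B2 (819 / 4000000) (55273 / 2500000) (251931 / 100000000) (14657 / 5000000) (2256257 / 50000000) (171173 / 50000000) (29523 / 12500000) (278579 / 12500000) (26967 / 50000000) a b := B2_nonneg ha hb (by norm_num) (by norm_num) (by norm_num) (by norm_num) (by norm_num) (by norm_num) (by norm_num) (by norm_num) (by norm_num)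
      exact sub_nonneg.1 (h.trans_eq (by unfold B2; ring))
    · have h : 0 ≤ B1 (979 / 6500) (3377 / 13000) (1 / 26000) (2839 / 26000) a b := B1_nonneg ha hb (by norm_num) (by norm_num) (by norm_num) (by norm_num)
      exact sub_nonneg.1 (h.trans_eq (by unfold B1; ring))
    · have h : 0 ≤ B4 (1903028341808488363 / 80000000000000000000) (4742248104131740627 / 48000000000000000000) (6650645891802439297 / 40000000000000000000) (262168313941059687 / 2000000000000000000) (298702431792055147 / 7500000000000000000) (46420272651117188231 / 480000000000000000000) (6400007232704974677 / 16000000000000000000) (107869183690499525941 / 160000000000000000000) (1603088557853720669 / 3000000000000000000) (1634720052398516277 / 10000000000000000000) (2376808952218307881 / 16000000000000000000) (19547935693734463883 / 32000000000000000000) (8232018927105360201 / 8000000000000000000) (26186678698643664947 / 32000000000000000000) (1006615097440009033 / 4000000000000000000) (16494795394752611843 / 160000000000000000000) (5049582280957116181 / 12000000000000000000) (113011513883769272269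 / 160000000000000000000) (8988512725912338447 / 16000000000000000000) (41559872590044574157 / 240000000000000000000) (205972190905857143 / 7500000000000000000) (3556132784806634869 / 32000000000000000000) (14818867732475918501 / 80000000000000000000) (14085795041691232273 / 96000000000000000000) (3612590061287552707 / 80000000000000000000) a b := B4_nonneg ha hb (by norm_num) (by norm_num) (by norm_num) (by norm_num) (by norm_num) (by norm_num) (by norm_num) (by norm_num) (by norm_num) (by norm_num) (by norm_num) (by norm_num) (by norm_num) (by norm_num) (by norm_num) (by norm_num) (by norm_num) (by norm_num) (by norm_num) (by norm_num) (by norm_num) (by norm_num) (by norm_num) (by norm_num) (by norm_num)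
      exact sub_nonneg.1 (h.trans_eq (by unfold B4 Q4; ring))

theorem twoc_7 {x y : ℝ} (h0 : 59 / 80 ≤ x) (h1 : x ≤ 9 / 10) (k0 : 23 / 20 ≤ y) (k1 : y ≤ 53 / 40) :
    TwoAny x y := by
  obtain ⟨a, ha, rfl⟩ := affine01 h0 h1 (by norm_num)
  obtain ⟨b, hb, rfl⟩ := affine01 k0 k1 (by norm_num)
  refine ⟨3 / 2, by norm_num, ?_, ?_⟩
  · refine ⟨8 / 17, 8 / 15, 489957 / 1000000, 17 / 15, 9993 / 10000 + 12 / 125 * a + 351 / 1250 * b, 1581 / 5000 + (-(1051 / 10000)) * a + 1491 / 10000 * b, 511 / 625 + 107 / 2000 * a + 241 / 2500 * b, (23 / 20 + (53 / 40 - 23 / 20) * b) - (59 / 80 + (9 / 10 - 59 / 80) * a), trigQ_5, ?_, ?_, ?_, ?_, ?_, ?_, ?_, ?_, ?_⟩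
    · have h : 0 ≤ B1 (9993 / 10000) (12801 / 10000) (10953 / 10000) (13761 / 10000) a b := B1_nonneg ha hb (by norm_num) (by norm_num) (by norm_num) (by norm_num)
      exact sub_nonneg.1 (h.trans_eq (by unfold B1; ring))
    · have h : 0 ≤ B1 (5007 / 10000) (2199 / 10000) (4047 / 10000) (1239 / 10000) a b := B1_nonneg ha hb (by norm_num) (by norm_num) (by norm_num) (by norm_num)
      exact sub_nonneg.1 (h.trans_eq (by unfold B1; ring))
    · have h : 0 ≤ B1 (1581 / 5000) (4653 / 10000) (2111 / 10000) (1801 / 5000) a b := B1_nonneg ha hb (by norm_num) (by norm_num) (by norm_num) (by norm_num)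
      exact sub_nonneg.1 (h.trans_eq (by unfold B1; ring))
    · have h : 0 ≤ B1 (511 / 625) (457 / 500) (8711 / 10000) (387 / 400) a b := B1_nonneg ha hb (by norm_num) (by norm_num) (by norm_num) (by norm_num)
      exact sub_nonneg.1 (h.trans_eq (by unfold B1; ring))
    · exact le_abs_self _
    · have h : 0 ≤ B2 (3461399 / 400000000) (7731981 / 200000000) (47739 / 400000000) (1320643 / 50000000) (11265361 / 100000000) (2646663 / 100000000) (11179 / 100000000) (120933 / 3125000) (869971 / 100000000) a b := B2_nonneg ha hb (by norm_num) (by norm_num) (by norm_num) (by norm_num) (by norm_num) (by norm_num) (by norm_num) (by norm_num) (by norm_num)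
      exact sub_nonneg.1 (h.trans_eq (by unfold B2; ring))
    · have h : 0 ≤ B2 (5131 / 25000000) (114761 / 5000000) (23191 / 4000000) (111591 / 12500000) (65779 / 1250000) (3919 / 400000) (585979 / 100000000) (47893 / 2000000) (91 / 80000) a b := B2_nonneg ha hb (by norm_num) (by norm_num) (by norm_num) (by norm_num) (by norm_num) (by norm_num) (by norm_num) (by norm_num) (by norm_num)
      exact sub_nonneg.1 (h.trans_eq (by unfold B2; ring))
    · have h : 0 ≤ B1 (34569 / 170000) (57033 / 170000) (914 / 10625) (2318 / 10625) a b := B1_nonneg ha hb (by norm_num) (by norm_num) (by norm_num) (by norm_num)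
      exact sub_nonneg.1 (h.trans_eq (by unfold B1; ring))
    · have h : 0 ≤ B2 (5781285042643 / 200000000000000) (5666565002101 / 100000000000000) (14066455972407 / 200000000000000) (245984180591 / 12500000000000) (742058917283 / 25000000000000) (2378743308813 / 25000000000000) (5821262654039 / 600000000000000) (3262889114693 / 300000000000000) (26248348607891 / 600000000000000) a b := B2_nonneg ha hb (by norm_num) (by norm_num) (by norm_num) (by norm_num) (by norm_num) (by norm_num) (by norm_num) (by norm_num) (by norm_num)
      exact sub_nonneg.1 (h.trans_eq (by unfold B2; ring))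
  · refine ⟨8 / 17, 8 / 15, 489957 / 1000000, 17 / 15, 869 / 1000 + 109 / 2500 * a + 1401 / 5000 * b, 1837 / 5000 + (-(1051 / 10000)) * a + 1627 / 10000 * b, 917 / 1250 + 271 / 10000 * a + 67 / 625 * b, (23 / 20 + (53 / 40 - 23 / 20) * b) - (59 / 80 + (9 / 10 - 59 / 80) * a), trigQ_5, ?_, ?_, ?_, ?_, ?_, ?_, ?_, ?_, ?_⟩
    · have h : 0 ≤ B1 (869 / 1000) (2873 / 2500) (4563 / 5000) (1491 / 1250) a b := B1_nonneg ha hb (by norm_num) (by norm_num) (by norm_num) (by norm_num)
      exact sub_nonneg.1 (h.trans_eq (by unfold B1; ring))
    · have h : 0 ≤ B1 (631 / 1000) (877 / 2500) (2937 / 5000) (192 / 625) a b := B1_nonneg ha hb (by norm_num) (by norm_num) (by norm_num) (by norm_num)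
      exact sub_nonneg.1 (h.trans_eq (by unfold B1; ring))
    · have h : 0 ≤ B1 (1837 / 5000) (5301 / 10000) (2623 / 10000) (17 / 40) a b := B1_nonneg ha hb (by norm_num) (by norm_num) (by norm_num) (by norm_num)
      exact sub_nonneg.1 (h.trans_eq (by unfold B1; ring))
    · have h : 0 ≤ B1 (917 / 1250) (1051 / 1250) (7607 / 10000) (8679 / 10000) a b := B1_nonneg ha hb (by norm_num) (by norm_num) (by norm_num) (by norm_num)
      exact sub_nonneg.1 (h.trans_eq (by unfold B1; ring))
    · exact le_abs_self _
    · have h : 0 ≤ B2 (5191271 / 400000000) (9452129 / 200000000) (61971 / 400000000) (1539973 / 50000000) (12987579 / 100000000) (24657 / 800000) (17371 / 100000000) (1183 / 25000) (2083 / 160000) a b := B2_nonneg ha hb (by norm_num) (by norm_num) (by norm_num) (by norm_num) (by norm_num) (by norm_num) (by norm_num) (by norm_num) (by norm_num)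
      exact sub_nonneg.1 (h.trans_eq (by unfold B2; ring))
    · have h : 0 ≤ B2 (5151 / 25000000) (567581 / 25000000) (334911 / 100000000) (53137 / 12500000) (23637 / 500000) (236343 / 50000000) (331051 / 100000000) (1155097 / 50000000) (32167 / 50000000) a b := B2_nonneg ha hb (by norm_num) (by norm_num) (by norm_num) (by norm_num) (by norm_num) (by norm_num) (by norm_num) (by norm_num) (by norm_num)
      exact sub_nonneg.1 (h.trans_eq (by unfold B2; ring))
    · have h : 0 ≤ B1 (4829 / 34000) (46561 / 170000) (1 / 21250) (2803 / 21250) a b := B1_nonneg ha hb (by norm_num) (by norm_num) (by norm_num) (by norm_num)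
      exact sub_nonneg.1 (h.trans_eq (by unfold B1; ring))
    · have h : 0 ≤ B4 (173826596476449769 / 4800000000000000000) (4709878425330491851 / 32000000000000000000) (19342249044252499781 / 80000000000000000000) (89587339675050835627 / 480000000000000000000) (4466560356974706301 / 80000000000000000000) (14118041397129406649 / 96000000000000000000) (35590790248592155487 / 60000000000000000000) (155433410974119832273 / 160000000000000000000) (36035929459434765073 / 48000000000000000000) (54097588337539182281 / 240000000000000000000) (9104633417823722357 / 40000000000000000000) (436786036392050283851 / 480000000000000000000) (118563748605642729151 / 80000000000000000000) (36586315220465263673 / 32000000000000000000) (41235668012822048939 / 120000000000000000000) (76877722937453147471 / 480000000000000000000) (152205912720949179613 / 240000000000000000000) (163905760406321424109 / 160000000000000000000) (18864347231764915633 / 24000000000000000000) (14137970740097406511 / 60000000000000000000) (5207417315392633883 / 120000000000000000000) (40851967329313970753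 / 240000000000000000000) (21763588040325399259 / 80000000000000000000) (24816042811904043167 / 120000000000000000000) (1847306775170073943 / 30000000000000000000) a b := B4_nonneg ha hb (by norm_num) (by norm_num) (by norm_num) (by norm_num) (by norm_num) (by norm_num) (by norm_num) (by norm_num) (by norm_num) (by norm_num) (by norm_num) (by norm_num) (by norm_num) (by norm_num) (by norm_num) (by norm_num) (by norm_num) (by norm_num) (by norm_num) (by norm_num) (by norm_num) (by norm_num) (by norm_num) (by norm_num) (by norm_num)
      exact sub_nonneg.1 (h.trans_eq (by unfold B4 Q4; ring))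

theorem twoc_5 {x y : ℝ} (h0 : 23 / 40 ≤ x) (h1 : x ≤ 9 / 10) (k0 : 23 / 20 ≤ y) (k1 : y ≤ 53 / 40) :
    CenXY x y ∨ TwoAny x y := by
  rcases le_total x (59 / 80) with h | h
  · exact Or.inr (twoc_6 h0 h k0 k1)
  · exact Or.inr (twoc_7 h h1 k0 k1)

theorem twoc_8 {x y : ℝ} (h0 : 23 / 40 ≤ x) (h1 : x ≤ 9 / 10) (k0 : 53 / 40 ≤ y) (k1 : y ≤ 3 / 2) :
    TwoAny x y := by
  obtain ⟨a, ha, rfl⟩ := affine01 h0 h1 (by norm_num)
  obtain ⟨b, hb, rfl⟩ := affine01 k0 k1 (by norm_num)
  refine ⟨19 / 10, by norm_num, ?_, ?_⟩
  · refine ⟨5 / 13, 5 / 12, 394791 / 1000000, 13 / 12, 12163 / 10000 + 333 / 2000 * a + 3411 / 10000 * b, 5511 / 10000 + (-(851 / 5000)) * a + 89 / 625 * b, 1763 / 2000 + 169 / 2000 * a + 553 / 5000 * b, (53 / 40 + (3 / 2 - 53 / 40) * b) - (23 / 40 + (9 / 10 - 23 / 40) * a), trigQ_4, ?_, ?_, ?_, ?_, ?_, ?_, ?_, ?_, ?_⟩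
    · have h : 0 ≤ B1 (12163 / 10000) (7787 / 5000) (3457 / 2500) (17239 / 10000) a b := B1_nonneg ha hb (by norm_num) (by norm_num) (by norm_num) (by norm_num)
      exact sub_nonneg.1 (h.trans_eq (by unfold B1; ring))
    · have h : 0 ≤ B1 (6837 / 10000) (1713 / 5000) (1293 / 2500) (1761 / 10000) a b := B1_nonneg ha hb (by norm_num) (by norm_num) (by norm_num) (by norm_num)
      exact sub_nonneg.1 (h.trans_eq (by unfold B1; ring))
    · have h : 0 ≤ B1 (5511 / 10000) (1387 / 2000) (3809 / 10000) (5233 / 10000) a b := B1_nonneg ha hb (by norm_num) (by norm_num) (by norm_num) (by norm_num)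
      exact sub_nonneg.1 (h.trans_eq (by unfold B1; ring))
    · have h : 0 ≤ B1 (1763 / 2000) (9921 / 10000) (483 / 500) (5383 / 5000) a b := B1_nonneg ha hb (by norm_num) (by norm_num) (by norm_num) (by norm_num)
      exact sub_nonneg.1 (h.trans_eq (by unfold B1; ring))
    · exact le_abs_self _
    · have h : 0 ≤ B2 (1008879 / 100000000) (380743 / 10000000) (103 / 2000000) (3276101 / 50000000) (9343647 / 50000000) (654829 / 10000000) (2947 / 50000000) (1902503 / 50000000) (1005711 / 100000000) a b := B2_nonneg ha hb (by norm_num) (by norm_num) (by norm_num) (by norm_num) (by norm_num) (by norm_num) (by norm_num) (by norm_num) (by norm_num)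
      exact sub_nonneg.1 (h.trans_eq (by unfold B2; ring))
    · have h : 0 ≤ B2 (703 / 2000000) (308777 / 10000000) (1063759 / 100000000) (36459 / 2000000) (78117 / 1000000) (502757 / 25000000) (42951 / 4000000) (82397 / 2500000) (58311 / 25000000) a b := B2_nonneg ha hb (by norm_num) (by norm_num) (by norm_num) (by norm_num) (by norm_num) (by norm_num) (by norm_num) (by norm_num) (by norm_num)
      exact sub_nonneg.1 (h.trans_eq (by unfold B2; ring))
    · have h : 0 ≤ B1 (7213 / 26000) (664 / 1625) (107 / 6500) (3839 / 26000) a b := B1_nonneg ha hb (by norm_num) (by norm_num) (by norm_num) (by norm_num)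
      exact sub_nonneg.1 (h.trans_eq (by unfold B1; ring))
    · have h : 0 ≤ B2 (65756019235237 / 600000000000000) (4555825024711 / 18750000000000) (26698589539387 / 150000000000000) (13624238612161 / 150000000000000) (67971674263417 / 300000000000000) (8435896705141 / 37500000000000) (807670479401 / 18750000000000) (16091496997733 / 150000000000000) (65284509252133 / 600000000000000) a b := B2_nonneg ha hb (by norm_num) (by norm_num) (by norm_num) (by norm_num) (by norm_num) (by norm_num) (by norm_num) (by norm_num) (by norm_num)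
      exact sub_nonneg.1 (h.trans_eq (by unfold B2; ring))
  · refine ⟨5 / 13, 5 / 12, 394791 / 1000000, 13 / 12, 12619 / 10000 + 391 / 5000 * a + 1681 / 5000 * b, 5999 / 10000 + (-(1501 / 10000)) * a + 291 / 2000 * b, 907 / 1000 + 397 / 10000 * a + 541 / 5000 * b, (53 / 40 + (3 / 2 - 53 / 40) * b) - (23 / 40 + (9 / 10 - 23 / 40) * a), trigQ_4, ?_, ?_, ?_, ?_, ?_, ?_, ?_, ?_, ?_⟩
    · have h : 0 ≤ B1 (12619 / 10000) (15981 / 10000) (13401 / 10000) (16763 / 10000) a b := B1_nonneg ha hb (by norm_num) (by norm_num) (by norm_num) (by norm_num)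
      exact sub_nonneg.1 (h.trans_eq (by unfold B1; ring))
    · have h : 0 ≤ B1 (6381 / 10000) (3019 / 10000) (5599 / 10000) (2237 / 10000) a b := B1_nonneg ha hb (by norm_num) (by norm_num) (by norm_num) (by norm_num)
      exact sub_nonneg.1 (h.trans_eq (by unfold B1; ring))
    · have h : 0 ≤ B1 (5999 / 10000) (3727 / 5000) (2249 / 5000) (5953 / 10000) a b := B1_nonneg ha hb (by norm_num) (by norm_num) (by norm_num) (by norm_num)
      exact sub_nonneg.1 (h.trans_eq (by unfold B1; ring))
    · have h : 0 ≤ B1 (907 / 1000) (1269 / 1250) (9467 / 10000) (10549 / 10000) a b := B1_nonneg ha hb (by norm_num) (by norm_num) (by norm_num) (by norm_num)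
      exact sub_nonneg.1 (h.trans_eq (by unfold B1; ring))
    · exact le_abs_self _
    · have h : 0 ≤ B2 (15189499 / 100000000) (498897 / 1562500) (13857259 / 100000000) (4243187 / 12500000) (2301671 / 3125000) (8485669 / 25000000) (13862371 / 100000000) (7984203 / 25000000) (15191791 / 100000000) a b := B2_nonneg ha hb (by norm_num) (by norm_num) (by norm_num) (by norm_num) (by norm_num) (by norm_num) (by norm_num) (by norm_num) (by norm_num)
      exact sub_nonneg.1 (h.trans_eq (by unfold B2; ring))
    · have h : 0 ≤ B2 (1379 / 4000000) (61693 / 2500000) (1941 / 390625) (68737 / 10000000) (1328293 / 25000000) (47069 / 6250000) (247643 / 50000000) (1265117 / 50000000) (98599 / 100000000) a b := B2_nonneg ha hb (by norm_num) (by norm_num) (by norm_num) (by norm_num) (by norm_num) (by norm_num) (by norm_num) (by norm_num) (by norm_num)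
      exact sub_nonneg.1 (h.trans_eq (by unfold B2; ring))
    · have h : 0 ≤ B1 (7669 / 26000) (11031 / 26000) (1 / 26000) (3363 / 26000) a b := B1_nonneg ha hb (by norm_num) (by norm_num) (by norm_num) (by norm_num)
      exact sub_nonneg.1 (h.trans_eq (by unfold B1; ring))
    · have h : 0 ≤ B4 (9144259092423530743 / 480000000000000000000) (1100531932484967053 / 12800000000000000000) (149761036152891091153 / 960000000000000000000) (1664725978386894547 / 12800000000000000000) (13114929659217155787 / 320000000000000000000) (71229261580890821851 / 960000000000000000000) (5106416587759131313 / 15000000000000000000) (20275649135821033091 / 32000000000000000000) (10837832545727688741 / 20000000000000000000) (55842629385330549673 / 320000000000000000000) (35198533382321150719 / 320000000000000000000) (81681816134972121339 / 160000000000000000000) (77591958580104197293 / 80000000000000000000) (135517440823106976293 / 160000000000000000000) (88832146213420255373 / 320000000000000000000) (77570868367538101349 / 960000000000000000000) (7449227267145500551 / 20000000000000000000)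 (338961504385772310659 / 480000000000000000000) (3086628734979930039 / 5000000000000000000) (64900582933349290423 / 320000000000000000000) (24916011616618409557 / 960000000000000000000) (111742778693363173471 / 960000000000000000000) (68442647910678051793 / 320000000000000000000) (58296528664472226091 / 320000000000000000000) (2349517055755303617 / 40000000000000000000) a b := B4_nonneg ha hb (by norm_num) (by norm_num) (by norm_num) (by norm_num) (by norm_num) (by norm_num) (by norm_num) (by norm_num) (by norm_num) (by norm_num) (by norm_num) (by norm_num) (by norm_num) (by norm_num) (by norm_num) (by norm_num) (by norm_num) (by norm_num) (by norm_num) (by norm_num) (by norm_num) (by norm_num) (by norm_num) (by norm_num) (by norm_num)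
      exact sub_nonneg.1 (h.trans_eq (by unfold B4 Q4; ring))

theorem twoc_4 {x y : ℝ} (h0 : 23 / 40 ≤ x) (h1 : x ≤ 9 / 10) (k0 : 23 / 20 ≤ y) (k1 : y ≤ 3 / 2) :
    CenXY x y ∨ TwoAny x y := by
  rcases le_total y (53 / 40) with h | h
  · exact twoc_5 h0 h1 k0 h
  · exact Or.inr (twoc_8 h0 h1 h k1)

theorem twoc_2 {x y : ℝ} (h0 : 1 / 4 ≤ x) (h1 : x ≤ 9 / 10) (k0 : 23 / 20 ≤ y) (k1 : y ≤ 3 / 2) :
    CenXY x y ∨ TwoAny x y := by
  rcases le_total x (23 / 40) with h | h
  · exact Or.inr (twoc_3 h0 h k0 k1)
  · exact twoc_4 h h1 k0 k1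

theorem twoc_9 {x y : ℝ} (h0 : 1 / 4 ≤ x) (h1 : x ≤ 9 / 10) (k0 : 3 / 2 ≤ y) (k1 : y ≤ 37 / 20) :
    TwoAny x y := by
  obtain ⟨a, ha, rfl⟩ := affine01 h0 h1 (by norm_num)
  obtain ⟨b, hb, rfl⟩ := affine01 k0 k1 (by norm_num)
  refine ⟨14 / 5, by norm_num, ?_, ?_⟩
  · refine ⟨5 / 13, 5 / 12, 394791 / 1000000, 13 / 12, 557 / 400 + 931 / 2500 * a + 7941 / 10000 * b, 7917 / 10000 + (-(223 / 1000)) * a + 311 / 1250 * b, 9109 / 10000 + 827 / 5000 * a + 2237 / 10000 * b, (3 / 2 + (37 / 20 - 3 / 2) * b) - (1 / 4 + (9 / 10 - 1 / 4) * a), trigQ_4, ?_, ?_, ?_, ?_, ?_, ?_, ?_, ?_, ?_⟩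
    · have h : 0 ≤ B1 (557 / 400) (10933 / 5000) (17649 / 10000) (2559 / 1000) a b := B1_nonneg ha hb (by norm_num) (by norm_num) (by norm_num) (by norm_num)
      exact sub_nonneg.1 (h.trans_eq (by unfold B1; ring))
    · have h : 0 ≤ B1 (563 / 400) (3067 / 5000) (10351 / 10000) (241 / 1000) a b := B1_nonneg ha hb (by norm_num) (by norm_num) (by norm_num) (by norm_num)
      exact sub_nonneg.1 (h.trans_eq (by unfold B1; ring))
    · have h : 0 ≤ B1 (7917 / 10000) (2081 / 2000) (5687 / 10000) (327 / 400) a b := B1_nonneg ha hb (by norm_num) (by norm_num) (by norm_num) (by norm_num)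
      exact sub_nonneg.1 (h.trans_eq (by unfold B1; ring))
    · have h : 0 ≤ B1 (9109 / 10000) (5673 / 5000) (10763 / 10000) (13 / 10) a b := B1_nonneg ha hb (by norm_num) (by norm_num) (by norm_num) (by norm_num)
      exact sub_nonneg.1 (h.trans_eq (by unfold B1; ring))
    · exact le_abs_self _
    · have h : 0 ≤ B2 (8611 / 100000000) (940723 / 10000000) (5839 / 4000000) (7846021 / 50000000) (2494279 / 5000000) (62753 / 400000) (148031 / 100000000) (188151 / 2000000) (11 / 160000) a b := B2_nonneg ha hb (by norm_num) (by norm_num) (by norm_num) (by norm_num) (by norm_num) (by norm_num) (by norm_num) (by norm_num) (by norm_num)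
      exact sub_nonneg.1 (h.trans_eq (by unfold B2; ring))
    · have h : 0 ≤ B2 (26119 / 100000000) (3114643 / 25000000) (545723 / 12500000) (3579833 / 50000000) (7933001 / 25000000) (8439 / 100000) (4397831 / 100000000) (6901 / 50000) (107 / 8000) a b := B2_nonneg ha hb (by norm_num) (by norm_num) (by norm_num) (by norm_num) (by norm_num) (by norm_num) (by norm_num) (by norm_num) (by norm_num)
      exact sub_nonneg.1 (h.trans_eq (by unfold B2; ring))
    · have h : 0 ≤ B1 (697 / 1040) (12683 / 13000) (4249 / 26000) (1219 / 2600) a b := B1_nonneg ha hb (by norm_num) (by norm_num) (by norm_num) (by norm_num)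
      exact sub_nonneg.1 (h.trans_eq (by unfold B1; ring))
    · have h : 0 ≤ B2 (271898939557 / 960000000000) (3313413478973 / 6000000000000) (65243201997397 / 150000000000000) (2187232079269 / 12000000000000) (31972062467483 / 75000000000000) (8638787260181 / 15000000000000) (50062352853973 / 600000000000000) (7285516203493 / 30000000000000) (1952162685313 / 6000000000000) a b := B2_nonneg ha hb (by norm_num) (by norm_num) (by norm_num) (by norm_num) (by norm_num) (by norm_num) (by norm_num) (by norm_num) (by norm_num)
      exact sub_nonneg.1 (h.trans_eq (by unfold B2; ring))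
  · refine ⟨5 / 13, 5 / 12, 394791 / 1000000, 13 / 12, 13613 / 10000 + 281 / 1250 * a + 3897 / 5000 * b, 407 / 500 + (-(169 / 1000)) * a + 2493 / 10000 * b, 1117 / 1250 + 261 / 2500 * a + 569 / 2500 * b, (3 / 2 + (37 / 20 - 3 / 2) * b) - (1 / 4 + (9 / 10 - 1 / 4) * a), trigQ_4, ?_, ?_, ?_, ?_, ?_, ?_, ?_, ?_, ?_⟩
    · have h : 0 ≤ B1 (13613 / 10000) (21407 / 10000) (15861 / 10000) (4731 / 2000) a b := B1_nonneg ha hb (by norm_num) (by norm_num) (by norm_num) (by norm_num)
      exact sub_nonneg.1 (h.trans_eq (by unfold B1; ring))
    · have h : 0 ≤ B1 (14387 / 10000) (6593 / 10000) (12139 / 10000) (869 / 2000) a b := B1_nonneg ha hb (by norm_num) (by norm_num) (by norm_num) (by norm_num)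
      exact sub_nonneg.1 (h.trans_eq (by unfold B1; ring))
    · have h : 0 ≤ B1 (407 / 500) (10633 / 10000) (129 / 200) (8943 / 10000) a b := B1_nonneg ha hb (by norm_num) (by norm_num) (by norm_num) (by norm_num)
      exact sub_nonneg.1 (h.trans_eq (by unfold B1; ring))
    · have h : 0 ≤ B1 (1117 / 1250) (2803 / 2500) (499 / 500) (766 / 625) a b := B1_nonneg ha hb (by norm_num) (by norm_num) (by norm_num) (by norm_num)
      exact sub_nonneg.1 (h.trans_eq (by unfold B1; ring))
    · exact le_abs_self _
    · have h : 0 ≤ B2 (8079 / 1000000) (252369 / 2500000) (9311 / 100000000) (7117 / 50000) (2351363 / 5000000) (7119081 / 50000000) (3 / 40000) (100953 / 1000000) (810251 / 100000000) a b := B2_nonneg ha hb (by norm_num) (by norm_num) (by norm_num) (by norm_num) (by norm_num) (by norm_num) (by norm_num) (by norm_num) (by norm_num)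
      exact sub_nonneg.1 (h.trans_eq (by unfold B2; ring))
    · have h : 0 ≤ B2 (109 / 390625) (691821 / 6250000) (699639 / 25000000) (12117 / 312500) (195541 / 781250) (583307 / 12500000) (6899 / 250000) (147253 / 1250000) (194491 / 25000000) a b := B2_nonneg ha hb (by norm_num) (by norm_num) (by norm_num) (by norm_num) (by norm_num) (by norm_num) (by norm_num) (by norm_num) (by norm_num)
      exact sub_nonneg.1 (h.trans_eq (by unfold B2; ring))
    · have h : 0 ≤ B1 (17113 / 26000) (24907 / 26000) (2461 / 26000) (2051 / 5200) a b := B1_nonneg ha hb (by norm_num) (by norm_num) (by norm_num) (by norm_num)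
      exact sub_nonneg.1 (h.trans_eq (by unfold B1; ring))
    · have h : 0 ≤ B4 (2323558942279627253 / 96000000000000000000) (597992903628258037 / 6400000000000000000) (4839259724227168473 / 32000000000000000000) (2253753789391198609 / 19200000000000000000) (70777591383723561 / 2000000000000000000) (28138973966459677893 / 160000000000000000000) (16829502139320021829 / 24000000000000000000) (93777601284660589237 / 80000000000000000000) (7503364742819393217 / 8000000000000000000) (139709397748221460499 / 480000000000000000000) (2061138045533168013 / 6400000000000000000) (106457586988600309891 / 80000000000000000000) (23342331513486657027 / 10000000000000000000) (156404723005374407709 / 80000000000000000000) (100718864633833722443 / 160000000000000000000) (119417838496971126997 / 480000000000000000000) (42935471722553478679 / 40000000000000000000) (6302552644944676419 / 3200000000000000000) (204933318843570974611 / 120000000000000000000) (18010546720416870183 / 32000000000000000000) (3135967689163701953 / 40000000000000000000) (168220713753320968607 / 480000000000000000000)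 (105009231979632644627 / 160000000000000000000) (18344198478428071999 / 32000000000000000000) (3628975308835187651 / 19200000000000000000) a b := B4_nonneg ha hb (by norm_num) (by norm_num) (by norm_num) (by norm_num) (by norm_num) (by norm_num) (by norm_num) (by norm_num) (by norm_num) (by norm_num) (by norm_num) (by norm_num) (by norm_num) (by norm_num) (by norm_num) (by norm_num) (by norm_num) (by norm_num) (by norm_num) (by norm_num) (by norm_num) (by norm_num) (by norm_num) (by norm_num) (by norm_num)
      exact sub_nonneg.1 (h.trans_eq (by unfold B4 Q4; ring))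

theorem twoc_1 {x y : ℝ} (h0 : 1 / 4 ≤ x) (h1 : x ≤ 9 / 10) (k0 : 23 / 20 ≤ y) (k1 : y ≤ 37 / 20) :
    CenXY x y ∨ TwoAny x y := by
  rcases le_total y (3 / 2) with h | h
  · exact twoc_2 h0 h1 k0 h
  · exact Or.inr (twoc_9 h0 h1 h k1)

theorem twoc_top {x y : ℝ} (h0 : 1 / 4 ≤ x) (h1 : x ≤ 9 / 10) (k0 : 23 / 20 ≤ y) (k1 : y ≤ 37 / 20) :
    CenXY x y ∨ TwoAny x y :=
  twoc_1 h0 h1 k0 k1

end Pool.Agent.Helper98.LC3
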