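import Pool.Agent.Helper98.LC3.S.CertDef

/-!
# LC3: certificates (generated)
-/

namespace Pool.Agent.Helper98.LC3

open Real

set_option maxRecDepth 8000

theorem twod_7 {x y : ℝ} (h0 : 9 / 10 ≤ x) (h1 : x ≤ 157 / 160) (k0 : 23 / 20 ≤ y) (k1 : y ≤ 99 / 80) :
    TwoAny x y := by
  obtain ⟨a, ha, rfl⟩ := affine01 h0 h1 (by norm_num)
  obtain ⟨b, hb, rfl⟩ := affine01 k0 k1 (by norm_num)
  refine ⟨7 / 5, by norm_num, ?_, ?_⟩
  · refine ⟨8 / 17, 8 / 15, 489957 / 1000000, 17 / 15, 10959 / 10000 + 121 / 2000 * a + 637 / 5000 * b, 2051 / 10000 + (-(153 / 2500)) * a + 159 / 2000 * b, 4373 / 5000 + 331 / 10000 * a + 103 / 2500 * b, (23 / 20 + (99 / 80 - 23 / 20) * b) - (9 / 10 + (157 / 160 - 9 / 10) * a), trigQ_5, ?_, ?_, ?_, ?_, ?_, ?_, ?_, ?_, ?_⟩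
    · have h : 0 ≤ B1 (10959 / 10000) (12233 / 10000) (2891 / 2500) (6419 / 5000) a b := B1_nonneg ha hb (by norm_num) (by norm_num) (by norm_num) (by norm_num)
      exact sub_nonneg.1 (h.trans_eq (by unfold B1; ring))
    · have h : 0 ≤ B1 (3041 / 10000) (1767 / 10000) (609 / 2500) (581 / 5000) a b := B1_nonneg ha hb (by norm_num) (by norm_num) (by norm_num) (by norm_num)
      exact sub_nonneg.1 (h.trans_eq (by unfold B1; ring))
    · have h : 0 ≤ B1 (2051 / 10000) (1423 / 5000) (1439 / 10000) (1117 / 5000) a b := B1_nonneg ha hb (by norm_num) (by norm_num) (by norm_num) (by norm_num)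
      exact sub_nonneg.1 (h.trans_eq (by unfold B1; ring))
    · have h : 0 ≤ B1 (4373 / 5000) (4579 / 5000) (9077 / 10000) (9489 / 10000) a b := B1_nonneg ha hb (by norm_num) (by norm_num) (by norm_num) (by norm_num)
      exact sub_nonneg.1 (h.trans_eq (by unfold B1; ring))
    · exact le_abs_self _
    · have h : 0 ≤ B2 (320899 / 100000000) (575979 / 50000000) (30511 / 400000000) (874097 / 100000000) (13544501 / 400000000) (3460663 / 400000000) (217839 / 1600000000) (9240009 / 800000000) (5087279 / 1600000000) a b := B2_nonneg ha hb (by norm_num) (by norm_num) (by norm_num) (by norm_num) (by norm_num) (by norm_num) (by norm_num) (by norm_num) (by norm_num)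
      exact sub_nonneg.1 (h.trans_eq (by unfold B2; ring))
    · have h : 0 ≤ B2 (4373 / 12500000) (286007 / 50000000) (703519 / 400000000) (82529 / 25000000) (69579 / 5000000) (678327 / 200000000) (185571 / 100000000) (150111 / 25000000) (214891 / 400000000) a b := B2_nonneg ha hb (by norm_num) (by norm_num) (by norm_num) (by norm_num) (by norm_num) (by norm_num) (by norm_num) (by norm_num) (by norm_num)
      exact sub_nonneg.1 (h.trans_eq (by unfold B2; ring))
    · have h : 0 ≤ B1 (917 / 10625) (1554 / 10625) (11399 / 340000) (31783 / 340000) a b := B1_nonneg ha hb (by norm_num) (by norm_num) (by norm_num) (by norm_num)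
      exact sub_nonneg.1 (h.trans_eq (by unfold B1; ring))
    · have h : 0 ≤ B2 (6879972880151 / 600000000000000) (1405654692077 / 50000000000000) (5431059201823 / 200000000000000) (7564252590617 / 600000000000000) (9749100662159 / 300000000000000) (8181512365031 / 200000000000000) (1070741760029 / 150000000000000) (4913859839347 / 300000000000000) (5925023409637 / 300000000000000) a b := B2_nonneg ha hb (by norm_num) (by norm_num) (by norm_num) (by norm_num) (by norm_num) (by norm_num) (by norm_num) (by norm_num) (by norm_num)
      exact sub_nonneg.1 (h.trans_eq (by unfold B2; ring))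
  · refine ⟨120 / 241, 120 / 209, 130301 / 250000, 241 / 209, 9393 / 10000 + 157 / 5000 * a + 63 / 500 * b, 2489 / 10000 + (-(343 / 5000)) * a + 469 / 5000 * b, 39 / 50 + 193 / 10000 * a + 227 / 5000 * b, (23 / 20 + (99 / 80 - 23 / 20) * b) - (9 / 10 + (157 / 160 - 9 / 10) * a), trigQ_12, ?_, ?_, ?_, ?_, ?_, ?_, ?_, ?_, ?_⟩
    · have h : 0 ≤ B1 (9393 / 10000) (10653 / 10000) (9707 / 10000) (10967 / 10000) a b := B1_nonneg ha hb (by norm_num) (by norm_num) (by norm_num) (by norm_num)
      exact sub_nonneg.1 (h.trans_eq (by unfold B1; ring))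
    · have h : 0 ≤ B1 (4607 / 10000) (3347 / 10000) (4293 / 10000) (3033 / 10000) a b := B1_nonneg ha hb (by norm_num) (by norm_num) (by norm_num) (by norm_num)
      exact sub_nonneg.1 (h.trans_eq (by unfold B1; ring))
    · have h : 0 ≤ B1 (2489 / 10000) (3427 / 10000) (1803 / 10000) (2741 / 10000) a b := B1_nonneg ha hb (by norm_num) (by norm_num) (by norm_num) (by norm_num)
      exact sub_nonneg.1 (h.trans_eq (by unfold B1; ring))
    · have h : 0 ≤ B1 (39 / 50) (4127 / 5000) (7993 / 10000) (8447 / 10000) a b := B1_nonneg ha hb (by norm_num) (by norm_num) (by norm_num) (by norm_num)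
      exact sub_nonneg.1 (h.trans_eq (by unfold B1; ring))
    · exact le_abs_self _
    · have h : 0 ≤ B2 (3372379 / 100000000) (1820411 / 25000000) (11352059 / 400000000) (6840291 / 100000000) (12662407 / 80000000) (27380869 / 400000000) (45316431 / 1600000000) (58200757 / 800000000) (53945079 / 1600000000) a b := B2_nonneg ha hb (by norm_num) (by norm_num) (by norm_num) (by norm_num) (by norm_num) (by norm_num) (by norm_num) (by norm_num) (by norm_num)
      exact sub_nonneg.1 (h.trans_eq (by unfold B2; ring))
    · have h : 0 ≤ B2 (11 / 40000) (10827 / 2000000) (465311 / 400000000) (921 / 500000) (36433 / 3125000) (373223 / 200000000) (119451 / 100000000) (68751 / 12500000) (132139 / 400000000) a b := B2_nonneg ha hb (by norm_num) (by norm_num) (by norm_num) (by norm_num) (by norm_num) (by norm_num) (by norm_num) (by norm_num) (by norm_num)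
      exact sub_nonneg.1 (h.trans_eq (by unfold B2; ring))
    · have h : 0 ≤ B1 (1977 / 30125) (3867 / 30125) (11 / 964000) (251 / 4000) a b := B1_nonneg ha hb (by norm_num) (by norm_num) (by norm_num) (by norm_num)
      exact sub_nonneg.1 (h.trans_eq (by unfold B1; ring))
    · have h : 0 ≤ B4 (310284879947496917247 / 8360000000000000000000) (463087621436085003477 / 3040000000000000000000) (16042874266474581593901 / 66880000000000000000000) (2862296403310984613181 / 16720000000000000000000) (3111959978783251597341 / 66880000000000000000000) (10117544424851412718227 / 66880000000000000000000) (41349433614596769321843 / 66880000000000000000000) (64871086968433192045317 / 66880000000000000000000) (46156466539507663568013 / 66880000000000000000000) (1564658595102478515789 / 8360000000000000000000) (62459029031506795670559 / 267520000000000000000000) (63525459284923827680439 / 66880000000000000000000) (198470798787456860698557 / 133760000000000000000000) (70342073584731078182799 / 66880000000000000000000) (76069504872199106385279 / 267520000000000000000000) (491887360834936433859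 / 3040000000000000000000) (43816426567830989750907 / 66880000000000000000000) (68122182181152854012583 / 66880000000000000000000) (48073588159313081522037 / 66880000000000000000000) (12946310607622615715463 / 66880000000000000000000) (1033465478459396366367 / 24320000000000000000000) (1041133929628187392347 / 6080000000000000000000) (35429990978766068229441 / 133760000000000000000000) (12438795500845728454527 / 66880000000000000000000) (13336972686437662592457 / 267520000000000000000000) a b := B4_nonneg ha hb (by norm_num) (by norm_num) (by norm_num) (by norm_num) (by norm_num) (by norm_num) (by norm_num) (by norm_num) (by norm_num) (by norm_num) (by norm_num) (by norm_num) (by norm_num) (by norm_num) (by norm_num) (by norm_num) (by norm_num) (by norm_num) (by norm_num) (by norm_num) (by norm_num) (by norm_num) (by norm_num) (by norm_num) (by norm_num)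
      exact sub_nonneg.1 (h.trans_eq (by unfold B4 Q4; ring))

theorem twod_8 {x y : ℝ} (h0 : 157 / 160 ≤ x) (h1 : x ≤ 17 / 16) (k0 : 23 / 20 ≤ y) (k1 : y ≤ 99 / 80) :
    TwoAny x y := by
  obtain ⟨a, ha, rfl⟩ := affine01 h0 h1 (by norm_num)
  obtain ⟨b, hb, rfl⟩ := affine01 k0 k1 (by norm_num)
  refine ⟨3 / 2, by norm_num, ?_, ?_⟩
  · refine ⟨120 / 241, 120 / 209, 130301 / 250000, 241 / 209, 2319 / 2000 + 703 / 10000 * a + 1213 / 10000 * b, 57 / 400 + (-(657 / 10000)) * a + 811 / 10000 * b, 9103 / 10000 + 371 / 10000 * a + 91 / 2500 * b, (23 / 20 + (99 / 80 - 23 / 20) * b) - (157 / 160 + (17 / 16 - 157 / 160) * a), trigQ_12, ?_, ?_, ?_, ?_, ?_, ?_, ?_, ?_, ?_⟩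
    · have h : 0 ≤ B1 (2319 / 2000) (1601 / 1250) (6149 / 5000) (13511 / 10000) a b := B1_nonneg ha hb (by norm_num) (by norm_num) (by norm_num) (by norm_num)
      exact sub_nonneg.1 (h.trans_eq (by unfold B1; ring))
    · have h : 0 ≤ B1 (681 / 2000) (137 / 625) (1351 / 5000) (1489 / 10000) a b := B1_nonneg ha hb (by norm_num) (by norm_num) (by norm_num) (by norm_num)
      exact sub_nonneg.1 (h.trans_eq (by unfold B1; ring))
    · have h : 0 ≤ B1 (57 / 400) (559 / 2500) (48 / 625) (1579 / 10000) a b := B1_nonneg ha hb (by norm_num) (by norm_num) (by norm_num) (by norm_num)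
      exact sub_nonneg.1 (h.trans_eq (by unfold B1; ring))
    · have h : 0 ≤ B1 (9103 / 10000) (9467 / 10000) (4737 / 5000) (4919 / 5000) a b := B1_nonneg ha hb (by norm_num) (by norm_num) (by norm_num) (by norm_num)
      exact sub_nonneg.1 (h.trans_eq (by unfold B1; ring))
    · exact le_abs_self _
    · have h : 0 ≤ B2 (9311 / 2560000) (390993 / 32000000) (144239 / 1600000000) (155467 / 16000000) (14569541 / 400000000) (486231 / 50000000) (45079 / 400000000) (306789 / 25000000) (366759 / 100000000) a b := B2_nonneg ha hb (by norm_num) (by norm_num) (by norm_num) (by norm_num) (by norm_num) (by norm_num) (by norm_num) (by norm_num) (by norm_num)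
      exact sub_nonneg.1 (h.trans_eq (by unfold B2; ring))
    · have h : 0 ≤ B2 (22891 / 100000000) (129387 / 25000000) (683019 / 400000000) (80339 / 25000000) (329039 / 25000000) (693991 / 200000000) (20103 / 12500000) (261663 / 50000000) (154399 / 400000000) a b := B2_nonneg ha hb (by norm_num) (by norm_num) (by norm_num) (by norm_num) (by norm_num) (by norm_num) (by norm_num) (by norm_num) (by norm_num)
      exact sub_nonneg.1 (h.trans_eq (by unfold B2; ring))
    · have h : 0 ≤ B1 (18127 / 192800) (148859 / 964000) (23027 / 482000) (52139 / 482000) a b := B1_nonneg ha hb (by norm_num) (by norm_num) (by norm_num) (by norm_num)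
      exact sub_nonneg.1 (h.trans_eq (by unfold B1; ring))
    · have h : 0 ≤ B2 (10046520146771 / 1672000000000000) (136008624747969 / 8360000000000000) (106784242975813 / 5225000000000000) (6186336556833 / 1045000000000000) (64236246757783 / 3800000000000000) (1309932899534161 / 41800000000000000) (69654551992961 / 10450000000000000) (295605544665683 / 20900000000000000) (23062084534233 / 1306250000000000) a b := B2_nonneg ha hb (by norm_num) (by norm_num) (by norm_num) (by norm_num) (by norm_num) (by norm_num) (by norm_num) (by norm_num) (by norm_num)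
      exact sub_nonneg.1 (h.trans_eq (by unfold B2; ring))
  · refine ⟨33 / 65, 33 / 56, 532503 / 1000000, 65 / 56, 9757 / 10000 + 293 / 2500 * a + 83 / 2000 * b, 883 / 5000 + 229 / 5000 * a + (-(47 / 2000)) * b, 8027 / 10000 + 351 / 5000 * a + (-(4 / 625)) * b, (23 / 20 + (99 / 80 - 23 / 20) * b) - (157 / 160 + (17 / 16 - 157 / 160) * a), trigQ_10, ?_, ?_, ?_, ?_, ?_, ?_, ?_, ?_, ?_⟩
    · have h : 0 ≤ B1 (9757 / 10000) (2543 / 2500) (10929 / 10000) (709 / 625) a b := B1_nonneg ha hb (by norm_num) (by norm_num) (by norm_num) (by norm_num)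
      exact sub_nonneg.1 (h.trans_eq (by unfold B1; ring))
    · have h : 0 ≤ B1 (5243 / 10000) (1207 / 2500) (4071 / 10000) (457 / 1250) a b := B1_nonneg ha hb (by norm_num) (by norm_num) (by norm_num) (by norm_num)
      exact sub_nonneg.1 (h.trans_eq (by unfold B1; ring))
    · have h : 0 ≤ B1 (883 / 5000) (1531 / 10000) (139 / 625) (1989 / 10000) a b := B1_nonneg ha hb (by norm_num) (by norm_num) (by norm_num) (by norm_num)
      exact sub_nonneg.1 (h.trans_eq (by unfold B1; ring))
    · have h : 0 ≤ B1 (8027 / 10000) (7963 / 10000) (8729 / 10000) (1733 / 2000) a b := B1_nonneg ha hb (by norm_num) (by norm_num) (by norm_num) (by norm_num)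
      exact sub_nonneg.1 (h.trans_eq (by unfold B1; ring))
    · exact le_abs_self _
    · have h : 0 ≤ B2 (55429279 / 1600000000) (34413189 / 800000000) (9450999 / 1600000000) (40966203 / 400000000) (60924231 / 400000000) (8992489 / 200000000) (25609671 / 400000000) (10179803 / 100000000) (1765377 / 50000000) a b := B2_nonneg ha hb (by norm_num) (by norm_num) (by norm_num) (by norm_num) (by norm_num) (by norm_num) (by norm_num) (by norm_num) (by norm_num)
      exact sub_nonneg.1 (h.trans_eq (by unfold B2; ring))
    · have h : 0 ≤ B2 (74771 / 100000000) (73937 / 25000000) (101899 / 400000000) (299817 / 50000000) (49423 / 3125000) (236359 / 40000000) (32059 / 100000000) (15009 / 5000000) (11619 / 16000000) a b := B2_nonneg ha hb (by norm_num) (by norm_num) (by norm_num) (by norm_num) (by norm_num) (by norm_num) (by norm_num) (by norm_num) (by norm_num)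
      exact sub_nonneg.1 (h.trans_eq (by unfold B2; ring))
    · have h : 0 ≤ B1 (28337 / 1300000) (55727 / 1300000) (2 / 40625) (13727 / 650000) a b := B1_nonneg ha hb (by norm_num) (by norm_num) (by norm_num) (by norm_num)
      exact sub_nonneg.1 (h.trans_eq (by unfold B1; ring))
    · have h : 0 ≤ B4 (181023170801330654841 / 4480000000000000000000) (1564966351269840749483 / 8960000000000000000000) (9805870632202752297 / 35000000000000000000) (253420882102646716799 / 1280000000000000000000) (33325950181557276383 / 640000000000000000000) (280399685764597742967 / 1792000000000000000000) (307520694013305084043 / 448000000000000000000) (1997730441425961360469 / 1792000000000000000000) (20383636807061836647 / 25600000000000000000) (27057658954070699859 / 128000000000000000000) (506420647414479993849 / 2240000000000000000000) (9034967221104226503909 / 8960000000000000000000) (7436459138635680309813 / 4480000000000000000000) (1534855691491327248087 / 1280000000000000000000) (51434932046682797241 / 160000000000000000000) (1293456944780320792973 / 8960000000000000000000) (2939082474290358977501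 / 4480000000000000000000) (9820501573665729672093 / 8960000000000000000000) (128224151329088715287 / 160000000000000000000) (34727837581493491893 / 160000000000000000000) (4396092033467546039 / 128000000000000000000) (20409217949610748321 / 128000000000000000000) (17328090154859080477 / 64000000000000000000) (401091370924730609 / 2000000000000000000) (439174584100487519 / 8000000000000000000) a b := B4_nonneg ha hb (by norm_num) (by norm_num) (by norm_num) (by norm_num) (by norm_num) (by norm_num) (by norm_num) (by norm_num) (by norm_num) (by norm_num) (by norm_num) (by norm_num) (by norm_num) (by norm_num) (by norm_num) (by norm_num) (by norm_num) (by norm_num) (by norm_num) (by norm_num) (by norm_num) (by norm_num) (by norm_num) (by norm_num) (by norm_num)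
      exact sub_nonneg.1 (h.trans_eq (by unfold B4 Q4; ring))

theorem twod_6 {x y : ℝ} (h0 : 9 / 10 ≤ x) (h1 : x ≤ 17 / 16) (k0 : 23 / 20 ≤ y) (k1 : y ≤ 99 / 80) :
    CenXY x y ∨ TwoAny x y := by
  rcases le_total x (157 / 160) with h | h
  · exact Or.inr (twod_7 h0 h k0 k1)
  · exact Or.inr (twod_8 h h1 k0 k1)

theorem twod_9 {x y : ℝ} (h0 : 9 / 10 ≤ x) (h1 : x ≤ 17 / 16) (k0 : 99 / 80 ≤ y) (k1 : y ≤ 53 / 40) :
    TwoAny x y := by
  obtain ⟨a, ha, rfl⟩ := affine01 h0 h1 (by norm_num)
  obtain ⟨b, hb, rfl⟩ := affine01 k0 k1 (by norm_num)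
  refine ⟨8 / 5, by norm_num, ?_, ?_⟩
  · refine ⟨8 / 17, 8 / 15, 489957 / 1000000, 17 / 15, 1537 / 1250 + 299 / 2500 * a + 57 / 400 * b, 2843 / 10000 + (-(607 / 5000)) * a + 411 / 5000 * b, 23 / 25 + 307 / 5000 * a + 111 / 2500 * b, (99 / 80 + (53 / 40 - 99 / 80) * b) - (9 / 10 + (17 / 16 - 9 / 10) * a), trigQ_5, ?_, ?_, ?_, ?_, ?_, ?_, ?_, ?_, ?_⟩
    · have h : 0 ≤ B1 (1537 / 1250) (13721 / 10000) (3373 / 2500) (14917 / 10000) a b := B1_nonneg ha hb (by norm_num) (by norm_num) (by norm_num) (by norm_num)
      exact sub_nonneg.1 (h.trans_eq (by unfold B1; ring))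
    · have h : 0 ≤ B1 (463 / 1250) (2279 / 10000) (627 / 2500) (1083 / 10000) a b := B1_nonneg ha hb (by norm_num) (by norm_num) (by norm_num) (by norm_num)
      exact sub_nonneg.1 (h.trans_eq (by unfold B1; ring))
    · have h : 0 ≤ B1 (2843 / 10000) (733 / 2000) (1629 / 10000) (2451 / 10000) a b := B1_nonneg ha hb (by norm_num) (by norm_num) (by norm_num) (by norm_num)
      exact sub_nonneg.1 (h.trans_eq (by unfold B1; ring))
    · have h : 0 ≤ B1 (23 / 25) (2411 / 2500) (4907 / 5000) (5129 / 5000) a b := B1_nonneg ha hb (by norm_num) (by norm_num) (by norm_num) (by norm_num)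
      exact sub_nonneg.1 (h.trans_eq (by unfold B1; ring))
    · exact le_abs_self _
    · have h : 0 ≤ B2 (2618779 / 400000000) (306787 / 20000000) (243 / 2000000) (1402503 / 50000000) (14687963 / 200000000) (560959 / 20000000) (16359 / 100000000) (771071 / 50000000) (2634771 / 400000000) a b := B2_nonneg ha hb (by norm_num) (by norm_num) (by norm_num) (by norm_num) (by norm_num) (by norm_num) (by norm_num) (by norm_num) (by norm_num)
      exact sub_nonneg.1 (h.trans_eq (by unfold B2; ring))
    · have h : 0 ≤ B2 (223 / 640000) (29441 / 4000000) (312639 / 100000000) (58567 / 8000000) (1125809 / 50000000) (371223 / 50000000) (1280991 / 400000000) (761601 / 100000000) (52811 / 100000000) a b := B2_nonneg ha hb (by norm_num) (by norm_num) (by norm_num) (by norm_num) (by norm_num) (by norm_num) (by norm_num) (by norm_num) (by norm_num)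
      exact sub_nonneg.1 (h.trans_eq (by unfold B2; ring))
    · have h : 0 ≤ B1 (3171 / 21250) (2298 / 10625) (7311 / 170000) (18711 / 170000) a b := B1_nonneg ha hb (by norm_num) (by norm_num) (by norm_num) (by norm_num)
      exact sub_nonneg.1 (h.trans_eq (by unfold B1; ring))
    · have h : 0 ≤ B2 (303069153907 / 12500000000000) (6068998278237 / 100000000000000) (9483328558337 / 200000000000000) (461854878081 / 25000000000000) (5577752386823 / 100000000000000) (2962385669437 / 50000000000000) (112075730289 / 6250000000000) (2124722457849 / 50000000000000) (7106904926523 / 200000000000000) a b := B2_nonneg ha hb (by norm_num) (by norm_num) (by norm_num) (by norm_num) (by norm_num) (by norm_num) (by norm_num) (by norm_num) (by norm_num)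
      exact sub_nonneg.1 (h.trans_eq (by unfold B2; ring))
  · refine ⟨8 / 17, 8 / 15, 489957 / 1000000, 17 / 15, 5297 / 5000 + 397 / 2000 * a + 217 / 2000 * b, 1439 / 5000 + 3 / 250 * a + 583 / 10000 * b, 514 / 625 + 111 / 1000 * a + 293 / 10000 * b, (99 / 80 + (53 / 40 - 99 / 80) * b) - (9 / 10 + (17 / 16 - 9 / 10) * a), trigQ_5, ?_, ?_, ?_, ?_, ?_, ?_, ?_, ?_, ?_⟩
    · have h : 0 ≤ B1 (5297 / 5000) (11679 / 10000) (12579 / 10000) (854 / 625) a b := B1_nonneg ha hb (by norm_num) (by norm_num) (by norm_num) (by norm_num)
      exact sub_nonneg.1 (h.trans_eq (by unfold B1; ring))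
    · have h : 0 ≤ B1 (2703 / 5000) (4321 / 10000) (3421 / 10000) (146 / 625) a b := B1_nonneg ha hb (by norm_num) (by norm_num) (by norm_num) (by norm_num)
      exact sub_nonneg.1 (h.trans_eq (by unfold B1; ring))
    · have h : 0 ≤ B1 (1439 / 5000) (3461 / 10000) (1499 / 5000) (3581 / 10000) a b := B1_nonneg ha hb (by norm_num) (by norm_num) (by norm_num) (by norm_num)
      exact sub_nonneg.1 (h.trans_eq (by unfold B1; ring))
    · have h : 0 ≤ B1 (514 / 625) (8517 / 10000) (4667 / 5000) (9627 / 10000) a b := B1_nonneg ha hb (by norm_num) (by norm_num) (by norm_num) (by norm_num)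
      exact sub_nonneg.1 (h.trans_eq (by unfold B1; ring))
    · exact le_abs_self _
    · have h : 0 ≤ B2 (22837839 / 400000000) (11136609 / 100000000) (2447927 / 50000000) (17232887 / 100000000) (66669341 / 200000000) (15039193 / 100000000) (10848871 / 100000000) (20848949 / 100000000) (37875131 / 400000000) a b := B2_nonneg ha hb (by norm_num) (by norm_num) (by norm_num) (by norm_num) (by norm_num) (by norm_num) (by norm_num) (by norm_num) (by norm_num)
      exact sub_nonneg.1 (h.trans_eq (by unfold B2; ring))
    · have h : 0 ≤ B2 (82671 / 400000000) (658009 / 100000000) (180043 / 50000000) (3268111 / 200000000) (1925499 / 50000000) (51951 / 3125000) (1525151 / 400000000) (728789 / 100000000) (35123 / 50000000) a b := B2_nonneg ha hb (by norm_num) (by norm_num) (by norm_num) (by norm_num) (by norm_num) (by norm_num) (by norm_num) (by norm_num) (by norm_num)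
      exact sub_nonneg.1 (h.trans_eq (by unfold B2; ring))
    · have h : 0 ≤ B1 (1469 / 21250) (1277 / 10625) (7 / 170000) (511 / 10000) a b := B1_nonneg ha hb (by norm_num) (by norm_num) (by norm_num) (by norm_num)
      exact sub_nonneg.1 (h.trans_eq (by unfold B1; ring))
    · have h : 0 ≤ B4 (3078151839247340067 / 80000000000000000000) (155556197126340536861 / 960000000000000000000) (496790796803197647443 / 1920000000000000000000) (355712380726656114527 / 1920000000000000000000) (48079167017101689599 / 960000000000000000000) (137759792897215245377 / 960000000000000000000) (588849351839693681393 / 960000000000000000000) (636024941713405467453 / 640000000000000000000) (346248363915557564219 / 480000000000000000000) (379097748406970726549 / 1920000000000000000000) (128177675005470679233 / 640000000000000000000) (557733293696982446297 / 640000000000000000000) (114851887766652216271 / 80000000000000000000) (677071809818489627127 / 640000000000000000000) (187812326376783664023 / 640000000000000000000) (79849268256713413881 / 640000000000000000000) (265976242591477213153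 / 480000000000000000000) (1785056937908625716153 / 1920000000000000000000) (668225878521161709271 / 960000000000000000000) (187875992364733156679 / 960000000000000000000) (5665872140622253309 / 192000000000000000000) (51458279740333560557 / 384000000000000000000) (29326377323066085371 / 128000000000000000000) (33451740252242867951 / 192000000000000000000) (595340124824266679 / 12000000000000000000) a b := B4_nonneg ha hb (by norm_num) (by norm_num) (by norm_num) (by norm_num) (by norm_num) (by norm_num) (by norm_num) (by norm_num) (by norm_num) (by norm_num) (by norm_num) (by norm_num) (by norm_num) (by norm_num) (by norm_num) (by norm_num) (by norm_num) (by norm_num) (by norm_num) (by norm_num) (by norm_num) (by norm_num) (by norm_num) (by norm_num) (by norm_num)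
      exact sub_nonneg.1 (h.trans_eq (by unfold B4 Q4; ring))

theorem twod_5 {x y : ℝ} (h0 : 9 / 10 ≤ x) (h1 : x ≤ 17 / 16) (k0 : 23 / 20 ≤ y) (k1 : y ≤ 53 / 40) :
    CenXY x y ∨ TwoAny x y := by
  rcases le_total y (99 / 80) with h | h
  · exact twod_6 h0 h1 k0 h
  · exact Or.inr (twod_9 h0 h1 h k1)

theorem twod_12 {x y : ℝ} (h0 : 17 / 16 ≤ x) (h1 : x ≤ 183 / 160) (k0 : 23 / 20 ≤ y) (k1 : y ≤ 99 / 80) :
    TwoAny x y := by
  obtain ⟨a, ha, rfl⟩ := affine01 h0 h1 (by norm_num)
  obtain ⟨b, hb, rfl⟩ := affine01 k0 k1 (by norm_num)
  refine ⟨8 / 5, by norm_num, ?_, ?_⟩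
  · refine ⟨120 / 241, 120 / 209, 130301 / 250000, 241 / 209, 12337 / 10000 + 817 / 10000 * a + 57 / 500 * b, 381 / 5000 + (-(707 / 10000)) * a + 823 / 10000 * b, 4751 / 5000 + 207 / 5000 * a + 313 / 10000 * b, (23 / 20 + (99 / 80 - 23 / 20) * b) - (17 / 16 + (183 / 160 - 17 / 16) * a), trigQ_12, ?_, ?_, ?_, ?_, ?_, ?_, ?_, ?_, ?_⟩
    · have h : 0 ≤ B1 (12337 / 10000) (13477 / 10000) (6577 / 5000) (7147 / 5000) a b := B1_nonneg ha hb (by norm_num) (by norm_num) (by norm_num) (by norm_num)
      exact sub_nonneg.1 (h.trans_eq (by unfold B1; ring))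
    · have h : 0 ≤ B1 (3663 / 10000) (2523 / 10000) (1423 / 5000) (853 / 5000) a b := B1_nonneg ha hb (by norm_num) (by norm_num) (by norm_num) (by norm_num)
      exact sub_nonneg.1 (h.trans_eq (by unfold B1; ring))
    · have h : 0 ≤ B1 (381 / 5000) (317 / 2000) (11 / 2000) (439 / 5000) a b := B1_nonneg ha hb (by norm_num) (by norm_num) (by norm_num) (by norm_num)
      exact sub_nonneg.1 (h.trans_eq (by unfold B1; ring))
    · have h : 0 ≤ B1 (4751 / 5000) (1963 / 2000) (2479 / 2500) (10229 / 10000) a b := B1_nonneg ha hb (by norm_num) (by norm_num) (by norm_num) (by norm_num)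
      exact sub_nonneg.1 (h.trans_eq (by unfold B1; ring))
    · exact le_abs_self _
    · have h : 0 ≤ B2 (1641799 / 400000000) (16087 / 1250000) (311 / 4000000) (864069 / 80000000) (15602187 / 400000000) (108299 / 10000000) (3039 / 64000000) (2054097 / 160000000) (6565231 / 1600000000) a b := B2_nonneg ha hb (by norm_num) (by norm_num) (by norm_num) (by norm_num) (by norm_num) (by norm_num) (by norm_num) (by norm_num) (by norm_num)
      exact sub_nonneg.1 (h.trans_eq (by unfold B2; ring))
    · have h : 0 ≤ B2 (2437 / 12500000) (45949 / 10000000) (24099 / 16000000) (42667 / 12500000) (158063 / 12500000) (137767 / 40000000) (37611 / 25000000) (231111 / 50000000) (89611 / 400000000) a b := B2_nonneg ha hb (by norm_num) (by norm_num) (by norm_num) (by norm_num) (by norm_num) (by norm_num) (by norm_num) (by norm_num) (by norm_num)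
      exact sub_nonneg.1 (h.trans_eq (by unfold B2; ring))
    · have h : 0 ≤ B1 (23963 / 482000) (51323 / 482000) (8817 / 964000) (63537 / 964000) a b := B1_nonneg ha hb (by norm_num) (by norm_num) (by norm_num) (by norm_num)
      exact sub_nonneg.1 (h.trans_eq (by unfold B1; ring))
    · have h : 0 ≤ B2 (109406674907067 / 20900000000000000) (299009194850739 / 20900000000000000) (98939782457243 / 5225000000000000) (383352927878131 / 41800000000000000) (57596865641987 / 2612500000000000) (1362823361934861 / 41800000000000000) (242631511562063 / 20900000000000000) (241244587672643 / 10450000000000000) (446014273668523 / 20900000000000000) a b := B2_nonneg ha hb (by norm_num) (by norm_num) (by norm_num) (by norm_num) (by norm_num) (by norm_num) (by norm_num) (by norm_num) (by norm_num)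
      exact sub_nonneg.1 (h.trans_eq (by unfold B2; ring))
  · refine ⟨3 / 5, 3 / 4, 643501 / 1000000, 5 / 4, 2491 / 2500 + 7 / 125 * a + 64 / 625 * b, 947 / 10000 + (-(869 / 10000)) * a + 1033 / 10000 * b, 4079 / 5000 + 33 / 1000 * a + 37 / 1250 * b, (23 / 20 + (99 / 80 - 23 / 20) * b) - (17 / 16 + (183 / 160 - 17 / 16) * a), trigQ_6, ?_, ?_, ?_, ?_, ?_, ?_, ?_, ?_, ?_⟩
    · have h : 0 ≤ B1 (2491 / 2500) (2747 / 2500) (2631 / 2500) (2887 / 2500) a b := B1_nonneg ha hb (by norm_num) (by norm_num) (by norm_num) (by norm_num)
      exact sub_nonneg.1 (h.trans_eq (by unfold B1; ring))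
    · have h : 0 ≤ B1 (1509 / 2500) (1253 / 2500) (1369 / 2500) (1113 / 2500) a b := B1_nonneg ha hb (by norm_num) (by norm_num) (by norm_num) (by norm_num)
      exact sub_nonneg.1 (h.trans_eq (by unfold B1; ring))
    · have h : 0 ≤ B1 (947 / 10000) (99 / 500) (39 / 5000) (1111 / 10000) a b := B1_nonneg ha hb (by norm_num) (by norm_num) (by norm_num) (by norm_num)
      exact sub_nonneg.1 (h.trans_eq (by unfold B1; ring))
    · have h : 0 ≤ B1 (4079 / 5000) (4227 / 5000) (1061 / 1250) (549 / 625) a b := B1_nonneg ha hb (by norm_num) (by norm_num) (by norm_num) (by norm_num)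
      exact sub_nonneg.1 (h.trans_eq (by unfold B1; ring))
    · exact le_abs_self _
    · have h : 0 ≤ B2 (3207139 / 400000000) (413351 / 20000000) (259 / 4000000) (6919697 / 400000000) (23873169 / 400000000) (688551 / 40000000) (127031 / 1600000000) (16489097 / 800000000) (12715239 / 1600000000) a b := B2_nonneg ha hb (by norm_num) (by norm_num) (by norm_num) (by norm_num) (by norm_num) (by norm_num) (by norm_num) (by norm_num) (by norm_num)
      exact sub_nonneg.1 (h.trans_eq (by unfold B2; ring))
    · have h : 0 ≤ B2 (3067 / 12500000) (214143 / 50000000) (498911 / 400000000) (33099 / 12500000) (273163 / 25000000) (539631 / 200000000) (32839 / 25000000) (223283 / 50000000) (144751 / 400000000) a b := B2_nonneg ha hb (by norm_num) (by norm_num) (by norm_num) (by norm_num) (by norm_num) (by norm_num) (by norm_num) (by norm_num) (by norm_num)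
      exact sub_nonneg.1 (h.trans_eq (by unfold B2; ring))
    · have h : 0 ≤ B1 (6767 / 50000) (9839 / 50000) (8769 / 100000) (14913 / 100000) a b := B1_nonneg ha hb (by norm_num) (by norm_num) (by norm_num) (by norm_num)
      exact sub_nonneg.1 (h.trans_eq (by unfold B1; ring))
    · have h : 0 ≤ B4 (853102913989209341 / 16000000000000000000) (1725912860450535133 / 8000000000000000000) (5336831991445426553 / 16000000000000000000) (466271611584538289 / 2000000000000000000) (248015927035685171 / 4000000000000000000) (17671019831397360977 / 80000000000000000000) (71145364509184303547 / 80000000000000000000) (109451354635330194691 / 80000000000000000000) (76142183399333455449 / 80000000000000000000) (315080835027971927 / 1250000000000000000) (111110681334978412419 / 320000000000000000000) (222565778387786072847 / 160000000000000000000) (42576904121842921587 / 20000000000000000000) (235728958447994950089 / 160000000000000000000) (124248326387096888061 / 320000000000000000000) (78526144372825539569 / 320000000000000000000) (78274985838754866701 / 80000000000000000000) (238321977476823536891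 / 160000000000000000000) (82014652664021009157 / 80000000000000000000) (85988454684630890081 / 320000000000000000000) (10518742041826192119 / 160000000000000000000) (41756665099081564989 / 160000000000000000000) (63241133858286288047 / 160000000000000000000) (43282984751950916003 / 160000000000000000000) (5639886975460000413 / 80000000000000000000) a b := B4_nonneg ha hb (by norm_num) (by norm_num) (by norm_num) (by norm_num) (by norm_num) (by norm_num) (by norm_num) (by norm_num) (by norm_num) (by norm_num) (by norm_num) (by norm_num) (by norm_num) (by norm_num) (by norm_num) (by norm_num) (by norm_num) (by norm_num) (by norm_num) (by norm_num) (by norm_num) (by norm_num) (by norm_num) (by norm_num) (by norm_num)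
      exact sub_nonneg.1 (h.trans_eq (by unfold B4 Q4; ring))

theorem twod_13 {x y : ℝ} (h0 : 183 / 160 ≤ x) (h1 : x ≤ 49 / 40) (k0 : 23 / 20 ≤ y) (k1 : y ≤ 99 / 80) :
    TwoAny x y := by
  obtain ⟨a, ha, rfl⟩ := affine01 h0 h1 (by norm_num)
  obtain ⟨b, hb, rfl⟩ := affine01 k0 k1 (by norm_num)
  refine ⟨8 / 5, by norm_num, ?_, ?_⟩
  · refine ⟨33 / 65, 33 / 56, 532503 / 1000000, 65 / 56, 1651 / 1250 + 461 / 5000 * a + 109 / 1000 * b, 23 / 500 + (-(23 / 500)) * a + 127 / 2500 * b, 9949 / 10000 + 447 / 10000 * a + 11 / 400 * b, (23 / 20 + (99 / 80 - 23 / 20) * b) - (183 / 160 + (49 / 40 - 183 / 160) * a), trigQ_10, ?_, ?_, ?_, ?_, ?_, ?_, ?_, ?_, ?_⟩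
    · have h : 0 ≤ B1 (1651 / 1250) (7149 / 5000) (1413 / 1000) (761 / 500) a b := B1_nonneg ha hb (by norm_num) (by norm_num) (by norm_num) (by norm_num)
      exact sub_nonneg.1 (h.trans_eq (by unfold B1; ring))
    · have h : 0 ≤ B1 (349 / 1250) (851 / 5000) (187 / 1000) (39 / 500) a b := B1_nonneg ha hb (by norm_num) (by norm_num) (by norm_num) (by norm_num)
      exact sub_nonneg.1 (h.trans_eq (by unfold B1; ring))
    · have h : 0 ≤ B1 (23 / 500) (121 / 1250) (0) (127 / 2500) a b := B1_nonneg ha hb (by norm_num) (by norm_num) (by norm_num) (by norm_num)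
      exact sub_nonneg.1 (h.trans_eq (by unfold B1; ring))
    · have h : 0 ≤ B1 (9949 / 10000) (639 / 625) (2599 / 2500) (10671 / 10000) a b := B1_nonneg ha hb (by norm_num) (by norm_num) (by norm_num) (by norm_num)
      exact sub_nonneg.1 (h.trans_eq (by unfold B1; ring))
    · exact le_abs_self _
    · have h : 0 ≤ B2 (215151 / 64000000) (1711729 / 160000000) (4546991 / 1600000000) (3191 / 320000) (2320987 / 80000000) (4020423 / 400000000) (91 / 32000) (69 / 6400) (1377119 / 400000000) a b := B2_nonneg ha hb (by norm_num) (by norm_num) (by norm_num) (by norm_num) (by norm_num) (by norm_num) (by norm_num) (by norm_num) (by norm_num)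
      exact sub_nonneg.1 (h.trans_eq (by unfold B2; ring))
    · have h : 0 ≤ B2 (34899 / 100000000) (233299 / 50000000) (658671 / 400000000) (3089 / 781250) (669267 / 50000000) (818159 / 200000000) (40171 / 25000000) (236159 / 50000000) (178411 / 400000000) a b := B2_nonneg ha hb (by norm_num) (by norm_num) (by norm_num) (by norm_num) (by norm_num) (by norm_num) (by norm_num) (by norm_num) (by norm_num)
      exact sub_nonneg.1 (h.trans_eq (by unfold B2; ring))
    · have h : 0 ≤ B1 (44853 / 1300000) (116793 / 1300000) (1 / 16250) (277 / 5000) a b := B1_nonneg ha hb (by norm_num) (by norm_num) (by norm_num) (by norm_num)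
      exact sub_nonneg.1 (h.trans_eq (by unfold B1; ring))
    · have h : 0 ≤ B2 (6667475716147 / 700000000000000) (16672267309039 / 700000000000000) (3685992102923 / 175000000000000) (3093133482293 / 140000000000000) (305380041173 / 5600000000000) (804629784319 / 17500000000000) (261678853899 / 14000000000000) (601434796737 / 14000000000000) (217269739607 / 7000000000000) a b := B2_nonneg ha hb (by norm_num) (by norm_num) (by norm_num) (by norm_num) (by norm_num) (by norm_num) (by norm_num) (by norm_num) (by norm_num)
      exact sub_nonneg.1 (h.trans_eq (by unfold B2; ring))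
  · refine ⟨3 / 5, 3 / 4, 643501 / 1000000, 5 / 4, 2117 / 2000 + 7 / 100 * a + 457 / 5000 * b, 583 / 10000 + (-(291 / 5000)) * a + 651 / 10000 * b, 853 / 1000 + 99 / 2500 * a + 221 / 10000 * b, (23 / 20 + (99 / 80 - 23 / 20) * b) - (183 / 160 + (49 / 40 - 183 / 160) * a), trigQ_6, ?_, ?_, ?_, ?_, ?_, ?_, ?_, ?_, ?_⟩
    · have h : 0 ≤ B1 (2117 / 2000) (11499 / 10000) (2257 / 2000) (12199 / 10000) a b := B1_nonneg ha hb (by norm_num) (by norm_num) (by norm_num) (by norm_num)
      exact sub_nonneg.1 (h.trans_eq (by unfold B1; ring))
    · have h : 0 ≤ B1 (1083 / 2000) (4501 / 10000) (943 / 2000) (3801 / 10000) a b := B1_nonneg ha hb (by norm_num) (by norm_num) (by norm_num) (by norm_num)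
      exact sub_nonneg.1 (h.trans_eq (by unfold B1; ring))
    · have h : 0 ≤ B1 (583 / 10000) (617 / 5000) (1 / 10000) (163 / 2500) a b := B1_nonneg ha hb (by norm_num) (by norm_num) (by norm_num) (by norm_num)
      exact sub_nonneg.1 (h.trans_eq (by unfold B1; ring))
    · have h : 0 ≤ B1 (853 / 1000) (8751 / 10000) (4463 / 5000) (9147 / 10000) a b := B1_nonneg ha hb (by norm_num) (by norm_num) (by norm_num) (by norm_num)
      exact sub_nonneg.1 (h.trans_eq (by unfold B1; ring))
    · exact le_abs_self _
    · have h : 0 ≤ B2 (4546151 / 1600000000) (7324873 / 800000000) (260279 / 1600000000) (1594543 / 200000000) (453393 / 16000000) (3224081 / 400000000) (4687 / 50000000) (910571 / 100000000) (1143959 / 400000000) a b := B2_nonneg ha hb (by norm_num) (by norm_num) (by norm_num) (by norm_num) (by norm_num) (by norm_num) (by norm_num) (by norm_num) (by norm_num)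
      exact sub_nonneg.1 (h.trans_eq (by unfold B2; ring))
    · have h : 0 ≤ B2 (133 / 500000) (39169 / 10000000) (499371 / 400000000) (1859 / 625000) (274207 / 25000000) (637787 / 200000000) (14253 / 12500000) (195753 / 50000000) (148939 / 400000000) a b := B2_nonneg ha hb (by norm_num) (by norm_num) (by norm_num) (by norm_num) (by norm_num) (by norm_num) (by norm_num) (by norm_num) (by norm_num)
      exact sub_nonneg.1 (h.trans_eq (by unfold B2; ring))
    · have h : 0 ≤ B1 (1827 / 20000) (14619 / 100000) (521 / 10000) (5347 / 50000) a b := B1_nonneg ha hb (by norm_num) (by norm_num) (by norm_num) (by norm_num)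
      exact sub_nonneg.1 (h.trans_eq (by unfold B1; ring))
    · have h : 0 ≤ B4 (414288825031314991 / 6400000000000000000) (16758434892006944453 / 64000000000000000000) (128501588291161190643 / 320000000000000000000) (88478849641795053991 / 320000000000000000000) (23054994559102836063 / 320000000000000000000) (2758862569229924353 / 10240000000000000000) (3482391192526532009 / 3200000000000000000) (213274029225410575023 / 128000000000000000000) (18324416762804459087 / 16000000000000000000) (76262340925424647241 / 256000000000000000000) (10850720707372284011 / 25600000000000000000) (218814774981108533589 / 128000000000000000000) (1672199651782433054679 / 640000000000000000000) (1147182926785232602223 / 640000000000000000000) (148894566112017557607 / 320000000000000000000) (15290859657728891661 / 51200000000000000000) (76973407825977096861 / 64000000000000000000) (1174327043939487599157 / 640000000000000000000) (401975143726308802967 / 320000000000000000000) (416443152102579659249 / 1280000000000000000000) (1017355122220856369 / 12800000000000000000) (40910818587893051587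 / 128000000000000000000) (311494361701785038307 / 640000000000000000000) (212786331895973259209 / 640000000000000000000) (54978307022610660387 / 640000000000000000000) a b := B4_nonneg ha hb (by norm_num) (by norm_num) (by norm_num) (by norm_num) (by norm_num) (by norm_num) (by norm_num) (by norm_num) (by norm_num) (by norm_num) (by norm_num) (by norm_num) (by norm_num) (by norm_num) (by norm_num) (by norm_num) (by norm_num) (by norm_num) (by norm_num) (by norm_num) (by norm_num) (by norm_num) (by norm_num) (by norm_num) (by norm_num)
      exact sub_nonneg.1 (h.trans_eq (by unfold B4 Q4; ring))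

theorem twod_11 {x y : ℝ} (h0 : 17 / 16 ≤ x) (h1 : x ≤ 49 / 40) (k0 : 23 / 20 ≤ y) (k1 : y ≤ 99 / 80) :
    CenXY x y ∨ TwoAny x y := by
  rcases le_total x (183 / 160) with h | h
  · exact Or.inr (twod_12 h0 h k0 k1)
  · exact Or.inr (twod_13 h h1 k0 k1)

theorem twod_14 {x y : ℝ} (h0 : 17 / 16 ≤ x) (h1 : x ≤ 49 / 40) (k0 : 99 / 80 ≤ y) (k1 : y ≤ 53 / 40) :
    TwoAny x y := by
  obtain ⟨a, ha, rfl⟩ := affine01 h0 h1 (by norm_num)
  obtain ⟨b, hb, rfl⟩ := affine01 k0 k1 (by norm_num)
  refine ⟨9 / 5, by norm_num, ?_, ?_⟩
  · refine ⟨120 / 241, 120 / 209, 130301 / 250000, 241 / 209, 13573 / 10000 + 1591 / 10000 * a + 323 / 2500 * b, 799 / 5000 + (-(361 / 2500)) * a + 439 / 5000 * b, 987 / 1000 + 381 / 5000 * a + 7 / 200 * b, (99 / 80 + (53 / 40 - 99 / 80) * b) - (17 / 16 + (49 / 40 - 17 / 16) * a), trigQ_12, ?_, ?_, ?_, ?_, ?_, ?_, ?_, ?_, ?_⟩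
    · have h : 0 ≤ B1 (13573 / 10000) (2973 / 2000) (3791 / 2500) (2057 / 1250) a b := B1_nonneg ha hb (by norm_num) (by norm_num) (by norm_num) (by norm_num)
      exact sub_nonneg.1 (h.trans_eq (by unfold B1; ring))
    · have h : 0 ≤ B1 (4427 / 10000) (627 / 2000) (709 / 2500) (193 / 1250) a b := B1_nonneg ha hb (by norm_num) (by norm_num) (by norm_num) (by norm_num)
      exact sub_nonneg.1 (h.trans_eq (by unfold B1; ring))
    · have h : 0 ≤ B1 (799 / 5000) (619 / 2500) (77 / 5000) (129 / 1250) a b := B1_nonneg ha hb (by norm_num) (by norm_num) (by norm_num) (by norm_num)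
      exact sub_nonneg.1 (h.trans_eq (by unfold B1; ring))
    · have h : 0 ≤ B1 (987 / 1000) (511 / 500) (1329 / 1250) (5491 / 5000) a b := B1_nonneg ha hb (by norm_num) (by norm_num) (by norm_num) (by norm_num)
      exact sub_nonneg.1 (h.trans_eq (by unfold B1; ring))
    · exact le_abs_self _
    · have h : 0 ≤ B2 (231599 / 25000000) (476051 / 25000000) (62071 / 400000000) (922579 / 25000000) (3723273 / 40000000) (1846643 / 50000000) (74511 / 400000000) (956697 / 50000000) (233119 / 25000000) a b := B2_nonneg ha hb (by norm_num) (by norm_num) (by norm_num) (by norm_num) (by norm_num) (by norm_num) (by norm_num) (by norm_num) (by norm_num)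
      exact sub_nonneg.1 (h.trans_eq (by unfold B2; ring))
    · have h : 0 ≤ B2 (4471 / 16000000) (26113 / 4000000) (12439 / 4000000) (369603 / 40000000) (250849 / 10000000) (95667 / 10000000) (1261679 / 400000000) (694377 / 100000000) (65051 / 100000000) a b := B2_nonneg ha hb (by norm_num) (by norm_num) (by norm_num) (by norm_num) (by norm_num) (by norm_num) (by norm_num) (by norm_num) (by norm_num)
      exact sub_nonneg.1 (h.trans_eq (by unfold B2; ring))
    · have h : 0 ≤ B1 (53627 / 482000) (16927 / 96400) (6743 / 241000) (22247 / 241000) a b := B1_nonneg ha hb (by norm_num) (by norm_num) (by norm_num) (by norm_num)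
      exact sub_nonneg.1 (h.trans_eq (by unfold B1; ring))
    · have h : 0 ≤ B2 (76347901498843 / 5225000000000000) (170975843920969 / 4180000000000000) (30846799200597 / 836000000000000) (29885444324097 / 1900000000000000) (972261410481003 / 20900000000000000) (27172156393171 / 522500000000000) (15157967442487 / 475000000000000) (15961213212223 / 237500000000000) (7494676262591 / 163281250000000) a b := B2_nonneg ha hb (by norm_num) (by norm_num) (by norm_num) (by norm_num) (by norm_num) (by norm_num) (by norm_num) (by norm_num) (by norm_num)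
      exact sub_nonneg.1 (h.trans_eq (by unfold B2; ring))
  · refine ⟨28 / 53, 28 / 45, 556599 / 1000000, 53 / 45, 113 / 100 + 1889 / 10000 * a + 187 / 2000 * b, 361 / 2500 + (-(1 / 625)) * a + 51 / 1000 * b, 4321 / 5000 + 51 / 500 * a + 101 / 5000 * b, (99 / 80 + (53 / 40 - 99 / 80) * b) - (17 / 16 + (49 / 40 - 17 / 16) * a), trigQ_11, ?_, ?_, ?_, ?_, ?_, ?_, ?_, ?_, ?_⟩
    · have h : 0 ≤ B1 (113 / 100) (2447 / 2000) (13189 / 10000) (3531 / 2500) a b := B1_nonneg ha hb (by norm_num) (by norm_num) (by norm_num) (by norm_num)
      exact sub_nonneg.1 (h.trans_eq (by unfold B1; ring))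
    · have h : 0 ≤ B1 (67 / 100) (1153 / 2000) (4811 / 10000) (969 / 2500) a b := B1_nonneg ha hb (by norm_num) (by norm_num) (by norm_num) (by norm_num)
      exact sub_nonneg.1 (h.trans_eq (by unfold B1; ring))
    · have h : 0 ≤ B1 (361 / 2500) (977 / 5000) (357 / 2500) (969 / 5000) a b := B1_nonneg ha hb (by norm_num) (by norm_num) (by norm_num) (by norm_num)
      exact sub_nonneg.1 (h.trans_eq (by unfold B1; ring))
    · have h : 0 ≤ B1 (4321 / 5000) (2211 / 2500) (4831 / 5000) (1233 / 1250) a b := B1_nonneg ha hb (by norm_num) (by norm_num) (by norm_num) (by norm_num)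
      exact sub_nonneg.1 (h.trans_eq (by unfold B1; ring))
    · exact le_abs_self _
    · have h : 0 ≤ B2 (4961739 / 100000000) (9597473 / 100000000) (16736911 / 400000000) (14194061 / 100000000) (54651739 / 200000000) (3057199 / 25000000) (34287639 / 400000000) (4101893 / 25000000) (1846039 / 25000000) a b := B2_nonneg ha hb (by norm_num) (by norm_num) (by norm_num) (by norm_num) (by norm_num) (by norm_num) (by norm_num) (by norm_num) (by norm_num)
      exact sub_nonneg.1 (h.trans_eq (by unfold B2; ring))
    · have h : 0 ≤ B2 (122719 / 400000000) (505929 / 100000000) (243039 / 100000000) (2643359 / 200000000) (1560209 / 50000000) (667159 / 50000000) (1002399 / 400000000) (533689 / 100000000) (50879 / 100000000) a b := B2_nonneg ha hb (by norm_num) (by norm_num) (by norm_num) (by norm_num) (by norm_num) (by norm_num) (by norm_num) (by norm_num) (by norm_num)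
      exact sub_nonneg.1 (h.trans_eq (by unfold B2; ring))
    · have h : 0 ≤ B1 (1331 / 21200) (11891 / 106000) (21 / 265000) (13111 / 265000) a b := B1_nonneg ha hb (by norm_num) (by norm_num) (by norm_num) (by norm_num)
      exact sub_nonneg.1 (h.trans_eq (by unfold B1; ring))
    · have h : 0 ≤ B4 (349624641066127 / 7200000000000000) (232821426454271893 / 1152000000000000000) (814874139980030809 / 2560000000000000000) (10346620850803826519 / 46080000000000000000) (2754145686510934877 / 46080000000000000000) (126221437198499499 / 640000000000000000) (47626320198463750607 / 57600000000000000000) (302094501676384372717 / 230400000000000000000) (21441867403189288381 / 23040000000000000000) (57389735757903693881 / 230400000000000000000) (175721162145072056689 / 576000000000000000000) (1483527858395554035649 / 1152000000000000000000) (394495274964898507579 / 192000000000000000000) (1689028847764070440763 / 1152000000000000000000) (11353568302002232939 / 28800000000000000000) (410154194854446590249 / 1920000000000000000000) (2612344115970483937129 / 2880000000000000000000)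 (2792603966548010680589 / 1920000000000000000000) (93798055142027597207 / 90000000000000000000) (101218079801460142687 / 360000000000000000000) (36616020560690343873 / 640000000000000000000) (468524609179404430571 / 1920000000000000000000) (282731172206452101509 / 720000000000000000000) (101566908419766112363 / 360000000000000000000) (1143882290512086413 / 15000000000000000000) a b := B4_nonneg ha hb (by norm_num) (by norm_num) (by norm_num) (by norm_num) (by norm_num) (by norm_num) (by norm_num) (by norm_num) (by norm_num) (by norm_num) (by norm_num) (by norm_num) (by norm_num) (by norm_num) (by norm_num) (by norm_num) (by norm_num) (by norm_num) (by norm_num) (by norm_num) (by norm_num) (by norm_num) (by norm_num) (by norm_num) (by norm_num)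
      exact sub_nonneg.1 (h.trans_eq (by unfold B4 Q4; ring))

theorem twod_10 {x y : ℝ} (h0 : 17 / 16 ≤ x) (h1 : x ≤ 49 / 40) (k0 : 23 / 20 ≤ y) (k1 : y ≤ 53 / 40) :
    CenXY x y ∨ TwoAny x y := by
  rcases le_total y (99 / 80) with h | h
  · exact twod_11 h0 h1 k0 h
  · exact Or.inr (twod_14 h0 h1 h k1)

theorem twod_4 {x y : ℝ} (h0 : 9 / 10 ≤ x) (h1 : x ≤ 49 / 40) (k0 : 23 / 20 ≤ y) (k1 : y ≤ 53 / 40) :
    CenXY x y ∨ TwoAny x y := by
  rcases le_total x (17 / 16) with h | h
  · exact twod_5 h0 h k0 k1
  · exact twod_10 h h1 k0 k1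

theorem twod_16 {x y : ℝ} (h0 : 9 / 10 ≤ x) (h1 : x ≤ 17 / 16) (k0 : 53 / 40 ≤ y) (k1 : y ≤ 3 / 2) :
    TwoAny x y := by
  obtain ⟨a, ha, rfl⟩ := affine01 h0 h1 (by norm_num)
  obtain ⟨b, hb, rfl⟩ := affine01 k0 k1 (by norm_num)
  refine ⟨2, by norm_num, ?_, ?_⟩
  · refine ⟨8 / 17, 8 / 15, 489957 / 1000000, 17 / 15, 6891 / 5000 + 277 / 2500 * a + 839 / 2500 * b, 721 / 2000 + (-(1079 / 10000)) * a + 813 / 5000 * b, 969 / 1000 + 33 / 625 * a + 253 / 2500 * b, (53 / 40 + (3 / 2 - 53 / 40) * b) - (9 / 10 + (17 / 16 - 9 / 10) * a), trigQ_5, ?_, ?_, ?_, ?_, ?_, ?_, ?_, ?_, ?_⟩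
    · have h : 0 ≤ B1 (6891 / 5000) (8569 / 5000) (1489 / 1000) (9123 / 5000) a b := B1_nonneg ha hb (by norm_num) (by norm_num) (by norm_num) (by norm_num)
      exact sub_nonneg.1 (h.trans_eq (by unfold B1; ring))
    · have h : 0 ≤ B1 (3109 / 5000) (1431 / 5000) (511 / 1000) (877 / 5000) a b := B1_nonneg ha hb (by norm_num) (by norm_num) (by norm_num) (by norm_num)
      exact sub_nonneg.1 (h.trans_eq (by unfold B1; ring))
    · have h : 0 ≤ B1 (721 / 2000) (5231 / 10000) (1263 / 5000) (519 / 1250) a b := B1_nonneg ha hb (by norm_num) (by norm_num) (by norm_num) (by norm_num)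
      exact sub_nonneg.1 (h.trans_eq (by unfold B1; ring))
    · have h : 0 ≤ B1 (969 / 1000) (5351 / 5000) (5109 / 5000) (1123 / 1000) a b := B1_nonneg ha hb (by norm_num) (by norm_num) (by norm_num) (by norm_num)
      exact sub_nonneg.1 (h.trans_eq (by unfold B1; ring))
    · exact le_abs_self _
    · have h : 0 ≤ B2 (21167 / 2000000) (448449 / 10000000) (16639 / 100000000) (579633 / 20000000) (12618943 / 100000000) (181361 / 6250000) (61671 / 400000000) (8971317 / 200000000) (4242959 / 400000000) a b := B2_nonneg ha hb (by norm_num) (by norm_num) (by norm_num) (by norm_num) (by norm_num) (by norm_num) (by norm_num) (by norm_num) (by norm_num)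
      exact sub_nonneg.1 (h.trans_eq (by unfold B2; ring))
    · have h : 0 ≤ B2 (1331 / 4000000) (30253 / 1250000) (149299 / 25000000) (91391 / 10000000) (170829 / 3125000) (24327 / 2500000) (601851 / 100000000) (31109 / 1250000) (971 / 1000000) a b := B2_nonneg ha hb (by norm_num) (by norm_num) (by norm_num) (by norm_num) (by norm_num) (by norm_num) (by norm_num) (by norm_num) (by norm_num)
      exact sub_nonneg.1 (h.trans_eq (by unfold B2; ring))
    · have h : 0 ≤ B1 (4657 / 21250) (8013 / 21250) (3699 / 34000) (45343 / 170000) a b := B1_nonneg ha hb (by norm_num) (by norm_num) (by norm_num) (by norm_num)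
      exact sub_nonneg.1 (h.trans_eq (by unfold B1; ring))
    · have h : 0 ≤ B2 (6477718113101 / 150000000000000) (1318913909139 / 12500000000000) (5381450655277 / 50000000000000) (578678495961 / 10000000000000) (2787227513077 / 18750000000000) (9069283001243 / 50000000000000) (17701625993 / 500000000000) (105724251151 / 1250000000000) (3542881377371 / 37500000000000) a b := B2_nonneg ha hb (by norm_num) (by norm_num) (by norm_num) (by norm_num) (by norm_num) (by norm_num) (by norm_num) (by norm_num) (by norm_num)
      exact sub_nonneg.1 (h.trans_eq (by unfold B2; ring))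
  · refine ⟨8 / 17, 8 / 15, 489957 / 1000000, 17 / 15, 12067 / 10000 + 513 / 10000 * a + 3389 / 10000 * b, 4253 / 10000 + (-(211 / 2000)) * a + 71 / 400 * b, 8761 / 10000 + 27 / 1000 * a + 71 / 625 * b, (53 / 40 + (3 / 2 - 53 / 40) * b) - (9 / 10 + (17 / 16 - 9 / 10) * a), trigQ_5, ?_, ?_, ?_, ?_, ?_, ?_, ?_, ?_, ?_⟩
    · have h : 0 ≤ B1 (12067 / 10000) (966 / 625) (629 / 500) (15969 / 10000) a b := B1_nonneg ha hb (by norm_num) (by norm_num) (by norm_num) (by norm_num)
      exact sub_nonneg.1 (h.trans_eq (by unfold B1; ring))
    · have h : 0 ≤ B1 (7933 / 10000) (284 / 625) (371 / 500) (4031 / 10000) a b := B1_nonneg ha hb (by norm_num) (by norm_num) (by norm_num) (by norm_num)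
      exact sub_nonneg.1 (h.trans_eq (by unfold B1; ring))
    · have h : 0 ≤ B1 (4253 / 10000) (1507 / 2500) (1599 / 5000) (4973 / 10000) a b := B1_nonneg ha hb (by norm_num) (by norm_num) (by norm_num) (by norm_num)
      exact sub_nonneg.1 (h.trans_eq (by unfold B1; ring))
    · have h : 0 ≤ B1 (8761 / 10000) (9897 / 10000) (9031 / 10000) (10167 / 10000) a b := B1_nonneg ha hb (by norm_num) (by norm_num) (by norm_num) (by norm_num)
      exact sub_nonneg.1 (h.trans_eq (by unfold B1; ring))
    · exact le_abs_self _
    · have h : 0 ≤ B2 (1333183 / 50000000) (975729 / 12500000) (76451 / 6250000) (5664687 / 100000000) (19167699 / 100000000) (354407 / 6250000) (4900559 / 400000000) (15631009 / 200000000) (10696459 / 400000000) a b := B2_nonneg ha hb (by norm_num) (by norm_num) (by norm_num) (by norm_num) (by norm_num) (by norm_num) (by norm_num) (by norm_num) (by norm_num)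
      exact sub_nonneg.1 (h.trans_eq (by unfold B2; ring))
    · have h : 0 ≤ B2 (12127 / 50000000) (1219883 / 50000000) (359391 / 100000000) (27973 / 6250000) (1266053 / 25000000) (252201 / 50000000) (175207 / 50000000) (1239323 / 50000000) (72111 / 100000000) a b := B2_nonneg ha hb (by norm_num) (by norm_num) (by norm_num) (by norm_num) (by norm_num) (by norm_num) (by norm_num) (by norm_num) (by norm_num)
      exact sub_nonneg.1 (h.trans_eq (by unfold B2; ring))
    · have h : 0 ≤ B1 (1471 / 10625) (6331 / 21250) (3 / 34000) (27127 / 170000) a b := B1_nonneg ha hb (by norm_num) (by norm_num) (by norm_num) (by norm_num)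
      exact sub_nonneg.1 (h.trans_eq (by unfold B1; ring))
    · have h : 0 ≤ B4 (52802990970114564071 / 960000000000000000000) (223006846427150220223 / 960000000000000000000) (46767271497806740139 / 120000000000000000000) (2267514167434802563 / 7500000000000000000) (14047444157916091 / 156250000000000000) (144256908815022406479 / 640000000000000000000) (303466668091472201219 / 320000000000000000000) (3049954796417524622549 / 1920000000000000000000) (49308017331473600473 / 40000000000000000000) (1376678354681590211 / 3750000000000000000) (135147955950344750809 / 384000000000000000000) (88392150648657238579 / 60000000000000000000) (1573506076608249864191 / 640000000000000000000) (1827818827399085390221 / 960000000000000000000) (16998882280917641693 / 30000000000000000000) (127506938396170137 / 512000000000000000) (198899123151066801451 / 192000000000000000000) (3299635712595410594813 / 1920000000000000000000) (52981128448818406727 / 40000000000000000000) (754298665472902928843 / 1920000000000000000000) (43191994579584117 / 640000000000000000) (3568191509654460979 / 12800000000000000000)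 (176159187044655556513 / 384000000000000000000) (22458590526417870301 / 64000000000000000000) (39722904655735024463 / 384000000000000000000) a b := B4_nonneg ha hb (by norm_num) (by norm_num) (by norm_num) (by norm_num) (by norm_num) (by norm_num) (by norm_num) (by norm_num) (by norm_num) (by norm_num) (by norm_num) (by norm_num) (by norm_num) (by norm_num) (by norm_num) (by norm_num) (by norm_num) (by norm_num) (by norm_num) (by norm_num) (by norm_num) (by norm_num) (by norm_num) (by norm_num) (by norm_num)
      exact sub_nonneg.1 (h.trans_eq (by unfold B4 Q4; ring))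

theorem twod_17 {x y : ℝ} (h0 : 17 / 16 ≤ x) (h1 : x ≤ 49 / 40) (k0 : 53 / 40 ≤ y) (k1 : y ≤ 3 / 2) :
    TwoAny x y := by
  obtain ⟨a, ha, rfl⟩ := affine01 h0 h1 (by norm_num)
  obtain ⟨b, hb, rfl⟩ := affine01 k0 k1 (by norm_num)
  refine ⟨21 / 10, by norm_num, ?_, ?_⟩
  · refine ⟨8 / 17, 8 / 15, 489957 / 1000000, 17 / 15, 7509 / 5000 + 679 / 5000 * a + 201 / 625 * b, 1217 / 5000 + (-(671 / 5000)) * a + 1829 / 10000 * b, 2577 / 2500 + 153 / 2500 * a + 893 / 10000 * b, (53 / 40 + (3 / 2 - 53 / 40) * b) - (17 / 16 + (49 / 40 - 17 / 16) * a), trigQ_5, ?_, ?_, ?_, ?_, ?_, ?_, ?_, ?_, ?_⟩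
    · have h : 0 ≤ B1 (7509 / 5000) (9117 / 5000) (2047 / 1250) (2449 / 1250) a b := B1_nonneg ha hb (by norm_num) (by norm_num) (by norm_num) (by norm_num)
      exact sub_nonneg.1 (h.trans_eq (by unfold B1; ring))
    · have h : 0 ≤ B1 (2991 / 5000) (1383 / 5000) (289 / 625) (88 / 625) a b := B1_nonneg ha hb (by norm_num) (by norm_num) (by norm_num) (by norm_num)
      exact sub_nonneg.1 (h.trans_eq (by unfold B1; ring))
    · have h : 0 ≤ B1 (1217 / 5000) (4263 / 10000) (273 / 2500) (2921 / 10000) a b := B1_nonneg ha hb (by norm_num) (by norm_num) (by norm_num) (by norm_num)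
      exact sub_nonneg.1 (h.trans_eq (by unfold B1; ring))
    · have h : 0 ≤ B1 (2577 / 2500) (11201 / 10000) (273 / 250) (11813 / 10000) a b := B1_nonneg ha hb (by norm_num) (by norm_num) (by norm_num) (by norm_num)
      exact sub_nonneg.1 (h.trans_eq (by unfold B1; ring))
    · exact le_abs_self _
    · have h : 0 ≤ B2 (7006951 / 400000000) (11738557 / 200000000) (26699 / 400000000) (2108947 / 50000000) (3330911 / 20000000) (4214929 / 100000000) (1259 / 25000000) (1465759 / 25000000) (873567 / 50000000) a b := B2_nonneg ha hb (by norm_num) (by norm_num) (by norm_num) (by norm_num) (by norm_num) (by norm_num) (by norm_num) (by norm_num) (by norm_num)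
      exact sub_nonneg.1 (h.trans_eq (by unfold B2; ring))
    · have h : 0 ≤ B2 (34511 / 100000000) (69537 / 3125000) (627599 / 100000000) (103203 / 10000000) (660419 / 12500000) (562587 / 50000000) (24919 / 4000000) (57727 / 2500000) (123031 / 100000000) a b := B2_nonneg ha hb (by norm_num) (by norm_num) (by norm_num) (by norm_num) (by norm_num) (by norm_num) (by norm_num) (by norm_num) (by norm_num)
      exact sub_nonneg.1 (h.trans_eq (by unfold B2; ring))
    · have h : 0 ≤ B1 (19519 / 170000) (45247 / 170000) (1379 / 85000) (14243 / 85000) a b := B1_nonneg ha hb (by norm_num) (by norm_num) (by norm_num) (by norm_num)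
      exact sub_nonneg.1 (h.trans_eq (by unfold B1; ring))
    · have h : 0 ≤ B2 (1115256942419 / 37500000000000) (5943961106663 / 75000000000000) (7231276661497 / 75000000000000) (1861847456491 / 37500000000000) (1883274661847 / 15000000000000) (12728337275597 / 75000000000000) (441911012039 / 9375000000000) (1889156584727 / 18750000000000) (1884791920567 / 18750000000000) a b := B2_nonneg ha hb (by norm_num) (by norm_num) (by norm_num) (by norm_num) (by norm_num) (by norm_num) (by norm_num) (by norm_num) (by norm_num)
      exact sub_nonneg.1 (h.trans_eq (by unfold B2; ring))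
  · refine ⟨120 / 241, 120 / 209, 130301 / 250000, 241 / 209, 2791 / 2000 + 81 / 1250 * a + 283 / 1000 * b, 3263 / 10000 + (-(18 / 125)) * a + 33 / 200 * b, 9779 / 10000 + 313 / 10000 * a + 193 / 2500 * b, (53 / 40 + (3 / 2 - 53 / 40) * b) - (17 / 16 + (49 / 40 - 17 / 16) * a), trigQ_12, ?_, ?_, ?_, ?_, ?_, ?_, ?_, ?_, ?_⟩
    · have h : 0 ≤ B1 (2791 / 2000) (3357 / 2000) (14603 / 10000) (17433 / 10000) a b := B1_nonneg ha hb (by norm_num) (by norm_num) (by norm_num) (by norm_num)
      exact sub_nonneg.1 (h.trans_eq (by unfold B1; ring))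
    · have h : 0 ≤ B1 (1409 / 2000) (843 / 2000) (6397 / 10000) (3567 / 10000) a b := B1_nonneg ha hb (by norm_num) (by norm_num) (by norm_num) (by norm_num)
      exact sub_nonneg.1 (h.trans_eq (by unfold B1; ring))
    · have h : 0 ≤ B1 (3263 / 10000) (4913 / 10000) (1823 / 10000) (3473 / 10000) a b := B1_nonneg ha hb (by norm_num) (by norm_num) (by norm_num) (by norm_num)
      exact sub_nonneg.1 (h.trans_eq (by unfold B1; ring))
    · have h : 0 ≤ B1 (9779 / 10000) (10551 / 10000) (2523 / 2500) (679 / 625) a b := B1_nonneg ha hb (by norm_num) (by norm_num) (by norm_num) (by norm_num)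
      exact sub_nonneg.1 (h.trans_eq (by unfold B1; ring))
    · exact le_abs_self _
    · have h : 0 ≤ B2 (58220699 / 400000000) (58941149 / 200000000) (45709099 / 400000000) (14947801 / 50000000) (64410529 / 100000000) (27538677 / 100000000) (12606671 / 100000000) (14736221 / 50000000) (6688823 / 50000000) a b := B2_nonneg ha hb (by norm_num) (by norm_num) (by norm_num) (by norm_num) (by norm_num) (by norm_num) (by norm_num) (by norm_num) (by norm_num)
      exact sub_nonneg.1 (h.trans_eq (by unfold B2; ring))
    · have h : 0 ≤ B2 (15267 / 50000000) (834271 / 50000000) (276399 / 100000000) (209707 / 50000000) (446313 / 12500000) (13371 / 3125000) (290911 / 100000000) (213253 / 12500000) (209 / 390625) a b := B2_nonneg ha hb (by norm_num) (by norm_num) (by norm_num) (by norm_num) (by norm_num) (by norm_num) (by norm_num) (by norm_num) (by norm_num)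
      exact sub_nonneg.1 (h.trans_eq (by unfold B2; ring))
    · have h : 0 ≤ B1 (12559 / 96400) (26143 / 96400) (11 / 241000) (33971 / 241000) a b := B1_nonneg ha hb (by norm_num) (by norm_num) (by norm_num) (by norm_num)
      exact sub_nonneg.1 (h.trans_eq (by unfold B1; ring))
    · have h : 0 ≤ B4 (927691429969776181 / 28160000000000000000) (2189381359274892733 / 14080000000000000000) (38982532965530157533 / 133760000000000000000) (66335334372237533689 / 267520000000000000000) (42310891365374613661 / 535040000000000000000) (250946026232076567 / 1760000000000000000) (110092561209273858261 / 167200000000000000000) (101498869447376901327 / 83600000000000000000) (34189289650942172427 / 33440000000000000000) (54201398077183643877 / 167200000000000000000) (3250979304315008099507 / 13376000000000000000000) (7305679083366625839377 / 6688000000000000000000) (6290862760459548807 / 3200000000000000000) (10872877544741196863143 / 6688000000000000000000) (6810327613179723292273 / 13376000000000000000000) (30734337261418992553 / 160000000000000000000) (14032126848473625010919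 / 16720000000000000000000) (12264684083970796109663 / 8360000000000000000000) (19796225178219021908049 / 16720000000000000000000) (12174491229865539955707 / 33440000000000000000000) (22299649456470394919 / 380000000000000000000) (379754081531410101649 / 1520000000000000000000) (3543283756662280138263 / 8360000000000000000000) (5562717743572270108129 / 16720000000000000000000) (76011843227660162423 / 760000000000000000000) a b := B4_nonneg ha hb (by norm_num) (by norm_num) (by norm_num) (by norm_num) (by norm_num) (by norm_num) (by norm_num) (by norm_num) (by norm_num) (by norm_num) (by norm_num) (by norm_num) (by norm_num) (by norm_num) (by norm_num) (by norm_num) (by norm_num) (by norm_num) (by norm_num) (by norm_num) (by norm_num) (by norm_num) (by norm_num) (by norm_num) (by norm_num)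
      exact sub_nonneg.1 (h.trans_eq (by unfold B4 Q4; ring))

theorem twod_15 {x y : ℝ} (h0 : 9 / 10 ≤ x) (h1 : x ≤ 49 / 40) (k0 : 53 / 40 ≤ y) (k1 : y ≤ 3 / 2) :
    CenXY x y ∨ TwoAny x y := by
  rcases le_total x (17 / 16) with h | h
  · exact Or.inr (twod_16 h0 h k0 k1)
  · exact Or.inr (twod_17 h h1 k0 k1)

theorem twod_3 {x y : ℝ} (h0 : 9 / 10 ≤ x) (h1 : x ≤ 49 / 40) (k0 : 23 / 20 ≤ y) (k1 : y ≤ 3 / 2) :
    CenXY x y ∨ TwoAny x y := by
  rcases le_total y (53 / 40) with h | h
  · exact twod_4 h0 h1 k0 h
  · exact twod_15 h0 h1 h k1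

theorem twod_20 {x y : ℝ} (h0 : 49 / 40 ≤ x) (h1 : x ≤ 111 / 80) (k0 : 23 / 20 ≤ y) (k1 : y ≤ 53 / 40) :
    TwoAny x y := by
  obtain ⟨a, ha, rfl⟩ := affine01 h0 h1 (by norm_num)
  obtain ⟨b, hb, rfl⟩ := affine01 k0 k1 (by norm_num)
  refine ⟨2, by norm_num, ?_, ?_⟩
  · refine ⟨28 / 53, 28 / 45, 556599 / 1000000, 53 / 45, 14489 / 10000 + 1273 / 5000 * a + 221 / 1250 * b, 299 / 2000 + 783 / 5000 * a + (-(747 / 5000)) * b, 10573 / 10000 + 563 / 5000 * a + 303 / 10000 * b, (49 / 40 + (111 / 80 - 49 / 40) * a) - (23 / 20 + (53 / 40 - 23 / 20) * b), trigQ_11, ?_, ?_, ?_, ?_, ?_, ?_, ?_, ?_, ?_⟩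
    · have h : 0 ≤ B1 (14489 / 10000) (16257 / 10000) (3407 / 2000) (18803 / 10000) a b := B1_nonneg ha hb (by norm_num) (by norm_num) (by norm_num) (by norm_num)
      exact sub_nonneg.1 (h.trans_eq (by unfold B1; ring))
    · have h : 0 ≤ B1 (5511 / 10000) (3743 / 10000) (593 / 2000) (1197 / 10000) a b := B1_nonneg ha hb (by norm_num) (by norm_num) (by norm_num) (by norm_num)
      exact sub_nonneg.1 (h.trans_eq (by unfold B1; ring))
    · have h : 0 ≤ B1 (299 / 2000) (1 / 10000) (3061 / 10000) (1567 / 10000) a b := B1_nonneg ha hb (by norm_num) (by norm_num) (by norm_num) (by norm_num)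
      exact sub_nonneg.1 (h.trans_eq (by unfold B1; ring))
    · have h : 0 ≤ B1 (10573 / 10000) (2719 / 2500) (11699 / 10000) (6001 / 5000) a b := B1_nonneg ha hb (by norm_num) (by norm_num) (by norm_num) (by norm_num)
      exact sub_nonneg.1 (h.trans_eq (by unfold B1; ring))
    · rw [abs_sub_comm]; exact le_abs_self _
    · have h : 0 ≤ B2 (32787 / 2000000) (464451 / 10000000) (7499 / 100000000) (951897 / 20000000) (15507923 / 100000000) (1188279 / 25000000) (30491 / 400000000) (9276777 / 200000000) (6532419 / 400000000) a b := B2_nonneg ha hb (by norm_num) (by norm_num) (by norm_num) (by norm_num) (by norm_num) (by norm_num) (by norm_num) (by norm_num) (by norm_num)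
      exact sub_nonneg.1 (h.trans_eq (by unfold B2; ring))
    · have h : 0 ≤ B2 (39171 / 100000000) (322151 / 25000000) (391999 / 100000000) (863973 / 50000000) (259703 / 5000000) (875623 / 50000000) (420899 / 100000000) (171213 / 12500000) (91371 / 100000000) a b := B2_nonneg ha hb (by norm_num) (by norm_num) (by norm_num) (by norm_num) (by norm_num) (by norm_num) (by norm_num) (by norm_num) (by norm_num)
      exact sub_nonneg.1 (h.trans_eq (by unfold B2; ring))
    · have h : 0 ≤ B1 (18221 / 265000) (42973 / 265000) (4321 / 106000) (71109 / 530000) a b := B1_nonneg ha hb (by norm_num) (by norm_num) (by norm_num) (by norm_num)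
      exact sub_nonneg.1 (h.trans_eq (by unfold B1; ring))
    · have h : 0 ≤ B2 (19865602806811 / 1800000000000000) (20503479399893 / 900000000000000) (77397438706159 / 1800000000000000) (3149351909909 / 90000000000000) (12530589635773 / 225000000000000) (4160273453177 / 50000000000000) (4681063634209 / 72000000000000) (2300534102379 / 20000000000000) (16253062341341 / 200000000000000) a b := B2_nonneg ha hb (by norm_num) (by norm_num) (by norm_num) (by norm_num) (by norm_num) (by norm_num) (by norm_num) (by norm_num) (by norm_num)
      exact sub_nonneg.1 (h.trans_eq (by unfold B2; ring))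
  · refine ⟨3 / 5, 3 / 4, 643501 / 1000000, 5 / 4, 2987 / 2500 + 303 / 1250 * a + 1063 / 10000 * b, 1843 / 10000 + 397 / 2000 * a + (-(1843 / 10000)) * b, 4647 / 5000 + 1223 / 10000 * a + (-(1 / 1000)) * b, (49 / 40 + (111 / 80 - 49 / 40) * a) - (23 / 20 + (53 / 40 - 23 / 20) * b), trigQ_6, ?_, ?_, ?_, ?_, ?_, ?_, ?_, ?_, ?_⟩
    · have h : 0 ≤ B1 (2987 / 2500) (13011 / 10000) (3593 / 2500) (3087 / 2000) a b := B1_nonneg ha hb (by norm_num) (by norm_num) (by norm_num) (by norm_num)
      exact sub_nonneg.1 (h.trans_eq (by unfold B1; ring))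
    · have h : 0 ≤ B1 (2013 / 2500) (6989 / 10000) (1407 / 2500) (913 / 2000) a b := B1_nonneg ha hb (by norm_num) (by norm_num) (by norm_num) (by norm_num)
      exact sub_nonneg.1 (h.trans_eq (by unfold B1; ring))
    · have h : 0 ≤ B1 (1843 / 10000) (0) (957 / 2500) (397 / 2000) a b := B1_nonneg ha hb (by norm_num) (by norm_num) (by norm_num) (by norm_num)
      exact sub_nonneg.1 (h.trans_eq (by unfold B1; ring))
    · have h : 0 ≤ B1 (4647 / 5000) (2321 / 2500) (10517 / 10000) (10507 / 10000) a b := B1_nonneg ha hb (by norm_num) (by norm_num) (by norm_num) (by norm_num)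
      exact sub_nonneg.1 (h.trans_eq (by unfold B1; ring))
    · rw [abs_sub_comm]; exact le_abs_self _
    · have h : 0 ≤ B2 (1621363 / 50000000) (1483 / 20000) (1 / 10000) (7849367 / 100000000) (4804283 / 20000000) (3139 / 40000) (25039 / 400000000) (2962261 / 40000000) (517939 / 16000000) a b := B2_nonneg ha hb (by norm_num) (by norm_num) (by norm_num) (by norm_num) (by norm_num) (by norm_num) (by norm_num) (by norm_num) (by norm_num)
      exact sub_nonneg.1 (h.trans_eq (by unfold B2; ring))
    · have h : 0 ≤ B2 (4883 / 12500000) (207877 / 25000000) (26719 / 100000000) (396251 / 25000000) (1175307 / 25000000) (792387 / 50000000) (50211 / 100000000) (439131 / 50000000) (31163 / 50000000) a b := B2_nonneg ha hb (by norm_num) (by norm_num) (by norm_num) (by norm_num) (by norm_num) (by norm_num) (by norm_num) (by norm_num) (by norm_num)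
      exact sub_nonneg.1 (h.trans_eq (by unfold B2; ring))
    · have h : 0 ≤ B1 (2297 / 25000) (7783 / 50000) (3741 / 50000) (693 / 5000) a b := B1_nonneg ha hb (by norm_num) (by norm_num) (by norm_num) (by norm_num)
      exact sub_nonneg.1 (h.trans_eq (by unfold B1; ring))
    · have h : 0 ≤ B4 (664398550481737457 / 10000000000000000000) (21476954387716045471 / 80000000000000000000) (136725827185551470297 / 320000000000000000000) (100723092692458797713 / 320000000000000000000) (7161082360588977669 / 80000000000000000000) (11633522036941173533 / 40000000000000000000) (1153433276377221379 / 1000000000000000000) (1152238278233364120267 / 640000000000000000000) (417022544142493182583 / 320000000000000000000) (233867754341985150931 / 640000000000000000000) (40492346037058797487 / 80000000000000000000) (25286285076163983109 / 12800000000000000000) (1933900906346700185571 / 640000000000000000000) (342509160650529130919 / 160000000000000000000) (376511221767145113659 / 640000000000000000000) (4097384357416957873 / 10000000000000000000) (50600576095271552849 / 32000000000000000000)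 (1520962142267296280749 / 640000000000000000000) (527217563207664336123 / 320000000000000000000) (56650381435755628921 / 128000000000000000000) (10238584492305312907 / 80000000000000000000) (157039464938462610161 / 320000000000000000000) (465847859782857274851 / 640000000000000000000) (31699738671328091831 / 64000000000000000000) (3332791234756254421 / 25600000000000000000) a b := B4_nonneg ha hb (by norm_num) (by norm_num) (by norm_num) (by norm_num) (by norm_num) (by norm_num) (by norm_num) (by norm_num) (by norm_num) (by norm_num) (by norm_num) (by norm_num) (by norm_num) (by norm_num) (by norm_num) (by norm_num) (by norm_num) (by norm_num) (by norm_num) (by norm_num) (by norm_num) (by norm_num) (by norm_num) (by norm_num) (by norm_num)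
      exact sub_nonneg.1 (h.trans_eq (by unfold B4 Q4; ring))

theorem twod_21 {x y : ℝ} (h0 : 111 / 80 ≤ x) (h1 : x ≤ 31 / 20) (k0 : 23 / 20 ≤ y) (k1 : y ≤ 53 / 40) :
    TwoAny x y := by
  obtain ⟨a, ha, rfl⟩ := affine01 h0 h1 (by norm_num)
  obtain ⟨b, hb, rfl⟩ := affine01 k0 k1 (by norm_num)
  refine ⟨12 / 5, by norm_num, ?_, ?_⟩
  · refine ⟨33 / 65, 33 / 56, 532503 / 1000000, 65 / 56, 17673 / 10000 + 3151 / 10000 * a + 729 / 10000 * b, 707 / 2500 + 477 / 2500 * a + (-(1287 / 5000)) * b, 11977 / 10000 + 157 / 1250 * a + (-(141 / 10000)) * b, (111 / 80 + (31 / 20 - 111 / 80) * a) - (23 / 20 + (53 / 40 - 23 / 20) * b), trigQ_10, ?_, ?_, ?_, ?_, ?_, ?_, ?_, ?_, ?_⟩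
    · have h : 0 ≤ B1 (17673 / 10000) (9201 / 5000) (2603 / 1250) (21553 / 10000) a b := B1_nonneg ha hb (by norm_num) (by norm_num) (by norm_num) (by norm_num)
      exact sub_nonneg.1 (h.trans_eq (by unfold B1; ring))
    · have h : 0 ≤ B1 (6327 / 10000) (2799 / 5000) (397 / 1250) (2447 / 10000) a b := B1_nonneg ha hb (by norm_num) (by norm_num) (by norm_num) (by norm_num)
      exact sub_nonneg.1 (h.trans_eq (by unfold B1; ring))
    · have h : 0 ≤ B1 (707 / 2500) (127 / 5000) (296 / 625) (1081 / 5000) a b := B1_nonneg ha hb (by norm_num) (by norm_num) (by norm_num) (by norm_num)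
      exact sub_nonneg.1 (h.trans_eq (by unfold B1; ring))
    · have h : 0 ≤ B1 (11977 / 10000) (2959 / 2500) (13233 / 10000) (3273 / 2500) a b := B1_nonneg ha hb (by norm_num) (by norm_num) (by norm_num) (by norm_num)
      exact sub_nonneg.1 (h.trans_eq (by unfold B1; ring))
    · rw [abs_sub_comm]; exact le_abs_self _
    · have h : 0 ≤ B2 (31039039 / 400000000) (30329877 / 200000000) (56311 / 400000000) (3905171 / 25000000) (7786543 / 20000000) (8529829 / 100000000) (222519 / 6250000) (1895817 / 12500000) (4215131 / 100000000) a b := B2_nonneg ha hb (by norm_num) (by norm_num) (by norm_num) (by norm_num) (by norm_num) (by norm_num) (by norm_num) (by norm_num) (by norm_num)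
      exact sub_nonneg.1 (h.trans_eq (by unfold B2; ring))
    · have h : 0 ≤ B2 (218971 / 100000000) (260739 / 25000000) (38479 / 100000000) (930859 / 50000000) (660957 / 12500000) (927463 / 50000000) (65211 / 100000000) (272407 / 25000000) (238911 / 100000000) a b := B2_nonneg ha hb (by norm_num) (by norm_num) (by norm_num) (by norm_num) (by norm_num) (by norm_num) (by norm_num) (by norm_num) (by norm_num)
      exact sub_nonneg.1 (h.trans_eq (by unfold B2; ring))
    · have h : 0 ≤ B1 (5667 / 325000) (35391 / 650000) (2423 / 162500) (33749 / 650000) a b := B1_nonneg ha hb (by norm_num) (by norm_num) (by norm_num) (by norm_num)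
      exact sub_nonneg.1 (h.trans_eq (by unfold B1; ring))
    · have h : 0 ≤ B2 (37845506499259 / 1400000000000000) (53267435032591 / 700000000000000) (16070828483273 / 175000000000000) (9850682979699 / 87500000000000) (39093298839033 / 175000000000000) (137444995818801 / 700000000000000) (3001226701789 / 21875000000000) (5481839001941 / 21875000000000) (218636451509989 / 1400000000000000) a b := B2_nonneg ha hb (by norm_num) (by norm_num) (by norm_num) (by norm_num) (by norm_num) (by norm_num) (by norm_num) (by norm_num) (by norm_num)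
      exact sub_nonneg.1 (h.trans_eq (by unfold B2; ring))
  · refine ⟨3 / 5, 3 / 4, 643501 / 1000000, 5 / 4, 14033 / 10000 + 1577 / 5000 * a + 817 / 10000 * b, 1413 / 5000 + 11 / 50 * a + (-(21 / 125)) * b, 10347 / 10000 + 1431 / 10000 * a + (-(3 / 250)) * b, (111 / 80 + (31 / 20 - 111 / 80) * a) - (23 / 20 + (53 / 40 - 23 / 20) * b), trigQ_6, ?_, ?_, ?_, ?_, ?_, ?_, ?_, ?_, ?_⟩
    · have h : 0 ≤ B1 (14033 / 10000) (297 / 200) (17187 / 10000) (4501 / 2500) a b := B1_nonneg ha hb (by norm_num) (by norm_num) (by norm_num) (by norm_num)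
      exact sub_nonneg.1 (h.trans_eq (by unfold B1; ring))
    · have h : 0 ≤ B1 (9967 / 10000) (183 / 200) (6813 / 10000) (1499 / 2500) a b := B1_nonneg ha hb (by norm_num) (by norm_num) (by norm_num) (by norm_num)
      exact sub_nonneg.1 (h.trans_eq (by unfold B1; ring))
    · have h : 0 ≤ B1 (1413 / 5000) (573 / 5000) (2513 / 5000) (1673 / 5000) a b := B1_nonneg ha hb (by norm_num) (by norm_num) (by norm_num) (by norm_num)
      exact sub_nonneg.1 (h.trans_eq (by unfold B1; ring))
    · have h : 0 ≤ B1 (10347 / 10000) (10227 / 10000) (5889 / 5000) (5829 / 5000) a b := B1_nonneg ha hb (by norm_num) (by norm_num) (by norm_num) (by norm_num)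
      exact sub_nonneg.1 (h.trans_eq (by unfold B1; ring))
    · rw [abs_sub_comm]; exact le_abs_self _
    · have h : 0 ≤ B2 (13134271 / 400000000) (13771241 / 200000000) (56111 / 400000000) (1099131 / 12500000) (24761941 / 100000000) (8792843 / 100000000) (2331 / 25000000) (859501 / 12500000) (3278659 / 100000000) a b := B2_nonneg ha hb (by norm_num) (by norm_num) (by norm_num) (by norm_num) (by norm_num) (by norm_num) (by norm_num) (by norm_num) (by norm_num)
      exact sub_nonneg.1 (h.trans_eq (by unfold B2; ring))
    · have h : 0 ≤ B2 (207091 / 100000000) (502481 / 50000000) (8923 / 50000000) (585267 / 25000000) (193973 / 3125000) (1153009 / 50000000) (10777 / 12500000) (276663 / 25000000) (240411 / 100000000) a b := B2_nonneg ha hb (by norm_num) (by norm_num) (by norm_num) (by norm_num) (by norm_num) (by norm_num) (by norm_num) (by norm_num) (by norm_num)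
      exact sub_nonneg.1 (h.trans_eq (by unfold B2; ring))
    · have h : 0 ≤ B1 (681 / 12500) (207 / 2000) (4061 / 50000) (407 / 3125) a b := B1_nonneg ha hb (by norm_num) (by norm_num) (by norm_num) (by norm_num)
      exact sub_nonneg.1 (h.trans_eq (by unfold B1; ring))
    · have h : 0 ≤ B4 (74874179627965679851 / 640000000000000000000) (149901143478531743201 / 320000000000000000000) (462954181725821307701 / 640000000000000000000) (6518319227438699323 / 12800000000000000000) (17577977395042293 / 128000000000000000) (334854626704004505163 / 640000000000000000000) (662624141982062245801 / 320000000000000000000) (403889953108624018343 / 128000000000000000000) (350561036782091272869 / 160000000000000000000) (1865940194226824931 / 3200000000000000000) (116992390729263334057 / 128000000000000000000) (573365028066582414011 / 160000000000000000000) (3452352244810860324477 / 640000000000000000000) (1181839204542859452631 / 320000000000000000000) (38739020180929472909 / 40000000000000000000) (468085780868803005837 / 640000000000000000000) (911650330586910814149 / 320000000000000000000)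 (108701845238142734909 / 25600000000000000000) (229650545372420530763 / 80000000000000000000) (2967956952067590599 / 4000000000000000000) (4472008571828911277 / 20000000000000000000) (277643272957276488727 / 320000000000000000000) (410844734980003416131 / 320000000000000000000) (68731767456259433271 / 80000000000000000000) (2192920957907757039 / 10000000000000000000) a b := B4_nonneg ha hb (by norm_num) (by norm_num) (by norm_num) (by norm_num) (by norm_num) (by norm_num) (by norm_num) (by norm_num) (by norm_num) (by norm_num) (by norm_num) (by norm_num) (by norm_num) (by norm_num) (by norm_num) (by norm_num) (by norm_num) (by norm_num) (by norm_num) (by norm_num) (by norm_num) (by norm_num) (by norm_num) (by norm_num) (by norm_num)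
      exact sub_nonneg.1 (h.trans_eq (by unfold B4 Q4; ring))

theorem twod_19 {x y : ℝ} (h0 : 49 / 40 ≤ x) (h1 : x ≤ 31 / 20) (k0 : 23 / 20 ≤ y) (k1 : y ≤ 53 / 40) :
    CenXY x y ∨ TwoAny x y := by
  rcases le_total x (111 / 80) with h | h
  · exact Or.inr (twod_20 h0 h k0 k1)
  · exact Or.inr (twod_21 h h1 k0 k1)

theorem twod_22 {x y : ℝ} (h0 : 49 / 40 ≤ x) (h1 : x ≤ 31 / 20) (k0 : 53 / 40 ≤ y) (k1 : y ≤ 3 / 2) :
    TwoAny x y := by
  obtain ⟨a, ha, rfl⟩ := affine01 h0 h1 (by norm_num)
  obtain ⟨b, hb, rfl⟩ := affine01 k0 k1 (by norm_num)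
  refine ⟨5 / 2, by norm_num, ?_, ?_⟩
  · refine ⟨120 / 241, 120 / 209, 130301 / 250000, 241 / 209, 1723 / 1000 + 39 / 100 * a + 2899 / 10000 * b, 1961 / 10000 + (-(49 / 250)) * a + 1353 / 10000 * b, 1133 / 1000 + 781 / 5000 * a + 333 / 5000 * b, (53 / 40 + (3 / 2 - 53 / 40) * b) - (49 / 40 + (31 / 20 - 49 / 40) * a), trigQ_12, ?_, ?_, ?_, ?_, ?_, ?_, ?_, ?_, ?_⟩
    · have h : 0 ≤ B1 (1723 / 1000) (20129 / 10000) (2113 / 1000) (24029 / 10000) a b := B1_nonneg ha hb (by norm_num) (by norm_num) (by norm_num) (by norm_num)
      exact sub_nonneg.1 (h.trans_eq (by unfold B1; ring))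
    · have h : 0 ≤ B1 (777 / 1000) (4871 / 10000) (387 / 1000) (971 / 10000) a b := B1_nonneg ha hb (by norm_num) (by norm_num) (by norm_num) (by norm_num)
      exact sub_nonneg.1 (h.trans_eq (by unfold B1; ring))
    · have h : 0 ≤ B1 (1961 / 10000) (1657 / 5000) (1 / 10000) (677 / 5000) a b := B1_nonneg ha hb (by norm_num) (by norm_num) (by norm_num) (by norm_num)
      exact sub_nonneg.1 (h.trans_eq (by unfold B1; ring))
    · have h : 0 ≤ B1 (1133 / 1000) (2999 / 2500) (3223 / 2500) (6779 / 5000) a b := B1_nonneg ha hb (by norm_num) (by norm_num) (by norm_num) (by norm_num)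
      exact sub_nonneg.1 (h.trans_eq (by unfold B1; ring))
    · exact le_abs_self _
    · have h : 0 ≤ B2 (5891979 / 100000000) (822187 / 6250000) (4666779 / 100000000) (8516789 / 50000000) (19634617 / 50000000) (4260797 / 25000000) (2329687 / 50000000) (410931 / 3125000) (736773 / 12500000) a b := B2_nonneg ha hb (by norm_num) (by norm_num) (by norm_num) (by norm_num) (by norm_num) (by norm_num) (by norm_num) (by norm_num) (by norm_num)
      exact sub_nonneg.1 (h.trans_eq (by unfold B2; ring))
    · have h : 0 ≤ B2 (1619 / 4000000) (59641 / 2500000) (70999 / 6250000) (368603 / 10000000) (1237607 / 12500000) (237279 / 6250000) (1205711 / 100000000) (329441 / 12500000) (55159 / 25000000) a b := B2_nonneg ha hb (by norm_num) (by norm_num) (by norm_num) (by norm_num) (by norm_num) (by norm_num) (by norm_num) (by norm_num) (by norm_num)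
      exact sub_nonneg.1 (h.trans_eq (by unfold B2; ring))
    · have h : 0 ≤ B1 (6307 / 48200) (66323 / 241000) (1 / 24100) (17399 / 120500) a b := B1_nonneg ha hb (by norm_num) (by norm_num) (by norm_num) (by norm_num)
      exact sub_nonneg.1 (h.trans_eq (by unfold B1; ring))
    · have h : 0 ≤ B2 (1685765489761 / 104500000000000) (62539053120581 / 1045000000000000) (408515661913647 / 5225000000000000) (6412236964839 / 209000000000000) (247067476090559 / 2090000000000000) (1635160215406013 / 10450000000000000) (25139011296867 / 209000000000000) (563955476080397 / 2090000000000000) (1923044157156219 / 10450000000000000) a b := B2_nonneg ha hb (by norm_num) (by norm_num) (by norm_num) (by norm_num) (by norm_num) (by norm_num) (by norm_num) (by norm_num) (by norm_num)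
      exact sub_nonneg.1 (h.trans_eq (by unfold B2; ring))
  · refine ⟨3 / 5, 3 / 4, 643501 / 1000000, 5 / 4, 3501 / 2500 + 1277 / 5000 * a + 2759 / 10000 * b, 2491 / 10000 + (-(2491 / 10000)) * a + 1837 / 10000 * b, 2451 / 2500 + 74 / 625 * a + 353 / 5000 * b, (53 / 40 + (3 / 2 - 53 / 40) * b) - (49 / 40 + (31 / 20 - 49 / 40) * a), trigQ_6, ?_, ?_, ?_, ?_, ?_, ?_, ?_, ?_, ?_⟩
    · have h : 0 ≤ B1 (3501 / 2500) (16763 / 10000) (8279 / 5000) (19317 / 10000) a b := B1_nonneg ha hb (by norm_num) (by norm_num) (by norm_num) (by norm_num)
      exact sub_nonneg.1 (h.trans_eq (by unfold B1; ring))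
    · have h : 0 ≤ B1 (2749 / 2500) (8237 / 10000) (4221 / 5000) (5683 / 10000) a b := B1_nonneg ha hb (by norm_num) (by norm_num) (by norm_num) (by norm_num)
      exact sub_nonneg.1 (h.trans_eq (by unfold B1; ring))
    · have h : 0 ≤ B1 (2491 / 10000) (541 / 1250) (0) (1837 / 10000) a b := B1_nonneg ha hb (by norm_num) (by norm_num) (by norm_num) (by norm_num)
      exact sub_nonneg.1 (h.trans_eq (by unfold B1; ring))
    · have h : 0 ≤ B1 (2451 / 2500) (1051 / 1000) (2747 / 2500) (5847 / 5000) a b := B1_nonneg ha hb (by norm_num) (by norm_num) (by norm_num) (by norm_num)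
      exact sub_nonneg.1 (h.trans_eq (by unfold B1; ring))
    · exact le_abs_self _
    · have h : 0 ≤ B2 (3734919 / 100000000) (985363 / 12500000) (7791 / 100000000) (2519 / 20000) (4182727 / 12500000) (3146607 / 25000000) (23 / 160000) (631 / 8000) (3732931 / 100000000) a b := B2_nonneg ha hb (by norm_num) (by norm_num) (by norm_num) (by norm_num) (by norm_num) (by norm_num) (by norm_num) (by norm_num) (by norm_num)
      exact sub_nonneg.1 (h.trans_eq (by unfold B2; ring))
    · have h : 0 ≤ B2 (30959 / 100000000) (55373 / 2500000) (9199 / 1000000) (1193023 / 50000000) (462893 / 6250000) (62303 / 2500000) (953231 / 100000000) (298457 / 12500000) (42591 / 25000000) a b := B2_nonneg ha hb (by norm_num) (by norm_num) (by norm_num) (by norm_num) (by norm_num) (by norm_num) (by norm_num) (by norm_num) (by norm_num)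
      exact sub_nonneg.1 (h.trans_eq (by unfold B2; ring))
    · have h : 0 ≤ B1 (5381 / 25000) (19039 / 50000) (1087 / 25000) (10451 / 50000) a b := B1_nonneg ha hb (by norm_num) (by norm_num) (by norm_num) (by norm_num)
      exact sub_nonneg.1 (h.trans_eq (by unfold B1; ring))
    · have h : 0 ≤ B4 (377519317509956989 / 5000000000000000000) (6398013299093612101 / 20000000000000000000) (42653845007430730427 / 80000000000000000000) (130708238206342767227 / 320000000000000000000) (38299834641480391839 / 320000000000000000000) (6708712015143187383 / 20000000000000000000) (56071679468871035307 / 40000000000000000000) (738025926718808897351 / 320000000000000000000) (279718900018621100873 / 160000000000000000000) (162645916827110588723 / 320000000000000000000) (6178598727411504469 / 10000000000000000000) (203131741651906348739 / 80000000000000000000) (1309446905336499295257 / 320000000000000000000) (3796080372202511213 / 1250000000000000000) (277161477277800827219 / 320000000000000000000) (43887381139219813517 / 80000000000000000000) (22211757090368906563 / 10000000000000000000)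 (224046435063333084961 / 64000000000000000000) (405041226534399048867 / 160000000000000000000) (225076980087058428877 / 320000000000000000000) (15253130300341215473 / 80000000000000000000) (2444544832496501039 / 3200000000000000000) (378195816669252105191 / 320000000000000000000) (10680617584634186469 / 12800000000000000000) (36130792497443899271 / 160000000000000000000) a b := B4_nonneg ha hb (by norm_num) (by norm_num) (by norm_num) (by norm_num) (by norm_num) (by norm_num) (by norm_num) (by norm_num) (by norm_num) (by norm_num) (by norm_num) (by norm_num) (by norm_num) (by norm_num) (by norm_num) (by norm_num) (by norm_num) (by norm_num) (by norm_num) (by norm_num) (by norm_num) (by norm_num) (by norm_num) (by norm_num) (by norm_num)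
      exact sub_nonneg.1 (h.trans_eq (by unfold B4 Q4; ring))

theorem twod_18 {x y : ℝ} (h0 : 49 / 40 ≤ x) (h1 : x ≤ 31 / 20) (k0 : 23 / 20 ≤ y) (k1 : y ≤ 3 / 2) :
    CenXY x y ∨ TwoAny x y := by
  rcases le_total y (53 / 40) with h | h
  · exact twod_19 h0 h1 k0 h
  · exact Or.inr (twod_22 h0 h1 h k1)

theorem twod_2 {x y : ℝ} (h0 : 9 / 10 ≤ x) (h1 : x ≤ 31 / 20) (k0 : 23 / 20 ≤ y) (k1 : y ≤ 3 / 2) :
    CenXY x y ∨ TwoAny x y := by
  rcases le_total x (49 / 40) with h | h
  · exact twod_3 h0 h k0 k1
  · exact twod_18 h h1 k0 k1

theorem twod_24 {x y : ℝ} (h0 : 9 / 10 ≤ x) (h1 : x ≤ 49 / 40) (k0 : 3 / 2 ≤ y) (k1 : y ≤ 37 / 20) :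
    TwoAny x y := by
  obtain ⟨a, ha, rfl⟩ := affine01 h0 h1 (by norm_num)
  obtain ⟨b, hb, rfl⟩ := affine01 k0 k1 (by norm_num)
  refine ⟨3, by norm_num, ?_, ?_⟩
  · refine ⟨8 / 17, 8 / 15, 489957 / 1000000, 17 / 15, 17273 / 10000 + 483 / 2000 * a + 213 / 250 * b, 637 / 1250 + (-(873 / 5000)) * a + 1601 / 5000 * b, 10791 / 10000 + 241 / 2500 * a + 2243 / 10000 * b, (3 / 2 + (37 / 20 - 3 / 2) * b) - (9 / 10 + (49 / 40 - 9 / 10) * a), trigQ_5, ?_, ?_, ?_, ?_, ?_, ?_, ?_, ?_, ?_⟩
    · have h : 0 ≤ B1 (17273 / 10000) (25793 / 10000) (2461 / 1250) (1763 / 625) a b := B1_nonneg ha hb (by norm_num) (by norm_num) (by norm_num) (by norm_num)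
      exact sub_nonneg.1 (h.trans_eq (by unfold B1; ring))
    · have h : 0 ≤ B1 (12727 / 10000) (4207 / 10000) (1289 / 1250) (112 / 625) a b := B1_nonneg ha hb (by norm_num) (by norm_num) (by norm_num) (by norm_num)
      exact sub_nonneg.1 (h.trans_eq (by unfold B1; ring))
    · have h : 0 ≤ B1 (637 / 1250) (4149 / 5000) (67 / 200) (819 / 1250) a b := B1_nonneg ha hb (by norm_num) (by norm_num) (by norm_num) (by norm_num)
      exact sub_nonneg.1 (h.trans_eq (by unfold B1; ring))
    · have h : 0 ≤ B1 (10791 / 10000) (6517 / 5000) (2351 / 2000) (6999 / 5000) a b := B1_nonneg ha hb (by norm_num) (by norm_num) (by norm_num) (by norm_num)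
      exact sub_nonneg.1 (h.trans_eq (by unfold B1; ring))
    · exact le_abs_self _
    · have h : 0 ≤ B2 (172549 / 6250000) (62839 / 390625) (1337 / 12500000) (21167 / 250000) (10889479 / 25000000) (2115127 / 25000000) (27 / 160000) (321857 / 2000000) (2760671 / 100000000) a b := B2_nonneg ha hb (by norm_num) (by norm_num) (by norm_num) (by norm_num) (by norm_num) (by norm_num) (by norm_num) (by norm_num) (by norm_num)
      exact sub_nonneg.1 (h.trans_eq (by unfold B2; ring))
    · have h : 0 ≤ B2 (34319 / 100000000) (2652553 / 25000000) (310293 / 12500000) (341359 / 10000000) (737057 / 3125000) (249071 / 6250000) (97999 / 4000000) (555851 / 5000000) (71687 / 12500000) a b := B2_nonneg ha hb (by norm_num) (by norm_num) (by norm_num) (by norm_num) (by norm_num) (by norm_num) (by norm_num) (by norm_num) (by norm_num)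
      exact sub_nonneg.1 (h.trans_eq (by unfold B2; ring))
    · have h : 0 ≤ B1 (4074 / 10625) (8334 / 10625) (14627 / 85000) (48707 / 85000) a b := B1_nonneg ha hb (by norm_num) (by norm_num) (by norm_num) (by norm_num)
      exact sub_nonneg.1 (h.trans_eq (by unfold B1; ring))
    · have h : 0 ≤ B2 (19105834485253 / 200000000000000) (20610983031473 / 100000000000000) (58685251190493 / 200000000000000) (5773393095909 / 50000000000000) (1777148431511 / 6250000000000) (26728354162579 / 50000000000000) (1743735254707 / 18750000000000) (4206655629599 / 18750000000000) (184102354331 / 585937500000) a b := B2_nonneg ha hb (by norm_num) (by norm_num) (by norm_num) (by norm_num) (by norm_num) (by norm_num) (by norm_num) (by norm_num) (by norm_num)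
      exact sub_nonneg.1 (h.trans_eq (by unfold B2; ring))
  · refine ⟨8 / 17, 8 / 15, 489957 / 1000000, 17 / 15, 15417 / 10000 + 1349 / 10000 * a + 8551 / 10000 * b, 2911 / 5000 + (-(149 / 1000)) * a + 1669 / 5000 * b, 4947 / 5000 + 73 / 1250 * a + 2453 / 10000 * b, (3 / 2 + (37 / 20 - 3 / 2) * b) - (9 / 10 + (49 / 40 - 9 / 10) * a), trigQ_5, ?_, ?_, ?_, ?_, ?_, ?_, ?_, ?_, ?_⟩
    · have h : 0 ≤ B1 (15417 / 10000) (1498 / 625) (8383 / 5000) (25317 / 10000) a b := B1_nonneg ha hb (by norm_num) (by norm_num) (by norm_num) (by norm_num)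
      exact sub_nonneg.1 (h.trans_eq (by unfold B1; ring))
    · have h : 0 ≤ B1 (14583 / 10000) (377 / 625) (6617 / 5000) (4683 / 10000) a b := B1_nonneg ha hb (by norm_num) (by norm_num) (by norm_num) (by norm_num)
      exact sub_nonneg.1 (h.trans_eq (by unfold B1; ring))
    · have h : 0 ≤ B1 (2911 / 5000) (229 / 250) (1083 / 2500) (767 / 1000) a b := B1_nonneg ha hb (by norm_num) (by norm_num) (by norm_num) (by norm_num)
      exact sub_nonneg.1 (h.trans_eq (by unfold B1; ring))
    · have h : 0 ≤ B1 (4947 / 5000) (12347 / 10000) (5239 / 5000) (12931 / 10000) a b := B1_nonneg ha hb (by norm_num) (by norm_num) (by norm_num) (by norm_num)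
      exact sub_nonneg.1 (h.trans_eq (by unfold B1; ring))
    · exact le_abs_self _
    · have h : 0 ≤ B2 (818579 / 25000000) (218637 / 1250000) (119 / 1000000) (508637 / 6250000) (2234789 / 5000000) (81481 / 1000000) (3151 / 100000000) (1748337 / 10000000) (131019 / 4000000) a b := B2_nonneg ha hb (by norm_num) (by norm_num) (by norm_num) (by norm_num) (by norm_num) (by norm_num) (by norm_num) (by norm_num) (by norm_num)
      exact sub_nonneg.1 (h.trans_eq (by unfold B2; ring))
    · have h : 0 ≤ B2 (7191 / 25000000) (2694391 / 25000000) (1669091 / 100000000) (248917 / 12500000) (563941 / 2500000) (1203443 / 50000000) (405379 / 25000000) (2774491 / 25000000) (396739 / 100000000) a b := B2_nonneg ha hb (by norm_num) (by norm_num) (by norm_num) (by norm_num) (by norm_num) (by norm_num) (by norm_num) (by norm_num) (by norm_num)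
      exact sub_nonneg.1 (h.trans_eq (by unfold B2; ring))
    · have h : 0 ≤ B1 (3146 / 10625) (14843 / 21250) (2939 / 85000) (37143 / 85000) a b := B1_nonneg ha hb (by norm_num) (by norm_num) (by norm_num) (by norm_num)
      exact sub_nonneg.1 (h.trans_eq (by unfold B1; ring))
    · have h : 0 ≤ B4 (3134082026846408779 / 40000000000000000000) (31331805389588342681 / 96000000000000000000) (286668328600057334609 / 480000000000000000000) (6322891891741673903 / 12000000000000000000) (666385856995268981 / 3750000000000000000) (314876717647351623001 / 960000000000000000000) (220583678160606286973 / 160000000000000000000) (817770899579808225267 / 320000000000000000000) (182382279781278426991 / 80000000000000000000) (46493750622012659183 / 60000000000000000000) (506662221091869084833 / 960000000000000000000) (357774585321827501259 / 160000000000000000000) (1336009252723153580253 / 320000000000000000000) (449025476151312558361 / 120000000000000000000) (8161075612534237659 / 6400000000000000000) (94341639504220808171 / 240000000000000000000) (267877101557721552297 / 160000000000000000000)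 (2996266414108774266409 / 960000000000000000000) (111382188685170498667 / 40000000000000000000) (302267388554921260899 / 320000000000000000000) (27590771482012990039 / 240000000000000000000) (58849889060389825157 / 120000000000000000000) (289404899159541177411 / 320000000000000000000) (63643727105799892731 / 80000000000000000000) (85315351448680607213 / 320000000000000000000) a b := B4_nonneg ha hb (by norm_num) (by norm_num) (by norm_num) (by norm_num) (by norm_num) (by norm_num) (by norm_num) (by norm_num) (by norm_num) (by norm_num) (by norm_num) (by norm_num) (by norm_num) (by norm_num) (by norm_num) (by norm_num) (by norm_num) (by norm_num) (by norm_num) (by norm_num) (by norm_num) (by norm_num) (by norm_num) (by norm_num) (by norm_num)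
      exact sub_nonneg.1 (h.trans_eq (by unfold B4 Q4; ring))

theorem twod_25 {x y : ℝ} (h0 : 49 / 40 ≤ x) (h1 : x ≤ 31 / 20) (k0 : 3 / 2 ≤ y) (k1 : y ≤ 37 / 20) :
    TwoAny x y := by
  obtain ⟨a, ha, rfl⟩ := affine01 h0 h1 (by norm_num)
  obtain ⟨b, hb, rfl⟩ := affine01 k0 k1 (by norm_num)
  refine ⟨33 / 10, by norm_num, ?_, ?_⟩
  · refine ⟨8 / 17, 8 / 15, 489957 / 1000000, 17 / 15, 10249 / 5000 + 69 / 250 * a + 107 / 125 * b, 753 / 2500 + (-(753 / 2500)) * a + 1087 / 2500 * b, 6097 / 5000 + 499 / 5000 * a + 511 / 2500 * b, (3 / 2 + (37 / 20 - 3 / 2) * b) - (49 / 40 + (31 / 20 - 49 / 40) * a), trigQ_5, ?_, ?_, ?_, ?_, ?_, ?_, ?_, ?_, ?_⟩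
    · have h : 0 ≤ B1 (10249 / 5000) (14529 / 5000) (11629 / 5000) (15909 / 5000) a b := B1_nonneg ha hb (by norm_num) (by norm_num) (by norm_num) (by norm_num)
      exact sub_nonneg.1 (h.trans_eq (by unfold B1; ring))
    · have h : 0 ≤ B1 (6251 / 5000) (1971 / 5000) (4871 / 5000) (591 / 5000) a b := B1_nonneg ha hb (by norm_num) (by norm_num) (by norm_num) (by norm_num)
      exact sub_nonneg.1 (h.trans_eq (by unfold B1; ring))
    · have h : 0 ≤ B1 (753 / 2500) (92 / 125) (0) (1087 / 2500) a b := B1_nonneg ha hb (by norm_num) (by norm_num) (by norm_num) (by norm_num)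
      exact sub_nonneg.1 (h.trans_eq (by unfold B1; ring))
    · have h : 0 ≤ B1 (6097 / 5000) (7119 / 5000) (1649 / 1250) (3809 / 2500) a b := B1_nonneg ha hb (by norm_num) (by norm_num) (by norm_num) (by norm_num)
      exact sub_nonneg.1 (h.trans_eq (by unfold B1; ring))
    · exact le_abs_self _
    · have h : 0 ≤ B2 (10267231 / 100000000) (3225461 / 10000000) (791 / 4000000) (8799 / 40000) (21985037 / 25000000) (275093 / 1250000) (7 / 40000) (1613 / 5000) (642181 / 6250000) a b := B2_nonneg ha hb (by norm_num) (by norm_num) (by norm_num) (by norm_num) (by norm_num) (by norm_num) (by norm_num) (by norm_num) (by norm_num)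
      exact sub_nonneg.1 (h.trans_eq (by unfold B2; ring))
    · have h : 0 ≤ B2 (9091 / 25000000) (1196707 / 12500000) (287107 / 12500000) (26043 / 781250) (269863 / 1250000) (471833 / 12500000) (143821 / 6250000) (626461 / 6250000) (120451 / 25000000) a b := B2_nonneg ha hb (by norm_num) (by norm_num) (by norm_num) (by norm_num) (by norm_num) (by norm_num) (by norm_num) (by norm_num) (by norm_num)
      exact sub_nonneg.1 (h.trans_eq (by unfold B2; ring))
    · have h : 0 ≤ B1 (1051 / 5000) (52107 / 85000) (641 / 42500) (17761 / 42500) a b := B1_nonneg ha hb (by norm_num) (by norm_num) (by norm_num) (by norm_num)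
      exact sub_nonneg.1 (h.trans_eq (by unfold B1; ring))
    · have h : 0 ≤ B2 (8967659537621 / 150000000000000) (3911341199497 / 25000000000000) (15627465028587 / 50000000000000) (2766913100629 / 18750000000000) (5842621875293 / 18750000000000) (116366777409 / 195312500000) (31220686474811 / 150000000000000) (29689505110081 / 75000000000000) (60540331171751 / 150000000000000) a b := B2_nonneg ha hb (by norm_num) (by norm_num) (by norm_num) (by norm_num) (by norm_num) (by norm_num) (by norm_num) (by norm_num) (by norm_num)
      exact sub_nonneg.1 (h.trans_eq (by unfold B2; ring))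
  · refine ⟨8 / 17, 8 / 15, 489957 / 1000000, 17 / 15, 19789 / 10000 + 3149 / 10000 * a + 1173 / 2500 * b, 4491 / 10000 + (-(1289 / 10000)) * a + 1727 / 10000 * b, 119 / 100 + 61 / 500 * a + 683 / 10000 * b, (3 / 2 + (37 / 20 - 3 / 2) * b) - (49 / 40 + (31 / 20 - 49 / 40) * a), trigQ_5, ?_, ?_, ?_, ?_, ?_, ?_, ?_, ?_, ?_⟩
    · have h : 0 ≤ B1 (19789 / 10000) (24481 / 10000) (11469 / 5000) (2763 / 1000) a b := B1_nonneg ha hb (by norm_num) (by norm_num) (by norm_num) (by norm_num)
      exact sub_nonneg.1 (h.trans_eq (by unfold B1; ring))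
    · have h : 0 ≤ B1 (13211 / 10000) (8519 / 10000) (5031 / 5000) (537 / 1000) a b := B1_nonneg ha hb (by norm_num) (by norm_num) (by norm_num) (by norm_num)
      exact sub_nonneg.1 (h.trans_eq (by unfold B1; ring))
    · have h : 0 ≤ B1 (4491 / 10000) (3109 / 5000) (1601 / 5000) (4929 / 10000) a b := B1_nonneg ha hb (by norm_num) (by norm_num) (by norm_num) (by norm_num)
      exact sub_nonneg.1 (h.trans_eq (by unfold B1; ring))
    · have h : 0 ≤ B1 (119 / 100) (12583 / 10000) (164 / 125) (13803 / 10000) a b := B1_nonneg ha hb (by norm_num) (by norm_num) (by norm_num) (by norm_num)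
      exact sub_nonneg.1 (h.trans_eq (by unfold B1; ring))
    · exact le_abs_self _
    · have h : 0 ≤ B2 (14415147 / 50000000) (24978087 / 50000000) (15080851 / 100000000) (4137321 / 6250000) (2360503 / 2000000) (9934489 / 25000000) (4133087 / 12500000) (14866171 / 25000000) (20354959 / 100000000) a b := B2_nonneg ha hb (by norm_num) (by norm_num) (by norm_num) (by norm_num) (by norm_num) (by norm_num) (by norm_num) (by norm_num) (by norm_num)
      exact sub_nonneg.1 (h.trans_eq (by unfold B2; ring))
    · have h : 0 ≤ B2 (3 / 10000) (22373 / 500000) (915611 / 100000000) (1257 / 50000) (304767 / 2500000) (1309351 / 50000000) (2489 / 250000) (59241 / 1250000) (214691 / 100000000) a b := B2_nonneg ha hb (by norm_num) (by norm_num) (by norm_num) (by norm_num) (by norm_num) (by norm_num) (by norm_num) (by norm_num) (by norm_num)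
      exact sub_nonneg.1 (h.trans_eq (by unfold B2; ring))
    · have h : 0 ≤ B1 (15031 / 85000) (33799 / 85000) (1 / 42500) (1877 / 8500) a b := B1_nonneg ha hb (by norm_num) (by norm_num) (by norm_num) (by norm_num)
      exact sub_nonneg.1 (h.trans_eq (by unfold B1; ring))
    · have h : 0 ≤ B4 (37249804256483187421 / 960000000000000000000) (9289259856867342517 / 32000000000000000000) (55129807968245169139 / 80000000000000000000) (63532280235305469529 / 96000000000000000000) (71731032727883251237 / 320000000000000000000) (163294130071844338483 / 960000000000000000000) (153165720465348284183 / 120000000000000000000) (484414524630354355953 / 160000000000000000000) (174196240594529103511 / 60000000000000000000) (942684335381281455439 / 960000000000000000000) (51765029899804617123 / 160000000000000000000) (1092356115104868324817 / 480000000000000000000) (837880120188676967527 / 160000000000000000000) (789705826079002791529 / 160000000000000000000) (396269071538215972727 / 240000000000000000000) (73132546616857783937 / 240000000000000000000) (232136294439087445633 / 120000000000000000000)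 (84473516386453527043 / 20000000000000000000) (463159197157544911891 / 120000000000000000000) (60755247987792921319 / 48000000000000000000) (13498041610495573009 / 120000000000000000000) (77378261664966114173 / 120000000000000000000) (53015729899203816623 / 40000000000000000000) (27971391698643837671 / 24000000000000000000) (893799777001565593 / 2400000000000000000) a b := B4_nonneg ha hb (by norm_num) (by norm_num) (by norm_num) (by norm_num) (by norm_num) (by norm_num) (by norm_num) (by norm_num) (by norm_num) (by norm_num) (by norm_num) (by norm_num) (by norm_num) (by norm_num) (by norm_num) (by norm_num) (by norm_num) (by norm_num) (by norm_num) (by norm_num) (by norm_num) (by norm_num) (by norm_num) (by norm_num) (by norm_num)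
      exact sub_nonneg.1 (h.trans_eq (by unfold B4 Q4; ring))

theorem twod_23 {x y : ℝ} (h0 : 9 / 10 ≤ x) (h1 : x ≤ 31 / 20) (k0 : 3 / 2 ≤ y) (k1 : y ≤ 37 / 20) :
    CenXY x y ∨ TwoAny x y := by
  rcases le_total x (49 / 40) with h | h
  · exact Or.inr (twod_24 h0 h k0 k1)
  · exact Or.inr (twod_25 h h1 k0 k1)

theorem twod_1 {x y : ℝ} (h0 : 9 / 10 ≤ x) (h1 : x ≤ 31 / 20) (k0 : 23 / 20 ≤ y) (k1 : y ≤ 37 / 20) :
    CenXY x y ∨ TwoAny x y := by
  rcases le_total y (3 / 2) with h | h
  · exact twod_2 h0 h1 k0 h
  · exact twod_23 h0 h1 h k1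

theorem twod_top {x y : ℝ} (h0 : 9 / 10 ≤ x) (h1 : x ≤ 31 / 20) (k0 : 23 / 20 ≤ y) (k1 : y ≤ 37 / 20) :
    CenXY x y ∨ TwoAny x y :=
  twod_1 h0 h1 k0 k1

end Pool.Agent.Helper98.LC3
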