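import Pool.Agent.Helper98.LC3.S.Const

/-!
# LC3-S02: facts for one edge

For `h : EdgeOK ch l y` the structure `FaceFacts2` of `Pool/Agent/Helper38/LC2/Defs.lean` cannot be used directly (it wants `poly`); copy the proofs of `edge_quart`, `edge_sq`, `edge_half`, `edge_lin`
in `Pool/Agent/Helper38/LC2/Edge.lean` (they only use `ch_nonneg`, `ch_le`, `dido`; `trig1` is public).
(Alternatively: `F = {()}`, `E = Unit`, `a` so negative that `poly` ... does not work; copy the proofs.)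
* `edge1_sq`: `‖ch‖² + (4/3) (A0 y)² ≤ l²` if `l ≤ 3`.
* `edge1_half`: `2 π (A0 |y|) ≤ l²`.    * `edge1_lin`: `(2π/3) (A0 |y|) ≤ l` if `l ≤ 3`.
-/

namespace Pool.Agent.Helper98.LC3

open Finset Real Pool.Agent.Helper98.LC Pool.Agent.Helper38.LC2

theorem edge1_nonneg {ch : ℂ} {l y : ℝ} (h : EdgeOK ch l y) : 0 ≤ l := (norm_nonneg _).trans h.le

private theorem edge1_quart {ch : ℂ} {l y : ℝ} (h : EdgeOK ch l y) :
    12 * (A0 * y) ^ 2 ≤ l ^ 2 * (l ^ 2 - ‖ch‖ ^ 2) := by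
  have habs : (A0 * y) ^ 2 = (A0 * |y|) ^ 2 := by
    rw [mul_pow, mul_pow, sq_abs]
  rw [habs]
  have hx : 0 ≤ A0 * |y| := mul_nonneg A0_pos.le (abs_nonneg _)
  have hs := norm_nonneg ch
  have hsL := h.le
  have hd := h.dido
  generalize A0 * |y| = x at hx hd ⊢
  generalize l = L at hsL hd ⊢
  generalize ‖ch‖ = s at hs hsL hd ⊢
  have hpi := Real.pi_gt_three
  have hL : 0 ≤ L := hs.trans hsL
  rcases hL.eq_or_lt with h0 | hL0
  · subst h0
    have hs0 : s = 0 := le_antisymm hsL hs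
    subst hs0
    have h1 := hd 1 one_pos (by linarith)
    have h2 : x = 0 := by
      have h3 : ct 1 * (0 : ℝ) ^ 2 = 0 := by ring
      rw [h3] at h1
      norm_num at h1
      linarith
    subst h2
    norm_num
  · rcases hsL.eq_or_lt with hse | hslt
    · subst hse
      have hL2 : 0 < s ^ 2 := by positivity
      have key : ∀ θ : ℝ, 0 < θ → θ ≤ 1 → 8 * x ≤ s ^ 2 * θ := by
        intro θ h0 h1
        have h2 := hd θ h0 (by linarith)
        have h3 := trig1 h0 (by nlinarith)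
        have h4 : 0 < 1 - θ ^ 2 / 3 := by nlinarith
        have h5 : 1 - θ ^ 2 / 2 ≤ θ * ct θ := by
          by_contra hcon
          push Not at hcon
          have h6 : θ * ct θ * (1 - θ ^ 2 / 3) < (1 - θ ^ 2 / 2) * (1 - θ ^ 2 / 3) :=
            mul_lt_mul_of_pos_right hcon h4
          have h7 : θ ^ 4 ≤ θ ^ 2 := by
            have h8 : θ ^ 2 ≤ 1 := by nlinarith
            nlinarith [sq_nonneg θ]
          nlinarith
        have h6 : 4 * x * θ ≤ s ^ 2 * (1 - θ * ct θ) := by nlinarith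
        have h7 : s ^ 2 * (1 - θ * ct θ) ≤ s ^ 2 * (θ ^ 2 / 2) :=
          mul_le_mul_of_nonneg_left (by linarith) hL2.le
        have h8 : θ * (8 * x) ≤ θ * (s ^ 2 * θ) := by nlinarith
        exact le_of_mul_le_mul_left h8 h0
      have hx0 : x = 0 := by
        by_contra hne
        have hxp : 0 < x := lt_of_le_of_ne hx (Ne.symm hne)
        have h1 := key (min 1 (4 * x / s ^ 2)) (lt_min one_pos (by positivity)) (min_le_left _ _)
        have h2 : s ^ 2 * min 1 (4 * x / s ^ 2) ≤ s ^ 2 * (4 * x / s ^ 2) :=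
          mul_le_mul_of_nonneg_left (min_le_right _ _) hL2.le
        rw [mul_div_cancel₀ _ hL2.ne'] at h2
        linarith
      subst hx0
      norm_num
    · have hL2 : 0 < L ^ 2 := by positivity
      have hsq : s ^ 2 < L ^ 2 := by nlinarith
      obtain ⟨u, hu⟩ : ∃ u : ℝ, u = s ^ 2 / L ^ 2 := ⟨_, rfl⟩
      have hu0 : 0 ≤ u := by rw [hu]; positivity
      have hu1 : u < 1 := by rw [hu, div_lt_one hL2]; exact hsq
      have huL : u * L ^ 2 = s ^ 2 := by rw [hu, div_mul_cancel₀ _ hL2.ne']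
      obtain ⟨θ, hθ⟩ : ∃ θ : ℝ, θ = √(3 * (1 - u)) := ⟨_, rfl⟩
      have hθ0 : 0 < θ := by rw [hθ]; exact Real.sqrt_pos.2 (by linarith)
      have hθ2 : θ ^ 2 = 3 * (1 - u) := by rw [hθ]; exact Real.sq_sqrt (by linarith)
      have hθ3 : θ < π := by nlinarith
      have h2 := hd θ hθ0 hθ3
      have h3 := trig1 hθ0 (by linarith)
      have h4 : 1 - θ ^ 2 / 3 = u := by rw [hθ2]; ring
      rw [h4] at h3
      have h5 : L ^ 2 * (1 - θ * ct θ * u) ≤ L ^ 2 * (2 / 3 * θ ^ 2) :=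
        mul_le_mul_of_nonneg_left h3 hL2.le
      have h6 : L ^ 2 * (1 - θ * ct θ * u) = L ^ 2 - θ * ct θ * s ^ 2 := by
        rw [← huL]; ring
      have h7 : θ * (6 * x) ≤ θ * (L ^ 2 * θ) := by nlinarith
      have h8 : 6 * x ≤ L ^ 2 * θ := le_of_mul_le_mul_left h7 hθ0
      have h9 : (6 * x) ^ 2 ≤ (L ^ 2 * θ) ^ 2 := pow_le_pow_left₀ (by linarith) h8 2
      have h10 : (L ^ 2 * θ) ^ 2 = 3 * (L ^ 2 * (L ^ 2 - s ^ 2)) := by
        rw [mul_pow, hθ2, ← huL]; ring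
      nlinarith

theorem edge1_sq {ch : ℂ} {l y : ℝ} (h : EdgeOK ch l y) (hl : l ≤ 3) :
    ‖ch‖ ^ 2 + 4 / 3 * (A0 * y) ^ 2 ≤ l ^ 2 := by
  have h1 := edge1_quart h
  have hs := norm_nonneg ch
  have hsL := h.le
  have h2 : 0 ≤ l ^ 2 - ‖ch‖ ^ 2 := by nlinarith
  have h3 : l ^ 2 ≤ 9 := by nlinarith
  have h4 : l ^ 2 * (l ^ 2 - ‖ch‖ ^ 2) ≤ 9 * (l ^ 2 - ‖ch‖ ^ 2) :=
    mul_le_mul_of_nonneg_right h3 h2
  linarith

theorem edge1_half {ch : ℂ} {l y : ℝ} (h : EdgeOK ch l y) : 2 * π * (A0 * |y|) ≤ l ^ 2 := by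
  have h1 := h.dido (π / 2) (by positivity) (by linarith [Real.pi_pos])
  have h2 : ct (π / 2) = 0 := by
    unfold ct
    rw [Real.cos_pi_div_two, zero_div]
  rw [h2] at h1
  linarith

theorem edge1_lin {ch : ℂ} {l y : ℝ} (h : EdgeOK ch l y) (hl : l ≤ 3) :
    2 * π / 3 * (A0 * |y|) ≤ l := by
  have h1 := edge1_half h
  have h2 : 0 ≤ l := edge1_nonneg h
  have h3 : l ^ 2 ≤ 3 * l := by nlinarith
  linarith

end Pool.Agent.Helper98.LC3
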