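import Pool.Agent.Helper98.LC3.S.Edge1
import Pool.Agent.Helper98.LC3.S.Geom

/-!
# LC3-S07: tiny polygons

`v = ‖b1 + b2‖ ≤ 11/20`, `d = ‖D‖ ≤ 3/100`, `m = min 1 a`, `X = A0 (y1 + .. + y4)`, `x = A0 yO`.
`iso`: `(L + Lin)² ≥ 4 π A0 a ≥ 32.64 a`, so `L + Lin ≥ 5.713 √a`.  If `a ≤ 1`: `L + Lin ≤ 15 a + a/20`, so `√a ≥ .3796`, `m ≥ .144`; if `a ≥ 1`: `m = 1`.
`H = (Lin + be X)/2`, `be X = 3 a - be (pent + x)`.  `be = 2/√3 ≤ 1.15471`.  So
`H + L ≥ (5.713 √a - L)/2 + (3a - be pent - be x)/2 + L = 2.8565 √a + 1.5 a - (be/2) pent + L/2 - (be/2) x`, and `x ≤ L²/(2π)` (`edge1_half`), `L ≤ 3.1`: `L/2 - (be/2) x ≥ L/2 - .0919 L² ≥ 0`.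
`2.8565 √a + 1.5 a ≥ 4.356 m` (`√a ≥ m`, `a ≥ m`).
`pent ≤ 1.7 m`: `pent_eq`; `|cr N M| ≤ ‖N‖ ‖M‖ ≤ ((d + v)/2) (3m) ≤ .29 * 3 m = .87 m` (`‖M‖ ≤ (‖s1‖ + ‖s2‖)/2 ≤ 3m`); `cr b1 b2 = cr (b1 + b2) b2`, `|cr b1 b2|/2 ≤ v * 3m / 2 ≤ .825 m`.
`(be/2) pent ≤ .5774 * 1.695 m ≤ .979 m`.
`c0 ‖D‖ ≤ .0158`, `ga (‖s1‖ + ‖s2‖) ≤ .0269 * 6 m = .1614 m`.
So `H + L - 3 m - c0 d - ga (‖s1‖ + ‖s2‖) ≥ (4.356 - 3 - .979 - .162) m - .0158 = .215 m - .0158 ≥ .0309 - .0158 ≥ .01`.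
-/

namespace Pool.Agent.Helper98.LC3

open Finset Real Pool.Agent.Helper98.LC Pool.Agent.Helper38.LC2

variable {a : ℝ} {D s1 b1 b2 s2 : ℂ} {L l1 l2 l3 l4 yO y1 y2 y3 y4 : ℝ}

private theorem nsq (z : ℂ) : ‖z‖ ^ 2 = z.re ^ 2 + z.im ^ 2 := by
  rw [Complex.sq_norm, Complex.normSq_apply]
  ring

private theorem cr_le (x y : ℂ) : cr x y ≤ ‖x‖ * ‖y‖ := by
  have h : |cr x y| ≤ ‖x‖ * ‖y‖ := by
    apply abs_le_of_sq_le_sq _ (by positivity)
    rw [mul_pow, nsq, nsq]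
    simp only [cr]
    nlinarith [sq_nonneg (x.re * y.re + x.im * y.im)]
  exact (le_abs_self _).trans h

private theorem s3_lb : 1.7320508 < √3 := by
  rw [Real.lt_sqrt (by norm_num)]
  norm_num

private theorem s3_ub : √3 < 1.7320509 := by
  rw [Real.sqrt_lt' (by norm_num)]
  norm_num

private theorem norm_half (z : ℂ) : ‖z / 2‖ = ‖z‖ / 2 := by
  rw [norm_div]
  norm_num

theorem tiny41 (h : Face41 a D s1 b1 b2 s2 L l1 l2 l3 l4 yO y1 y2 y3 y4)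
    (hv : ‖b1 + b2‖ ≤ 11 / 20) (hd : ‖D‖ ≤ 3 / 100) :
    3 * min 1 a + c0 * ‖D‖ + ga * (‖s1‖ + ‖s2‖) + 1 / 100 ≤ HH l1 l2 l3 l4 y1 y2 y3 y4 + L := by
  have hpi := Real.pi_gt_d6
  have hpi2 := Real.pi_lt_d6
  have h3a := s3_lb
  have h3b := s3_ub
  have hsq : √3 * √3 = 3 := Real.mul_self_sqrt (by norm_num)
  have hA0 : A0 = 3 * √3 / 2 := rfl
  have hA0l : 2.598076 < A0 := by rw [hA0]; linarith
  have hA0u : A0 < 2.598077 := by rw [hA0]; linarith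
  have ha := h.pos
  have ha2 := h.lt
  have hm1 : min 1 a ≤ 1 := min_le_left 1 a
  have hm2 : min 1 a ≤ a := min_le_right 1 a
  have hm0 : 0 < min 1 a := lt_min one_pos ha
  have hcapO := h.capO
  have hcap1 := h.cap1
  have hcap2 := h.cap2
  have hcap3 := h.cap3
  have hcap4 := h.cap4
  have hL0 := edge1_nonneg h.eO
  have hl1 := edge1_nonneg h.e1
  have hl2 := edge1_nonneg h.e2
  have hl3 := edge1_nonneg h.e3
  have hl4 := edge1_nonneg h.e4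
  have hs1 := h.e1.le.trans hcap1
  have hb2 := h.e3.le.trans hcap3
  have hs2 := h.e4.le.trans hcap4
  have hyO := edge1_half h.eO
  have harea := h.area
  have hiso := h.iso
  have hpent := pent_eq h.sum
  have hcase : min 1 a = 1 ∨ min 1 a = a := by
    rcases le_total 1 a with h | h
    · exact Or.inl (min_eq_left h)
    · exact Or.inr (min_eq_right h)
  generalize min 1 a = m at *
  have hk : 32.64 < 4 * π * A0 := by nlinarith
  -- the perimeter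
  obtain ⟨T, hT⟩ : ∃ T : ℝ, T = L + l1 + l2 + l3 + l4 := ⟨_, rfl⟩
  have hT0 : 0 ≤ T := by rw [hT]; positivity
  have hT2 : 32.64 * a ≤ T ^ 2 := by
    rw [hT]
    have : 32.64 * a ≤ 4 * π * A0 * a := mul_le_mul_of_nonneg_right hk.le ha.le
    linarith
  have hTm : 5.713 * m ≤ T := by
    apply le_of_sq_le_sq _ hT0
    nlinarith
  have hm144 : 0.144 ≤ m := by
    rcases hcase with h1 | h1
    · rw [h1]; norm_num
    · rw [← h1] at hT2 hcapO
      have hTu : T ≤ 15.05 * m := by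
        rw [hT]
        linarith
      have h2 : T ^ 2 ≤ (15.05 * m) ^ 2 := pow_le_pow_left₀ hT0 hTu 2
      by_contra hcon
      push Not at hcon
      nlinarith
  -- the pentagon
  have hN : ‖(D - (b1 + b2)) / 2‖ ≤ 0.29 := by
    rw [norm_half]
    have := norm_sub_le D (b1 + b2)
    linarith
  have hM : ‖(s1 - s2) / 2‖ ≤ 3 * m := by
    rw [norm_half]
    have := norm_sub_le s1 s2
    linarith
  have hc1 : cr ((D - (b1 + b2)) / 2) ((s1 - s2) / 2) ≤ 0.29 * (3 * m) :=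
    (cr_le _ _).trans (mul_le_mul hN hM (norm_nonneg _) (by norm_num))
  have hc2 : cr b1 b2 ≤ 11 / 20 * (3 * m) := by
    have h1 : cr b1 b2 = cr (b1 + b2) b2 := by
      simp only [cr, Complex.add_re, Complex.add_im]
      ring
    rw [h1]
    exact (cr_le _ _).trans (mul_le_mul hv hb2 (norm_nonneg _) (by norm_num))
  have hpu : pent D s1 b1 b2 ≤ 1.695 * m := by
    rw [hpent]
    linarith
  -- the outer bulge
  have hL3 : L ≤ 3.1 := by linarith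
  have hyO2 : 3 * yO ≤ L := by
    have h1 : yO ≤ |yO| := le_abs_self yO
    have h2 : 0 ≤ |yO| := abs_nonneg yO
    have h3 : 16.32 * |yO| ≤ L ^ 2 := by
      have : 16.32 * |yO| ≤ 2 * π * A0 * |yO| :=
        mul_le_mul_of_nonneg_right (by linarith) h2
      linarith
    have h4 : L ^ 2 ≤ 3.1 * L := by nlinarith
    linarith
  -- the sum of the bulges
  have hsum : 3 * (y1 + y2 + y3 + y4) = 3 * a - 3 * yO - 2 * (√3 / 3) * pent D s1 b1 b2 := by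
    have h1 : A0 * (a - (yO + y1 + y2 + y3 + y4)) = pent D s1 b1 b2 := by linarith
    rw [← h1, hA0]
    linear_combination (a - (yO + y1 + y2 + y3 + y4)) * hsq
  have hpp : 2 * (√3 / 3) * pent D s1 b1 b2 ≤ 1.9575 * m := by
    have h1 : 2 * (√3 / 3) * pent D s1 b1 b2 ≤ 2 * (√3 / 3) * (1.695 * m) :=
      mul_le_mul_of_nonneg_left hpu (by positivity)
    have h2 : 2 * (√3 / 3) * (1.695 * m) ≤ 1.1548 * (1.695 * m) :=
      mul_le_mul_of_nonneg_right (by linarith) (by positivity)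
    nlinarith
  have hc0 : c0 * ‖D‖ ≤ 0.5235989 * (3 / 100) :=
    mul_le_mul c0_num.2.le hd (norm_nonneg _) (by norm_num)
  have hga : ga * (‖s1‖ + ‖s2‖) ≤ 0.026876 * (6 * m) :=
    mul_le_mul ga_num.2.le (by linarith) (by positivity) (by norm_num)
  unfold HH
  rw [hsum]
  linarith

end Pool.Agent.Helper98.LC3
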