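import Pool.Agent.Helper98.LC3.S.Base
import Pool.Agent.Helper98.LC3.S.Tiny
import Pool.Agent.Helper98.LC3.S.Arcq
import Pool.Agent.Helper98.LC3.S.FarN
import Pool.Agent.Helper98.LC3.S.FarA
import Pool.Agent.Helper98.LC3.S.FarB

/-!
# LC3-S11: faces far from the optimal one

`V = -(b1 + b2)`, `v = ‖V‖ = √3 y`, `d = ‖D‖ = √3 x`, `m = min 1 a`, `U = (s1 + s2)/2 = (V - D)/2`, `N = (D + V)/2`, `w = (‖s1‖ + ‖s2‖)/2`.
* `far_one`: `FarAny C x y` gives `θ`, `t, ρ, ζ, g`.  `base_far` with `τ = √3 t`, `z = √3 ζ`, `ρ_ = √3 ρ`, `u = (√3/2) |y - x|`: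
  `rr τ = (√3/2)(1 + t²)` (`rr_eq`); `τ - 2 rr ga = √3 (t - (1 + t²) ga) ≥ √3 (t - .026876 (1 + t²)) ≥ 0` (`ga_num`); `‖N‖² = (3/4)(x² + y²) + ip D V/2 ≤ (3/4)(x² + y² + 2 C x y)`
  (`ip D V ≤ C * 3 x y`); `u ≤ |v - d|/2 ≤ ‖U‖`; `ip N U = (v² - d²)/4`, `|ip N U| = (3/4)|y - x|(x + y) ≥ u (√3/2)(x + y) ≥ u ‖N‖`.
  Conclusion times `2/3`, with `arc_q` (`q = t²`; `L ≤ 3 m + a/20 ≤ 3.1`), `√3 ≤ 1.7320509`, `c0 ≤ .5235989`:
  `1/2000 ≤ (2/3) rr τ (HH + L - 3m - ga (‖s1‖ + ‖s2‖) - c0 ‖D‖)`; `rr τ ≤ (√3/2) * 17 ≤ 14.73` (`t ≤ 4`), `1/2000 ≥ (2/3) * 14.73 / 20000`.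
* `far41`: `x = ‖D‖/√3`, `y = v/√3`; `d ≤ L ≤ 3.1` so `x ≤ 179/100`; `v ≤ l2 + l3 ≤ 6`, so `y ≤ 347/100`.  If `x ∈ [1/4, 31/20]` and `y ∈ [9/20, 37/20]`: then `ip D V < (3/5)‖D‖‖V‖`: `fn_top0`, `C = 3/5`.
  Otherwise `C = 1` (`ip D V ≤ ‖D‖ ‖V‖`): `x ≤ 1/4`, `y ≥ 63/200`: `fa_top0`;  `17/1000 ≤ x ≤ 1/4`, `y ≤ 63/200`: `fa_top1`;  `x ≤ 17/1000`, `y ≤ 63/200`: `tiny41` (`√3 * 17/1000 ≤ 3/100`, `√3 * 63/200 ≤ 11/20`);
  `x ≥ 1/4`: `y ≤ 9/20`: `fb_top0`; `y ≥ 37/20`: `fb_top1`; `x ≥ 31/20`: `fb_top2`.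
-/

namespace Pool.Agent.Helper98.LC3

open Finset Real Pool.Agent.Helper98.LC Pool.Agent.Helper38.LC2

variable {a : ℝ} {D s1 b1 b2 s2 : ℂ} {L l1 l2 l3 l4 yO y1 y2 y3 y4 : ℝ}

private theorem f_s3 : (√3 : ℝ) ^ 2 = 3 := Real.sq_sqrt (by norm_num)

private theorem f_s3p : (0 : ℝ) < √3 := Real.sqrt_pos.2 (by norm_num)

private theorem f_s3_lb : 1.7320508 < √3 := by
  rw [Real.lt_sqrt (by norm_num)]
  norm_num

private theorem f_s3_ub : √3 < 1.7320509 := by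
  rw [Real.sqrt_lt' (by norm_num)]
  norm_num

private theorem f_nsq (z : ℂ) : ‖z‖ ^ 2 = z.re ^ 2 + z.im ^ 2 := by
  rw [Complex.sq_norm, Complex.normSq_apply]
  ring

private theorem f_half (z : ℂ) : ‖z / 2‖ = ‖z‖ / 2 := by
  rw [norm_div]
  norm_num

private theorem f_ip_le (a b : ℂ) : ip a b ≤ ‖a‖ * ‖b‖ := by
  have h1 : ip a b = ((starRingEnd ℂ) a * b).re := by
    simp [ip, Complex.mul_re]
  rw [h1]
  refine (Complex.re_le_norm _).trans ?_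
  rw [norm_mul, Complex.norm_conj]

/-- `‖N‖²` -/
private theorem f_N (D B : ℂ) :
    ‖(D - B) / 2‖ ^ 2 = (‖D‖ ^ 2 + ‖B‖ ^ 2 + 2 * ip D (-B)) / 4 := by
  rw [f_half, div_pow, f_nsq, f_nsq D, f_nsq B]
  simp only [ip, Complex.sub_re, Complex.sub_im, Complex.neg_re, Complex.neg_im]
  ring

/-- `ip N U` -/
private theorem f_NU (D B U : ℂ) (hU : U = -(D + B)) :
    ip ((D - B) / 2) (U / 2) = (‖B‖ ^ 2 - ‖D‖ ^ 2) / 4 := by
  subst hU
  rw [f_nsq D, f_nsq B]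
  simp only [ip, Complex.div_ofNat_re, Complex.div_ofNat_im, Complex.sub_re, Complex.sub_im,
    Complex.neg_re, Complex.neg_im, Complex.add_re, Complex.add_im]
  ring

private theorem f_rr (t : ℝ) : rr (√3 * t) = √3 / 2 * (1 + t ^ 2) := by
  rw [rr_eq, mul_pow, f_s3]
  ring

private theorem f_fin {R Y : ℝ} (hR0 : 0 < R) (hR : R ≤ 14.73) (h : 1 / 2000 ≤ 2 / 3 * (R * Y)) :
    1 / 20000 ≤ Y := by
  by_contra hc
  push Not at hc
  have h1 : R * Y < R * (1 / 20000) := mul_lt_mul_of_pos_left hc hR0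
  norm_num at h1 hR h
  linarith

private theorem f_L (h : Face41 a D s1 b1 b2 s2 L l1 l2 l3 l4 yO y1 y2 y3 y4) : L ≤ 31 / 10 := by
  have h1 := h.capO
  have h2 := h.lt
  have h3 : min 1 a ≤ 1 := min_le_left _ _
  linarith

/-- near the optimal polygon -/
def Near41 (D V : ℂ) : Prop :=
  √3 * (1 / 4) ≤ ‖D‖ ∧ ‖D‖ ≤ √3 * (31 / 20) ∧ √3 * (9 / 20) ≤ ‖V‖ ∧ ‖V‖ ≤ √3 * (37 / 20) ∧
    3 / 5 * (‖D‖ * ‖V‖) ≤ ip D V

theorem far_one (h : Face41 a D s1 b1 b2 s2 L l1 l2 l3 l4 yO y1 y2 y3 y4) {C x y : ℝ}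
    (hx0 : 0 ≤ x) (hy0 : 0 ≤ y) (hx : ‖D‖ = √3 * x) (hy : ‖b1 + b2‖ = √3 * y)
    (hC : ip D (-(b1 + b2)) ≤ C * (3 * (x * y))) (hF : FarAny C x y) :
    3 * min 1 a + c0 * ‖D‖ + ga * (‖s1‖ + ‖s2‖) + 1 / 20000 ≤ HH l1 l2 l3 l4 y1 y2 y3 y4 + L := by
  obtain ⟨s, T, th, sec, hT, t, ρ, ζ, g, ht0, ht4, hte, hρ0, hζ0, hg, hρ, hζ, hs, hfin⟩ := hF
  have h3 := f_s3
  have h3p := f_s3p
  have h3l := f_s3_lb
  have h3u := f_s3_ub
  have hga := ga_num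
  have hc0 := c0_num
  have hL := f_L h
  have hq : 0 ≤ t ^ 2 := sq_nonneg t
  have harc := arc_q h.eO hL hT hq hx hs
  have hrr := f_rr t
  -- the number `te`
  have hte1 : √3 * (t - 6719 / 250000 * (1 + t ^ 2)) ≤ √3 * t - 2 * rr (√3 * t) * ga := by
    rw [hrr]
    have e1 : √3 * t - 2 * (√3 / 2 * (1 + t ^ 2)) * ga -
        √3 * (t - 6719 / 250000 * (1 + t ^ 2)) = √3 * (1 + t ^ 2) * (6719 / 250000 - ga) := by
      ring
    have e2 : 0 ≤ √3 * (1 + t ^ 2) * (6719 / 250000 - ga) := by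
      apply mul_nonneg (by positivity)
      have := hga.2
      norm_num at this
      linarith
    linarith
  have hte0 : 0 ≤ √3 * (t - 6719 / 250000 * (1 + t ^ 2)) := mul_nonneg h3p.le hte
  have hte2 : 3 * (t - 6719 / 250000 * (1 + t ^ 2)) ^ 2 ≤
      (√3 * t - 2 * rr (√3 * t) * ga) ^ 2 := by
    have e1 := pow_le_pow_left₀ hte0 hte1 2
    rw [mul_pow, h3] at e1
    exact e1
  have hsum : s1 + s2 = -(D + (b1 + b2)) := by
    linear_combination h.sum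
  have hyx : |‖b1 + b2‖ - ‖D‖| = √3 * |y - x| := by
    rw [hx, hy, ← mul_sub, abs_mul, abs_of_pos h3p]
  have hN1 : ‖(D - (b1 + b2)) / 2‖ ≤ √3 / 2 * (x + y) := by
    rw [f_half]
    have := norm_sub_le D (b1 + b2)
    rw [hx, hy] at this
    linarith
  have habs : 0 ≤ |y - x| := abs_nonneg _
  have hb := base_far h (τ := √3 * t) (z := √3 * ζ) (ρ := √3 * ρ) (u := √3 / 2 * |y - x|)
    (by positivity) (hte0.trans hte1) (by positivity)
    (by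
      rw [hy, mul_pow, mul_pow, mul_pow, h3]
      linarith)
    (by positivity)
    (by
      rw [f_N, hx, hy]
      rw [mul_pow, mul_pow, mul_pow, h3]
      refine le_trans ?_ hte2
      linarith)
    (by
      rw [f_NU D (b1 + b2) (s1 + s2) hsum]
      have e1 : (‖b1 + b2‖ ^ 2 - ‖D‖ ^ 2) / 4 = 3 / 4 * ((y - x) * (x + y)) := by
        rw [hx, hy, mul_pow, mul_pow, h3]
        ring
      rw [e1, abs_mul, abs_mul, abs_of_nonneg (by linarith : (0 : ℝ) ≤ x + y),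
        abs_of_pos (by norm_num : (0 : ℝ) < 3 / 4)]
      have e2 := mul_le_mul_of_nonneg_left hN1 (by positivity : 0 ≤ √3 / 2 * |y - x|)
      have e3 : √3 / 2 * |y - x| * (√3 / 2 * (x + y)) = 3 / 4 * (|y - x| * (x + y)) := by
        linear_combination |y - x| * (x + y) / 4 * h3
      linarith)
    (by
      rw [f_half, hsum, norm_neg]
      have e1 := abs_norm_sub_norm_le (-(b1 + b2)) D
      rw [norm_neg, hyx] at e1
      have e2 : ‖-(b1 + b2) - D‖ = ‖D + (b1 + b2)‖ := by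
        rw [← norm_neg]
        congr 1
        ring
      rw [e2] at e1
      linarith)
  rw [hrr, hy] at hb
  -- the sum
  have hρg : ρ * g ≤ ρ * |y - x| := mul_le_mul_of_nonneg_left hg hρ0
  have e1 : √3 * ρ * (√3 / 2 * |y - x|) = 3 / 2 * (ρ * |y - x|) := by
    linear_combination ρ * |y - x| / 2 * h3
  have e2 : √3 * y * (√3 * ζ) / 2 = 3 / 2 * (y * ζ) := by
    linear_combination y * ζ / 2 * h3
  have e3 : √3 / 2 * (√3 * t) ^ 2 = 3 / 2 * (√3 * t ^ 2) := by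
    rw [mul_pow, h3]
    ring
  rw [e1, e2, e3] at hb
  have e4 : √3 * t ^ 2 ≤ 17320509 / 10000000 * t ^ 2 := by
    apply mul_le_mul_of_nonneg_right _ hq
    norm_num at h3u
    linarith
  have e5 : (1 + t ^ 2) * x * c0 ≤ (1 + t ^ 2) * x * (5235989 / 10000000) := by
    apply mul_le_mul_of_nonneg_left _ (by positivity)
    have := hc0.2
    norm_num at this
    linarith
  obtain ⟨X, hX⟩ : ∃ X, X = HH l1 l2 l3 l4 y1 y2 y3 y4 + L - 3 * min 1 a -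
    ga * (‖s1‖ + ‖s2‖) := ⟨_, rfl⟩
  rw [← hX] at hb
  have e6 : √3 / 2 * (1 + t ^ 2) * (X - c0 * ‖D‖) =
      √3 / 2 * (1 + t ^ 2) * X - 3 / 2 * ((1 + t ^ 2) * x * c0) := by
    rw [hx]
    linear_combination -((1 + t ^ 2) * x * c0 / 2) * h3
  have h7 : 1 / 20000 ≤ X - c0 * ‖D‖ := by
    apply f_fin (R := √3 / 2 * (1 + t ^ 2)) (by positivity)
    · have e7 : t ^ 2 ≤ 16 := by nlinarith
      have e8 : √3 / 2 * (1 + t ^ 2) ≤ √3 / 2 * (1 + 16) :=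
        mul_le_mul_of_nonneg_left (by linarith) (by positivity)
      norm_num at h3u ⊢
      linarith
    · rw [e6]
      linarith
  linarith

theorem far41 (h : Face41 a D s1 b1 b2 s2 L l1 l2 l3 l4 yO y1 y2 y3 y4)
    (hn : ¬ Near41 D (-(b1 + b2))) :
    3 * min 1 a + c0 * ‖D‖ + ga * (‖s1‖ + ‖s2‖) + 1 / 20000 ≤ HH l1 l2 l3 l4 y1 y2 y3 y4 + L := by
  have h3 := f_s3
  have h3p := f_s3p
  have h3l := f_s3_lb
  have h3u := f_s3_ub
  have hL := f_L h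
  norm_num at h3l h3u
  have hdL := h.eO.le
  have hm : min 1 a ≤ 1 := min_le_left _ _
  have hv : ‖b1 + b2‖ ≤ 6 := by
    have e1 := norm_add_le b1 b2
    have e2 := h.e2.le
    have e3 := h.e3.le
    have e4 := h.cap2
    have e5 := h.cap3
    linarith
  obtain ⟨x, hx⟩ : ∃ x : ℝ, x = ‖D‖ / √3 := ⟨_, rfl⟩
  obtain ⟨y, hy⟩ : ∃ y : ℝ, y = ‖b1 + b2‖ / √3 := ⟨_, rfl⟩
  have hx0 : 0 ≤ x := by rw [hx]; positivity
  have hy0 : 0 ≤ y := by rw [hy]; positivity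
  have hx' : ‖D‖ = √3 * x := by rw [hx, mul_div_cancel₀ _ h3p.ne']
  have hy' : ‖b1 + b2‖ = √3 * y := by rw [hy, mul_div_cancel₀ _ h3p.ne']
  have hx1 : x ≤ 179 / 100 := by
    rw [hx, div_le_iff₀ h3p]
    linarith
  have hy1 : y ≤ 347 / 100 := by
    rw [hy, div_le_iff₀ h3p]
    linarith
  have hC1 : ip D (-(b1 + b2)) ≤ 1 * (3 * (x * y)) := by
    have e1 := f_ip_le D (-(b1 + b2))
    rw [norm_neg, hx', hy'] at e1
    have e2 : √3 * x * (√3 * y) = 1 * (3 * (x * y)) := by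
      linear_combination x * y * h3
    linarith
  rcases le_total x (1 / 4) with hxa | hxa
  · rcases le_total (63 / 200) y with hya | hya
    · exact far_one h hx0 hy0 hx' hy' hC1 (fa_top0 hx0 hxa hya hy1)
    · rcases le_total (17 / 1000) x with hxb | hxb
      · exact far_one h hx0 hy0 hx' hy' hC1 (fa_top1 hxb hxa hy0 hya)
      · have e1 := tiny41 h (by rw [hy']; nlinarith) (by rw [hx']; nlinarith)
        linarith
  · rcases le_total y (9 / 20) with hya | hya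
    · exact far_one h hx0 hy0 hx' hy' hC1 (fb_top0 hxa hx1 hy0 hya)
    · rcases le_total (37 / 20) y with hyb | hyb
      · exact far_one h hx0 hy0 hx' hy' hC1 (fb_top1 hxa hx1 hyb hy1)
      · rcases le_total (31 / 20) x with hxb | hxb
        · exact far_one h hx0 hy0 hx' hy' hC1 (fb_top2 hxb hx1 hya hyb)
        · have hC : ip D (-(b1 + b2)) ≤ 3 / 5 * (3 * (x * y)) := by
            by_contra hc
            push Not at hc
            apply hn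
            rw [Near41, norm_neg, hx', hy']
            refine ⟨mul_le_mul_of_nonneg_left hxa h3p.le, mul_le_mul_of_nonneg_left hxb h3p.le,
              mul_le_mul_of_nonneg_left hya h3p.le, mul_le_mul_of_nonneg_left hyb h3p.le, ?_⟩
            have e2 : √3 * x * (√3 * y) = 3 * (x * y) := by
              linear_combination x * y * h3
            rw [e2]
            exact hc.le
          exact far_one h hx0 hy0 hx' hy' hC (fn_top0 hxa hxb hya hyb)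

end Pool.Agent.Helper98.LC3
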