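import Pool.Agent.Helper98.LC3.S.TwoBase
import Pool.Agent.Helper98.LC3.S.Const

/-!
# LC3-S20: the one-sided inequality in scaled variables

`V = -(b1 + b2)`, `U = (s1 + s2)/2 = (V - D)/2`, `M = (s1 - s2)/2`, `N = (D + V)/2`, `η = et0`, `γ = ga = c0 et0`, `σ = ±1` (`hs : sg = 1 ∨ sg = -1`), `D0 = D - η U`, `Ds = D0 - sg η M`
(`sg = 1`: `Ds = D - η s1`; `sg = -1`: `Ds = D - η s2`), `w = (‖s1‖ + ‖s2‖)/2`, `‖M‖ ≤ w`, `r = (√3/2)(1 + q)`, `x0 = ‖D0‖/√3 ≥ (1 + η/2) x - (η/2) y ≥ xm > 0`, `m = (x+y)/2`, `e = D0/‖D0‖`.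
1. `‖Ds‖ ≤ ‖D0‖ - sg η ip e M + η² ‖M‖²/(2‖D0‖)` (`norm_sub_le_quad`).  So `r c0 ‖Ds‖ ≤ r c0 ‖D0‖ - sg r γ ip e M + r γ η w²/(2 √3 x0)` (`c0 η = γ`).
2. `baseS` with `τ = √(3q)`, `β = (3/2) bp`, `E = I N - sg r γ e`, `P = ± (ρ/m) (I E)` (sign of `ip (I E) U`).  Then `ip E M - cr N M + sg r γ ip e M = 0` (`ip (I N) M = cr N M`).
3. `‖E‖² = ‖N‖² - 2 sg r γ ip (I N) e + r² γ²`; `|ip (I N) e| = (1 + η)/2 |cr D V|/‖D0‖` (`ip_bd1`); `‖N‖² = 3 (m² - K)` (`two_norm1`); `|cr D V| ≤ 6 kb`: `cr_sq`: `cr² = (‖D‖‖V‖ - ip)(‖D‖‖V‖ + ip) ≤ 6 K * 6 x y ≤ 36 kb²`.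
   `r γ = √3 (γ (1+q)/2) ≤ √3 ep`.  So `‖E‖² ≤ 3 B`, `B = m² - K + ep² + 2 ep (1 + η) kb/xm`  (`2 r γ (1+η)/2 * 6 kb/(√3 x0) ≤ 6 ep (1 + η) kb/x0`).
   `‖P ± E‖² = ‖E‖² (1 + ρ²/m²) ≤ 3 B (m² + ρ²)/m² ≤ 3 (q - om) ≤ (√(3q) - β)²`: `(√(3q) - β)² ≥ 3 q - 2 √(3q) β = 3 q - 3 √3 √q bp ≥ 3 (q - om)`, and `β ≤ √(3q)` since `q ≥ om ≥ √3 √q bp`, so `√q ≥ √3 bp` (`q > 0` as `B (m² + ρ²) > 0`).
4. `|ip (I E) U| ≥ |ip (I I N) U| - r γ |ip (I e) U| ≥ (3/4)|y² - x²| - r γ |cr D V|/(2 ‖D0‖) ≥ (3/2) m |y - x| - √3 ep * 3 kb/(√3 xm)` (`ip_bd3`, `ip_bd2`), so `ip P U ≥ (ρ/m) |ip (I E) U| ≥ (3/2) ρ (|y-x| - 2 ep kb/(xm m)) ≥ (3/2) ρ (|y-x| - 2 ep kb/(xm mm))` (`ρ ≥ 0`, `0 < mm ≤ m`).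
5. Multiply everything by `2/3`: `(2/3) β w = bp w` (`β (‖s1‖ + ‖s2‖)/2 = β w`, `β = (3/2) bp`), `(2/3) r γ η w²/(2√3 x0) = (1+q) γ η w²/(6 x0) ≤ cM w²` (`(1+q) γ η ≤ 6 xm cM`), `bp w - cM w² ≥ cw` (hypothesis);
   `(2/3) r c0 ‖D0‖ = (1+q) √(((c0 + γ/2) x - (γ/2) y)² + 4 (c0 + γ/2)(γ/2) K)` (`two_norm2`, `c0 D0 = (c0 + γ/2) D - (γ/2) V`).  The terms with `a - min 1 a` and `1 - min 1 a` are dropped (`≥ 0`).
   Note: with `β = (3/2) bp` the condition in 3. reads `2 √(3q) β = 3 √3 √q bp`.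
-/

namespace Pool.Agent.Helper98.LC3

open Finset Real Pool.Agent.Helper98.LC Pool.Agent.Helper38.LC2

variable {a : ℝ} {D s1 b1 b2 s2 : ℂ} {L l1 l2 l3 l4 yO y1 y2 y3 y4 : ℝ}

private theorem nsq (z : ℂ) : ‖z‖ ^ 2 = z.re ^ 2 + z.im ^ 2 := by
  rw [Complex.sq_norm, Complex.normSq_apply]
  ring

private theorem ip_smul_right (t : ℝ) (A B : ℂ) : ip A ((t : ℂ) * B) = t * ip A B := by
  simp [ip]
  ring

private theorem ip_smul_left (t : ℝ) (A B : ℂ) : ip ((t : ℂ) * A) B = t * ip A B := by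
  simp [ip]
  ring

private theorem ip_sub_left (A B C : ℂ) : ip (A - B) C = ip A C - ip B C := by
  simp [ip]
  ring

private theorem ip_I_I (A : ℂ) (B : ℂ) : ip (Complex.I * (Complex.I * A)) B = - ip A B := by
  simp [ip]
  ring

private theorem norm_smul_sq (t : ℝ) (A : ℂ) : ‖(t : ℂ) * A‖ ^ 2 = t ^ 2 * ‖A‖ ^ 2 := by
  rw [norm_mul, mul_pow, Complex.norm_real, Real.norm_eq_abs, sq_abs]

private theorem norm_sub_sq (A B : ℂ) : ‖A - B‖ ^ 2 = ‖A‖ ^ 2 - 2 * ip A B + ‖B‖ ^ 2 := by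
  rw [nsq, nsq, nsq]
  simp [ip]
  ring

private theorem norm_I (A : ℂ) : ‖Complex.I * A‖ = ‖A‖ := by
  rw [norm_mul, Complex.norm_I, one_mul]

private theorem norm_rot_add (t : ℝ) (E : ℂ) :
    ‖(t : ℂ) * (Complex.I * E) + E‖ ^ 2 = ‖E‖ ^ 2 * (1 + t ^ 2) := by
  rw [nsq, nsq]
  simp
  ring

private theorem norm_rot_sub (t : ℝ) (E : ℂ) :
    ‖(t : ℂ) * (Complex.I * E) - E‖ ^ 2 = ‖E‖ ^ 2 * (1 + t ^ 2) := by
  rw [nsq, nsq]
  simp
  ring

theorem one_base (h : Face41 a D s1 b1 b2 s2 L l1 l2 l3 l4 yO y1 y2 y3 y4)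
    {x y K q ρ ζ sg kb ep xm mm om bp cM cw : ℝ} (hs : sg = 1 ∨ sg = -1)
    (hx0 : 0 ≤ x) (hy0 : 0 ≤ y) (hx : ‖D‖ = √3 * x) (hy : ‖b1 + b2‖ = √3 * y)
    (hK : 6 * K = ‖D‖ * ‖b1 + b2‖ - ip D (-(b1 + b2))) (hq : 0 ≤ q) (hρ : 0 ≤ ρ)
    (hkb : 0 ≤ kb) (hkb2 : K * (x * y) ≤ kb ^ 2) (hxm : 0 < xm)
    (hxm2 : xm ≤ (1 + et0 / 2) * x - et0 / 2 * y) (hmm : 0 < mm) (hmm2 : mm ≤ (x + y) / 2)
    (hep : ga * (1 + q) / 2 ≤ ep) (hcM : ga * et0 * (1 + q) ≤ 6 * xm * cM) (hbp : 0 ≤ bp)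
    (hom : √3 * √q * bp ≤ om)
    (hc : (((x + y) / 2) ^ 2 - K + ep ^ 2 + 2 * ep * (1 + et0) * kb / xm) *
      (((x + y) / 2) ^ 2 + ρ ^ 2) ≤ (q - om) * ((x + y) / 2) ^ 2)
    (hζ : 0 ≤ ζ) (hζ2 : ζ ^ 2 + y ^ 2 / 4 ≤ q)
    (hw : cw ≤ bp * ((‖s1‖ + ‖s2‖) / 2) - cM * ((‖s1‖ + ‖s2‖) / 2) ^ 2) :
    2 / 3 * (√3 / 2 * (1 + q) * L - A0 * yO) - √3 * q +
      ρ * (|y - x| - 2 * ep * kb / (xm * mm)) + y * ζ -
      (1 + q) * √(((c0 + ga / 2) * x - ga / 2 * y) ^ 2 + 4 * (c0 + ga / 2) * (ga / 2) * K) + cw ≤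
      (1 + q) / √3 * (HH l1 l2 l3 l4 y1 y2 y3 y4 + L - 3 * min 1 a -
        c0 * ‖D - (et0 : ℂ) * ((s1 + s2) / 2) - ((sg * et0 : ℝ) : ℂ) * ((s1 - s2) / 2)‖) := by
  classical
  have h3 : √3 * √3 = 3 := Real.mul_self_sqrt (by norm_num)
  have h3p : 0 < √3 := Real.sqrt_pos.2 (by norm_num)
  have hga : 0 < ga := lt_trans (by norm_num) ga_num.1
  have het : 0 < et0 := lt_trans (by norm_num) et0_num.1
  have hc0 : 0 < c0 := lt_trans (by norm_num) c0_num.1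
  have hce : c0 * et0 = ga := c0_et0
  have hsg : sg ^ 2 = 1 := by rcases hs with h | h <;> rw [h] <;> norm_num
  have hsgabs : |sg| = 1 := by rcases hs with h | h <;> rw [h] <;> norm_num
  set V : ℂ := -(b1 + b2) with hV
  have hVn : ‖V‖ = √3 * y := by rw [hV, norm_neg, hy]
  have hK' : 6 * K = ‖D‖ * ‖V‖ - ip D V := by rw [hK, hVn, hy]
  have hU : (s1 + s2) / 2 = (V - D) / 2 := by
    have := h.sum
    rw [hV]
    linear_combination this / 2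
  have hN : (D - (b1 + b2)) / 2 = (D + V) / 2 := by
    rw [hV]; ring
  set U : ℂ := (V - D) / 2 with hUdef
  set M : ℂ := (s1 - s2) / 2 with hM
  set N : ℂ := (D + V) / 2 with hNdef
  set D0 : ℂ := D - (et0 : ℂ) * U with hD0
  set w : ℝ := (‖s1‖ + ‖s2‖) / 2 with hwdef
  have hw0 : 0 ≤ w := by positivity
  have hMw : ‖M‖ ≤ w := by
    have h2 : ‖(2 : ℂ)‖ = 2 := by norm_num
    rw [hM, hwdef, norm_div, h2]
    have := norm_sub_le s1 s2
    linarith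
  -- the norm of `D0`
  set R0 : ℝ := ‖D0‖ with hR0
  have hR0ge : √3 * xm ≤ R0 := by
    have h1 : D0 = ((1 + et0 / 2 : ℝ) : ℂ) * D - ((et0 / 2 : ℝ) : ℂ) * V := by
      rw [hD0, hUdef]; push_cast; ring
    have h2 : ‖((1 + et0 / 2 : ℝ) : ℂ) * D‖ = (1 + et0 / 2) * ‖D‖ := by
      rw [norm_mul, Complex.norm_real, Real.norm_eq_abs, abs_of_nonneg (by positivity)]
    have h3' : ‖((et0 / 2 : ℝ) : ℂ) * V‖ = (et0 / 2) * ‖V‖ := by
      rw [norm_mul, Complex.norm_real, Real.norm_eq_abs, abs_of_nonneg (by positivity)]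
    have h4 := norm_sub_norm_le (((1 + et0 / 2 : ℝ) : ℂ) * D) (((et0 / 2 : ℝ) : ℂ) * V)
    rw [← h1, h2, h3', hx, hVn] at h4
    have h5 : √3 * xm ≤ √3 * ((1 + et0 / 2) * x - et0 / 2 * y) :=
      mul_le_mul_of_nonneg_left hxm2 h3p.le
    rw [hR0]
    linarith
  have hR0p : 0 < R0 := lt_of_lt_of_le (by positivity) hR0ge
  -- the numbers
  set m : ℝ := (x + y) / 2 with hm
  have hmp : 0 < m := lt_of_lt_of_le hmm hmm2
  set r : ℝ := √3 / 2 * (1 + q) with hr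
  have hrp : 0 < r := by positivity
  have hrga : r * ga ≤ √3 * ep := by
    have h1 : r * ga = √3 * (ga * (1 + q) / 2) := by rw [hr]; ring
    rw [h1]
    exact mul_le_mul_of_nonneg_left hep h3p.le
  have hepp : 0 < ep := lt_of_lt_of_le (by positivity) hep
  -- `cr D V`
  have hipabs : |ip D V| ≤ ‖D‖ * ‖V‖ := by
    apply abs_le_of_sq_le_sq' _ (by positivity) |> fun h => abs_le.2 h
    have := cr_sq D V
    nlinarith [sq_nonneg (cr D V)]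
  have hDV : ‖D‖ * ‖V‖ = 3 * (x * y) := by
    rw [hx, hVn]
    linear_combination (x * y) * h3
  have hK0 : 0 ≤ K := by
    have := (abs_le.1 hipabs).2
    linarith
  have hcr : |cr D V| ≤ 6 * kb := by
    apply abs_le_of_sq_le_sq' _ (by positivity) |> fun h => abs_le.2 h
    have h1 := cr_sq D V
    have h2 : cr D V ^ 2 = (‖D‖ * ‖V‖ - ip D V) * (‖D‖ * ‖V‖ + ip D V) := by
      linear_combination h1
    have h4 : ‖D‖ * ‖V‖ + ip D V ≤ 6 * (x * y) := by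
      have := (abs_le.1 hipabs).2
      linarith
    calc cr D V ^ 2 = 6 * K * (‖D‖ * ‖V‖ + ip D V) := by rw [h2, hK']
      _ ≤ 6 * K * (6 * (x * y)) := mul_le_mul_of_nonneg_left h4 (by positivity)
      _ = 36 * (K * (x * y)) := by ring
      _ ≤ 36 * kb ^ 2 := by linarith
      _ = (6 * kb) ^ 2 := by ring
  -- the vectors
  set e : ℂ := ((1 / R0 : ℝ) : ℂ) * D0 with he
  have hen : ‖e‖ ^ 2 = 1 := by
    rw [he, norm_smul_sq, ← hR0]
    field_simp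
  set E : ℂ := Complex.I * N - ((sg * (r * ga) : ℝ) : ℂ) * e with hE
  have hNsq : ‖N‖ ^ 2 = 3 * (m ^ 2 - K) := two_norm1 hx hVn hK'
  have hmK : 0 ≤ m ^ 2 - K := by
    have := sq_nonneg ‖N‖
    rw [hNsq] at this
    linarith
  set B : ℝ := m ^ 2 - K + ep ^ 2 + 2 * ep * (1 + et0) * kb / xm with hB
  have hBp : 0 < B := by
    have : 0 ≤ 2 * ep * (1 + et0) * kb / xm := by positivity
    have : 0 < ep ^ 2 := by positivity
    rw [hB]
    linarith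
  have hINe : ip (Complex.I * N) e = -((1 + et0) / 2 * cr D V) / R0 := by
    rw [he, ip_smul_right, hD0, hNdef, hUdef, ip_bd1]
    ring
  have hEsq : ‖E‖ ^ 2 ≤ 3 * B := by
    rw [hE, norm_sub_sq, norm_I, hNsq, norm_smul_sq, hen, ip_smul_right, hINe]
    have h1 : (r * ga) * (1 + et0) * |cr D V| / R0 ≤ 6 * ep * (1 + et0) * kb / xm := by
      rw [div_le_div_iff₀ hR0p hxm]
      calc (r * ga) * (1 + et0) * |cr D V| * xm ≤ (√3 * ep) * (1 + et0) * (6 * kb) * xm := by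
            gcongr
        _ = 6 * ep * (1 + et0) * kb * (√3 * xm) := by ring
        _ ≤ 6 * ep * (1 + et0) * kb * R0 := by gcongr
    have h2 : -(2 * (sg * (r * ga) * (-((1 + et0) / 2 * cr D V) / R0))) ≤
        (r * ga) * (1 + et0) * |cr D V| / R0 := by
      have h5 : -(2 * (sg * (r * ga) * (-((1 + et0) / 2 * cr D V) / R0))) =
          (r * ga) * (1 + et0) * (sg * cr D V) / R0 := by
        field_simp
      rw [h5]
      have h6 : sg * cr D V ≤ |cr D V| := by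
        calc sg * cr D V ≤ |sg * cr D V| := le_abs_self _
          _ = |cr D V| := by rw [abs_mul, hsgabs, one_mul]
      gcongr
    have h4 : (sg * (r * ga)) ^ 2 * 1 ≤ 3 * ep ^ 2 := by
      have h5 : (r * ga) ^ 2 ≤ (√3 * ep) ^ 2 := by gcongr
      have h6 : (√3 * ep) ^ 2 = 3 * ep ^ 2 := by
        linear_combination (ep ^ 2) * h3
      calc (sg * (r * ga)) ^ 2 * 1 = sg ^ 2 * (r * ga) ^ 2 := by ring
        _ = (r * ga) ^ 2 := by rw [hsg, one_mul]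
        _ ≤ 3 * ep ^ 2 := by rw [← h6]; exact h5
    have h7 : 3 * B = 3 * (m ^ 2 - K) + 3 * ep ^ 2 + 6 * ep * (1 + et0) * kb / xm := by
      rw [hB]; ring
    rw [h7]
    linarith
  -- the sizes
  have hqom : 0 < q - om := by
    have h1 : 0 < B * (m ^ 2 + ρ ^ 2) := by positivity
    have h2 : 0 < (q - om) * m ^ 2 := lt_of_lt_of_le h1 hc
    exact (mul_pos_iff_of_pos_right (by positivity)).1 h2
  set τ : ℝ := √(3 * q) with hτ
  have hτ0 : 0 ≤ τ := Real.sqrt_nonneg _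
  have hτsq : τ ^ 2 = 3 * q := Real.sq_sqrt (by positivity)
  have hτ' : τ = √3 * √q := by rw [hτ, Real.sqrt_mul (by norm_num)]
  have hβ : 3 / 2 * bp ≤ τ := by
    have hom0 : 0 ≤ om := le_trans (by positivity) hom
    have hqp : 0 < q := by linarith
    have hsq : 0 < √q := Real.sqrt_pos.2 hqp
    have hqq : √q * √q = q := Real.mul_self_sqrt hq
    have h1 : √3 * bp ≤ √q := by
      have h2 : √q * (√3 * bp) ≤ √q * √q := by
        rw [hqq]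
        calc √q * (√3 * bp) = √3 * √q * bp := by ring
          _ ≤ om := hom
          _ ≤ q := by linarith
      exact le_of_mul_le_mul_left h2 hsq
    rw [hτ']
    have h2 : √3 * (√3 * bp) ≤ √3 * √q := mul_le_mul_of_nonneg_left h1 h3p.le
    have h4 : √3 * (√3 * bp) = 3 * bp := by linear_combination bp * h3
    linarith
  have hτβ : 3 * (q - om) ≤ (τ - 3 / 2 * bp) ^ 2 := by
    have h1 : (τ - 3 / 2 * bp) ^ 2 = τ ^ 2 - 3 * (τ * bp) + (3 / 2 * bp) ^ 2 := by ring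
    have h2 : τ * bp ≤ om := by rw [hτ']; exact hom
    rw [h1, hτsq]
    have := sq_nonneg (3 / 2 * bp)
    linarith
  -- the sign
  obtain ⟨s, hs1, hs2⟩ : ∃ s : ℝ, s ^ 2 = 1 ∧ s * ip (Complex.I * E) U = |ip (Complex.I * E) U| := by
    rcases le_total 0 (ip (Complex.I * E) U) with h | h
    · exact ⟨1, by norm_num, by rw [one_mul, abs_of_nonneg h]⟩
    · exact ⟨-1, by norm_num, by rw [abs_of_nonpos h]; ring⟩
  set t : ℝ := s * (ρ / m) with ht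
  have ht2 : t ^ 2 = ρ ^ 2 / m ^ 2 := by
    rw [ht, mul_pow, hs1, one_mul, div_pow]
  have hEt : ‖E‖ ^ 2 * (1 + t ^ 2) ≤ (τ - 3 / 2 * bp) ^ 2 := by
    refine le_trans ?_ hτβ
    have h1 : ‖E‖ ^ 2 * (1 + t ^ 2) ≤ 3 * B * (1 + t ^ 2) :=
      mul_le_mul_of_nonneg_right hEsq (by positivity)
    refine le_trans h1 ?_
    have h2 : 3 * B * (1 + t ^ 2) = 3 * (B * (m ^ 2 + ρ ^ 2)) / m ^ 2 := by
      rw [ht2]
      field_simp
    rw [h2, div_le_iff₀ (by positivity)]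
    linarith
  have hP1 : ‖(t : ℂ) * (Complex.I * E) + E‖ ≤ τ - 3 / 2 * bp := by
    refine le_of_sq_le_sq ?_ (by linarith)
    rw [norm_rot_add]
    exact hEt
  have hP2 : ‖(t : ℂ) * (Complex.I * E) - E‖ ≤ τ - 3 / 2 * bp := by
    refine le_of_sq_le_sq ?_ (by linarith)
    rw [norm_rot_sub]
    exact hEt
  have hbase := baseS h hτ0 ((t : ℂ) * (Complex.I * E)) E hP1 hP2
  rw [hU, hN] at hbase
  -- the scalar product with `U`
  have hIEU : ip (Complex.I * E) U = 3 / 4 * (x ^ 2 - y ^ 2) - sg * (r * ga) * (cr D V / 2 / R0) := by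
    have h1 : Complex.I * E = Complex.I * (Complex.I * N) -
        ((sg * (r * ga) * (1 / R0) : ℝ) : ℂ) * (Complex.I * D0) := by
      rw [hE, he]; push_cast; ring
    rw [h1, ip_sub_left, ip_smul_left, hNdef, hUdef, ip_bd3, hD0, hUdef, ip_bd2, hx, hVn]
    have h4 : (√3 * x) ^ 2 = 3 * x ^ 2 := by linear_combination x ^ 2 * h3
    have h5 : (√3 * y) ^ 2 = 3 * y ^ 2 := by linear_combination y ^ 2 * h3
    rw [h4, h5]
    ring
  have hIEU' : 3 / 2 * m * |y - x| - 3 * ep * kb / xm ≤ |ip (Complex.I * E) U| := by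
    rw [hIEU]
    have h1 : |3 / 4 * (x ^ 2 - y ^ 2)| = 3 / 2 * m * |y - x| := by
      have h2 : 3 / 4 * (x ^ 2 - y ^ 2) = (3 / 2 * m) * (x - y) := by rw [hm]; ring
      rw [h2, abs_mul, abs_of_nonneg (by positivity), abs_sub_comm]
    have h2 : |sg * (r * ga) * (cr D V / 2 / R0)| ≤ 3 * ep * kb / xm := by
      rw [abs_mul, abs_mul, hsgabs, one_mul, abs_of_nonneg (by positivity : (0:ℝ) ≤ r * ga), abs_div,
        abs_div, abs_of_pos hR0p, abs_of_pos (by norm_num : (0:ℝ) < 2)]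
      have h5 : r * ga * (|cr D V| / 2 / R0) = r * ga * |cr D V| / (2 * R0) := by
        field_simp
      rw [h5, div_le_div_iff₀ (by positivity) hxm]
      calc r * ga * |cr D V| * xm ≤ (√3 * ep) * (6 * kb) * xm := by gcongr
        _ = 6 * ep * kb * (√3 * xm) := by ring
        _ ≤ 6 * ep * kb * R0 := by gcongr
        _ = 3 * ep * kb * (2 * R0) := by ring
    have h4 := abs_sub_abs_le_abs_sub (3 / 4 * (x ^ 2 - y ^ 2)) (sg * (r * ga) * (cr D V / 2 / R0))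
    rw [h1] at h4
    linarith
  have hPU : 3 / 2 * (ρ * (|y - x| - 2 * ep * kb / (xm * mm))) ≤
      ip ((t : ℂ) * (Complex.I * E)) U := by
    have h1 : ip ((t : ℂ) * (Complex.I * E)) U = ρ / m * |ip (Complex.I * E) U| := by
      rw [ip_smul_left, ht, ← hs2]; ring
    rw [h1]
    have h2 : ρ / m * (3 / 2 * m * |y - x| - 3 * ep * kb / xm) ≤ ρ / m * |ip (Complex.I * E) U| :=
      mul_le_mul_of_nonneg_left hIEU' (by positivity)
    refine le_trans ?_ h2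
    have h4 : ρ / m * (3 / 2 * m * |y - x| - 3 * ep * kb / xm) =
        3 / 2 * (ρ * (|y - x| - 2 * ep * kb / (xm * m))) := by
      field_simp
    rw [h4]
    have h5 : 2 * ep * kb / (xm * m) ≤ 2 * ep * kb / (xm * mm) := by
      gcongr
    have h6 : ρ * (|y - x| - 2 * ep * kb / (xm * mm)) ≤ ρ * (|y - x| - 2 * ep * kb / (xm * m)) :=
      mul_le_mul_of_nonneg_left (by linarith) hρ
    linarith
  -- the scalar product with `M`
  have hEM : ip E M - cr N M = -(sg * (r * ga) * ip e M) := by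
    rw [hE, ip_sub_left, ip_smul_left]
    have h1 : ip (Complex.I * N) M = cr N M := by
      simp [ip, cr]
      ring
    rw [h1]
    ring
  -- the shifted chord
  set Ds : ℂ := D0 - ((sg * et0 : ℝ) : ℂ) * M with hDs
  have hDsle : ‖Ds‖ ≤ R0 - sg * et0 * ip e M + et0 ^ 2 * w ^ 2 / (2 * R0) := by
    have h1 := norm_sub_le_quad D0 (((sg * et0 : ℝ) : ℂ) * M) hR0p
    rw [← hDs, ip_smul_right, norm_smul_sq, ← hR0] at h1
    have h2 : ip e M = ip D0 M / R0 := by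
      rw [he, ip_smul_left]; ring
    have h4 : (sg * et0) ^ 2 * ‖M‖ ^ 2 / (2 * R0) ≤ et0 ^ 2 * w ^ 2 / (2 * R0) := by
      have h5 : (sg * et0) ^ 2 = et0 ^ 2 := by rw [mul_pow, hsg, one_mul]
      rw [h5]
      gcongr
    rw [h2]
    have h6 : sg * et0 * ip D0 M / R0 = sg * et0 * (ip D0 M / R0) := by ring
    rw [h6] at h1
    linarith
  have hmain : r * c0 * ‖Ds‖ ≤ r * c0 * R0 - sg * (r * ga) * ip e M +
      r * ga * et0 * w ^ 2 / (2 * R0) := by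
    have h1 := mul_le_mul_of_nonneg_left hDsle (by positivity : 0 ≤ r * c0)
    have h2 : r * c0 * (R0 - sg * et0 * ip e M + et0 ^ 2 * w ^ 2 / (2 * R0)) =
        r * c0 * R0 - sg * (r * ga) * ip e M + r * ga * et0 * w ^ 2 / (2 * R0) := by
      rw [← hce]; ring
    rw [h2] at h1
    exact h1
  have hquad : r * ga * et0 * w ^ 2 / (2 * R0) ≤ 3 / 2 * (cM * w ^ 2) := by
    rw [div_le_iff₀ (by positivity)]
    have hcM0 : 0 ≤ cM := by
      have h1 : 0 ≤ 6 * xm * cM := le_trans (by positivity) hcM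
      exact nonneg_of_mul_nonneg_right h1 (by positivity)
    calc r * ga * et0 * w ^ 2 = √3 / 2 * (ga * et0 * (1 + q)) * w ^ 2 := by rw [hr]; ring
      _ ≤ √3 / 2 * (6 * xm * cM) * w ^ 2 := by gcongr
      _ = 3 / 2 * (cM * w ^ 2) * (2 * (√3 * xm)) := by ring
      _ ≤ 3 / 2 * (cM * w ^ 2) * (2 * R0) := by gcongr
  have hR0eq : c0 * R0 = √3 * √(((c0 + ga / 2) * x - ga / 2 * y) ^ 2 +
      4 * (c0 + ga / 2) * (ga / 2) * K) := by
    have h1 : ‖((c0 + ga / 2 : ℝ) : ℂ) * D - ((ga / 2 : ℝ) : ℂ) * V‖ = c0 * R0 := by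
      have h2 : ((c0 + ga / 2 : ℝ) : ℂ) * D - ((ga / 2 : ℝ) : ℂ) * V = ((c0 : ℝ) : ℂ) * D0 := by
        rw [hD0, hUdef, ← hce]; push_cast; ring
      rw [h2, norm_mul, Complex.norm_real, Real.norm_eq_abs, abs_of_pos hc0]
    have h2 := two_norm2 (α := c0 + ga / 2) (γ := ga / 2) hx hVn hK'
    rw [h1] at h2
    have h4 : c0 * R0 = √((c0 * R0) ^ 2) := (Real.sqrt_sq (by positivity)).symm
    rw [h4, h2, Real.sqrt_mul (by norm_num)]
  -- the triangle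
  have htri := tri_nonneg b1 b2 hy hζ hζ2
  unfold tri at htri
  rw [hy, ← hτ] at htri
  have htri' : 3 / 2 * (y * ζ) ≤ τ * (‖b1‖ + ‖b2‖) / 2 - cr b1 b2 / 2 := by
    have h1 : √3 * y * (√3 * ζ) / 2 = 3 / 2 * (y * ζ) := by linear_combination (y * ζ / 2) * h3
    rw [h1] at htri
    linarith
  have hA0 : 0 ≤ A0 := by unfold A0; positivity
  have hdrop : 0 ≤ A0 * (a - min 1 a) + √3 / 2 * τ ^ 2 * (1 - min 1 a) := by
    have h1 : 0 ≤ a - min 1 a := sub_nonneg.2 (min_le_right _ _)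
    have h2 : 0 ≤ 1 - min 1 a := sub_nonneg.2 (min_le_left _ _)
    positivity
  have hrr : rr τ = r := by
    rw [rr, hτsq, hr, div_eq_iff (by positivity)]
    linear_combination (-(1 + q)) * h3
  rw [hrr, hτsq] at hbase
  have hbp : 3 / 2 * bp * (‖s1‖ + ‖s2‖) / 2 = 3 / 2 * (bp * w) := by rw [hwdef]; ring
  rw [hbp] at hbase
  rw [hτsq] at hdrop
  have hr23 : (1 + q) / √3 = 2 / 3 * r := by
    rw [hr, div_eq_iff h3p.ne']
    linear_combination (-(1 + q) / 3) * h3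
  have hgoal : D - (et0 : ℂ) * ((s1 + s2) / 2) - ((sg * et0 : ℝ) : ℂ) * ((s1 - s2) / 2) = Ds := by
    rw [hDs, hD0, hU]
  rw [hU, ← hD0, ← hDs, hr23]
  have hlast : (1 + q) * √(((c0 + ga / 2) * x - ga / 2 * y) ^ 2 +
      4 * (c0 + ga / 2) * (ga / 2) * K) = 2 / 3 * (r * (c0 * R0)) := by
    rw [hR0eq, hr]
    linear_combination (-(1 + q) / 3 * √(((c0 + ga / 2) * x - ga / 2 * y) ^ 2 +
      4 * (c0 + ga / 2) * (ga / 2) * K)) * h3
  rw [hlast]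
  have hq3 : 2 / 3 * (√3 / 2 * (3 * q)) = √3 * q := by ring
  linarith [hbase, hPU, hEM, hmain, hquad, htri', hdrop, hw, hq3]

end Pool.Agent.Helper98.LC3
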