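import Pool.Agent.Helper98.LC3.S.TwoBase

/-!
# LC3-S15: interpolation between `K = 0` and `K = x y/5`

`K = t (x y/5)`, `0 ≤ t ≤ 1`; `q = (1-t) q0 + t q1`, `ρ = (1-t) ρ0 + t ρ1`, `ζ = (1-t) ζ0 + t ζ1`.
`two_base` for `q, ρ, ζ`: the constraint: `ρ² ≤ (1-t) ρ0² + t ρ1²` (convexity), `K = t x y/5`.
`√(A² + 4 α γ K) ≤ lam + 2 * .550475 * .026876 * K/lam` for `A = (c0+ga) x - ga y`, `|A| ≤ lam`, `0 < lam`, `K ≥ 0`, `c0 + ga ≤ .550475`, `ga ≤ .026876` (`(lam + c/lam)² ≥ lam² + 2c`), and `1 + q ≤ 1 + Qb` in the second term.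
Everything else is affine: `ρ |y - x| ≥ (1-t) ρ0 g0' + t ρ1 g1'`.
-/

namespace Pool.Agent.Helper98.LC3

open Finset Real Pool.Agent.Helper98.LC Pool.Agent.Helper38.LC2

variable {a : ℝ} {D s1 b1 b2 s2 : ℂ} {L l1 l2 l3 l4 yO y1 y2 y3 y4 : ℝ}

private theorem ti_sqrt {A lam K al be : ℝ} (hl : 0 < lam) (hA : |A| ≤ lam) (hK : 0 ≤ K)
    (ha0 : 0 ≤ al) (hb0 : 0 ≤ be) (ha : al ≤ 550475 / 1000000) (hb : be ≤ 26876 / 1000000) :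
    √(A ^ 2 + 4 * al * be * K) ≤
      lam + 2 * (550475 / 1000000 * (26876 / 1000000)) * K / lam := by
  have h1 : A ^ 2 ≤ lam ^ 2 := by
    rw [← sq_abs A]
    exact pow_le_pow_left₀ (abs_nonneg _) hA 2
  have h2 : al * be ≤ 550475 / 1000000 * (26876 / 1000000) :=
    mul_le_mul ha hb hb0 (by norm_num)
  have h3 : al * be * K ≤ 550475 / 1000000 * (26876 / 1000000) * K :=
    mul_le_mul_of_nonneg_right h2 hK
  rw [Real.sqrt_le_left (by positivity)]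
  have h4 : (lam + 2 * (550475 / 1000000 * (26876 / 1000000)) * K / lam) ^ 2 =
      lam ^ 2 + 4 * (550475 / 1000000 * (26876 / 1000000) * K) +
        (2 * (550475 / 1000000 * (26876 / 1000000)) * K / lam) ^ 2 := by
    field_simp
    ring
  rw [h4]
  have h5 := sq_nonneg (2 * (550475 / 1000000 * (26876 / 1000000)) * K / lam)
  linarith

theorem two_interp (h : Face41 a D s1 b1 b2 s2 L l1 l2 l3 l4 yO y1 y2 y3 y4) {x y t : ℝ}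
    (hx0 : 0 ≤ x) (hy0 : 0 ≤ y) (hx : ‖D‖ = √3 * x) (hy : ‖b1 + b2‖ = √3 * y)
    (ht0 : 0 ≤ t) (ht1 : t ≤ 1)
    (hK : 6 * (t * (x * y / 5)) = ‖D‖ * ‖b1 + b2‖ - ip D (-(b1 + b2)))
    {lam Qb q0 q1 ρ0 ρ1 ζ0 ζ1 e0 e1 f0 f1 : ℝ} (hl : 0 < lam)
    (hlam : |(c0 + ga) * x - ga * y| ≤ lam) (hq0 : 0 ≤ q0) (hq1 : 0 ≤ q1) (hQ0 : q0 ≤ Qb)
    (hQ1 : q1 ≤ Qb) (hρ0 : 0 ≤ ρ0) (hρ1 : 0 ≤ ρ1) (he0 : e0 ≤ |y - x|) (he1 : e1 ≤ |y - x|)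
    (hc0 : ρ0 ^ 2 + ((x + y) / 2) ^ 2 ≤ q0) (hc1 : ρ1 ^ 2 + ((x + y) / 2) ^ 2 - x * y / 5 ≤ q1)
    (hf0 : f0 ≤ 2 / 3 * (√3 / 2 * (1 + q0) * L - A0 * yO) - √3 * q0 + ρ0 * e0 + y * ζ0 -
      (1 + q0) * lam)
    (hf1 : f1 ≤ 2 / 3 * (√3 / 2 * (1 + q1) * L - A0 * yO) - √3 * q1 + ρ1 * e1 + y * ζ1 -
      (1 + q1) * lam - (1 + Qb) * 2 * (550475 / 1000000 * (26876 / 1000000)) * (x * y / 5) / lam) :
    (1 - t) * f0 + t * f1 + 2 / 3 * tri b1 b2 ((1 - t) * q0 + t * q1) ((1 - t) * ζ0 + t * ζ1) ≤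
      (1 + ((1 - t) * q0 + t * q1)) / √3 * (HH l1 l2 l3 l4 y1 y2 y3 y4 + L - 3 * min 1 a -
        c0 * ‖D - (et0 : ℂ) * (s1 + s2)‖) := by
  obtain ⟨hc01, hc02⟩ := c0_num
  obtain ⟨hga1, hga2⟩ := ga_num
  have ht1' : 0 ≤ 1 - t := by linarith
  obtain ⟨W, hW⟩ : ∃ W : ℝ, W = x * y / 5 := ⟨_, rfl⟩
  have hW0 : 0 ≤ W := by rw [hW]; positivity
  rw [← hW] at hK hc1 hf1
  obtain ⟨q, hq⟩ : ∃ q : ℝ, q = (1 - t) * q0 + t * q1 := ⟨_, rfl⟩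
  obtain ⟨ρ, hρ⟩ : ∃ ρ : ℝ, ρ = (1 - t) * ρ0 + t * ρ1 := ⟨_, rfl⟩
  obtain ⟨ζ, hζ⟩ : ∃ ζ : ℝ, ζ = (1 - t) * ζ0 + t * ζ1 := ⟨_, rfl⟩
  rw [← hq, ← hζ]
  have hqn : 0 ≤ q := by rw [hq]; positivity
  have hρn : 0 ≤ ρ := by rw [hρ]; positivity
  have hqQ : q ≤ Qb := by
    have e1 := mul_le_mul_of_nonneg_left hQ0 ht1'
    have e2 := mul_le_mul_of_nonneg_left hQ1 ht0
    rw [hq]
    linarith
  have hcon : ρ ^ 2 + ((x + y) / 2) ^ 2 - t * W ≤ q := by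
    have e1 := mul_le_mul_of_nonneg_left hc0 ht1'
    have e2 := mul_le_mul_of_nonneg_left hc1 ht0
    have e3 : 0 ≤ (1 - t) * t * (ρ0 - ρ1) ^ 2 := by positivity
    have e4 : ρ ^ 2 = (1 - t) * ρ0 ^ 2 + t * ρ1 ^ 2 - (1 - t) * t * (ρ0 - ρ1) ^ 2 := by
      rw [hρ]
      ring
    rw [e4, hq]
    linarith
  have hb := two_base h hx0 hy0 hx hy hK hqn hρn hcon (ζ := ζ)
  have hcg : c0 + ga ≤ 550475 / 1000000 := by norm_num at hc02 hga2 ⊢; linarith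
  have hS := ti_sqrt (A := (c0 + ga) * x - ga * y) (K := t * W) (al := c0 + ga) (be := ga) hl
    hlam (by positivity) (by linarith) (by linarith) hcg (by norm_num at hga2 ⊢; linarith)
  have hS' := mul_le_mul_of_nonneg_left hS (by linarith : 0 ≤ 1 + q)
  obtain ⟨R, hR⟩ : ∃ R : ℝ, R = 2 * (550475 / 1000000 * (26876 / 1000000)) * W / lam := ⟨_, rfl⟩
  have hR0 : 0 ≤ R := by rw [hR]; positivity
  have hR1 : 2 * (550475 / 1000000 * (26876 / 1000000)) * (t * W) / lam = t * R := by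
    rw [hR]
    ring
  have hR2 : (1 + Qb) * 2 * (550475 / 1000000 * (26876 / 1000000)) * W / lam = (1 + Qb) * R := by
    rw [hR]
    ring
  rw [hR1] at hS'
  rw [hR2] at hf1
  have hR3 : (1 + q) * (t * R) ≤ (1 + Qb) * (t * R) :=
    mul_le_mul_of_nonneg_right (by linarith) (by positivity)
  have hm1 : min 1 a ≤ 1 := min_le_left _ _
  have hma : min 1 a ≤ a := min_le_right _ _
  have hA0 : 0 ≤ A0 := by unfold A0; positivity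
  have hs3 : 0 ≤ √3 := Real.sqrt_nonneg _
  have hdrop1 : 0 ≤ A0 * (a - min 1 a) := mul_nonneg hA0 (by linarith)
  have hdrop2 : 0 ≤ √3 / 2 * (3 * q) * (1 - min 1 a) :=
    mul_nonneg (by positivity) (by linarith)
  have hg0 : ρ0 * e0 ≤ ρ0 * |y - x| := mul_le_mul_of_nonneg_left he0 hρ0
  have hg1 : ρ1 * e1 ≤ ρ1 * |y - x| := mul_le_mul_of_nonneg_left he1 hρ1
  have k0 := mul_le_mul_of_nonneg_left (hf0.trans (by linarith :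
    2 / 3 * (√3 / 2 * (1 + q0) * L - A0 * yO) - √3 * q0 + ρ0 * e0 + y * ζ0 - (1 + q0) * lam ≤
    2 / 3 * (√3 / 2 * (1 + q0) * L - A0 * yO) - √3 * q0 + ρ0 * |y - x| + y * ζ0 -
      (1 + q0) * lam)) ht1'
  have k1 := mul_le_mul_of_nonneg_left (hf1.trans (by linarith :
    2 / 3 * (√3 / 2 * (1 + q1) * L - A0 * yO) - √3 * q1 + ρ1 * e1 + y * ζ1 - (1 + q1) * lam -
      (1 + Qb) * R ≤
    2 / 3 * (√3 / 2 * (1 + q1) * L - A0 * yO) - √3 * q1 + ρ1 * |y - x| + y * ζ1 -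
      (1 + q1) * lam - (1 + Qb) * R)) ht0
  have hid : 2 / 3 * (√3 / 2 * (1 + q) * L - A0 * yO) - √3 * q + ρ * |y - x| + y * ζ -
      (1 + q) * lam - (1 + Qb) * (t * R) =
      (1 - t) * (2 / 3 * (√3 / 2 * (1 + q0) * L - A0 * yO) - √3 * q0 + ρ0 * |y - x| + y * ζ0 -
      (1 + q0) * lam) + t * (2 / 3 * (√3 / 2 * (1 + q1) * L - A0 * yO) - √3 * q1 +
      ρ1 * |y - x| + y * ζ1 - (1 + q1) * lam - (1 + Qb) * R) := by
    rw [hq, hρ, hζ]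
    ring
  linarith

/-- the parameter `t` -/
theorem two_t {x y : ℝ} (hx0 : 0 < x) (hy0 : 0 < y) (hx : ‖D‖ = √3 * x) (hy : ‖b1 + b2‖ = √3 * y)
    (hC : 3 / 5 * (‖D‖ * ‖b1 + b2‖) ≤ ip D (-(b1 + b2))) :
    ∃ t : ℝ, 0 ≤ t ∧ t ≤ 1 ∧ 6 * (t * (x * y / 5)) = ‖D‖ * ‖b1 + b2‖ - ip D (-(b1 + b2)) := by
  have h3 : √3 * √3 = 3 := Real.mul_self_sqrt (by norm_num)
  have hP : ‖D‖ * ‖b1 + b2‖ = 3 * (x * y) := by
    rw [hx, hy]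
    linear_combination (x * y) * h3
  have hxy : 0 < x * y := mul_pos hx0 hy0
  have hle : ip D (-(b1 + b2)) ≤ ‖D‖ * ‖b1 + b2‖ := by
    have h1 : ip D (-(b1 + b2)) ^ 2 ≤ (‖D‖ * ‖b1 + b2‖) ^ 2 := by
      rw [mul_pow, ← norm_neg (b1 + b2), Complex.sq_norm, Complex.sq_norm, Complex.normSq_apply,
        Complex.normSq_apply]
      unfold ip
      nlinarith [sq_nonneg (D.re * (-(b1 + b2)).im - D.im * (-(b1 + b2)).re)]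
    exact (abs_le_of_sq_le_sq' h1 (by positivity)).2
  rw [hP] at hC hle ⊢
  refine ⟨5 * (3 * (x * y) - ip D (-(b1 + b2))) / (6 * (x * y)), ?_, ?_, ?_⟩
  · apply div_nonneg
    · linarith
    · linarith
  · rw [div_le_one (by linarith)]
    linarith
  · field_simp

end Pool.Agent.Helper98.LC3
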