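import Pool.Agent.Helper98.LC3.S.OneBase
import Pool.Agent.Helper98.LC3.S.TwoInterp
import Pool.Agent.Helper98.LC3.S.Arcq
import Pool.Agent.Helper98.LC3.S.CertDef
import Pool.Agent.Helper98.LC3.S.Far41

/-!
# LC3-S21: from the certificate to the one-sided inequality

`x ≥ 1/4`, `9/20 ≤ y ≤ 37/20` by `Near41`.  `two_t`: `K = t (x y/5)`, `0 ≤ t ≤ 1`.  `OneAny` gives `mu, Qb, sq, xm, mm, ep, cM, om, ρ, g` and for the end points `kc = 0`, `kc = 1/5` the numbers `q0, ζ0` and `q1, ζ1`.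
`q = (1-t) q0 + t q1`, `ζ = (1-t) ζ0 + t ζ1`, `kb = (t/(5 mu) + mu)/2 * (x y)` (`K (x y) ≤ kb²`: arithmetic-geometric mean).  `one_base` with `bp = bf * cM`, `cw = cf * cM`:
* `xm ≤ 10256/10000 x - 2567/100000 y ≤ (1 + et0/2) x - et0/2 y` (`et0_num`); `cM ≥ 0` as `13796/10^7 (1 + Qb) ≤ 6 xm cM`; `√q ≤ sq` (`q ≤ Qb ≤ sq²`), so `√3 √q bp ≤ 1.7320509 sq bf cM ≤ om`; `ga (1+q)/2 ≤ ep`; `ga et0 ≤ .0013796`.
* the constraint: `(1-t)` times the one for `kc = 0` plus `t` times the one for `kc = 1/5` (the left side is affine in `K` and `kb` because the second factor is the same), `1 + et0 ≤ 1.05133`.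
* `ζ² + y²/4 ≤ q`: convexity.  `cw ≤ bp w - cM w²`: `hw` times `cM ≥ 0`.
* the last condition of `OneE`, divided by `lam = .5370369 x - .0134375 y > 0`, with `arc_q` (`L ≤ 3.1`), `√3 ≤ 1.7320509`, combined with `(1-t)`, `t`:
  `0 ≤ (2/3)(√3/2 (1+q) L - A0 yO) - √3 q + ρ (g - 2 ep kb/(xm mm)) + y ζ - (1+q) lam - (1 + Qb) 2 (.5370369 * .013438) K/lam + (1+q) .0020207 + cf cM`.
  `√(A² + 4 (c0 + ga/2)(ga/2) K) ≤ lam + 2 (.5370369 * .013438) K/lam`, `|A| ≤ lam`, `A = (c0 + ga/2) x - ga/2 y` (`(10256/10000 x - ..) > 0` so `A > 0`; `c0 + ga/2 ≤ .5370369`, `.013437 ≤ ga/2 ≤ .013438`), `1 + q ≤ 1 + Qb`; `g ≤ |y - x|`.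
Conclusion: `-(1+q) .0020207 ≤ (1+q)/√3 σ`, so `σ ≥ -.0020207 √3 ≥ -.0035`.
-/

namespace Pool.Agent.Helper98.LC3

open Finset Real Pool.Agent.Helper98.LC Pool.Agent.Helper38.LC2

variable {a : ℝ} {D s1 b1 b2 s2 : ℂ} {L l1 l2 l3 l4 yO y1 y2 y3 y4 : ℝ}

private theorem on_s3u : √3 ≤ 17320509 / 10000000 := by
  rw [Real.sqrt_le_left (by norm_num)]
  norm_num

private theorem on_s3p : (0 : ℝ) < √3 := Real.sqrt_pos.2 (by norm_num)

/-- the square root -/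
private theorem on_sqrt {A B lam c K : ℝ} (hA0 : 0 ≤ A) (hA : A ≤ lam) (hl : 0 < lam)
    (hB : B ≤ c) (hK : 0 ≤ K) (hc : 0 ≤ c) :
    √(A ^ 2 + 4 * B * K) ≤ lam + 2 * c * K / lam := by
  have h1 : 0 ≤ 2 * c * K / lam := by positivity
  rw [Real.sqrt_le_left (by linarith)]
  have h2 : (lam + 2 * c * K / lam) ^ 2 = lam ^ 2 + 4 * c * K + (2 * c * K / lam) ^ 2 := by
    field_simp
    ring
  rw [h2]
  have h3 : A ^ 2 ≤ lam ^ 2 := pow_le_pow_left₀ hA0 hA 2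
  have h4 : B * K ≤ c * K := mul_le_mul_of_nonneg_right hB hK
  have h5 := sq_nonneg (2 * c * K / lam)
  linarith

/-- the final linear combination -/
private theorem on_key {t q0 q1 ζ0 ζ1 x y L ay S Z lam sec sec' T T' th th' ρ g gg u0 u1 cm κ r3 r3' : ℝ}
    (ht : 0 ≤ t) (ht' : 0 ≤ 1 - t) (hρ : 0 ≤ ρ) (hq0 : 0 ≤ q0) (hq1 : 0 ≤ q1) (hr : r3 ≤ r3')
    (hg : g ≤ gg)
    (A0' : (1 + q0) * (x * sec) - (T - th) / 2 * (1 + q0) ^ 2 - T / 2 * x ^ 2 ≤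
      2 / 3 * (r3 / 2 * (1 + q0) * L - ay))
    (A1' : (1 + q1) * (x * sec') - (T' - th') / 2 * (1 + q1) ^ 2 - T' / 2 * x ^ 2 ≤
      2 / 3 * (r3 / 2 * (1 + q1) * L - ay))
    (h7 : (1 + ((1 - t) * q0 + t * q1)) * S ≤ (1 + ((1 - t) * q0 + t * q1)) * lam + t * Z)
    (X0 : 0 ≤ (1 + q0) * (x * sec - lam) - (T - th) / 2 * (1 + q0) ^ 2 - T / 2 * x ^ 2 -
      r3' * q0 + ρ * (g - u0) + y * ζ0 + (1 + q0) * κ + cm)
    (X1 : Z ≤ (1 + q1) * (x * sec' - lam) - (T' - th') / 2 * (1 + q1) ^ 2 - T' / 2 * x ^ 2 -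
      r3' * q1 + ρ * (g - u1) + y * ζ1 + (1 + q1) * κ + cm) :
    -((1 + ((1 - t) * q0 + t * q1)) * κ) ≤
      2 / 3 * (r3 / 2 * (1 + ((1 - t) * q0 + t * q1)) * L - ay) - r3 * ((1 - t) * q0 + t * q1) +
      ρ * (gg - ((1 - t) * u0 + t * u1)) + y * ((1 - t) * ζ0 + t * ζ1) -
      (1 + ((1 - t) * q0 + t * q1)) * S + cm := by
  have k0 : 0 ≤ 2 / 3 * (r3 / 2 * (1 + q0) * L - ay) - (1 + q0) * lam - r3 * q0 +
      ρ * (gg - u0) + y * ζ0 + (1 + q0) * κ + cm := by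
    have k5 : r3 * q0 ≤ r3' * q0 := mul_le_mul_of_nonneg_right hr hq0
    have k6 : ρ * (g - u0) ≤ ρ * (gg - u0) := mul_le_mul_of_nonneg_left (by linarith) hρ
    linarith
  have k1 : Z ≤ 2 / 3 * (r3 / 2 * (1 + q1) * L - ay) - (1 + q1) * lam - r3 * q1 +
      ρ * (gg - u1) + y * ζ1 + (1 + q1) * κ + cm := by
    have k5 : r3 * q1 ≤ r3' * q1 := mul_le_mul_of_nonneg_right hr hq1
    have k6 : ρ * (g - u1) ≤ ρ * (gg - u1) := mul_le_mul_of_nonneg_left (by linarith) hρ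
    linarith
  have k3 := mul_nonneg ht' k0
  have k4 := mul_le_mul_of_nonneg_left k1 ht
  have e : 2 / 3 * (r3 / 2 * (1 + ((1 - t) * q0 + t * q1)) * L - ay) -
      r3 * ((1 - t) * q0 + t * q1) +
      ρ * (gg - ((1 - t) * u0 + t * u1)) + y * ((1 - t) * ζ0 + t * ζ1) -
      (1 + ((1 - t) * q0 + t * q1)) * lam + (1 + ((1 - t) * q0 + t * q1)) * κ + cm =
      (1 - t) * (2 / 3 * (r3 / 2 * (1 + q0) * L - ay) - (1 + q0) * lam - r3 * q0 +
      ρ * (gg - u0) + y * ζ0 + (1 + q0) * κ + cm) +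
      t * (2 / 3 * (r3 / 2 * (1 + q1) * L - ay) - (1 + q1) * lam - r3 * q1 +
      ρ * (gg - u1) + y * ζ1 + (1 + q1) * κ + cm) := by ring
  linarith

/-- convexity -/
private theorem on_conv {t q0 q1 ζ0 ζ1 y : ℝ} (ht : 0 ≤ t) (ht' : 0 ≤ 1 - t)
    (E02 : ζ0 ^ 2 + y ^ 2 / 4 ≤ q0) (E12 : ζ1 ^ 2 + y ^ 2 / 4 ≤ q1) :
    ((1 - t) * ζ0 + t * ζ1) ^ 2 + y ^ 2 / 4 ≤ (1 - t) * q0 + t * q1 := by
  have h1 := mul_le_mul_of_nonneg_left E02 ht'
  have h2 := mul_le_mul_of_nonneg_left E12 ht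
  have h3 : ((1 - t) * ζ0 + t * ζ1) ^ 2 =
      (1 - t) * ζ0 ^ 2 + t * ζ1 ^ 2 - (1 - t) * t * (ζ0 - ζ1) ^ 2 := by ring
  have h4 : 0 ≤ (1 - t) * t * (ζ0 - ζ1) ^ 2 := by positivity
  rw [h3]
  linarith

private theorem on_w {cf bf cM w : ℝ} (hw : cf ≤ bf * w - w ^ 2) (hcM : 0 ≤ cM) :
    cf * cM ≤ bf * cM * w - cM * w ^ 2 := by
  have h1 := mul_le_mul_of_nonneg_right hw hcM
  linarith

/-- arithmetic and geometric mean -/
private theorem on_kb {t x y mu : ℝ} (hmu : 0 < mu) :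
    t * (x * y / 5) * (x * y) ≤
      ((1 - t) * ((0 / mu + mu) / 2 * (x * y)) + t * ((1 / 5 / mu + mu) / 2 * (x * y))) ^ 2 := by
  have h1 : (1 - t) * ((0 / mu + mu) / 2 * (x * y)) + t * ((1 / 5 / mu + mu) / 2 * (x * y)) =
      (t / (5 * mu) + mu) / 2 * (x * y) := by
    field_simp
    ring
  rw [h1]
  have h2 : t / (5 * mu) * mu = t / 5 := by
    field_simp
  have h3 : ((t / (5 * mu) + mu) / 2 * (x * y)) ^ 2 = t * (x * y / 5) * (x * y) +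
      ((t / (5 * mu) - mu) / 2 * (x * y)) ^ 2 := by
    linear_combination (x * y) ^ 2 * h2
  rw [h3]
  have := sq_nonneg ((t / (5 * mu) - mu) / 2 * (x * y))
  linarith

/-- the constraint -/
private theorem on_c {t q0 q1 x y ep kb0 kb1 xm om ρ e : ℝ} (ht : 0 ≤ t) (ht' : 0 ≤ 1 - t)
    (hep : 0 ≤ ep) (hkb0 : 0 ≤ kb0) (hkb1 : 0 ≤ kb1) (hxm : 0 < xm) (he : e ≤ 5133 / 100000)
    (E01 : (((x + y) / 2) ^ 2 - 0 * (x * y) + ep ^ 2 +
      2 * ep * (105133 / 100000) * kb0 / xm) * (((x + y) / 2) ^ 2 + ρ ^ 2) ≤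
      (q0 - om) * ((x + y) / 2) ^ 2)
    (E11 : (((x + y) / 2) ^ 2 - 1 / 5 * (x * y) + ep ^ 2 +
      2 * ep * (105133 / 100000) * kb1 / xm) * (((x + y) / 2) ^ 2 + ρ ^ 2) ≤
      (q1 - om) * ((x + y) / 2) ^ 2) :
    (((x + y) / 2) ^ 2 - t * (x * y / 5) + ep ^ 2 +
      2 * ep * (1 + e) * ((1 - t) * kb0 + t * kb1) / xm) *
      (((x + y) / 2) ^ 2 + ρ ^ 2) ≤ ((1 - t) * q0 + t * q1 - om) * ((x + y) / 2) ^ 2 := by
  have hkb : 0 ≤ (1 - t) * kb0 + t * kb1 := by positivity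
  have h1 := mul_le_mul_of_nonneg_left E01 ht'
  have h2 := mul_le_mul_of_nonneg_left E11 ht
  have h3 : 2 * ep * (1 + e) * ((1 - t) * kb0 + t * kb1) / xm ≤
      2 * ep * (105133 / 100000) * ((1 - t) * kb0 + t * kb1) / xm := by
    refine div_le_div_of_nonneg_right ?_ hxm.le
    refine mul_le_mul_of_nonneg_right ?_ hkb
    exact mul_le_mul_of_nonneg_left (by linarith) (by positivity)
  have h4 : 0 ≤ ((x + y) / 2) ^ 2 + ρ ^ 2 := by positivity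
  have h5 : (((x + y) / 2) ^ 2 - t * (x * y / 5) + ep ^ 2 +
      2 * ep * (1 + e) * ((1 - t) * kb0 + t * kb1) / xm) * (((x + y) / 2) ^ 2 + ρ ^ 2) ≤
      (((x + y) / 2) ^ 2 - t * (x * y / 5) + ep ^ 2 +
      2 * ep * (105133 / 100000) * ((1 - t) * kb0 + t * kb1) / xm) *
      (((x + y) / 2) ^ 2 + ρ ^ 2) := mul_le_mul_of_nonneg_right (by linarith) h4
  refine h5.trans ?_
  have h6 : (((x + y) / 2) ^ 2 - t * (x * y / 5) + ep ^ 2 +
    2 * ep * (105133 / 100000) * ((1 - t) * kb0 + t * kb1) / xm) * (((x + y) / 2) ^ 2 + ρ ^ 2) =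
    (1 - t) * ((((x + y) / 2) ^ 2 - 0 * (x * y) + ep ^ 2 +
      2 * ep * (105133 / 100000) * kb0 / xm) * (((x + y) / 2) ^ 2 + ρ ^ 2)) +
    t * ((((x + y) / 2) ^ 2 - 1 / 5 * (x * y) + ep ^ 2 +
      2 * ep * (105133 / 100000) * kb1 / xm) * (((x + y) / 2) ^ 2 + ρ ^ 2)) := by
    ring
  have h7 : ((1 - t) * q0 + t * q1 - om) * ((x + y) / 2) ^ 2 =
      (1 - t) * ((q0 - om) * ((x + y) / 2) ^ 2) + t * ((q1 - om) * ((x + y) / 2) ^ 2) := by
    ring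
  rw [h6, h7]
  exact add_le_add h1 h2

/-- the comparison of the root -/
private theorem on_root {x y g c lam : ℝ} (hx : 1 / 4 ≤ x) (hy0 : 0 < y) (hy : y ≤ 37 / 20)
    (g1 : 0.026875 < g) (g2 : g < 0.026876) (c1 : 0.5235986 < c) (c2 : c < 0.5235989)
    (hlam : lam = 5370369 / 10000000 * x - 134375 / 10000000 * y) :
    0 ≤ (c + g / 2) * x - g / 2 * y ∧ (c + g / 2) * x - g / 2 * y ≤ lam ∧
      (c + g / 2) * (g / 2) ≤ 5370369 / 10000000 * (13438 / 1000000) := by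
  have hx0 : 0 < x := by linarith
  refine ⟨?_, ?_, ?_⟩
  · have h2 : (1 / 2 : ℝ) * x ≤ (c + g / 2) * x :=
      mul_le_mul_of_nonneg_right (by linarith) hx0.le
    have h3 : g / 2 * y ≤ 1 / 50 * y := mul_le_mul_of_nonneg_right (by linarith) hy0.le
    linarith
  · have h2 : (c + g / 2) * x ≤ 5370369 / 10000000 * x :=
      mul_le_mul_of_nonneg_right (by linarith) hx0.le
    have h3 : (134375 / 10000000 : ℝ) * y ≤ g / 2 * y :=
      mul_le_mul_of_nonneg_right (by linarith) hy0.le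
    rw [hlam]
    linarith
  · exact mul_le_mul (by linarith) (by linarith) (by linarith) (by norm_num)

theorem one_of_any (h : Face41 a D s1 b1 b2 s2 L l1 l2 l3 l4 yO y1 y2 y3 y4)
    {x y sg bf cf : ℝ} (hs : sg = 1 ∨ sg = -1) (hx : ‖D‖ = √3 * x) (hy : ‖b1 + b2‖ = √3 * y)
    (hn : Near41 D (-(b1 + b2))) (hbf : 0 ≤ bf)
    (hw : cf ≤ bf * ((‖s1‖ + ‖s2‖) / 2) - ((‖s1‖ + ‖s2‖) / 2) ^ 2) (hT : OneAny bf cf x y) :
    3 * min 1 a +
      c0 * ‖D - (et0 : ℂ) * ((s1 + s2) / 2) - ((sg * et0 : ℝ) : ℂ) * ((s1 - s2) / 2)‖ ≤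
      HH l1 l2 l3 l4 y1 y2 y3 y4 + L + 35 / 10000 := by
  have h3p := on_s3p
  have h3u := on_s3u
  obtain ⟨n1, n2, n3, n4, n5⟩ := hn
  rw [norm_neg] at n3 n4 n5
  rw [hx] at n1 n2
  rw [hy] at n3 n4
  have hx1 : 1 / 4 ≤ x := le_of_mul_le_mul_left n1 h3p
  have hx2 : x ≤ 31 / 20 := le_of_mul_le_mul_left n2 h3p
  have hy1 : 9 / 20 ≤ y := le_of_mul_le_mul_left n3 h3p
  have hy2 : y ≤ 37 / 20 := le_of_mul_le_mul_left n4 h3p
  have hx0 : 0 < x := by linarith only [hx1]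
  have hy0 : 0 < y := by linarith only [hy1]
  obtain ⟨t, ht0, ht1, hK⟩ := two_t hx0 hy0 hx hy n5
  obtain ⟨mu, Qb, sq, xm, mm, ep, cM, om, ρ, g, ⟨C1, C2, C3, C4, C5, C6, C7, C8, C9, C10, C11,
    C12, C13⟩, ⟨s, T, th, sec, q0, ζ0, hT0, hq0, hQ0, hζ0, E01, E02, E03, E04⟩,
    ⟨s', T', th', sec', q1, ζ1, hT1, hq1, hQ1, hζ1, E11, E12, E13, E14⟩⟩ := hT
  have ht' : 0 ≤ 1 - t := by linarith only [ht1]
  have hxy : 0 < x * y := mul_pos hx0 hy0
  obtain ⟨e1, e2⟩ := et0_num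
  obtain ⟨g1, g2⟩ := ga_num
  obtain ⟨c1, c2⟩ := c0_num
  have hQb : 0 ≤ Qb := hq0.trans hQ0
  have hcM : 0 < cM := by
    have h1 : 0 < 6 * xm * cM := by
      refine lt_of_lt_of_le ?_ C10
      positivity
    have h2 : 0 < 6 * xm := by positivity
    exact (mul_pos_iff_of_pos_left h2).1 h1
  have hep : 0 ≤ ep := by
    refine le_trans ?_ C9
    positivity
  -- abbreviations
  set kb0 : ℝ := (0 / mu + mu) / 2 * (x * y) with hkb0
  set kb1 : ℝ := (1 / 5 / mu + mu) / 2 * (x * y) with hkb1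
  have hkb0p : 0 ≤ kb0 := by rw [hkb0]; positivity
  have hkb1p : 0 ≤ kb1 := by rw [hkb1]; positivity
  set q : ℝ := (1 - t) * q0 + t * q1 with hqdef
  set ζ : ℝ := (1 - t) * ζ0 + t * ζ1 with hζdef
  set kb : ℝ := (1 - t) * kb0 + t * kb1 with hkbdef
  have hq : 0 ≤ q := by rw [hqdef]; positivity
  have hqQ : q ≤ Qb := by
    have h1 := mul_le_mul_of_nonneg_left hQ0 ht'
    have h2 := mul_le_mul_of_nonneg_left hQ1 ht0
    rw [hqdef]
    linarith only [h1, h2]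
  have hζ : 0 ≤ ζ := by rw [hζdef]; positivity
  have hkb : 0 ≤ kb := by rw [hkbdef]; positivity
  have hkb2 : t * (x * y / 5) * (x * y) ≤ kb ^ 2 := on_kb C1
  have hxm2 : xm ≤ (1 + et0 / 2) * x - et0 / 2 * y := by
    have h1 : (10256 / 10000 : ℝ) * x ≤ (1 + et0 / 2) * x :=
      mul_le_mul_of_nonneg_right (by linarith only [e1]) hx0.le
    have h2 : et0 / 2 * y ≤ 2567 / 100000 * y :=
      mul_le_mul_of_nonneg_right (by linarith only [e2]) hy0.le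
    linarith only [h1, h2, C6]
  have hep1 : ga * (1 + q) / 2 ≤ ep := by
    refine le_trans ?_ C9
    have h1 : ga * (1 + q) ≤ 26876 / 1000000 * (1 + Qb) :=
      mul_le_mul (by linarith only [g2]) (by linarith only [hqQ]) (by linarith only [hq])
        (by norm_num)
    linarith only [h1]
  have hcM1 : ga * et0 * (1 + q) ≤ 6 * xm * cM := by
    refine le_trans ?_ C10
    have h1 : ga * et0 ≤ 13796 / 10000000 := by
      have h2 : ga * et0 ≤ 0.026876 * 0.051330 :=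
        mul_le_mul g2.le e2.le (by linarith only [e1]) (by norm_num)
      refine h2.trans ?_
      norm_num
    exact mul_le_mul h1 (by linarith only [hqQ]) (by linarith only [hq]) (by norm_num)
  have hbp : 0 ≤ bf * cM := mul_nonneg hbf hcM.le
  have hom : √3 * √q * (bf * cM) ≤ om := by
    refine le_trans ?_ C11
    have h1 : √q ≤ sq := by
      rw [Real.sqrt_le_left C3]
      exact hqQ.trans C4
    exact mul_le_mul_of_nonneg_right (mul_le_mul h3u h1 (Real.sqrt_nonneg _) (by norm_num)) hbp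
  have hc : (((x + y) / 2) ^ 2 - t * (x * y / 5) + ep ^ 2 + 2 * ep * (1 + et0) * kb / xm) *
      (((x + y) / 2) ^ 2 + ρ ^ 2) ≤ (q - om) * ((x + y) / 2) ^ 2 :=
    on_c ht0 ht' hep hkb0p hkb1p C5 (by linarith only [e2]) E01 E11
  have hζ2 : ζ ^ 2 + y ^ 2 / 4 ≤ q := on_conv ht0 ht' E02 E12
  have hw' : cf * cM ≤ bf * cM * ((‖s1‖ + ‖s2‖) / 2) - cM * ((‖s1‖ + ‖s2‖) / 2) ^ 2 :=
    on_w hw hcM.le
  have hmm2 : mm ≤ (x + y) / 2 := by linarith only [C8]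
  have hB := one_base h hs hx0.le hy0.le hx hy hK hq C12 hkb hkb2 C5 hxm2 C7 hmm2 hep1 hcM1 hbp
    hom hc hζ hζ2 hw'
  -- the outer edge
  have hL : L ≤ 31 / 10 := by
    have h1 := h.capO
    have h2 := min_le_left 1 a
    have h3 := h.lt
    linarith only [h1, h2, h3]
  have A0' := arc_q h.eO hL hT0 hq0 hx E03
  have A1' := arc_q h.eO hL hT1 hq1 hx E13
  set lam : ℝ := 5370369 / 10000000 * x - 134375 / 10000000 * y with hlam
  have hl : 0 < lam := by rw [hlam]; linarith only [hx1, hy2]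
  set cc : ℝ := 5370369 / 10000000 * (13438 / 1000000) with hcc
  have hcc0 : 0 ≤ cc := by rw [hcc]; norm_num
  have hsq : √(((c0 + ga / 2) * x - ga / 2 * y) ^ 2 +
      4 * (c0 + ga / 2) * (ga / 2) * (t * (x * y / 5))) ≤
      lam + 2 * cc * (t * (x * y / 5)) / lam := by
    have h1 : 4 * (c0 + ga / 2) * (ga / 2) * (t * (x * y / 5)) =
        4 * ((c0 + ga / 2) * (ga / 2)) * (t * (x * y / 5)) := by ring
    rw [h1]
    obtain ⟨r1, r2, r3⟩ := on_root hx1 hy0 hy2 g1 g2 c1 c2 hlam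
    exact on_sqrt r1 r2 hl r3 (by positivity) hcc0
  -- the number Z
  set Z : ℝ := (1 + Qb) * 2 * cc * (1 / 5 * (x * y)) / lam with hZ
  have hq1' : 0 ≤ 1 + q := by linarith only [hq]
  have h7 : (1 + q) * √(((c0 + ga / 2) * x - ga / 2 * y) ^ 2 +
      4 * (c0 + ga / 2) * (ga / 2) * (t * (x * y / 5))) ≤ (1 + q) * lam + t * Z := by
    have h1 := mul_le_mul_of_nonneg_left hsq hq1'
    have h2 : (1 + q) * (2 * cc * (t * (x * y / 5)) / lam) ≤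
        (1 + Qb) * (2 * cc * (t * (x * y / 5)) / lam) :=
      mul_le_mul_of_nonneg_right (by linarith only [hqQ]) (by positivity)
    have h3 : (1 + Qb) * (2 * cc * (t * (x * y / 5)) / lam) = t * Z := by
      rw [hZ]
      ring
    linarith only [h1, h2, h3]
  -- the certificates
  have X0 : 0 ≤ (1 + q0) * (x * sec - lam) - (T - th) / 2 * (1 + q0) ^ 2 - T / 2 * x ^ 2 -
      17320509 / 10000000 * q0 + ρ * (g - 2 * ep * kb0 / (xm * mm)) + y * ζ0 +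
      (1 + q0) * (20207 / 10000000) + cf * cM := by
    have h1 : (1 + Qb) * 2 * cc * (0 * (x * y)) = 0 := by ring
    rw [h1] at E04
    exact nonneg_of_mul_nonneg_left E04 hl
  have X1 : Z ≤ (1 + q1) * (x * sec' - lam) - (T' - th') / 2 * (1 + q1) ^ 2 - T' / 2 * x ^ 2 -
      17320509 / 10000000 * q1 + ρ * (g - 2 * ep * kb1 / (xm * mm)) + y * ζ1 +
      (1 + q1) * (20207 / 10000000) + cf * cM := by
    rw [hZ, div_le_iff₀ hl]
    exact E14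
  have k8 : 2 * ep * kb / (xm * mm) = (1 - t) * (2 * ep * kb0 / (xm * mm)) +
      t * (2 * ep * kb1 / (xm * mm)) := by
    rw [hkbdef]
    ring
  have key : -((1 + q) * (20207 / 10000000)) ≤
      2 / 3 * (√3 / 2 * (1 + q) * L - A0 * yO) - √3 * q +
      ρ * (|y - x| - 2 * ep * kb / (xm * mm)) + y * ζ -
      (1 + q) * √(((c0 + ga / 2) * x - ga / 2 * y) ^ 2 +
        4 * (c0 + ga / 2) * (ga / 2) * (t * (x * y / 5))) + cf * cM := by
    rw [k8]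
    exact on_key ht0 ht' C12 hq0 hq1 h3u C13 A0' A1' h7 X0 X1
  have hfin := key.trans hB
  -- divide
  generalize ‖D - (et0 : ℂ) * ((s1 + s2) / 2) - ((sg * et0 : ℝ) : ℂ) * ((s1 - s2) / 2)‖ = nn at *
  have hq1p : 0 < 1 + q := by linarith only [hq]
  have h9 : (1 + q) / √3 * (HH l1 l2 l3 l4 y1 y2 y3 y4 + L - 3 * min 1 a - c0 * nn) =
      (1 + q) * ((HH l1 l2 l3 l4 y1 y2 y3 y4 + L - 3 * min 1 a - c0 * nn) / √3) := by ring
  rw [h9, ← mul_neg] at hfin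
  have h10 := le_of_mul_le_mul_left hfin hq1p
  rw [le_div_iff₀ h3p] at h10
  have h11 : 20207 / 10000000 * √3 ≤ 35 / 10000 := by
    have := mul_le_mul_of_nonneg_left h3u (show (0 : ℝ) ≤ 20207 / 10000000 by norm_num)
    refine this.trans ?_
    norm_num
  linarith only [h10, h11]

end Pool.Agent.Helper98.LC3
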