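import Pool.Agent.Helper98.LC3.S.Sharp

/-!
# LC3-S23: stability, first step

`σ = HH + L - 3 min 1 a - c0 ‖D - et0 (s1 + s2)‖ ≤ δ ≤ 10^(-8)`, `V = -(b1 + b2)`, `x = ‖D‖/√3`, `y = ‖V‖/√3`, `m = (x+y)/2`, `u = (y-x)/2`; `Cen41` gives `CenXY x y`, `two_t` the number `t`, `two_central` (`0 ≤ q ≤ 3/2` for the convex combination `q`,
`tri ≥ 0`; `σ` may be assumed `≥ 0` by `sharp41`): `(1-t)(1/6)((1-m)² + u²) + t/2500 + (2/3) tri ≤ (1 + 3/2)/√3 δ ≤ (3/2) δ`.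
So `t ≤ 3750 δ ≤ 1/2`, `(1-m)² + u² ≤ 18 δ`, `tri ≤ (9/4) δ`.
* `|x - 1| ≤ |m - 1| + |u| ≤ 6 √δ`, so `|‖D‖ - √3| ≤ 11 √δ`, same for `y`.
* `s1 + s2 = V - D`, `‖V - D‖² = 3 (x-y)² + 12 t x y/5 ≤ 12 * 18 δ + 12 * 3750 * .32 δ`, so `‖s1 + s2‖ ≤ 121 √δ`.
* `q = (1-t)(m² + (243/100) u²) + t q1`, `0 ≤ q1 ≤ 3/2`: `|q - 1| ≤ 2.15 |m - 1| + 44 δ + 2 t ≤ 11 √δ` (`√δ ≤ 10^(-4)`, so `7500 δ ≤ .75 √δ`).  `ζ = (1-t)(√3/2)(m - u/3 + (23/20) u²) + t ζ1`, `0 ≤ ζ1 ≤ 5/4`: `|ζ - √3/2| ≤ 7 √δ`.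
* `G0 = √3 (‖b1‖ + ‖b2‖)/2 - (3/4)‖b1 + b2‖ - cr b1 b2/2 ≤ tri + |√(3q) - √3| * 3 + ‖b1 + b2‖ √3 |ζ - √3/2|/2` (`‖b_i‖ ≤ 3`), `|√(3q) - √3| ≤ √3 |q - 1| ≤ 20 √δ` (`|√q - 1| ≤ |q - 1|`), `‖b1 + b2‖ ≤ 2.2`: `G0 ≤ 90 √δ`.
-/

namespace Pool.Agent.Helper98.LC3

open Finset Real Pool.Agent.Helper98.LC Pool.Agent.Helper38.LC2

variable {a : ℝ} {D s1 b1 b2 s2 : ℂ} {L l1 l2 l3 l4 yO y1 y2 y3 y4 : ℝ}

theorem stab_one (h : Face41 a D s1 b1 b2 s2 L l1 l2 l3 l4 yO y1 y2 y3 y4)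
    (hc : Cen41 D (-(b1 + b2))) {δ : ℝ} (hδ0 : 0 < δ) (hδ : δ ≤ 1 / 10 ^ 8)
    (hs : HH l1 l2 l3 l4 y1 y2 y3 y4 + L - 3 * min 1 a -
      c0 * ‖D - (et0 : ℂ) * (s1 + s2)‖ ≤ δ) :
    |‖D‖ - √3| ≤ 20 * √δ ∧ |‖b1 + b2‖ - √3| ≤ 20 * √δ ∧ ‖s1 + s2‖ ≤ 130 * √δ ∧
      √3 * (‖b1‖ + ‖b2‖) / 2 - 3 / 4 * ‖b1 + b2‖ - cr b1 b2 / 2 ≤ 100 * √δ := by
  obtain ⟨⟨hc1, hc2, hc3, hc4⟩, hc5⟩ := hc
  rw [norm_neg] at hc1 hc2 hc3 hc4 hc5
  have hs3 : 0 < √3 := Real.sqrt_pos.2 (by norm_num)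
  have hs3' : √3 * √3 = 3 := Real.mul_self_sqrt (by norm_num)
  have hs3u : √3 < 17320509 / 10000000 := by
    rw [Real.sqrt_lt' (by norm_num)]
    norm_num
  have hs3l : 1732 / 1000 < √3 := by
    rw [Real.lt_sqrt (by norm_num)]
    norm_num
  obtain ⟨x, hxd⟩ : ∃ x : ℝ, x = ‖D‖ / √3 := ⟨_, rfl⟩
  obtain ⟨y, hyd⟩ : ∃ y : ℝ, y = ‖b1 + b2‖ / √3 := ⟨_, rfl⟩
  rw [← hxd, ← hyd] at hc1 hc2 hc3 hc4
  have hx : ‖D‖ = √3 * x := by rw [hxd]; field_simp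
  have hy : ‖b1 + b2‖ = √3 * y := by rw [hyd]; field_simp
  have hxl : 3 / 4 ≤ x := by linarith
  have hxu : x ≤ 5 / 4 := by linarith
  have hyl : 3 / 4 ≤ y := by linarith
  have hyu : y ≤ 5 / 4 := by linarith
  obtain ⟨t, ht0, ht1, hK⟩ := two_t (D := D) (b1 := b1) (b2 := b2) (x := x) (y := y)
    (by linarith) (by linarith) hx hy hc5
  obtain ⟨q1, ζ1, hq1, hq1b, hζ1, hz1, hmain⟩ := two_central h hx hy ⟨hc1, hc2, hc3, hc4⟩ ht0 ht1 hK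
  have hcc2 := cen_c2 (x := x) (y := y) ⟨hc1, hc2, hc3, hc4⟩
  obtain ⟨m, hm⟩ : ∃ m : ℝ, m = (x + y) / 2 := ⟨_, rfl⟩
  obtain ⟨u, hu⟩ : ∃ u : ℝ, u = (y - x) / 2 := ⟨_, rfl⟩
  rw [← hm, ← hu] at hmain hcc2
  have hml : 17 / 20 ≤ m := by linarith
  have hmu : m ≤ 23 / 20 := by linarith
  have hul : -(1 / 10) ≤ u := by linarith
  have huu : u ≤ 1 / 10 := by linarith
  obtain ⟨σ, hσ⟩ : ∃ σ : ℝ, σ = HH l1 l2 l3 l4 y1 y2 y3 y4 + L - 3 * min 1 a -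
      c0 * ‖D - (et0 : ℂ) * (s1 + s2)‖ := ⟨_, rfl⟩
  rw [← hσ] at hs hmain
  obtain ⟨q0, hq0⟩ : ∃ q0 : ℝ, q0 = m ^ 2 + 243 / 100 * u ^ 2 := ⟨_, rfl⟩
  obtain ⟨ζ0, hζ0⟩ : ∃ ζ0 : ℝ, ζ0 = √3 / 2 * (m - u / 3 + 23 / 20 * u ^ 2) := ⟨_, rfl⟩
  rw [← hq0, ← hζ0] at hmain hcc2
  have hu2 : u ^ 2 ≤ 1 / 100 := by
    have : u ^ 2 ≤ (1 / 10) ^ 2 := sq_le_sq' (by linarith) (by linarith)
    norm_num at this ⊢
    exact this
  have hu2' : 0 ≤ u ^ 2 := sq_nonneg u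
  have hm2 : m ^ 2 ≤ 529 / 400 := by
    have : m ^ 2 ≤ (23 / 20) ^ 2 := sq_le_sq' (by linarith) (by linarith)
    norm_num at this ⊢
    exact this
  have hq0u : q0 ≤ 3 / 2 := by rw [hq0]; linarith
  have hq00 : 0 ≤ q0 := by rw [hq0]; positivity
  have hζ00 : 0 ≤ ζ0 := by
    rw [hζ0]
    apply mul_nonneg (by linarith)
    linarith
  obtain ⟨q, hq⟩ : ∃ q : ℝ, q = (1 - t) * q0 + t * q1 := ⟨_, rfl⟩
  obtain ⟨ζ, hζ⟩ : ∃ ζ : ℝ, ζ = (1 - t) * ζ0 + t * ζ1 := ⟨_, rfl⟩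
  rw [← hq, ← hζ] at hmain
  have ht1' : 0 ≤ 1 - t := by linarith
  have hqn : 0 ≤ q := by
    rw [hq]
    have h1 := mul_nonneg ht1' hq00
    have h2 := mul_nonneg ht0 hq1
    linarith
  have hqu : q ≤ 3 / 2 := by
    rw [hq]
    have h1 := mul_le_mul_of_nonneg_left hq0u ht1'
    have h2 := mul_le_mul_of_nonneg_left hq1b ht0
    linarith
  have hζn : 0 ≤ ζ := by
    rw [hζ]
    have h1 := mul_nonneg ht1' hζ00
    have h2 := mul_nonneg ht0 hζ1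
    linarith
  have htri : 0 ≤ tri b1 b2 q ζ := by
    refine tri_nonneg b1 b2 hy hζn ?_
    have e1 : (1 - t) * (ζ0 ^ 2 + y ^ 2 / 4) ≤ (1 - t) * q0 :=
      mul_le_mul_of_nonneg_left hcc2 ht1'
    have e2 : t * (ζ1 ^ 2 + y ^ 2 / 4) ≤ t * q1 := mul_le_mul_of_nonneg_left hz1 ht0
    have e3 : 0 ≤ (1 - t) * t * (ζ0 - ζ1) ^ 2 :=
      mul_nonneg (mul_nonneg ht1' ht0) (sq_nonneg _)
    have e4 : ζ ^ 2 = (1 - t) * ζ0 ^ 2 + t * ζ1 ^ 2 - (1 - t) * t * (ζ0 - ζ1) ^ 2 := by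
      rw [hζ]; ring
    rw [e4, hq]
    linarith
  -- the three terms
  have hR : (1 + q) / √3 * σ ≤ 3 / 2 * δ := by
    have h1 : (1 + q) / √3 ≤ 3 / 2 := by
      rw [div_le_iff₀ hs3]
      linarith
    have h2 : 0 ≤ (1 + q) / √3 := by positivity
    calc (1 + q) / √3 * σ ≤ (1 + q) / √3 * δ := mul_le_mul_of_nonneg_left hs h2
      _ ≤ 3 / 2 * δ := mul_le_mul_of_nonneg_right h1 hδ0.le
  obtain ⟨w, hw⟩ : ∃ w : ℝ, w = (1 - m) ^ 2 + u ^ 2 := ⟨_, rfl⟩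
  have hw0 : 0 ≤ w := by rw [hw]; positivity
  rw [← hw] at hmain
  have hA0 : 0 ≤ (1 - t) * (1 / 6 * w) := mul_nonneg ht1' (by linarith)
  have ht2 : t ≤ 3750 * δ := by linarith
  have htri2 : tri b1 b2 q ζ ≤ 9 / 4 * δ := by linarith
  have ht3 : t ≤ 1 / 2 := by
    have : 3750 * δ ≤ 3750 * (1 / 10 ^ 8) := by linarith
    norm_num at this
    linarith
  have hw18 : w ≤ 18 * δ := by
    have h1 : 1 / 2 * (1 / 6 * w) ≤ (1 - t) * (1 / 6 * w) :=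
      mul_le_mul_of_nonneg_right (by linarith) (by linarith)
    linarith
  -- the square root
  obtain ⟨S, hS⟩ : ∃ S : ℝ, S = √δ := ⟨_, rfl⟩
  have hS0 : 0 < S := by rw [hS]; exact Real.sqrt_pos.2 hδ0
  have hSS : S * S = δ := by rw [hS]; exact Real.mul_self_sqrt hδ0.le
  have hSu : S ≤ 1 / 10000 := by
    rw [hS, Real.sqrt_le_left (by norm_num)]
    refine hδ.trans (le_of_eq ?_)
    norm_num
  rw [← hS]
  have hδS : δ ≤ 1 / 10000 * S := by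
    rw [← hSS]
    exact mul_le_mul_of_nonneg_right hSu hS0.le
  have ht4 : t ≤ 3 / 8 * S := by linarith
  have hmS : |m - 1| ≤ 17 / 4 * S := by
    apply abs_le_of_sq_le_sq _ (by linarith)
    have e1 : (17 / 4 * S) ^ 2 = 289 / 16 * δ := by rw [← hSS]; ring
    have e2 : (m - 1) ^ 2 = w - u ^ 2 := by rw [hw]; ring
    rw [e1, e2]
    linarith
  have huS : |u| ≤ 17 / 4 * S := by
    apply abs_le_of_sq_le_sq _ (by linarith)
    have e1 : (17 / 4 * S) ^ 2 = 289 / 16 * δ := by rw [← hSS]; ring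
    have e2 : u ^ 2 = w - (1 - m) ^ 2 := by rw [hw]; ring
    have e3 := sq_nonneg (1 - m)
    rw [e1, e2]
    linarith
  obtain ⟨hm3, hm4⟩ := abs_le.1 hmS
  obtain ⟨hu3, hu4⟩ := abs_le.1 huS
  have hxm : x = m - u := by rw [hm, hu]; ring
  have hym : y = m + u := by rw [hm, hu]; ring
  have hx1 : |x - 1| ≤ 17 / 2 * S := by rw [hxm, abs_le]; constructor <;> linarith
  have hy1 : |y - 1| ≤ 17 / 2 * S := by rw [hym, abs_le]; constructor <;> linarith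
  have key : ∀ z : ℝ, |z - 1| ≤ 17 / 2 * S → |√3 * z - √3| ≤ 20 * S := by
    intro z hz
    have e1 : √3 * z - √3 = √3 * (z - 1) := by ring
    rw [e1, abs_mul, abs_of_pos hs3]
    calc √3 * |z - 1| ≤ √3 * (17 / 2 * S) := mul_le_mul_of_nonneg_left hz hs3.le
      _ ≤ 17320509 / 10000000 * (17 / 2 * S) := mul_le_mul_of_nonneg_right hs3u.le (by linarith)
      _ ≤ 20 * S := by linarith
  refine ⟨?_, ?_, ?_, ?_⟩
  · rw [hx]; exact key x hx1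
  · rw [hy]; exact key y hy1
  · -- the walls
    have hss : s1 + s2 = -(b1 + b2) - D := by linear_combination h.sum
    apply abs_le_of_sq_le_sq' _ (by linarith) |>.2
    have e1 : ‖s1 + s2‖ ^ 2 = ‖b1 + b2‖ ^ 2 + ‖D‖ ^ 2 - 2 * ip D (-(b1 + b2)) := by
      rw [hss]
      rw [Complex.sq_norm, Complex.sq_norm, Complex.sq_norm, Complex.normSq_apply,
        Complex.normSq_apply, Complex.normSq_apply]
      simp only [ip, Complex.sub_re, Complex.sub_im, Complex.neg_re, Complex.neg_im]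
      ring
    have e2 : ip D (-(b1 + b2)) = ‖D‖ * ‖b1 + b2‖ - 6 * (t * (x * y / 5)) := by linarith
    have e3 : ‖s1 + s2‖ ^ 2 = 12 * u ^ 2 + 12 / 5 * (t * (x * y)) := by
      rw [e1, e2, hx, hy, hu]
      linear_combination (x - y) ^ 2 * hs3'
    have e4 : t * (x * y) ≤ 3750 * δ * (5 / 4 * (5 / 4)) := by
      apply mul_le_mul ht2 _ _ (by linarith)
      · exact mul_le_mul hxu hyu (by linarith) (by norm_num)
      · exact mul_nonneg (by linarith) (by linarith)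
    have e5 : u ^ 2 ≤ 18 * δ := by
      have : u ^ 2 = w - (1 - m) ^ 2 := by rw [hw]; ring
      rw [this]
      linarith [sq_nonneg (1 - m)]
    have e6 : (130 * S) ^ 2 = 16900 * δ := by rw [← hSS]; ring
    rw [e3, e6]
    linarith
  · -- the gap
    have hb1 : ‖b1‖ ≤ 3 := by
      have h1 := h.e2.le
      have h2 := h.cap2
      have h3 : min 1 a ≤ 1 := min_le_left _ _
      linarith
    have hb2 : ‖b2‖ ≤ 3 := by
      have h1 := h.e3.le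
      have h2 := h.cap3
      have h3 : min 1 a ≤ 1 := min_le_left _ _
      linarith
    have hb0 : 0 ≤ ‖b1‖ + ‖b2‖ := by positivity
    -- the estimate for q
    have husm : u ^ 2 ≤ 18 * δ := by
      have : u ^ 2 = w - (1 - m) ^ 2 := by rw [hw]; ring
      rw [this]
      linarith [sq_nonneg (1 - m)]
    have hmm : |m ^ 2 - 1| ≤ 92 / 10 * S := by
      have e1 : m ^ 2 - 1 = (m + 1) * (m - 1) := by ring
      rw [e1, abs_mul, abs_of_pos (by linarith : (0 : ℝ) < m + 1)]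
      calc (m + 1) * |m - 1| ≤ (43 / 20) * |m - 1| :=
            mul_le_mul_of_nonneg_right (by linarith) (abs_nonneg _)
        _ ≤ (43 / 20) * (17 / 4 * S) := by linarith
        _ ≤ 92 / 10 * S := by linarith
    obtain ⟨hmm1, hmm2⟩ := abs_le.1 hmm
    have hq0S : |q0 - 1| ≤ 93 / 10 * S := by
      rw [hq0, abs_le]
      constructor <;> linarith
    obtain ⟨hq3, hq4⟩ := abs_le.1 hq0S
    have hqS : |q - 1| ≤ 11 * S := by
      have e1 : q - 1 = (q0 - 1) + t * (q1 - q0) := by rw [hq]; ring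
      have e2 : |t * (q1 - q0)| ≤ 3 / 8 * S * (3 / 2) := by
        rw [abs_mul, abs_of_nonneg ht0]
        apply mul_le_mul ht4 _ (abs_nonneg _) (by linarith)
        rw [abs_le]
        constructor <;> linarith
      obtain ⟨e3, e4⟩ := abs_le.1 e2
      rw [e1, abs_le]
      constructor <;> linarith
    obtain ⟨hq5, hq6⟩ := abs_le.1 hqS
    -- the square root of 3 q
    obtain ⟨R, hR'⟩ : ∃ R : ℝ, R = √(3 * q) := ⟨_, rfl⟩
    have hR0 : 0 ≤ R := by rw [hR']; exact Real.sqrt_nonneg _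
    have hRR : R * R = 3 * q := by rw [hR']; exact Real.mul_self_sqrt (by linarith)
    have hRd : √3 - R ≤ 191 / 10 * S := by
      by_contra hcon
      push Not at hcon
      have e1 : (√3 - R) * (√3 + R) = 3 * (1 - q) := by
        have : (√3 - R) * (√3 + R) = √3 * √3 - R * R := by ring
        rw [this, hs3', hRR]; ring
      have e2 : 191 / 10 * S * √3 < (√3 - R) * √3 := mul_lt_mul_of_pos_right hcon hs3
      have e3 : 0 ≤ (√3 - R) * R := mul_nonneg (by linarith) hR0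
      have e4 : (√3 - R) * (√3 + R) = (√3 - R) * √3 + (√3 - R) * R := by ring
      have e5 : 191 / 10 * S * (1732 / 1000) ≤ 191 / 10 * S * √3 :=
        mul_le_mul_of_nonneg_left hs3l.le (by linarith)
      linarith
    -- ζ
    have hζS : ζ - √3 / 2 ≤ 7 * S := by
      have e1 : ζ0 - √3 / 2 = √3 / 2 * ((m - 1) - u / 3 + 23 / 20 * u ^ 2) := by rw [hζ0]; ring
      have e2 : ζ0 - √3 / 2 ≤ √3 / 2 * (6 * S) := by
        rw [e1]
        apply mul_le_mul_of_nonneg_left _ (by linarith)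
        linarith
      have e3 : √3 / 2 * (6 * S) ≤ 17320509 / 20000000 * (6 * S) :=
        mul_le_mul_of_nonneg_right (by linarith) (by linarith)
      have e4 : ζ1 ≤ 5 / 4 := by
        apply abs_le_of_sq_le_sq' _ (by norm_num) |>.2
        have := sq_nonneg y
        norm_num
        linarith
      have e5 : t * (ζ1 - √3 / 2) ≤ 3 / 8 * S * (5 / 4) := by
        rcases le_total 0 (ζ1 - √3 / 2) with h1 | h1
        · exact mul_le_mul ht4 (by linarith) h1 (by linarith)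
        · have h2 : t * (ζ1 - √3 / 2) ≤ 0 := mul_nonpos_of_nonneg_of_nonpos ht0 h1
          have h3 : 0 ≤ 3 / 8 * S * (5 / 4) := by positivity
          linarith
      have e6 : ζ - √3 / 2 = (1 - t) * (ζ0 - √3 / 2) + t * (ζ1 - √3 / 2) := by rw [hζ]; ring
      have e7 : (1 - t) * (ζ0 - √3 / 2) ≤ 17320509 / 20000000 * (6 * S) := by
        rcases le_total 0 (ζ0 - √3 / 2) with h1 | h1
        · have h2 : (1 - t) * (ζ0 - √3 / 2) ≤ 1 * (ζ0 - √3 / 2) :=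
            mul_le_mul_of_nonneg_right (by linarith) h1
          linarith
        · have h2 : (1 - t) * (ζ0 - √3 / 2) ≤ 0 := mul_nonpos_of_nonneg_of_nonpos ht1' h1
          have h3 : 0 ≤ 17320509 / 20000000 * (6 * S) := by positivity
          linarith
      rw [e6]
      linarith
    have hB : ‖b1 + b2‖ ≤ 22 / 10 := by
      rw [hy]
      calc √3 * y ≤ 17320509 / 10000000 * (5 / 4) :=
            mul_le_mul hs3u.le hyu (by linarith) (by norm_num)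
        _ ≤ 22 / 10 := by norm_num
    have hB0 : 0 ≤ ‖b1 + b2‖ := norm_nonneg _
    have htr : tri b1 b2 q ζ = R * (‖b1‖ + ‖b2‖) / 2 - ‖b1 + b2‖ * (√3 * ζ) / 2 - cr b1 b2 / 2 := by
      rw [hR']; rfl
    have f1 : (√3 - R) * (‖b1‖ + ‖b2‖) ≤ 191 / 10 * S * 6 := by
      calc (√3 - R) * (‖b1‖ + ‖b2‖) ≤ 191 / 10 * S * (‖b1‖ + ‖b2‖) :=
            mul_le_mul_of_nonneg_right hRd hb0
        _ ≤ 191 / 10 * S * 6 := mul_le_mul_of_nonneg_left (by linarith) (by linarith)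
    have f2 : ‖b1 + b2‖ * (√3 * (ζ - √3 / 2)) ≤ 22 / 10 * (17320509 / 10000000 * (7 * S)) := by
      have g1 : √3 * (ζ - √3 / 2) ≤ 17320509 / 10000000 * (7 * S) := by
        calc √3 * (ζ - √3 / 2) ≤ √3 * (7 * S) := mul_le_mul_of_nonneg_left hζS hs3.le
          _ ≤ 17320509 / 10000000 * (7 * S) := mul_le_mul_of_nonneg_right hs3u.le (by linarith)
      calc ‖b1 + b2‖ * (√3 * (ζ - √3 / 2)) ≤ ‖b1 + b2‖ * (17320509 / 10000000 * (7 * S)) :=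
            mul_le_mul_of_nonneg_left g1 hB0
        _ ≤ 22 / 10 * (17320509 / 10000000 * (7 * S)) :=
            mul_le_mul_of_nonneg_right hB (by positivity)
    have f3 : ‖b1 + b2‖ * (√3 * (ζ - √3 / 2)) = ‖b1 + b2‖ * (√3 * ζ) - 3 / 2 * ‖b1 + b2‖ := by
      linear_combination (-(‖b1 + b2‖ / 2)) * hs3'
    linarith

end Pool.Agent.Helper98.LC3
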