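import Pool.Agent.Helper98.LC3.S.FarDef
import Pool.Agent.Helper38.LC2.ArcNum

/-!
# LC3-S09: the angles of the certificates

`θ = 2 arctan u`, `u = 1/21, 1/13, 1/9, 1/7, 1/5, 1/4, 1/3, 2/5` and `3/11, 2/7, 4/15`: `sin θ = 2u/(1+u²)`, `cos θ = (1-u²)/(1+u²)`, `tan θ = 2u/(1-u²)` (`Real.sin_arctan`, `Real.cos_arctan`, double angle formulas; or
`θ = arctan T` with `√(1 + T²) = sec` rational: `sin (arctan T) = T/√(1+T²)`, `cos (arctan T) = 1/√(1+T²)`, `tan (arctan T) = T`, and `arctan T = 2 arctan u` by `Real.two_mul_arctan`).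
Lower bounds of `θ`: `Pool.Agent.Helper38.LC2.arctan_lower` for `u ≤ 1/3`: `arctan u ≥ u - u³/3 + u⁵/5 - u⁷/7 + u⁹/9 - u¹¹/11`.  For `u = 2/5` (`T = 20/21`): `θ = π/4 - arctan (1/41)`, `arctan (1/41) ≤ 1/41 - ...` (`arctan_upper`),
`π > 3.141592`; for `u = 1/3` (`T = 3/4`): `θ = π/4 - arctan (1/7)` (`arctan_quarter`).  Upper bound: `θ ≤ 1.2`.
-/

namespace Pool.Agent.Helper98.LC3

open Real

private theorem trig_gen {u s T th sec : ℝ} (hu0 : 0 < u) (hu1 : u < 1)
    (hs : 2 * u / (1 + u ^ 2) = s) (hT : 2 * u / (1 - u ^ 2) = T)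
    (hsec : (1 - u ^ 2) / (1 + u ^ 2) = 1 / sec)
    (hup : 2 * (u - u ^ 3 / 3 + u ^ 5 / 5 - u ^ 7 / 7 + u ^ 9 / 9) ≤ 1.2)
    (hth : th ≤ 2 * arctan u) : TrigQ s T th sec := by
  have h1 : 0 < 1 + u ^ 2 := by positivity
  have h2 : 0 < 1 - u ^ 2 := by nlinarith
  have hsq : √(1 + u ^ 2) ^ 2 = 1 + u ^ 2 := Real.sq_sqrt h1.le
  have hsp : 0 < √(1 + u ^ 2) := Real.sqrt_pos.2 h1
  have hsin : Real.sin (2 * arctan u) = s := by
    rw [Real.sin_two_mul, Real.sin_arctan, Real.cos_arctan, ← hs]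
    have e : 2 * (u / √(1 + u ^ 2)) * (1 / √(1 + u ^ 2)) = 2 * u / √(1 + u ^ 2) ^ 2 := by
      field_simp
    rw [e, hsq]
  have hcos : Real.cos (2 * arctan u) = 1 / sec := by
    rw [Real.cos_two_mul, Real.cos_arctan, ← hsec, div_pow, hsq, one_pow]
    field_simp
    ring
  refine ⟨2 * arctan u, ?_, ?_, hsin, ?_, hth, hcos⟩
  · have := Real.arctan_pos.2 hu0
    linarith
  · refine le_trans ?_ hup
    have := Pool.Agent.Helper38.LC2.arctan_upper hu0.le
    linarith
  · rw [Real.tan_eq_sin_div_cos, hsin, hcos, ← hs, ← hsec, ← hT]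
    field_simp

private theorem lowb {u th : ℝ} (hu0 : 0 < u)
    (h : th ≤ 2 * (u - u ^ 3 / 3 + u ^ 5 / 5 - u ^ 7 / 7 + u ^ 9 / 9 - u ^ 11 / 11)) :
    th ≤ 2 * arctan u := by
  have := Pool.Agent.Helper38.LC2.arctan_lower hu0.le
  linarith

theorem trigQ_0 : TrigQ (21 / 221) (21 / 220) (47583 / 500000) (221 / 220) :=
  trig_gen (u := 1 / 21) (by norm_num) (by norm_num) (by norm_num) (by norm_num) (by norm_num)
    (by norm_num) (lowb (by norm_num) (by norm_num))

theorem trigQ_1 : TrigQ (13 / 85) (13 / 84) (153543 / 1000000) (85 / 84) :=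
  trig_gen (u := 1 / 13) (by norm_num) (by norm_num) (by norm_num) (by norm_num) (by norm_num)
    (by norm_num) (lowb (by norm_num) (by norm_num))

theorem trigQ_2 : TrigQ (9 / 41) (9 / 40) (110657 / 500000) (41 / 40) :=
  trig_gen (u := 1 / 9) (by norm_num) (by norm_num) (by norm_num) (by norm_num) (by norm_num)
    (by norm_num) (lowb (by norm_num) (by norm_num))

theorem trigQ_3 : TrigQ (7 / 25) (7 / 24) (141897 / 500000) (25 / 24) :=
  trig_gen (u := 1 / 7) (by norm_num) (by norm_num) (by norm_num) (by norm_num) (by norm_num)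
    (by norm_num) (lowb (by norm_num) (by norm_num))

theorem trigQ_4 : TrigQ (5 / 13) (5 / 12) (394791 / 1000000) (13 / 12) :=
  trig_gen (u := 1 / 5) (by norm_num) (by norm_num) (by norm_num) (by norm_num) (by norm_num)
    (by norm_num) (lowb (by norm_num) (by norm_num))

theorem trigQ_5 : TrigQ (8 / 17) (8 / 15) (489957 / 1000000) (17 / 15) :=
  trig_gen (u := 1 / 4) (by norm_num) (by norm_num) (by norm_num) (by norm_num) (by norm_num)
    (by norm_num) (lowb (by norm_num) (by norm_num))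

theorem trigQ_6 : TrigQ (3 / 5) (3 / 4) (643501 / 1000000) (5 / 4) :=
  trig_gen (u := 1 / 3) (by norm_num) (by norm_num) (by norm_num) (by norm_num) (by norm_num)
    (by norm_num) (lowb (by norm_num) (by norm_num))

theorem trigQ_7 : TrigQ (20 / 29) (20 / 21) (190253 / 250000) (29 / 21) := by
  refine trig_gen (u := 2 / 5) (by norm_num) (by norm_num) (by norm_num) (by norm_num)
    (by norm_num) (by norm_num) ?_
  have h1 : 2 * arctan (2 / 5) = arctan (20 / 21) := by
    rw [Real.two_mul_arctan (by norm_num) (by norm_num)]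
    congr 1
    norm_num
  have h2 := Pool.Agent.Helper38.LC2.arctan_quarter (x := 20 / 21) (by norm_num)
  have h3 : ((1 : ℝ) - 20 / 21) / (1 + 20 / 21) = 1 / 41 := by norm_num
  rw [h3] at h2
  have h4 := Pool.Agent.Helper38.LC2.arctan_upper (x := 1 / 41) (by norm_num)
  have h5 := Real.pi_gt_d6
  rw [h1, h2]
  norm_num at h4 h5 ⊢
  linarith

/-- `u = 3/11` -/
theorem trigQ_10 : TrigQ (33 / 65) (33 / 56) (532503 / 1000000) (65 / 56) :=
  trig_gen (u := 3 / 11) (by norm_num) (by norm_num) (by norm_num) (by norm_num) (by norm_num)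
    (by norm_num) (lowb (by norm_num) (by norm_num))

/-- `u = 2/7` -/
theorem trigQ_11 : TrigQ (28 / 53) (28 / 45) (556599 / 1000000) (53 / 45) :=
  trig_gen (u := 2 / 7) (by norm_num) (by norm_num) (by norm_num) (by norm_num) (by norm_num)
    (by norm_num) (lowb (by norm_num) (by norm_num))

/-- `u = 4/15` -/
theorem trigQ_12 : TrigQ (120 / 241) (120 / 209) (130301 / 250000) (241 / 209) :=
  trig_gen (u := 4 / 15) (by norm_num) (by norm_num) (by norm_num) (by norm_num) (by norm_num)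
    (by norm_num) (lowb (by norm_num) (by norm_num))

end Pool.Agent.Helper98.LC3
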