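import Pool.Agent.Helper98.LC3.S.BaseS

/-!
# LC3-S14: the two-sided inequality in scaled variables

`V = -(b1 + b2)`, `‖D‖ = √3 x`, `‖V‖ = √3 y`, `6 K = ‖D‖ ‖V‖ - ip D V`, `U = (s1 + s2)/2 = (V - D)/2`, `N = (D + V)/2`, `D' = D - et0 (s1 + s2) = (1 + et0) D - et0 V`.
* `two_norm`: `‖N‖² = (‖D‖² + ‖V‖² + 2 ip D V)/4 = 3 (((x+y)/2)² - K)`; `(c0 ‖D'‖)² = ‖(c0 + ga) D - ga V‖²` (`c0 * et0 = ga`) `= 3 (((c0 + ga) x - ga y)² + 4 (c0 + ga) ga K)`.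
* `two_base`: `baseS` with `β = 0`, `τ = √(3q)`, `E = I * N` (`ip E M = cr N M`, `‖E‖ = ‖N‖`), `P = ± √3 ρ N/‖N‖` (sign of `ip N U`; `P = √3 ρ U/‖U‖` if `N = 0`, `P = 0` if `N = U = 0`; see the proof of `base41`):
  `‖P ± E‖² = 3 ρ² + ‖N‖² ≤ 3 q = τ²`, `ip P U ≥ √3 ρ u`, `u = (√3/2)|y - x|` (`u ‖N‖ ≤ |ip N U|`, `u ≤ ‖U‖` as in S11).
  `rr τ = (√3/2)(1 + q)`, `τ² = 3q`.  Multiply by `2/3`; `(2/3) rr τ c0 ‖D'‖ = (1+q) √(((c0+ga) x - ga y)² + 4 (c0+ga) ga K)`, `(2/3) rr τ = (1+q)/√3`;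
  `(2/3)(τ (‖b1‖+‖b2‖)/2 - cr b1 b2/2) = (2/3)(... - ‖b1+b2‖ √3 ζ/2) + y ζ`; the terms with `a - min 1 a`, `1 - min 1 a` are `≥ 0` and are kept.
* `tri_nonneg`: `tri_low` with `z = √3 ζ`, `τ = √(3 q)`.
-/

namespace Pool.Agent.Helper98.LC3

open Finset Real Pool.Agent.Helper98.LC Pool.Agent.Helper38.LC2

variable {a : ℝ} {D s1 b1 b2 s2 : ℂ} {L l1 l2 l3 l4 yO y1 y2 y3 y4 : ℝ}

/-- the slack of `tri_low` -/
noncomputable def tri (b1 b2 : ℂ) (q ζ : ℝ) : ℝ :=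
  √(3 * q) * (‖b1‖ + ‖b2‖) / 2 - ‖b1 + b2‖ * (√3 * ζ) / 2 - cr b1 b2 / 2

theorem tri_nonneg (b1 b2 : ℂ) {y q ζ : ℝ} (hy : ‖b1 + b2‖ = √3 * y) (hζ : 0 ≤ ζ)
    (h : ζ ^ 2 + y ^ 2 / 4 ≤ q) : 0 ≤ tri b1 b2 q ζ := by
  have h3 : √3 * √3 = 3 := Real.mul_self_sqrt (by norm_num)
  have hq : 0 ≤ 3 * q := by nlinarith [sq_nonneg ζ, sq_nonneg y]
  have hz : 0 ≤ √3 * ζ := mul_nonneg (Real.sqrt_nonneg _) hζ
  have ht := tri_low b1 b2 (τ := √(3 * q)) hz (Real.sqrt_nonneg _) (by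
    rw [Real.sq_sqrt hq, hy]
    have e1 : (√3 * ζ) ^ 2 + (√3 * y) ^ 2 / 4 = (√3 * √3) * (ζ ^ 2 + y ^ 2 / 4) := by ring
    rw [e1, h3]
    linarith)
  unfold tri
  linarith

private theorem nsq (z : ℂ) : ‖z‖ ^ 2 = z.re ^ 2 + z.im ^ 2 := by
  rw [Complex.sq_norm, Complex.normSq_apply]
  ring

private theorem ip_smul (c : ℝ) (x y : ℂ) : ip ((c : ℂ) * x) y = c * ip x y := by
  simp only [ip, Complex.re_ofReal_mul, Complex.im_ofReal_mul]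
  ring

private theorem ip_self (x : ℂ) : ip x x = ‖x‖ ^ 2 := by
  rw [nsq]
  simp only [ip]
  ring

private theorem ip_I (N M : ℂ) : ip (Complex.I * N) M = cr N M := by
  simp [ip, cr]
  ring

/-- the two vectors `P`, `E = I * N` -/
private theorem exists_P (N U : ℂ) {τ ρ u : ℝ} (hτ : 0 ≤ τ) (hρ : 0 ≤ ρ)
    (hρ2 : ‖N‖ ^ 2 + ρ ^ 2 ≤ τ ^ 2) (hu : u * ‖N‖ ≤ |ip N U|) (hu2 : u ≤ ‖U‖) :
    ∃ P : ℂ, ‖P + Complex.I * N‖ ≤ τ ∧ ‖P - Complex.I * N‖ ≤ τ ∧ ρ * u ≤ ip P U := by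
  by_cases hN : N = 0
  · subst hN
    have hρτ : ρ ≤ τ := by
      apply abs_le_of_sq_le_sq' _ hτ |>.2
      have := sq_nonneg ‖(0 : ℂ)‖
      linarith
    by_cases hU : U = 0
    · subst hU
      refine ⟨0, ?_, ?_, ?_⟩
      · simpa using hτ
      · simpa using hτ
      · have : u ≤ 0 := by simpa using hu2
        have h0 : ip 0 (0 : ℂ) = 0 := by simp [ip]
        rw [h0]
        exact mul_nonpos_of_nonneg_of_nonpos hρ this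
    · have hU' : 0 < ‖U‖ := norm_pos_iff.2 hU
      refine ⟨((ρ / ‖U‖ : ℝ) : ℂ) * U, ?_, ?_, ?_⟩
      · rw [mul_zero, add_zero, norm_mul, Complex.norm_real, Real.norm_eq_abs,
          abs_of_nonneg (by positivity), div_mul_cancel₀ _ hU'.ne']
        exact hρτ
      · rw [mul_zero, sub_zero, norm_mul, Complex.norm_real, Real.norm_eq_abs,
          abs_of_nonneg (by positivity), div_mul_cancel₀ _ hU'.ne']
        exact hρτ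
      · rw [ip_smul, ip_self]
        have : ρ / ‖U‖ * ‖U‖ ^ 2 = ρ * ‖U‖ := by
          field_simp
        rw [this]
        exact mul_le_mul_of_nonneg_left hu2 hρ
  · have hN' : 0 < ‖N‖ := norm_pos_iff.2 hN
    have key : ∀ σ : ℝ, σ ^ 2 = 1 → ∀ e : ℝ, e ^ 2 = 1 →
        ‖((σ * ρ / ‖N‖ : ℝ) : ℂ) * N + (e : ℂ) * (Complex.I * N)‖ ≤ τ := by
      intro σ hσ e he
      apply abs_le_of_sq_le_sq' _ hτ |>.2
      rw [nsq]
      have h1 : (((σ * ρ / ‖N‖ : ℝ) : ℂ) * N + (e : ℂ) * (Complex.I * N)).re =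
          σ * ρ / ‖N‖ * N.re - e * N.im := by
        simp only [Complex.add_re, Complex.re_ofReal_mul, Complex.I_mul_re]
        ring
      have h2 : (((σ * ρ / ‖N‖ : ℝ) : ℂ) * N + (e : ℂ) * (Complex.I * N)).im =
          σ * ρ / ‖N‖ * N.im + e * N.re := by
        simp only [Complex.add_im, Complex.im_ofReal_mul, Complex.I_mul_im]
      rw [h1, h2]
      have h3 := nsq N
      have h4 : (σ * ρ / ‖N‖) ^ 2 * ‖N‖ ^ 2 = ρ ^ 2 := by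
        rw [div_pow, div_mul_cancel₀ _ (by positivity), mul_pow, hσ, one_mul]
      have h5 : (σ * ρ / ‖N‖ * N.re - e * N.im) ^ 2 + (σ * ρ / ‖N‖ * N.im + e * N.re) ^ 2 =
          (σ * ρ / ‖N‖) ^ 2 * (N.re ^ 2 + N.im ^ 2) + e ^ 2 * (N.re ^ 2 + N.im ^ 2) := by
        ring
      rw [h5, ← h3, h4, he]
      linarith
    obtain ⟨σ, hσ, hσ2⟩ : ∃ σ : ℝ, σ ^ 2 = 1 ∧ |ip N U| = σ * ip N U := by
      rcases le_total 0 (ip N U) with h | h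
      · exact ⟨1, by norm_num, by rw [abs_of_nonneg h, one_mul]⟩
      · exact ⟨-1, by norm_num, by rw [abs_of_nonpos h]; ring⟩
    refine ⟨((σ * ρ / ‖N‖ : ℝ) : ℂ) * N, ?_, ?_, ?_⟩
    · have := key σ hσ 1 (by norm_num)
      simpa using this
    · have := key σ hσ (-1) (by norm_num)
      rw [sub_eq_add_neg]
      simpa using this
    · rw [ip_smul]
      have h1 : σ * ρ / ‖N‖ * ip N U = ρ * (|ip N U| / ‖N‖) := by
        rw [hσ2]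
        ring
      rw [h1]
      apply mul_le_mul_of_nonneg_left _ hρ
      rw [le_div_iff₀ hN']
      exact hu

theorem two_norm1 {V : ℂ} {x y K : ℝ} (hx : ‖D‖ = √3 * x) (hy : ‖V‖ = √3 * y)
    (hK : 6 * K = ‖D‖ * ‖V‖ - ip D V) :
    ‖(D + V) / 2‖ ^ 2 = 3 * (((x + y) / 2) ^ 2 - K) := by
  have h3 : √3 * √3 = 3 := Real.mul_self_sqrt (by norm_num)
  have e1 : ‖(D + V) / 2‖ ^ 2 = (‖D‖ ^ 2 + ‖V‖ ^ 2 + 2 * ip D V) / 4 := by
    rw [nsq, nsq, nsq]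
    simp only [ip, Complex.div_ofNat_re, Complex.div_ofNat_im, Complex.add_re, Complex.add_im]
    ring
  have e2 : ip D V = ‖D‖ * ‖V‖ - 6 * K := by linarith
  rw [e1, e2, hx, hy]
  have e3 : ((√3 * x) ^ 2 + (√3 * y) ^ 2 + 2 * (√3 * x * (√3 * y) - 6 * K)) / 4 =
      ((√3 * √3) * (x + y) ^ 2 - 12 * K) / 4 := by ring
  rw [e3, h3]
  ring

/-- for real `α`, `γ` -/
theorem two_norm2 {V : ℂ} {x y K α γ : ℝ} (hx : ‖D‖ = √3 * x) (hy : ‖V‖ = √3 * y)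
    (hK : 6 * K = ‖D‖ * ‖V‖ - ip D V) :
    ‖(α : ℂ) * D - (γ : ℂ) * V‖ ^ 2 = 3 * ((α * x - γ * y) ^ 2 + 4 * α * γ * K) := by
  have h3 : √3 * √3 = 3 := Real.mul_self_sqrt (by norm_num)
  have e1 : ‖(α : ℂ) * D - (γ : ℂ) * V‖ ^ 2 =
      α ^ 2 * ‖D‖ ^ 2 + γ ^ 2 * ‖V‖ ^ 2 - 2 * α * γ * ip D V := by
    rw [nsq, nsq, nsq]
    simp only [ip, Complex.sub_re, Complex.sub_im, Complex.re_ofReal_mul, Complex.im_ofReal_mul]
    ring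
  have e2 : ip D V = ‖D‖ * ‖V‖ - 6 * K := by linarith
  rw [e1, e2, hx, hy]
  have e3 : α ^ 2 * (√3 * x) ^ 2 + γ ^ 2 * (√3 * y) ^ 2 -
      2 * α * γ * (√3 * x * (√3 * y) - 6 * K) =
      (√3 * √3) * (α * x - γ * y) ^ 2 + 12 * α * γ * K := by ring
  rw [e3, h3]
  ring

theorem two_base (h : Face41 a D s1 b1 b2 s2 L l1 l2 l3 l4 yO y1 y2 y3 y4) {x y K q ρ ζ : ℝ}
    (hx0 : 0 ≤ x) (hy0 : 0 ≤ y) (hx : ‖D‖ = √3 * x) (hy : ‖b1 + b2‖ = √3 * y)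
    (hK : 6 * K = ‖D‖ * ‖b1 + b2‖ - ip D (-(b1 + b2))) (hq : 0 ≤ q) (hρ : 0 ≤ ρ)
    (hρ2 : ρ ^ 2 + ((x + y) / 2) ^ 2 - K ≤ q) :
    2 / 3 * (√3 / 2 * (1 + q) * L - A0 * yO) - √3 * q + ρ * |y - x| + y * ζ -
      (1 + q) * √(((c0 + ga) * x - ga * y) ^ 2 + 4 * (c0 + ga) * ga * K) +
      2 / 3 * tri b1 b2 q ζ +
      2 / 3 * (A0 * (a - min 1 a) + √3 / 2 * (3 * q) * (1 - min 1 a)) ≤
      (1 + q) / √3 * (HH l1 l2 l3 l4 y1 y2 y3 y4 + L - 3 * min 1 a -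
        c0 * ‖D - (et0 : ℂ) * (s1 + s2)‖) := by
  have hs3 : 0 < √3 := Real.sqrt_pos.2 (by norm_num)
  have h3 : √3 * √3 = 3 := Real.mul_self_sqrt (by norm_num)
  have hV : ‖-(b1 + b2)‖ = √3 * y := by rw [norm_neg, hy]
  have hK' : 6 * K = ‖D‖ * ‖-(b1 + b2)‖ - ip D (-(b1 + b2)) := by rw [norm_neg, hK]
  have hN1 := two_norm1 (D := D) (V := -(b1 + b2)) hx hV hK'
  have eN : (D + -(b1 + b2)) / 2 = (D - (b1 + b2)) / 2 := by rw [← sub_eq_add_neg]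
  rw [eN] at hN1
  have hsum := h.sum
  have eU : (s1 + s2) / 2 = (-(b1 + b2) - D) / 2 := by
    have : s1 + s2 = -(b1 + b2) - D := by linear_combination hsum
    rw [this]
  have hτ : 0 ≤ √(3 * q) := Real.sqrt_nonneg _
  have hτ2 : √(3 * q) ^ 2 = 3 * q := Real.sq_sqrt (by linarith)
  have hρ' : 0 ≤ √3 * ρ := mul_nonneg hs3.le hρ
  have c1 : ‖(D - (b1 + b2)) / 2‖ ^ 2 + (√3 * ρ) ^ 2 ≤ √(3 * q) ^ 2 := by
    rw [hN1, hτ2]
    have e1 : (√3 * ρ) ^ 2 = (√3 * √3) * ρ ^ 2 := by ring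
    rw [e1, h3]
    linarith
  have hipNU : ip ((D - (b1 + b2)) / 2) ((s1 + s2) / 2) = 3 * (y ^ 2 - x ^ 2) / 4 := by
    have e1 : ip ((D - (b1 + b2)) / 2) ((s1 + s2) / 2) =
        (‖-(b1 + b2)‖ ^ 2 - ‖D‖ ^ 2) / 4 := by
      rw [eU, nsq, nsq]
      simp only [ip, Complex.div_ofNat_re, Complex.div_ofNat_im, Complex.sub_re, Complex.sub_im,
        Complex.neg_re, Complex.neg_im]
      ring
    rw [e1, hV, hx]
    have e2 : ((√3 * y) ^ 2 - (√3 * x) ^ 2) / 4 = (√3 * √3) * (y ^ 2 - x ^ 2) / 4 := by ring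
    rw [e2, h3]
  have hNle : ‖(D - (b1 + b2)) / 2‖ ≤ √3 / 2 * (x + y) := by
    have e1 : ‖(D - (b1 + b2)) / 2‖ = ‖D + -(b1 + b2)‖ / 2 := by
      rw [← eN, norm_div]
      simp
    have e2 := norm_add_le D (-(b1 + b2))
    rw [hV, hx] at e2
    rw [e1]
    linarith
  have c2 : √3 / 2 * |y - x| * ‖(D - (b1 + b2)) / 2‖ ≤
      |ip ((D - (b1 + b2)) / 2) ((s1 + s2) / 2)| := by
    rw [hipNU]
    have e1 : 3 * (y ^ 2 - x ^ 2) / 4 = (3 / 4) * (x + y) * (y - x) := by ring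
    have e2 : 0 ≤ (3 / 4) * (x + y) := by linarith
    rw [e1, abs_mul, abs_of_nonneg e2]
    calc √3 / 2 * |y - x| * ‖(D - (b1 + b2)) / 2‖
        ≤ √3 / 2 * |y - x| * (√3 / 2 * (x + y)) :=
          mul_le_mul_of_nonneg_left hNle (by positivity)
      _ = (√3 * √3) / 4 * (x + y) * |y - x| := by ring
      _ = 3 / 4 * (x + y) * |y - x| := by rw [h3]
  have c3 : √3 / 2 * |y - x| ≤ ‖(s1 + s2) / 2‖ := by
    have e1 : ‖(s1 + s2) / 2‖ = ‖-(b1 + b2) - D‖ / 2 := by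
      rw [eU, norm_div]
      simp
    have e2 := abs_norm_sub_norm_le (-(b1 + b2)) D
    rw [hV, hx, ← mul_sub, abs_mul, abs_of_pos hs3] at e2
    rw [e1]
    linarith
  obtain ⟨P, p1, p2, p3⟩ := exists_P _ _ hτ hρ' c1 c2 c3
  have hb := baseS h (β := 0) hτ P (Complex.I * ((D - (b1 + b2)) / 2)) (by rwa [sub_zero])
    (by rwa [sub_zero])
  rw [ip_I, hτ2] at hb
  have hrr : rr √(3 * q) = 3 * (1 + q) / (2 * √3) := by
    unfold rr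
    rw [hτ2]
    ring
  have hrr2 : 2 / 3 * rr √(3 * q) = (1 + q) / √3 := by
    rw [hrr]
    field_simp
  have hrr3 : rr √(3 * q) = √3 / 2 * (1 + q) := by
    rw [hrr]
    rw [div_eq_iff (by positivity)]
    have e1 : √3 / 2 * (1 + q) * (2 * √3) = (√3 * √3) * (1 + q) := by ring
    rw [e1, h3]
  -- the norm of `D'`
  have hD' : c0 * ‖D - (et0 : ℂ) * (s1 + s2)‖ =
      √3 * √(((c0 + ga) * x - ga * y) ^ 2 + 4 * (c0 + ga) * ga * K) := by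
    have hc0 : 0 < c0 := lt_trans (by norm_num) c0_num.1
    have e1 : c0 * ‖D - (et0 : ℂ) * (s1 + s2)‖ =
        ‖((c0 + ga : ℝ) : ℂ) * D - ((ga : ℝ) : ℂ) * (-(b1 + b2))‖ := by
      have e2 : c0 = ‖((c0 : ℝ) : ℂ)‖ := by
        rw [Complex.norm_real, Real.norm_eq_abs, abs_of_pos hc0]
      nth_rewrite 1 [e2]
      rw [← norm_mul]
      congr 1
      have e3 : s1 + s2 = -(b1 + b2) - D := by linear_combination hsum
      have e4 : ((ga : ℝ) : ℂ) = (c0 : ℂ) * (et0 : ℂ) := by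
        rw [← Complex.ofReal_mul, c0_et0]
      rw [e3]
      push_cast
      rw [e4]
      ring
    have e5 := two_norm2 (D := D) (V := -(b1 + b2)) (α := c0 + ga) (γ := ga) hx hV hK'
    rw [e1]
    rw [← Real.sqrt_mul (by norm_num : (0:ℝ) ≤ 3), ← e5, Real.sqrt_sq (norm_nonneg _)]
  have htri : √(3 * q) * (‖b1‖ + ‖b2‖) / 2 - cr b1 b2 / 2 = tri b1 b2 q ζ + 3 / 2 * (y * ζ) := by
    unfold tri
    rw [hy]
    have e1 : √3 * y * (√3 * ζ) / 2 = (√3 * √3) * (y * ζ) / 2 := by ring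
    rw [e1, h3]
    ring
  rw [htri] at hb
  have hpu : √3 * ρ * (√3 / 2 * |y - x|) = 3 / 2 * (ρ * |y - x|) := by
    have e1 : √3 * ρ * (√3 / 2 * |y - x|) = (√3 * √3) / 2 * (ρ * |y - x|) := by ring
    rw [e1, h3]
  rw [hpu] at p3
  have hR : (1 + q) / √3 * (HH l1 l2 l3 l4 y1 y2 y3 y4 + L - 3 * min 1 a -
        c0 * ‖D - (et0 : ℂ) * (s1 + s2)‖) =
      2 / 3 * (rr √(3 * q) * (HH l1 l2 l3 l4 y1 y2 y3 y4 + L - 3 * min 1 a)) -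
        (1 + q) * √(((c0 + ga) * x - ga * y) ^ 2 + 4 * (c0 + ga) * ga * K) := by
    rw [hD', ← mul_assoc (2 / 3 : ℝ), hrr2]
    field_simp
  rw [hR]
  rw [← hrr3]
  have e6 : √3 / 2 * (3 * q) = 3 / 2 * (√3 * q) := by ring
  rw [e6] at hb ⊢
  have e7 : (0 : ℝ) * (‖s1‖ + ‖s2‖) / 2 = 0 := by ring
  rw [e7] at hb
  linarith

end Pool.Agent.Helper98.LC3
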