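import Pool.Agent.Helper98.LC3.S.TwoInterp
import Pool.Agent.Helper98.LC3.S.Arcq
import Pool.Agent.Helper98.LC3.S.Far41
import Pool.Agent.Helper98.LC3.S.CertDef
import Pool.Agent.Helper98.LC3.S.CTwoA
import Pool.Agent.Helper98.LC3.S.CTwoB
import Pool.Agent.Helper98.LC3.S.CTwoC
import Pool.Agent.Helper98.LC3.S.CTwoD

/-!
# LC3-S16: the two-sided inequality near the optimal polygon, outside the central region

* `two_all`: `x ≤ 9/10` or not, `y ≤ 23/20` or not: `twoa_top` .. `twod_top` (names in the files `CTwoA` .. `CTwoD`).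
* `two_of_any`: `TwoAny x y`: `Two0`, `Two1` give `f0 = f1 = 1/2500` in `two_interp` with `lam = .550475 x - .026875 y > 0` (`x ≥ 1/4`, `y ≤ 37/20`), `|(c0 + ga) x - ga y| ≤ lam`
  (`c0 + ga = 1/√3 - ga`; `.5504 ≤ c0 + ga ≤ .550475`, `.026875 < ga < .026876`), `arc_q` (`L ≤ 3m + a/20 ≤ 3.1`), `√3 ≤ 1.7320509`; `Two1`: divide by `lam`.
  `tri ≥ 0` (`tri_nonneg`; the constraint for `ζ` is convex).  So `1/2500 ≤ (1 + q)/√3 * σ`, `q ≤ 5`: `σ ≥ √3/(6 * 2500) ≥ 1/20000`.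
-/

namespace Pool.Agent.Helper98.LC3

open Finset Real Pool.Agent.Helper98.LC Pool.Agent.Helper38.LC2

variable {a : ℝ} {D s1 b1 b2 s2 : ℂ} {L l1 l2 l3 l4 yO y1 y2 y3 y4 : ℝ}

theorem two_all {x y : ℝ} (h0 : 1 / 4 ≤ x) (h1 : x ≤ 31 / 20) (k0 : 9 / 20 ≤ y)
    (k1 : y ≤ 37 / 20) : CenXY x y ∨ TwoAny x y := by
  rcases le_total x (9 / 10) with hx | hx <;> rcases le_total y (23 / 20) with hy | hy
  · exact twoa_top h0 hx k0 hy
  · exact twoc_top h0 hx hy k1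
  · exact twob_top hx h1 k0 hy
  · exact twod_top hx h1 hy k1

theorem two_of_any (h : Face41 a D s1 b1 b2 s2 L l1 l2 l3 l4 yO y1 y2 y3 y4) {x y : ℝ}
    (hx : ‖D‖ = √3 * x) (hy : ‖b1 + b2‖ = √3 * y) (hn : Near41 D (-(b1 + b2)))
    (hT : TwoAny x y) :
    3 * min 1 a + c0 * ‖D - (et0 : ℂ) * (s1 + s2)‖ + 1 / 20000 ≤
      HH l1 l2 l3 l4 y1 y2 y3 y4 + L := by
  obtain ⟨Qb, hQb, ⟨s, T, th, sec, q0, ρ0, ζ0, g0', ht0, hq0, hqQ0, hρ0, hζ0, hg0, hc0, hz0, hs0, hF0⟩,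
    ⟨s', T', th', sec', q1, ρ1, ζ1, g1', ht1, hq1, hqQ1, hρ1, hζ1, hg1, hc1, hz1, hs1, hF1⟩⟩ := hT
  obtain ⟨n1, n2, n3, n4, n5⟩ := hn
  rw [norm_neg] at n3 n4 n5
  have s3p : (0 : ℝ) < √3 := Real.sqrt_pos.2 (by norm_num)
  have s3u : √3 < 1.7320509 := by
    rw [Real.sqrt_lt' (by norm_num)]
    norm_num
  have s3l : (1.732 : ℝ) < √3 := by
    rw [Real.lt_sqrt (by norm_num)]
    norm_num
  rw [hx] at n1 n2
  rw [hy] at n3 n4
  have hx1 : 1 / 4 ≤ x := le_of_mul_le_mul_left n1 s3p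
  have hx2 : x ≤ 31 / 20 := le_of_mul_le_mul_left n2 s3p
  have hy1 : 9 / 20 ≤ y := le_of_mul_le_mul_left n3 s3p
  have hy2 : y ≤ 37 / 20 := le_of_mul_le_mul_left n4 s3p
  have hxp : 0 < x := by linarith
  have hyp : 0 < y := by linarith
  have hL : L ≤ 31 / 10 := by
    have e1 := h.capO
    have e2 : min 1 a ≤ 1 := min_le_left _ _
    have e3 := h.lt
    linarith
  obtain ⟨hc1n, hc2n⟩ := c0_num
  obtain ⟨hga1, hga2⟩ := ga_num
  have hcg : c0 + ga ≤ 550475 / 1000000 := by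
    have e1 : c0 + 2 * ga = 1 / √3 := by
      rw [← c0_et0', ← c0_et0]
      ring
    have e2 : 1 / √3 ≤ 577351 / 1000000 := by
      rw [div_le_iff₀ s3p]
      have : (1.7320505 : ℝ) < √3 := by
        rw [Real.lt_sqrt (by norm_num)]
        norm_num
      linarith
    have e3 : ga > 26875 / 1000000 + 0 := by linarith
    linarith
  set lam : ℝ := 550475 / 1000000 * x - 26875 / 1000000 * y with hlamdef
  have hlam0 : 0 < lam := by
    rw [hlamdef]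
    linarith
  have hga0 : 0 < ga := by linarith
  have hlam : |(c0 + ga) * x - ga * y| ≤ lam := by
    rw [abs_le]
    have e1 : (c0 + ga) * x ≤ 550475 / 1000000 * x := mul_le_mul_of_nonneg_right hcg hxp.le
    have e2 : 26875 / 1000000 * y ≤ ga * y := mul_le_mul_of_nonneg_right (by linarith) hyp.le
    have e3 : ga * y ≤ 26876 / 1000000 * y := mul_le_mul_of_nonneg_right (by linarith) hyp.le
    have e4 : 1 / 2 * x ≤ (c0 + ga) * x := mul_le_mul_of_nonneg_right (by linarith) hxp.le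
    constructor
    · rw [hlamdef]
      linarith
    · rw [hlamdef]
      linarith
  obtain ⟨t, t0, t1, hK⟩ := two_t hxp hyp hx hy n5
  have harc0 := arc_q h.eO hL ht0 hq0 hx hs0
  have harc1 := arc_q h.eO hL ht1 hq1 hx hs1
  have hq0s : √3 * q0 ≤ 17320509 / 10000000 * q0 := mul_le_mul_of_nonneg_right (by linarith) hq0
  have hq1s : √3 * q1 ≤ 17320509 / 10000000 * q1 := mul_le_mul_of_nonneg_right (by linarith) hq1
  have hmain := two_interp h hxp.le hyp.le hx hy t0 t1 hK (lam := lam) (Qb := Qb) (q0 := q0)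
    (q1 := q1) (ρ0 := ρ0) (ρ1 := ρ1) (ζ0 := ζ0) (ζ1 := ζ1) (e0 := g0') (e1 := g1')
    (f0 := 1 / 2500) (f1 := 1 / 2500) hlam0 hlam hq0 hq1 hqQ0 hqQ1 hρ0 hρ1 hg0 hg1 hc0 hc1
    (by
      have e1 : (1 + q0) * (x * sec - lam) = (1 + q0) * (x * sec) - (1 + q0) * lam := by ring
      rw [e1] at hF0
      linarith)
    (by
      have e1 : (1 + q1) * (x * sec' - lam) = (1 + q1) * (x * sec') - (1 + q1) * lam := by ring
      rw [e1] at hF1
      have e2 := (div_le_iff₀ hlam0).2 hF1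
      linarith)
  have htri : 0 ≤ tri b1 b2 ((1 - t) * q0 + t * q1) ((1 - t) * ζ0 + t * ζ1) := by
    refine tri_nonneg b1 b2 hy ?_ ?_
    · have e1 : 0 ≤ (1 - t) * ζ0 := mul_nonneg (by linarith) hζ0
      have e2 : 0 ≤ t * ζ1 := mul_nonneg t0 hζ1
      linarith
    · have e1 : (1 - t) * (ζ0 ^ 2 + y ^ 2 / 4) ≤ (1 - t) * q0 :=
        mul_le_mul_of_nonneg_left hz0 (by linarith)
      have e2 : t * (ζ1 ^ 2 + y ^ 2 / 4) ≤ t * q1 := mul_le_mul_of_nonneg_left hz1 t0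
      have e3 : 0 ≤ (1 - t) * t * (ζ0 - ζ1) ^ 2 :=
        mul_nonneg (mul_nonneg (by linarith) t0) (sq_nonneg _)
      have e4 : ((1 - t) * ζ0 + t * ζ1) ^ 2 =
          (1 - t) * ζ0 ^ 2 + t * ζ1 ^ 2 - (1 - t) * t * (ζ0 - ζ1) ^ 2 := by ring
      rw [e4]
      linarith
  set q : ℝ := (1 - t) * q0 + t * q1 with hqdef
  have hq5 : q ≤ 5 := by
    have e1 : (1 - t) * q0 ≤ (1 - t) * Qb := mul_le_mul_of_nonneg_left hqQ0 (by linarith)
    have e2 : t * q1 ≤ t * Qb := mul_le_mul_of_nonneg_left hqQ1 t0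
    rw [hqdef]
    linarith
  have hq00 : 0 ≤ q := by
    have e1 : 0 ≤ (1 - t) * q0 := mul_nonneg (by linarith) hq0
    have e2 : 0 ≤ t * q1 := mul_nonneg t0 hq1
    rw [hqdef]
    linarith
  set σ : ℝ := HH l1 l2 l3 l4 y1 y2 y3 y4 + L - 3 * min 1 a -
    c0 * ‖D - (et0 : ℂ) * (s1 + s2)‖ with hσ
  have h1 : 1 / 2500 ≤ (1 + q) / √3 * σ := by
    have e1 : (1 - t) * (1 / 2500 : ℝ) + t * (1 / 2500) = 1 / 2500 := by ring
    rw [e1] at hmain
    linarith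
  have h2 : √3 / 2500 ≤ (1 + q) * σ := by
    have e1 : (1 + q) / √3 * σ = (1 + q) * σ / √3 := by ring
    rw [e1, le_div_iff₀ s3p] at h1
    linarith
  have hσ0 : 0 < σ := by
    by_contra hc
    push Not at hc
    have : (1 + q) * σ ≤ 0 := mul_nonpos_of_nonneg_of_nonpos (by linarith) hc
    have e2 : 0 < √3 / 2500 := by positivity
    linarith
  have h3 : (1 + q) * σ ≤ 6 * σ := mul_le_mul_of_nonneg_right (by linarith) hσ0.le
  have h4 : 1 / 20000 ≤ σ := by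
    have : (1.732 : ℝ) / 2500 ≤ 6 * σ := by linarith
    linarith
  rw [hσ] at h4
  linarith

end Pool.Agent.Helper98.LC3
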